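import Mathlib

/-!
Local behaviour of the complex Gamma function along horizontal lines: for `1 ≤ σ` and real `u`
with `1 ≤ σ + u` one has `Γ(σ+u+ix) = Γ(σ+ix) exp (a u + ρ(u))` with `‖ρ(u)‖ ≤ (5/6) u ^ 2`.
-/

open Complex Filter Topology Finset

namespace Pool.Agent.H6

/-- the local remainder term -/
noncomputable def rem (w : ℂ) (u : ℝ) : ℂ := u / w - (log (w + u) - log w)

lemma exp_rem {w : ℂ} {u : ℝ} (hw : 0 < w.re) (hwu : 0 < w.re + u) :
    w / (w + u) = exp (-(u / w) + rem w u) := by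
  have h1 : w ≠ 0 := by
    intro h; simp [h] at hw
  have h2 : w + u ≠ 0 := by
    intro h
    have := congrArg Complex.re h
    simp at this
    linarith
  have : -(u / w) + rem w u = log w - log (w + u) := by
    unfold rem; ring
  rw [this, Complex.exp_sub, Complex.exp_log h1, Complex.exp_log h2]

lemma norm_ge_of_re {w : ℂ} {c : ℝ} (h : c ≤ w.re) : c ≤ ‖w‖ :=
  h.trans (Complex.re_le_norm w)

/-- bound of the remainder, for `u ≥ 0` in a signed version -/
lemma norm_rem_aux {w : ℂ} {c : ℝ} (hc : 0 < c) (hw : c ≤ w.re) (s : ℝ) (hs : s = 1 ∨ s = -1)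
    {u : ℝ} (hu : 0 ≤ u) (hwu : c ≤ w.re + s * u) : ‖rem w (s * u)‖ ≤ u ^ 2 / (2 * c ^ 2) := by
  have hwn : c ≤ ‖w‖ := norm_ge_of_re hw
  have hw0 : w ≠ 0 := by
    intro h; simp [h] at hw; linarith
  have key : ∀ τ ∈ Set.Icc (0 : ℝ) u, c ≤ w.re + s * τ := by
    intro τ hτ
    rcases hs with rfl | rfl
    · have := hτ.1; linarith
    · have := hτ.2; linarith
  have hder : ∀ τ ∈ Set.Icc (0 : ℝ) u,
      HasDerivAt (fun τ : ℝ => rem w (s * τ)) (s * (1 / w - 1 / (w + (s * τ : ℝ)))) τ := by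
    intro τ hτ
    unfold rem
    have h0 : HasDerivAt (fun τ : ℝ => ((s * τ : ℝ) : ℂ)) (s : ℂ) τ := by
      have : HasDerivAt (fun τ : ℝ => s * τ) s τ := by
        simpa using (hasDerivAt_id τ).const_mul s
      exact this.ofReal_comp
    have h1 : HasDerivAt (fun τ : ℝ => ((s * τ : ℝ) : ℂ) / w) ((s : ℂ) / w) τ := h0.div_const w
    have h2 : HasDerivAt (fun τ : ℝ => w + ((s * τ : ℝ) : ℂ)) (s : ℂ) τ := h0.const_add w
    have h3 : HasDerivAt (fun τ : ℝ => log (w + ((s * τ : ℝ) : ℂ)))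
        ((s : ℂ) / (w + ((s * τ : ℝ) : ℂ))) τ := by
      apply h2.clog_real
      left
      have := key τ hτ
      simp at this ⊢
      linarith
    have := h1.sub (h3.sub_const (log w))
    convert! this using 1
    ring
  have hmain := image_norm_le_of_norm_deriv_right_le_deriv_boundary
    (f := fun τ : ℝ => rem w (s * τ)) (f' := fun τ => s * (1 / w - 1 / (w + (s * τ : ℝ))))
    (a := 0) (b := u) (B := fun τ => τ ^ 2 / (2 * c ^ 2)) (B' := fun τ => τ / c ^ 2)
    (fun τ hτ => (hder τ hτ).continuousAt.continuousWithinAt)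
    (fun τ hτ => (hder τ ⟨hτ.1, hτ.2.le⟩).hasDerivWithinAt)
    (by simp [rem])
    (by
      intro τ
      have := ((hasDerivAt_pow 2 τ).div_const (2 * c ^ 2))
      convert! this using 1
      field_simp
      ring)
    (by
      intro τ hτ
      have hk := key τ ⟨hτ.1, hτ.2.le⟩
      have hn2 : c ≤ ‖w + (s * τ : ℝ)‖ := by
        apply norm_ge_of_re
        simpa using hk
      have hne : w + (s * τ : ℝ) ≠ 0 := by
        intro h
        rw [h] at hn2
        simp at hn2
        linarith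
      have e : (s : ℂ) * (1 / w - 1 / (w + (s * τ : ℝ)))
          = (s : ℂ) * (s : ℂ) * τ / (w * (w + (s * τ : ℝ))) := by
        field_simp
        push_cast
        ring
      rw [e]
      have hss : (s : ℂ) * (s : ℂ) = 1 := by
        rcases hs with rfl | rfl <;> simp
      rw [hss, one_mul, norm_div, norm_mul, Complex.norm_real, Real.norm_eq_abs,
        abs_of_nonneg hτ.1]
      apply div_le_div_of_nonneg_left hτ.1 (by positivity)
      nlinarith [norm_nonneg w, norm_nonneg (w + (s * τ : ℝ))])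
    (Set.right_mem_Icc.mpr hu)
  simpa using hmain

lemma norm_rem_le {w : ℂ} {c : ℝ} (hc : 0 < c) (hw : c ≤ w.re) {u : ℝ} (hwu : c ≤ w.re + u) :
    ‖rem w u‖ ≤ u ^ 2 / (2 * c ^ 2) := by
  rcases le_total 0 u with h | h
  · have := norm_rem_aux hc hw 1 (Or.inl rfl) h (by simpa using hwu)
    simpa using this
  · have := norm_rem_aux hc hw (-1) (Or.inr rfl) (u := -u) (by linarith) (by simpa using hwu)
    simpa using this

/-- partial digamma -/
noncomputable def psiSeq (s : ℂ) (n : ℕ) : ℂ :=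
  (Real.log n : ℂ) - ∑ j ∈ range (n + 1), 1 / (s + j)

lemma gammaSeq_shift {s : ℂ} {u : ℝ} (hs : 1 ≤ s.re) (hsu : 1 ≤ s.re + u) {n : ℕ} (hn : n ≠ 0) :
    GammaSeq (s + u) n =
      GammaSeq s n * exp (u * psiSeq s n + ∑ j ∈ range (n + 1), rem (s + j) u) := by
  unfold GammaSeq psiSeq
  have hn' : (n : ℂ) ≠ 0 := by exact_mod_cast hn
  have h1 : (n : ℂ) ^ (s + u) = (n : ℂ) ^ s * exp (u * (Real.log n : ℂ)) := by
    rw [cpow_add _ _ hn', cpow_def_of_ne_zero hn' (u : ℂ), Complex.natCast_log, mul_comm (u : ℂ)]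
  have hne : ∀ j : ℕ, s + j ≠ 0 := by
    intro j h
    have := congrArg Complex.re h
    simp at this
    have : (0:ℝ) ≤ j := Nat.cast_nonneg j
    linarith
  have hneu : ∀ j : ℕ, s + u + j ≠ 0 := by
    intro j h
    have := congrArg Complex.re h
    simp at this
    have : (0:ℝ) ≤ j := Nat.cast_nonneg j
    linarith
  have h2 : ∏ j ∈ range (n + 1), ((s + j) / (s + u + j))
      = exp (- u * ∑ j ∈ range (n + 1), 1 / (s + j) + ∑ j ∈ range (n + 1), rem (s + j) u) := by
    rw [Finset.mul_sum, ← Finset.sum_add_distrib, Complex.exp_sum]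
    apply Finset.prod_congr rfl
    intro j _
    have hj : (0:ℝ) ≤ j := Nat.cast_nonneg j
    have := exp_rem (w := s + j) (u := u) (by simp; linarith) (by simp; linarith)
    rw [show s + u + j = s + j + u by ring, this]
    congr 1
    ring
  have h3 : ∏ j ∈ range (n + 1), (s + j) =
      (∏ j ∈ range (n + 1), ((s + j) / (s + u + j))) * ∏ j ∈ range (n + 1), (s + u + j) := by
    rw [← Finset.prod_mul_distrib]
    apply Finset.prod_congr rfl
    intro j _
    field_simp [hneu j]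
  have hP : ∏ j ∈ range (n + 1), (s + j) ≠ 0 := Finset.prod_ne_zero_iff.mpr (fun j _ => hne j)
  have hQ : ∏ j ∈ range (n + 1), (s + u + j) ≠ 0 :=
    Finset.prod_ne_zero_iff.mpr (fun j _ => hneu j)
  rw [h1]
  have h4 : exp (u * ((Real.log n : ℂ) - ∑ j ∈ range (n + 1), 1 / (s + j))
      + ∑ j ∈ range (n + 1), rem (s + j) u)
      = exp (u * (Real.log n : ℂ)) * (∏ j ∈ range (n + 1), ((s + j) / (s + u + j))) := by
    rw [h2, ← Complex.exp_add]
    congr 1
    ring
  rw [h4, div_mul_eq_mul_div, div_eq_div_iff hQ hP]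
  rw [h3]
  ring

lemma summable_one_div_sq_shift : Summable (fun j : ℕ => 1 / ((j : ℝ) + 1) ^ 2) := by
  have := (summable_nat_add_iff 1).mpr (Real.summable_one_div_nat_pow.mpr (by norm_num : 1 < 2))
  simpa using this

lemma tsum_one_div_sq_shift_le : ∑' j : ℕ, 1 / ((j : ℝ) + 1) ^ 2 ≤ 5 / 3 := by
  have h := hasSum_zeta_two
  have h2 := (hasSum_nat_add_iff' (f := fun n : ℕ => 1 / (n : ℝ) ^ 2) 1).mpr h
  have h3 : ∑' j : ℕ, 1 / ((j : ℝ) + 1) ^ 2 = Real.pi ^ 2 / 6 := by
    have := h2.tsum_eq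
    simp at this
    simpa using this
  rw [h3]
  have := Real.pi_lt_d2
  have := Real.pi_pos
  nlinarith

lemma norm_rem_le_nat {s : ℂ} {u : ℝ} (hs : 1 ≤ s.re) (hsu : 1 ≤ s.re + u) (j : ℕ) :
    ‖rem (s + j) u‖ ≤ u ^ 2 / 2 * (1 / ((j : ℝ) + 1) ^ 2) := by
  have hj : (0:ℝ) ≤ j := Nat.cast_nonneg j
  have := norm_rem_le (w := s + j) (c := j + 1) (u := u) (by linarith) (by simp; linarith)
    (by simp; linarith)
  calc _ ≤ _ := this
    _ = _ := by field_simp

lemma summable_rem {s : ℂ} {u : ℝ} (hs : 1 ≤ s.re) (hsu : 1 ≤ s.re + u) :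
    Summable (fun j : ℕ => rem (s + j) u) :=
  Summable.of_norm_bounded (summable_one_div_sq_shift.mul_left (u ^ 2 / 2))
    (norm_rem_le_nat hs hsu)

/-- total remainder -/
noncomputable def rho (s : ℂ) (u : ℝ) : ℂ := ∑' j : ℕ, rem (s + j) u

lemma norm_rho_le {s : ℂ} {u : ℝ} (hs : 1 ≤ s.re) (hsu : 1 ≤ s.re + u) :
    ‖rho s u‖ ≤ 5 / 6 * u ^ 2 := by
  have h1 : ‖rho s u‖ ≤ ∑' j : ℕ, u ^ 2 / 2 * (1 / ((j : ℝ) + 1) ^ 2) :=
    tsum_of_norm_bounded (summable_one_div_sq_shift.mul_left (u ^ 2 / 2)).hasSum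
      (norm_rem_le_nat hs hsu)
  rw [tsum_mul_left] at h1
  have := tsum_one_div_sq_shift_le
  nlinarith [sq_nonneg u]

lemma tendsto_sum_rem {s : ℂ} {u : ℝ} (hs : 1 ≤ s.re) (hsu : 1 ≤ s.re + u) :
    Tendsto (fun n : ℕ => ∑ j ∈ range (n + 1), rem (s + j) u) atTop (𝓝 (rho s u)) :=
  ((summable_rem hs hsu).hasSum.tendsto_sum_nat).comp (tendsto_add_atTop_nat 1)

lemma exists_tendsto_psiSeq {s : ℂ} (hs : 1 ≤ s.re) :
    ∃ a : ℂ, Tendsto (psiSeq s) atTop (𝓝 a) := by
  have hsum : Summable (fun j : ℕ => (1 / ((j : ℂ) + 1) - 1 / (s + j))) := by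
    apply Summable.of_norm_bounded (summable_one_div_sq_shift.mul_left ‖s - 1‖)
    intro j
    have hj : (0:ℝ) ≤ j := Nat.cast_nonneg j
    have h1 : (j : ℂ) + 1 ≠ 0 := by exact_mod_cast Nat.succ_ne_zero j
    have h2 : (j : ℝ) + 1 ≤ ‖s + j‖ := norm_ge_of_re (by simp; linarith)
    have h3 : s + j ≠ 0 := by
      intro h; rw [h] at h2; simp at h2; linarith
    have h4 : (1 / ((j : ℂ) + 1) - 1 / (s + j)) = (s - 1) / (((j : ℂ) + 1) * (s + j)) := by
      field_simp
      ring
    rw [h4, norm_div, norm_mul]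
    have h5 : ‖(j : ℂ) + 1‖ = (j : ℝ) + 1 := by
      have : ((j : ℂ) + 1) = (((j : ℝ) + 1 : ℝ) : ℂ) := by push_cast; rfl
      rw [this, Complex.norm_real, Real.norm_eq_abs, abs_of_pos (by linarith)]
    rw [h5, mul_one_div]
    apply div_le_div_of_nonneg_left (norm_nonneg _) (by positivity)
    nlinarith
  have h1 := (hsum.hasSum.tendsto_sum_nat).comp (tendsto_add_atTop_nat 1)
  have h2 := Real.tendsto_harmonic_sub_log
  have h3 : Tendsto (fun n : ℕ => (((Real.log n : ℝ) - (harmonic n : ℚ) : ℝ) : ℂ)) atTop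
      (𝓝 ((-Real.eulerMascheroniConstant : ℝ) : ℂ)) := by
    apply (Complex.continuous_ofReal.tendsto _).comp
    have := h2.neg
    simpa using this
  have h4 : Tendsto (fun n : ℕ => (1 / ((n : ℂ) + 1))) atTop (𝓝 0) := by
    exact tendsto_one_div_add_atTop_nhds_zero_nat
  have h5 := (h3.sub h4).add h1
  refine ⟨_, h5.congr ?_⟩
  intro n
  unfold psiSeq
  simp only [Function.comp_def]
  rw [Finset.sum_sub_distrib]
  have h6 : (∑ j ∈ range (n + 1), 1 / ((j : ℂ) + 1)) = ((harmonic n : ℚ) : ℂ) + 1 / ((n : ℂ) + 1) := by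
    rw [Finset.sum_range_succ]
    congr 1
    unfold harmonic
    push_cast
    apply Finset.sum_congr rfl
    intro j _
    simp
  rw [h6]
  push_cast
  ring

/-- the limit of `psiSeq` (the digamma function) -/
noncomputable def psi (s : ℂ) : ℂ := limUnder atTop (psiSeq s)

lemma tendsto_psiSeq {s : ℂ} (hs : 1 ≤ s.re) : Tendsto (psiSeq s) atTop (𝓝 (psi s)) :=
  tendsto_nhds_limUnder (exists_tendsto_psiSeq hs)

/-- Local form of the Gamma function on horizontal lines. -/
theorem gamma_shift {s : ℂ} {u : ℝ} (hs : 1 ≤ s.re) (hsu : 1 ≤ s.re + u) :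
    Gamma (s + u) = Gamma s * exp (u * psi s + rho s u) := by
  have h1 := GammaSeq_tendsto_Gamma (s + u)
  have h2 : Tendsto (fun n => GammaSeq s n *
      exp (u * psiSeq s n + ∑ j ∈ range (n + 1), rem (s + j) u)) atTop
      (𝓝 (Gamma s * exp (u * psi s + rho s u))) := by
    apply (GammaSeq_tendsto_Gamma s).mul
    apply (Complex.continuous_exp.tendsto _).comp
    exact ((tendsto_psiSeq hs).const_mul _).add (tendsto_sum_rem hs hsu)
  refine tendsto_nhds_unique h1 (h2.congr' ?_)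
  filter_upwards [eventually_ne_atTop 0] with n hn
  rw [gammaSeq_shift hs hsu hn]

lemma arctan_step {x : ℝ} (hx : 0 < x) (j : ℕ) :
    x / (((j : ℝ) + 1) ^ 2 + x ^ 2) ≤
      Real.arctan (((j : ℝ) + 1) / x) - Real.arctan ((j : ℝ) / x) := by
  have hj : (0:ℝ) ≤ j := Nat.cast_nonneg j
  have hlt : (j : ℝ) / x < ((j : ℝ) + 1) / x := by
    apply div_lt_div_of_pos_right _ hx
    linarith
  obtain ⟨c, hc, hc'⟩ := exists_deriv_eq_slope Real.arctan hlt
    Real.continuous_arctan.continuousOn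
    Real.differentiable_arctan.differentiableOn
  have hc2 : 1 / (1 + c ^ 2) = (Real.arctan (((j : ℝ) + 1) / x) - Real.arctan ((j : ℝ) / x)) /
      ((((j : ℝ) + 1) / x) - (j : ℝ) / x) := by
    rw [← hc', Real.deriv_arctan]
  have h1 : Real.arctan (((j : ℝ) + 1) / x) - Real.arctan ((j : ℝ) / x)
      = (1 / (1 + c ^ 2)) * ((((j : ℝ) + 1) / x) - (j : ℝ) / x) := by
    rw [hc2]
    have : ((j : ℝ) + 1) / x - (j : ℝ) / x ≠ 0 := (sub_pos.mpr hlt).ne'
    field_simp
  rw [h1]
  have hc0 : 0 ≤ c := le_trans (by positivity) hc.1.le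
  have h2 : c * x ≤ (j : ℝ) + 1 := by
    have := hc.2.le
    rwa [le_div_iff₀ hx] at this
  have h3 : (((j : ℝ) + 1) / x) - (j : ℝ) / x = 1 / x := by
    field_simp
    ring
  have h4 : 1 / (1 + c ^ 2) * (1 / x) = x / (x ^ 2 + (c * x) ^ 2) := by
    field_simp
  rw [h3, h4]
  apply div_le_div_of_nonneg_left hx.le (by positivity)
  have : 0 ≤ c * x := by positivity
  nlinarith

lemma abs_im_psiSeq_le {s : ℂ} (hs : 1 ≤ s.re) (n : ℕ) : |(psiSeq s n).im| ≤ Real.pi / 2 := by
  rcases eq_or_ne s.im 0 with h0 | h0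
  · have : (psiSeq s n).im = 0 := by
      unfold psiSeq
      rw [Complex.sub_im, Complex.im_sum]
      simp only [Complex.ofReal_im, zero_sub, neg_eq_zero]
      apply Finset.sum_eq_zero
      intro j _
      have : (s + j).im = 0 := by simp [h0]
      simp [Complex.div_im, h0]
    rw [this]; simp; positivity
  have hx : 0 < |s.im| := abs_pos.mpr h0
  have h1 : |(psiSeq s n).im| ≤ ∑ j ∈ range (n + 1),
      |s.im| / (((j : ℝ) + 1) ^ 2 + |s.im| ^ 2) := by
    unfold psiSeq
    rw [Complex.sub_im, Complex.im_sum]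
    simp only [Complex.ofReal_im, zero_sub, abs_neg]
    apply (Finset.abs_sum_le_sum_abs _ _).trans
    apply Finset.sum_le_sum
    intro j _
    have hj : (0:ℝ) ≤ j := Nat.cast_nonneg j
    have : (1 / (s + j)).im = - s.im / ((s.re + j) ^ 2 + s.im ^ 2) := by
      rw [one_div, Complex.inv_im, Complex.normSq_apply]
      simp
      ring_nf
    rw [this, abs_div, abs_neg, sq_abs]
    have h5 : 0 < (s.re + j) ^ 2 + s.im ^ 2 := by positivity
    rw [abs_of_pos h5]
    apply div_le_div_of_nonneg_left hx.le (by positivity)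
    nlinarith
  refine h1.trans ?_
  calc _ ≤ ∑ j ∈ range (n + 1), (Real.arctan (((j : ℝ) + 1) / |s.im|)
        - Real.arctan ((j : ℝ) / |s.im|)) := Finset.sum_le_sum (fun j _ => arctan_step hx j)
    _ = Real.arctan (((n : ℝ) + 1) / |s.im|) - Real.arctan (0 / |s.im|) := by
        have := Finset.sum_range_sub (fun j : ℕ => Real.arctan ((j : ℝ) / |s.im|)) (n + 1)
        push_cast at this
        exact this
    _ ≤ Real.pi / 2 := by
        simp
        exact (Real.arctan_lt_pi_div_two _).le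

lemma abs_im_psi_le {s : ℂ} (hs : 1 ≤ s.re) : |(psi s).im| ≤ Real.pi / 2 := by
  have h := tendsto_psiSeq hs
  have h2 : Tendsto (fun n => |(psiSeq s n).im|) atTop (𝓝 |(psi s).im|) :=
    ((Complex.continuous_im.tendsto _).comp h).abs
  exact le_of_tendsto' h2 (fun n => abs_im_psiSeq_le hs n)

/-- the real part of `psi s` is within `5/6` of `log ‖s‖` -/
lemma abs_re_psi_sub_log_le {s : ℂ} (hs : 1 ≤ s.re) :
    |(psi s).re - Real.log ‖s‖| ≤ 5 / 6 := by
  have hs0 : s ≠ 0 := by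
    intro h; simp [h] at hs; linarith
  have h1 := gamma_shift (s := s) (u := 1) hs (by linarith)
  have hG : Gamma s ≠ 0 := Gamma_ne_zero_of_re_pos (by linarith)
  rw [Complex.ofReal_one, Complex.Gamma_add_one s hs0, mul_comm s] at h1
  have h2 : s = exp (1 * psi s + rho s 1) := mul_left_cancel₀ hG h1
  have h3 : Real.log ‖s‖ = (psi s).re + (rho s 1).re := by
    conv_lhs => rw [h2]
    rw [Complex.norm_exp, Real.log_exp]
    simp
  have h4 := norm_rho_le (s := s) (u := 1) hs (by linarith)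
  have h5 := Complex.abs_re_le_norm (rho s 1)
  rw [h3]
  have : (psi s).re - ((psi s).re + (rho s 1).re) = - (rho s 1).re := by ring
  rw [this, abs_neg]
  linarith

end Pool.Agent.H6
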