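import Mathlib

/-!
Gaussian moments and small inequalities.
-/

open Real MeasureTheory Set Filter Topology

namespace Pool.Agent.H6

lemma norm_cexp_sub_one_le (z : ℂ) : ‖Complex.exp z - 1‖ ≤ Real.exp ‖z‖ - 1 := by
  have h := image_norm_le_of_norm_deriv_right_le_deriv_boundary
    (f := fun τ : ℝ => Complex.exp (τ * z) - 1) (f' := fun τ : ℝ => Complex.exp (τ * z) * z)
    (a := 0) (b := 1) (B := fun τ => Real.exp (τ * ‖z‖) - 1)
    (B' := fun τ => Real.exp (τ * ‖z‖) * ‖z‖)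
    (by fun_prop)
    (by
      intro τ _
      have h1 : HasDerivAt (fun τ : ℝ => (τ : ℂ) * z) z τ := by
        simpa using (Complex.ofRealCLM.hasDerivAt (x := τ)).mul_const z
      exact (h1.cexp.sub_const 1).hasDerivWithinAt)
    (by simp)
    (by
      intro τ
      have h1 : HasDerivAt (fun τ : ℝ => τ * ‖z‖) ‖z‖ τ := by
        simpa using (hasDerivAt_id τ).mul_const ‖z‖
      exact h1.exp.sub_const 1)
    (by
      intro τ hτ
      rw [norm_mul, Complex.norm_exp]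
      apply mul_le_mul_of_nonneg_right _ (norm_nonneg z)
      apply Real.exp_le_exp.mpr
      refine (Complex.re_le_norm _).trans ?_
      rw [norm_mul, Complex.norm_real, Real.norm_eq_abs, abs_of_nonneg hτ.1])
    (right_mem_Icc.mpr zero_le_one)
  simpa using h

lemma integrable_gauss {b : ℝ} (hb : 0 < b) (c : ℝ) :
    Integrable (fun v : ℝ => Real.exp (-b * (v - c) ^ 2)) :=
  (integrable_exp_neg_mul_sq hb).comp_sub_right c

lemma integral_gauss (b c : ℝ) :
    ∫ v : ℝ, Real.exp (-b * (v - c) ^ 2) = √(π / b) := by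
  rw [integral_sub_right_eq_self (fun v : ℝ => Real.exp (-b * v ^ 2)) c]
  exact integral_gaussian b

lemma integrable_abs_gauss {b : ℝ} (hb : 0 < b) (c : ℝ) :
    Integrable (fun v : ℝ => |v - c| * Real.exp (-b * (v - c) ^ 2)) := by
  have h := (integrable_mul_exp_neg_mul_sq hb).norm.comp_sub_right c
  refine h.congr ?_
  filter_upwards with v
  simp [abs_of_pos (Real.exp_pos _)]

lemma integral_abs_gauss {b : ℝ} (hb : 0 < b) (c : ℝ) :
    ∫ v : ℝ, |v - c| * Real.exp (-b * (v - c) ^ 2) = 1 / b := by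
  rw [integral_sub_right_eq_self (fun v : ℝ => |v| * Real.exp (-b * v ^ 2)) c]
  have h1 : ∀ v : ℝ, |v| * Real.exp (-b * v ^ 2) =
      (fun y : ℝ => y * Real.exp (-b * y ^ 2)) |v| := by
    intro v; simp
  simp_rw [h1]
  rw [integral_comp_abs (f := fun y : ℝ => y * Real.exp (-b * y ^ 2))]
  have h2 := integral_rpow_mul_exp_neg_mul_rpow (p := 2) (q := 1) (b := b) (by norm_num)
    (by norm_num) hb
  have h3 : ∫ x in Ioi (0:ℝ), x * Real.exp (-b * x ^ 2) =
      ∫ x in Ioi (0:ℝ), x ^ (1:ℝ) * Real.exp (-b * x ^ (2:ℝ)) := by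
    apply setIntegral_congr_fun measurableSet_Ioi
    intro x _
    simp
  rw [h3, h2]
  norm_num [Real.rpow_neg_one]
  field_simp

lemma integrable_sq_gauss {b : ℝ} (hb : 0 < b) (c : ℝ) :
    Integrable (fun v : ℝ => (v - c) ^ 2 * Real.exp (-b * (v - c) ^ 2)) := by
  have h := (integrable_rpow_mul_exp_neg_mul_sq (s := 2) hb (by norm_num)).comp_sub_right c
  refine h.congr ?_
  filter_upwards with v
  simp

lemma integral_sq_gauss {b : ℝ} (hb : 0 < b) (c : ℝ) :
    ∫ v : ℝ, (v - c) ^ 2 * Real.exp (-b * (v - c) ^ 2) = √(π / b) / (2 * b) := by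
  rw [integral_sub_right_eq_self (fun v : ℝ => v ^ 2 * Real.exp (-b * v ^ 2)) c]
  have h1 : (fun v : ℝ => v ^ 2 * Real.exp (-b * v ^ 2)) =
      fun v : ℝ => (fun y : ℝ => y ^ 2 * Real.exp (-b * y ^ 2)) |v| := by
    funext v
    simp only [sq_abs]
  rw [h1]
  rw [integral_comp_abs (f := fun y : ℝ => y ^ 2 * Real.exp (-b * y ^ 2))]
  have h2 := integral_rpow_mul_exp_neg_mul_rpow (p := 2) (q := 2) (b := b) (by norm_num)
    (by norm_num) hb
  have h3 : ∫ x in Ioi (0:ℝ), x ^ 2 * Real.exp (-b * x ^ 2) =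
      ∫ x in Ioi (0:ℝ), x ^ (2:ℝ) * Real.exp (-b * x ^ (2:ℝ)) := by
    apply setIntegral_congr_fun measurableSet_Ioi
    intro x _
    simp
  rw [h3, h2]
  have h4 : Real.Gamma ((2 + 1) / 2) = √π / 2 := by
    rw [show ((2:ℝ) + 1) / 2 = 1 / 2 + 1 by norm_num, Real.Gamma_add_one (by norm_num),
      Real.Gamma_one_half_eq]
    ring
  rw [h4]
  have h5 : b ^ (-(2 + 1) / 2 : ℝ) = 1 / (b * √b) := by
    rw [show (-(2 + 1) / 2 : ℝ) = -(1 + 1 / 2) by norm_num, Real.rpow_neg hb.le,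
      Real.rpow_add hb, Real.rpow_one, ← Real.sqrt_eq_rpow, one_div]
  rw [h5, Real.sqrt_div' _ hb.le]
  have : √b ≠ 0 := (Real.sqrt_pos.mpr hb).ne'
  field_simp

/-- the complex Gaussian integral with a linear phase -/
lemma integral_gauss_phase {t : ℝ} (ht : 0 < t) (b c : ℝ) :
    ∫ v : ℝ, Complex.exp (Complex.I * b * (v - c) - (v - c) ^ 2 / (4 * t)) =
      ((√(4 * π * t) * Real.exp (-(t * b ^ 2)) : ℝ) : ℂ) := by
  have h0 : ∀ v : ℝ, Complex.exp (Complex.I * b * (v - c) - (v - c) ^ 2 / (4 * t)) =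
      (fun u : ℝ => Complex.exp (((-(1 / (4 * t)) : ℝ) : ℂ) * u ^ 2 + (Complex.I * b) * u + 0))
        (v - c) := by
    intro v
    simp only
    congr 1
    push_cast
    ring
  simp_rw [h0]
  rw [integral_sub_right_eq_self (fun u : ℝ => Complex.exp (((-(1 / (4 * t)) : ℝ) : ℂ) * u ^ 2 +
    (Complex.I * b) * u + 0)) c]
  rw [integral_cexp_quadratic (by rw [Complex.ofReal_re]; have : 0 < 1 / (4 * t) := by positivity
                                  linarith)]
  have h1 : (π : ℂ) / -((-(1 / (4 * t)) : ℝ) : ℂ) = ((4 * π * t : ℝ) : ℂ) := by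
    push_cast
    field_simp
  rw [h1]
  have h2 : (((4 * π * t : ℝ) : ℂ)) ^ (1 / 2 : ℂ) = ((√(4 * π * t) : ℝ) : ℂ) := by
    rw [Real.sqrt_eq_rpow, Complex.ofReal_cpow (by positivity)]
    norm_num
  rw [h2]
  push_cast
  congr 1
  congr 1
  have : (t : ℂ) ≠ 0 := by exact_mod_cast ht.ne'
  have hI : (Complex.I * (b : ℂ)) ^ 2 = - (b : ℂ) ^ 2 := by
    rw [mul_pow, Complex.I_sq]; ring
  rw [hI]
  field_simp
  ring

end Pool.Agent.H6
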