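import Mathlib
import Pool.Agent.H6.GaussMoments

/-!
The core inequality: concentration of a near-Gaussian complex density.
-/

open Real MeasureTheory Set Filter Topology

namespace Pool.Agent.H6

lemma weight_bound {p c v : ℝ} (hp : 0 ≤ p) (hc : 0 < c) (hv : 0 ≤ v) :
    |Real.exp (-(2 * p * v)) - Real.exp (-(2 * p * c))| ≤ |v - c| / c := by
  rcases le_total v c with h | h
  · have ha1 : 0 ≤ 1 - v / c := by rw [sub_nonneg, div_le_one hc]; exact h
    have hb1 : 0 ≤ v / c := by positivity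
    have hconv := convexOn_exp.2 (mem_univ (0:ℝ)) (mem_univ (-(2 * p * c))) ha1 hb1 (by ring)
    simp only [smul_eq_mul, mul_zero, zero_add, Real.exp_zero, mul_one] at hconv
    have e : v / c * -(2 * p * c) = -(2 * p * v) := by field_simp
    rw [e] at hconv
    have h1 : Real.exp (-(2 * p * c)) ≤ Real.exp (-(2 * p * v)) := by
      apply Real.exp_le_exp.mpr; nlinarith
    rw [abs_of_nonneg (by linarith), abs_of_nonpos (by linarith)]
    have h2 : 0 ≤ (1 - v / c) * Real.exp (-(2 * p * c)) := by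
      apply mul_nonneg _ (Real.exp_pos _).le
      rw [sub_nonneg, div_le_one hc]; exact h
    have h3 : -(v - c) / c = 1 - v / c := by field_simp; ring
    rw [h3]
    nlinarith
  · have h1 : Real.exp (-(2 * p * v)) ≤ Real.exp (-(2 * p * c)) := by
      apply Real.exp_le_exp.mpr; nlinarith
    rw [abs_of_nonpos (by linarith), abs_of_nonneg (by linarith)]
    have h2 : Real.exp (-(2 * p * v)) = Real.exp (-(2 * p * c)) * Real.exp (-(2 * p * (v - c))) := by
      rw [← Real.exp_add]; congr 1; ring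
    have h3 : 1 - 2 * p * (v - c) ≤ Real.exp (-(2 * p * (v - c))) := by
      have := Real.add_one_le_exp (-(2 * p * (v - c))); linarith
    have h4 : (2 * p * c) * Real.exp (-(2 * p * c)) ≤ 1 := by
      have h5 := Real.add_one_le_exp (2 * p * c)
      have h6 : Real.exp (2 * p * c) * Real.exp (-(2 * p * c)) = 1 := by
        rw [← Real.exp_add]; simp
      have h7 := Real.exp_pos (-(2 * p * c))
      nlinarith
    have h7 := Real.exp_pos (-(2 * p * c))
    rw [le_div_iff₀ hc]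
    rw [h2]
    have h8 : -(Real.exp (-(2 * p * c)) * Real.exp (-(2 * p * (v - c))) - Real.exp (-(2 * p * c)))
        ≤ Real.exp (-(2 * p * c)) * (2 * p * (v - c)) := by
      nlinarith
    have h9 : 0 ≤ v - c := by linarith
    calc _ ≤ Real.exp (-(2 * p * c)) * (2 * p * (v - c)) * c := by
            exact mul_le_mul_of_nonneg_right h8 hc.le
      _ = (v - c) * ((2 * p * c) * Real.exp (-(2 * p * c))) := by ring
      _ ≤ (v - c) * 1 := mul_le_mul_of_nonneg_left h4 h9
      _ = v - c := by ring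

/-- tail integral of `(c - v) exp (-α (v-c)^2)` -/
lemma tail_integral {α c a : ℝ} (hα : 0 < α) (ha : 0 ≤ a) :
    ∫ v in Ioc 0 a, (c - v) * Real.exp (-α * (v - c) ^ 2) ≤
      Real.exp (-α * (c - a) ^ 2) / (2 * α) := by
  rw [← intervalIntegral.integral_of_le ha]
  have hder : ∀ v ∈ uIcc 0 a, HasDerivAt (fun v : ℝ => Real.exp (-α * (v - c) ^ 2) / (2 * α))
      ((c - v) * Real.exp (-α * (v - c) ^ 2)) v := by
    intro v _
    have h1 : HasDerivAt (fun v : ℝ => -α * (v - c) ^ 2) (-α * (2 * (v - c))) v := by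
      have := (((hasDerivAt_id v).sub_const c).pow 2).const_mul (-α)
      simpa using this
    have := h1.exp.div_const (2 * α)
    convert! this using 1
    field_simp
    ring
  rw [intervalIntegral.integral_eq_sub_of_hasDerivAt hder
    (Continuous.intervalIntegrable (by fun_prop) _ _)]
  have : 0 ≤ Real.exp (-α * (0 - c) ^ 2) / (2 * α) := by positivity
  have e : (a - c) ^ 2 = (c - a) ^ 2 := by ring
  rw [e]
  linarith

lemma integrableOn_of_bound {f : ℝ → ℂ} {E : ℝ → ℝ} (hf : ContinuousOn f (Ici 0))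
    (hE : Integrable E) (h : ∀ v, 0 ≤ v → ‖f v‖ ≤ E v) : IntegrableOn f (Ioi 0) := by
  refine Integrable.mono' hE.integrableOn
    ((hf.mono Ioi_subset_Ici_self).aestronglyMeasurable measurableSet_Ioi) ?_
  filter_upwards [ae_restrict_mem measurableSet_Ioi] with v hv
  exact h v (le_of_lt hv)

lemma setIntegral_le_integral' {f : ℝ → ℝ} {E : ℝ → ℝ} {S : Set ℝ} (hS : MeasurableSet S)
    (hf : IntegrableOn f S) (hE : Integrable E) (h0 : ∀ v, 0 ≤ E v) (h : ∀ v ∈ S, f v ≤ E v) :
    ∫ v in S, f v ≤ ∫ v, E v :=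
  (setIntegral_mono_on hf hE.integrableOn hS h).trans
    (setIntegral_le_integral hE (Filter.Eventually.of_forall h0))

lemma phase_re (b v c : ℝ) : (Complex.I * b * (v - c) : ℂ).re = 0 := by
  have e1 : (Complex.I * b * (v - c) : ℂ) = ((b * (v - c) : ℝ) : ℂ) * Complex.I := by
    push_cast; ring
  rw [e1, Complex.re_ofReal_mul, Complex.I_re, mul_zero]

lemma quad_re (v c t : ℝ) : ((v - c) ^ 2 / (4 * t) : ℂ).re = (v - c) ^ 2 / (4 * t) := by
  have e2 : ((v - c) ^ 2 / (4 * t) : ℂ) = (((v - c) ^ 2 / (4 * t) : ℝ) : ℂ) := by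
    push_cast; ring
  rw [e2, Complex.ofReal_re]

section core

variable {t c b : ℝ} {ρ : ℝ → ℂ} {g : ℝ → ℂ}

lemma norm_g_le (hρ : ∀ v, 0 ≤ v → ‖ρ v‖ ≤ 5 / 6 * (v - c) ^ 2)
    (hg : ∀ v, 0 ≤ v → g v = Complex.exp (Complex.I * b * (v - c) - (v - c) ^ 2 / (4 * t) + ρ v))
    {v : ℝ} (hv : 0 ≤ v) : ‖g v‖ ≤ Real.exp (-(1 / (4 * t) - 5 / 6) * (v - c) ^ 2) := by
  rw [hg v hv, Complex.norm_exp]
  apply Real.exp_le_exp.mpr
  have h1 : (Complex.I * b * (v - c) - (v - c) ^ 2 / (4 * t) + ρ v).re =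
      - ((v - c) ^ 2 / (4 * t)) + (ρ v).re := by
    rw [Complex.add_re, Complex.sub_re, phase_re, quad_re]
    ring
  rw [h1]
  have h2 := (Complex.re_le_norm (ρ v)).trans (hρ v hv)
  have h3 : -(1 / (4 * t) - 5 / 6) * (v - c) ^ 2 = - ((v - c) ^ 2 / (4 * t)) + 5 / 6 * (v - c) ^ 2 := by
    ring
  rw [h3]
  linarith

lemma norm_phase (v : ℝ) :
    ‖Complex.exp (Complex.I * b * (v - c) - (v - c) ^ 2 / (4 * t))‖ =
      Real.exp (-(1 / (4 * t)) * (v - c) ^ 2) := by
  rw [Complex.norm_exp, Complex.sub_re, phase_re, quad_re]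
  congr 1
  ring

lemma norm_g_sub_le (hρ : ∀ v, 0 ≤ v → ‖ρ v‖ ≤ 5 / 6 * (v - c) ^ 2)
    (hg : ∀ v, 0 ≤ v → g v = Complex.exp (Complex.I * b * (v - c) - (v - c) ^ 2 / (4 * t) + ρ v))
    {v : ℝ} (hv : 0 ≤ v) :
    ‖g v - Complex.exp (Complex.I * b * (v - c) - (v - c) ^ 2 / (4 * t))‖ ≤
      Real.exp (-(1 / (4 * t) - 5 / 6) * (v - c) ^ 2) - Real.exp (-(1 / (4 * t)) * (v - c) ^ 2) := by
  rw [hg v hv, Complex.exp_add]
  have e : ∀ z w : ℂ, z * w - z = z * (w - 1) := by intro z w; ring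
  rw [e, norm_mul, norm_phase]
  have h1 := norm_cexp_sub_one_le (ρ v)
  have h2 : Real.exp ‖ρ v‖ ≤ Real.exp (5 / 6 * (v - c) ^ 2) := Real.exp_le_exp.mpr (hρ v hv)
  have h3 : Real.exp (-(1 / (4 * t) - 5 / 6) * (v - c) ^ 2) =
      Real.exp (-(1 / (4 * t)) * (v - c) ^ 2) * Real.exp (5 / 6 * (v - c) ^ 2) := by
    rw [← Real.exp_add]; congr 1; ring
  rw [h3]
  have h4 := Real.exp_pos (-(1 / (4 * t)) * (v - c) ^ 2)
  nlinarith

lemma alpha_ge (ht : 0 < t) (ht8 : t ≤ 1 / 8) : 7 / 6 ≤ 1 / (4 * t) - 5 / 6 := by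
  have : 2 ≤ 1 / (4 * t) := by
    rw [le_div_iff₀ (by positivity)]; linarith
  linarith

/-- lower bound for the main integral -/
lemma main_lower (ht : 0 < t) (ht8 : t ≤ 1 / 8) (hc : 0 < c)
    (hρ : ∀ v, 0 ≤ v → ‖ρ v‖ ≤ 5 / 6 * (v - c) ^ 2)
    (hg : ∀ v, 0 ≤ v → g v = Complex.exp (Complex.I * b * (v - c) - (v - c) ^ 2 / (4 * t) + ρ v))
    (hgc : ContinuousOn g (Ici 0)) :
    √(4 * π * t) * Real.exp (-(t * b ^ 2)) -
      (√(π / (1 / (4 * t) - 5 / 6)) - √(4 * π * t)) - 4 * t / c ≤ ‖∫ v in Ioi (0:ℝ), g v‖ := by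
  set α := 1 / (4 * t) - 5 / 6 with hαdef
  have hα : 7 / 6 ≤ α := alpha_ge ht ht8
  have hα0 : 0 < α := by linarith
  have h4t : 0 < 1 / (4 * t) := by positivity
  set h : ℝ → ℂ := fun v => Complex.exp (Complex.I * b * (v - c) - (v - c) ^ 2 / (4 * t)) with hh
  have hhc : Continuous h := by fun_prop
  have hhi : Integrable h := by
    refine Integrable.mono' (integrable_gauss h4t c) hhc.aestronglyMeasurable ?_
    filter_upwards with v
    rw [hh]
    exact (norm_phase v).le
  have hgi : IntegrableOn g (Ioi 0) :=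
    integrableOn_of_bound hgc (integrable_gauss hα0 c) (fun v hv => norm_g_le hρ hg hv)
  have hK : ∫ v, h v = ((√(4 * π * t) * Real.exp (-(t * b ^ 2)) : ℝ) : ℂ) :=
    integral_gauss_phase ht b c
  have hsplit : ∫ v, h v = (∫ v in Ioi (0:ℝ), h v) + ∫ v in Iic (0:ℝ), h v := by
    rw [← integral_add_compl (measurableSet_Ioi (a := (0:ℝ))) hhi]
    simp
  have hK' : ‖∫ v, h v‖ = √(4 * π * t) * Real.exp (-(t * b ^ 2)) := by
    rw [hK, Complex.norm_real, Real.norm_eq_abs, abs_of_nonneg (by positivity)]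
  have hA : ‖(∫ v in Ioi (0:ℝ), g v) - ∫ v in Ioi (0:ℝ), h v‖ ≤ √(π / α) - √(4 * π * t) := by
    rw [← integral_sub hgi hhi.integrableOn]
    refine (norm_integral_le_integral_norm _).trans ?_
    have hE : Integrable (fun v : ℝ => Real.exp (-α * (v - c) ^ 2) -
        Real.exp (-(1 / (4 * t)) * (v - c) ^ 2)) :=
      (integrable_gauss hα0 c).sub (integrable_gauss h4t c)
    refine (setIntegral_le_integral' measurableSet_Ioi (hgi.sub hhi.integrableOn).norm hE ?_ ?_).trans ?_
    · intro v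
      rw [sub_nonneg]
      apply Real.exp_le_exp.mpr
      have : α ≤ 1 / (4 * t) := by rw [hαdef]; linarith
      nlinarith [sq_nonneg (v - c)]
    · intro v hv
      exact norm_g_sub_le hρ hg (le_of_lt hv)
    · rw [integral_sub (integrable_gauss hα0 c) (integrable_gauss h4t c), integral_gauss,
        integral_gauss]
      apply le_of_eq
      congr 2
      field_simp
  have hB : ‖∫ v in Iic (0:ℝ), h v‖ ≤ 4 * t / c := by
    refine (norm_integral_le_integral_norm _).trans ?_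
    have hE : Integrable (fun v : ℝ => (1 / c) * (|v - c| *
        Real.exp (-(1 / (4 * t)) * (v - c) ^ 2))) := (integrable_abs_gauss h4t c).const_mul _
    refine (setIntegral_le_integral' measurableSet_Iic hhi.integrableOn.norm hE ?_ ?_).trans ?_
    · intro v; positivity
    · intro v hv
      have hv' : v ≤ 0 := hv
      rw [hh]
      simp only
      rw [norm_phase]
      have : 1 ≤ (1 / c) * |v - c| := by
        rw [abs_of_nonpos (by linarith), one_div, inv_mul_eq_div, le_div_iff₀ hc]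
        linarith
      have h5 := Real.exp_pos (-(1 / (4 * t)) * (v - c) ^ 2)
      nlinarith
    · rw [integral_const_mul, integral_abs_gauss h4t c]
      apply le_of_eq
      field_simp
  have h1 : (∫ v, h v) = (∫ v in Ioi (0:ℝ), g v) -
      ((∫ v in Ioi (0:ℝ), g v) - ∫ v in Ioi (0:ℝ), h v) + ∫ v in Iic (0:ℝ), h v := by
    rw [hsplit]; ring
  have h2 : ‖∫ v, h v‖ ≤ ‖∫ v in Ioi (0:ℝ), g v‖ +
      ‖(∫ v in Ioi (0:ℝ), g v) - ∫ v in Ioi (0:ℝ), h v‖ + ‖∫ v in Iic (0:ℝ), h v‖ := by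
    rw [h1]
    exact (norm_add_le _ _).trans (by gcongr; exact norm_sub_le _ _)
  rw [hK'] at h2
  linarith

lemma const_bounds (ht : 0 < t) (ht8 : t ≤ 1 / 8) :
    0 < √(4 * π * t) ∧ √(4 * π * t) ≤ 1.2534 ∧ 4 * t ≤ 0.399 * √(4 * π * t) ∧
    √(π / (1 / (4 * t) - 5 / 6)) ≤ 1.3094 * √(4 * π * t) ∧
    1 / (1 / (4 * t) - 5 / 6) ≤ 0.6844 * √(4 * π * t) := by
  set α := 1 / (4 * t) - 5 / 6 with hαdef
  have hα : 7 / 6 ≤ α := alpha_ge ht ht8
  have hα0 : 0 < α := by linarith
  set K := √(4 * π * t) with hK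
  have hpi := Real.pi_gt_d4
  have hpi' := Real.pi_lt_d4
  have hKpos : 0 < K := Real.sqrt_pos.mpr (by positivity)
  have hKsq : K ^ 2 = 4 * π * t := Real.sq_sqrt (by positivity)
  have hK1 : K ≤ 1.2534 := by
    apply Real.sqrt_le_iff.mpr
    constructor
    · norm_num
    · nlinarith
  have h4t : 4 * t ≤ 0.399 * K := by
    have : 4 * t * π ≤ 1.2534 * K := by nlinarith
    nlinarith
  have hYt : 1 / α ≤ 12 / 7 * (4 * t) := by
    rw [div_le_iff₀ hα0, hαdef]
    have : 4 * t * (1 / (4 * t)) = 1 := by field_simp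
    nlinarith
  refine ⟨hKpos, hK1, h4t, ?_, by linarith⟩
  apply Real.sqrt_le_iff.mpr
  constructor
  · positivity
  · have h1 : π / α = π * (1 / α) := by ring
    have h2 : π * (1 / α) ≤ 12 / 7 * K ^ 2 := by
      rw [hKsq]
      nlinarith
    rw [h1]
    nlinarith

lemma exp_phase_lower (ht : 0 < t) (ht8 : t ≤ 1 / 8) (hb : |b| ≤ π / 2) :
    0.7222 ≤ Real.exp (-(t * b ^ 2)) := by
  have hpi' := Real.pi_lt_d4
  have hpi0 := Real.pi_pos
  have h1 : b ^ 2 ≤ 2.4675 := by
    have : b ^ 2 = |b| ^ 2 := (sq_abs b).symm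
    rw [this]
    have := abs_nonneg b
    nlinarith
  have h2 : t * b ^ 2 ≤ 0.3085 := by nlinarith [sq_nonneg b]
  have h3 : 1 - t * b ^ 2 / 4 ≤ Real.exp (-(t * b ^ 2) / 4) := by
    have := Real.add_one_le_exp (-(t * b ^ 2) / 4); linarith
  have h4 : (0.922 : ℝ) ≤ Real.exp (-(t * b ^ 2) / 4) := by linarith
  have h5 : Real.exp (-(t * b ^ 2)) = Real.exp (-(t * b ^ 2) / 4) ^ 4 := by
    rw [← Real.exp_nat_mul]; congr 1; push_cast; ring
  rw [h5]
  have h6 : (0.922 : ℝ) ^ 4 ≤ Real.exp (-(t * b ^ 2) / 4) ^ 4 :=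
    pow_le_pow_left₀ (by norm_num) h4 4
  refine le_trans (by norm_num) h6

lemma weight_upper {p c v : ℝ} (hp : 0 ≤ p) (hc : 0 < c) (hv : 0 ≤ v) :
    1 + Real.exp (-(2 * p * v)) ≤ (1 + Real.exp (-(2 * p * c))) * (1 + |v - c| / c) := by
  have h1 := weight_bound hp hc hv
  have h2 := (abs_le.mp h1).2
  have h3 : 0 ≤ |v - c| / c := by positivity
  have h4 := Real.exp_pos (-(2 * p * c))
  nlinarith

/-- **The core inequality.** -/
theorem core_ineq {p B : ℝ} {q r : ℝ → ℂ} (ht : 0 < t) (ht8 : t ≤ 1 / 8) (hc : 7.24 ≤ c)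
    (hb : |b| ≤ π / 2) (hp : 0 ≤ p) (hB0 : 0 ≤ B)
    (hB : B * Real.exp (-(1 / (4 * t) - 5 / 6) * (c - 1) ^ 2) ≤ 1 / 1000)
    (hρ : ∀ v, 0 ≤ v → ‖ρ v‖ ≤ 5 / 6 * (v - c) ^ 2)
    (hg : ∀ v, 0 ≤ v → g v = Complex.exp (Complex.I * b * (v - c) - (v - c) ^ 2 / (4 * t) + ρ v))
    (hq : ∀ v, 0 ≤ v → q v = g v * r v)
    (hr0 : ∀ v, 0 ≤ v → v ≤ 1 → ‖r v - 1‖ ≤ B)
    (hr1 : ∀ v, 1 ≤ v → ‖r v - 1‖ ≤ 10)
    (hr5 : ∀ v, 5 ≤ v → ‖r v - 1‖ ≤ 1 / 15)
    (hgc : ContinuousOn g (Ici 0)) (hqc : ContinuousOn q (Ici 0)) :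
    ∫ v in Ioi (0:ℝ), ‖q v‖ * (1 + Real.exp (-(2 * p * v))) * |v - c| <
      c * ‖∫ v in Ioi (0:ℝ), q v * ((1 + Real.exp (-(2 * p * v)) : ℝ) : ℂ)‖ := by
  have hc0 : 0 < c := by linarith
  obtain ⟨hK0, hK1, h4t, hX, hY⟩ := const_bounds ht ht8
  have hmain := main_lower (b := b) ht ht8 hc0 hρ hg hgc
  have hphase := exp_phase_lower ht ht8 hb
  set α := 1 / (4 * t) - 5 / 6 with hαdef
  have hα : 7 / 6 ≤ α := alpha_ge ht ht8
  have hα0 : 0 < α := by linarith
  set K := √(4 * π * t) with hK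
  set X := √(π / α) with hXdef
  set E : ℝ → ℝ := fun v => Real.exp (-α * (v - c) ^ 2) with hE
  set W : ℝ → ℝ := fun v => 1 + Real.exp (-(2 * p * v)) with hW
  set W0 : ℝ := 1 + Real.exp (-(2 * p * c)) with hW0
  have hW01 : 1 ≤ W0 := by
    rw [hW0]; have := Real.exp_pos (-(2 * p * c)); linarith
  have hEpos : ∀ v, 0 < E v := fun v => Real.exp_pos _
  have hWpos : ∀ v, 0 < W v := fun v => by
    have := Real.exp_pos (-(2 * p * v))
    simp only [hW]
    linarith
  have hgE : ∀ v, 0 ≤ v → ‖g v‖ ≤ E v := fun v hv => norm_g_le hρ hg hv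
  have hWup : ∀ v, 0 ≤ v → W v ≤ W0 * (1 + |v - c| / c) := fun v hv => weight_upper hp hc0 hv
  -- the bounding functions
  have hi0 : Integrable E := integrable_gauss hα0 c
  have hi1 : Integrable (fun v => |v - c| * E v) := integrable_abs_gauss hα0 c
  have hi2 : Integrable (fun v => (v - c) ^ 2 * E v) := integrable_sq_gauss hα0 c
  have hI0 : ∫ v, E v = X := integral_gauss α c
  have hI1 : ∫ v, |v - c| * E v = 1 / α := integral_abs_gauss hα0 c
  have hI2 : ∫ v, (v - c) ^ 2 * E v = X / (2 * α) := integral_sq_gauss hα0 c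
  have hcE : Continuous (fun v : ℝ => (c - v) * E v) := by
    simp only [hE]; fun_prop
  have hi5 : IntegrableOn (fun v => (c - v) * E v) (Ioc 0 5) :=
    (hcE.integrableOn_Icc (a := 0) (b := 5)).mono_set Ioc_subset_Icc_self
  have hi1' : IntegrableOn (fun v => (c - v) * E v) (Ioc 0 1) :=
    (hcE.integrableOn_Icc (a := 0) (b := 1)).mono_set Ioc_subset_Icc_self
  have hT5 := tail_integral (c := c) hα0 (a := 5) (by norm_num)
  have hT1 := tail_integral (c := c) hα0 (a := 1) (by norm_num)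
  -- error function bounds
  set e : ℝ → ℝ := fun v => ‖r v - 1‖ with he
  set Φ0 : ℝ → ℝ := fun v => (1 / 15) * (E v + (1 / c) * (|v - c| * E v)) +
    ((Ioc (0:ℝ) 5).indicator (fun v => 9 * ((c - v) * E v)) v +
      (Ioc (0:ℝ) 1).indicator (fun v => 2 * B * ((c - v) * E v)) v) with hΦ0
  set Φ1 : ℝ → ℝ := fun v => (16 / 15) * (|v - c| * E v + (1 / c) * ((v - c) ^ 2 * E v)) +
    ((Ioc (0:ℝ) 5).indicator (fun v => 20 * ((c - v) * E v)) v +
      (Ioc (0:ℝ) 1).indicator (fun v => 2 * B * ((c - v) * E v)) v) with hΦ1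
  have hΦ0i : Integrable Φ0 := by
    apply Integrable.add
    · exact (hi0.add (hi1.const_mul _)).const_mul _
    · apply Integrable.add
      · rw [integrable_indicator_iff measurableSet_Ioc]
        exact hi5.const_mul 9
      · rw [integrable_indicator_iff measurableSet_Ioc]
        exact hi1'.const_mul (2 * B)
  have hΦ1i : Integrable Φ1 := by
    apply Integrable.add
    · exact (hi1.add (hi2.const_mul _)).const_mul _
    · apply Integrable.add
      · rw [integrable_indicator_iff measurableSet_Ioc]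
        exact hi5.const_mul 20
      · rw [integrable_indicator_iff measurableSet_Ioc]
        exact hi1'.const_mul (2 * B)
  have hΦ0int : ∫ v, Φ0 v = (1 / 15) * (X + (1 / c) * (1 / α)) +
      (9 * (∫ v in Ioc 0 5, (c - v) * E v) + 2 * B * ∫ v in Ioc 0 1, (c - v) * E v) := by
    simp only [hΦ0]
    rw [integral_add, integral_const_mul, integral_add hi0 (hi1.const_mul _), integral_const_mul,
      hI0, hI1, integral_add, integral_indicator measurableSet_Ioc,
      integral_indicator measurableSet_Ioc, integral_const_mul, integral_const_mul]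
    · rw [integrable_indicator_iff measurableSet_Ioc]
      exact hi5.const_mul 9
    · rw [integrable_indicator_iff measurableSet_Ioc]
      exact hi1'.const_mul (2 * B)
    · exact (hi0.add (hi1.const_mul _)).const_mul _
    · apply Integrable.add
      · rw [integrable_indicator_iff measurableSet_Ioc]
        exact hi5.const_mul 9
      · rw [integrable_indicator_iff measurableSet_Ioc]
        exact hi1'.const_mul (2 * B)
  have hΦ1int : ∫ v, Φ1 v = (16 / 15) * (1 / α + (1 / c) * (X / (2 * α))) +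
      (20 * (∫ v in Ioc 0 5, (c - v) * E v) + 2 * B * ∫ v in Ioc 0 1, (c - v) * E v) := by
    simp only [hΦ1]
    rw [integral_add, integral_const_mul, integral_add hi1 (hi2.const_mul _), integral_const_mul,
      hI1, hI2, integral_add, integral_indicator measurableSet_Ioc,
      integral_indicator measurableSet_Ioc, integral_const_mul, integral_const_mul]
    · rw [integrable_indicator_iff measurableSet_Ioc]
      exact hi5.const_mul 20
    · rw [integrable_indicator_iff measurableSet_Ioc]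
      exact hi1'.const_mul (2 * B)
    · exact (hi1.add (hi2.const_mul _)).const_mul _
    · apply Integrable.add
      · rw [integrable_indicator_iff measurableSet_Ioc]
        exact hi5.const_mul 20
      · rw [integrable_indicator_iff measurableSet_Ioc]
        exact hi1'.const_mul (2 * B)
  have habs : ∀ v, v ≤ 5 → |v - c| = c - v := fun v hv => by
    rw [abs_of_nonpos (by linarith)]; ring
  have hr5' : ∀ v, 5 ≤ v → e v ≤ 1 / 15 := hr5
  have hP0 : ∀ v ∈ Ioi (0:ℝ), E v * e v * (1 + |v - c| / c) ≤ Φ0 v := by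
    intro v hv
    have hv0 : 0 < v := hv
    have hEv := hEpos v
    have he0 : 0 ≤ e v := norm_nonneg _
    have hu0 : 0 ≤ |v - c| := abs_nonneg _
    have huc : 0 ≤ |v - c| / c := by positivity
    simp only [hΦ0]
    rcases lt_or_ge 5 v with h5 | h5
    · rw [indicator_of_notMem (by simp; intro; linarith),
        indicator_of_notMem (by simp; intro; linarith)]
      have := hr5' v h5.le
      have h6 : E v * e v * (1 + |v - c| / c) ≤ E v * (1 / 15) * (1 + |v - c| / c) := by gcongr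
      refine h6.trans (le_of_eq ?_)
      ring
    · rw [indicator_of_mem (show v ∈ Ioc (0:ℝ) 5 from ⟨hv0, h5⟩)]
      have hu : |v - c| = c - v := habs v h5
      have h2 : 1 + |v - c| / c ≤ 2 := by
        have : |v - c| / c ≤ 1 := by rw [div_le_one hc0, hu]; linarith
        linarith
      have h7 : 0 ≤ (1 / 15) * (E v + (1 / c) * (|v - c| * E v)) := by positivity
      rcases lt_or_ge 1 v with h1 | h1
      · rw [indicator_of_notMem (by simp; intro; linarith)]
        have h3 : e v ≤ 10 := hr1 v h1.le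
        have h4 : E v * e v * (1 + |v - c| / c) ≤ E v * 10 * 2 := by gcongr
        have h5' : 20 * E v ≤ 9 * ((c - v) * E v) := by nlinarith
        linarith
      · rw [indicator_of_mem (show v ∈ Ioc (0:ℝ) 1 from ⟨hv0, h1⟩)]
        have h3 : e v ≤ B := hr0 v hv0.le h1
        have h4 : E v * e v * (1 + |v - c| / c) ≤ E v * B * 2 := by gcongr
        have h5' : E v * B * 2 ≤ 2 * B * ((c - v) * E v) := by
          have : 0 ≤ B * E v := by positivity
          nlinarith
        have h6 : 0 ≤ 9 * ((c - v) * E v) := by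
          have : 0 ≤ c - v := by linarith
          positivity
        linarith
  have hP1 : ∀ v ∈ Ioi (0:ℝ), E v * (1 + e v) * (1 + |v - c| / c) * |v - c| ≤ Φ1 v := by
    intro v hv
    have hv0 : 0 < v := hv
    have hEv := hEpos v
    have he0 : 0 ≤ e v := norm_nonneg _
    have hu0 : 0 ≤ |v - c| := abs_nonneg _
    have huc : 0 ≤ |v - c| / c := by positivity
    have hsq : (v - c) ^ 2 = |v - c| ^ 2 := (sq_abs _).symm
    simp only [hΦ1]
    rw [hsq]
    rcases lt_or_ge 5 v with h5 | h5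
    · rw [indicator_of_notMem (by simp; intro; linarith),
        indicator_of_notMem (by simp; intro; linarith)]
      have := hr5' v h5.le
      have h6 : E v * (1 + e v) * (1 + |v - c| / c) * |v - c| ≤
          E v * (1 + 1 / 15) * (1 + |v - c| / c) * |v - c| := by gcongr
      refine h6.trans (le_of_eq ?_)
      ring
    · rw [indicator_of_mem (show v ∈ Ioc (0:ℝ) 5 from ⟨hv0, h5⟩)]
      have hu : |v - c| = c - v := habs v h5
      have h2 : 1 + |v - c| / c ≤ 2 := by
        have : |v - c| / c ≤ 1 := by rw [div_le_one hc0, hu]; linarith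
        linarith
      have h8 : E v * (1 + e v) * (1 + |v - c| / c) * |v - c| =
          (|v - c| * E v + (1 / c) * (|v - c| ^ 2 * E v)) +
            E v * e v * (1 + |v - c| / c) * |v - c| := by ring
      have h9 : 0 ≤ (|v - c| * E v + (1 / c) * (|v - c| ^ 2 * E v)) := by positivity
      rcases lt_or_ge 1 v with h1 | h1
      · rw [indicator_of_notMem (by simp; intro; linarith)]
        have h3 : e v ≤ 10 := hr1 v h1.le
        have h4 : E v * e v * (1 + |v - c| / c) * |v - c| ≤ E v * 10 * 2 * |v - c| := by gcongr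
        rw [h8]
        have h10 : E v * 10 * 2 * |v - c| = 20 * ((c - v) * E v) := by rw [hu]; ring
        linarith
      · rw [indicator_of_mem (show v ∈ Ioc (0:ℝ) 1 from ⟨hv0, h1⟩)]
        have h3 : e v ≤ B := hr0 v hv0.le h1
        have h4 : E v * e v * (1 + |v - c| / c) * |v - c| ≤ E v * B * 2 * |v - c| := by gcongr
        have h6 : 0 ≤ 20 * ((c - v) * E v) := by
          have : 0 ≤ c - v := by linarith
          positivity
        rw [h8]
        have h10 : E v * B * 2 * |v - c| = 2 * B * ((c - v) * E v) := by rw [hu]; ring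
        linarith
  -- integrability
  have hgi : IntegrableOn g (Ioi 0) := integrableOn_of_bound hgc hi0 (fun v hv => hgE v hv)
  have hWc : Continuous W := by simp only [hW]; fun_prop
  have hqn : ∀ v, 0 ≤ v → ‖q v‖ ≤ E v * (1 + e v) := by
    intro v hv
    rw [hq v hv, norm_mul]
    have h1 : ‖r v‖ ≤ 1 + e v := by
      have := norm_add_le (r v - 1) 1
      simp at this
      simp only [he]
      linarith
    have := hgE v hv
    have he0 : 0 ≤ e v := norm_nonneg _
    have := (hEpos v).le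
    gcongr
  have hqg : ∀ v, 0 ≤ v → ‖q v - g v‖ ≤ E v * e v := by
    intro v hv
    have : q v - g v = g v * (r v - 1) := by rw [hq v hv]; ring
    rw [this, norm_mul]
    have := hgE v hv
    have he0 : 0 ≤ e v := norm_nonneg _
    gcongr
  -- second term
  have hS1 : ‖∫ v in Ioi (0:ℝ), g v * ((W v - W0 : ℝ) : ℂ)‖ ≤ (1 / c) * (1 / α) := by
    refine (norm_integral_le_integral_norm _).trans ?_
    have hE' : Integrable (fun v => (1 / c) * (|v - c| * E v)) := hi1.const_mul _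
    have hcont : ContinuousOn (fun v => g v * ((W v - W0 : ℝ) : ℂ)) (Ici 0) :=
      hgc.mul (Complex.continuous_ofReal.comp (hWc.sub continuous_const)).continuousOn
    have hbd : ∀ v, 0 ≤ v → ‖g v * ((W v - W0 : ℝ) : ℂ)‖ ≤ (1 / c) * (|v - c| * E v) := by
      intro v hv
      rw [norm_mul, Complex.norm_real, Real.norm_eq_abs]
      have h1 : |W v - W0| ≤ |v - c| / c := by
        have := weight_bound hp hc0 hv
        simp only [hW, hW0]
        rwa [add_sub_add_left_eq_sub]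
      have h2 := hgE v hv
      calc ‖g v‖ * |W v - W0| ≤ E v * (|v - c| / c) := by gcongr
        _ = _ := by ring
    refine (setIntegral_le_integral' measurableSet_Ioi
      (integrableOn_of_bound hcont hE' hbd).norm hE' ?_ (fun v hv => hbd v (le_of_lt hv))).trans ?_
    · intro v; have := hEpos v; positivity
    · rw [integral_const_mul, hI1]
  -- third term
  have hcont3 : ContinuousOn (fun v => (q v - g v) * (W v : ℂ)) (Ici 0) :=
    (hqc.sub hgc).mul (Complex.continuous_ofReal.comp hWc).continuousOn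
  have hbd3 : ∀ v, v ∈ Ioi (0:ℝ) → ‖(q v - g v) * (W v : ℂ)‖ ≤ W0 * Φ0 v := by
    intro v hv
    have hv0 : (0:ℝ) ≤ v := le_of_lt hv
    rw [norm_mul, Complex.norm_real, Real.norm_eq_abs, abs_of_pos (hWpos v)]
    have h1 := hqg v hv0
    have h2 := hWup v hv0
    have h3 := hP0 v hv
    have he0 : 0 ≤ e v := norm_nonneg _
    have hE0 := (hEpos v).le
    calc ‖q v - g v‖ * W v ≤ (E v * e v) * (W0 * (1 + |v - c| / c)) :=
          mul_le_mul h1 h2 (hWpos v).le (by positivity)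
      _ = W0 * (E v * e v * (1 + |v - c| / c)) := by ring
      _ ≤ W0 * Φ0 v := by gcongr
  have hi3 : IntegrableOn (fun v => (q v - g v) * (W v : ℂ)) (Ioi 0) := by
    refine Integrable.mono' (hΦ0i.const_mul W0).integrableOn
      ((hcont3.mono Ioi_subset_Ici_self).aestronglyMeasurable measurableSet_Ioi) ?_
    filter_upwards [ae_restrict_mem measurableSet_Ioi] with v hv
    exact hbd3 v hv
  have hΦ0nn : ∀ v, 0 ≤ Φ0 v := by
    intro v
    simp only [hΦ0]
    have h1 := hEpos v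
    have h2 : 0 ≤ (Ioc (0:ℝ) 5).indicator (fun v => 9 * ((c - v) * E v)) v := by
      apply indicator_nonneg
      intro v hv
      have : 0 ≤ c - v := by linarith [hv.2]
      have := hEpos v
      positivity
    have h3 : 0 ≤ (Ioc (0:ℝ) 1).indicator (fun v => 2 * B * ((c - v) * E v)) v := by
      apply indicator_nonneg
      intro v hv
      have : 0 ≤ c - v := by linarith [hv.2]
      have := hEpos v
      positivity
    positivity
  have hΦ1nn : ∀ v, 0 ≤ Φ1 v := by
    intro v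
    simp only [hΦ1]
    have h1 := hEpos v
    have h2 : 0 ≤ (Ioc (0:ℝ) 5).indicator (fun v => 20 * ((c - v) * E v)) v := by
      apply indicator_nonneg
      intro v hv
      have : 0 ≤ c - v := by linarith [hv.2]
      have := hEpos v
      positivity
    have h3 : 0 ≤ (Ioc (0:ℝ) 1).indicator (fun v => 2 * B * ((c - v) * E v)) v := by
      apply indicator_nonneg
      intro v hv
      have : 0 ≤ c - v := by linarith [hv.2]
      have := hEpos v
      positivity
    positivity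
  have hS3 : ‖∫ v in Ioi (0:ℝ), (q v - g v) * (W v : ℂ)‖ ≤ W0 * ∫ v, Φ0 v := by
    refine (norm_integral_le_integral_norm _).trans ?_
    rw [← integral_const_mul]
    exact setIntegral_le_integral' measurableSet_Ioi hi3.norm (hΦ0i.const_mul W0)
      (fun v => mul_nonneg (by linarith) (hΦ0nn v)) hbd3
  have hgW0i : IntegrableOn (fun v => g v * (W0 : ℂ)) (Ioi 0) := hgi.mul_const _
  have hgWi : IntegrableOn (fun v => g v * ((W v - W0 : ℝ) : ℂ)) (Ioi 0) := by
    have hE' : Integrable (fun v => (1 / c) * (|v - c| * E v)) := hi1.const_mul _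
    have hcont : ContinuousOn (fun v => g v * ((W v - W0 : ℝ) : ℂ)) (Ici 0) :=
      hgc.mul (Complex.continuous_ofReal.comp (hWc.sub continuous_const)).continuousOn
    refine integrableOn_of_bound hcont hE' ?_
    intro v hv
    rw [norm_mul, Complex.norm_real, Real.norm_eq_abs]
    have h1 : |W v - W0| ≤ |v - c| / c := by
      have := weight_bound hp hc0 hv
      simp only [hW, hW0]
      rwa [add_sub_add_left_eq_sub]
    have h2 := hgE v hv
    calc ‖g v‖ * |W v - W0| ≤ E v * (|v - c| / c) := by gcongr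
      _ = _ := by ring
  have hdecomp : ∫ v in Ioi (0:ℝ), q v * (W v : ℂ) =
      (∫ v in Ioi (0:ℝ), g v) * (W0 : ℂ) + (∫ v in Ioi (0:ℝ), g v * ((W v - W0 : ℝ) : ℂ)) +
        ∫ v in Ioi (0:ℝ), (q v - g v) * (W v : ℂ) := by
    have e1 : (∫ v in Ioi (0:ℝ), g v * (W0 : ℂ)) + (∫ v in Ioi (0:ℝ), g v * ((W v - W0 : ℝ) : ℂ))
        = ∫ v in Ioi (0:ℝ), (g v * (W0 : ℂ) + g v * ((W v - W0 : ℝ) : ℂ)) :=
      (integral_add hgW0i hgWi).symm
    have e2 : (∫ v in Ioi (0:ℝ), (g v * (W0 : ℂ) + g v * ((W v - W0 : ℝ) : ℂ))) +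
        (∫ v in Ioi (0:ℝ), (q v - g v) * (W v : ℂ)) =
        ∫ v in Ioi (0:ℝ), ((g v * (W0 : ℂ) + g v * ((W v - W0 : ℝ) : ℂ)) +
          (q v - g v) * (W v : ℂ)) := (integral_add (hgW0i.add hgWi) hi3).symm
    rw [← integral_mul_const, e1, e2]
    apply integral_congr_ae
    filter_upwards with v
    push_cast
    ring
  have hlow : W0 * ‖∫ v in Ioi (0:ℝ), g v‖ - (1 / c) * (1 / α) - W0 * (∫ v, Φ0 v) ≤
      ‖∫ v in Ioi (0:ℝ), q v * (W v : ℂ)‖ := by
    have h1 : (∫ v in Ioi (0:ℝ), g v) * (W0 : ℂ) = (∫ v in Ioi (0:ℝ), q v * (W v : ℂ)) -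
        (∫ v in Ioi (0:ℝ), g v * ((W v - W0 : ℝ) : ℂ)) -
        ∫ v in Ioi (0:ℝ), (q v - g v) * (W v : ℂ) := by
      rw [hdecomp]; ring
    have h2 : ‖(∫ v in Ioi (0:ℝ), g v) * (W0 : ℂ)‖ ≤ ‖∫ v in Ioi (0:ℝ), q v * (W v : ℂ)‖ +
        ‖∫ v in Ioi (0:ℝ), g v * ((W v - W0 : ℝ) : ℂ)‖ +
        ‖∫ v in Ioi (0:ℝ), (q v - g v) * (W v : ℂ)‖ := by
      rw [h1]
      exact (norm_sub_le _ _).trans (by gcongr; exact norm_sub_le _ _)
    rw [norm_mul, Complex.norm_real, Real.norm_eq_abs, abs_of_pos (by linarith)] at h2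
    linarith
  have hup : ∫ v in Ioi (0:ℝ), ‖q v‖ * W v * |v - c| ≤ W0 * ∫ v, Φ1 v := by
    rw [← integral_const_mul]
    have hbd : ∀ v ∈ Ioi (0:ℝ), ‖q v‖ * W v * |v - c| ≤ W0 * Φ1 v := by
      intro v hv
      have hv0 : (0:ℝ) ≤ v := le_of_lt hv
      have h1 := hqn v hv0
      have h2 := hWup v hv0
      have h3 := hP1 v hv
      have he0 : 0 ≤ e v := norm_nonneg _
      have hE0 := (hEpos v).le
      calc ‖q v‖ * W v * |v - c| ≤ (E v * (1 + e v)) * (W0 * (1 + |v - c| / c)) * |v - c| := by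
            apply mul_le_mul_of_nonneg_right _ (abs_nonneg _)
            exact mul_le_mul h1 h2 (hWpos v).le (by positivity)
        _ = W0 * (E v * (1 + e v) * (1 + |v - c| / c) * |v - c|) := by ring
        _ ≤ W0 * Φ1 v := by gcongr
    refine setIntegral_le_integral' measurableSet_Ioi ?_ (hΦ1i.const_mul W0)
      (fun v => mul_nonneg (by linarith) (hΦ1nn v)) hbd
    refine Integrable.mono' (hΦ1i.const_mul W0).integrableOn ?_ ?_
    · refine ContinuousOn.aestronglyMeasurable ?_ measurableSet_Ioi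
      exact ((hqc.mono Ioi_subset_Ici_self).norm.mul hWc.continuousOn).mul
        (by fun_prop)
    · filter_upwards [ae_restrict_mem measurableSet_Ioi] with v hv
      rw [Real.norm_eq_abs, abs_of_nonneg (by
        have := hWpos v
        positivity)]
      exact hbd v hv
  -- numerics
  have hY0 : 0 < 1 / α := by positivity
  have hX0 : 0 ≤ X := Real.sqrt_nonneg _
  have hexp5 : Real.exp (-α * (c - 5) ^ 2) ≤ 0.0031 := by
    have h1 : (5.85:ℝ) ≤ α * (c - 5) ^ 2 := by
      have : (5.0176:ℝ) ≤ (c - 5) ^ 2 := by nlinarith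
      nlinarith
    have h2 : Real.exp (-α * (c - 5) ^ 2) ≤ Real.exp (-5.85) := by
      apply Real.exp_le_exp.mpr; linarith
    refine h2.trans ?_
    have h3 : Real.exp (-5.85) = (Real.exp 5.85)⁻¹ := by rw [← Real.exp_neg]
    rw [h3, inv_le_comm₀ (Real.exp_pos _) (by norm_num)]
    have h4 : Real.exp 5.85 = (Real.exp 1) ^ 5 * Real.exp 0.85 := by
      rw [← Real.exp_nat_mul, ← Real.exp_add]; norm_num
    have h5 : (2.718:ℝ) ≤ Real.exp 1 := by linarith [Real.exp_one_gt_d9]
    have h6 : (1 + 0.85 + 0.85 ^ 2 / 2 : ℝ) ≤ Real.exp 0.85 := by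
      have := Real.quadratic_le_exp_of_nonneg (x := 0.85) (by norm_num)
      linarith
    rw [h4]
    have h7 : (2.718:ℝ) ^ 5 ≤ Real.exp 1 ^ 5 := pow_le_pow_left₀ (by norm_num) h5 5
    calc (0.0031:ℝ)⁻¹ ≤ 2.718 ^ 5 * (1 + 0.85 + 0.85 ^ 2 / 2) := by norm_num
      _ ≤ _ := by gcongr
  have hT5' : (∫ v in Ioc 0 5, (c - v) * E v) ≤ 0.0031 * (1 / α) / 2 := by
    refine hT5.trans ?_
    have : Real.exp (-α * (c - 5) ^ 2) / (2 * α) =
        Real.exp (-α * (c - 5) ^ 2) * (1 / α) / 2 := by field_simp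
    rw [this]
    gcongr
  have hT1' : 2 * B * (∫ v in Ioc 0 1, (c - v) * E v) ≤ (1 / 1000) * (1 / α) := by
    have h1 : 2 * B * (∫ v in Ioc 0 1, (c - v) * E v) ≤
        2 * B * (Real.exp (-α * (c - 1) ^ 2) / (2 * α)) := by gcongr
    refine h1.trans ?_
    have : 2 * B * (Real.exp (-α * (c - 1) ^ 2) / (2 * α)) =
        (B * Real.exp (-α * (c - 1) ^ 2)) * (1 / α) := by field_simp
    rw [this]
    gcongr
  set Y := 1 / α with hYdef
  have hXY : X * Y ≤ 1.1234 * K := by
    have h1 : X * Y ≤ (1.3094 * K) * (0.6844 * K) := mul_le_mul hX hY hY0.le (by positivity)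
    nlinarith
  have hZ : (1 / c) * (X / (2 * α)) ≤ 0.0777 * K := by
    have h1 : X / (2 * α) = X * Y / 2 := by rw [hYdef]; field_simp
    rw [h1, one_div, inv_mul_le_iff₀ hc0]
    nlinarith
  have hF0 : c * (∫ v, Φ0 v) ≤ (1 / 15) * (c * X + Y) + c * (0.0155 * Y) := by
    rw [hΦ0int]
    have h1 : c * ((1 / 15) * (X + (1 / c) * Y) +
        (9 * (∫ v in Ioc 0 5, (c - v) * E v) + 2 * B * ∫ v in Ioc 0 1, (c - v) * E v)) =
        (1 / 15) * (c * X + Y) + c * (9 * (∫ v in Ioc 0 5, (c - v) * E v) +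
          2 * B * ∫ v in Ioc 0 1, (c - v) * E v) := by
      field_simp
    rw [h1]
    have h2 : (9 * (∫ v in Ioc 0 5, (c - v) * E v) + 2 * B * ∫ v in Ioc 0 1, (c - v) * E v) ≤
        0.0155 * Y := by linarith
    gcongr
  have hF1 : (∫ v, Φ1 v) ≤ (16 / 15) * (Y + 0.0777 * K) + 0.032 * Y := by
    rw [hΦ1int]
    linarith
  have hcP : c * (K * 0.7222 - (X - K)) - 4 * t ≤ c * ‖∫ v in Ioi (0:ℝ), g v‖ := by
    have h1 : c * (K * Real.exp (-(t * b ^ 2)) - (X - K) - 4 * t / c) ≤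
        c * ‖∫ v in Ioi (0:ℝ), g v‖ := by gcongr
    have h2 : c * (K * Real.exp (-(t * b ^ 2)) - (X - K) - 4 * t / c) =
        c * (K * Real.exp (-(t * b ^ 2)) - (X - K)) - 4 * t := by field_simp
    rw [h2] at h1
    refine le_trans ?_ h1
    gcongr
  have hkey : (∫ v, Φ1 v) < c * ‖∫ v in Ioi (0:ℝ), g v‖ - Y - c * (∫ v, Φ0 v) := by
    have h1 : c * X ≤ c * (1.3094 * K) := by gcongr
    have h2 : c * Y ≤ c * (0.6844 * K) := by gcongr
    have h3 : 7.24 * K ≤ c * K := by gcongr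
    nlinarith
  have hlow' : c * (W0 * ‖∫ v in Ioi (0:ℝ), g v‖ - (1 / c) * Y - W0 * (∫ v, Φ0 v)) ≤
      c * ‖∫ v in Ioi (0:ℝ), q v * (W v : ℂ)‖ := by gcongr
  have h10 : c * (W0 * ‖∫ v in Ioi (0:ℝ), g v‖ - (1 / c) * Y - W0 * (∫ v, Φ0 v)) =
      W0 * (c * ‖∫ v in Ioi (0:ℝ), g v‖ - c * (∫ v, Φ0 v)) - Y := by
    field_simp
    ring
  rw [h10] at hlow'
  have h11 : W0 * (∫ v, Φ1 v) < W0 * (c * ‖∫ v in Ioi (0:ℝ), g v‖ - c * (∫ v, Φ0 v)) - Y := by
    have h12 : W0 * (∫ v, Φ1 v) <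
        W0 * (c * ‖∫ v in Ioi (0:ℝ), g v‖ - Y - c * (∫ v, Φ0 v)) := by
      apply mul_lt_mul_of_pos_left hkey
      linarith
    have h13 : Y ≤ W0 * Y := by nlinarith
    nlinarith
  exact lt_of_le_of_lt hup (lt_of_lt_of_le h11 hlow')

end core

end Pool.Agent.H6
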