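import Mathlib
import Pool.Agent.H6.CoreIneq

/-!
From the core inequality to the comparison of the two half-line integrals.
-/

open Real MeasureTheory Set Filter Topology

namespace Pool.Agent.H6

lemma sinh_convexOn : ConvexOn ℝ (Ici 0) Real.sinh := by
  apply MonotoneOn.convexOn_of_deriv (convex_Ici 0) Real.continuous_sinh.continuousOn
    Real.differentiable_sinh.differentiableOn
  intro a ha b hb hab
  rw [interior_Ici] at ha hb
  rw [Real.deriv_sinh, Real.cosh_le_cosh, abs_of_pos ha, abs_of_pos hb]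
  exact hab

/-- for `0 ≤ y ≤ x`, `x sinh y ≤ y sinh x` -/
lemma mul_sinh_le {x y : ℝ} (hy : 0 ≤ y) (hxy : y ≤ x) : x * Real.sinh y ≤ y * Real.sinh x := by
  rcases hy.eq_or_lt with rfl | hy0
  · simp
  have hx : 0 < x := lt_of_lt_of_le hy0 hxy
  have ha : 0 ≤ 1 - y / x := by rw [sub_nonneg, div_le_one hx]; exact hxy
  have hb : 0 ≤ y / x := by positivity
  have h := sinh_convexOn.2 (mem_Ici.mpr (le_refl (0:ℝ))) (mem_Ici.mpr hx.le) ha hb (by ring)
  simp only [smul_eq_mul, mul_zero, zero_add, Real.sinh_zero] at h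
  have e : y / x * x = y := by field_simp
  rw [e] at h
  have h2 := mul_le_mul_of_nonneg_left h hx.le
  calc x * Real.sinh y ≤ x * (y / x * Real.sinh x) := h2
    _ = y * Real.sinh x := by field_simp

/-- for `0 < a ≤ b`, `a * sinh b * cosh a ≤ b * sinh a * cosh b` -/
lemma tanh_aux {a b : ℝ} (ha : 0 < a) (hab : a ≤ b) :
    a * (Real.sinh b * Real.cosh a) ≤ b * (Real.sinh a * Real.cosh b) := by
  have h1 : Real.sinh (b + a) = Real.sinh b * Real.cosh a + Real.cosh b * Real.sinh a :=
    Real.sinh_add b a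
  have h2 : Real.sinh (b - a) = Real.sinh b * Real.cosh a - Real.cosh b * Real.sinh a :=
    Real.sinh_sub b a
  have h3 := mul_sinh_le (x := b + a) (y := b - a) (by linarith) (by linarith)
  rw [h1, h2] at h3
  nlinarith

lemma tanh_ratio {p c v : ℝ} (hp : 0 < p) (hc : 0 < c) (hv : 0 < v) :
    |Real.tanh (p * v) - Real.tanh (p * c)| ≤ Real.tanh (p * c) * (|v - c| / c) := by
  have hpv : 0 < p * v := by positivity
  have hpc : 0 < p * c := by positivity
  have hcv := Real.cosh_pos (p * v)
  have hcc := Real.cosh_pos (p * c)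
  have hsv : 0 < Real.sinh (p * v) := Real.sinh_pos_iff.mpr hpv
  have hsc : 0 < Real.sinh (p * c) := Real.sinh_pos_iff.mpr hpc
  rw [Real.tanh_eq_sinh_div_cosh, Real.tanh_eq_sinh_div_cosh]
  rcases le_total v c with h | h
  · -- v ≤ c
    have h1 := tanh_aux hpv (by gcongr : p * v ≤ p * c)
    -- v * sinh(pc) cosh(pv) ≤ c * sinh(pv) cosh(pc)
    have h1' : v * (Real.sinh (p * c) * Real.cosh (p * v)) ≤
        c * (Real.sinh (p * v) * Real.cosh (p * c)) := by
      have : p * (v * (Real.sinh (p * c) * Real.cosh (p * v))) ≤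
        p * (c * (Real.sinh (p * v) * Real.cosh (p * c))) := by
        calc _ = p * v * (Real.sinh (p * c) * Real.cosh (p * v)) := by ring
          _ ≤ p * c * (Real.sinh (p * v) * Real.cosh (p * c)) := h1
          _ = _ := by ring
      exact le_of_mul_le_mul_left this hp
    have h2 : Real.sinh (p * c) / Real.cosh (p * c) * (v / c) ≤
        Real.sinh (p * v) / Real.cosh (p * v) := by
      rw [div_mul_div_comm, div_le_div_iff₀ (by positivity) hcv]
      nlinarith
    have h3 : Real.sinh (p * v) / Real.cosh (p * v) ≤ Real.sinh (p * c) / Real.cosh (p * c) := by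
      have h4 : 0 ≤ Real.sinh (p * c - p * v) := Real.sinh_nonneg_iff.mpr (by nlinarith)
      rw [Real.sinh_sub] at h4
      rw [div_le_div_iff₀ hcv hcc]
      nlinarith
    rw [abs_of_nonpos (by linarith), abs_of_nonpos (by linarith)]
    have e : Real.sinh (p * c) / Real.cosh (p * c) * (-(v - c) / c) =
        Real.sinh (p * c) / Real.cosh (p * c) -
          Real.sinh (p * c) / Real.cosh (p * c) * (v / c) := by field_simp; ring
    rw [e]
    linarith
  · have h1 := tanh_aux hpc (by gcongr : p * c ≤ p * v)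
    have h1' : c * (Real.sinh (p * v) * Real.cosh (p * c)) ≤
        v * (Real.sinh (p * c) * Real.cosh (p * v)) := by
      have : p * (c * (Real.sinh (p * v) * Real.cosh (p * c))) ≤
        p * (v * (Real.sinh (p * c) * Real.cosh (p * v))) := by
        calc _ = p * c * (Real.sinh (p * v) * Real.cosh (p * c)) := by ring
          _ ≤ p * v * (Real.sinh (p * c) * Real.cosh (p * v)) := h1
          _ = _ := by ring
      exact le_of_mul_le_mul_left this hp
    have h2 : Real.sinh (p * v) / Real.cosh (p * v) ≤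
        Real.sinh (p * c) / Real.cosh (p * c) * (v / c) := by
      rw [div_mul_div_comm, div_le_div_iff₀ hcv (by positivity)]
      nlinarith
    have h3 : Real.sinh (p * c) / Real.cosh (p * c) ≤ Real.sinh (p * v) / Real.cosh (p * v) := by
      have h4 : 0 ≤ Real.sinh (p * v - p * c) := Real.sinh_nonneg_iff.mpr (by nlinarith)
      rw [Real.sinh_sub] at h4
      rw [div_le_div_iff₀ hcc hcv]
      nlinarith
    rw [abs_of_nonneg (by linarith), abs_of_nonneg (by linarith)]
    have e : Real.sinh (p * c) / Real.cosh (p * c) * ((v - c) / c) =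
        Real.sinh (p * c) / Real.cosh (p * c) * (v / c) -
          Real.sinh (p * c) / Real.cosh (p * c) := by field_simp
    rw [e]
    linarith

/-- from the core inequality to the strict comparison of the two half-line integrals -/
theorem comparison {V : ℝ → ℂ} {p c : ℝ} (hp : 0 < p) (hc : 0 < c)
    (hI : IntegrableOn (fun v => V v * ((Real.exp (p * v) : ℝ) : ℂ)) (Ioi 0))
    (hI' : IntegrableOn (fun v => V v * ((Real.exp (-(p * v)) : ℝ) : ℂ)) (Ioi 0))
    (hI1 : IntegrableOn (fun v => ‖V v‖ * (Real.exp (p * v) + Real.exp (-(p * v))) * |v - c|)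
      (Ioi 0))
    (h : ∫ v in Ioi (0:ℝ), ‖V v‖ * (Real.exp (p * v) + Real.exp (-(p * v))) * |v - c| <
      c * ‖∫ v in Ioi (0:ℝ), V v * ((Real.exp (p * v) + Real.exp (-(p * v)) : ℝ) : ℂ)‖) :
    ‖∫ v in Ioi (0:ℝ), V v * ((Real.exp (-(p * v)) : ℝ) : ℂ)‖ <
      ‖∫ v in Ioi (0:ℝ), V v * ((Real.exp (p * v) : ℝ) : ℂ)‖ := by
  set A := ∫ v in Ioi (0:ℝ), V v * ((Real.exp (p * v) : ℝ) : ℂ) with hA
  set B := ∫ v in Ioi (0:ℝ), V v * ((Real.exp (-(p * v)) : ℝ) : ℂ) with hB
  have hC : ∫ v in Ioi (0:ℝ), V v * ((Real.exp (p * v) + Real.exp (-(p * v)) : ℝ) : ℂ) = A + B := by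
    rw [hA, hB, ← integral_add hI hI']
    apply integral_congr_ae
    filter_upwards with v
    push_cast
    ring
  rw [hC] at h
  set T := Real.tanh (p * c) with hT
  have hTpos : 0 < T := by
    rw [hT, Real.tanh_eq_sinh_div_cosh]
    exact div_pos (Real.sinh_pos_iff.mpr (by positivity)) (Real.cosh_pos _)
  have hcosh : ∀ v, Real.exp (p * v) + Real.exp (-(p * v)) = 2 * Real.cosh (p * v) := by
    intro v; rw [Real.cosh_eq]; ring
  have hsinh : ∀ v, Real.exp (p * v) - Real.exp (-(p * v)) = 2 * Real.sinh (p * v) := by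
    intro v; rw [Real.sinh_eq]; ring
  have hS : A - B = ∫ v in Ioi (0:ℝ), V v *
      (((Real.exp (p * v) + Real.exp (-(p * v))) * Real.tanh (p * v) : ℝ) : ℂ) := by
    rw [hA, hB, ← integral_sub hI hI']
    apply integral_congr_ae
    filter_upwards with v
    have : (Real.exp (p * v) + Real.exp (-(p * v))) * Real.tanh (p * v) =
        Real.exp (p * v) - Real.exp (-(p * v)) := by
      rw [hcosh, hsinh, Real.tanh_eq_sinh_div_cosh]
      have := (Real.cosh_pos (p * v)).ne'
      field_simp
    rw [this]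
    push_cast
    ring
  have hSi : IntegrableOn (fun v => V v *
      (((Real.exp (p * v) + Real.exp (-(p * v))) * Real.tanh (p * v) : ℝ) : ℂ)) (Ioi 0) := by
    refine (hI.sub hI').congr ?_
    filter_upwards with v
    have : (Real.exp (p * v) + Real.exp (-(p * v))) * Real.tanh (p * v) =
        Real.exp (p * v) - Real.exp (-(p * v)) := by
      rw [hcosh, hsinh, Real.tanh_eq_sinh_div_cosh]
      have := (Real.cosh_pos (p * v)).ne'
      field_simp
    rw [this]
    simp only [Pi.sub_apply]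
    push_cast
    ring
  have hCi : IntegrableOn (fun v => V v *
      (((Real.exp (p * v) + Real.exp (-(p * v))) * T : ℝ) : ℂ)) (Ioi 0) := by
    refine ((hI.add hI').mul_const (T : ℂ)).congr ?_
    filter_upwards with v
    simp only [Pi.add_apply]
    push_cast
    ring
  have hE : (A - B) - (T : ℂ) * (A + B) = ∫ v in Ioi (0:ℝ), V v *
      (((Real.exp (p * v) + Real.exp (-(p * v))) * (Real.tanh (p * v) - T) : ℝ) : ℂ) := by
    rw [hS, ← hC, ← integral_const_mul]
    have hCi' : IntegrableOn (fun v => (T : ℂ) * (V v *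
        ((Real.exp (p * v) + Real.exp (-(p * v)) : ℝ) : ℂ))) (Ioi 0) := by
      refine hCi.congr ?_
      filter_upwards with v
      push_cast
      ring
    rw [← integral_sub hSi hCi']
    apply integral_congr_ae
    filter_upwards with v
    push_cast
    ring
  have hEn : ‖(A - B) - (T : ℂ) * (A + B)‖ < T * ‖A + B‖ := by
    rw [hE]
    refine lt_of_le_of_lt (norm_integral_le_integral_norm _) ?_
    have h1 : ∫ v in Ioi (0:ℝ), ‖V v *
        (((Real.exp (p * v) + Real.exp (-(p * v))) * (Real.tanh (p * v) - T) : ℝ) : ℂ)‖ ≤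
        ∫ v in Ioi (0:ℝ), (T / c) *
          (‖V v‖ * (Real.exp (p * v) + Real.exp (-(p * v))) * |v - c|) := by
      apply setIntegral_mono_on
      · have hd : IntegrableOn (fun v => V v *
            (((Real.exp (p * v) + Real.exp (-(p * v))) * (Real.tanh (p * v) - T) : ℝ) : ℂ))
            (Ioi 0) := by
          refine (hSi.sub hCi).congr ?_
          filter_upwards with v
          simp only [Pi.sub_apply]
          push_cast
          ring
        exact hd.norm
      · exact hI1.const_mul _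
      · exact measurableSet_Ioi
      · intro v hv
        have hv0 : 0 < v := hv
        rw [norm_mul, Complex.norm_real, Real.norm_eq_abs, abs_mul]
        have h2 := tanh_ratio hp hc hv0
        have h3 : 0 < Real.exp (p * v) + Real.exp (-(p * v)) := by positivity
        rw [abs_of_pos h3]
        calc ‖V v‖ * ((Real.exp (p * v) + Real.exp (-(p * v))) * |Real.tanh (p * v) - T|)
            ≤ ‖V v‖ * ((Real.exp (p * v) + Real.exp (-(p * v))) * (T * (|v - c| / c))) := by
              gcongr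
          _ = _ := by ring
    refine lt_of_le_of_lt h1 ?_
    rw [integral_const_mul]
    have h4 : 0 < T / c := by positivity
    calc T / c * ∫ v in Ioi (0:ℝ), ‖V v‖ * (Real.exp (p * v) + Real.exp (-(p * v))) * |v - c|
        < T / c * (c * ‖A + B‖) := by
          exact mul_lt_mul_of_pos_left h h4
      _ = T * ‖A + B‖ := by field_simp
  -- conclude
  have hAB : 0 < ‖A + B‖ := by
    by_contra hcon
    have : ‖A + B‖ = 0 := le_antisymm (not_lt.mp hcon) (norm_nonneg _)
    rw [this, mul_zero] at hEn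
    exact absurd hEn (not_lt.mpr (norm_nonneg _))
  set D := (A - B) - (T : ℂ) * (A + B) with hD
  have hre : 0 < ((A - B) * (starRingEnd ℂ) (A + B)).re := by
    have e : (A - B) * (starRingEnd ℂ) (A + B) =
        (T : ℂ) * ((A + B) * (starRingEnd ℂ) (A + B)) + D * (starRingEnd ℂ) (A + B) := by
      rw [hD]; ring
    rw [e, Complex.add_re, Complex.mul_conj, Complex.normSq_eq_norm_sq]
    have h5 : ((T : ℂ) * ((‖A + B‖ ^ 2 : ℝ) : ℂ)).re = T * ‖A + B‖ ^ 2 := by
      rw [← Complex.ofReal_mul, Complex.ofReal_re]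
    rw [h5]
    have h6 : -(‖D‖ * ‖A + B‖) ≤ (D * (starRingEnd ℂ) (A + B)).re := by
      have h7 := Complex.abs_re_le_norm (D * (starRingEnd ℂ) (A + B))
      rw [norm_mul, Complex.norm_conj] at h7
      exact (abs_le.mp h7).1
    have h8 : ‖D‖ * ‖A + B‖ < T * ‖A + B‖ * ‖A + B‖ := mul_lt_mul_of_pos_right hEn hAB
    nlinarith
  have hsq : ‖B‖ ^ 2 < ‖A‖ ^ 2 := by
    rw [← Complex.normSq_eq_norm_sq, ← Complex.normSq_eq_norm_sq, Complex.normSq_apply,
      Complex.normSq_apply]
    simp at hre
    nlinarith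
  exact lt_of_pow_lt_pow_left₀ 2 (norm_nonneg _) hsq

/-- the case `p = 0`: the first moment has positive real part relative to the mass -/
theorem comparison_zero {V : ℝ → ℂ} {c : ℝ}
    (hI : IntegrableOn V (Ioi 0))
    (hI2 : IntegrableOn (fun v => V v * (v : ℂ)) (Ioi 0))
    (h : ∫ v in Ioi (0:ℝ), ‖V v‖ * |v - c| < c * ‖∫ v in Ioi (0:ℝ), V v‖) :
    0 < ((∫ v in Ioi (0:ℝ), V v * (v : ℂ)) * (starRingEnd ℂ) (∫ v in Ioi (0:ℝ), V v)).re := by
  set A := ∫ v in Ioi (0:ℝ), V v with hA
  have hE : (∫ v in Ioi (0:ℝ), V v * (v : ℂ)) - A * (c : ℂ) =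
      ∫ v in Ioi (0:ℝ), V v * ((v - c : ℝ) : ℂ) := by
    rw [hA, ← integral_mul_const, ← integral_sub hI2 (hI.mul_const _)]
    apply integral_congr_ae
    filter_upwards with v
    push_cast
    ring
  set D := (∫ v in Ioi (0:ℝ), V v * (v : ℂ)) - A * (c : ℂ) with hD
  have hDn : ‖D‖ < c * ‖A‖ := by
    rw [hE]
    refine lt_of_le_of_lt (norm_integral_le_integral_norm _) (lt_of_le_of_lt (le_of_eq ?_) h)
    apply integral_congr_ae
    filter_upwards with v
    rw [norm_mul, Complex.norm_real, Real.norm_eq_abs]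
  have hA0 : 0 < ‖A‖ := by
    by_contra hcon
    have : ‖A‖ = 0 := le_antisymm (not_lt.mp hcon) (norm_nonneg _)
    rw [this, mul_zero] at hDn
    exact absurd hDn (not_lt.mpr (norm_nonneg _))
  have e : (∫ v in Ioi (0:ℝ), V v * (v : ℂ)) * (starRingEnd ℂ) A =
      (c : ℂ) * (A * (starRingEnd ℂ) A) + D * (starRingEnd ℂ) A := by
    rw [hD]; ring
  rw [e, Complex.add_re, Complex.mul_conj, Complex.normSq_eq_norm_sq]
  have h5 : ((c : ℂ) * ((‖A‖ ^ 2 : ℝ) : ℂ)).re = c * ‖A‖ ^ 2 := by
    rw [← Complex.ofReal_mul, Complex.ofReal_re]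
  rw [h5]
  have h6 : -(‖D‖ * ‖A‖) ≤ (D * (starRingEnd ℂ) A).re := by
    have h7 := Complex.abs_re_le_norm (D * (starRingEnd ℂ) A)
    rw [norm_mul, Complex.norm_conj] at h7
    exact (abs_le.mp h7).1
  have h8 : ‖D‖ * ‖A‖ < c * ‖A‖ * ‖A‖ := mul_lt_mul_of_pos_right hDn hA0
  nlinarith

end Pool.Agent.H6
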