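import Mathlib
import Pool.Agent.H6.GammaLocal
import Pool.Agent.H6.Comparison

/-!
Concentration of `M^(1+ix+v) Γ(1+ix+v) r(v) exp(-v²/4t + p v)` around its peak.
-/

open Real MeasureTheory Set Filter Topology

namespace Pool.Agent.H6

/-- the point `1 + c + i x` -/
noncomputable def pt (x c : ℝ) : ℂ := (1 + c : ℝ) + x * Complex.I

lemma pt_re (x c : ℝ) : (pt x c).re = 1 + c := by simp [pt]

lemma pt_add (x c u : ℝ) : pt x (c + u) = pt x c + (u : ℂ) := by
  simp only [pt]; push_cast; ring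

lemma psi_lipschitz {x a b : ℝ} (ha : 0 ≤ a) (hb : 0 ≤ b) :
    |(psi (pt x a)).re - (psi (pt x b)).re| ≤ 5 / 3 * |a - b| := by
  rcases eq_or_ne a b with rfl | hab
  · simp
  set u := b - a with hu
  have h1 : 1 ≤ (pt x a).re := by rw [pt_re]; linarith
  have h2 : 1 ≤ (pt x b).re := by rw [pt_re]; linarith
  have h3 : pt x b = pt x a + (u : ℂ) := by rw [← pt_add]; congr 1; ring
  have h4 : pt x a = pt x b + ((-u : ℝ) : ℂ) := by rw [← pt_add]; congr 1; ring
  have hsu : 1 ≤ (pt x a).re + u := by rw [pt_re]; linarith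
  have hsu' : 1 ≤ (pt x b).re + (-u) := by rw [pt_re]; linarith
  have e1 := gamma_shift (s := pt x a) (u := u) h1 hsu
  have e2 := gamma_shift (s := pt x b) (u := -u) h2 hsu'
  rw [← h3] at e1
  rw [← h4] at e2
  have hG : Complex.Gamma (pt x a) ≠ 0 := Complex.Gamma_ne_zero_of_re_pos (by linarith)
  rw [e1, mul_assoc, ← Complex.exp_add] at e2
  have e3 : Complex.exp ((u : ℂ) * psi (pt x a) + rho (pt x a) u +
      (((-u : ℝ) : ℂ) * psi (pt x b) + rho (pt x b) (-u))) = 1 := by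
    have : Complex.Gamma (pt x a) * 1 = Complex.Gamma (pt x a) * Complex.exp
        ((u : ℂ) * psi (pt x a) + rho (pt x a) u +
      (((-u : ℝ) : ℂ) * psi (pt x b) + rho (pt x b) (-u))) := by
      rw [mul_one]; exact e2
    exact (mul_left_cancel₀ hG this).symm
  have e4 : ((u : ℂ) * psi (pt x a) + rho (pt x a) u +
      (((-u : ℝ) : ℂ) * psi (pt x b) + rho (pt x b) (-u))).re = 0 := by
    have h5 := congrArg norm e3
    rw [Complex.norm_exp, norm_one] at h5
    have := congrArg Real.log h5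
    simpa using this
  simp only [Complex.add_re, Complex.re_ofReal_mul] at e4
  have b1 := norm_rho_le (s := pt x a) (u := u) h1 hsu
  have b2 := norm_rho_le (s := pt x b) (u := -u) h2 hsu'
  have c1 := Complex.abs_re_le_norm (rho (pt x a) u)
  have c2 := Complex.abs_re_le_norm (rho (pt x b) (-u))
  have hu0 : u ≠ 0 := by rw [hu]; intro h; exact hab (by linarith)
  have hupos : 0 < |u| := abs_pos.mpr hu0
  have e5 : u * ((psi (pt x a)).re - (psi (pt x b)).re) =
      -((rho (pt x a) u).re + (rho (pt x b) (-u)).re) := by linarith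
  have e6 : |u| * |(psi (pt x a)).re - (psi (pt x b)).re| ≤ 5 / 3 * (|u| * |u|) := by
    rw [← abs_mul, e5, abs_neg]
    refine (abs_add_le _ _).trans ?_
    have : u ^ 2 = |u| * |u| := by rw [← sq_abs]; ring
    have h7 : (-u) ^ 2 = |u| * |u| := by rw [neg_sq]; exact this
    rw [this] at b1
    rw [h7] at b2
    linarith
  have e7 : |a - b| = |u| := by rw [hu, abs_sub_comm]
  rw [e7]
  have : |u| * |(psi (pt x a)).re - (psi (pt x b)).re| ≤ |u| * (5 / 3 * |u|) := by linarith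
  exact le_of_mul_le_mul_left this hupos

lemma norm_pt_le {x c : ℝ} (hc : 0 ≤ c) : ‖pt x 0‖ ≤ ‖pt x c‖ := by
  rw [Complex.norm_def, Complex.norm_def]
  apply Real.sqrt_le_sqrt
  rw [Complex.normSq_apply, Complex.normSq_apply]
  simp [pt]
  nlinarith

lemma one_le_norm_pt (x : ℝ) : 1 ≤ ‖pt x 0‖ := by
  have := Complex.re_le_norm (pt x 0)
  rw [pt_re] at this
  linarith

/-- existence of the peak -/
lemma exists_peak {M x t p : ℝ} (hM : 0 < M) (ht : 0 < t) (ht8 : t ≤ 1 / 8) (hp : 0 ≤ p)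
    (h0 : 0 < Real.log (M * ‖pt x 0‖) - 5 / 6) :
    ∃ c : ℝ, 2 * t * (Real.log (M * ‖pt x 0‖) - 5 / 6) ≤ c ∧
      (psi (pt x c)).re + Real.log M + p = c / (2 * t) := by
  have hn := one_le_norm_pt x
  set f : ℝ → ℝ := fun c => (psi (pt x c)).re + Real.log M + p - c / (2 * t) with hf
  have hcont : ContinuousOn f (Ici 0) := by
    have h1 : ContinuousOn (fun c : ℝ => (psi (pt x c)).re) (Ici 0) := by
      have : LipschitzOnWith ⟨5 / 3, by norm_num⟩ (fun c : ℝ => (psi (pt x c)).re) (Ici 0) := by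
        apply LipschitzOnWith.of_dist_le_mul
        intro a ha b hb
        rw [Real.dist_eq, Real.dist_eq]
        exact psi_lipschitz ha hb
      exact this.continuousOn
    exact ((h1.add continuousOn_const).add continuousOn_const).sub (by fun_prop)
  have hlog : Real.log (M * ‖pt x 0‖) = Real.log M + Real.log ‖pt x 0‖ :=
    Real.log_mul hM.ne' (by linarith)
  have hlow : ∀ c, 0 ≤ c → Real.log ‖pt x 0‖ - 5 / 6 ≤ (psi (pt x c)).re := by
    intro c hc
    have h1 := abs_re_psi_sub_log_le (s := pt x c) (by rw [pt_re]; linarith)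
    have h2 := (abs_le.mp h1).1
    have h3 : Real.log ‖pt x 0‖ ≤ Real.log ‖pt x c‖ :=
      Real.log_le_log (by linarith) (norm_pt_le hc)
    linarith
  have hf0 : 0 < f 0 := by
    simp only [hf]
    have := hlow 0 le_rfl
    rw [hlog] at h0
    simp
    linarith
  set c1 := f 0 with hc1
  have hfc1 : f c1 ≤ 0 := by
    have h1 := psi_lipschitz (x := x) (a := c1) (b := 0) hf0.le le_rfl
    rw [sub_zero, abs_of_pos hf0] at h1
    have h2 := (abs_le.mp h1).2
    have h3 : 4 * c1 ≤ c1 / (2 * t) := by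
      rw [le_div_iff₀ (by positivity)]
      nlinarith
    have h4 : f c1 = f 0 + ((psi (pt x c1)).re - (psi (pt x 0)).re) - c1 / (2 * t) := by
      simp only [hf]; simp; ring
    rw [h4, ← hc1]
    linarith
  obtain ⟨c, hc, hfc⟩ := intermediate_value_Icc' hf0.le (hcont.mono Icc_subset_Ici_self)
    (show (0:ℝ) ∈ Icc (f c1) (f 0) from ⟨hfc1, hf0.le⟩)
  refine ⟨c, ?_, ?_⟩
  · have h5 := hlow c hc.1
    have h6 : c = 2 * t * ((psi (pt x c)).re + Real.log M + p) := by
      simp only [hf] at hfc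
      field_simp at hfc
      linarith
    rw [h6, hlog]
    have : 0 < 2 * t := by positivity
    apply mul_le_mul_of_nonneg_left _ this.le
    linarith
  · simp only [hf] at hfc
    linarith

/-- the main factor -/
noncomputable def Gfun (M x : ℝ) (v : ℝ) : ℂ := (M : ℂ) ^ (pt x v) * Complex.Gamma (pt x v)

lemma Gfun_continuousOn {M x : ℝ} (hM : 0 < M) : ContinuousOn (Gfun M x) (Ici 0) := by
  have h1 : Continuous (fun v : ℝ => pt x v) := by unfold pt; fun_prop
  have hM' : (M : ℂ) ≠ 0 := by exact_mod_cast hM.ne'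
  apply ContinuousOn.mul
  · exact (h1.const_cpow (Or.inl hM')).continuousOn
  · intro v hv
    have hv' : (0:ℝ) ≤ v := hv
    apply ContinuousAt.continuousWithinAt
    have h2 : ContinuousAt Complex.Gamma (pt x v) := by
      apply (Complex.differentiableAt_Gamma _ _).continuousAt
      intro m hm
      have := congrArg Complex.re hm
      rw [pt_re] at this
      simp at this
      have h3 : (0:ℝ) ≤ m := Nat.cast_nonneg m
      linarith
    exact h2.comp h1.continuousAt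

lemma Gfun_ne_zero {M x : ℝ} (hM : 0 < M) {v : ℝ} (hv : 0 ≤ v) : Gfun M x v ≠ 0 := by
  unfold Gfun
  apply mul_ne_zero
  · rw [Complex.cpow_ne_zero_iff]
    left; exact_mod_cast hM.ne'
  · apply Complex.Gamma_ne_zero_of_re_pos
    rw [pt_re]; linarith

lemma Gfun_shift {M x : ℝ} (hM : 0 < M) {c v : ℝ} (hc : 0 ≤ c) (hv : 0 ≤ v) :
    Gfun M x v = Gfun M x c * Complex.exp (((v - c : ℝ) : ℂ) * (psi (pt x c) + Real.log M) +
      rho (pt x c) (v - c)) := by
  unfold Gfun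
  have h1 : pt x v = pt x c + ((v - c : ℝ) : ℂ) := by
    rw [← pt_add]; congr 1; ring
  have h2 := gamma_shift (s := pt x c) (u := v - c) (by rw [pt_re]; linarith)
    (by rw [pt_re]; linarith)
  have hM' : (M : ℂ) ≠ 0 := by exact_mod_cast hM.ne'
  rw [h1, h2, Complex.cpow_add _ _ hM', Complex.cpow_def_of_ne_zero hM' ((v - c : ℝ) : ℂ),
    ← Complex.ofReal_log hM.le]
  have h3 : Complex.exp (((v - c : ℝ) : ℂ) * (psi (pt x c) + Real.log M) +
      rho (pt x c) (v - c)) = Complex.exp ((Real.log M : ℂ) * ((v - c : ℝ) : ℂ)) *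
      Complex.exp (((v - c : ℝ) : ℂ) * psi (pt x c) + rho (pt x c) (v - c)) := by
    rw [← Complex.exp_add]; congr 1; ring
  rw [h3]
  ring

/-- Concentration statement, in the form needed for the comparison. -/
theorem concentration {M x t p B : ℝ} {q r : ℝ → ℂ} (hM : 0 < M) (ht : 0 < t) (ht8 : t ≤ 1 / 8)
    (hp : 0 ≤ p) (hB0 : 0 ≤ B)
    (h0 : 7.24 ≤ 2 * t * (Real.log (M * ‖pt x 0‖) - 5 / 6))
    (hB : ∀ c, 2 * t * (Real.log (M * ‖pt x 0‖) - 5 / 6) ≤ c →
      B * Real.exp (-(1 / (4 * t) - 5 / 6) * (c - 1) ^ 2) ≤ 1 / 1000)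
    (hq : ∀ v, 0 ≤ v → q v = Gfun M x v * r v)
    (hr0 : ∀ v, 0 ≤ v → v ≤ 1 → ‖r v - 1‖ ≤ B)
    (hr1 : ∀ v, 1 ≤ v → ‖r v - 1‖ ≤ 10)
    (hr5 : ∀ v, 5 ≤ v → ‖r v - 1‖ ≤ 1 / 15)
    (hqc : ContinuousOn q (Ici 0)) :
    ∃ c : ℝ, 0 < c ∧
      (∫ v in Ioi (0:ℝ), ‖q v * ((Real.exp (-(v ^ 2 / (4 * t))) : ℝ) : ℂ)‖ *
        (Real.exp (p * v) + Real.exp (-(p * v))) * |v - c|) <
      c * ‖∫ v in Ioi (0:ℝ), q v * ((Real.exp (-(v ^ 2 / (4 * t))) : ℝ) : ℂ) *
        ((Real.exp (p * v) + Real.exp (-(p * v)) : ℝ) : ℂ)‖ := by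
  have h0' : 0 < Real.log (M * ‖pt x 0‖) - 5 / 6 := by
    by_contra hcon
    have h1 : Real.log (M * ‖pt x 0‖) - 5 / 6 ≤ 0 := not_lt.mp hcon
    have : 2 * t * (Real.log (M * ‖pt x 0‖) - 5 / 6) ≤ 0 :=
      mul_nonpos_of_nonneg_of_nonpos (by positivity) h1
    linarith
  obtain ⟨c, hcl, hpk⟩ := exists_peak (x := x) hM ht ht8 hp h0'
  have hc724 : 7.24 ≤ c := h0.trans hcl
  have hc0 : 0 < c := by linarith
  set s := pt x c with hs
  set b := (psi s).im with hb
  obtain ⟨Gc, hGc⟩ : ∃ G : ℂ,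
    G = Gfun M x c * ((Real.exp (-(c ^ 2 / (4 * t)) + p * c) : ℝ) : ℂ) := ⟨_, rfl⟩
  have hGc0 : Gc ≠ 0 := by
    rw [hGc]
    apply mul_ne_zero (Gfun_ne_zero hM hc0.le)
    exact_mod_cast (Real.exp_pos _).ne'
  set g : ℝ → ℂ := fun v =>
    Gfun M x v * ((Real.exp (-(v ^ 2 / (4 * t)) + p * v) : ℝ) : ℂ) / Gc with hgdef
  set Q : ℝ → ℂ := fun v =>
    q v * ((Real.exp (-(v ^ 2 / (4 * t)) + p * v) : ℝ) : ℂ) / Gc with hQdef
  have hg : ∀ v, 0 ≤ v → g v = Complex.exp (Complex.I * b * (v - c) - (v - c) ^ 2 / (4 * t) +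
      rho s (v - c)) := by
    intro v hv
    simp only [hgdef, hGc]
    rw [Gfun_shift hM hc0.le hv, div_eq_iff (by
      apply mul_ne_zero (Gfun_ne_zero hM hc0.le)
      exact_mod_cast (Real.exp_pos _).ne')]
    rw [Complex.ofReal_exp, Complex.ofReal_exp]
    have e : ∀ a b c d : ℂ, a * Complex.exp b * Complex.exp c =
        Complex.exp d * (a * Complex.exp (b + c - d)) := by
      intro a b c d
      rw [show Complex.exp d * (a * Complex.exp (b + c - d)) =
        a * (Complex.exp d * Complex.exp (b + c - d)) by ring, ← Complex.exp_add]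
      rw [mul_assoc, ← Complex.exp_add]
      congr 2
      ring
    rw [e _ _ _ (Complex.I * b * (v - c) - (v - c) ^ 2 / (4 * t) + rho s (v - c))]
    congr 3
    have h5 : psi (pt x c) = ((psi s).re : ℂ) + (b : ℂ) * Complex.I := by
      rw [hb, ← hs]; exact (Complex.re_add_im _).symm
    have h6 : ((psi s).re : ℂ) = ((c / (2 * t) - p - Real.log M : ℝ) : ℂ) := by
      congr 1
      rw [← hpk]; ring
    rw [h5, h6]
    push_cast
    have ht' : (t : ℂ) ≠ 0 := by exact_mod_cast ht.ne'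
    field_simp
    ring
  have hρ : ∀ v, 0 ≤ v → ‖rho s (v - c)‖ ≤ 5 / 6 * (v - c) ^ 2 := by
    intro v hv
    apply norm_rho_le
    · rw [hs, pt_re]; linarith
    · rw [hs, pt_re]; linarith
  have hbim : |b| ≤ π / 2 := abs_im_psi_le (by rw [hs, pt_re]; linarith)
  have hgc : ContinuousOn g (Ici 0) := by
    apply ContinuousOn.div_const
    apply (Gfun_continuousOn hM).mul
    exact (Complex.continuous_ofReal.comp (by fun_prop)).continuousOn
  have hQc : ContinuousOn Q (Ici 0) := by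
    apply ContinuousOn.div_const
    apply hqc.mul
    exact (Complex.continuous_ofReal.comp (by fun_prop)).continuousOn
  have hQ : ∀ v, 0 ≤ v → Q v = g v * r v := by
    intro v hv
    simp only [hQdef, hgdef]
    rw [hq v hv]
    ring
  have hcore := core_ineq (ρ := fun v => rho s (v - c)) (g := g) (q := Q) (r := r) ht ht8 hc724
    hbim hp hB0 (hB c hcl) hρ hg hQ hr0 hr1 hr5 hgc hQc
  refine ⟨c, hc0, ?_⟩
  have hGn : 0 < ‖Gc‖ := norm_pos_iff.mpr hGc0
  have e1 : ∀ v : ℝ, Real.exp (-(v ^ 2 / (4 * t)) + p * v) * (1 + Real.exp (-(2 * p * v))) =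
      Real.exp (-(v ^ 2 / (4 * t))) * (Real.exp (p * v) + Real.exp (-(p * v))) := by
    intro v
    rw [Real.exp_add, mul_assoc, mul_add, mul_one, ← Real.exp_add]
    congr 3
    ring
  have h7 : ∀ v : ℝ, ‖Q v‖ * (1 + Real.exp (-(2 * p * v))) * |v - c| =
      ‖Gc‖⁻¹ * (‖q v * ((Real.exp (-(v ^ 2 / (4 * t))) : ℝ) : ℂ)‖ *
        (Real.exp (p * v) + Real.exp (-(p * v))) * |v - c|) := by
    intro v
    simp only [hQdef]
    rw [norm_div, norm_mul, norm_mul, Complex.norm_real, Complex.norm_real, Real.norm_eq_abs,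
      Real.norm_eq_abs, abs_of_pos (Real.exp_pos _), abs_of_pos (Real.exp_pos _)]
    calc _ = ‖Gc‖⁻¹ * ‖q v‖ * (Real.exp (-(v ^ 2 / (4 * t)) + p * v) *
        (1 + Real.exp (-(2 * p * v)))) * |v - c| := by ring
      _ = _ := by rw [e1]; ring
  have h8 : ∀ v : ℝ, Q v * ((1 + Real.exp (-(2 * p * v)) : ℝ) : ℂ) =
      Gc⁻¹ * (q v * ((Real.exp (-(v ^ 2 / (4 * t))) : ℝ) : ℂ) *
        ((Real.exp (p * v) + Real.exp (-(p * v)) : ℝ) : ℂ)) := by
    intro v
    simp only [hQdef]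
    calc _ = Gc⁻¹ * q v * ((Real.exp (-(v ^ 2 / (4 * t)) + p * v) *
        (1 + Real.exp (-(2 * p * v))) : ℝ) : ℂ) := by push_cast; ring
      _ = _ := by rw [e1]; push_cast; ring
  simp_rw [h7, h8] at hcore
  rw [integral_const_mul, integral_const_mul, norm_mul, norm_inv] at hcore
  have h9 := mul_lt_mul_of_pos_left hcore hGn
  have hG1 : ‖Gc‖ * ‖Gc‖⁻¹ = 1 := mul_inv_cancel₀ hGn.ne'
  rw [← mul_assoc, hG1, one_mul] at h9
  refine lt_of_lt_of_le h9 (le_of_eq ?_)
  calc _ = c * (‖Gc‖ * ‖Gc‖⁻¹) * ‖∫ v in Ioi (0:ℝ), q v *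
        ((Real.exp (-(v ^ 2 / (4 * t))) : ℝ) : ℂ) *
        ((Real.exp (p * v) + Real.exp (-(p * v)) : ℝ) : ℂ)‖ := by ring
    _ = _ := by rw [hG1, mul_one]

end Pool.Agent.H6
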