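import Mathlib

/-!
Convexity bound in the strip `0 ≤ Re s ≤ 2` by Phragmen-Lindelof.
-/

open Real MeasureTheory Set Filter Topology Asymptotics

namespace Pool.Agent.H6

lemma norm_sin_le (z : ℂ) : ‖Complex.sin z‖ ≤ Real.exp |z.im| := by
  rw [Complex.sin]
  have h1 : ‖Complex.exp (-z * Complex.I)‖ ≤ Real.exp |z.im| := by
    rw [Complex.norm_exp]
    apply Real.exp_le_exp.mpr
    simp
    exact le_abs_self _
  have h2 : ‖Complex.exp (z * Complex.I)‖ ≤ Real.exp |z.im| := by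
    rw [Complex.norm_exp]
    apply Real.exp_le_exp.mpr
    simp
    exact neg_le_abs _
  rw [norm_div, norm_mul, Complex.norm_I, mul_one]
  have h3 := norm_sub_le (Complex.exp (-z * Complex.I)) (Complex.exp (z * Complex.I))
  have h4 : ‖(2:ℂ)‖ = 2 := by simp
  rw [h4]
  linarith

/-- Gamma is bounded by `2` on `1 ≤ Re z ≤ 3` -/
lemma norm_Gamma_le_two {z : ℂ} (h1 : 1 ≤ z.re) (h3 : z.re ≤ 3) : ‖Complex.Gamma z‖ ≤ 2 := by
  have hre : 0 < z.re := by linarith
  have h0 : ‖Complex.Gamma z‖ ≤ Real.Gamma z.re := by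
    rw [Complex.Gamma_eq_integral hre, Complex.GammaIntegral, Real.Gamma_eq_integral hre]
    refine (norm_integral_le_integral_norm _).trans (le_of_eq ?_)
    apply setIntegral_congr_fun measurableSet_Ioi
    intro x hx
    have hx0 : 0 < x := hx
    simp only
    rw [norm_mul, Complex.norm_real, Real.norm_eq_abs, abs_of_pos (Real.exp_pos _),
      Complex.norm_cpow_eq_rpow_re_of_pos hx0]
    simp
  refine h0.trans ?_
  have hconv := Real.convexOn_Gamma
  have ha : 0 ≤ (3 - z.re) / 2 := by linarith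
  have hb : 0 ≤ (z.re - 1) / 2 := by linarith
  have h := hconv.2 (show (1:ℝ) ∈ Ioi 0 by norm_num) (show (3:ℝ) ∈ Ioi 0 by norm_num) ha hb
    (by ring)
  simp only [smul_eq_mul] at h
  have e1 : (3 - z.re) / 2 * 1 + (z.re - 1) / 2 * 3 = z.re := by ring
  have e2 : Real.Gamma 3 = 2 := by
    rw [show (3:ℝ) = ((2:ℕ) : ℝ) + 1 by norm_num, Real.Gamma_nat_eq_factorial]
    norm_num
  rw [e1, Real.Gamma_one, e2] at h
  linarith

lemma norm_inv_Gamma_le {z : ℂ} (h1 : 1 ≤ z.re) (h3 : z.re ≤ 3) (hy : 1 ≤ |z.im|) :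
    ‖(Complex.Gamma z)⁻¹‖ ≤ Real.exp (π * |z.im|) := by
  have hG0 : Complex.Gamma z ≠ 0 := Complex.Gamma_ne_zero_of_re_pos (by linarith)
  have hrefl := Complex.Gamma_mul_Gamma_one_sub z
  have him : ∀ a : ℂ, a.im = -z.im → 1 ≤ ‖a‖ := by
    intro a ha
    have := Complex.abs_im_le_norm a
    rw [ha, abs_neg] at this
    linarith
  have hne : ∀ a : ℂ, a.im = -z.im → a ≠ 0 := by
    intro a ha h
    have := him a ha
    rw [h, norm_zero] at this
    linarith
  have g1 := Complex.Gamma_add_one (1 - z) (hne _ (by simp))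
  have g2 := Complex.Gamma_add_one (1 - z + 1) (hne _ (by simp))
  have g3 := Complex.Gamma_add_one (1 - z + 1 + 1) (hne _ (by simp))
  have hbd : ‖Complex.Gamma (1 - z)‖ ≤ 2 := by
    have h4 : ‖Complex.Gamma (1 - z + 1 + 1 + 1)‖ ≤ 2 := by
      apply norm_Gamma_le_two
      · simp; linarith
      · simp; linarith
    have e : ‖Complex.Gamma (1 - z + 1 + 1 + 1)‖ =
        ‖1 - z + 1 + 1‖ * (‖1 - z + 1‖ * (‖1 - z‖ * ‖Complex.Gamma (1 - z)‖)) := by
      rw [g3, g2, g1]; simp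
    rw [e] at h4
    have a1 := him (1 - z) (by simp)
    have a2 := him (1 - z + 1) (by simp)
    have a3 := him (1 - z + 1 + 1) (by simp)
    have a4 := norm_nonneg (Complex.Gamma (1 - z))
    have b1 : ‖Complex.Gamma (1 - z)‖ ≤ ‖1 - z‖ * ‖Complex.Gamma (1 - z)‖ := by nlinarith
    have b2 : ‖1 - z‖ * ‖Complex.Gamma (1 - z)‖ ≤
        ‖1 - z + 1‖ * (‖1 - z‖ * ‖Complex.Gamma (1 - z)‖) := by
      have : 0 ≤ ‖1 - z‖ * ‖Complex.Gamma (1 - z)‖ := by positivity
      nlinarith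
    have b3 : ‖1 - z + 1‖ * (‖1 - z‖ * ‖Complex.Gamma (1 - z)‖) ≤
        ‖1 - z + 1 + 1‖ * (‖1 - z + 1‖ * (‖1 - z‖ * ‖Complex.Gamma (1 - z)‖)) := by
      have : 0 ≤ ‖1 - z + 1‖ * (‖1 - z‖ * ‖Complex.Gamma (1 - z)‖) := by positivity
      nlinarith
    linarith
  have hsin0 : Complex.sin (π * z) ≠ 0 := by
    intro h
    rw [h, div_zero] at hrefl
    have h5 : Complex.Gamma (1 - z) ≠ 0 := by
      apply Complex.Gamma_ne_zero
      intro m hm
      have := congrArg Complex.im hm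
      simp at this
      rw [this] at hy
      simp at hy
      linarith
    exact (mul_ne_zero hG0 h5) hrefl
  have hpi : (π : ℂ) ≠ 0 := by exact_mod_cast Real.pi_ne_zero
  have hinv : (Complex.Gamma z)⁻¹ = Complex.Gamma (1 - z) * Complex.sin (π * z) / π := by
    rw [eq_div_iff_mul_eq hsin0] at hrefl
    rw [eq_div_iff hpi, inv_mul_eq_iff_eq_mul₀ hG0, ← mul_assoc]
    exact hrefl.symm
  rw [hinv, norm_div, norm_mul]
  have hs := norm_sin_le (π * z)
  have him' : |((π : ℂ) * z).im| = π * |z.im| := by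
    rw [Complex.im_ofReal_mul, abs_mul, abs_of_pos Real.pi_pos]
  rw [him'] at hs
  have hpin : ‖(π : ℂ)‖ = π := by
    rw [Complex.norm_real, Real.norm_eq_abs, abs_of_pos Real.pi_pos]
  rw [hpin, div_le_iff₀ Real.pi_pos]
  have hpi2 : (2:ℝ) ≤ π := Real.two_le_pi
  have hE := Real.exp_pos (π * |z.im|)
  calc ‖Complex.Gamma (1 - z)‖ * ‖Complex.sin (π * z)‖ ≤ 2 * Real.exp (π * |z.im|) := by
        gcongr
    _ ≤ Real.exp (π * |z.im|) * π := by nlinarith

/-- The convexity bound. -/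
theorem strip_bound {M : ℝ} (hM : 0 < M) {Λ L : ℂ → ℂ} {w : ℂ} (hw : ‖w‖ = 1)
    (hΛ : Differentiable ℂ Λ) (hFE : ∀ s, Λ (2 - s) = w * Λ s)
    (hL : ∀ s : ℂ, 2 ≤ s.re → Λ s = (M : ℂ) ^ s * Complex.Gamma s * L s)
    (hZ : ∀ s : ℂ, 2 ≤ s.re → ‖L s‖ ≤ 9)
    (hbdd : ∃ C, ∀ s : ℂ, 0 ≤ s.re → s.re ≤ 2 → ‖Λ s‖ ≤ C) {s : ℂ} (h0 : 0 ≤ s.re)
    (h2 : s.re ≤ 2) :
    ‖Λ s‖ ^ 2 ≤ 81 * M ^ 4 * (‖Complex.Gamma (s + 1)‖ * ‖Complex.Gamma (3 - s)‖) := by
  obtain ⟨C, hC⟩ := hbdd
  set f : ℂ → ℂ := fun s => Λ s ^ 2 * ((Complex.Gamma (s + 1))⁻¹ * (Complex.Gamma (3 - s))⁻¹)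
    with hf
  have hdiff : Differentiable ℂ f := by
    apply (hΛ.pow 2).mul
    apply Differentiable.mul
    · exact Complex.differentiable_one_div_Gamma.comp (differentiable_id.add_const 1)
    · exact Complex.differentiable_one_div_Gamma.comp (differentiable_id.const_sub 3)
  -- bound on the line Re = 2
  have hline : ∀ z : ℂ, z.re = 2 → ‖Λ z‖ ^ 2 ≤
      81 * M ^ 4 * (‖Complex.Gamma (z + 1)‖ * ‖Complex.Gamma (3 - z)‖) := by
    intro z hz
    have hz0 : z ≠ 0 := by intro h; rw [h] at hz; simp at hz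
    have e1 : Complex.Gamma (z + 1) = z * Complex.Gamma z := Complex.Gamma_add_one z hz0
    have hz1 : z - 1 ≠ 0 := by
      intro h
      have := congrArg Complex.re h
      simp [hz] at this
      norm_num at this
    have e2 : Complex.Gamma z = (z - 1) * Complex.Gamma (z - 1) := by
      have := Complex.Gamma_add_one (z - 1) hz1
      rwa [sub_add_cancel] at this
    have e3 : ‖Complex.Gamma (3 - z)‖ = ‖Complex.Gamma (z - 1)‖ := by
      have : 3 - z = (starRingEnd ℂ) (z - 1) := by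
        apply Complex.ext
        · simp [hz]; norm_num
        · simp
      rw [this, Complex.Gamma_conj, Complex.norm_conj]
    have hn : ‖z - 1‖ ≤ ‖z‖ := by
      rw [Complex.norm_def, Complex.norm_def]
      apply Real.sqrt_le_sqrt
      rw [Complex.normSq_apply, Complex.normSq_apply]
      simp [hz]
      norm_num
    have hcp : ‖(M : ℂ) ^ z‖ = M ^ 2 := by
      rw [Complex.norm_cpow_eq_rpow_re_of_pos hM, hz]
      norm_num
    have h5 : ‖Λ z‖ ≤ M ^ 2 * ‖Complex.Gamma z‖ * 9 := by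
      rw [hL z hz.ge, norm_mul, norm_mul, hcp]
      gcongr
      exact hZ z hz.ge
    have h6 : ‖Complex.Gamma z‖ = ‖z - 1‖ * ‖Complex.Gamma (z - 1)‖ := by
      rw [← norm_mul, ← e2]
    have h7 : ‖Complex.Gamma (z + 1)‖ = ‖z‖ * ‖Complex.Gamma z‖ := by
      rw [e1, norm_mul]
    calc ‖Λ z‖ ^ 2 ≤ (M ^ 2 * ‖Complex.Gamma z‖ * 9) ^ 2 := by gcongr
      _ = 81 * M ^ 4 * (‖Complex.Gamma z‖ * (‖z - 1‖ * ‖Complex.Gamma (z - 1)‖)) := by
          rw [← h6]; ring
      _ ≤ 81 * M ^ 4 * (‖Complex.Gamma z‖ * (‖z‖ * ‖Complex.Gamma (z - 1)‖)) := by gcongr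
      _ = _ := by rw [h7, e3]; ring
  have hline0 : ∀ z : ℂ, z.re = 0 → ‖Λ z‖ ^ 2 ≤
      81 * M ^ 4 * (‖Complex.Gamma (z + 1)‖ * ‖Complex.Gamma (3 - z)‖) := by
    intro z hz
    have h5 := hline (2 - z) (by simp [hz])
    have e1 : (2 - z) + 1 = 3 - z := by ring
    have e2 : 3 - (2 - z) = z + 1 := by ring
    rw [hFE, norm_mul, hw, one_mul, e1, e2] at h5
    linarith
  -- from product bound to f bound
  have htrans : ∀ z : ℂ, 0 ≤ z.re → z.re ≤ 2 → (‖f z‖ ≤ 81 * M ^ 4 ↔ ‖Λ z‖ ^ 2 ≤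
      81 * M ^ 4 * (‖Complex.Gamma (z + 1)‖ * ‖Complex.Gamma (3 - z)‖)) := by
    intro z hz0 hz2
    have g1 : 0 < ‖Complex.Gamma (z + 1)‖ := norm_pos_iff.mpr
      (Complex.Gamma_ne_zero_of_re_pos (by simp; linarith))
    have g2 : 0 < ‖Complex.Gamma (3 - z)‖ := norm_pos_iff.mpr
      (Complex.Gamma_ne_zero_of_re_pos (by simp; linarith))
    simp only [hf]
    rw [norm_mul, norm_pow, norm_mul, norm_inv, norm_inv, ← mul_inv, ← div_eq_mul_inv,
      div_le_iff₀ (by positivity)]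
  have hmain : ‖f s‖ ≤ 81 * M ^ 4 := by
    apply PhragmenLindelof.vertical_strip (a := 0) (b := 2) hdiff.diffContOnCl _ _ _ h0 h2
    · refine ⟨1, ?_, 2 * π, ?_⟩
      · have := Real.pi_gt_three
        rw [lt_div_iff₀ (by norm_num)]
        linarith
      · apply IsBigO.of_bound (C ^ 2)
        rw [Filter.eventually_inf_principal, Filter.eventually_comap]
        filter_upwards [eventually_ge_atTop (1:ℝ)] with y hy z hz hzs
        have hz1 : 1 ≤ |z.im| := by
          have : |z.im| = y := hz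
          rw [this]; exact hy
        have hzs' : 0 < z.re ∧ z.re < 2 := hzs
        have a1 := norm_inv_Gamma_le (z := z + 1) (by simp; linarith [hzs'.1])
          (by simp; linarith [hzs'.2]) (by simpa using hz1)
        have a2 := norm_inv_Gamma_le (z := 3 - z) (by simp; linarith [hzs'.2])
          (by simp; linarith [hzs'.1]) (by simpa using hz1)
        have e1 : |(z + 1).im| = |z.im| := by simp
        have e2 : |(3 - z).im| = |z.im| := by simp
        rw [e1] at a1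
        rw [e2] at a2
        have a3 := hC z hzs'.1.le hzs'.2.le
        have a4 : ‖f z‖ ≤ C ^ 2 * (Real.exp (π * |z.im|) * Real.exp (π * |z.im|)) := by
          simp only [hf]
          rw [norm_mul, norm_pow, norm_mul]
          gcongr
        have hCsq : 0 ≤ C ^ 2 := sq_nonneg C
        refine a4.trans ?_
        apply mul_le_mul_of_nonneg_left _ hCsq
        rw [← Real.exp_add, Real.norm_eq_abs, abs_of_pos (Real.exp_pos _)]
        apply Real.exp_le_exp.mpr
        have h8 : |z.im| ≤ Real.exp (1 * |z.im|) := by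
          have := Real.add_one_le_exp |z.im|
          rw [one_mul]
          linarith
        have := Real.pi_pos
        nlinarith
    · intro z hz
      exact (htrans z (by rw [hz]) (by rw [hz]; norm_num)).mpr (hline0 z hz)
    · intro z hz
      exact (htrans z (by rw [hz]; norm_num) (by rw [hz])).mpr (hline z hz)
  exact (htrans s h0 h2).mp hmain

end Pool.Agent.H6
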