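import Mathlib
import Pool.Agent.H6.Concentration
import Pool.Agent.H6.StripBound

/-!
Zeros of the heat-flow deformation: general theorem for completed L-functions with a degree two
functional equation `s ↔ 2 - s`.
-/

open Real MeasureTheory Set Filter Topology

namespace Pool.Agent.H6

lemma norm_Gfun_sq {M x : ℝ} (hM : 0 < M) (v : ℝ) :
    ‖Gfun M x v‖ = M ^ (1 + v) * ‖Complex.Gamma (pt x v)‖ := by
  unfold Gfun
  rw [norm_mul, Complex.norm_cpow_eq_rpow_re_of_pos hM, pt_re]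

lemma exp_five_thirds : Real.exp (5 / 3) ≤ 49 / 9 := by
  have h1 : Real.exp (5 / 3) ^ 3 ≤ (49 / 9 : ℝ) ^ 3 := by
    rw [← Real.exp_nat_mul]
    have h2 : ((3:ℕ) : ℝ) * (5 / 3) = ((5:ℕ) : ℝ) * 1 := by norm_num
    rw [h2, Real.exp_nat_mul]
    have h3 := Real.exp_one_lt_d9
    have h4 : Real.exp 1 ^ 5 ≤ (2.7182818286 : ℝ) ^ 5 :=
      pow_le_pow_left₀ (Real.exp_pos _).le h3.le 5
    refine h4.trans ?_
    norm_num
  exact le_of_pow_le_pow_left₀ (by norm_num) (by norm_num) h1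

/-- size of `Λ` relative to the main factor, inside the critical strip -/
lemma ratio_bound {M : ℝ} (hM : 0 < M) {Λ L : ℂ → ℂ} {w : ℂ} (hw : ‖w‖ = 1)
    (hΛ : Differentiable ℂ Λ) (hFE : ∀ s, Λ (2 - s) = w * Λ s)
    (hL : ∀ s : ℂ, 2 ≤ s.re → Λ s = (M : ℂ) ^ s * Complex.Gamma s * L s)
    (hZ : ∀ s : ℂ, 2 ≤ s.re → ‖L s‖ ≤ 9)
    (hbdd : ∃ C, ∀ s : ℂ, 0 ≤ s.re → s.re ≤ 2 → ‖Λ s‖ ≤ C) {x v : ℝ} (hv0 : 0 ≤ v)
    (hv1 : v ≤ 1) :
    ‖Λ (pt x v)‖ ≤ 21 * max 1 (M * ‖pt x 1‖) * ‖Gfun M x v‖ := by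
  set s := pt x v with hs
  have hsre : s.re = 1 + v := pt_re x v
  have hs1 : 1 ≤ s.re := by rw [hsre]; linarith
  have hsn : 1 ≤ ‖s‖ := hs1.trans (Complex.re_le_norm s)
  have hs0 : s ≠ 0 := by intro h; rw [h, norm_zero] at hsn; linarith
  have hstrip := strip_bound hM hw hΛ hFE hL hZ hbdd (s := s) (by rw [hsre]; linarith)
    (by rw [hsre]; linarith)
  have e1 : ‖Complex.Gamma (s + 1)‖ = ‖s‖ * ‖Complex.Gamma s‖ := by
    rw [Complex.Gamma_add_one s hs0, norm_mul]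
  set u : ℝ := 1 - 2 * v with hu
  have e2 : ‖Complex.Gamma (3 - s)‖ = ‖Complex.Gamma (s + u)‖ := by
    have : 3 - s = (starRingEnd ℂ) (s + u) := by
      apply Complex.ext
      · simp [hsre, hu]; ring
      · simp
    rw [this, Complex.Gamma_conj, Complex.norm_conj]
  have hsu : 1 ≤ s.re + u := by rw [hsre, hu]; linarith
  have habsu : |u| ≤ 1 := by rw [abs_le, hu]; constructor <;> linarith
  have e3 : ‖Complex.Gamma (s + u)‖ ≤ ‖Complex.Gamma s‖ * (‖s‖ ^ u * Real.exp (5 / 3)) := by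
    rw [gamma_shift hs1 hsu, norm_mul, Complex.norm_exp]
    apply mul_le_mul_of_nonneg_left _ (norm_nonneg _)
    rw [Real.rpow_def_of_pos (by linarith), ← Real.exp_add]
    apply Real.exp_le_exp.mpr
    rw [Complex.add_re, Complex.re_ofReal_mul]
    have h1 := norm_rho_le hs1 hsu
    have h2 := (Complex.re_le_norm (rho s u))
    have h3 := abs_re_psi_sub_log_le hs1
    have h4 : u * ((psi s).re - Real.log ‖s‖) ≤ 1 * (5 / 6) := by
      calc _ ≤ |u * ((psi s).re - Real.log ‖s‖)| := le_abs_self _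
        _ = |u| * |(psi s).re - Real.log ‖s‖| := abs_mul _ _
        _ ≤ 1 * (5 / 6) := by gcongr
    have h5 : u ^ 2 ≤ 1 := by rw [← sq_abs]; nlinarith [abs_nonneg u]
    nlinarith
  have hX1 : 1 ≤ max 1 (M * ‖pt x 1‖) := le_max_left _ _
  set X := max 1 (M * ‖pt x 1‖) with hX
  have hMs : M * ‖s‖ ≤ X := by
    refine le_trans ?_ (le_max_right _ _)
    apply mul_le_mul_of_nonneg_left _ hM.le
    rw [Complex.norm_def, Complex.norm_def]
    apply Real.sqrt_le_sqrt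
    rw [Complex.normSq_apply, Complex.normSq_apply]
    simp only [hs, pt]
    simp
    nlinarith
  have hpow : (M * ‖s‖) ^ (2 - 2 * v) ≤ X ^ 2 := by
    have h1 : (M * ‖s‖) ^ (2 - 2 * v) ≤ X ^ (2 - 2 * v) :=
      Real.rpow_le_rpow (by positivity) hMs (by linarith)
    have h2 : X ^ (2 - 2 * v) ≤ X ^ (2:ℝ) :=
      Real.rpow_le_rpow_of_exponent_le hX1 (by linarith)
    refine (h1.trans h2).trans (le_of_eq ?_)
    norm_num
  have hG := norm_nonneg (Complex.Gamma s)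
  have hsq : ‖Λ s‖ ^ 2 ≤ (21 * X * ‖Gfun M x v‖) ^ 2 := by
    rw [norm_Gfun_sq hM]
    have h1 : ‖Λ s‖ ^ 2 ≤ 81 * M ^ 4 * ((‖s‖ * ‖Complex.Gamma s‖) *
        (‖Complex.Gamma s‖ * (‖s‖ ^ u * Real.exp (5 / 3)))) := by
      refine hstrip.trans ?_
      rw [e1, e2]
      gcongr
    refine h1.trans ?_
    have h2 : ‖s‖ * ‖s‖ ^ u = ‖s‖ ^ (2 - 2 * v) := by
      have h21 : (2 - 2 * v) = 1 + u := by rw [hu]; ring
      rw [h21, Real.rpow_add (by linarith), Real.rpow_one]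
    have h3 : M ^ 4 = (M ^ (1 + v)) ^ 2 * M ^ (2 - 2 * v) := by
      rw [← Real.rpow_natCast (M ^ (1 + v)) 2, ← Real.rpow_mul hM.le, ← Real.rpow_add hM,
        ← Real.rpow_natCast M 4]
      congr 1
      push_cast
      ring
    have h4 : M ^ (2 - 2 * v) * ‖s‖ ^ (2 - 2 * v) = (M * ‖s‖) ^ (2 - 2 * v) :=
      (Real.mul_rpow hM.le (norm_nonneg _)).symm
    calc 81 * M ^ 4 * ((‖s‖ * ‖Complex.Gamma s‖) *
        (‖Complex.Gamma s‖ * (‖s‖ ^ u * Real.exp (5 / 3))))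
        = 81 * (M ^ (1 + v)) ^ 2 * ‖Complex.Gamma s‖ ^ 2 * Real.exp (5 / 3) *
          (M ^ (2 - 2 * v) * (‖s‖ * ‖s‖ ^ u)) := by rw [h3]; ring
      _ = 81 * (M ^ (1 + v)) ^ 2 * ‖Complex.Gamma s‖ ^ 2 * Real.exp (5 / 3) *
          (M * ‖s‖) ^ (2 - 2 * v) := by rw [h2, h4]
      _ ≤ 81 * (M ^ (1 + v)) ^ 2 * ‖Complex.Gamma s‖ ^ 2 * (49 / 9) * X ^ 2 := by
          have := exp_five_thirds
          gcongr
      _ = _ := by ring
  exact le_of_sq_le_sq hsq (by positivity)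

lemma quad_complete {α : ℝ} (hα : 0 < α) (A v : ℝ) :
    A * v - α * v ^ 2 = A ^ 2 / (4 * α) + -α * (v - A / (2 * α)) ^ 2 := by
  field_simp
  ring

lemma integrable_exp_quad {α : ℝ} (hα : 0 < α) (A : ℝ) :
    Integrable (fun v : ℝ => Real.exp (A * v - α * v ^ 2)) := by
  have h := (integrable_gauss hα (A / (2 * α))).const_mul (Real.exp (A ^ 2 / (4 * α)))
  refine h.congr ?_
  filter_upwards with v
  rw [quad_complete hα, Real.exp_add]

lemma integrable_abs_exp_quad {α : ℝ} (hα : 0 < α) (A : ℝ) :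
    Integrable (fun v : ℝ => (1 + |v|) * Real.exp (A * v - α * v ^ 2)) := by
  set m := A / (2 * α) with hm
  have h1 := ((integrable_abs_gauss hα m).const_mul (Real.exp (A ^ 2 / (4 * α))))
  have h2 := (integrable_exp_quad hα A).const_mul (1 + |m|)
  refine Integrable.mono' (h1.add h2) (by fun_prop) ?_
  filter_upwards with v
  rw [Real.norm_eq_abs, abs_of_nonneg (by positivity)]
  simp only [Pi.add_apply]
  rw [quad_complete hα, Real.exp_add, ← hm]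
  have h3 : |v| ≤ |v - m| + |m| := by
    have := abs_add_le (v - m) m
    rwa [sub_add_cancel] at this
  have h4 : 0 < Real.exp (A ^ 2 / (4 * α)) * Real.exp (-α * (v - m) ^ 2) := by positivity
  nlinarith

/-- The data of a completed L-function with functional equation `s ↔ 2 - s`. -/
structure FEData (M : ℝ) (Λ L : ℂ → ℂ) (w : ℂ) : Prop where
  M_pos : 0 < M
  sign : w = 1 ∨ w = -1
  diff : Differentiable ℂ Λ
  fe : ∀ s, Λ (2 - s) = w * Λ s
  real : ∀ s, Λ ((starRingEnd ℂ) s) = (starRingEnd ℂ) (Λ s)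
  eqL : ∀ s : ℂ, 2 ≤ s.re → Λ s = (M : ℂ) ^ s * Complex.Gamma s * L s
  bound : ∀ s : ℂ, 2 ≤ s.re → ‖L s‖ ≤ 9
  close : ∀ s : ℂ, 6 ≤ s.re → ‖L s - 1‖ ≤ 1 / 15
  bdd : ∃ C, ∀ s : ℂ, 0 ≤ s.re → s.re ≤ 2 → ‖Λ s‖ ≤ C

namespace FEData

variable {M : ℝ} {Λ L : ℂ → ℂ} {w : ℂ}

lemma norm_w (D : FEData M Λ L w) : ‖w‖ = 1 := by
  rcases D.sign with h | h <;> simp [h]

lemma pt_norm_Gfun_pos (D : FEData M Λ L w) {x v : ℝ} (hv : 0 ≤ v) : 0 < ‖Gfun M x v‖ :=
  norm_pos_iff.mpr (Gfun_ne_zero D.M_pos hv)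

lemma le_Gfun (D : FEData M Λ L w) {x v : ℝ} (hv : 0 ≤ v) :
    ‖Λ (pt x v)‖ ≤ 21 * max 1 (M * ‖pt x 1‖) * ‖Gfun M x v‖ := by
  rcases le_total v 1 with h | h
  · exact ratio_bound D.M_pos D.norm_w D.diff D.fe D.eqL D.bound D.bdd hv h
  · have h2 : 2 ≤ (pt x v).re := by rw [pt_re]; linarith
    rw [D.eqL _ h2, norm_mul]
    have h3 := D.bound _ h2
    have h4 : 1 ≤ max 1 (M * ‖pt x 1‖) := le_max_left _ _
    have h5 : ‖(M : ℂ) ^ pt x v * Complex.Gamma (pt x v)‖ = ‖Gfun M x v‖ := rfl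
    rw [h5]
    have h6 : ‖L (pt x v)‖ ≤ 21 * max 1 (M * ‖pt x 1‖) := by linarith
    rw [mul_comm]
    gcongr

lemma exists_growth (D : FEData M Λ L w) (x : ℝ) :
    ∃ K A : ℝ, 0 ≤ K ∧ ∀ v, 0 ≤ v → ‖Λ (pt x v)‖ ≤ K * Real.exp (A * v + 5 / 6 * v ^ 2) := by
  refine ⟨21 * max 1 (M * ‖pt x 1‖) * ‖Gfun M x 0‖, (psi (pt x 0)).re + Real.log M, by positivity,
    ?_⟩
  intro v hv
  refine (D.le_Gfun hv).trans ?_
  rw [mul_assoc (21 * max 1 (M * ‖pt x 1‖))]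
  apply mul_le_mul_of_nonneg_left _ (by positivity)
  rw [Gfun_shift D.M_pos le_rfl hv, norm_mul, Complex.norm_exp, sub_zero]
  apply mul_le_mul_of_nonneg_left _ (norm_nonneg _)
  apply Real.exp_le_exp.mpr
  rw [Complex.add_re, Complex.re_ofReal_mul, Complex.add_re, Complex.ofReal_re]
  have h1 := norm_rho_le (s := pt x 0) (u := v) (by rw [pt_re]; linarith)
    (by rw [pt_re]; linarith)
  have h2 := Complex.re_le_norm (rho (pt x 0) v)
  linarith

/-- integrability of everything in sight on the half line -/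
lemma integrableOn_weight (D : FEData M Λ L w) (x : ℝ) {t : ℝ} (ht : 0 < t) (ht8 : t ≤ 1 / 8)
    (p : ℝ) {W : ℝ → ℂ} (hW : Continuous W) {C : ℝ} (hWb : ∀ v, ‖W v‖ ≤ C * (1 + |v|)) :
    IntegrableOn (fun v : ℝ => Λ (pt x v) * ((Real.exp (-(v ^ 2 / (4 * t))) : ℝ) : ℂ) *
      ((Real.exp (p * v) : ℝ) : ℂ) * W v) (Ioi 0) := by
  obtain ⟨K, A, hK, hKA⟩ := D.exists_growth x
  have hα : 7 / 6 ≤ 1 / (4 * t) - 5 / 6 := alpha_ge ht ht8
  have hα0 : 0 < 1 / (4 * t) - 5 / 6 := by linarith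
  have hC : 0 ≤ C := by
    have := hWb 0
    have h2 := norm_nonneg (W 0)
    simp at this
    linarith
  have hbase := ((integrable_abs_exp_quad hα0 (A + p)).const_mul (K * C))
  have hpt : Continuous (fun v : ℝ => pt x v) := by unfold pt; fun_prop
  have hcont : Continuous (fun v : ℝ => Λ (pt x v) *
      ((Real.exp (-(v ^ 2 / (4 * t))) : ℝ) : ℂ) * ((Real.exp (p * v) : ℝ) : ℂ) * W v) := by
    have h1 := D.diff.continuous.comp hpt
    exact ((h1.mul (Complex.continuous_ofReal.comp (by fun_prop))).mul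
      (Complex.continuous_ofReal.comp (by fun_prop))).mul hW
  refine integrableOn_of_bound hcont.continuousOn hbase ?_
  intro v hv
  rw [norm_mul, norm_mul, norm_mul, Complex.norm_real, Complex.norm_real, Real.norm_eq_abs,
    Real.norm_eq_abs, abs_of_pos (Real.exp_pos _), abs_of_pos (Real.exp_pos _)]
  have h1 := hKA v hv
  have h2 := hWb v
  have h3 : Real.exp (A * v + 5 / 6 * v ^ 2) * Real.exp (-(v ^ 2 / (4 * t))) * Real.exp (p * v) =
      Real.exp ((A + p) * v - (1 / (4 * t) - 5 / 6) * v ^ 2) := by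
    rw [← Real.exp_add, ← Real.exp_add]
    congr 1
    ring
  calc ‖Λ (pt x v)‖ * Real.exp (-(v ^ 2 / (4 * t))) * Real.exp (p * v) * ‖W v‖
      ≤ (K * Real.exp (A * v + 5 / 6 * v ^ 2)) * Real.exp (-(v ^ 2 / (4 * t))) *
        Real.exp (p * v) * (C * (1 + |v|)) := by gcongr
    _ = K * C * ((1 + |v|) * (Real.exp (A * v + 5 / 6 * v ^ 2) * Real.exp (-(v ^ 2 / (4 * t))) *
        Real.exp (p * v))) := by ring
    _ = _ := by rw [h3]

end FEData

end Pool.Agent.H6
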