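import Mathlib
import Pool.Agent.H6.Concentration

/-!
Numerical conditions.
-/

open Real Set

namespace Pool.Agent.H6

lemma log_two_pi_sqrt_two : Real.log (2 * π * √2) ≤ 2.19 := by
  rw [Real.log_le_iff_le_exp (by positivity)]
  have h1 : √2 ≤ 1.4143 := by
    rw [Real.sqrt_le_left (by norm_num)]; norm_num
  have h2 := Real.pi_lt_d4
  have h3 : 2 * π * √2 ≤ 8.9 := by
    have : 0 ≤ √2 := Real.sqrt_nonneg _
    have := Real.pi_pos
    nlinarith
  refine h3.trans ?_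
  have h4 : Real.exp 2.19 = Real.exp 1 ^ 2 * Real.exp 0.19 := by
    rw [← Real.exp_nat_mul, ← Real.exp_add]; norm_num
  have h5 : (2.7182:ℝ) ≤ Real.exp 1 := by linarith [Real.exp_one_gt_d9]
  have h6 : (1 + 0.19 + 0.19 ^ 2 / 2 : ℝ) ≤ Real.exp 0.19 := by
    have := Real.quadratic_le_exp_of_nonneg (x := 0.19) (by norm_num)
    linarith
  rw [h4]
  calc (8.9:ℝ) ≤ 2.7182 ^ 2 * (1 + 0.19 + 0.19 ^ 2 / 2) := by norm_num
    _ ≤ _ := by gcongr

lemma norm_pt_zero_ge (x : ℝ) : (1 + |x|) / √2 ≤ ‖pt x 0‖ := by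
  have h : ‖pt x 0‖ = √(1 + x ^ 2) := by
    rw [Complex.norm_def, Complex.normSq_apply]
    congr 1
    simp [pt]
    ring
  rw [h, ← Real.sqrt_sq (show 0 ≤ 1 + |x| by positivity), ← Real.sqrt_div (by positivity)]
  apply Real.sqrt_le_sqrt
  have : |x| ^ 2 = x ^ 2 := sq_abs x
  nlinarith [sq_nonneg (1 - |x|)]

lemma norm_pt_one_le (x : ℝ) : ‖pt x 1‖ ≤ 2 * ‖pt x 0‖ := by
  have h : ‖pt x 0‖ = √(1 + x ^ 2) := by
    rw [Complex.norm_def, Complex.normSq_apply]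
    congr 1
    simp [pt]
    ring
  have h' : ‖pt x 1‖ = √(4 + x ^ 2) := by
    rw [Complex.norm_def, Complex.normSq_apply]
    congr 1
    simp [pt]
    ring
  rw [h, h', Real.sqrt_le_left (by positivity), mul_pow, Real.sq_sqrt (by positivity)]
  nlinarith [sq_nonneg x]

lemma numeric_one {M x t : ℝ} (hM : 0 < M) (ht : 0 < t) (ht8 : t ≤ 1 / 8)
    (h8 : 8 ≤ t * Real.log ((2 * π * M) ^ 2 * (1 + |x|) ^ 2)) :
    7.24 ≤ 2 * t * (Real.log (M * ‖pt x 0‖) - 5 / 6) := by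
  have h1 : Real.log ((2 * π * M) ^ 2 * (1 + |x|) ^ 2) = 2 * Real.log (2 * π * M * (1 + |x|)) := by
    rw [← mul_pow, Real.log_pow]; norm_num
  have h2 : Real.log (2 * π * M * (1 + |x|)) - Real.log (2 * π * √2) ≤
      Real.log (M * ‖pt x 0‖) := by
    rw [← Real.log_div (by positivity) (by positivity)]
    apply Real.log_le_log (by positivity)
    have h3 := norm_pt_zero_ge x
    have : 2 * π * M * (1 + |x|) / (2 * π * √2) = M * ((1 + |x|) / √2) := by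
      field_simp
    rw [this]
    gcongr
  have h4 := log_two_pi_sqrt_two
  rw [h1] at h8
  nlinarith

lemma numeric_two {M x t : ℝ} (hM : 0 < M) (ht : 0 < t) (ht8 : t ≤ 1 / 8)
    (h0 : 7.24 ≤ 2 * t * (Real.log (M * ‖pt x 0‖) - 5 / 6)) (c : ℝ)
    (hc : 2 * t * (Real.log (M * ‖pt x 0‖) - 5 / 6) ≤ c) :
    (1 + 21 * max 1 (M * ‖pt x 1‖)) * Real.exp (-(1 / (4 * t) - 5 / 6) * (c - 1) ^ 2) ≤
      1 / 1000 := by
  set ℓ := Real.log (M * ‖pt x 0‖) with hℓ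
  have hpos : 0 < M * ‖pt x 0‖ := by
    have := one_le_norm_pt x
    positivity
  have hℓpos : 0 < ℓ - 5 / 6 := by
    by_contra hcon
    have h1 : ℓ - 5 / 6 ≤ 0 := not_lt.mp hcon
    have : 2 * t * (ℓ - 5 / 6) ≤ 0 := mul_nonpos_of_nonneg_of_nonpos (by positivity) h1
    linarith
  have hℓc : ℓ ≤ c / (2 * t) + 5 / 6 := by
    have : ℓ - 5 / 6 ≤ c / (2 * t) := by
      rw [le_div_iff₀ (by positivity)]; linarith
    linarith
  have hexp : M * ‖pt x 0‖ ≤ Real.exp (c / (2 * t) + 5 / 6) := by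
    rw [← Real.log_le_iff_le_exp hpos]; exact hℓc
  have hc724 : 7.24 ≤ c := h0.trans hc
  have hX : max 1 (M * ‖pt x 1‖) ≤ 2 * Real.exp (c / (2 * t) + 5 / 6) := by
    apply max_le
    · have : 0 ≤ c / (2 * t) + 5 / 6 := by positivity
      have := Real.one_le_exp this
      linarith
    · have h1 := norm_pt_one_le x
      calc M * ‖pt x 1‖ ≤ M * (2 * ‖pt x 0‖) := by gcongr
        _ = 2 * (M * ‖pt x 0‖) := by ring
        _ ≤ _ := by linarith
  have he : Real.exp (5 / 6) ≤ 2.4 := by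
    have h1 : Real.exp (5 / 6) ^ 6 ≤ (2.4:ℝ) ^ 6 := by
      rw [← Real.exp_nat_mul]
      have h2 : ((6:ℕ) : ℝ) * (5 / 6) = ((5:ℕ) : ℝ) * 1 := by norm_num
      rw [h2, Real.exp_nat_mul]
      have h4 : Real.exp 1 ^ 5 ≤ (2.7182818286 : ℝ) ^ 5 :=
        pow_le_pow_left₀ (Real.exp_pos _).le Real.exp_one_lt_d9.le 5
      refine h4.trans ?_
      norm_num
    exact le_of_pow_le_pow_left₀ (by norm_num) (by norm_num) h1
  have hB : 1 + 21 * max 1 (M * ‖pt x 1‖) ≤ 102 * Real.exp (c / (2 * t)) := by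
    rw [Real.exp_add] at hX
    have h1 : 1 ≤ Real.exp (c / (2 * t)) := Real.one_le_exp (by positivity)
    have h2 := Real.exp_pos (c / (2 * t))
    nlinarith
  have hexpo : c / (2 * t) + -(1 / (4 * t) - 5 / 6) * (c - 1) ^ 2 ≤ -16 := by
    have h1 : 7 / (48 * t) ≤ 1 / (4 * t) - 5 / 6 := by
      have e : 1 / (4 * t) - 5 / 6 - 7 / (48 * t) = (5 / (48 * t)) * (1 - 8 * t) := by
        field_simp; ring
      have : 0 ≤ (5 / (48 * t)) * (1 - 8 * t) := by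
        apply mul_nonneg (by positivity); linarith
      linarith
    have h2 : -(1 / (4 * t) - 5 / 6) * (c - 1) ^ 2 ≤ -(7 / (48 * t)) * (c - 1) ^ 2 := by
      nlinarith [sq_nonneg (c - 1)]
    have h3 : c / (2 * t) + -(7 / (48 * t)) * (c - 1) ^ 2 =
        -((7 * (c - 1) ^ 2 - 24 * c) / 48) / t := by field_simp; ring
    have h4 : 2 ≤ (7 * (c - 1) ^ 2 - 24 * c) / 48 := by nlinarith
    have h5 : 16 ≤ ((7 * (c - 1) ^ 2 - 24 * c) / 48) / t := by
      rw [le_div_iff₀ ht]; linarith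
    have h6 : -((7 * (c - 1) ^ 2 - 24 * c) / 48) / t = -(((7 * (c - 1) ^ 2 - 24 * c) / 48) / t) := by
      ring
    linarith
  calc (1 + 21 * max 1 (M * ‖pt x 1‖)) * Real.exp (-(1 / (4 * t) - 5 / 6) * (c - 1) ^ 2)
      ≤ (102 * Real.exp (c / (2 * t))) * Real.exp (-(1 / (4 * t) - 5 / 6) * (c - 1) ^ 2) := by
        gcongr
    _ = 102 * Real.exp (c / (2 * t) + -(1 / (4 * t) - 5 / 6) * (c - 1) ^ 2) := by
        rw [mul_assoc, ← Real.exp_add]
    _ ≤ 102 * Real.exp (-16) := by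
        have := Real.exp_le_exp.mpr hexpo
        linarith
    _ ≤ 1 / 1000 := by
        have h1 : Real.exp (-16) = (Real.exp 1 ^ 16)⁻¹ := by
          rw [← Real.exp_nat_mul, ← Real.exp_neg]; norm_num
        have h2 : (2.7:ℝ) ^ 16 ≤ Real.exp 1 ^ 16 := by
          apply pow_le_pow_left₀ (by norm_num)
          linarith [Real.exp_one_gt_d9]
        rw [h1]
        have h3 : (Real.exp 1 ^ 16)⁻¹ ≤ ((2.7:ℝ) ^ 16)⁻¹ := by
          apply inv_anti₀ (by norm_num) h2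
        calc _ ≤ 102 * ((2.7:ℝ) ^ 16)⁻¹ := by linarith
          _ ≤ 1 / 1000 := by norm_num

end Pool.Agent.H6
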