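import Mathlib
import Pool.Agent.H6.HeatZero
import Pool.Agent.H6.Numeric

/-!
Main theorem on zeros of the heat-flow deformation (general FE data).
-/

open Real MeasureTheory Set Filter Topology

namespace Pool.Agent.H6

/-- the (unnormalised) heat flow deformation -/
noncomputable def heatInt (t : ℝ) (Λ : ℂ → ℂ) (s : ℂ) : ℂ :=
  ∫ v : ℝ, Λ (s + v) * ((Real.exp (-(v ^ 2 / (4 * t))) : ℝ) : ℂ)

/-- the half line integral -/
noncomputable def halfInt (t : ℝ) (Λ : ℂ → ℂ) (x p : ℝ) : ℂ :=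
  ∫ v in Ioi (0:ℝ), Λ (pt x v) * ((Real.exp (-(v ^ 2 / (4 * t))) : ℝ) : ℂ) *
    ((Real.exp (p * v) : ℝ) : ℂ)

namespace FEData

variable {M : ℝ} {Λ L : ℂ → ℂ} {w : ℂ}

lemma integrableOn_one (D : FEData M Λ L w) (x : ℝ) {t : ℝ} (ht : 0 < t) (ht8 : t ≤ 1 / 8)
    (p : ℝ) :
    IntegrableOn (fun v : ℝ => Λ (pt x v) * ((Real.exp (-(v ^ 2 / (4 * t))) : ℝ) : ℂ) *
      ((Real.exp (p * v) : ℝ) : ℂ)) (Ioi 0) := by
  have h := D.integrableOn_weight x ht ht8 p (W := fun _ => 1) continuous_const (C := 1)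
    (by intro v; simp)
  simpa using h

lemma reflect (D : FEData M Λ L w) (x v : ℝ) :
    Λ (pt x (-v)) = w * (starRingEnd ℂ) (Λ (pt x v)) := by
  have h1 : pt x (-v) = 2 - (starRingEnd ℂ) (pt x v) := by
    apply Complex.ext
    · simp [pt]; ring
    · simp [pt]
  rw [h1, D.fe, D.real]

lemma heatInt_eq (D : FEData M Λ L w) {t : ℝ} (ht : 0 < t) (ht8 : t ≤ 1 / 8) (s : ℂ) :
    heatInt t Λ s = ((Real.exp (-((s.re - 1) ^ 2 / (4 * t))) : ℝ) : ℂ) *
      (halfInt t Λ s.im ((s.re - 1) / (2 * t)) +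
        w * (starRingEnd ℂ) (halfInt t Λ s.im (-((s.re - 1) / (2 * t))))) := by
  set y := s.re - 1 with hy
  set x := s.im with hx
  set p := y / (2 * t) with hp
  set F : ℝ → ℂ := fun v => Λ (pt x v) * ((Real.exp (-(v ^ 2 / (4 * t))) : ℝ) : ℂ) *
    ((Real.exp (p * v) : ℝ) : ℂ) with hF
  have h1 : heatInt t Λ s = ((Real.exp (-(y ^ 2 / (4 * t))) : ℝ) : ℂ) * ∫ v : ℝ, F v := by
    unfold heatInt
    rw [← integral_sub_right_eq_self (fun v : ℝ => Λ (s + v) *
      ((Real.exp (-(v ^ 2 / (4 * t))) : ℝ) : ℂ)) y, ← integral_const_mul]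
    apply integral_congr_ae
    filter_upwards with v
    have e1 : s + ((v - y : ℝ) : ℂ) = pt x v := by
      apply Complex.ext
      · simp [pt, hy]; ring
      · simp [pt, hx]
    have e2 : Real.exp (-((v - y) ^ 2 / (4 * t))) = Real.exp (-(y ^ 2 / (4 * t))) *
        (Real.exp (-(v ^ 2 / (4 * t))) * Real.exp (p * v)) := by
      rw [← Real.exp_add, ← Real.exp_add]
      congr 1
      rw [hp]
      field_simp
      ring
    rw [e1, e2]
    simp only [hF]
    push_cast
    ring
  have hF1 : IntegrableOn F (Ioi 0) := D.integrableOn_one x ht ht8 p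
  have hrefl : ∀ v : ℝ, F (-v) = w * (starRingEnd ℂ) (Λ (pt x v) *
      ((Real.exp (-(v ^ 2 / (4 * t))) : ℝ) : ℂ) * ((Real.exp (-p * v) : ℝ) : ℂ)) := by
    intro v
    simp only [hF]
    rw [D.reflect, map_mul, map_mul, Complex.conj_ofReal, Complex.conj_ofReal]
    have e1 : (-v) ^ 2 = v ^ 2 := by ring
    have e2 : p * -v = -p * v := by ring
    rw [e1, e2]
    ring
  have hF2' : IntegrableOn (fun v => F (-v)) (Ioi 0) := by
    have h2 := D.integrableOn_one x ht ht8 (-p)
    have h3 : IntegrableOn (fun v => (starRingEnd ℂ) (Λ (pt x v) *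
      ((Real.exp (-(v ^ 2 / (4 * t))) : ℝ) : ℂ) * ((Real.exp (-p * v) : ℝ) : ℂ))) (Ioi 0) :=
      Complex.conjLIE.toContinuousLinearEquiv.toContinuousLinearMap.integrable_comp h2
    refine (h3.const_mul w).congr ?_
    filter_upwards with v
    exact (hrefl v).symm
  have hF2 : IntegrableOn F (Iic 0) := by
    have h4 : IntegrableOn (fun v => F (-v)) (Ici (-0)) := by
      rw [neg_zero]
      exact (integrableOn_Ici_iff_integrableOn_Ioi (f := fun v => F (-v)) (b := 0)).mpr hF2'
    have h5 := IntegrableOn.comp_neg_Iic h4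
    simpa using h5
  have hsplit : ∫ v : ℝ, F v = (∫ v in Ioi (0:ℝ), F v) + ∫ v in Iic (0:ℝ), F v := by
    have hFi : Integrable F := by
      have := hF1.union hF2
      rwa [Ioi_union_Iic, integrableOn_univ] at this
    rw [← integral_add_compl (measurableSet_Ioi (a := (0:ℝ))) hFi]
    simp
  have h6 : ∫ v in Iic (0:ℝ), F v = ∫ v in Ioi (0:ℝ), F (-v) := by
    rw [integral_comp_neg_Ioi, neg_zero]
  have h7 : ∫ v in Ioi (0:ℝ), F (-v) = w * (starRingEnd ℂ) (halfInt t Λ x (-p)) := by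
    unfold halfInt
    rw [← integral_conj, ← integral_const_mul]
    apply integral_congr_ae
    filter_upwards with v
    exact hrefl v
  rw [h1, hsplit, h6, h7]
  rfl

/-- the comparison of the two half line integrals -/
lemma half_lt (D : FEData M Λ L w) {t : ℝ} (ht : 0 < t) (ht8 : t ≤ 1 / 8) {x p : ℝ} (hp : 0 < p)
    (h8 : 8 ≤ t * Real.log ((2 * π * M) ^ 2 * (1 + |x|) ^ 2)) :
    ‖halfInt t Λ x (-p)‖ < ‖halfInt t Λ x p‖ := by
  have hn1 := numeric_one D.M_pos ht ht8 h8
  have hn2 := numeric_two (x := x) D.M_pos ht ht8 hn1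
  have hpt : Continuous (fun v : ℝ => pt x v) := by unfold pt; fun_prop
  obtain ⟨c, hc0, hc⟩ := concentration (x := x) (p := p) (q := fun v => Λ (pt x v))
    (r := fun v => Λ (pt x v) / Gfun M x v) D.M_pos ht ht8 hp.le (by positivity) hn1 hn2
    (by
      intro v hv
      have := Gfun_ne_zero (x := x) D.M_pos hv
      field_simp)
    (by
      intro v hv hv1
      have h1 := D.le_Gfun (x := x) hv
      have h2 := D.pt_norm_Gfun_pos (x := x) hv
      have h3 : ‖Λ (pt x v) / Gfun M x v‖ ≤ 21 * max 1 (M * ‖pt x 1‖) := by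
        rw [norm_div, div_le_iff₀ h2]; exact h1
      refine (norm_sub_le _ _).trans ?_
      rw [norm_one]
      linarith)
    (by
      intro v hv
      have h2 : 2 ≤ (pt x v).re := by rw [pt_re]; linarith
      have h3 : Λ (pt x v) / Gfun M x v = L (pt x v) := by
        rw [D.eqL _ h2]
        have := Gfun_ne_zero (x := x) D.M_pos (v := v) (by linarith)
        unfold Gfun at this ⊢
        exact mul_div_cancel_left₀ _ this
      rw [h3]
      refine (norm_sub_le _ _).trans ?_
      rw [norm_one]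
      have := D.bound _ h2
      linarith)
    (by
      intro v hv
      have h2 : 2 ≤ (pt x v).re := by rw [pt_re]; linarith
      have h3 : Λ (pt x v) / Gfun M x v = L (pt x v) := by
        rw [D.eqL _ h2]
        have := Gfun_ne_zero (x := x) D.M_pos (v := v) (by linarith)
        unfold Gfun at this ⊢
        exact mul_div_cancel_left₀ _ this
      rw [h3]
      exact D.close _ (by rw [pt_re]; linarith))
    (D.diff.continuous.comp hpt).continuousOn
  have hI := D.integrableOn_one x ht ht8 p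
  have hI' := D.integrableOn_one x ht ht8 (-p)
  have hI'' : IntegrableOn (fun v : ℝ => Λ (pt x v) *
      ((Real.exp (-(v ^ 2 / (4 * t))) : ℝ) : ℂ) * ((Real.exp (-(p * v)) : ℝ) : ℂ)) (Ioi 0) := by
    refine hI'.congr ?_
    filter_upwards with v
    rw [neg_mul]
  have hI1 : IntegrableOn (fun v : ℝ => ‖Λ (pt x v) *
      ((Real.exp (-(v ^ 2 / (4 * t))) : ℝ) : ℂ)‖ *
      (Real.exp (p * v) + Real.exp (-(p * v))) * |v - c|) (Ioi 0) := by
    have hW : ∀ v : ℝ, ‖(((v - c : ℝ)) : ℂ)‖ ≤ (1 + |c|) * (1 + |v|) := by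
      intro v
      rw [Complex.norm_real, Real.norm_eq_abs]
      have := abs_sub v c
      have h3 := abs_nonneg v
      have h4 := abs_nonneg c
      nlinarith
    have a1 := (D.integrableOn_weight x ht ht8 p
      (W := fun v : ℝ => (((v - c : ℝ)) : ℂ)) (by fun_prop) hW).norm
    have a2 := (D.integrableOn_weight x ht ht8 (-p)
      (W := fun v : ℝ => (((v - c : ℝ)) : ℂ)) (by fun_prop) hW).norm
    refine (a1.add a2).congr ?_
    filter_upwards with v
    simp only [Pi.add_apply, norm_mul, Complex.norm_real, Real.norm_eq_abs,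
      abs_of_pos (Real.exp_pos _), neg_mul]
    ring
  have hcmp := comparison (V := fun v : ℝ => Λ (pt x v) *
      ((Real.exp (-(v ^ 2 / (4 * t))) : ℝ) : ℂ)) hp hc0 hI hI'' hI1 hc
  unfold halfInt
  refine lt_of_eq_of_lt ?_ hcmp
  congr 1
  apply integral_congr_ae
  filter_upwards with v
  rw [neg_mul]

/-- **Zeros of the heat flow deformation are on the line.** -/
theorem heat_zero_re (D : FEData M Λ L w) {t : ℝ} (ht : 0 < t) (ht8 : t ≤ 1 / 8) {s : ℂ}
    (hs : heatInt t Λ s = 0)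
    (h8 : 8 ≤ t * Real.log ((2 * π * M) ^ 2 * (1 + |s.im|) ^ 2)) : s.re = 1 := by
  rw [D.heatInt_eq ht ht8] at hs
  have hne : ((Real.exp (-((s.re - 1) ^ 2 / (4 * t))) : ℝ) : ℂ) ≠ 0 := by
    exact_mod_cast (Real.exp_pos _).ne'
  have h1 := (mul_eq_zero.mp hs).resolve_left hne
  have h2 : ‖halfInt t Λ s.im ((s.re - 1) / (2 * t))‖ =
      ‖halfInt t Λ s.im (-((s.re - 1) / (2 * t)))‖ := by
    have h3 : halfInt t Λ s.im ((s.re - 1) / (2 * t)) =
        -(w * (starRingEnd ℂ) (halfInt t Λ s.im (-((s.re - 1) / (2 * t))))) :=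
      eq_neg_of_add_eq_zero_left h1
    rw [h3, norm_neg, norm_mul, D.norm_w, one_mul, Complex.norm_conj]
  by_contra hne1
  rcases lt_or_gt_of_ne hne1 with hlt | hgt
  · have hp : 0 < -((s.re - 1) / (2 * t)) := by
      rw [← neg_div]
      apply div_pos <;> linarith
    have := D.half_lt ht ht8 hp h8
    rw [neg_neg] at this
    linarith
  · have hp : 0 < (s.re - 1) / (2 * t) := by
      apply div_pos <;> linarith
    have := D.half_lt ht ht8 hp h8
    linarith

end FEData

end Pool.Agent.H6
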