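import Mathlib
import Pool.Agent.H6.HeatMain

/-!
Simplicity of the zeros of the heat-flow deformation.
-/

open Real MeasureTheory Set Filter Topology

namespace Pool.Agent.H6

namespace FEData

variable {M : ℝ} {Λ L : ℂ → ℂ} {w : ℂ}

lemma norm_Gamma_le_re {z : ℂ} (hre : 0 < z.re) : ‖Complex.Gamma z‖ ≤ Real.Gamma z.re := by
  rw [Complex.Gamma_eq_integral hre, Complex.GammaIntegral, Real.Gamma_eq_integral hre]
  refine (norm_integral_le_integral_norm _).trans (le_of_eq ?_)
  apply setIntegral_congr_fun measurableSet_Ioi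
  intro x hx
  have hx0 : 0 < x := hx
  simp only
  rw [norm_mul, Complex.norm_real, Real.norm_eq_abs, abs_of_pos (Real.exp_pos _),
    Complex.norm_cpow_eq_rpow_re_of_pos hx0]
  simp

/-- growth bound uniform in the imaginary part, right half -/
lemma growth_right (D : FEData M Λ L w) : ∃ K A : ℝ, 0 ≤ K ∧ 0 ≤ A ∧ ∀ z : ℂ, 1 ≤ z.re →
    ‖Λ z‖ ≤ K * Real.exp (A * |z.re - 1| + 5 / 6 * (z.re - 1) ^ 2) := by
  obtain ⟨C, hC⟩ := D.bdd
  set A := |(psi (pt 0 0)).re + Real.log M| with hA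
  refine ⟨|C| + 9 * ‖Gfun M 0 0‖, A, by positivity, abs_nonneg _, ?_⟩
  intro z hz
  have hE : 1 ≤ Real.exp (A * |z.re - 1| + 5 / 6 * (z.re - 1) ^ 2) := by
    apply Real.one_le_exp
    positivity
  rcases le_total z.re 2 with h | h
  · have h1 := hC z (by linarith) h
    have h2 : C ≤ |C| := le_abs_self C
    have h3 : 0 ≤ 9 * ‖Gfun M 0 0‖ := by positivity
    have h4 := abs_nonneg C
    nlinarith
  · rw [D.eqL z h, norm_mul]
    have h3 := D.bound z h
    have h4 : ‖(M : ℂ) ^ z * Complex.Gamma z‖ ≤ ‖Gfun M 0 (z.re - 1)‖ := by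
      rw [norm_Gfun_sq D.M_pos, norm_mul, Complex.norm_cpow_eq_rpow_re_of_pos D.M_pos]
      have e1 : 1 + (z.re - 1) = z.re := by ring
      rw [e1]
      have e2 : pt 0 (z.re - 1) = ((z.re : ℝ) : ℂ) := by
        apply Complex.ext
        · simp [pt]
        · simp [pt]
      rw [e2]
      have h5 := norm_Gamma_le_re (z := z) (by linarith)
      have h6 : ‖Complex.Gamma ((z.re : ℝ) : ℂ)‖ = Real.Gamma z.re := by
        rw [Complex.Gamma_ofReal, Complex.norm_real, Real.norm_eq_abs, abs_of_pos]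
        exact Real.Gamma_pos_of_pos (by linarith)
      rw [h6]
      exact mul_le_mul_of_nonneg_left h5 (Real.rpow_nonneg D.M_pos.le _)
    have hv : 0 ≤ z.re - 1 := by linarith
    have h7 : ‖Gfun M 0 (z.re - 1)‖ ≤
        ‖Gfun M 0 0‖ * Real.exp (A * |z.re - 1| + 5 / 6 * (z.re - 1) ^ 2) := by
      rw [Gfun_shift D.M_pos le_rfl hv, norm_mul, Complex.norm_exp, sub_zero]
      apply mul_le_mul_of_nonneg_left _ (norm_nonneg _)
      apply Real.exp_le_exp.mpr
      rw [Complex.add_re, Complex.re_ofReal_mul, Complex.add_re, Complex.ofReal_re]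
      have h1 := norm_rho_le (s := pt 0 0) (u := z.re - 1) (by rw [pt_re]; linarith)
        (by rw [pt_re]; linarith)
      have h2 := Complex.re_le_norm (rho (pt 0 0) (z.re - 1))
      have h8 : (z.re - 1) * ((psi (pt 0 0)).re + Real.log M) ≤ A * |z.re - 1| := by
        calc _ ≤ |(z.re - 1) * ((psi (pt 0 0)).re + Real.log M)| := le_abs_self _
          _ = _ := by rw [abs_mul, hA, mul_comm]
      linarith
    calc ‖(M : ℂ) ^ z * Complex.Gamma z‖ * ‖L z‖ ≤ ‖Gfun M 0 (z.re - 1)‖ * 9 := by gcongr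
      _ ≤ (‖Gfun M 0 0‖ * Real.exp (A * |z.re - 1| + 5 / 6 * (z.re - 1) ^ 2)) * 9 := by gcongr
      _ ≤ _ := by
        have h9 : 0 ≤ |C| * Real.exp (A * |z.re - 1| + 5 / 6 * (z.re - 1) ^ 2) := by positivity
        nlinarith

lemma growth (D : FEData M Λ L w) : ∃ K A : ℝ, 0 ≤ K ∧ 0 ≤ A ∧ ∀ z : ℂ,
    ‖Λ z‖ ≤ K * Real.exp (A * |z.re - 1| + 5 / 6 * (z.re - 1) ^ 2) := by
  obtain ⟨K, A, hK, hA, h⟩ := D.growth_right
  refine ⟨K, A, hK, hA, ?_⟩
  intro z
  rcases le_total 1 z.re with h1 | h1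
  · exact h z h1
  · have h2 := h (2 - z) (by simp; linarith)
    rw [D.fe, norm_mul, D.norm_w, one_mul] at h2
    have e : (2 - z).re - 1 = -(z.re - 1) := by simp; ring
    rw [e, abs_neg, neg_sq] at h2
    exact h2

/-- growth of the derivative -/
lemma growth_deriv (D : FEData M Λ L w) : ∃ K A : ℝ, 0 ≤ K ∧ 0 ≤ A ∧ ∀ z : ℂ, ∀ r : ℝ, ∀ v : ℝ,
    |z.re - 1| ≤ |v| + r →
    ‖Λ z‖ ≤ K * Real.exp (A * (|v| + r + 1) + 5 / 6 * (|v| + r + 1) ^ 2) ∧
    ‖deriv Λ z‖ ≤ K * Real.exp (A * (|v| + r + 1) + 5 / 6 * (|v| + r + 1) ^ 2) := by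
  obtain ⟨K, A, hK, hA, h⟩ := D.growth
  refine ⟨K, A, hK, hA, ?_⟩
  intro z r v hz
  have hb : ∀ u : ℂ, ‖u - z‖ ≤ 1 →
      ‖Λ u‖ ≤ K * Real.exp (A * (|v| + r + 1) + 5 / 6 * (|v| + r + 1) ^ 2) := by
    intro u hu
    refine (h u).trans ?_
    have h1 : |u.re - 1| ≤ |v| + r + 1 := by
      have h2 : |(u - z).re| ≤ 1 := (Complex.abs_re_le_norm _).trans hu
      have h3 : u.re - 1 = (u - z).re + (z.re - 1) := by simp
      rw [h3]
      have := abs_add_le (u - z).re (z.re - 1)
      linarith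
    have h2 : (u.re - 1) ^ 2 ≤ (|v| + r + 1) ^ 2 := by
      rw [← sq_abs (u.re - 1)]
      have := abs_nonneg (u.re - 1)
      gcongr
    apply mul_le_mul_of_nonneg_left _ hK
    apply Real.exp_le_exp.mpr
    gcongr
  refine ⟨hb z (by simp), ?_⟩
  have h1 := Complex.norm_deriv_le_of_forall_mem_sphere_norm_le (c := z) (R := 1)
    (C := K * Real.exp (A * (|v| + r + 1) + 5 / 6 * (|v| + r + 1) ^ 2)) one_pos
    D.diff.diffContOnCl (by
      intro u hu
      apply hb
      rw [mem_sphere_iff_norm] at hu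
      exact hu.le)
  rwa [div_one] at h1

lemma integrable_gauss_abs {a : ℝ} (ha : 5 / 6 < a) (A r C : ℝ) (hC : 0 ≤ C) :
    Integrable (fun v : ℝ => (1 + |v|) * (C * Real.exp (A * (|v| + r) + 5 / 6 * (|v| + r) ^ 2) *
      Real.exp (-(a * v ^ 2)))) := by
  set B := A + 5 / 3 * r with hB
  have hα : 0 < a - 5 / 6 := by linarith
  have h1 := (integrable_abs_exp_quad hα B).const_mul (C * Real.exp (A * r + 5 / 6 * r ^ 2))
  have h2 := (integrable_abs_exp_quad hα (-B)).const_mul (C * Real.exp (A * r + 5 / 6 * r ^ 2))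
  refine Integrable.mono' (h1.add h2) (by fun_prop) ?_
  filter_upwards with v
  rw [Real.norm_eq_abs, abs_of_nonneg (by positivity)]
  simp only [Pi.add_apply]
  have e1 : Real.exp (A * (|v| + r) + 5 / 6 * (|v| + r) ^ 2) * Real.exp (-(a * v ^ 2)) =
      Real.exp (A * r + 5 / 6 * r ^ 2) * Real.exp (B * |v| - (a - 5 / 6) * v ^ 2) := by
    rw [← Real.exp_add, ← Real.exp_add]
    congr 1
    rw [hB, ← sq_abs v]
    ring
  have e2 : Real.exp (B * |v| - (a - 5 / 6) * v ^ 2) ≤
      Real.exp (B * v - (a - 5 / 6) * v ^ 2) + Real.exp (-B * v - (a - 5 / 6) * v ^ 2) := by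
    rcases abs_cases v with ⟨h, _⟩ | ⟨h, _⟩
    · rw [h]
      have := Real.exp_pos (-B * v - (a - 5 / 6) * v ^ 2)
      linarith
    · rw [h]
      have h3 := Real.exp_pos (B * v - (a - 5 / 6) * v ^ 2)
      have e : B * -v = -B * v := by ring
      rw [e]
      linarith
  calc (1 + |v|) * (C * Real.exp (A * (|v| + r) + 5 / 6 * (|v| + r) ^ 2) *
      Real.exp (-(a * v ^ 2))) = (1 + |v|) * (C * (Real.exp (A * r + 5 / 6 * r ^ 2) *
        Real.exp (B * |v| - (a - 5 / 6) * v ^ 2))) := by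
        rw [← e1]; ring
    _ ≤ (1 + |v|) * (C * (Real.exp (A * r + 5 / 6 * r ^ 2) *
        (Real.exp (B * v - (a - 5 / 6) * v ^ 2) + Real.exp (-B * v - (a - 5 / 6) * v ^ 2)))) := by
        gcongr
    _ = _ := by ring

/-- the heat weight -/
noncomputable def gw (t v : ℝ) : ℂ := ((Real.exp (-(v ^ 2 / (4 * t))) : ℝ) : ℂ)

lemma gw_hasDeriv {t : ℝ} (ht : 0 < t) (v : ℝ) :
    HasDerivAt (fun v => gw t v) (-((v / (2 * t) : ℝ) : ℂ) * gw t v) v := by
  have h1 : HasDerivAt (fun v : ℝ => -(v ^ 2 / (4 * t))) (-(v / (2 * t))) v := by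
    have h0 : HasDerivAt (fun v : ℝ => v ^ 2 / (4 * t)) (2 * v / (4 * t)) v := by
      simpa using (hasDerivAt_pow 2 v).div_const (4 * t)
    have e : v / (2 * t) = 2 * v / (4 * t) := by
      rw [show (4 * t) = 2 * (2 * t) by ring]
      field_simp
    rw [e]
    exact h0.fun_neg
  have h2 := h1.exp.ofReal_comp
  unfold gw
  convert h2 using 1
  push_cast
  ring

lemma norm_gw (t v : ℝ) : ‖gw t v‖ = Real.exp (-(1 / (4 * t) * v ^ 2)) := by
  unfold gw
  rw [Complex.norm_real, Real.norm_eq_abs, abs_of_pos (Real.exp_pos _)]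
  congr 1
  ring

lemma abs_re_le (s s' : ℂ) (v : ℝ) (h : ‖s' - s‖ ≤ 1) :
    |(s' + v).re - 1| ≤ |v| + (|s.re - 1| + 1) := by
  have h1 : |(s' - s).re| ≤ 1 := (Complex.abs_re_le_norm _).trans h
  have e : (s' + v).re - 1 = v + (s' - s).re + (s.re - 1) := by
    simp; ring
  rw [e]
  have h2 := abs_add_le (v + (s' - s).re) (s.re - 1)
  have h3 := abs_add_le v (s' - s).re
  linarith

/-- derivative of the heat flow -/
lemma hasDerivAt_heatInt (D : FEData M Λ L w) {t : ℝ} (ht : 0 < t) (ht8 : t ≤ 1 / 8) (s : ℂ) :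
    HasDerivAt (heatInt t Λ) (((1 / (2 * t) : ℝ) : ℂ) * ∫ v : ℝ, Λ (s + v) * gw t v * (v : ℂ)) s := by
  obtain ⟨K, A, hK, hA, hg⟩ := D.growth_deriv
  have hα : 7 / 6 ≤ 1 / (4 * t) - 5 / 6 := alpha_ge ht ht8
  have ha : 5 / 6 < 1 / (4 * t) := by linarith
  set r : ℝ := |s.re - 1| + 1 with hr
  have hr0 : 0 ≤ r := by positivity
  set bd : ℝ → ℝ := fun v => (1 + |v|) * (K * Real.exp (A * (|v| + (r + 1)) +
    5 / 6 * (|v| + (r + 1)) ^ 2) * Real.exp (-(1 / (4 * t) * v ^ 2))) with hbd
  have hbdi : Integrable bd := integrable_gauss_abs ha A (r + 1) K hK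
  have hgb : ∀ s' : ℂ, ‖s' - s‖ ≤ 1 → ∀ v : ℝ,
      ‖Λ (s' + v)‖ * ‖gw t v‖ * (1 + |v|) ≤ bd v ∧ ‖deriv Λ (s' + v)‖ * ‖gw t v‖ * (1 + |v|) ≤ bd v := by
    intro s' hs' v
    obtain ⟨h1, h2⟩ := hg (s' + v) r v (abs_re_le s s' v hs')
    rw [norm_gw]
    have e : |v| + r + 1 = |v| + (r + 1) := by ring
    rw [e] at h1 h2
    constructor
    · calc ‖Λ (s' + v)‖ * Real.exp (-(1 / (4 * t) * v ^ 2)) * (1 + |v|) ≤
          (K * Real.exp (A * (|v| + (r + 1)) + 5 / 6 * (|v| + (r + 1)) ^ 2)) *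
            Real.exp (-(1 / (4 * t) * v ^ 2)) * (1 + |v|) := by gcongr
        _ = bd v := by rw [hbd]; ring
    · calc ‖deriv Λ (s' + v)‖ * Real.exp (-(1 / (4 * t) * v ^ 2)) * (1 + |v|) ≤
          (K * Real.exp (A * (|v| + (r + 1)) + 5 / 6 * (|v| + (r + 1)) ^ 2)) *
            Real.exp (-(1 / (4 * t) * v ^ 2)) * (1 + |v|) := by gcongr
        _ = bd v := by rw [hbd]; ring
  have hcΛ : ∀ s' : ℂ, Continuous (fun v : ℝ => Λ (s' + v)) := fun s' =>
    D.diff.continuous.comp (by fun_prop)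
  have hcΛ' : ∀ s' : ℂ, Continuous (fun v : ℝ => deriv Λ (s' + v)) := fun s' =>
    (D.diff.contDiff.continuous_deriv (by norm_num : (1 : WithTop ℕ∞) ≤ ⊤)).comp (by fun_prop)
  have hcg : Continuous (fun v : ℝ => gw t v) := by unfold gw; fun_prop
  have habs : ∀ v : ℝ, 1 ≤ 1 + |v| := fun v => by linarith [abs_nonneg v]
  -- integrability
  have hI0 : ∀ s' : ℂ, ‖s' - s‖ ≤ 1 → Integrable (fun v : ℝ => Λ (s' + v) * gw t v) := by
    intro s' hs'
    refine Integrable.mono' hbdi ((hcΛ s').mul hcg).aestronglyMeasurable ?_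
    filter_upwards with v
    rw [norm_mul]
    refine le_trans ?_ (hgb s' hs' v).1
    exact le_mul_of_one_le_right (by positivity) (habs v)
  have hI0v : Integrable (fun v : ℝ => Λ (s + v) * gw t v * (v : ℂ)) := by
    refine Integrable.mono' hbdi (((hcΛ s).mul hcg).mul Complex.continuous_ofReal).aestronglyMeasurable ?_
    filter_upwards with v
    rw [norm_mul, norm_mul, Complex.norm_real, Real.norm_eq_abs]
    refine le_trans ?_ (hgb s (by simp) v).1
    apply mul_le_mul_of_nonneg_left _ (by positivity)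
    linarith
  have hI1 : Integrable (fun v : ℝ => deriv Λ (s + v) * gw t v) := by
    refine Integrable.mono' hbdi ((hcΛ' s).mul hcg).aestronglyMeasurable ?_
    filter_upwards with v
    rw [norm_mul]
    refine le_trans ?_ (hgb s (by simp) v).2
    exact le_mul_of_one_le_right (by positivity) (habs v)
  -- differentiation under the integral
  have hD := hasDerivAt_integral_of_dominated_loc_of_deriv_le
    (F := fun (s' : ℂ) (v : ℝ) => Λ (s' + v) * gw t v)
    (F' := fun (s' : ℂ) (v : ℝ) => deriv Λ (s' + v) * gw t v) (x₀ := s)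
    (s := Metric.ball s 1) (bound := bd) (Metric.ball_mem_nhds s one_pos)
    (Eventually.of_forall (fun s' => ((hcΛ s').mul hcg).aestronglyMeasurable))
    (hI0 s (by simp)) ((hcΛ' s).mul hcg).aestronglyMeasurable
    (by
      filter_upwards with v
      intro s' hs'
      rw [norm_mul]
      rw [mem_ball_iff_norm] at hs'
      refine le_trans ?_ (hgb s' hs'.le v).2
      exact le_mul_of_one_le_right (by positivity) (habs v))
    hbdi
    (by
      filter_upwards with v
      intro s' _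
      have h1 : HasDerivAt Λ (deriv Λ (s' + v)) (s' + v) := (D.diff (s' + v)).hasDerivAt
      exact (h1.comp_add_const s' (v : ℂ)).mul_const _)
  have hparts : ∫ v : ℝ, deriv Λ (s + v) * gw t v =
      ((1 / (2 * t) : ℝ) : ℂ) * ∫ v : ℝ, Λ (s + v) * gw t v * (v : ℂ) := by
    have hu : ∀ v : ℝ, HasDerivAt (fun v : ℝ => Λ (s + v)) (deriv Λ (s + v)) v := by
      intro v
      have h1 : HasDerivAt Λ (deriv Λ (s + v)) (s + v) := (D.diff (s + v)).hasDerivAt
      exact (h1.comp_const_add s (v : ℂ)).comp_ofReal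
    have h := integral_mul_deriv_eq_deriv_mul_of_integrable (u := fun v : ℝ => Λ (s + v))
      (v := fun v => gw t v) (u' := fun v : ℝ => deriv Λ (s + v))
      (v' := fun v => -((v / (2 * t) : ℝ) : ℂ) * gw t v)
      (fun v _ => hu v) (fun v _ => gw_hasDeriv ht v) ?_ hI1 (hI0 s (by simp))
    · have h2 : ∫ v : ℝ, deriv Λ (s + v) * gw t v =
          -∫ v : ℝ, Λ (s + v) * (-((v / (2 * t) : ℝ) : ℂ) * gw t v) := by
        rw [h, neg_neg]
      rw [h2, ← integral_neg, ← integral_const_mul]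
      apply integral_congr_ae
      filter_upwards with v
      push_cast
      field_simp
    · refine (hI0v.const_mul (-((1 / (2 * t) : ℝ) : ℂ))).congr ?_
      filter_upwards with v
      simp only [Pi.mul_apply]
      push_cast
      field_simp
  rw [← hparts]
  exact hD.2

/-- concentration of the half line integrals, all `p ≥ 0` -/
lemma concentrated (D : FEData M Λ L w) {t : ℝ} (ht : 0 < t) (ht8 : t ≤ 1 / 8) {x p : ℝ}
    (hp : 0 ≤ p) (h8 : 8 ≤ t * Real.log ((2 * π * M) ^ 2 * (1 + |x|) ^ 2)) :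
    ∃ c : ℝ, 0 < c ∧
      (∫ v in Ioi (0:ℝ), ‖Λ (pt x v) * ((Real.exp (-(v ^ 2 / (4 * t))) : ℝ) : ℂ)‖ *
        (Real.exp (p * v) + Real.exp (-(p * v))) * |v - c|) <
      c * ‖∫ v in Ioi (0:ℝ), Λ (pt x v) * ((Real.exp (-(v ^ 2 / (4 * t))) : ℝ) : ℂ) *
        ((Real.exp (p * v) + Real.exp (-(p * v)) : ℝ) : ℂ)‖ := by
  have hn1 := numeric_one D.M_pos ht ht8 h8
  have hn2 := numeric_two (x := x) D.M_pos ht ht8 hn1
  have hpt : Continuous (fun v : ℝ => pt x v) := by unfold pt; fun_prop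
  exact concentration (x := x) (p := p) (q := fun v => Λ (pt x v))
    (r := fun v => Λ (pt x v) / Gfun M x v) D.M_pos ht ht8 hp (by positivity) hn1 hn2
    (by
      intro v hv
      have := Gfun_ne_zero (x := x) D.M_pos hv
      field_simp)
    (by
      intro v hv hv1
      have h1 := D.le_Gfun (x := x) hv
      have h2 := D.pt_norm_Gfun_pos (x := x) hv
      have h3 : ‖Λ (pt x v) / Gfun M x v‖ ≤ 21 * max 1 (M * ‖pt x 1‖) := by
        rw [norm_div, div_le_iff₀ h2]; exact h1
      refine (norm_sub_le _ _).trans ?_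
      rw [norm_one]
      linarith)
    (by
      intro v hv
      have h2 : 2 ≤ (pt x v).re := by rw [pt_re]; linarith
      have h3 : Λ (pt x v) / Gfun M x v = L (pt x v) := by
        rw [D.eqL _ h2]
        have := Gfun_ne_zero (x := x) D.M_pos (v := v) (by linarith)
        unfold Gfun at this ⊢
        exact mul_div_cancel_left₀ _ this
      rw [h3]
      refine (norm_sub_le _ _).trans ?_
      rw [norm_one]
      have := D.bound _ h2
      linarith)
    (by
      intro v hv
      have h2 : 2 ≤ (pt x v).re := by rw [pt_re]; linarith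
      have h3 : Λ (pt x v) / Gfun M x v = L (pt x v) := by
        rw [D.eqL _ h2]
        have := Gfun_ne_zero (x := x) D.M_pos (v := v) (by linarith)
        unfold Gfun at this ⊢
        exact mul_div_cancel_left₀ _ this
      rw [h3]
      exact D.close _ (by rw [pt_re]; linarith))
    (D.diff.continuous.comp hpt).continuousOn

/-- **Zeros of the heat flow deformation are simple.** -/
theorem heat_zero_simple (D : FEData M Λ L w) {t : ℝ} (ht : 0 < t) (ht8 : t ≤ 1 / 8) {s : ℂ}
    (hs : heatInt t Λ s = 0)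
    (h8 : 8 ≤ t * Real.log ((2 * π * M) ^ 2 * (1 + |s.im|) ^ 2)) :
    deriv (heatInt t Λ) s ≠ 0 := by
  have hre := D.heat_zero_re ht ht8 hs h8
  have hspt : s = pt s.im 0 := by
    apply Complex.ext
    · simp [pt, hre]
    · simp [pt]
  set x := s.im with hx
  have hptv : ∀ v : ℝ, s + v = pt x v := by
    intro v
    rw [hspt]
    unfold pt
    push_cast
    ring
  obtain ⟨c, hc0, hc⟩ := D.concentrated ht ht8 (x := x) (p := 0) le_rfl h8
  have hI := D.integrableOn_one x ht ht8 0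
  have hI2 := D.integrableOn_weight x ht ht8 0 (W := fun v : ℝ => (v : ℂ)) (by fun_prop) (C := 1)
    (by
      intro v
      rw [Complex.norm_real, Real.norm_eq_abs]
      linarith)
  set V : ℝ → ℂ := fun v => Λ (pt x v) * gw t v with hV
  have hIV : IntegrableOn V (Ioi 0) := by
    refine hI.congr ?_
    filter_upwards with v
    simp [hV, gw]
  have hIV2 : IntegrableOn (fun v => V v * (v : ℂ)) (Ioi 0) := by
    refine hI2.congr ?_
    filter_upwards with v
    simp [hV, gw]
  have hcomp := comparison_zero (V := V) (c := c) hIV hIV2 (by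
    have e1 : ∫ v in Ioi (0:ℝ), ‖Λ (pt x v) * ((Real.exp (-(v ^ 2 / (4 * t))) : ℝ) : ℂ)‖ *
        (Real.exp (0 * v) + Real.exp (-(0 * v))) * |v - c| =
        2 * ∫ v in Ioi (0:ℝ), ‖V v‖ * |v - c| := by
      rw [← integral_const_mul]
      apply integral_congr_ae
      filter_upwards with v
      simp only [zero_mul, neg_zero, Real.exp_zero, hV, gw]
      ring
    have e2 : ∫ v in Ioi (0:ℝ), Λ (pt x v) * ((Real.exp (-(v ^ 2 / (4 * t))) : ℝ) : ℂ) *
        ((Real.exp (0 * v) + Real.exp (-(0 * v)) : ℝ) : ℂ) = 2 * ∫ v in Ioi (0:ℝ), V v := by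
      rw [← integral_const_mul]
      apply integral_congr_ae
      filter_upwards with v
      simp only [zero_mul, neg_zero, Real.exp_zero, hV, gw]
      push_cast
      ring
    rw [e1, e2, norm_mul] at hc
    have e3 : ‖(2:ℂ)‖ = 2 := by simp
    rw [e3] at hc
    linarith)
  set K := ∫ v in Ioi (0:ℝ), V v with hK
  set K1 := ∫ v in Ioi (0:ℝ), V v * (v : ℂ) with hK1
  -- reality relations
  have hz : K + w * (starRingEnd ℂ) K = 0 := by
    rw [D.heatInt_eq ht ht8] at hs
    have hne : ((Real.exp (-((s.re - 1) ^ 2 / (4 * t))) : ℝ) : ℂ) ≠ 0 := by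
      exact_mod_cast (Real.exp_pos _).ne'
    have h1 := (mul_eq_zero.mp hs).resolve_left hne
    have e : halfInt t Λ x 0 = K := by
      unfold halfInt
      rw [hK]
      apply integral_congr_ae
      filter_upwards with v
      simp [hV, gw]
    have e0 : (s.re - 1) / (2 * t) = 0 := by rw [hre]; simp
    rw [e0, neg_zero, ← hx, e] at h1
    exact h1
  intro hder
  rw [(D.hasDerivAt_heatInt ht ht8 s).deriv] at hder
  have ht2 : ((1 / (2 * t) : ℝ) : ℂ) ≠ 0 := by
    have : (1 / (2 * t) : ℝ) ≠ 0 := by positivity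
    exact_mod_cast this
  have hder' := (mul_eq_zero.mp hder).resolve_left ht2
  have hz1 : K1 - w * (starRingEnd ℂ) K1 = 0 := by
    rw [← hder']
    set F : ℝ → ℂ := fun v => V v * (v : ℂ) with hF
    have hFeq : (fun v : ℝ => Λ (s + v) * gw t v * (v : ℂ)) = F := by
      funext v
      rw [hptv v]
    have hrefl : ∀ v : ℝ, F (-v) = -(w * (starRingEnd ℂ) (F v)) := by
      intro v
      simp only [hF, hV]
      rw [D.reflect]
      have e1 : gw t (-v) = gw t v := by unfold gw; rw [neg_sq]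
      have e2 : (starRingEnd ℂ) (gw t v) = gw t v := by unfold gw; exact Complex.conj_ofReal _
      rw [e1, map_mul, map_mul, e2, Complex.conj_ofReal]
      push_cast
      ring
    have hFi : Integrable F := by
      rw [← integrableOn_univ, ← Iic_union_Ioi (a := (0:ℝ))]
      refine IntegrableOn.union ?_ hIV2
      have h1 : IntegrableOn (fun v => F (-v)) (Ioi 0) := by
        have h2 : IntegrableOn (fun v => -(w * (starRingEnd ℂ) (F v))) (Ioi 0) := by
          have h3 : IntegrableOn (fun v => (starRingEnd ℂ) (F v)) (Ioi 0) := by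
            have := Complex.conjCLE.toContinuousLinearMap.integrable_comp hIV2
            exact this
          exact (h3.const_mul w).neg
        refine h2.congr ?_
        filter_upwards with v
        rw [hrefl v]
      have h4 := (integrableOn_Iic_iff_integrableOn_Iio (f := F) (b := (0:ℝ)) (μ := volume))
      rw [h4]
      have h5 := h1.comp_neg
      simpa using h5
    have hsplit : ∫ v : ℝ, F v = (∫ v in Iic (0:ℝ), F v) + ∫ v in Ioi (0:ℝ), F v := by
      have := integral_add_compl (measurableSet_Iic (a := (0:ℝ))) hFi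
      rw [← this]
      simp
    have h6 : ∫ v in Iic (0:ℝ), F v = ∫ v in Ioi (0:ℝ), F (-v) := by
      rw [integral_comp_neg_Ioi, neg_zero]
    have h7 : ∫ v in Ioi (0:ℝ), F (-v) = -(w * (starRingEnd ℂ) K1) := by
      rw [hK1, ← integral_conj, ← integral_const_mul, ← integral_neg]
      apply integral_congr_ae
      filter_upwards with v
      exact hrefl v
    rw [hFeq, hsplit, h6, h7]
    ring
  -- contradiction
  have hwc : (starRingEnd ℂ) w = w := by rcases D.sign with h | h <;> simp [h]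
  have hw2 : w * w = 1 := by rcases D.sign with h | h <;> simp [h]
  have h1 : (starRingEnd ℂ) K = -(w * K) := by
    have h2 : w * (starRingEnd ℂ) K = -K := by linear_combination hz
    calc (starRingEnd ℂ) K = (w * w) * (starRingEnd ℂ) K := by rw [hw2, one_mul]
      _ = w * (w * (starRingEnd ℂ) K) := by ring
      _ = _ := by rw [h2]; ring
  have h2 : (starRingEnd ℂ) K1 = w * K1 := by
    have h3 : w * (starRingEnd ℂ) K1 = K1 := by linear_combination -hz1
    calc (starRingEnd ℂ) K1 = (w * w) * (starRingEnd ℂ) K1 := by rw [hw2, one_mul]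
      _ = w * (w * (starRingEnd ℂ) K1) := by ring
      _ = _ := by rw [h3]
  have h3 : (starRingEnd ℂ) (K1 * (starRingEnd ℂ) K) = -(K1 * (starRingEnd ℂ) K) := by
    rw [map_mul, Complex.conj_conj, h2, h1]
    ring
  have h4 : (K1 * (starRingEnd ℂ) K).re = 0 := by
    have := congrArg Complex.re h3
    rw [Complex.conj_re, Complex.neg_re] at this
    linarith
  rw [h4] at hcomp
  exact lt_irrefl _ hcomp

end FEData

end Pool.Agent.H6
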