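import Mathlib
import Pool.Agent.H6.CoreIneq

/-!
Core inequality for small `t`, peak at distance `γ` from the critical strip.
-/

open Real MeasureTheory Set Filter Topology

namespace Pool.Agent.H6

section core

variable {t c b : ℝ} {ρ : ℝ → ℂ} {g : ℝ → ℂ}

/-- lower bound for the main integral, small `t` -/
lemma main_lower_gap (ht : 0 < t) (ht8 : t ≤ 1 / 100) (hc : 1 / 2 ≤ c) (hb : |b| ≤ π / 2)
    (hρ : ∀ v, 0 ≤ v → ‖ρ v‖ ≤ 5 / 6 * (v - c) ^ 2)
    (hg : ∀ v, 0 ≤ v → g v = Complex.exp (Complex.I * b * (v - c) - (v - c) ^ 2 / (4 * t) + ρ v))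
    (hgc : ContinuousOn g (Ici 0)) :
    √(4 * π * t) / 2 ≤ ‖∫ v in Ioi (0:ℝ), g v‖ := by
  have hc0 : 0 < c := by linarith
  have h := main_lower ht (by linarith) hc0 hρ hg hgc
  set K := √(4 * π * t) with hK
  have hpi := Real.pi_gt_d4
  have hpi' := Real.pi_lt_d4
  have hKpos : 0 < K := Real.sqrt_pos.mpr (by positivity)
  have hKsq : K ^ 2 = 4 * π * t := Real.sq_sqrt (by positivity)
  have hK1 : K ≤ 0.36 := by
    apply Real.sqrt_le_iff.mpr
    constructor
    · norm_num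
    · nlinarith
  have h4t : 4 * t ≤ 0.12 * K := by
    have : 4 * t * π ≤ 0.36 * K := by nlinarith
    nlinarith
  have h4tc : 4 * t / c ≤ 0.24 * K := by
    rw [div_le_iff₀ hc0]
    nlinarith
  have hb2 : b ^ 2 ≤ 2.5 := by
    have : b ^ 2 = |b| ^ 2 := (sq_abs b).symm
    rw [this]
    have := abs_nonneg b
    nlinarith
  have hexp : 0.975 ≤ Real.exp (-(t * b ^ 2)) := by
    have h1 := Real.add_one_le_exp (-(t * b ^ 2))
    have h2 : t * b ^ 2 ≤ 0.025 := by nlinarith [sq_nonneg b]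
    linarith
  have hX : √(π / (1 / (4 * t) - 5 / 6)) ≤ 1.05 * K := by
    have hα : 0 < 1 / (4 * t) - 5 / 6 := by
      have : 25 ≤ 1 / (4 * t) := by
        rw [le_div_iff₀ (by positivity)]; linarith
      linarith
    apply Real.sqrt_le_iff.mpr
    constructor
    · positivity
    · have e : (1.05 * K) ^ 2 = 1.1025 * (4 * π * t) := by rw [mul_pow, hKsq]; norm_num
      rw [e, div_le_iff₀ hα]
      have : 4 * π * t * (1 / (4 * t) - 5 / 6) = π - 4 * π * t * (5 / 6) := by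
        field_simp
      nlinarith
  nlinarith

/-- **The core inequality for small `t`.** -/
theorem core_gap {p a Z Z1 z0 η γ : ℝ} {q r : ℝ → ℂ} (ht : 0 < t) (ht8 : t ≤ 1 / 100)
    (ha0 : 0 ≤ a) (ha : a ≤ 3 / 4) (hγ : 0 < γ) (hac' : a + γ ≤ c) (hc : 1 / 2 ≤ c) (hb : |b| ≤ π / 2) (hp : 0 ≤ p)
    (hZ : 0 ≤ Z) (hZ1 : 0 ≤ Z1) (hη0 : 0 ≤ η)
    (hη : 8 * η ≤ z0 * √t) (hz0 : 8 * (8 * Z + 2 * Z / γ + 2 * Z1) * √t ≤ z0)
    (hz0pos : 0 < z0)
    (hρ : ∀ v, 0 ≤ v → ‖ρ v‖ ≤ 5 / 6 * (v - c) ^ 2)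
    (hg : ∀ v, 0 ≤ v → g v = Complex.exp (Complex.I * b * (v - c) - (v - c) ^ 2 / (4 * t) + ρ v))
    (hq : ∀ v, 0 ≤ v → q v = g v * r v)
    (hr0 : ∀ v, 0 ≤ v → v ≤ a → ‖r v‖ * Real.exp (-(1 / (4 * t) - 5 / 6) * (v - c) ^ 2) ≤ η)
    (hr1 : ∀ v, a ≤ v → ‖r v‖ ≤ Z)
    (hr2 : ∀ v, a ≤ v → ‖r v - r c‖ ≤ Z1 * |v - c|)
    (hrc : z0 ≤ ‖r c‖)
    (hgc : ContinuousOn g (Ici 0)) (hqc : ContinuousOn q (Ici 0)) :
    ∫ v in Ioi (0:ℝ), ‖q v‖ * (1 + Real.exp (-(2 * p * v))) * |v - c| <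
      c * ‖∫ v in Ioi (0:ℝ), q v * ((1 + Real.exp (-(2 * p * v)) : ℝ) : ℂ)‖ := by
  have hc0 : 0 < c := by linarith
  have hac : a ≤ c := by linarith
  have hmain := main_lower_gap (b := b) ht ht8 hc hb hρ hg hgc
  set α := 1 / (4 * t) - 5 / 6 with hαdef
  have hα : 1 / (8 * t) ≤ α := by
    rw [hαdef, div_le_iff₀ (by positivity)]
    have : (1 / (4 * t) - 5 / 6) * (8 * t) = 2 - 20 / 3 * t := by field_simp; ring
    rw [this]
    linarith
  have h8t : 0 < 1 / (8 * t) := by positivity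
  have hα0 : 0 < α := by linarith
  have hαinv : 1 / α ≤ 8 * t := by
    rw [div_le_iff₀ hα0]
    have : 8 * t * (1 / (8 * t)) = 1 := by field_simp
    nlinarith
  set K := √(4 * π * t) with hK
  have hsqt0 : 0 < √t := Real.sqrt_pos.mpr ht
  have hsqt2 : √t * √t = t := Real.mul_self_sqrt ht.le
  have hKt : 3.5 * √t ≤ K := by
    rw [hK]
    apply Real.le_sqrt_of_sq_le
    have hpi := Real.pi_gt_d4
    rw [mul_pow, sq (√t), hsqt2]
    nlinarith
  set E : ℝ → ℝ := fun v => Real.exp (-α * (v - c) ^ 2) with hE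
  set W : ℝ → ℝ := fun v => 1 + Real.exp (-(2 * p * v)) with hW
  set W0 : ℝ := 1 + Real.exp (-(2 * p * c)) with hW0
  have hW01 : 1 ≤ W0 := by
    rw [hW0]; have := Real.exp_pos (-(2 * p * c)); linarith
  have hW02 : W0 ≤ 2 := by
    rw [hW0]
    have : Real.exp (-(2 * p * c)) ≤ 1 := by
      apply Real.exp_le_one_iff.mpr
      have : 0 ≤ p * c := by positivity
      linarith
    linarith
  have hEpos : ∀ v, 0 < E v := fun v => Real.exp_pos _
  have hWpos : ∀ v, 0 < W v := fun v => by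
    have := Real.exp_pos (-(2 * p * v))
    simp only [hW]
    linarith
  have hW2 : ∀ v, 0 ≤ v → W v ≤ 2 := fun v hv => by
    have : Real.exp (-(2 * p * v)) ≤ 1 := by
      apply Real.exp_le_one_iff.mpr
      have : 0 ≤ p * v := by positivity
      linarith
    simp only [hW]
    linarith
  have hgE : ∀ v, 0 ≤ v → ‖g v‖ ≤ E v := fun v hv => norm_g_le hρ hg hv
  have hi0 : Integrable E := integrable_gauss hα0 c
  have hi1 : Integrable (fun v => |v - c| * E v) := integrable_abs_gauss hα0 c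
  have hI1 : ∫ v, |v - c| * E v = 1 / α := integral_abs_gauss hα0 c
  have hWc : Continuous W := by simp only [hW]; fun_prop
  have hgi : IntegrableOn g (Ioi 0) := integrableOn_of_bound hgc hi0 (fun v hv => hgE v hv)
  have hone : Integrable ((Ioc (0:ℝ) 1).indicator (fun _ => (1:ℝ))) := by
    rw [integrable_indicator_iff measurableSet_Ioc]
    exact integrableOn_const (by simp)
  have hone1 : ∫ v, (Ioc (0:ℝ) 1).indicator (fun _ => (1:ℝ)) v = 1 := by
    rw [integral_indicator measurableSet_Ioc]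
    simp
  have hone0 : ∀ v, 0 ≤ (Ioc (0:ℝ) 1).indicator (fun _ => (1:ℝ)) v := by
    intro v
    apply indicator_nonneg
    intro _ _
    norm_num
  set χ : ℝ → ℝ := (Ioc (0:ℝ) 1).indicator (fun _ => (1:ℝ)) with hχ
  have hχa : ∀ v, 0 < v → v ≤ a → χ v = 1 := by
    intro v hv hva
    rw [hχ, indicator_of_mem (show v ∈ Ioc (0:ℝ) 1 from ⟨hv, by linarith⟩)]
  have hrcZ : ‖r c‖ ≤ Z := hr1 c hac
  -- pointwise bounds for q
  have hqa : ∀ v, 0 < v → v ≤ a → ‖q v‖ ≤ η := by
    intro v hv hva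
    rw [hq v hv.le, norm_mul]
    calc ‖g v‖ * ‖r v‖ ≤ E v * ‖r v‖ := by gcongr; exact hgE v hv.le
      _ = ‖r v‖ * E v := mul_comm _ _
      _ ≤ η := hr0 v hv.le hva
  have hqb : ∀ v, a ≤ v → ‖q v‖ ≤ E v * Z := by
    intro v hva
    have hv : 0 ≤ v := ha0.trans hva
    rw [hq v hv, norm_mul]
    have h1 := hgE v hv
    have h2 := hr1 v hva
    have := (hEpos v).le
    gcongr
  -- upper bound of the left side
  set Φ1 : ℝ → ℝ := fun v => 2 * Z * (|v - c| * E v) + 2 * η * c * χ v with hΦ1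
  have hΦ1i : Integrable Φ1 := (hi1.const_mul _).add (hone.const_mul _)
  have hΦ1int : ∫ v, Φ1 v = 2 * Z * (1 / α) + 2 * η * c := by
    simp only [hΦ1]
    rw [integral_add (hi1.const_mul _) (hone.const_mul _), integral_const_mul, integral_const_mul,
      hI1, hone1]
    ring
  have hup : ∫ v in Ioi (0:ℝ), ‖q v‖ * W v * |v - c| ≤ 2 * Z * (1 / α) + 2 * η * c := by
    rw [← hΦ1int]
    have hbd : ∀ v ∈ Ioi (0:ℝ), ‖q v‖ * W v * |v - c| ≤ Φ1 v := by
      intro v hv
      have hv0 : 0 < v := hv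
      have hEv := (hEpos v).le
      have hWv := hW2 v hv0.le
      have hWp := (hWpos v).le
      simp only [hΦ1]
      rcases le_total v a with h | h
      · rw [hχa v hv0 h]
        have h1 := hqa v hv0 h
        have h2 : |v - c| ≤ c := by rw [abs_le]; constructor <;> linarith
        have h3 : ‖q v‖ * W v * |v - c| ≤ η * 2 * c := by gcongr
        have h4 : 0 ≤ 2 * Z * (|v - c| * E v) := by positivity
        linarith
      · have h1 := hqb v h
        have h3 : ‖q v‖ * W v * |v - c| ≤ (E v * Z) * 2 * |v - c| := by gcongr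
        have h4 : 0 ≤ 2 * η * c * χ v := by have := hone0 v; positivity
        linarith
    refine setIntegral_le_integral' measurableSet_Ioi ?_ hΦ1i ?_ hbd
    · refine Integrable.mono' hΦ1i.integrableOn ?_ ?_
      · refine ContinuousOn.aestronglyMeasurable ?_ measurableSet_Ioi
        exact ((hqc.mono Ioi_subset_Ici_self).norm.mul hWc.continuousOn).mul
          (by fun_prop)
      · filter_upwards [ae_restrict_mem measurableSet_Ioi] with v hv
        rw [Real.norm_eq_abs, abs_of_nonneg (by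
          have := hWpos v
          positivity)]
        exact hbd v hv
    · intro v
      have h1 := hEpos v
      have h2 := hone0 v
      simp only [hΦ1]
      positivity
  -- lower bound of the right side
  set B0 : ℝ := 2 * Z + 2 * Z / γ + 2 * Z1 with hB0def
  have hB0 : 0 ≤ B0 := by positivity
  set Φ0 : ℝ → ℝ := fun v => B0 * (|v - c| * E v) + 2 * η * χ v with hΦ0
  have hΦ0i : Integrable Φ0 := (hi1.const_mul _).add (hone.const_mul _)
  have hΦ0int : ∫ v, Φ0 v = B0 * (1 / α) + 2 * η := by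
    simp only [hΦ0]
    rw [integral_add (hi1.const_mul _) (hone.const_mul _), integral_const_mul, integral_const_mul,
      hI1, hone1, mul_one]
  have hdiffb : ∀ v ∈ Ioi (0:ℝ), ‖q v * (W v : ℂ) - g v * (r c * (W0 : ℂ))‖ ≤ Φ0 v := by
    intro v hv
    have hv0 : 0 < v := hv
    have hEv := (hEpos v).le
    have hWv := hW2 v hv0.le
    have hWp := (hWpos v).le
    have hWn : ‖((W v : ℝ) : ℂ)‖ = W v := by
      rw [Complex.norm_real, Real.norm_eq_abs, abs_of_nonneg hWp]
    have hW0n : ‖((W0 : ℝ) : ℂ)‖ = W0 := by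
      rw [Complex.norm_real, Real.norm_eq_abs, abs_of_nonneg (by linarith)]
    simp only [hΦ0]
    rcases le_total v a with h | h
    · rw [hχa v hv0 h]
      have h1 := hqa v hv0 h
      have h2 := hgE v hv0.le
      have h3 : ‖q v * (W v : ℂ) - g v * (r c * (W0 : ℂ))‖ ≤ η * 2 + E v * (Z * 2) := by
        refine (norm_sub_le _ _).trans ?_
        rw [norm_mul, norm_mul, norm_mul, hWn, hW0n]
        gcongr
      have h4 : γ ≤ |v - c| := by
        rw [abs_of_nonpos (by linarith)]; linarith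
      have h5 : E v * (Z * 2) ≤ B0 * (|v - c| * E v) := by
        have h6 : 0 ≤ (2 * Z + 2 * Z1) * (|v - c| * E v) := by positivity
        have h7 : E v * (Z * 2) = 2 * Z / γ * (γ * E v) := by field_simp
        have h8 : 2 * Z / γ * (γ * E v) ≤ 2 * Z / γ * (|v - c| * E v) := by gcongr
        rw [hB0def]
        linarith
      linarith
    · have e : q v * (W v : ℂ) - g v * (r c * (W0 : ℂ)) =
          g v * ((r v - r c) * (W0 : ℂ) + r v * ((W v - W0 : ℝ) : ℂ)) := by
        rw [hq v hv0.le]; push_cast; ring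
      have h1 : |W v - W0| ≤ |v - c| / c := by
        have := weight_bound hp hc0 hv0.le
        simp only [hW, hW0]
        rwa [add_sub_add_left_eq_sub]
      have h1' : |W v - W0| ≤ 2 * |v - c| := by
        refine h1.trans ?_
        rw [div_le_iff₀ hc0]
        have := abs_nonneg (v - c)
        nlinarith
      have h2 := hgE v hv0.le
      have h3 := hr2 v h
      have h4 := hr1 v h
      have h5 : ‖(r v - r c) * (W0 : ℂ) + r v * ((W v - W0 : ℝ) : ℂ)‖ ≤
          (Z1 * |v - c|) * 2 + Z * (2 * |v - c|) := by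
        refine (norm_add_le _ _).trans ?_
        rw [norm_mul, norm_mul, hW0n, Complex.norm_real, Real.norm_eq_abs]
        have := abs_nonneg (v - c)
        gcongr
      rw [e, norm_mul]
      have h6 : ‖g v‖ * ‖(r v - r c) * (W0 : ℂ) + r v * ((W v - W0 : ℝ) : ℂ)‖ ≤
          E v * ((Z1 * |v - c|) * 2 + Z * (2 * |v - c|)) := by gcongr
      have h7 : 0 ≤ 2 * η * χ v := by have := hone0 v; positivity
      have h8 : 0 ≤ 2 * Z / γ * (|v - c| * E v) := by positivity
      have h9 : B0 * (|v - c| * E v) = 2 * Z / γ * (|v - c| * E v) +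
          E v * ((Z1 * |v - c|) * 2 + Z * (2 * |v - c|)) := by rw [hB0def]; ring
      linarith
  have hqWc : ContinuousOn (fun v => q v * (W v : ℂ)) (Ici 0) :=
    hqc.mul (Complex.continuous_ofReal.comp hWc).continuousOn
  have hdiffc : ContinuousOn (fun v => q v * (W v : ℂ) - g v * (r c * (W0 : ℂ))) (Ici 0) :=
    hqWc.sub (hgc.mul continuousOn_const)
  have hdiffi : IntegrableOn (fun v => q v * (W v : ℂ) - g v * (r c * (W0 : ℂ))) (Ioi 0) := by
    refine Integrable.mono' hΦ0i.integrableOn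
      ((hdiffc.mono Ioi_subset_Ici_self).aestronglyMeasurable measurableSet_Ioi) ?_
    filter_upwards [ae_restrict_mem measurableSet_Ioi] with v hv
    exact hdiffb v hv
  have hgri : IntegrableOn (fun v => g v * (r c * (W0 : ℂ))) (Ioi 0) := hgi.mul_const _
  have hsplit : ∫ v in Ioi (0:ℝ), q v * (W v : ℂ) =
      (∫ v in Ioi (0:ℝ), g v) * (r c * (W0 : ℂ)) +
        ∫ v in Ioi (0:ℝ), (q v * (W v : ℂ) - g v * (r c * (W0 : ℂ))) := by
    rw [← integral_mul_const, ← integral_add hgri hdiffi]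
    apply integral_congr_ae
    filter_upwards with v
    ring
  have herr : ‖∫ v in Ioi (0:ℝ), (q v * (W v : ℂ) - g v * (r c * (W0 : ℂ)))‖ ≤
      B0 * (1 / α) + 2 * η := by
    rw [← hΦ0int]
    refine (norm_integral_le_integral_norm _).trans ?_
    refine setIntegral_le_integral' measurableSet_Ioi hdiffi.norm hΦ0i ?_ hdiffb
    intro v
    have h1 := hEpos v
    have h2 := hone0 v
    simp only [hΦ0]
    positivity
  have hlow : z0 * (K / 2) - (B0 * (1 / α) + 2 * η) ≤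
      ‖∫ v in Ioi (0:ℝ), q v * (W v : ℂ)‖ := by
    have h1 : (∫ v in Ioi (0:ℝ), g v) * (r c * (W0 : ℂ)) = (∫ v in Ioi (0:ℝ), q v * (W v : ℂ)) -
        ∫ v in Ioi (0:ℝ), (q v * (W v : ℂ) - g v * (r c * (W0 : ℂ))) := by
      rw [hsplit]; ring
    have h2 : ‖(∫ v in Ioi (0:ℝ), g v) * (r c * (W0 : ℂ))‖ ≤
        ‖∫ v in Ioi (0:ℝ), q v * (W v : ℂ)‖ +
        ‖∫ v in Ioi (0:ℝ), (q v * (W v : ℂ) - g v * (r c * (W0 : ℂ)))‖ := by
      rw [h1]
      exact norm_sub_le _ _
    have hW0n : ‖((W0 : ℝ) : ℂ)‖ = W0 := by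
      rw [Complex.norm_real, Real.norm_eq_abs, abs_of_nonneg (by linarith)]
    rw [norm_mul, norm_mul, hW0n] at h2
    have h3 : z0 * (K / 2) ≤ ‖∫ v in Ioi (0:ℝ), g v‖ * (‖r c‖ * W0) := by
      have hK0 : 0 ≤ K / 2 := by positivity
      calc z0 * (K / 2) = (K / 2) * (z0 * 1) := by ring
        _ ≤ ‖∫ v in Ioi (0:ℝ), g v‖ * (‖r c‖ * W0) := by gcongr
    linarith
  -- numerics
  have hfin : 2 * Z * (1 / α) + 2 * η * c <
      c * (z0 * (K / 2) - (B0 * (1 / α) + 2 * η)) := by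
    have hB1 : 8 * Z + 2 * Z / γ + 2 * Z1 = B0 + 6 * Z := by rw [hB0def]; ring
    rw [hB1] at hz0
    have h1 : (B0 + 6 * Z) * (1 / α) ≤ (B0 + 6 * Z) * (8 * t) := by gcongr
    have h2 : (B0 + 6 * Z) * (8 * t) ≤ z0 * √t := by
      calc (B0 + 6 * Z) * (8 * t) = 8 * (B0 + 6 * Z) * √t * √t := by
            rw [mul_assoc (8 * (B0 + 6 * Z)), hsqt2]; ring
        _ ≤ z0 * √t := by gcongr
    have h3 : z0 * (3.5 * √t) ≤ z0 * K := by gcongr
    have h4 : 0 < z0 * √t := by positivity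
    have h5 : 0 ≤ Z * (1 / α) := by positivity
    have h6 : 2 * Z * (1 / α) ≤ c * (4 * Z * (1 / α)) := by
      have : 0 ≤ 2 * Z * (1 / α) := by positivity
      nlinarith
    have h7 : 0 < z0 * (K / 2) - (B0 * (1 / α) + 2 * η) - 2 * η -
        4 * Z * (1 / α) := by
      nlinarith
    have h8 : 0 < c * (z0 * (K / 2) - (B0 * (1 / α) + 2 * η) - 2 * η -
        4 * Z * (1 / α)) := mul_pos hc0 h7
    nlinarith
  calc ∫ v in Ioi (0:ℝ), ‖q v‖ * W v * |v - c| ≤ 2 * Z * (1 / α) + 2 * η * c := hup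
    _ < c * (z0 * (K / 2) - (B0 * (1 / α) + 2 * η)) := hfin
    _ ≤ _ := by gcongr

end core

end Pool.Agent.H6
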