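import Mathlib
import Pool.Agent.H6.Concentration
import Pool.Agent.H6.CoreSmall

/-!
Concentration for small `t`.
-/

open Real MeasureTheory Set Filter Topology

namespace Pool.Agent.H6

/-- Concentration statement for small `t`. -/
theorem concentration_small {M x t p a Z Z1 z0 η : ℝ} {q r : ℝ → ℂ} (hM : 0 < M) (ht : 0 < t)
    (ht8 : t ≤ 1 / 100) (hp : 0 ≤ p) (ha0 : 0 ≤ a) (ha : a ≤ 3 / 4)
    (hZ : 0 ≤ Z) (hZ1 : 0 ≤ Z1) (hη0 : 0 ≤ η)
    (hη : 8 * η ≤ z0 * √t) (hz0 : 8 * (11 * Z + 2 * Z1) * √t ≤ z0)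
    (hz0pos : 0 < z0)
    (h0 : 1 ≤ 2 * t * (Real.log (M * ‖pt x 0‖) - 5 / 6))
    (hq : ∀ v, 0 ≤ v → q v = Gfun M x v * r v)
    (hr0 : ∀ c, 2 * t * (Real.log (M * ‖pt x 0‖) - 5 / 6) ≤ c → ∀ v, 0 ≤ v → v ≤ a →
      ‖r v‖ * Real.exp (-(1 / (4 * t) - 5 / 6) * (v - c) ^ 2) ≤ η)
    (hr1 : ∀ v, a ≤ v → ‖r v‖ ≤ Z)
    (hr2 : ∀ c, a ≤ c → ∀ v, a ≤ v → ‖r v - r c‖ ≤ Z1 * |v - c|)
    (hrc : ∀ c, 1 ≤ c → z0 ≤ ‖r c‖)
    (hqc : ContinuousOn q (Ici 0)) :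
    ∃ c : ℝ, 0 < c ∧
      (∫ v in Ioi (0:ℝ), ‖q v * ((Real.exp (-(v ^ 2 / (4 * t))) : ℝ) : ℂ)‖ *
        (Real.exp (p * v) + Real.exp (-(p * v))) * |v - c|) <
      c * ‖∫ v in Ioi (0:ℝ), q v * ((Real.exp (-(v ^ 2 / (4 * t))) : ℝ) : ℂ) *
        ((Real.exp (p * v) + Real.exp (-(p * v)) : ℝ) : ℂ)‖ := by
  have h0' : 0 < Real.log (M * ‖pt x 0‖) - 5 / 6 := by
    by_contra hcon
    have h1 : Real.log (M * ‖pt x 0‖) - 5 / 6 ≤ 0 := not_lt.mp hcon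
    have : 2 * t * (Real.log (M * ‖pt x 0‖) - 5 / 6) ≤ 0 :=
      mul_nonpos_of_nonneg_of_nonpos (by positivity) h1
    linarith
  obtain ⟨c, hcl, hpk⟩ := exists_peak (x := x) hM ht (by linarith) hp h0'
  have hc1 : 1 ≤ c := h0.trans hcl
  have hc0 : 0 < c := by linarith
  set s := pt x c with hs
  set b := (psi s).im with hb
  obtain ⟨Gc, hGc⟩ : ∃ G : ℂ,
    G = Gfun M x c * ((Real.exp (-(c ^ 2 / (4 * t)) + p * c) : ℝ) : ℂ) := ⟨_, rfl⟩
  have hGc0 : Gc ≠ 0 := by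
    rw [hGc]
    apply mul_ne_zero (Gfun_ne_zero hM hc0.le)
    exact_mod_cast (Real.exp_pos _).ne'
  set g : ℝ → ℂ := fun v =>
    Gfun M x v * ((Real.exp (-(v ^ 2 / (4 * t)) + p * v) : ℝ) : ℂ) / Gc with hgdef
  set Q : ℝ → ℂ := fun v =>
    q v * ((Real.exp (-(v ^ 2 / (4 * t)) + p * v) : ℝ) : ℂ) / Gc with hQdef
  have hg : ∀ v, 0 ≤ v → g v = Complex.exp (Complex.I * b * (v - c) - (v - c) ^ 2 / (4 * t) +
      rho s (v - c)) := by
    intro v hv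
    simp only [hgdef, hGc]
    rw [Gfun_shift hM hc0.le hv, div_eq_iff (by
      apply mul_ne_zero (Gfun_ne_zero hM hc0.le)
      exact_mod_cast (Real.exp_pos _).ne')]
    rw [Complex.ofReal_exp, Complex.ofReal_exp]
    have e : ∀ a b c d : ℂ, a * Complex.exp b * Complex.exp c =
        Complex.exp d * (a * Complex.exp (b + c - d)) := by
      intro a b c d
      rw [show Complex.exp d * (a * Complex.exp (b + c - d)) =
        a * (Complex.exp d * Complex.exp (b + c - d)) by ring, ← Complex.exp_add]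
      rw [mul_assoc, ← Complex.exp_add]
      congr 2
      ring
    rw [e _ _ _ (Complex.I * b * (v - c) - (v - c) ^ 2 / (4 * t) + rho s (v - c))]
    congr 3
    have h5 : psi (pt x c) = ((psi s).re : ℂ) + (b : ℂ) * Complex.I := by
      rw [hb, ← hs]; exact (Complex.re_add_im _).symm
    have h6 : ((psi s).re : ℂ) = ((c / (2 * t) - p - Real.log M : ℝ) : ℂ) := by
      congr 1
      rw [← hpk]; ring
    rw [h5, h6]
    push_cast
    have ht' : (t : ℂ) ≠ 0 := by exact_mod_cast ht.ne'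
    field_simp
    ring
  have hρ : ∀ v, 0 ≤ v → ‖rho s (v - c)‖ ≤ 5 / 6 * (v - c) ^ 2 := by
    intro v hv
    apply norm_rho_le
    · rw [hs, pt_re]; linarith
    · rw [hs, pt_re]; linarith
  have hbim : |b| ≤ π / 2 := abs_im_psi_le (by rw [hs, pt_re]; linarith)
  have hgc : ContinuousOn g (Ici 0) := by
    apply ContinuousOn.div_const
    apply (Gfun_continuousOn hM).mul
    exact (Complex.continuous_ofReal.comp (by fun_prop)).continuousOn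
  have hQc : ContinuousOn Q (Ici 0) := by
    apply ContinuousOn.div_const
    apply hqc.mul
    exact (Complex.continuous_ofReal.comp (by fun_prop)).continuousOn
  have hQ : ∀ v, 0 ≤ v → Q v = g v * r v := by
    intro v hv
    simp only [hQdef, hgdef]
    rw [hq v hv]
    ring
  have hcore := core_small (ρ := fun v => rho s (v - c)) (g := g) (q := Q) (r := r) ht ht8 ha0 ha
    hc1 hbim hp hZ hZ1 hη0 hη hz0 hz0pos hρ hg hQ (hr0 c hcl) hr1 (hr2 c (by linarith)) (hrc c hc1)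
    hgc hQc
  refine ⟨c, hc0, ?_⟩
  have hGn : 0 < ‖Gc‖ := norm_pos_iff.mpr hGc0
  have e1 : ∀ v : ℝ, Real.exp (-(v ^ 2 / (4 * t)) + p * v) * (1 + Real.exp (-(2 * p * v))) =
      Real.exp (-(v ^ 2 / (4 * t))) * (Real.exp (p * v) + Real.exp (-(p * v))) := by
    intro v
    rw [Real.exp_add, mul_assoc, mul_add, mul_one, ← Real.exp_add]
    congr 3
    ring
  have h7 : ∀ v : ℝ, ‖Q v‖ * (1 + Real.exp (-(2 * p * v))) * |v - c| =
      ‖Gc‖⁻¹ * (‖q v * ((Real.exp (-(v ^ 2 / (4 * t))) : ℝ) : ℂ)‖ *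
        (Real.exp (p * v) + Real.exp (-(p * v))) * |v - c|) := by
    intro v
    simp only [hQdef]
    rw [norm_div, norm_mul, norm_mul, Complex.norm_real, Complex.norm_real, Real.norm_eq_abs,
      Real.norm_eq_abs, abs_of_pos (Real.exp_pos _), abs_of_pos (Real.exp_pos _)]
    calc _ = ‖Gc‖⁻¹ * ‖q v‖ * (Real.exp (-(v ^ 2 / (4 * t)) + p * v) *
        (1 + Real.exp (-(2 * p * v)))) * |v - c| := by ring
      _ = _ := by rw [e1]; ring
  have h8 : ∀ v : ℝ, Q v * ((1 + Real.exp (-(2 * p * v)) : ℝ) : ℂ) =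
      Gc⁻¹ * (q v * ((Real.exp (-(v ^ 2 / (4 * t))) : ℝ) : ℂ) *
        ((Real.exp (p * v) + Real.exp (-(p * v)) : ℝ) : ℂ)) := by
    intro v
    simp only [hQdef]
    calc _ = Gc⁻¹ * q v * ((Real.exp (-(v ^ 2 / (4 * t)) + p * v) *
        (1 + Real.exp (-(2 * p * v))) : ℝ) : ℂ) := by push_cast; ring
      _ = _ := by rw [e1]; push_cast; ring
  simp_rw [h7, h8] at hcore
  rw [integral_const_mul, integral_const_mul, norm_mul, norm_inv] at hcore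
  have h9 := mul_lt_mul_of_pos_left hcore hGn
  have hG1 : ‖Gc‖ * ‖Gc‖⁻¹ = 1 := mul_inv_cancel₀ hGn.ne'
  rw [← mul_assoc, hG1, one_mul] at h9
  refine lt_of_lt_of_le h9 (le_of_eq ?_)
  calc _ = c * (‖Gc‖ * ‖Gc‖⁻¹) * ‖∫ v in Ioi (0:ℝ), q v *
        ((Real.exp (-(v ^ 2 / (4 * t))) : ℝ) : ℂ) *
        ((Real.exp (p * v) + Real.exp (-(p * v)) : ℝ) : ℂ)‖ := by ring
    _ = _ := by rw [hG1, mul_one]

/-- the exponent estimate in the strip -/
lemma strip_exponent {t a ε1 lam mu c v : ℝ} (ht : 0 < t) (ht8 : t ≤ 1 / 100) (ha : 1 / 2 ≤ a)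
    (ha1 : a ≤ 3 / 4) (hε1 : 0 < ε1) (hmu : mu = lam - 5 / 6) (h1 : 2 * a + 2 * ε1 ≤ 2 * t * mu)
    (h2 : 2 * t * mu ≤ 9) (hc : 2 * t * mu ≤ c) (hv : 0 ≤ v) (hva : v ≤ a) :
    lam * (a - v) + -(1 / (4 * t) - 5 / 6) * (v - c) ^ 2 ≤ 69 - ε1 / (2 * t) := by
  set α := 1 / (4 * t) - 5 / 6 with hα
  have hα0 : 0 < α := by
    have : 25 ≤ 1 / (4 * t) := by
      rw [le_div_iff₀ (by positivity)]; linarith
    rw [hα]; linarith
  set c1 := 2 * t * mu with hc1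
  have hc1v : 0 ≤ c1 - v := by linarith
  have h3 : (c1 - v) ^ 2 ≤ (v - c) ^ 2 := by
    have : (v - c) ^ 2 = (c - v) ^ 2 := by ring
    rw [this]
    gcongr
  have h4 : α * (c1 - v) ^ 2 ≤ α * (v - c) ^ 2 := by gcongr
  have h5 : (c1 - v) ^ 2 ≤ 81 := by nlinarith
  have h6 : α * (c1 - v) ^ 2 = (c1 - v) ^ 2 / (4 * t) - 5 / 6 * (c1 - v) ^ 2 := by
    rw [hα]; ring
  have h7 : (c1 - v) ^ 2 / (4 * t) = t * mu ^ 2 - mu * v + v ^ 2 / (4 * t) := by
    rw [hc1]; field_simp; ring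
  have h8 : 0 ≤ v ^ 2 / (4 * t) := by positivity
  have htmu : a + ε1 ≤ t * mu := by linarith
  have hmu0 : 1 / (2 * t) ≤ mu := by
    rw [div_le_iff₀ (by positivity)]
    nlinarith
  have h9 : 0 < 1 / (2 * t) := by positivity
  have h10 : ε1 / (2 * t) ≤ mu * (t * mu - a) := by
    calc ε1 / (2 * t) = 1 / (2 * t) * ε1 := by ring
      _ ≤ mu * (t * mu - a) := by
        apply mul_le_mul hmu0 (by linarith) hε1.le (by linarith)
  have h11 : lam = mu + 5 / 6 := by linarith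
  rw [h11]
  nlinarith

end Pool.Agent.H6
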