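import Mathlib
import Pool.Agent.H6.StripBound
import Pool.Agent.H6.HeatZero

/-!
Convexity bound in the strip `1 - a ≤ Re s ≤ 1 + a`.
-/

open Real MeasureTheory Set Filter Topology Asymptotics

namespace Pool.Agent.H6

/-- `|Γ(z)|² ≤ e^{5a²/3} |Γ(z+a) Γ(z-a)|` -/
lemma norm_Gamma_sq_le {z : ℂ} {a : ℝ} (ha : 0 ≤ a) (hz : 1 ≤ z.re - a) :
    ‖Complex.Gamma z‖ ^ 2 ≤ Real.exp (5 / 3 * a ^ 2) *
      (‖Complex.Gamma (z + a)‖ * ‖Complex.Gamma (z - a)‖) := by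
  have hz1 : 1 ≤ z.re := by linarith
  have e1 := gamma_shift (s := z) (u := a) hz1 (by linarith)
  have e2 := gamma_shift (s := z) (u := -a) hz1 (by linarith)
  have e3 : z + ((-a : ℝ) : ℂ) = z - a := by push_cast; ring
  rw [e3] at e2
  rw [e1, e2, norm_mul, norm_mul, Complex.norm_exp, Complex.norm_exp]
  have r1 := norm_rho_le (s := z) (u := a) hz1 (by linarith)
  have r2 := norm_rho_le (s := z) (u := -a) hz1 (by linarith)
  have r1' := (abs_le.mp (Complex.abs_re_le_norm (rho z a))).1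
  have r2' := (abs_le.mp (Complex.abs_re_le_norm (rho z (-a)))).1
  have h1 : 0 ≤ 5 / 3 * a ^ 2 + ((((a : ℝ) : ℂ) * psi z + rho z a).re +
      (((-a : ℝ) : ℂ) * psi z + rho z (-a)).re) := by
    rw [Complex.add_re, Complex.add_re, Complex.re_ofReal_mul, Complex.re_ofReal_mul]
    nlinarith
  have h2 : 1 ≤ Real.exp (5 / 3 * a ^ 2) * (Real.exp ((((a : ℝ) : ℂ) * psi z + rho z a).re) *
      Real.exp ((((-a : ℝ) : ℂ) * psi z + rho z (-a)).re)) := by
    rw [← Real.exp_add, ← Real.exp_add]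
    exact Real.one_le_exp h1
  have h3 := sq_nonneg ‖Complex.Gamma z‖
  calc ‖Complex.Gamma z‖ ^ 2 = ‖Complex.Gamma z‖ ^ 2 * 1 := by ring
    _ ≤ ‖Complex.Gamma z‖ ^ 2 * (Real.exp (5 / 3 * a ^ 2) *
        (Real.exp ((((a : ℝ) : ℂ) * psi z + rho z a).re) *
      Real.exp ((((-a : ℝ) : ℂ) * psi z + rho z (-a)).re))) := by gcongr
    _ = _ := by ring

/-- The convexity bound. -/
theorem strip_bound_a {M : ℝ} (hM : 0 < M) {Λ L : ℂ → ℂ} {w : ℂ} (hw : ‖w‖ = 1)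
    (hΛ : Differentiable ℂ Λ) (hFE : ∀ s, Λ (2 - s) = w * Λ s) {a Z : ℝ} (ha : 0 < a) (ha1 : a ≤ 1)
    (hL : ∀ s : ℂ, 1 + a ≤ s.re → Λ s = (M : ℂ) ^ s * Complex.Gamma s * L s)
    (hZ : ∀ s : ℂ, 1 + a ≤ s.re → ‖L s‖ ≤ Z)
    (hbdd : ∃ C, ∀ s : ℂ, 0 ≤ s.re → s.re ≤ 2 → ‖Λ s‖ ≤ C) {s : ℂ} (h0 : 1 - a ≤ s.re)
    (h2 : s.re ≤ 1 + a) :
    ‖Λ s‖ ^ 2 ≤ Z ^ 2 * (M ^ (1 + a)) ^ 2 * Real.exp (5 / 3 * a ^ 2) *
      (‖Complex.Gamma (s + a)‖ * ‖Complex.Gamma (2 + a - s)‖) := by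
  obtain ⟨C, hC⟩ := hbdd
  have hZ0 : 0 ≤ Z := (norm_nonneg _).trans (hZ ((1 + a : ℝ) : ℂ) (by simp))
  set B : ℝ := Z ^ 2 * (M ^ (1 + a)) ^ 2 * Real.exp (5 / 3 * a ^ 2) with hB
  have hB0 : 0 ≤ B := by positivity
  set f : ℂ → ℂ := fun s => Λ s ^ 2 * ((Complex.Gamma (s + a))⁻¹ * (Complex.Gamma (2 + a - s))⁻¹)
    with hf
  have hdiff : Differentiable ℂ f := by
    apply (hΛ.pow 2).mul
    apply Differentiable.mul
    · exact Complex.differentiable_one_div_Gamma.comp (differentiable_id.add_const _)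
    · exact Complex.differentiable_one_div_Gamma.comp (differentiable_id.const_sub _)
  -- bound on the line Re = 1 + a
  have hline : ∀ z : ℂ, z.re = 1 + a → ‖Λ z‖ ^ 2 ≤
      B * (‖Complex.Gamma (z + a)‖ * ‖Complex.Gamma (2 + a - z)‖) := by
    intro z hz
    have e3 : ‖Complex.Gamma (2 + a - z)‖ = ‖Complex.Gamma (z - a)‖ := by
      have : 2 + a - z = (starRingEnd ℂ) (z - a) := by
        apply Complex.ext
        · simp [hz]; ring
        · simp
      rw [this, Complex.Gamma_conj, Complex.norm_conj]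
    have hcp : ‖(M : ℂ) ^ z‖ = M ^ (1 + a) := by
      rw [Complex.norm_cpow_eq_rpow_re_of_pos hM, hz]
    have h5 : ‖Λ z‖ ≤ M ^ (1 + a) * ‖Complex.Gamma z‖ * Z := by
      rw [hL z hz.ge, norm_mul, norm_mul, hcp]
      gcongr
      exact hZ z hz.ge
    have h6 := norm_Gamma_sq_le (z := z) ha.le (by rw [hz]; linarith)
    calc ‖Λ z‖ ^ 2 ≤ (M ^ (1 + a) * ‖Complex.Gamma z‖ * Z) ^ 2 := by gcongr
      _ = Z ^ 2 * (M ^ (1 + a)) ^ 2 * ‖Complex.Gamma z‖ ^ 2 := by ring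
      _ ≤ Z ^ 2 * (M ^ (1 + a)) ^ 2 * (Real.exp (5 / 3 * a ^ 2) *
          (‖Complex.Gamma (z + a)‖ * ‖Complex.Gamma (z - a)‖)) := by gcongr
      _ = _ := by rw [e3, hB]; ring
  have hline0 : ∀ z : ℂ, z.re = 1 - a → ‖Λ z‖ ^ 2 ≤
      B * (‖Complex.Gamma (z + a)‖ * ‖Complex.Gamma (2 + a - z)‖) := by
    intro z hz
    have h5 := hline (2 - z) (by simp [hz]; ring)
    have e1 : (2 - z) + a = 2 + a - z := by ring
    have e2 : 2 + a - (2 - z) = z + a := by ring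
    rw [hFE, norm_mul, hw, one_mul, e1, e2] at h5
    linarith
  -- from product bound to f bound
  have htrans : ∀ z : ℂ, 1 - a ≤ z.re → z.re ≤ 1 + a → (‖f z‖ ≤ B ↔ ‖Λ z‖ ^ 2 ≤
      B * (‖Complex.Gamma (z + a)‖ * ‖Complex.Gamma (2 + a - z)‖)) := by
    intro z hz0 hz2
    have g1 : 0 < ‖Complex.Gamma (z + a)‖ := norm_pos_iff.mpr
      (Complex.Gamma_ne_zero_of_re_pos (by simp; linarith))
    have g2 : 0 < ‖Complex.Gamma (2 + a - z)‖ := norm_pos_iff.mpr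
      (Complex.Gamma_ne_zero_of_re_pos (by simp; linarith))
    simp only [hf]
    rw [norm_mul, norm_pow, norm_mul, norm_inv, norm_inv, ← mul_inv, ← div_eq_mul_inv,
      div_le_iff₀ (by positivity)]
  have hmain : ‖f s‖ ≤ B := by
    apply PhragmenLindelof.vertical_strip (a := 1 - a) (b := 1 + a) hdiff.diffContOnCl _ _ _ h0 h2
    · refine ⟨1, ?_, 2 * π, ?_⟩
      · have := Real.pi_gt_three
        rw [lt_div_iff₀ (by linarith)]
        linarith
      · apply IsBigO.of_bound (C ^ 2)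
        rw [Filter.eventually_inf_principal, Filter.eventually_comap]
        filter_upwards [eventually_ge_atTop (1:ℝ)] with y hy z hz hzs
        have hz1 : 1 ≤ |z.im| := by
          have : |z.im| = y := hz
          rw [this]; exact hy
        have hzs' : 1 - a < z.re ∧ z.re < 1 + a := hzs
        have a1 := norm_inv_Gamma_le (z := z + a) (by simp; linarith [hzs'.1])
          (by simp; linarith [hzs'.2]) (by simpa using hz1)
        have a2 := norm_inv_Gamma_le (z := 2 + a - z) (by simp; linarith [hzs'.2])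
          (by simp; linarith [hzs'.1]) (by simpa using hz1)
        have e1 : |(z + a).im| = |z.im| := by simp
        have e2 : |(2 + a - z).im| = |z.im| := by simp
        rw [e1] at a1
        rw [e2] at a2
        have a3 := hC z (by linarith [hzs'.1]) (by linarith [hzs'.2])
        have a4 : ‖f z‖ ≤ C ^ 2 * (Real.exp (π * |z.im|) * Real.exp (π * |z.im|)) := by
          simp only [hf]
          rw [norm_mul, norm_pow, norm_mul]
          gcongr
        have hCsq : 0 ≤ C ^ 2 := sq_nonneg C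
        refine a4.trans ?_
        apply mul_le_mul_of_nonneg_left _ hCsq
        rw [← Real.exp_add, Real.norm_eq_abs, abs_of_pos (Real.exp_pos _)]
        apply Real.exp_le_exp.mpr
        have h8 : |z.im| ≤ Real.exp (1 * |z.im|) := by
          have := Real.add_one_le_exp |z.im|
          rw [one_mul]
          linarith
        have := Real.pi_pos
        nlinarith
    · intro z hz
      exact (htrans z (by rw [hz]) (by rw [hz]; linarith)).mpr (hline0 z hz)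
    · intro z hz
      exact (htrans z (by rw [hz]; linarith) (by rw [hz])).mpr (hline z hz)
  exact (htrans s h0 h2).mp hmain

/-- size of `Λ` relative to the main factor, inside the strip -/
lemma ratio_bound_a {M : ℝ} (hM : 0 < M) {Λ L : ℂ → ℂ} {w : ℂ} (hw : ‖w‖ = 1)
    (hΛ : Differentiable ℂ Λ) (hFE : ∀ s, Λ (2 - s) = w * Λ s) {a Z : ℝ} (ha : 0 < a) (ha1 : a ≤ 1)
    (hL : ∀ s : ℂ, 1 + a ≤ s.re → Λ s = (M : ℂ) ^ s * Complex.Gamma s * L s)
    (hZ : ∀ s : ℂ, 1 + a ≤ s.re → ‖L s‖ ≤ Z)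
    (hbdd : ∃ C, ∀ s : ℂ, 0 ≤ s.re → s.re ≤ 2 → ‖Λ s‖ ≤ C) {x v : ℝ} (hv0 : 0 ≤ v)
    (hv1 : v ≤ a) :
    ‖Λ (pt x v)‖ ≤ Z * Real.exp (5 / 2) * (M * ‖pt x v‖) ^ (a - v) * ‖Gfun M x v‖ := by
  have hZ0 : 0 ≤ Z := (norm_nonneg _).trans (hZ ((1 + a : ℝ) : ℂ) (by simp))
  set s := pt x v with hs
  have hsre : s.re = 1 + v := pt_re x v
  have hs1 : 1 ≤ s.re := by rw [hsre]; linarith
  have hsn : 1 ≤ ‖s‖ := hs1.trans (Complex.re_le_norm s)
  have hsn0 : 0 < ‖s‖ := by linarith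
  have hstrip := strip_bound_a hM hw hΛ hFE ha ha1 hL hZ hbdd (s := s) (by rw [hsre]; linarith)
    (by rw [hsre]; linarith)
  have hshift : ∀ u : ℝ, |u| ≤ a → 1 ≤ s.re + u →
      ‖Complex.Gamma (s + u)‖ ≤ ‖Complex.Gamma s‖ * (‖s‖ ^ u * Real.exp (5 / 3)) := by
    intro u habsu hsu
    rw [gamma_shift hs1 hsu, norm_mul, Complex.norm_exp]
    apply mul_le_mul_of_nonneg_left _ (norm_nonneg _)
    rw [Real.rpow_def_of_pos hsn0, ← Real.exp_add]
    apply Real.exp_le_exp.mpr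
    rw [Complex.add_re, Complex.re_ofReal_mul]
    have h1 := norm_rho_le hs1 hsu
    have h2 := (Complex.re_le_norm (rho s u))
    have h3 := abs_re_psi_sub_log_le hs1
    have habs1 : |u| ≤ 1 := habsu.trans ha1
    have h4 : u * ((psi s).re - Real.log ‖s‖) ≤ 1 * (5 / 6) := by
      calc _ ≤ |u * ((psi s).re - Real.log ‖s‖)| := le_abs_self _
        _ = |u| * |(psi s).re - Real.log ‖s‖| := abs_mul _ _
        _ ≤ 1 * (5 / 6) := by gcongr
    have h5 : u ^ 2 ≤ 1 := by rw [← sq_abs]; nlinarith [abs_nonneg u]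
    nlinarith
  have g1 := hshift a (by rw [abs_of_pos ha]) (by linarith)
  have e2 : ‖Complex.Gamma (2 + a - s)‖ = ‖Complex.Gamma (s + ((a - 2 * v : ℝ) : ℂ))‖ := by
    have : 2 + a - s = (starRingEnd ℂ) (s + ((a - 2 * v : ℝ) : ℂ)) := by
      apply Complex.ext
      · simp [hsre]; ring
      · simp
    rw [this, Complex.Gamma_conj, Complex.norm_conj]
  have g2 := hshift (a - 2 * v) (by rw [abs_le]; constructor <;> linarith)
    (by rw [hsre]; linarith)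
  rw [← e2] at g2
  have hMs0 : 0 < M * ‖s‖ := by positivity
  have hgoal : ‖Λ s‖ ^ 2 ≤ (Z * Real.exp (5 / 2) * (M * ‖s‖) ^ (a - v) * ‖Gfun M x v‖) ^ 2 := by
    refine hstrip.trans ?_
    have hexp : Real.exp (5 / 3 * a ^ 2) ≤ Real.exp (5 / 3) := by
      apply Real.exp_le_exp.mpr
      nlinarith
    rw [norm_Gfun_sq hM, ← hs]
    have e5 : (M * ‖s‖) ^ (a - v) = M ^ (a - v) * ‖s‖ ^ (a - v) := Real.mul_rpow hM.le hsn0.le
    have e6 : M ^ (1 + a) = M ^ (a - v) * M ^ (1 + v) := by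
      rw [← Real.rpow_add hM]; congr 1; ring
    have e7 : ‖s‖ ^ (a - v) * ‖s‖ ^ (a - v) = ‖s‖ ^ a * ‖s‖ ^ (a - 2 * v) := by
      rw [← Real.rpow_add hsn0, ← Real.rpow_add hsn0]; congr 1; ring
    have e8 : Real.exp (5 / 2) ^ 2 = Real.exp (5 / 3) * (Real.exp (5 / 3) * Real.exp (5 / 3)) := by
      rw [← Real.exp_add, ← Real.exp_add, ← Real.exp_nat_mul]; congr 1; norm_num
    calc Z ^ 2 * (M ^ (1 + a)) ^ 2 * Real.exp (5 / 3 * a ^ 2) *
        (‖Complex.Gamma (s + a)‖ * ‖Complex.Gamma (2 + a - s)‖)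
        ≤ Z ^ 2 * (M ^ (1 + a)) ^ 2 * Real.exp (5 / 3) *
          ((‖Complex.Gamma s‖ * (‖s‖ ^ a * Real.exp (5 / 3))) *
            (‖Complex.Gamma s‖ * (‖s‖ ^ (a - 2 * v) * Real.exp (5 / 3)))) := by gcongr
      _ = Z ^ 2 * (M ^ (1 + a)) ^ 2 * (Real.exp (5 / 3) * (Real.exp (5 / 3) * Real.exp (5 / 3))) *
          (‖s‖ ^ a * ‖s‖ ^ (a - 2 * v)) * ‖Complex.Gamma s‖ ^ 2 := by ring
      _ = Z ^ 2 * (M ^ (a - v) * M ^ (1 + v)) ^ 2 * Real.exp (5 / 2) ^ 2 *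
          (‖s‖ ^ (a - v) * ‖s‖ ^ (a - v)) * ‖Complex.Gamma s‖ ^ 2 := by rw [e6, e7, e8]
      _ = _ := by rw [e5]; ring
  exact le_of_sq_le_sq hgoal (by positivity)

end Pool.Agent.H6
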