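import Mathlib
import Pool.Agent.H6.StripBoundA
import Pool.Agent.H6.ConcSmall
import Pool.Agent.H6.HeatSimple

/-!
Sharp range for the zeros of the heat-flow deformation.
-/

open Real MeasureTheory Set Filter Topology

namespace Pool.Agent.H6

namespace FEData

variable {M : ℝ} {Λ L : ℂ → ℂ} {w : ℂ}

/-- concentration of the half line integrals at height `x` for all tilts -/
def Conc (Λ : ℂ → ℂ) (t x : ℝ) : Prop := ∀ p : ℝ, 0 ≤ p → ∃ c : ℝ, 0 < c ∧
      (∫ v in Ioi (0:ℝ), ‖Λ (pt x v) * ((Real.exp (-(v ^ 2 / (4 * t))) : ℝ) : ℂ)‖ *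
        (Real.exp (p * v) + Real.exp (-(p * v))) * |v - c|) <
      c * ‖∫ v in Ioi (0:ℝ), Λ (pt x v) * ((Real.exp (-(v ^ 2 / (4 * t))) : ℝ) : ℂ) *
        ((Real.exp (p * v) + Real.exp (-(p * v)) : ℝ) : ℂ)‖

lemma half_lt_of_conc (D : FEData M Λ L w) {t : ℝ} (ht : 0 < t) (ht8 : t ≤ 1 / 8) {x p : ℝ}
    (hp : 0 < p) (hconc : Conc Λ t x) :
    ‖halfInt t Λ x (-p)‖ < ‖halfInt t Λ x p‖ := by
  obtain ⟨c, hc0, hc⟩ := hconc p hp.le
  have hI := D.integrableOn_one x ht ht8 p
  have hI' := D.integrableOn_one x ht ht8 (-p)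
  have hI'' : IntegrableOn (fun v : ℝ => Λ (pt x v) *
      ((Real.exp (-(v ^ 2 / (4 * t))) : ℝ) : ℂ) * ((Real.exp (-(p * v)) : ℝ) : ℂ)) (Ioi 0) := by
    refine hI'.congr ?_
    filter_upwards with v
    rw [neg_mul]
  have hI1 : IntegrableOn (fun v : ℝ => ‖Λ (pt x v) *
      ((Real.exp (-(v ^ 2 / (4 * t))) : ℝ) : ℂ)‖ *
      (Real.exp (p * v) + Real.exp (-(p * v))) * |v - c|) (Ioi 0) := by
    have hW : ∀ v : ℝ, ‖(((v - c : ℝ)) : ℂ)‖ ≤ (1 + |c|) * (1 + |v|) := by
      intro v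
      rw [Complex.norm_real, Real.norm_eq_abs]
      have := abs_sub v c
      have h3 := abs_nonneg v
      have h4 := abs_nonneg c
      nlinarith
    have a1 := (D.integrableOn_weight x ht ht8 p
      (W := fun v : ℝ => (((v - c : ℝ)) : ℂ)) (by fun_prop) hW).norm
    have a2 := (D.integrableOn_weight x ht ht8 (-p)
      (W := fun v : ℝ => (((v - c : ℝ)) : ℂ)) (by fun_prop) hW).norm
    refine (a1.add a2).congr ?_
    filter_upwards with v
    simp only [Pi.add_apply, norm_mul, Complex.norm_real, Real.norm_eq_abs,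
      abs_of_pos (Real.exp_pos _), neg_mul]
    ring
  have hcmp := comparison (V := fun v : ℝ => Λ (pt x v) *
      ((Real.exp (-(v ^ 2 / (4 * t))) : ℝ) : ℂ)) hp hc0 hI hI'' hI1 hc
  unfold halfInt
  refine lt_of_eq_of_lt ?_ hcmp
  congr 1
  apply integral_congr_ae
  filter_upwards with v
  rw [neg_mul]

theorem zero_re_of_conc (D : FEData M Λ L w) {t : ℝ} (ht : 0 < t) (ht8 : t ≤ 1 / 8) {s : ℂ}
    (hs : heatInt t Λ s = 0) (hconc : Conc Λ t s.im) : s.re = 1 := by
  rw [D.heatInt_eq ht ht8] at hs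
  have hne : ((Real.exp (-((s.re - 1) ^ 2 / (4 * t))) : ℝ) : ℂ) ≠ 0 := by
    exact_mod_cast (Real.exp_pos _).ne'
  have h1 := (mul_eq_zero.mp hs).resolve_left hne
  have h2 : ‖halfInt t Λ s.im ((s.re - 1) / (2 * t))‖ =
      ‖halfInt t Λ s.im (-((s.re - 1) / (2 * t)))‖ := by
    have h3 : halfInt t Λ s.im ((s.re - 1) / (2 * t)) =
        -(w * (starRingEnd ℂ) (halfInt t Λ s.im (-((s.re - 1) / (2 * t))))) :=
      eq_neg_of_add_eq_zero_left h1
    rw [h3, norm_neg, norm_mul, D.norm_w, one_mul, Complex.norm_conj]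
  by_contra hne1
  rcases lt_or_gt_of_ne hne1 with hlt | hgt
  · have hp : 0 < -((s.re - 1) / (2 * t)) := by
      rw [← neg_div]
      apply div_pos <;> linarith
    have := D.half_lt_of_conc ht ht8 hp hconc
    rw [neg_neg] at this
    linarith
  · have hp : 0 < (s.re - 1) / (2 * t) := by
      apply div_pos <;> linarith
    have := D.half_lt_of_conc ht ht8 hp hconc
    linarith

theorem zero_simple_of_conc (D : FEData M Λ L w) {t : ℝ} (ht : 0 < t) (ht8 : t ≤ 1 / 8) {s : ℂ}
    (hs : heatInt t Λ s = 0) (hconc : Conc Λ t s.im) :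
    deriv (heatInt t Λ) s ≠ 0 := by
  have hre := D.zero_re_of_conc ht ht8 hs hconc
  have hspt : s = pt s.im 0 := by
    apply Complex.ext
    · simp [pt, hre]
    · simp [pt]
  set x := s.im with hx
  have hptv : ∀ v : ℝ, s + v = pt x v := by
    intro v
    rw [hspt]
    unfold pt
    push_cast
    ring
  obtain ⟨c, hc0, hc⟩ := hconc 0 le_rfl
  have hI := D.integrableOn_one x ht ht8 0
  have hI2 := D.integrableOn_weight x ht ht8 0 (W := fun v : ℝ => (v : ℂ)) (by fun_prop) (C := 1)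
    (by
      intro v
      rw [Complex.norm_real, Real.norm_eq_abs]
      linarith)
  set V : ℝ → ℂ := fun v => Λ (pt x v) * gw t v with hV
  have hIV : IntegrableOn V (Ioi 0) := by
    refine hI.congr ?_
    filter_upwards with v
    simp [hV, gw]
  have hIV2 : IntegrableOn (fun v => V v * (v : ℂ)) (Ioi 0) := by
    refine hI2.congr ?_
    filter_upwards with v
    simp [hV, gw]
  have hcomp := comparison_zero (V := V) (c := c) hIV hIV2 (by
    have e1 : ∫ v in Ioi (0:ℝ), ‖Λ (pt x v) * ((Real.exp (-(v ^ 2 / (4 * t))) : ℝ) : ℂ)‖ *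
        (Real.exp (0 * v) + Real.exp (-(0 * v))) * |v - c| =
        2 * ∫ v in Ioi (0:ℝ), ‖V v‖ * |v - c| := by
      rw [← integral_const_mul]
      apply integral_congr_ae
      filter_upwards with v
      simp only [zero_mul, neg_zero, Real.exp_zero, hV, gw]
      ring
    have e2 : ∫ v in Ioi (0:ℝ), Λ (pt x v) * ((Real.exp (-(v ^ 2 / (4 * t))) : ℝ) : ℂ) *
        ((Real.exp (0 * v) + Real.exp (-(0 * v)) : ℝ) : ℂ) = 2 * ∫ v in Ioi (0:ℝ), V v := by
      rw [← integral_const_mul]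
      apply integral_congr_ae
      filter_upwards with v
      simp only [zero_mul, neg_zero, Real.exp_zero, hV, gw]
      push_cast
      ring
    rw [e1, e2, norm_mul] at hc
    have e3 : ‖(2:ℂ)‖ = 2 := by simp
    rw [e3] at hc
    linarith)
  set K := ∫ v in Ioi (0:ℝ), V v with hK
  set K1 := ∫ v in Ioi (0:ℝ), V v * (v : ℂ) with hK1
  have hz : K + w * (starRingEnd ℂ) K = 0 := by
    rw [D.heatInt_eq ht ht8] at hs
    have hne : ((Real.exp (-((s.re - 1) ^ 2 / (4 * t))) : ℝ) : ℂ) ≠ 0 := by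
      exact_mod_cast (Real.exp_pos _).ne'
    have h1 := (mul_eq_zero.mp hs).resolve_left hne
    have e : halfInt t Λ x 0 = K := by
      unfold halfInt
      rw [hK]
      apply integral_congr_ae
      filter_upwards with v
      simp [hV, gw]
    have e0 : (s.re - 1) / (2 * t) = 0 := by rw [hre]; simp
    rw [e0, neg_zero, ← hx, e] at h1
    exact h1
  intro hder
  rw [(D.hasDerivAt_heatInt ht ht8 s).deriv] at hder
  have ht2 : ((1 / (2 * t) : ℝ) : ℂ) ≠ 0 := by
    have : (1 / (2 * t) : ℝ) ≠ 0 := by positivity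
    exact_mod_cast this
  have hder' := (mul_eq_zero.mp hder).resolve_left ht2
  have hz1 : K1 - w * (starRingEnd ℂ) K1 = 0 := by
    rw [← hder']
    set F : ℝ → ℂ := fun v => V v * (v : ℂ) with hF
    have hFeq : (fun v : ℝ => Λ (s + v) * gw t v * (v : ℂ)) = F := by
      funext v
      rw [hptv v]
    have hrefl : ∀ v : ℝ, F (-v) = -(w * (starRingEnd ℂ) (F v)) := by
      intro v
      simp only [hF, hV]
      rw [D.reflect]
      have e1 : gw t (-v) = gw t v := by unfold gw; rw [neg_sq]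
      have e2 : (starRingEnd ℂ) (gw t v) = gw t v := by unfold gw; exact Complex.conj_ofReal _
      rw [e1, map_mul, map_mul, e2, Complex.conj_ofReal]
      push_cast
      ring
    have hFi : Integrable F := by
      rw [← integrableOn_univ, ← Iic_union_Ioi (a := (0:ℝ))]
      refine IntegrableOn.union ?_ hIV2
      have h1 : IntegrableOn (fun v => F (-v)) (Ioi 0) := by
        have h2 : IntegrableOn (fun v => -(w * (starRingEnd ℂ) (F v))) (Ioi 0) := by
          have h3 : IntegrableOn (fun v => (starRingEnd ℂ) (F v)) (Ioi 0) := by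
            have := Complex.conjCLE.toContinuousLinearMap.integrable_comp hIV2
            exact this
          exact (h3.const_mul w).neg
        refine h2.congr ?_
        filter_upwards with v
        rw [hrefl v]
      have h4 := (integrableOn_Iic_iff_integrableOn_Iio (f := F) (b := (0:ℝ)) (μ := volume))
      rw [h4]
      have h5 := h1.comp_neg
      simpa using h5
    have hsplit : ∫ v : ℝ, F v = (∫ v in Iic (0:ℝ), F v) + ∫ v in Ioi (0:ℝ), F v := by
      have := integral_add_compl (measurableSet_Iic (a := (0:ℝ))) hFi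
      rw [← this]
      simp
    have h6 : ∫ v in Iic (0:ℝ), F v = ∫ v in Ioi (0:ℝ), F (-v) := by
      rw [integral_comp_neg_Ioi, neg_zero]
    have h7 : ∫ v in Ioi (0:ℝ), F (-v) = -(w * (starRingEnd ℂ) K1) := by
      rw [hK1, ← integral_conj, ← integral_const_mul, ← integral_neg]
      apply integral_congr_ae
      filter_upwards with v
      exact hrefl v
    rw [hFeq, hsplit, h6, h7]
    ring
  have hwc : (starRingEnd ℂ) w = w := by rcases D.sign with h | h <;> simp [h]
  have hw2 : w * w = 1 := by rcases D.sign with h | h <;> simp [h]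
  have h1 : (starRingEnd ℂ) K = -(w * K) := by
    have h2 : w * (starRingEnd ℂ) K = -K := by linear_combination hz
    calc (starRingEnd ℂ) K = (w * w) * (starRingEnd ℂ) K := by rw [hw2, one_mul]
      _ = w * (w * (starRingEnd ℂ) K) := by ring
      _ = _ := by rw [h2]; ring
  have h2 : (starRingEnd ℂ) K1 = w * K1 := by
    have h3 : w * (starRingEnd ℂ) K1 = K1 := by linear_combination -hz1
    calc (starRingEnd ℂ) K1 = (w * w) * (starRingEnd ℂ) K1 := by rw [hw2, one_mul]
      _ = w * (w * (starRingEnd ℂ) K1) := by ring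
      _ = _ := by rw [h3]
  have h3 : (starRingEnd ℂ) (K1 * (starRingEnd ℂ) K) = -(K1 * (starRingEnd ℂ) K) := by
    rw [map_mul, Complex.conj_conj, h2, h1]
    ring
  have h4 : (K1 * (starRingEnd ℂ) K).re = 0 := by
    have := congrArg Complex.re h3
    rw [Complex.conj_re, Complex.neg_re] at this
    linarith
  rw [h4] at hcomp
  exact lt_irrefl _ hcomp

end FEData

/-- Uniform bounds for the Dirichlet series on `Re s ≥ 1 + a`. -/
structure UniData (M a Z Z1 z0 : ℝ) (Λ L : ℂ → ℂ) : Prop where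
  eqL : ∀ s : ℂ, 1 + a ≤ s.re → Λ s = (M : ℂ) ^ s * Complex.Gamma s * L s
  bound : ∀ s : ℂ, 1 + a ≤ s.re → ‖L s‖ ≤ Z
  lip : ∀ x c v : ℝ, a ≤ c → a ≤ v → ‖L (pt x v) - L (pt x c)‖ ≤ Z1 * |v - c|
  low : ∀ s : ℂ, 2 ≤ s.re → z0 ≤ ‖L s‖

/-- smallness of `t` needed in the sharp range -/
def SmallT (Z Z1 z0 ε1 t : ℝ) : Prop :=
  t ≤ 1 / 100 ∧ 8 * (11 * Z + 2 * Z1) * √t ≤ z0 ∧
    8 * (2 * Z * Real.exp (5 / 2) * Real.exp (69 - ε1 / (2 * t))) ≤ z0 * √t

/-- concentration in the sharp range -/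
theorem conc_sharp {M a Z Z1 z0 ε1 : ℝ} {Λ L : ℂ → ℂ} {w : ℂ} (D : FEData M Λ L w)
    (U : UniData M a Z Z1 z0 Λ L) (ha : 1 / 2 ≤ a) (ha1 : a ≤ 3 / 4) (hZ1 : 0 ≤ Z1)
    (hz0 : 0 < z0) (hε1 : 0 < ε1) {t x : ℝ} (ht : 0 < t) (hts : SmallT Z Z1 z0 ε1 t)
    (h1 : 2 * a + 2 * ε1 ≤ 2 * t * (Real.log (M * ‖pt x 0‖) - 5 / 6))
    (h2 : 2 * t * (Real.log (M * ‖pt x 0‖) - 5 / 6) ≤ 9) : FEData.Conc Λ t x := by
  intro p hp
  obtain ⟨ht8, hs1, hs2⟩ := hts
  have hM := D.M_pos
  have hZ : 0 ≤ Z := (norm_nonneg _).trans (U.bound ((1 + a : ℝ) : ℂ) (by simp))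
  have hpt : Continuous (fun v : ℝ => pt x v) := by unfold pt; fun_prop
  have hrL : ∀ v, a ≤ v → Λ (pt x v) / Gfun M x v = L (pt x v) := by
    intro v hv
    rw [U.eqL _ (by rw [pt_re]; linarith)]
    have := Gfun_ne_zero (x := x) hM (v := v) (by linarith)
    unfold Gfun at this ⊢
    exact mul_div_cancel_left₀ _ this
  set lam := Real.log (M * ‖pt x 0‖) with hlam
  have hn1 := one_le_norm_pt x
  have hbase : 0 < M * ‖pt x 0‖ := by positivity
  refine concentration_small (x := x) (p := p) (a := a) (Z := Z) (Z1 := Z1) (z0 := z0)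
    (η := 2 * Z * Real.exp (5 / 2) * Real.exp (69 - ε1 / (2 * t)))
    (q := fun v => Λ (pt x v)) (r := fun v => Λ (pt x v) / Gfun M x v)
    hM ht ht8 hp (by linarith) ha1 hZ hZ1 (by positivity) hs2 hs1 hz0 (by linarith) ?_ ?_ ?_ ?_ ?_
    (D.diff.continuous.comp hpt).continuousOn
  · intro v hv
    have := Gfun_ne_zero (x := x) hM hv
    field_simp
  · intro c hc v hv hva
    have h3 := ratio_bound_a hM D.norm_w D.diff D.fe (by linarith : 0 < a) (by linarith) U.eqL
      U.bound D.bdd (x := x) hv hva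
    have h4 := D.pt_norm_Gfun_pos (x := x) hv
    have h5 : ‖Λ (pt x v) / Gfun M x v‖ ≤ Z * Real.exp (5 / 2) * (M * ‖pt x v‖) ^ (a - v) := by
      rw [norm_div, div_le_iff₀ h4]; exact h3
    have h6 : (M * ‖pt x v‖) ^ (a - v) ≤ 2 * Real.exp (lam * (a - v)) := by
      have h7 : ‖pt x v‖ ≤ 2 * ‖pt x 0‖ := by
        have e : pt x v = pt x 0 + (v : ℂ) := by
          have := pt_add x 0 v
          rwa [zero_add] at this
        rw [e]
        refine (norm_add_le _ _).trans ?_
        rw [Complex.norm_real, Real.norm_eq_abs, abs_of_nonneg hv]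
        linarith
      have h8 : M * ‖pt x v‖ ≤ 2 * (M * ‖pt x 0‖) := by nlinarith
      have h9 : (M * ‖pt x v‖) ^ (a - v) ≤ (2 * (M * ‖pt x 0‖)) ^ (a - v) := by
        apply Real.rpow_le_rpow (by positivity) h8 (by linarith)
      refine h9.trans ?_
      rw [Real.mul_rpow (by norm_num) hbase.le, hlam, Real.rpow_def_of_pos hbase]
      have h10 : (2:ℝ) ^ (a - v) ≤ 2 := by
        calc (2:ℝ) ^ (a - v) ≤ (2:ℝ) ^ (1:ℝ) :=
              Real.rpow_le_rpow_of_exponent_le (by norm_num) (by linarith)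
          _ = 2 := by norm_num
      gcongr
    have h11 := strip_exponent (lam := lam) (mu := lam - 5 / 6) ht ht8 ha ha1 hε1 rfl h1 h2 hc hv hva
    calc ‖Λ (pt x v) / Gfun M x v‖ * Real.exp (-(1 / (4 * t) - 5 / 6) * (v - c) ^ 2)
        ≤ (Z * Real.exp (5 / 2) * (2 * Real.exp (lam * (a - v)))) *
          Real.exp (-(1 / (4 * t) - 5 / 6) * (v - c) ^ 2) := by
          gcongr
          exact h5.trans (by gcongr)
      _ = 2 * Z * Real.exp (5 / 2) * Real.exp (lam * (a - v) +
          -(1 / (4 * t) - 5 / 6) * (v - c) ^ 2) := by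
          rw [Real.exp_add]; ring
      _ ≤ _ := by gcongr
  · intro v hv
    rw [hrL v hv]
    exact U.bound _ (by rw [pt_re]; linarith)
  · intro c hc v hv
    rw [hrL v hv, hrL c hc]
    exact U.lip x c v hc hv
  · intro c hc
    rw [hrL c (by linarith)]
    exact U.low _ (by rw [pt_re]; linarith)

end Pool.Agent.H6
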