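import Mathlib
import Pool.Agent.H6.Concentration
import Pool.Agent.H6.CoreGap
import Pool.Agent.H6.HeatSharp

/-!
Concentration with a gap, for one tilt `p`.
-/

open Real MeasureTheory Set Filter Topology

namespace Pool.Agent.H6

/-- lower bound for the peak including the tilt -/
lemma peak_ge {M x t p c : ℝ} (hM : 0 < M) (ht : 0 < t) (hc : 0 ≤ c)
    (hpk : (psi (pt x c)).re + Real.log M + p = c / (2 * t)) :
    2 * t * (Real.log (M * ‖pt x 0‖) - 5 / 6 + p) ≤ c := by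
  have hn := one_le_norm_pt x
  have h1 := abs_re_psi_sub_log_le (s := pt x c) (by rw [pt_re]; linarith)
  have h2 := (abs_le.mp h1).1
  have h3 : Real.log ‖pt x 0‖ ≤ Real.log ‖pt x c‖ :=
    Real.log_le_log (by linarith) (norm_pt_le hc)
  have hlog : Real.log (M * ‖pt x 0‖) = Real.log M + Real.log ‖pt x 0‖ :=
    Real.log_mul hM.ne' (by linarith)
  have h6 : c = 2 * t * ((psi (pt x c)).re + Real.log M + p) := by
    rw [hpk]; field_simp
  rw [h6, hlog]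
  have : 0 < 2 * t := by positivity
  apply mul_le_mul_of_nonneg_left _ this.le
  linarith

/-- Concentration statement with a gap. -/
theorem concentration_gap {M x t p a Z Z1 z0 η γ : ℝ} {q r : ℝ → ℂ} (hM : 0 < M) (ht : 0 < t)
    (ht8 : t ≤ 1 / 100) (hp : 0 ≤ p) (ha0 : 0 ≤ a) (ha : a ≤ 3 / 4)
    (hZ : 0 ≤ Z) (hZ1 : 0 ≤ Z1) (hη0 : 0 ≤ η)
    (hη : 8 * η ≤ z0 * √t) (hγ : 0 < γ) (hz0 : 8 * (8 * Z + 2 * Z / γ + 2 * Z1) * √t ≤ z0)
    (hz0pos : 0 < z0) (h0' : 0 < Real.log (M * ‖pt x 0‖) - 5 / 6)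
    (h0 : 1 / 2 ≤ 2 * t * (Real.log (M * ‖pt x 0‖) - 5 / 6 + p))
    (h0a : a + γ ≤ 2 * t * (Real.log (M * ‖pt x 0‖) - 5 / 6 + p))
    (hq : ∀ v, 0 ≤ v → q v = Gfun M x v * r v)
    (hr0 : ∀ c, 2 * t * (Real.log (M * ‖pt x 0‖) - 5 / 6 + p) ≤ c → ∀ v, 0 ≤ v → v ≤ a →
      ‖r v‖ * Real.exp (-(1 / (4 * t) - 5 / 6) * (v - c) ^ 2) ≤ η)
    (hr1 : ∀ v, a ≤ v → ‖r v‖ ≤ Z)
    (hr2 : ∀ c, a ≤ c → ∀ v, a ≤ v → ‖r v - r c‖ ≤ Z1 * |v - c|)
    (hrc : ∀ c, a + γ ≤ c → z0 ≤ ‖r c‖)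
    (hqc : ContinuousOn q (Ici 0)) :
    ∃ c : ℝ, 0 < c ∧
      (∫ v in Ioi (0:ℝ), ‖q v * ((Real.exp (-(v ^ 2 / (4 * t))) : ℝ) : ℂ)‖ *
        (Real.exp (p * v) + Real.exp (-(p * v))) * |v - c|) <
      c * ‖∫ v in Ioi (0:ℝ), q v * ((Real.exp (-(v ^ 2 / (4 * t))) : ℝ) : ℂ) *
        ((Real.exp (p * v) + Real.exp (-(p * v)) : ℝ) : ℂ)‖ := by
  obtain ⟨c, hcl, hpk⟩ := exists_peak (x := x) hM ht (by linarith) hp h0'
  have hcl0 : 0 < 2 * t * (Real.log (M * ‖pt x 0‖) - 5 / 6) := by positivity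
  have hc0 : 0 < c := lt_of_lt_of_le hcl0 hcl
  have hcl2 := peak_ge hM ht hc0.le hpk
  have hc1 : 1 / 2 ≤ c := h0.trans hcl2
  have hca : a + γ ≤ c := h0a.trans hcl2
  set s := pt x c with hs
  set b := (psi s).im with hb
  obtain ⟨Gc, hGc⟩ : ∃ G : ℂ,
    G = Gfun M x c * ((Real.exp (-(c ^ 2 / (4 * t)) + p * c) : ℝ) : ℂ) := ⟨_, rfl⟩
  have hGc0 : Gc ≠ 0 := by
    rw [hGc]
    apply mul_ne_zero (Gfun_ne_zero hM hc0.le)
    exact_mod_cast (Real.exp_pos _).ne'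
  set g : ℝ → ℂ := fun v =>
    Gfun M x v * ((Real.exp (-(v ^ 2 / (4 * t)) + p * v) : ℝ) : ℂ) / Gc with hgdef
  set Q : ℝ → ℂ := fun v =>
    q v * ((Real.exp (-(v ^ 2 / (4 * t)) + p * v) : ℝ) : ℂ) / Gc with hQdef
  have hg : ∀ v, 0 ≤ v → g v = Complex.exp (Complex.I * b * (v - c) - (v - c) ^ 2 / (4 * t) +
      rho s (v - c)) := by
    intro v hv
    simp only [hgdef, hGc]
    rw [Gfun_shift hM hc0.le hv, div_eq_iff (by
      apply mul_ne_zero (Gfun_ne_zero hM hc0.le)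
      exact_mod_cast (Real.exp_pos _).ne')]
    rw [Complex.ofReal_exp, Complex.ofReal_exp]
    have e : ∀ a b c d : ℂ, a * Complex.exp b * Complex.exp c =
        Complex.exp d * (a * Complex.exp (b + c - d)) := by
      intro a b c d
      rw [show Complex.exp d * (a * Complex.exp (b + c - d)) =
        a * (Complex.exp d * Complex.exp (b + c - d)) by ring, ← Complex.exp_add]
      rw [mul_assoc, ← Complex.exp_add]
      congr 2
      ring
    rw [e _ _ _ (Complex.I * b * (v - c) - (v - c) ^ 2 / (4 * t) + rho s (v - c))]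
    congr 3
    have h5 : psi (pt x c) = ((psi s).re : ℂ) + (b : ℂ) * Complex.I := by
      rw [hb, ← hs]; exact (Complex.re_add_im _).symm
    have h6 : ((psi s).re : ℂ) = ((c / (2 * t) - p - Real.log M : ℝ) : ℂ) := by
      congr 1
      rw [← hpk]; ring
    rw [h5, h6]
    push_cast
    have ht' : (t : ℂ) ≠ 0 := by exact_mod_cast ht.ne'
    field_simp
    ring
  have hρ : ∀ v, 0 ≤ v → ‖rho s (v - c)‖ ≤ 5 / 6 * (v - c) ^ 2 := by
    intro v hv
    apply norm_rho_le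
    · rw [hs, pt_re]; linarith
    · rw [hs, pt_re]; linarith
  have hbim : |b| ≤ π / 2 := abs_im_psi_le (by rw [hs, pt_re]; linarith)
  have hgc : ContinuousOn g (Ici 0) := by
    apply ContinuousOn.div_const
    apply (Gfun_continuousOn hM).mul
    exact (Complex.continuous_ofReal.comp (by fun_prop)).continuousOn
  have hQc : ContinuousOn Q (Ici 0) := by
    apply ContinuousOn.div_const
    apply hqc.mul
    exact (Complex.continuous_ofReal.comp (by fun_prop)).continuousOn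
  have hQ : ∀ v, 0 ≤ v → Q v = g v * r v := by
    intro v hv
    simp only [hQdef, hgdef]
    rw [hq v hv]
    ring
  have hcore := core_gap (ρ := fun v => rho s (v - c)) (g := g) (q := Q) (r := r) ht ht8 ha0 ha
    hγ hca hc1 hbim hp hZ hZ1 hη0 hη hz0 hz0pos hρ hg hQ (hr0 c hcl2) hr1 (hr2 c (by linarith))
    (hrc c hca) hgc hQc
  refine ⟨c, hc0, ?_⟩
  have hGn : 0 < ‖Gc‖ := norm_pos_iff.mpr hGc0
  have e1 : ∀ v : ℝ, Real.exp (-(v ^ 2 / (4 * t)) + p * v) * (1 + Real.exp (-(2 * p * v))) =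
      Real.exp (-(v ^ 2 / (4 * t))) * (Real.exp (p * v) + Real.exp (-(p * v))) := by
    intro v
    rw [Real.exp_add, mul_assoc, mul_add, mul_one, ← Real.exp_add]
    congr 3
    ring
  have h7 : ∀ v : ℝ, ‖Q v‖ * (1 + Real.exp (-(2 * p * v))) * |v - c| =
      ‖Gc‖⁻¹ * (‖q v * ((Real.exp (-(v ^ 2 / (4 * t))) : ℝ) : ℂ)‖ *
        (Real.exp (p * v) + Real.exp (-(p * v))) * |v - c|) := by
    intro v
    simp only [hQdef]
    rw [norm_div, norm_mul, norm_mul, Complex.norm_real, Complex.norm_real, Real.norm_eq_abs,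
      Real.norm_eq_abs, abs_of_pos (Real.exp_pos _), abs_of_pos (Real.exp_pos _)]
    calc _ = ‖Gc‖⁻¹ * ‖q v‖ * (Real.exp (-(v ^ 2 / (4 * t)) + p * v) *
        (1 + Real.exp (-(2 * p * v)))) * |v - c| := by ring
      _ = _ := by rw [e1]; ring
  have h8 : ∀ v : ℝ, Q v * ((1 + Real.exp (-(2 * p * v)) : ℝ) : ℂ) =
      Gc⁻¹ * (q v * ((Real.exp (-(v ^ 2 / (4 * t))) : ℝ) : ℂ) *
        ((Real.exp (p * v) + Real.exp (-(p * v)) : ℝ) : ℂ)) := by
    intro v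
    simp only [hQdef]
    calc _ = Gc⁻¹ * q v * ((Real.exp (-(v ^ 2 / (4 * t)) + p * v) *
        (1 + Real.exp (-(2 * p * v))) : ℝ) : ℂ) := by push_cast; ring
      _ = _ := by rw [e1]; push_cast; ring
  simp_rw [h7, h8] at hcore
  rw [integral_const_mul, integral_const_mul, norm_mul, norm_inv] at hcore
  have h9 := mul_lt_mul_of_pos_left hcore hGn
  have hG1 : ‖Gc‖ * ‖Gc‖⁻¹ = 1 := mul_inv_cancel₀ hGn.ne'
  rw [← mul_assoc, hG1, one_mul] at h9
  refine lt_of_lt_of_le h9 (le_of_eq ?_)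
  calc _ = c * (‖Gc‖ * ‖Gc‖⁻¹) * ‖∫ v in Ioi (0:ℝ), q v *
        ((Real.exp (-(v ^ 2 / (4 * t))) : ℝ) : ℂ) *
        ((Real.exp (p * v) + Real.exp (-(p * v)) : ℝ) : ℂ)‖ := by ring
    _ = _ := by rw [hG1, mul_one]

/-- the exponent estimate in the strip -/
lemma strip_exponent_gap {t a ε lam mu y p c v ℓ : ℝ} (ht : 0 < t) (hε : 0 < ε) (hε1 : ε ≤ 1)
    (htε : t ≤ ε / 56) (ha : a = 1 / 2 + ε / 8)
    (hmu : mu = lam - 5 / 6) (hy : y = 2 * t * p) (hy0 : 0 ≤ y)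
    (hℓ1 : t * ℓ - 7 * t ≤ 2 * t * mu) (hℓ2 : 2 * t * mu ≤ t * ℓ) (hℓ3 : 1 / 4 * ℓ ≤ mu)
    (hℓ4 : t * ℓ ≤ 2)
    (hyℓ : 1 + ε ≤ 2 * y + t * ℓ) (hc : 2 * t * (mu + p) ≤ c) (hv : 0 ≤ v) (hva : v ≤ a) :
    lam * (a - v) + -(1 / (4 * t) - 5 / 6) * (v - c) ^ 2 ≤ 9 - ε ^ 2 / (64 * t) := by
  set α := 1 / (4 * t) - 5 / 6 with hα
  have hα0 : 0 < α := by
    have : 14 ≤ 1 / (4 * t) := by
      rw [le_div_iff₀ (by positivity)]; linarith
    rw [hα]; linarith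
  set y' := min y 1 with hy'
  have hy'0 : 0 ≤ y' := le_min hy0 (by norm_num)
  have hy'1 : y' ≤ 1 := min_le_right _ _
  have hy'y : y' ≤ y := min_le_left _ _
  have hℓ0 : 0 ≤ ℓ := by
    by_contra hneg
    have hneg' : ℓ < 0 := not_le.mp hneg
    nlinarith
  have hmu0 : 0 ≤ mu := by linarith
  have hy'ℓ : 1 + ε ≤ 2 * y' + t * ℓ := by
    rcases min_choice y 1 with h | h
    · rw [hy', h]; exact hyℓ
    · rw [hy', h]
      have : 0 ≤ t * ℓ := by positivity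
      linarith
  set c1 := 2 * t * mu + y' with hc1
  have hcc : c1 ≤ c := by
    have : 2 * t * (mu + p) = 2 * t * mu + y := by rw [hy]; ring
    rw [this] at hc
    linarith
  have hkey : a + ε / 4 ≤ c1 / 2 + y' / 2 := by
    have h1 : c1 / 2 + y' / 2 = t * mu + y' := by rw [hc1]; ring
    rw [h1, ha]
    linarith
  have hc1a : a ≤ c1 := by
    have h2 : y' ≤ c1 := by
      rw [hc1]
      have : 0 ≤ 2 * t * mu := by positivity
      linarith
    linarith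
  have hc1v : 0 ≤ c1 - v := by linarith
  have hc13 : c1 ≤ 3 := by rw [hc1]; linarith
  have h3 : (c1 - v) ^ 2 ≤ (v - c) ^ 2 := by
    have : (v - c) ^ 2 = (c - v) ^ 2 := by ring
    rw [this]
    gcongr
  have h4 : α * (c1 - v) ^ 2 ≤ α * (v - c) ^ 2 := by gcongr
  have h5 : (c1 - v) ^ 2 ≤ 9 := by nlinarith
  have h6 : α * (c1 - v) ^ 2 = (c1 - v) ^ 2 / (4 * t) - 5 / 6 * (c1 - v) ^ 2 := by
    rw [hα]; ring
  have h7 : (c1 - v) ^ 2 / (4 * t) = t * mu ^ 2 + mu * (y' - v) + (y' - v) ^ 2 / (4 * t) := by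
    rw [hc1]; field_simp; ring
  have h11 : lam = mu + 5 / 6 := by linarith
  have h12 : a ≤ 5 / 8 := by rw [ha]; linarith
  -- main bound
  have hmain : lam * (a - v) + -α * (v - c) ^ 2 ≤
      9 - (mu * (t * mu + y' - a) + (y' - v) ^ 2 / (4 * t)) := by
    rw [h11]
    nlinarith
  have hgap : ε / 4 ≤ t * mu + y' - a := by
    have h1 : c1 / 2 + y' / 2 = t * mu + y' := by rw [hc1]; ring
    linarith
  refine hmain.trans ?_
  have hfin : ε ^ 2 / (64 * t) ≤ mu * (t * mu + y' - a) + (y' - v) ^ 2 / (4 * t) := by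
    rcases le_total (t * ℓ) (ε / 4) with h | h
    · -- `t ℓ` small: use the square
      have h13 : ε / 4 ≤ y' - v := by
        have : 1 / 2 + ε / 2 - ε / 8 ≤ y' := by linarith
        rw [ha] at hva
        linarith
      have h14 : (ε / 4) ^ 2 ≤ (y' - v) ^ 2 := by gcongr
      have h15 : ε ^ 2 / (64 * t) ≤ (y' - v) ^ 2 / (4 * t) := by
        rw [div_le_div_iff₀ (by positivity) (by positivity)]
        nlinarith
      have h16 : 0 ≤ mu * (t * mu + y' - a) := mul_nonneg hmu0 (by linarith)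
      linarith
    · have h13 : ε / (4 * t) ≤ ℓ := by
        rw [div_le_iff₀ (by positivity)]
        nlinarith
      have h14 : ε ^ 2 / (64 * t) ≤ mu * (ε / 4) := by
        have : ε ^ 2 / (64 * t) = (1 / 4 * (ε / (4 * t))) * (ε / 4) := by field_simp; norm_num
        rw [this]
        have h17 : 1 / 4 * (ε / (4 * t)) ≤ mu := by linarith
        gcongr
      have h15 : mu * (ε / 4) ≤ mu * (t * mu + y' - a) := by gcongr
      have h16 : 0 ≤ (y' - v) ^ 2 / (4 * t) := by positivity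
      linarith
  linarith

end Pool.Agent.H6
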