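import Mathlib
import Pool.Agent.H5.Euler

/-!
Explicit bound `∑ |c n| n^{-2} ≤ 8` for the Hecke coefficients.
-/

open Finset

namespace Pool.Agent.H6

open Pool.Agent.H5

lemma rpow_step {x : ℝ} (hx : 0 < x) :
    (x + 2) ^ (-(3/2:ℝ)) ≤ x ^ (-(1/2:ℝ)) - (x + 2) ^ (-(1/2:ℝ)) := by
  have hx2 : 0 < x + 2 := by linarith
  set a := √x with ha
  set b := √(x + 2) with hb
  have ha0 : 0 < a := Real.sqrt_pos.mpr hx
  have hb0 : 0 < b := Real.sqrt_pos.mpr hx2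
  have ha2 : a ^ 2 = x := Real.sq_sqrt hx.le
  have hb2 : b ^ 2 = x + 2 := Real.sq_sqrt hx2.le
  have hab : a ≤ b := Real.sqrt_le_sqrt (by linarith)
  have e1 : x ^ (-(1/2:ℝ)) = a⁻¹ := by
    rw [Real.rpow_neg hx.le, ← Real.sqrt_eq_rpow]
  have e2 : (x + 2) ^ (-(1/2:ℝ)) = b⁻¹ := by
    rw [Real.rpow_neg hx2.le, ← Real.sqrt_eq_rpow]
  have e3 : (x + 2) ^ (-(3/2:ℝ)) = (b ^ 3)⁻¹ := by
    rw [← hb2, ← Real.rpow_natCast b 2, ← Real.rpow_mul hb0.le, ← Real.rpow_natCast b 3,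
      ← Real.rpow_neg hb0.le]
    congr 1
    norm_num
  rw [e1, e2, e3]
  have h1 : a⁻¹ - b⁻¹ = (b - a) / (a * b) := by field_simp
  have h2 : (b - a) * (b + a) = 2 := by nlinarith
  have h3 : b - a = 2 / (b + a) := by field_simp; linarith
  rw [h1, h3, div_div, inv_eq_one_div, div_le_div_iff₀ (by positivity) (by positivity)]
  have h4 : a * b ≤ b * b := by gcongr
  have h5 : b + a ≤ 2 * b := by linarith
  have h6 : (b + a) * (a * b) ≤ 2 * b * (b * b) := by gcongr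
  nlinarith

/-- odd part majorant -/
noncomputable def Aodd (k : ℕ) : ℝ := (2 * (k : ℝ) + 1) ^ (-(3/2:ℝ))

/-- even part majorant -/
noncomputable def hev (n : ℕ) : ℝ := (2 * ((n : ℝ) + 1)) ^ (-(3/2:ℝ))

lemma Aodd_nonneg (k : ℕ) : 0 ≤ Aodd k := by unfold Aodd; positivity
lemma hev_nonneg (k : ℕ) : 0 ≤ hev k := by unfold hev; positivity

lemma sum_Aodd (K : ℕ) : ∑ k ∈ range (K + 1), Aodd k ≤ 2 - (2 * (K : ℝ) + 1) ^ (-(1/2:ℝ)) := by
  induction K with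
  | zero => simp [Aodd]; norm_num
  | succ n ih =>
    rw [sum_range_succ]
    have h := rpow_step (x := 2 * (n:ℝ) + 1) (by positivity)
    have e : 2 * ((n:ℝ) + 1) + 1 = 2 * (n:ℝ) + 1 + 2 := by ring
    unfold Aodd at *
    push_cast
    rw [e]
    linarith

lemma sum_hev (K : ℕ) : ∑ k ∈ range (K + 1), hev k ≤
    (2:ℝ) ^ (-(3/2:ℝ)) + (2:ℝ) ^ (-(1/2:ℝ)) - (2 * ((K : ℝ) + 1)) ^ (-(1/2:ℝ)) := by
  induction K with
  | zero => simp [hev]
  | succ n ih =>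
    rw [sum_range_succ]
    have h := rpow_step (x := 2 * ((n:ℝ) + 1)) (by positivity)
    have e : 2 * ((n:ℝ) + 1 + 1) = 2 * ((n:ℝ) + 1) + 2 := by ring
    unfold hev at *
    push_cast
    rw [e]
    linarith

lemma sum_Aodd_le (K : ℕ) : ∑ k ∈ range K, Aodd k ≤ 2 := by
  have h := sum_Aodd K
  rw [sum_range_succ] at h
  have h1 := Aodd_nonneg K
  have h2 : 0 ≤ (2 * (K : ℝ) + 1) ^ (-(1/2:ℝ)) := by positivity
  linarith

lemma sum_hev_le (K : ℕ) : ∑ k ∈ range K, hev k ≤ 3 / 2 := by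
  have h := sum_hev K
  rw [sum_range_succ] at h
  have h1 := hev_nonneg K
  have h2 : 0 ≤ (2 * ((K : ℝ) + 1)) ^ (-(1/2:ℝ)) := by positivity
  have h3 : (2:ℝ) ^ (-(3/2:ℝ)) ≤ 1 / 2 := by
    have : (2:ℝ) ^ (-(3/2:ℝ)) ≤ (2:ℝ) ^ (-(1:ℝ)) :=
      Real.rpow_le_rpow_of_exponent_le (by norm_num) (by norm_num)
    rw [Real.rpow_neg_one] at this
    linarith
  have h4 : (2:ℝ) ^ (-(1/2:ℝ)) ≤ 1 :=
    Real.rpow_le_one_of_one_le_of_nonpos (by norm_num) (by norm_num)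
  linarith

lemma summable_Aodd : Summable Aodd := summable_of_sum_range_le Aodd_nonneg sum_Aodd_le
lemma summable_hev : Summable hev := summable_of_sum_range_le hev_nonneg sum_hev_le
lemma tsum_Aodd : ∑' k, Aodd k ≤ 2 := Real.tsum_le_of_sum_range_le Aodd_nonneg sum_Aodd_le
lemma tsum_hev : ∑' k, hev k ≤ 3 / 2 := Real.tsum_le_of_sum_range_le hev_nonneg sum_hev_le

/-- even part majorant on the integers -/
noncomputable def Bev (j : ℤ) : ℝ := if j = 0 then 1 else (2 * |(j : ℝ)|) ^ (-(3/2:ℝ))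

lemma Bev_nonneg (j : ℤ) : 0 ≤ Bev j := by unfold Bev; split_ifs <;> positivity

lemma hasSum_Bev : HasSum Bev ((1 + ∑' k, hev k) + ∑' k, hev k) := by
  refine HasSum.of_nat_of_neg_add_one ?_ ?_
  · have h1 : HasSum (fun n : ℕ => Bev ((n + 1 : ℕ) : ℤ)) (∑' k, hev k) := by
      have h2 : (fun n : ℕ => Bev ((n + 1 : ℕ) : ℤ)) = hev := by
        funext n
        unfold Bev hev
        rw [if_neg (by omega)]
        congr 1
        push_cast
        rw [abs_of_nonneg (by positivity)]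
      rw [h2]
      exact summable_hev.hasSum
    have h3 := (hasSum_nat_add_iff (f := fun n : ℕ => Bev (n : ℤ)) 1).mp h1
    have e : ∑ i ∈ range 1, Bev (i : ℤ) = 1 := by simp [Bev]
    rw [e] at h3
    rw [add_comm] at h3
    exact h3
  · have h2 : (fun n : ℕ => Bev (-((n : ℤ) + 1))) = hev := by
      funext n
      unfold Bev hev
      rw [if_neg (by omega)]
      congr 1
      push_cast
      rw [abs_neg, abs_of_nonneg (by positivity)]
    rw [h2]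
    exact summable_hev.hasSum

lemma tsum_Bev : ∑' j, Bev j ≤ 4 := by
  rw [hasSum_Bev.tsum_eq]
  have := tsum_hev
  linarith

lemma summable_AB : Summable (fun x : ℕ × ℤ => Aodd x.1 * Bev x.2) :=
  summable_Aodd.mul_of_nonneg hasSum_Bev.summable Aodd_nonneg Bev_nonneg

lemma tsum_AB : ∑' x : ℕ × ℤ, Aodd x.1 * Bev x.2 ≤ 8 := by
  rw [← summable_Aodd.tsum_mul_tsum hasSum_Bev.summable summable_AB]
  have h1 := tsum_Aodd
  have h2 := tsum_Bev
  have h3 : 0 ≤ ∑' j, Bev j := tsum_nonneg Bev_nonneg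
  nlinarith

lemma term_le {x y n : ℝ} (hx : 1 ≤ x) (hy : 0 < y) (hn : n = x ^ 2 + y ^ 2) :
    x * n ^ (-(2:ℝ)) ≤ x ^ (-(3/2:ℝ)) * y ^ (-(3/2:ℝ)) := by
  have hx0 : 0 < x := by linarith
  have hn0 : 0 < n := by rw [hn]; positivity
  have hxr : x ≤ √n := Real.le_sqrt_of_sq_le (by nlinarith)
  have hyr : y ≤ √n := Real.le_sqrt_of_sq_le (by nlinarith)
  have hr0 : 0 < √n := Real.sqrt_pos.mpr hn0
  have h1 : x ^ (5/2:ℝ) * y ^ (3/2:ℝ) ≤ n ^ (2:ℝ) := by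
    calc x ^ (5/2:ℝ) * y ^ (3/2:ℝ) ≤ (√n) ^ (5/2:ℝ) * (√n) ^ (3/2:ℝ) := by gcongr
      _ = (√n) ^ ((2:ℕ) * (2:ℝ)) := by
          rw [← Real.rpow_add hr0]
          congr 1
          norm_num
      _ = n ^ (2:ℝ) := by
          rw [Real.rpow_natCast_mul hr0.le, Real.sq_sqrt hn0.le]
  have hx32 : x = x ^ (5/2:ℝ) * x ^ (-(3/2:ℝ)) := by
    rw [← Real.rpow_add hx0]; norm_num
  have hy32 : y ^ (3/2:ℝ) * y ^ (-(3/2:ℝ)) = 1 := by
    rw [← Real.rpow_add hy]; norm_num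
  have hn2 : n ^ (2:ℝ) * n ^ (-(2:ℝ)) = 1 := by
    rw [← Real.rpow_add hn0]; norm_num
  calc x * n ^ (-(2:ℝ)) = (x ^ (5/2:ℝ) * y ^ (3/2:ℝ)) * n ^ (-(2:ℝ)) *
        (x ^ (-(3/2:ℝ)) * y ^ (-(3/2:ℝ))) := by
        nth_rewrite 1 [hx32]
        calc x ^ (5/2:ℝ) * x ^ (-(3/2:ℝ)) * n ^ (-(2:ℝ)) =
            x ^ (5/2:ℝ) * x ^ (-(3/2:ℝ)) * n ^ (-(2:ℝ)) * (y ^ (3/2:ℝ) * y ^ (-(3/2:ℝ))) := by
              rw [hy32, mul_one]
          _ = _ := by ring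
    _ ≤ n ^ (2:ℝ) * n ^ (-(2:ℝ)) * (x ^ (-(3/2:ℝ)) * y ^ (-(3/2:ℝ))) := by gcongr
    _ = _ := by rw [hn2, one_mul]

lemma term_le_zero {x : ℝ} (hx : 1 ≤ x) :
    x * (x ^ 2) ^ (-(2:ℝ)) ≤ x ^ (-(3/2:ℝ)) := by
  have hx0 : 0 < x := by linarith
  have e : x * (x ^ 2) ^ (-(2:ℝ)) = x ^ (-(3:ℝ)) := by
    rw [← Real.rpow_natCast x 2, ← Real.rpow_mul hx0.le]
    nth_rewrite 1 [← Real.rpow_one x]
    rw [← Real.rpow_add hx0]
    norm_num
  rw [e]
  exact Real.rpow_le_rpow_of_exponent_le hx (by norm_num)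

/-- the indexing map -/
def idx (z : GI) : ℕ × ℤ := ((z.re.natAbs - 1) / 2, z.im / 2)

lemma idx_inj {z w : GI} (hz : Primary z) (hw : Primary w) (h : idx z = idx w) : z = w := by
  unfold Primary at hz hw
  unfold idx at h
  have h1 := congrArg Prod.fst h
  have h2 := congrArg Prod.snd h
  simp only at h1 h2
  ext
  · omega
  · omega

lemma term_idx {z : GI} (hz : Primary z) {n : ℕ} (hn : z.norm = n) :
    |(z.re : ℝ)| * (n : ℝ) ^ (-(2:ℝ)) ≤ Aodd (idx z).1 * Bev (idx z).2 := by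
  have hn' : (n : ℝ) = (z.re : ℝ) ^ 2 + (z.im : ℝ) ^ 2 := by
    rw [norm_def] at hn
    have h2 : ((z.re : ℝ)) ^ 2 + ((z.im : ℝ)) ^ 2 = n := by exact_mod_cast hn
    exact h2.symm
  unfold Primary at hz
  have hre : 1 ≤ |z.re| := by
    have : z.re ≠ 0 := by omega
    exact Int.one_le_abs this
  have hre' : 1 ≤ |(z.re : ℝ)| := by exact_mod_cast hre
  have hA : Aodd (idx z).1 = |(z.re : ℝ)| ^ (-(3/2:ℝ)) := by
    unfold Aodd idx
    simp only
    congr 1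
    have h1 : 2 * ((z.re.natAbs - 1) / 2) + 1 = z.re.natAbs := by omega
    have h2 : ((z.re.natAbs : ℕ) : ℝ) = |(z.re : ℝ)| := by
      rw [Nat.cast_natAbs]; simp
    rw [← h2]
    exact_mod_cast h1
  rw [hA]
  rcases eq_or_ne z.im 0 with him | him
  · have hB : Bev (idx z).2 = 1 := by
      unfold Bev idx
      simp [him]
    rw [hB, mul_one, hn', him]
    have e : (z.re : ℝ) ^ 2 + ((0:ℤ) : ℝ) ^ 2 = |(z.re : ℝ)| ^ 2 := by
      rw [sq_abs]; simp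
    rw [e]
    exact term_le_zero hre'
  · have hj : z.im / 2 ≠ 0 := by omega
    have hB : Bev (idx z).2 = |(z.im : ℝ)| ^ (-(3/2:ℝ)) := by
      unfold Bev idx
      simp only
      rw [if_neg hj]
      congr 1
      have h1 : 2 * (z.im / 2) = z.im := by omega
      have h2 : (z.im : ℝ) = 2 * ((z.im / 2 : ℤ) : ℝ) := by
        exact_mod_cast h1.symm
      rw [h2, abs_mul]
      norm_num
    rw [hB]
    apply term_le hre'
    · exact abs_pos.mpr (by exact_mod_cast him)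
    · rw [sq_abs, sq_abs]; exact hn'

lemma sum_abs_c_le (u : Finset ℕ) : ∑ n ∈ u, |(c n : ℝ)| * (n : ℝ) ^ (-(2:ℝ)) ≤ 8 := by
  classical
  have hinj : Set.InjOn (fun y : (Σ _ : ℕ, GI) => idx y.2)
      ((u.sigma P : Finset (Σ _ : ℕ, GI)) : Set (Σ _ : ℕ, GI)) := by
    rintro ⟨n, z⟩ hz ⟨m, w⟩ hw h
    rw [Finset.mem_coe, Finset.mem_sigma, mem_P] at hz hw
    simp only at hz hw h
    have h1 : z = w := idx_inj hz.2.1 hw.2.1 h
    subst h1
    have : n = m := by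
      have := hz.2.2.symm.trans hw.2.2
      exact_mod_cast this
    subst this; rfl
  calc ∑ n ∈ u, |(c n : ℝ)| * (n : ℝ) ^ (-(2:ℝ))
      ≤ ∑ n ∈ u, ∑ z ∈ P n, Aodd (idx z).1 * Bev (idx z).2 := by
        refine Finset.sum_le_sum (fun n _ => ?_)
        have h1 : |(c n : ℝ)| ≤ ∑ z ∈ P n, |(z.re : ℝ)| := by
          rw [c_eq_sum]
          push_cast
          exact Finset.abs_sum_le_sum_abs _ _
        refine (mul_le_mul_of_nonneg_right h1 (by positivity)).trans ?_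
        rw [Finset.sum_mul]
        refine Finset.sum_le_sum (fun z hz => ?_)
        rw [mem_P] at hz
        exact term_idx hz.1 hz.2
    _ = ∑ y ∈ u.sigma P, Aodd (idx y.2).1 * Bev (idx y.2).2 := by
        rw [Finset.sum_sigma]
    _ = ∑ x ∈ (u.sigma P).image (fun y : (Σ _ : ℕ, GI) => idx y.2), Aodd x.1 * Bev x.2 := by
        rw [Finset.sum_image hinj]
    _ ≤ ∑' x : ℕ × ℤ, Aodd x.1 * Bev x.2 :=
        summable_AB.sum_le_tsum _ (fun x _ => mul_nonneg (Aodd_nonneg _) (Bev_nonneg _))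
    _ ≤ 8 := tsum_AB

end Pool.Agent.H6
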