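import Mathlib

/-!
From a theta functional equation of weight two to an entire completed L-function.
-/

open Real MeasureTheory Set Filter Topology Asymptotics

namespace Pool.Agent.H6

/-- the theta series with coefficients `b` -/
noncomputable def thetaSer (b : ℕ → ℝ) (y : ℝ) : ℝ := ∑' n : ℕ, b n * Real.exp (-π * n * y)

/-- coefficients of at most polynomial growth on average -/
structure GoodCoeff (b : ℕ → ℝ) : Prop where
  zero : b 0 = 0
  summable : ∀ σ : ℝ, 3 / 2 < σ → Summable (fun n : ℕ => |b n| * (n : ℝ) ^ (-σ))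

namespace GoodCoeff

variable {b : ℕ → ℝ}

lemma term_bound (hb : GoodCoeff b) {a : ℝ} (ha : 0 < a) (n : ℕ) :
    |b n| * Real.exp (-π * n * a) ≤ (2 / (π * a) ^ 2) * (|b n| * (n : ℝ) ^ (-(2:ℝ))) := by
  rcases Nat.eq_zero_or_pos n with rfl | hn
  · rw [hb.zero]; simp
  · have hn' : (0:ℝ) < n := by exact_mod_cast hn
    have h1 : (π * n * a) ^ 2 / 2 ≤ Real.exp (π * n * a) := by
      have := Real.quadratic_le_exp_of_nonneg (x := π * n * a) (by positivity)
      have h2 : 0 ≤ π * n * a := by positivity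
      linarith
    have h2 : Real.exp (-π * n * a) ≤ 2 / (π * a) ^ 2 * (n : ℝ) ^ (-(2:ℝ)) := by
      have e : -π * n * a = -(π * n * a) := by ring
      rw [e, Real.exp_neg]
      have h3 : (n : ℝ) ^ (-(2:ℝ)) = ((n:ℝ) ^ 2)⁻¹ := by
        rw [Real.rpow_neg hn'.le]; norm_num
      rw [h3]
      have h4 : 2 / (π * a) ^ 2 * ((n:ℝ) ^ 2)⁻¹ = ((π * n * a) ^ 2 / 2)⁻¹ := by
        field_simp
      rw [h4]
      exact inv_anti₀ (by positivity) h1
    calc |b n| * Real.exp (-π * n * a) ≤ |b n| * (2 / (π * a) ^ 2 * (n : ℝ) ^ (-(2:ℝ))) := by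
          gcongr
      _ = _ := by ring

lemma summable_exp (hb : GoodCoeff b) {a : ℝ} (ha : 0 < a) :
    Summable (fun n : ℕ => |b n| * Real.exp (-π * n * a)) :=
  Summable.of_nonneg_of_le (fun n => by positivity) (hb.term_bound ha)
    ((hb.summable 2 (by norm_num)).mul_left _)

lemma summable_exp' (hb : GoodCoeff b) {a : ℝ} (ha : 0 < a) :
    Summable (fun n : ℕ => b n * Real.exp (-π * n * a)) := by
  refine Summable.of_norm ?_
  refine (hb.summable_exp ha).congr (fun n => ?_)
  rw [norm_mul, Real.norm_eq_abs, Real.norm_eq_abs, abs_of_pos (Real.exp_pos _)]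

lemma continuousOn_thetaSer (hb : GoodCoeff b) : ContinuousOn (thetaSer b) (Ioi 0) := by
  refine continuousOn_of_forall_continuousAt (fun x hx => ?_)
  have hx0 : 0 < x := hx
  have h1 : ContinuousOn (thetaSer b) (Ici (x / 2)) := by
    unfold thetaSer
    refine continuousOn_tsum (u := fun n : ℕ => |b n| * Real.exp (-π * n * (x / 2)))
      (fun n => ?_) (hb.summable_exp (by positivity)) ?_
    · fun_prop
    · intro n y hy
      have hy' : x / 2 ≤ y := hy
      rw [norm_mul, Real.norm_eq_abs, Real.norm_eq_abs, abs_of_pos (Real.exp_pos _)]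
      apply mul_le_mul_of_nonneg_left _ (abs_nonneg _)
      apply Real.exp_le_exp.mpr
      have h3 : 0 ≤ π * n := by positivity
      nlinarith
  exact h1.continuousAt (Ici_mem_nhds (by linarith))

lemma thetaSer_decay (hb : GoodCoeff b) :
    ∃ C : ℝ, 0 ≤ C ∧ ∀ y, 1 ≤ y → |thetaSer b y| ≤ C * Real.exp (-π * y) := by
  refine ⟨Real.exp π * ∑' n : ℕ, |b n| * Real.exp (-π * n * 1), by positivity, ?_⟩
  intro y hy
  have hs1 := hb.summable_exp (a := 1) one_pos
  have hsy := hb.summable_exp (a := y) (by linarith)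
  unfold thetaSer
  have h0 : |∑' n : ℕ, b n * Real.exp (-π * n * y)| ≤ ∑' n : ℕ, |b n| * Real.exp (-π * n * y) := by
    rw [← Real.norm_eq_abs]
    refine (norm_tsum_le_tsum_norm ?_).trans (le_of_eq ?_)
    · refine hsy.congr (fun n => ?_)
      rw [norm_mul, Real.norm_eq_abs, Real.norm_eq_abs, abs_of_pos (Real.exp_pos _)]
    · refine tsum_congr (fun n => ?_)
      rw [norm_mul, Real.norm_eq_abs, Real.norm_eq_abs, abs_of_pos (Real.exp_pos _)]
  refine h0.trans ?_
  rw [mul_right_comm, ← tsum_mul_left]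
  refine hsy.tsum_le_tsum (fun n => ?_) (hs1.mul_left _)
  rcases Nat.eq_zero_or_pos n with rfl | hn
  · rw [hb.zero]; simp
  · have hn' : (1:ℝ) ≤ n := by exact_mod_cast hn
    have h1 : Real.exp (-π * n * y) ≤ Real.exp π * Real.exp (-π * y) * Real.exp (-π * n * 1) := by
      rw [← Real.exp_add, ← Real.exp_add]
      apply Real.exp_le_exp.mpr
      have h2 : 0 ≤ π * ((n - 1) * (y - 1)) :=
        mul_nonneg Real.pi_pos.le (mul_nonneg (by linarith) (by linarith))
      nlinarith
    calc |b n| * Real.exp (-π * n * y) ≤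
        |b n| * (Real.exp π * Real.exp (-π * y) * Real.exp (-π * n * 1)) := by gcongr
      _ = _ := by ring

lemma summable_dirichlet (hb : GoodCoeff b) {s : ℂ} (hs : 3 / 2 < s.re) :
    Summable (fun n : ℕ => ‖(b n : ℂ) * (n : ℂ) ^ (-s)‖) := by
  refine (hb.summable _ hs).congr (fun n => ?_)
  rcases Nat.eq_zero_or_pos n with rfl | hn
  · rw [hb.zero]; simp
  · rw [norm_mul, Complex.norm_real, Real.norm_eq_abs, Complex.norm_natCast_cpow_of_pos hn]
    simp

end GoodCoeff

/-- **Mellin transform of a weight two theta function.** -/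
theorem exists_FE {b : ℕ → ℝ} (hb : GoodCoeff b) {Q : ℝ} (hQ : 0 < Q) {w : ℝ}
    (hw : w = 1 ∨ w = -1)
    (hfe : ∀ y : ℝ, 0 < y → thetaSer b y = w / (Q * y ^ 2) * thetaSer b (1 / (Q * y))) :
    ∃ Λ : ℂ → ℂ, Differentiable ℂ Λ ∧ (∀ s, Λ (2 - s) = (w : ℂ) * Λ s) ∧
      (∀ s, Λ ((starRingEnd ℂ) s) = (starRingEnd ℂ) (Λ s)) ∧
      (∀ s : ℂ, 3 / 2 < s.re → Λ s = ((√Q / π : ℝ) : ℂ) ^ s * Complex.Gamma s *
        ∑' n : ℕ, (b n : ℂ) * (n : ℂ) ^ (-s)) ∧
      (∀ σ₁ σ₂ : ℝ, ∃ C, ∀ s : ℂ, σ₁ ≤ s.re → s.re ≤ σ₂ → ‖Λ s‖ ≤ C) := by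
  have hsQ : 0 < √Q := Real.sqrt_pos.mpr hQ
  have hsQ2 : √Q ^ 2 = Q := Real.sq_sqrt hQ.le
  set f : ℝ → ℂ := fun x => ((thetaSer b (x / √Q) : ℝ) : ℂ) with hf
  have hcont : ContinuousOn f (Ioi 0) := by
    apply Complex.continuous_ofReal.comp_continuousOn
    apply hb.continuousOn_thetaSer.comp (by fun_prop)
    intro x hx
    exact div_pos hx hsQ
  have hint : LocallyIntegrableOn f (Ioi 0) :=
    hcont.locallyIntegrableOn measurableSet_Ioi
  have hw2 : w * w = 1 := by rcases hw with h | h <;> rw [h] <;> norm_num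
  have hw0 : (w : ℂ) ≠ 0 := by
    rcases hw with h | h <;> rw [h] <;> norm_num
  have hFE : ∀ x ∈ Ioi (0:ℝ), f (1 / x) = ((w : ℂ) * ((x ^ (2:ℝ) : ℝ) : ℂ)) • f x := by
    intro x hx
    have hx0 : 0 < x := hx
    have h1 := hfe (x / √Q) (div_pos hx0 hsQ)
    have e1 : Q * (x / √Q) ^ 2 = x ^ 2 := by
      rw [div_pow, hsQ2]; field_simp
    have e2 : 1 / (Q * (x / √Q)) = 1 / x / √Q := by
      have : Q * (x / √Q) = √Q * x := by
        nth_rewrite 1 [← hsQ2]
        field_simp
      rw [this]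
      field_simp
    rw [e1, e2] at h1
    have h2 : thetaSer b (1 / x / √Q) = w * x ^ 2 * thetaSer b (x / √Q) := by
      rw [h1]
      have hx2 : x ^ 2 ≠ 0 := by positivity
      calc thetaSer b (1 / x / √Q) = (w * w) * thetaSer b (1 / x / √Q) := by rw [hw2, one_mul]
        _ = _ := by field_simp
    simp only [hf, smul_eq_mul]
    rw [h2]
    push_cast
    have e3 : ((x ^ (2:ℝ) : ℝ)) = x ^ 2 := by norm_num
    norm_num
  have htop : ∀ r : ℝ, (fun x => f x - 0) =O[atTop] (fun x : ℝ => x ^ r) := by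
    intro r
    obtain ⟨C, hC0, hC⟩ := hb.thetaSer_decay
    have h1 : f =O[atTop] (fun x : ℝ => Real.exp (-(π / √Q) * x)) := by
      refine IsBigO.of_bound C ?_
      filter_upwards [eventually_ge_atTop (√Q)] with x hx
      have h2 : 1 ≤ x / √Q := by rw [le_div_iff₀ hsQ]; linarith
      have h3 := hC _ h2
      simp only [hf, Complex.norm_real, Real.norm_eq_abs, abs_of_pos (Real.exp_pos _)]
      refine h3.trans (le_of_eq ?_)
      congr 2
      ring
    simp only [sub_zero]
    exact h1.trans (isLittleO_exp_neg_mul_rpow_atTop (by positivity) r).isBigO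
  let P : WeakFEPair ℂ :=
    { f := f
      g := f
      k := 2
      ε := w
      f₀ := 0
      g₀ := 0
      hf_int := hint
      hg_int := hint
      hk := by norm_num
      hε := hw0
      h_feq := hFE
      hf_top := htop
      hg_top := htop }
  have hP : IsStrongFEPair P := ⟨rfl, rfl⟩
  have hmel : ∀ s, P.Λ s = mellin f s := fun s => congr_fun hP.Λ_eq s
  have hconv : ∀ s : ℂ, MellinConvergent f s := fun s => (hP.hasMellin s).1
  refine ⟨P.Λ, hP.differentiable_Λ, ?_, ?_, ?_, ?_⟩
  · intro s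
    have h := P.functional_equation s
    have h2 : P.symm.Λ s = P.Λ s := by
      rw [hP.symm_Λ_eq, hmel]
    rw [h2] at h
    have h3 : ((P.k : ℝ) : ℂ) = 2 := by
      change (((2:ℝ) : ℝ) : ℂ) = 2
      norm_num
    rw [h3] at h
    exact h
  · intro s
    rw [hmel, hmel]
    unfold mellin
    rw [← integral_conj]
    refine setIntegral_congr_fun measurableSet_Ioi (fun t ht => ?_)
    have ht0 : 0 < t := ht
    simp only [smul_eq_mul, map_mul, hf, Complex.conj_ofReal]
    congr 1
    have harg : ((t : ℝ) : ℂ).arg ≠ π := by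
      rw [Complex.arg_ofReal_of_nonneg ht0.le]
      exact Real.pi_pos.ne
    have h1 := Complex.cpow_conj (t : ℂ) (s - 1) harg
    rw [Complex.conj_ofReal, map_sub, map_one] at h1
    rw [h1]
  · intro s hs
    rw [hmel]
    have hs0 : 0 < s.re := by linarith
    have hsum := hasSum_mellin (a := fun n : ℕ => ((b n : ℝ) : ℂ)) (p := fun n : ℕ => π * n / √Q)
      (F := f) (s := s) (by
        intro n
        rcases Nat.eq_zero_or_pos n with rfl | hn
        · left; rw [hb.zero]; simp
        · right; positivity) hs0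
      (by
        intro t ht
        have ht0 : 0 < t := ht
        have h1 := (hb.summable_exp' (a := t / √Q) (by positivity)).hasSum
        have h2 := Complex.hasSum_ofReal.mpr h1
        simp only [hf, thetaSer]
        convert h2 using 1
        funext n
        push_cast
        congr 2
        ring_nf)
      (by
        refine ((hb.summable _ hs).mul_left ((√Q / π) ^ s.re)).congr (fun n => ?_)
        rcases Nat.eq_zero_or_pos n with rfl | hn
        · rw [hb.zero]; simp
        · have hn' : (0:ℝ) < n := by exact_mod_cast hn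
          rw [Complex.norm_real, Real.norm_eq_abs]
          have e1 : π * n / √Q = (√Q / π)⁻¹ * n := by field_simp
          rw [e1, Real.mul_rpow (by positivity) hn'.le, Real.inv_rpow (by positivity),
            Real.rpow_neg hn'.le]
          field_simp)
    rw [← hsum.tsum_eq, ← tsum_mul_left]
    refine tsum_congr (fun n => ?_)
    rcases Nat.eq_zero_or_pos n with rfl | hn
    · rw [hb.zero]; simp
    · have hn' : (0:ℝ) < n := by exact_mod_cast hn
      have e1 : ((π * n / √Q : ℝ) : ℂ) = (((√Q / π)⁻¹ : ℝ) : ℂ) * ((n : ℝ) : ℂ) := by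
        rw [← Complex.ofReal_mul]
        congr 1
        field_simp
      have e2 : ((((√Q / π)⁻¹ : ℝ) : ℂ) * ((n : ℝ) : ℂ)) ^ s =
          (((√Q / π : ℝ) : ℂ) ^ s)⁻¹ * ((n : ℂ) ^ s) := by
        rw [Complex.mul_cpow_ofReal_nonneg (by positivity) hn'.le, Complex.ofReal_inv,
          Complex.inv_cpow, Complex.ofReal_natCast]
        rw [Complex.arg_ofReal_of_nonneg (by positivity)]
        exact Real.pi_pos.ne
      rw [e1, e2, Complex.cpow_neg]
      have h3 : (((√Q / π : ℝ) : ℂ) ^ s) ≠ 0 := by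
        rw [Complex.cpow_def_of_ne_zero (by
          have : √Q / π ≠ 0 := by positivity
          exact_mod_cast this)]
        exact Complex.exp_ne_zero _
      rw [div_eq_mul_inv, mul_inv, inv_inv]
      ring
  · intro σ₁ σ₂
    refine ⟨∫ t in Ioi (0:ℝ), (‖(t : ℂ) ^ ((σ₁ : ℂ) - 1) • f t‖ +
      ‖(t : ℂ) ^ ((σ₂ : ℂ) - 1) • f t‖), ?_⟩
    intro s h1 h2
    rw [hmel]
    unfold mellin
    refine (norm_integral_le_integral_norm _).trans ?_
    refine setIntegral_mono_on (hconv s).norm ((hconv σ₁).norm.add (hconv σ₂).norm)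
      measurableSet_Ioi (fun t ht => ?_)
    have ht0 : 0 < t := ht
    simp only [norm_smul, Complex.norm_cpow_eq_rpow_re_of_pos ht0]
    rw [← add_mul]
    apply mul_le_mul_of_nonneg_right _ (norm_nonneg _)
    simp only [Complex.sub_re, Complex.one_re, Complex.ofReal_re]
    rcases le_total t 1 with h | h
    · have h3 : t ^ (s.re - 1) ≤ t ^ (σ₁ - 1) :=
        Real.rpow_le_rpow_of_exponent_ge ht0 h (by linarith)
      have h4 : 0 ≤ t ^ (σ₂ - 1) := by positivity
      linarith
    · have h3 : t ^ (s.re - 1) ≤ t ^ (σ₂ - 1) :=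
        Real.rpow_le_rpow_of_exponent_le h (by linarith)
      have h4 : 0 ≤ t ^ (σ₁ - 1) := by positivity
      linarith

end Pool.Agent.H6
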