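import Mathlib
import Pool.Agent.H5.Euler
import Pool.Agent.H6.CoeffBound
import Pool.Agent.H6.MellinFE
import Pool.Agent.H6.HeatMain

/-!
The completed L-function of `y² = x³ - d² x`, from the theta functional equation.
-/

open Real MeasureTheory Set Filter Topology

namespace Pool.Agent.H6

open Pool.Agent.H5

lemma goodCoeff_bd (d : ℤ) : GoodCoeff (fun n => (bd d n : ℝ)) where
  zero := by simp [bd_zero]
  summable σ hσ := by
    refine Summable.of_nonneg_of_le (fun n => by positivity) (fun n => ?_) (summable_lattice hσ)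
    exact mul_le_mul_of_nonneg_right (abs_bd_le d n) (by positivity)

lemma norm_term_le (d : ℤ) {s : ℂ} {σ : ℝ} (hσ : σ ≤ s.re) (n : ℕ) :
    ‖(bd d n : ℂ) * (n : ℂ) ^ (-s)‖ ≤ |(c n : ℝ)| * (n : ℝ) ^ (-σ) := by
  rcases Nat.eq_zero_or_pos n with rfl | hn
  · rw [bd_zero]; simp [c_zero]
  · have hn1 : (1:ℝ) ≤ n := by exact_mod_cast hn
    rw [norm_mul, Complex.norm_natCast_cpow_of_pos hn, Complex.norm_intCast]
    have h1 := abs_bd_le d n
    have h2 : (n : ℝ) ^ (-s).re ≤ (n : ℝ) ^ (-σ) :=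
      Real.rpow_le_rpow_of_exponent_le hn1 (by simp; exact hσ)
    gcongr

lemma tsum_c_le : ∑' n : ℕ, |(c n : ℝ)| * (n : ℝ) ^ (-(2:ℝ)) ≤ 8 := by
  refine (summable_lattice (by norm_num)).tsum_le_of_sum_le sum_abs_c_le

lemma norm_Lser_le (d : ℤ) {s : ℂ} (hs : 2 ≤ s.re) : ‖Lser d s‖ ≤ 8 := by
  have hsum := summable_bd d (s := s) (by linarith)
  unfold Lser
  refine (norm_tsum_le_tsum_norm hsum).trans ?_
  refine (hsum.tsum_le_tsum (norm_term_le d hs) (summable_lattice (by norm_num))).trans ?_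
  exact tsum_c_le

lemma c_small {n : ℕ} (h2 : 2 ≤ n) (h4 : n ≤ 4) : c n = 0 := by
  interval_cases n
  · unfold c; rw [C_of_even (by norm_num)]; rfl
  · unfold c; rw [C_inert_one 3 (by norm_num)]; rfl
  · unfold c; rw [C_of_even (by norm_num)]; rfl

lemma norm_Lser_sub_one_le (d : ℤ) {s : ℂ} (hs : 6 ≤ s.re) : ‖Lser d s - 1‖ ≤ 1 / 15 := by
  have hsum := summable_bd d (s := s) (by linarith)
  have hsum' : Summable (fun n : ℕ => (bd d n : ℂ) * (n : ℂ) ^ (-s)) := hsum.of_norm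
  have h1 : Lser d s - 1 = ∑' n : ℕ, (if n = 1 then 0 else (bd d n : ℂ) * (n : ℂ) ^ (-s)) := by
    have h2 := hsum'.tsum_eq_add_tsum_ite 1
    unfold Lser
    rw [h2, bd_one]
    simp
  rw [h1]
  have hb : ∀ n : ℕ, ‖(if n = 1 then 0 else (bd d n : ℂ) * (n : ℂ) ^ (-s))‖ ≤
      (1 / 625) * (|(c n : ℝ)| * (n : ℝ) ^ (-(2:ℝ))) := by
    intro n
    split_ifs with h
    · rw [norm_zero]; positivity
    · rcases Nat.lt_or_ge n 5 with h5 | h5
      · rcases Nat.eq_zero_or_pos n with rfl | hn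
        · rw [bd_zero]; simp [c_zero]
        · have hc : c n = 0 := c_small (by omega) (by omega)
          have hbd : bd d n = 0 := by unfold bd; rw [hc, mul_zero]
          rw [hbd, hc]; simp
      · refine (norm_term_le d hs n).trans ?_
        have hn5 : (5:ℝ) ≤ n := by exact_mod_cast h5
        have hn0 : (0:ℝ) < n := by linarith
        have e : (n : ℝ) ^ (-(6:ℝ)) = (n : ℝ) ^ (-(2:ℝ)) * ((n:ℝ) ^ 4)⁻¹ := by
          rw [← Real.rpow_natCast (n:ℝ) 4, ← Real.rpow_neg hn0.le, ← Real.rpow_add hn0]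
          norm_num
        rw [e]
        have h625 : ((n:ℝ) ^ 4)⁻¹ ≤ 1 / 625 := by
          rw [inv_eq_one_div]
          apply one_div_le_one_div_of_le (by norm_num)
          have : (5:ℝ) ^ 4 ≤ (n:ℝ) ^ 4 := by gcongr
          norm_num at this
          exact this
        calc |(c n : ℝ)| * ((n : ℝ) ^ (-(2:ℝ)) * ((n:ℝ) ^ 4)⁻¹) ≤
            |(c n : ℝ)| * ((n : ℝ) ^ (-(2:ℝ)) * (1 / 625)) := by gcongr
          _ = _ := by ring
  have hs2 := (summable_lattice (σ := 2) (by norm_num)).mul_left (1 / 625)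
  have hs1 := Summable.of_nonneg_of_le (fun n => norm_nonneg _) hb hs2
  refine (norm_tsum_le_tsum_norm hs1).trans ?_
  refine (hs1.tsum_le_tsum hb hs2).trans ?_
  rw [tsum_mul_left]
  have := tsum_c_le
  linarith

/-- FE data for `y² = x³ - d² x` from the theta functional equation. -/
theorem exists_FEData (d : ℤ) {Q : ℝ} (hQ : 0 < Q) {w : ℝ} (hw : w = 1 ∨ w = -1)
    (hfe : ∀ y : ℝ, 0 < y → thetaSer (fun n => (bd d n : ℝ)) y =
      w / (Q * y ^ 2) * thetaSer (fun n => (bd d n : ℝ)) (1 / (Q * y))) :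
    ∃ Λ : ℂ → ℂ, FEData (√Q / π) Λ (Lser d) (w : ℂ) ∧
      ∀ s : ℂ, 3 / 2 < s.re → Λ s = ((√Q / π : ℝ) : ℂ) ^ s * Complex.Gamma s * Lser d s := by
  obtain ⟨Λ, h1, h2, h3, h4, h5⟩ := exists_FE (goodCoeff_bd d) hQ hw hfe
  have h4' : ∀ s : ℂ, 3 / 2 < s.re →
      Λ s = ((√Q / π : ℝ) : ℂ) ^ s * Complex.Gamma s * Lser d s := by
    intro s hs
    rw [h4 s hs]
    unfold Lser
    simp
  refine ⟨Λ, ?_, h4'⟩
  exact
    { M_pos := div_pos (Real.sqrt_pos.mpr hQ) Real.pi_pos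
      sign := by rcases hw with h | h <;> simp [h]
      diff := h1
      fe := h2
      real := h3
      eqL := fun s hs => h4' s (by linarith)
      bound := fun s hs => (norm_Lser_le d hs).trans (by norm_num)
      close := fun s hs => norm_Lser_sub_one_le d hs
      bdd := h5 0 2 }

end Pool.Agent.H6
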