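import Mathlib
import Pool.Agent.H5.EulerFrozen
import Pool.Agent.H6.EdFE
import Pool.Agent.H6.HeatSharp

/-!
Uniform bounds for the L-series of `y² = x³ - d² x`.
-/

open Real MeasureTheory Set Filter Topology

namespace Pool.Agent.H6

open Pool.Agent.H5

/-- the constant bounding the Dirichlet series -/
noncomputable def Zc (σ : ℝ) : ℝ := ∑' n : ℕ, |(c n : ℝ)| * (n : ℝ) ^ (-σ)

lemma Zc_nonneg (σ : ℝ) : 0 ≤ Zc σ := tsum_nonneg (fun n => by positivity)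

lemma norm_Lser_le_Zc (d : ℤ) {s : ℂ} {σ : ℝ} (hσ : 3 / 2 < σ) (hs : σ ≤ s.re) :
    ‖Lser d s‖ ≤ Zc σ := by
  have hsum := summable_bd d (s := s) (by linarith)
  unfold Lser Zc
  refine (norm_tsum_le_tsum_norm hsum).trans ?_
  exact hsum.tsum_le_tsum (norm_term_le d hs) (summable_lattice hσ)

lemma exp_diff_le {a v c y : ℝ} (hy : 0 ≤ y) (hv : a ≤ v) (hc : a ≤ c) :
    |Real.exp (-(v * y)) - Real.exp (-(c * y))| ≤ |v - c| * (y * Real.exp (-(a * y))) := by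
  wlog hvc : v ≤ c generalizing v c
  · have := this hc hv (le_of_not_ge hvc)
    rw [abs_sub_comm, abs_sub_comm v c]
    exact this
  have h1 : Real.exp (-(c * y)) ≤ Real.exp (-(v * y)) := by
    apply Real.exp_le_exp.mpr
    nlinarith
  rw [abs_of_nonneg (by linarith), abs_of_nonpos (by linarith)]
  have h2 : Real.exp (-(c * y)) = Real.exp (-(v * y)) * Real.exp (-((c - v) * y)) := by
    rw [← Real.exp_add]; congr 1; ring
  have h3 := Real.add_one_le_exp (-((c - v) * y))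
  have h4 : Real.exp (-(v * y)) ≤ Real.exp (-(a * y)) := by
    apply Real.exp_le_exp.mpr
    nlinarith
  have h5 := Real.exp_pos (-(v * y))
  have h6 : 0 ≤ (c - v) * y := mul_nonneg (by linarith) hy
  calc Real.exp (-(v * y)) - Real.exp (-(c * y)) =
      Real.exp (-(v * y)) * (1 - Real.exp (-((c - v) * y))) := by rw [h2]; ring
    _ ≤ Real.exp (-(v * y)) * ((c - v) * y) := by
        apply mul_le_mul_of_nonneg_left _ h5.le
        linarith
    _ ≤ Real.exp (-(a * y)) * ((c - v) * y) := by gcongr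
    _ = _ := by ring

lemma Lser_lip (d : ℤ) {a x c' v : ℝ} (ha : 1 / 2 < a) (hc : a ≤ c') (hv : a ≤ v) :
    ‖Lser d (pt x v) - Lser d (pt x c')‖ ≤
      (2 / (a - 1 / 2) * Zc (1 + a - (a - 1 / 2) / 2)) * |v - c'| := by
  set δ := (a - 1 / 2) / 2 with hδ
  have hδ0 : 0 < δ := by rw [hδ]; linarith
  have hσ : 3 / 2 < 1 + a - δ := by rw [hδ]; linarith
  have hs1 := summable_bd d (s := pt x v) (by rw [pt_re]; linarith)
  have hs2 := summable_bd d (s := pt x c') (by rw [pt_re]; linarith)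
  have hs := summable_lattice hσ
  have hsub : Lser d (pt x v) - Lser d (pt x c') = ∑' n : ℕ,
      ((bd d n : ℂ) * (n : ℂ) ^ (-(pt x v)) - (bd d n : ℂ) * (n : ℂ) ^ (-(pt x c'))) := by
    unfold Lser
    rw [hs1.of_norm.tsum_sub hs2.of_norm]
  have hb : ∀ n : ℕ, ‖(bd d n : ℂ) * (n : ℂ) ^ (-(pt x v)) - (bd d n : ℂ) * (n : ℂ) ^ (-(pt x c'))‖ ≤
      (|v - c'| * (1 / δ)) * (|(c n : ℝ)| * (n : ℝ) ^ (-(1 + a - δ))) := by
    intro n
    rcases Nat.eq_zero_or_pos n with rfl | hn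
    · rw [bd_zero]; simp [c_zero]
    · have hn1 : (1:ℝ) ≤ n := by exact_mod_cast hn
      have hn0 : (0:ℝ) < n := by linarith
      have hnC : (n : ℂ) ≠ 0 := by exact_mod_cast hn0.ne'
      have e : ∀ u : ℝ, (n : ℂ) ^ (-(pt x u)) =
          (n : ℂ) ^ (-(pt x 0)) * ((Real.exp (-(u * Real.log n)) : ℝ) : ℂ) := by
        intro u
        have h1 : -(pt x u) = -(pt x 0) + ((-u : ℝ) : ℂ) := by
          have := pt_add x 0 u
          rw [zero_add] at this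
          rw [this]; push_cast; ring
        rw [h1, Complex.cpow_add _ _ hnC]
        congr 1
        rw [Complex.ofReal_exp, Complex.cpow_def_of_ne_zero hnC, ← Complex.natCast_log]
        push_cast
        congr 1
        ring
      rw [e v, e c', ← mul_sub, ← mul_sub, norm_mul, norm_mul, Complex.norm_intCast,
        ← Complex.ofReal_sub, Complex.norm_real, Real.norm_eq_abs,
        Complex.norm_natCast_cpow_of_pos hn]
      have h1 := abs_bd_le d n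
      have hlog : 0 ≤ Real.log n := Real.log_nonneg hn1
      have h2 := exp_diff_le (a := a) hlog hv hc
      have h3 : (n : ℝ) ^ (-(pt x 0)).re = (n : ℝ) ^ (-(1:ℝ)) := by
        congr 1
        rw [Complex.neg_re, pt_re]; ring
      rw [h3]
      have h4 : Real.log n ≤ (n : ℝ) ^ δ / δ := Real.log_le_rpow_div hn0.le hδ0
      have h5 : Real.exp (-(a * Real.log n)) = (n : ℝ) ^ (-a) := by
        rw [Real.rpow_def_of_pos hn0]; congr 1; ring
      rw [h5] at h2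
      have h6 : (n : ℝ) ^ (-(1 + a - δ)) = (n : ℝ) ^ (-(1:ℝ)) * ((n : ℝ) ^ δ * (n : ℝ) ^ (-a)) := by
        rw [← Real.rpow_add hn0, ← Real.rpow_add hn0]; congr 1; ring
      calc |(bd d n : ℝ)| * ((n : ℝ) ^ (-(1:ℝ)) *
            |Real.exp (-(v * Real.log n)) - Real.exp (-(c' * Real.log n))|)
          ≤ |(c n : ℝ)| * ((n : ℝ) ^ (-(1:ℝ)) * (|v - c'| * (Real.log n * (n : ℝ) ^ (-a)))) := by
            gcongr
        _ ≤ |(c n : ℝ)| * ((n : ℝ) ^ (-(1:ℝ)) * (|v - c'| * (((n : ℝ) ^ δ / δ) * (n : ℝ) ^ (-a)))) := by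
            gcongr
        _ = _ := by rw [h6]; ring
  rw [hsub]
  have hsb := hs.mul_left (|v - c'| * (1 / δ))
  have hsn : Summable (fun n : ℕ => ‖(bd d n : ℂ) * (n : ℂ) ^ (-(pt x v)) -
      (bd d n : ℂ) * (n : ℂ) ^ (-(pt x c'))‖) :=
    Summable.of_nonneg_of_le (fun n => norm_nonneg _) hb hsb
  refine (norm_tsum_le_tsum_norm hsn).trans ?_
  refine (hsn.tsum_le_tsum hb hsb).trans (le_of_eq ?_)
  rw [tsum_mul_left]
  unfold Zc
  have : 2 / (a - 1 / 2) = 1 / δ := by rw [hδ]; field_simp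
  rw [this]
  ring

/-- Hasse bound for this family -/
lemma ap_sq_le (d : ℤ) (p : ℕ) [hp : Fact p.Prime] (hp2 : p ≠ 2) :
    ((ap (-d ^ 2) 0 p : ℤ) : ℝ) ^ 2 ≤ 4 * p := by
  have hodd : p % 4 = 1 ∨ p % 4 = 3 := by
    have := hp.out.eq_two_or_odd
    omega
  rcases hodd with h | h
  · obtain ⟨ϖ, hϖ, hn, htr⟩ := trace_one_mod_four p h
    have hap : ap (-d ^ 2) 0 p = legendreSym p d * (2 * ϖ.re) := by
      unfold ap; rw [htr d]
    have hl : (legendreSym p d) ^ 2 ≤ 1 := by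
      rcases eq_or_ne ((d : ℤ) : ZMod p) 0 with h0 | h0
      · rw [(legendreSym.eq_zero_iff p d).mpr h0]; norm_num
      · rw [legendreSym.sq_one p h0]
    have h1 : (ap (-d ^ 2) 0 p) ^ 2 ≤ 4 * p := by
      rw [hap]
      have h2 : (legendreSym p d * (2 * ϖ.re)) ^ 2 = (legendreSym p d) ^ 2 * (4 * ϖ.re ^ 2) := by ring
      rw [h2]
      have h3 : ϖ.re ^ 2 ≤ p := by nlinarith [sq_nonneg ϖ.im]
      nlinarith [sq_nonneg ϖ.re, sq_nonneg (legendreSym p d)]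
    exact_mod_cast h1
  · have hap : ap (-d ^ 2) 0 p = 0 := trace_three_mod_four p h d
    rw [hap]
    simp

/-- lower bound of the local factors -/
lemma local_lower (d : ℤ) (p : Nat.Primes) {s : ℂ} (hs : 2 ≤ s.re) :
    1 ≤ ‖∑' e : ℕ, (bd d ((p : ℕ) ^ e) : ℂ) * (((p : ℕ) ^ e : ℕ) : ℂ) ^ (-s)‖ *
      ‖(1 - ((p : ℕ) : ℂ) ^ (-(3 / 2 : ℂ)))⁻¹‖ ^ 2 := by
  have hf := Fact.mk p.2
  have hp0 : (0:ℝ) < (p : ℕ) := by exact_mod_cast p.2.pos
  have hp2 : (2:ℝ) ≤ (p : ℕ) := by exact_mod_cast p.2.two_le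
  have hp1 : (1:ℝ) ≤ (p : ℕ) := by linarith
  set y : ℝ := ((p : ℕ) : ℝ) ^ (-(3 / 2 : ℝ)) with hy
  have hy0 : 0 < y := by positivity
  have hy1 : y < 1 := Real.rpow_lt_one_of_one_lt_of_neg (by linarith) (by norm_num)
  have e1 : ((p : ℕ) : ℂ) ^ (-(3 / 2 : ℂ)) = ((y : ℝ) : ℂ) := by
    rw [hy, Complex.ofReal_cpow hp0.le]
    push_cast
    rfl
  have e2 : ‖(1 - ((p : ℕ) : ℂ) ^ (-(3 / 2 : ℂ)))⁻¹‖ = (1 - y)⁻¹ := by
    rw [e1, ← Complex.ofReal_one, ← Complex.ofReal_sub, norm_inv, Complex.norm_real,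
      Real.norm_eq_abs, abs_of_pos (by linarith)]
  rw [e2]
  have h1y : 0 < 1 - y := by linarith
  by_cases hbad : (p : ℕ) = 2 ∨ ((p : ℕ) : ℤ) ∣ d
  · rw [factor_bad d p hbad s, norm_one, one_mul]
    have h2 : 1 ≤ (1 - y)⁻¹ := (one_le_inv₀ h1y).mpr (by linarith)
    nlinarith
  · push Not at hbad
    rw [factor_good d p hbad.1 hbad.2 (by linarith : 3 / 2 < s.re)]
    rw [norm_inv]
    set x := ((p : ℕ) : ℂ) ^ (-s) with hx
    have hxn : ‖x‖ = ((p : ℕ) : ℝ) ^ (-s.re) := by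
      rw [hx, Complex.norm_natCast_cpow_of_pos p.2.pos]; simp
    have hx2 : ((p : ℕ) : ℂ) ^ (-2 * s) = x ^ 2 := by
      rw [hx, ← Complex.cpow_nat_mul]; congr 1; push_cast; ring
    rw [hx2]
    have hap := ap_sq_le d p hbad.1
    set A : ℝ := ((ap (-d ^ 2) 0 p : ℤ) : ℝ) with hA
    have hAn : ‖((ap (-d ^ 2) 0 p : ℤ) : ℂ)‖ = |A| := by
      rw [Complex.norm_intCast]
    have hs0 : 0 < √((p : ℕ) : ℝ) := Real.sqrt_pos.mpr hp0
    have hs2 : √((p : ℕ) : ℝ) ^ 2 = ((p : ℕ) : ℝ) := Real.sq_sqrt hp0.le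
    have hAle : |A| ≤ 2 * √((p : ℕ) : ℝ) := by
      apply abs_le_of_sq_le_sq _ (by positivity)
      rw [mul_pow, hs2]
      linarith
    set z := √((p : ℕ) : ℝ) * ‖x‖ with hz
    have hz0 : 0 ≤ z := by positivity
    have hzy : z ≤ y := by
      rw [hz, hxn, hy, Real.sqrt_eq_rpow, ← Real.rpow_add hp0]
      apply Real.rpow_le_rpow_of_exponent_le hp1
      linarith
    have hD : ‖1 - ((ap (-d ^ 2) 0 p : ℤ) : ℂ) * x + ((p : ℕ) : ℂ) * x ^ 2‖ ≤ (1 + z) ^ 2 := by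
      have h3 : ‖((p : ℕ) : ℂ)‖ = ((p : ℕ) : ℝ) := Complex.norm_natCast _
      calc ‖1 - ((ap (-d ^ 2) 0 p : ℤ) : ℂ) * x + ((p : ℕ) : ℂ) * x ^ 2‖
          ≤ ‖1 - ((ap (-d ^ 2) 0 p : ℤ) : ℂ) * x‖ + ‖((p : ℕ) : ℂ) * x ^ 2‖ := norm_add_le _ _
        _ ≤ (1 + |A| * ‖x‖) + ((p : ℕ) : ℝ) * ‖x‖ ^ 2 := by
            gcongr
            · refine (norm_sub_le _ _).trans ?_
              rw [norm_one, norm_mul, hAn]
            · rw [norm_mul, norm_pow, h3]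
        _ ≤ (1 + (2 * √((p : ℕ) : ℝ)) * ‖x‖) + ((p : ℕ) : ℝ) * ‖x‖ ^ 2 := by gcongr
        _ = (1 + z) ^ 2 := by
            rw [hz]
            nth_rewrite 2 [← hs2]
            ring
    have hDpos : 0 < ‖1 - ((ap (-d ^ 2) 0 p : ℤ) : ℂ) * x + ((p : ℕ) : ℂ) * x ^ 2‖ := by
      apply norm_pos_iff.mpr
      intro h0
      have h4 : (1:ℝ) ≤ |A| * ‖x‖ + ((p : ℕ) : ℝ) * ‖x‖ ^ 2 := by
        have h5 : (1:ℂ) = ((ap (-d ^ 2) 0 p : ℤ) : ℂ) * x - ((p : ℕ) : ℂ) * x ^ 2 := by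
          linear_combination h0
        have h6 := congrArg norm h5
        rw [norm_one] at h6
        calc (1:ℝ) = ‖((ap (-d ^ 2) 0 p : ℤ) : ℂ) * x - ((p : ℕ) : ℂ) * x ^ 2‖ := h6
          _ ≤ ‖((ap (-d ^ 2) 0 p : ℤ) : ℂ) * x‖ + ‖((p : ℕ) : ℂ) * x ^ 2‖ := norm_sub_le _ _
          _ = _ := by rw [norm_mul, norm_mul, norm_pow, hAn, Complex.norm_natCast]
      have h7 : |A| * ‖x‖ + ((p : ℕ) : ℝ) * ‖x‖ ^ 2 ≤ 2 * z + z ^ 2 := by
        have h8 : |A| * ‖x‖ ≤ (2 * √((p : ℕ) : ℝ)) * ‖x‖ := by gcongr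
        have h9 : ((p : ℕ) : ℝ) * ‖x‖ ^ 2 = z ^ 2 := by rw [hz, mul_pow, hs2]
        rw [h9]
        have : (2 * √((p : ℕ) : ℝ)) * ‖x‖ = 2 * z := by rw [hz]; ring
        linarith
      -- y ≤ 2^(-3/2) < 0.36
      have h10 : y ≤ 0.36 := by
        have h11 : y ≤ (2:ℝ) ^ (-(3 / 2 : ℝ)) := by
          rw [hy]
          exact Real.rpow_le_rpow_of_nonpos (by norm_num) hp2 (by norm_num)
        have h12 : ((2:ℝ) ^ (-(3 / 2 : ℝ))) ^ 2 = 1 / 8 := by
          rw [← Real.rpow_natCast, ← Real.rpow_mul (by norm_num)]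
          norm_num
        have h13 : (2:ℝ) ^ (-(3 / 2 : ℝ)) ≤ 0.36 := by
          apply le_of_sq_le_sq _ (by norm_num)
          rw [h12]; norm_num
        linarith
      nlinarith
    have h14 : (1 + z) ^ 2 * (1 - y) ^ 2 ≤ 1 := by
      have h15 : (1 + z) * (1 - y) ≤ 1 := by nlinarith
      have h16 : 0 ≤ (1 + z) * (1 - y) := by positivity
      calc (1 + z) ^ 2 * (1 - y) ^ 2 = ((1 + z) * (1 - y)) ^ 2 := by ring
        _ ≤ 1 ^ 2 := by gcongr
        _ = 1 := one_pow 2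
    rw [inv_pow, ← mul_inv, one_le_inv₀ (by positivity)]
    calc _ ≤ (1 + z) ^ 2 * (1 - y) ^ 2 := by gcongr
      _ ≤ 1 := h14

/-- the uniform lower bound constant -/
noncomputable def z0c : ℝ := 1 / ‖riemannZeta (3 / 2)‖ ^ 2

lemma Lser_lower_aux (d : ℤ) {s : ℂ} (hs : 2 ≤ s.re) :
    1 ≤ ‖Lser d s‖ * ‖riemannZeta (3 / 2)‖ ^ 2 := by
  have h1 := (euler_hasProd d (by linarith : 3 / 2 < s.re)).norm
  have h2 := (riemannZeta_eulerProduct_hasProd (s := 3 / 2) (by norm_num)).norm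
  have h3 := h1.mul (h2.mul h2)
  have h4 : 1 ≤ ‖Lser d s‖ * (‖riemannZeta (3 / 2)‖ * ‖riemannZeta (3 / 2)‖) := by
    refine ge_of_tendsto' h3 (fun S => ?_)
    rw [← Finset.prod_const_one (s := S) (ι := Nat.Primes)]
    apply Finset.prod_le_prod
    · intro p _; norm_num
    · intro p _
      have := local_lower d p hs
      rw [sq] at this
      exact this
  rw [sq]
  exact h4

lemma zeta_pos : 0 < ‖riemannZeta (3 / 2)‖ := by
  have := Lser_lower_aux 1 (s := 2) (by norm_num)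
  by_contra h
  have h0 : ‖riemannZeta (3 / 2)‖ = 0 := le_antisymm (not_lt.mp h) (norm_nonneg _)
  rw [h0] at this
  norm_num at this

lemma z0c_pos : 0 < z0c := by
  unfold z0c
  have := zeta_pos
  positivity

lemma Lser_lower (d : ℤ) {s : ℂ} (hs : 2 ≤ s.re) : z0c ≤ ‖Lser d s‖ := by
  unfold z0c
  have h1 := Lser_lower_aux d hs
  have h2 := zeta_pos
  rw [div_le_iff₀ (by positivity)]
  exact h1

/-- all uniform bounds together -/
lemma uniData (d : ℤ) {M a : ℝ} (ha : 1 / 2 < a) {Λ : ℂ → ℂ}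
    (hΛ : ∀ s : ℂ, 3 / 2 < s.re → Λ s = (M : ℂ) ^ s * Complex.Gamma s * Lser d s) :
    UniData M a (Zc (1 + a)) (2 / (a - 1 / 2) * Zc (1 + a - (a - 1 / 2) / 2)) z0c Λ (Lser d) where
  eqL s hs := hΛ s (by linarith)
  bound s hs := norm_Lser_le_Zc d (by linarith) hs
  lip x c v hc hv := Lser_lip d ha hc hv
  low s hs := Lser_lower d hs

lemma exists_smallT {Z Z1 z0 ε1 : ℝ} (hZ : 0 ≤ Z) (hZ1 : 0 ≤ Z1) (hz0 : 0 < z0) (hε1 : 0 < ε1) :
    ∃ t0 : ℝ, 0 < t0 ∧ ∀ t, 0 < t → t ≤ t0 → SmallT Z Z1 z0 ε1 t := by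
  set A : ℝ := 8 * (11 * Z + 2 * Z1) with hA
  set B : ℝ := 16 * Z * Real.exp (5 / 2) * Real.exp 69 * (2 / ε1) with hB
  have hA0 : 0 ≤ A := by positivity
  have hB0 : 0 ≤ B := by positivity
  refine ⟨min (1 / 100) ((z0 / (A + B + 1)) ^ 2), by positivity, ?_⟩
  intro t ht htt
  have h1 : t ≤ 1 / 100 := htt.trans (min_le_left _ _)
  have h2 : t ≤ (z0 / (A + B + 1)) ^ 2 := htt.trans (min_le_right _ _)
  have h3 : √t ≤ z0 / (A + B + 1) := by
    rw [← Real.sqrt_sq (by positivity : 0 ≤ z0 / (A + B + 1))]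
    exact Real.sqrt_le_sqrt h2
  have h4 : (A + B + 1) * √t ≤ z0 := by
    rw [le_div_iff₀ (by positivity)] at h3
    linarith
  have hs0 : 0 ≤ √t := Real.sqrt_nonneg t
  have hs1 : √t * √t = t := Real.mul_self_sqrt ht.le
  refine ⟨h1, ?_, ?_⟩
  · nlinarith
  · have h5 : Real.exp (69 - ε1 / (2 * t)) ≤ Real.exp 69 * (2 / ε1 * t) := by
      rw [sub_eq_add_neg, Real.exp_add]
      apply mul_le_mul_of_nonneg_left _ (Real.exp_pos _).le
      rw [Real.exp_neg]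
      have h6 : ε1 / (2 * t) ≤ Real.exp (ε1 / (2 * t)) := by
        have := Real.add_one_le_exp (ε1 / (2 * t))
        linarith
      have h7 : 2 / ε1 * t = (ε1 / (2 * t))⁻¹ := by field_simp
      rw [h7]
      exact inv_anti₀ (by positivity) h6
    calc 8 * (2 * Z * Real.exp (5 / 2) * Real.exp (69 - ε1 / (2 * t)))
        ≤ 8 * (2 * Z * Real.exp (5 / 2) * (Real.exp 69 * (2 / ε1 * t))) := by gcongr
      _ = B * (√t * √t) := by rw [hs1, hB]; ring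
      _ = (B * √t) * √t := by ring
      _ ≤ z0 * √t := by
        gcongr
        nlinarith

end Pool.Agent.H6
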