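import Mathlib
import Pool.Agent.H6.EdUniform

/-!
Sharp range of the heat flow for `y² = x³ - d² x`, conditional only on the theta functional
equation (proved elsewhere).
-/

open Real MeasureTheory Set Filter Topology

namespace Pool.Agent.H6

open Pool.Agent.H5

lemma pt_norm_sq (x : ℝ) : ‖pt x 0‖ ^ 2 = 1 + x ^ 2 := by
  rw [← Complex.normSq_eq_norm_sq, Complex.normSq_apply]
  simp [pt]
  ring

lemma log_eight_pi_sq : Real.log (8 * π ^ 2) ≤ 5 := by
  rw [Real.log_le_iff_le_exp (by positivity)]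
  have h1 : Real.exp 5 = Real.exp 1 ^ 5 := by rw [← Real.exp_nat_mul]; norm_num
  rw [h1]
  have h2 : (2.7:ℝ) ≤ Real.exp 1 := by linarith [Real.exp_one_gt_d9]
  have h3 : (2.7:ℝ) ^ 5 ≤ Real.exp 1 ^ 5 := by gcongr
  have h4 := Real.pi_lt_d2
  have h5 := Real.pi_pos
  nlinarith

lemma peak_bounds {M x t Q : ℝ} (hM : 0 < M) (ht : 0 < t)
    (hQ : Q = (2 * π * M) ^ 2 * (1 + |x|) ^ 2) :
    t * Real.log Q - 7 * t ≤ 2 * t * (Real.log (M * ‖pt x 0‖) - 5 / 6) ∧
    2 * t * (Real.log (M * ‖pt x 0‖) - 5 / 6) ≤ t * Real.log Q := by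
  have hn := one_le_norm_pt x
  have hbase : 0 < M * ‖pt x 0‖ := by positivity
  have hpi := Real.pi_gt_three
  have hQ0 : 0 < Q := by rw [hQ]; positivity
  have hsq : (M * ‖pt x 0‖) ^ 2 = M ^ 2 * (1 + x ^ 2) := by rw [mul_pow, pt_norm_sq]
  have hlog : 2 * Real.log (M * ‖pt x 0‖) = Real.log ((M * ‖pt x 0‖) ^ 2) := by
    rw [Real.log_pow]; norm_num
  have habs : x ^ 2 = |x| ^ 2 := (sq_abs x).symm
  have habs0 := abs_nonneg x
  constructor
  · have h1 : Q ≤ 8 * π ^ 2 * (M * ‖pt x 0‖) ^ 2 := by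
      rw [hQ, hsq, habs]
      have h2 : (1 + |x|) ^ 2 ≤ 2 * (1 + |x| ^ 2) := by nlinarith [sq_nonneg (|x| - 1)]
      calc (2 * π * M) ^ 2 * (1 + |x|) ^ 2 ≤ (2 * π * M) ^ 2 * (2 * (1 + |x| ^ 2)) := by gcongr
        _ = _ := by ring
    have h3 : Real.log Q ≤ 5 + 2 * Real.log (M * ‖pt x 0‖) := by
      refine (Real.log_le_log hQ0 h1).trans ?_
      rw [Real.log_mul (by positivity) (by positivity), hlog]
      linarith [log_eight_pi_sq]
    nlinarith
  · have h1 : (M * ‖pt x 0‖) ^ 2 ≤ Q := by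
      rw [hQ, hsq, habs]
      have h2 : 1 + |x| ^ 2 ≤ (1 + |x|) ^ 2 := by nlinarith
      have h3 : M ^ 2 ≤ (2 * π * M) ^ 2 := by
        have : M ≤ 2 * π * M := by nlinarith
        gcongr
      gcongr
    have h3 : 2 * Real.log (M * ‖pt x 0‖) ≤ Real.log Q := by
      rw [hlog]
      exact Real.log_le_log (by positivity) h1
    nlinarith

/-- concentration in the full range, for a given `ε` -/
theorem exists_sharp {ε : ℝ} (hε : 0 < ε) : ∃ Q0 : ℝ, (7 ≤ ε → Q0 = 1) ∧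
    ∀ (d : ℤ) (M : ℝ) (Λ : ℂ → ℂ) (w : ℂ), FEData M Λ (Lser d) w →
    (∀ s : ℂ, 3 / 2 < s.re → Λ s = (M : ℂ) ^ s * Complex.Gamma s * Lser d s) →
    ∀ t x : ℝ, 0 < t → t ≤ 1 / 8 → Q0 ≤ (2 * π * M) ^ 2 * (1 + |x|) ^ 2 →
    1 + ε ≤ t * Real.log ((2 * π * M) ^ 2 * (1 + |x|) ^ 2) → FEData.Conc Λ t x := by
  rcases le_total 7 ε with h7 | h7
  · refine ⟨1, fun _ => rfl, ?_⟩
    intro d M Λ w D hΛ t x ht ht8 _ h p hp
    exact D.concentrated ht ht8 hp (by linarith)
  · set ε' : ℝ := min ε 1 with hε'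
    have he0 : 0 < ε' := by rw [hε']; positivity
    have he1 : ε' ≤ 1 := min_le_right _ _
    have heε : ε' ≤ ε := min_le_left _ _
    set a : ℝ := 1 / 2 + ε' / 8 with ha
    set ε1 : ℝ := ε' / 8 with hε1
    have hε10 : 0 < ε1 := by positivity
    have ha0 : 1 / 2 < a := by rw [ha]; linarith
    have hZ1 : 0 ≤ 2 / (a - 1 / 2) * Zc (1 + a - (a - 1 / 2) / 2) := by
      have := Zc_nonneg (1 + a - (a - 1 / 2) / 2)
      have h2 : 0 < a - 1 / 2 := by linarith
      positivity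
    obtain ⟨t0, ht0, hsm⟩ := exists_smallT (Zc_nonneg (1 + a)) hZ1 z0c_pos hε10
    set t1 : ℝ := min t0 (ε' / 14) with ht1
    have ht10 : 0 < t1 := by rw [ht1]; positivity
    by_cases h7' : 7 ≤ ε
    · refine ⟨1, fun _ => rfl, ?_⟩
      intro d M Λ w D hΛ t x ht ht8 _ h p hp
      exact D.concentrated ht ht8 hp (by linarith)
    refine ⟨Real.exp (8 / t1), fun h => absurd h h7', ?_⟩
    intro d M Λ w D hΛ t x ht ht8 hQ h
    set Q : ℝ := (2 * π * M) ^ 2 * (1 + |x|) ^ 2 with hQdef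
    rcases le_total 8 (t * Real.log Q) with h8 | h8
    · intro p hp
      exact D.concentrated ht ht8 hp h8
    · have hlogQ : 8 / t1 ≤ Real.log Q := by
        have hQ0 : 0 < Q := lt_of_lt_of_le (Real.exp_pos _) hQ
        rw [Real.le_log_iff_exp_le hQ0]
        exact hQ
      have htt1 : t ≤ t1 := by
        have h9 : 0 < 8 / t1 := by positivity
        have h10 : t * (8 / t1) ≤ 8 := (mul_le_mul_of_nonneg_left hlogQ ht.le).trans h8
        have h11 : t * (8 / t1) = t / t1 * 8 := by ring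
        rw [h11] at h10
        have h12 : t / t1 ≤ 1 := by linarith
        rwa [div_le_one ht10] at h12
      have htt0 : t ≤ t0 := htt1.trans (min_le_left _ _)
      have htε : t ≤ ε' / 14 := htt1.trans (min_le_right _ _)
      obtain ⟨hp1, hp2⟩ := peak_bounds (x := x) D.M_pos ht hQdef
      refine conc_sharp D (uniData d ha0 hΛ) ha0.le (by rw [ha]; linarith) hZ1 z0c_pos hε10 ht
        (hsm t ht htt0) ?_ ?_
      · have : 2 * a + 2 * ε1 = 1 + ε' / 2 := by rw [ha, hε1]; ring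
        rw [this]
        linarith
      · linarith

end Pool.Agent.H6
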