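import Mathlib
import Pool.Agent.H6.EdSharp
import Pool.Agent.H6.ConcGap

/-!
Zero-free region of the heat flow inside the critical strip.
-/

open Real MeasureTheory Set Filter Topology

namespace Pool.Agent.H6

open Pool.Agent.H5

/-- lower bound of the local factors, near the edge -/
lemma local_lower' (d : ℤ) (p : Nat.Primes) {κ : ℝ} (hκ : 1 < κ) {s : ℂ}
    (hs : 1 / 2 + κ ≤ s.re) :
    1 ≤ ‖∑' e : ℕ, (bd d ((p : ℕ) ^ e) : ℂ) * (((p : ℕ) ^ e : ℕ) : ℂ) ^ (-s)‖ *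
      ‖(1 - ((p : ℕ) : ℂ) ^ (-(κ : ℂ)))⁻¹‖ ^ 2 := by
  have hf := Fact.mk p.2
  have hp0 : (0:ℝ) < (p : ℕ) := by exact_mod_cast p.2.pos
  have hp2 : (2:ℝ) ≤ (p : ℕ) := by exact_mod_cast p.2.two_le
  have hp1 : (1:ℝ) ≤ (p : ℕ) := by linarith
  set y : ℝ := ((p : ℕ) : ℝ) ^ (-κ) with hy
  have hy0 : 0 < y := by positivity
  have hy1 : y < 1 := Real.rpow_lt_one_of_one_lt_of_neg (by linarith) (by linarith)
  have e1 : ((p : ℕ) : ℂ) ^ (-(κ : ℂ)) = ((y : ℝ) : ℂ) := by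
    rw [hy, Complex.ofReal_cpow hp0.le]
    push_cast
    rfl
  have e2 : ‖(1 - ((p : ℕ) : ℂ) ^ (-(κ : ℂ)))⁻¹‖ = (1 - y)⁻¹ := by
    rw [e1, ← Complex.ofReal_one, ← Complex.ofReal_sub, norm_inv, Complex.norm_real,
      Real.norm_eq_abs, abs_of_pos (by linarith)]
  rw [e2]
  have h1y : 0 < 1 - y := by linarith
  by_cases hbad : (p : ℕ) = 2 ∨ ((p : ℕ) : ℤ) ∣ d
  · rw [factor_bad d p hbad s, norm_one, one_mul]
    have h2 : 1 ≤ (1 - y)⁻¹ := (one_le_inv₀ h1y).mpr (by linarith)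
    nlinarith
  · push Not at hbad
    rw [factor_good d p hbad.1 hbad.2 (by linarith : 3 / 2 < s.re)]
    rw [norm_inv]
    have hp3 : (3:ℝ) ≤ (p : ℕ) := by
      have h3 : 3 ≤ (p : ℕ) := by
        have := p.2.two_le
        have := hbad.1
        omega
      exact_mod_cast h3
    set x := ((p : ℕ) : ℂ) ^ (-s) with hx
    have hxn : ‖x‖ = ((p : ℕ) : ℝ) ^ (-s.re) := by
      rw [hx, Complex.norm_natCast_cpow_of_pos p.2.pos]; simp
    have hx2 : ((p : ℕ) : ℂ) ^ (-2 * s) = x ^ 2 := by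
      rw [hx, ← Complex.cpow_nat_mul]; congr 1; push_cast; ring
    rw [hx2]
    have hap := ap_sq_le d p hbad.1
    set A : ℝ := ((ap (-d ^ 2) 0 p : ℤ) : ℝ) with hA
    have hAn : ‖((ap (-d ^ 2) 0 p : ℤ) : ℂ)‖ = |A| := by
      rw [Complex.norm_intCast]
    have hs0 : 0 < √((p : ℕ) : ℝ) := Real.sqrt_pos.mpr hp0
    have hs2 : √((p : ℕ) : ℝ) ^ 2 = ((p : ℕ) : ℝ) := Real.sq_sqrt hp0.le
    have hAle : |A| ≤ 2 * √((p : ℕ) : ℝ) := by
      apply abs_le_of_sq_le_sq _ (by positivity)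
      rw [mul_pow, hs2]
      linarith
    set z := √((p : ℕ) : ℝ) * ‖x‖ with hz
    have hz0 : 0 ≤ z := by positivity
    have hzy : z ≤ y := by
      rw [hz, hxn, hy, Real.sqrt_eq_rpow, ← Real.rpow_add hp0]
      apply Real.rpow_le_rpow_of_exponent_le hp1
      linarith
    have hD : ‖1 - ((ap (-d ^ 2) 0 p : ℤ) : ℂ) * x + ((p : ℕ) : ℂ) * x ^ 2‖ ≤ (1 + z) ^ 2 := by
      have h3 : ‖((p : ℕ) : ℂ)‖ = ((p : ℕ) : ℝ) := Complex.norm_natCast _
      calc ‖1 - ((ap (-d ^ 2) 0 p : ℤ) : ℂ) * x + ((p : ℕ) : ℂ) * x ^ 2‖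
          ≤ ‖1 - ((ap (-d ^ 2) 0 p : ℤ) : ℂ) * x‖ + ‖((p : ℕ) : ℂ) * x ^ 2‖ := norm_add_le _ _
        _ ≤ (1 + |A| * ‖x‖) + ((p : ℕ) : ℝ) * ‖x‖ ^ 2 := by
            gcongr
            · refine (norm_sub_le _ _).trans ?_
              rw [norm_one, norm_mul, hAn]
            · rw [norm_mul, norm_pow, h3]
        _ ≤ (1 + (2 * √((p : ℕ) : ℝ)) * ‖x‖) + ((p : ℕ) : ℝ) * ‖x‖ ^ 2 := by gcongr
        _ = (1 + z) ^ 2 := by
            rw [hz]
            nth_rewrite 2 [← hs2]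
            ring
    have hDpos : 0 < ‖1 - ((ap (-d ^ 2) 0 p : ℤ) : ℂ) * x + ((p : ℕ) : ℂ) * x ^ 2‖ := by
      apply norm_pos_iff.mpr
      intro h0
      have h4 : (1:ℝ) ≤ |A| * ‖x‖ + ((p : ℕ) : ℝ) * ‖x‖ ^ 2 := by
        have h5 : (1:ℂ) = ((ap (-d ^ 2) 0 p : ℤ) : ℂ) * x - ((p : ℕ) : ℂ) * x ^ 2 := by
          linear_combination h0
        have h6 := congrArg norm h5
        rw [norm_one] at h6
        calc (1:ℝ) = ‖((ap (-d ^ 2) 0 p : ℤ) : ℂ) * x - ((p : ℕ) : ℂ) * x ^ 2‖ := h6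
          _ ≤ ‖((ap (-d ^ 2) 0 p : ℤ) : ℂ) * x‖ + ‖((p : ℕ) : ℂ) * x ^ 2‖ := norm_sub_le _ _
          _ = _ := by rw [norm_mul, norm_mul, norm_pow, hAn, Complex.norm_natCast]
      have h7 : |A| * ‖x‖ + ((p : ℕ) : ℝ) * ‖x‖ ^ 2 ≤ 2 * z + z ^ 2 := by
        have h8 : |A| * ‖x‖ ≤ (2 * √((p : ℕ) : ℝ)) * ‖x‖ := by gcongr
        have h9 : ((p : ℕ) : ℝ) * ‖x‖ ^ 2 = z ^ 2 := by rw [hz, mul_pow, hs2]
        rw [h9]
        have : (2 * √((p : ℕ) : ℝ)) * ‖x‖ = 2 * z := by rw [hz]; ring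
        linarith
      -- y ≤ 3^(-κ) ≤ 1/3
      have h10 : y ≤ 1 / 3 := by
        have h11 : y ≤ ((p : ℕ) : ℝ) ^ (-(1:ℝ)) := by
          rw [hy]
          exact Real.rpow_le_rpow_of_exponent_le hp1 (by linarith)
        have h12 : ((p : ℕ) : ℝ) ^ (-(1:ℝ)) ≤ 1 / 3 := by
          rw [Real.rpow_neg_one, inv_eq_one_div]
          exact one_div_le_one_div_of_le (by norm_num) hp3
        linarith
      nlinarith
    have h14 : (1 + z) ^ 2 * (1 - y) ^ 2 ≤ 1 := by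
      have h15 : (1 + z) * (1 - y) ≤ 1 := by nlinarith
      have h16 : 0 ≤ (1 + z) * (1 - y) := by positivity
      calc (1 + z) ^ 2 * (1 - y) ^ 2 = ((1 + z) * (1 - y)) ^ 2 := by ring
        _ ≤ 1 ^ 2 := by gcongr
        _ = 1 := one_pow 2
    rw [inv_pow, ← mul_inv, one_le_inv₀ (by positivity)]
    calc _ ≤ (1 + z) ^ 2 * (1 - y) ^ 2 := by gcongr
      _ ≤ 1 := h14

lemma Lser_lower_aux' (d : ℤ) {κ : ℝ} (hκ : 1 < κ) {s : ℂ} (hs : 1 / 2 + κ ≤ s.re) :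
    1 ≤ ‖Lser d s‖ * ‖riemannZeta (κ : ℂ)‖ ^ 2 := by
  have h1 := (euler_hasProd d (by linarith : 3 / 2 < s.re)).norm
  have h2 := (riemannZeta_eulerProduct_hasProd (s := (κ : ℂ)) (by simpa using hκ)).norm
  have h3 := h1.mul (h2.mul h2)
  have h4 : 1 ≤ ‖Lser d s‖ * (‖riemannZeta (κ : ℂ)‖ * ‖riemannZeta (κ : ℂ)‖) := by
    refine ge_of_tendsto' h3 (fun S => ?_)
    rw [← Finset.prod_const_one (s := S) (ι := Nat.Primes)]
    apply Finset.prod_le_prod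
    · intro p _; norm_num
    · intro p _
      have := local_lower' d p hκ hs
      rw [sq] at this
      exact this
  rw [sq]
  exact h4

/-- uniform lower bound near the edge of absolute convergence -/
lemma exists_Lser_lower {κ : ℝ} (hκ : 1 < κ) :
    ∃ z0 : ℝ, 0 < z0 ∧ ∀ (d : ℤ) (s : ℂ), 1 / 2 + κ ≤ s.re → z0 ≤ ‖Lser d s‖ := by
  have hpos : 0 < ‖riemannZeta (κ : ℂ)‖ := by
    have := Lser_lower_aux' 1 hκ (s := ((1 / 2 + κ : ℝ) : ℂ)) (by simp)
    by_contra h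
    have h0 : ‖riemannZeta (κ : ℂ)‖ = 0 := le_antisymm (not_lt.mp h) (norm_nonneg _)
    rw [h0] at this
    norm_num at this
  refine ⟨1 / ‖riemannZeta (κ : ℂ)‖ ^ 2, by positivity, ?_⟩
  intro d s hs
  have h1 := Lser_lower_aux' d hκ hs
  rw [div_le_iff₀ (by positivity)]
  exact h1

/-- concentration for one tilt -/
def ConcAt (Λ : ℂ → ℂ) (t x p : ℝ) : Prop := ∃ c : ℝ, 0 < c ∧
      (∫ v in Ioi (0:ℝ), ‖Λ (pt x v) * ((Real.exp (-(v ^ 2 / (4 * t))) : ℝ) : ℂ)‖ *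
        (Real.exp (p * v) + Real.exp (-(p * v))) * |v - c|) <
      c * ‖∫ v in Ioi (0:ℝ), Λ (pt x v) * ((Real.exp (-(v ^ 2 / (4 * t))) : ℝ) : ℂ) *
        ((Real.exp (p * v) + Real.exp (-(p * v)) : ℝ) : ℂ)‖

lemma half_lt_of_concAt {M : ℝ} {Λ L : ℂ → ℂ} {w : ℂ} (D : FEData M Λ L w) {t : ℝ} (ht : 0 < t)
    (ht8 : t ≤ 1 / 8) {x p : ℝ} (hp : 0 < p) (hconc : ConcAt Λ t x p) :
    ‖halfInt t Λ x (-p)‖ < ‖halfInt t Λ x p‖ := by
  obtain ⟨c, hc0, hc⟩ := hconc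
  have hI := D.integrableOn_one x ht ht8 p
  have hI' := D.integrableOn_one x ht ht8 (-p)
  have hI'' : IntegrableOn (fun v : ℝ => Λ (pt x v) *
      ((Real.exp (-(v ^ 2 / (4 * t))) : ℝ) : ℂ) * ((Real.exp (-(p * v)) : ℝ) : ℂ)) (Ioi 0) := by
    refine hI'.congr ?_
    filter_upwards with v
    rw [neg_mul]
  have hI1 : IntegrableOn (fun v : ℝ => ‖Λ (pt x v) *
      ((Real.exp (-(v ^ 2 / (4 * t))) : ℝ) : ℂ)‖ *
      (Real.exp (p * v) + Real.exp (-(p * v))) * |v - c|) (Ioi 0) := by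
    have hW : ∀ v : ℝ, ‖(((v - c : ℝ)) : ℂ)‖ ≤ (1 + |c|) * (1 + |v|) := by
      intro v
      rw [Complex.norm_real, Real.norm_eq_abs]
      have := abs_sub v c
      have h3 := abs_nonneg v
      have h4 := abs_nonneg c
      nlinarith
    have a1 := (D.integrableOn_weight x ht ht8 p
      (W := fun v : ℝ => (((v - c : ℝ)) : ℂ)) (by fun_prop) hW).norm
    have a2 := (D.integrableOn_weight x ht ht8 (-p)
      (W := fun v : ℝ => (((v - c : ℝ)) : ℂ)) (by fun_prop) hW).norm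
    refine (a1.add a2).congr ?_
    filter_upwards with v
    simp only [Pi.add_apply, norm_mul, Complex.norm_real, Real.norm_eq_abs,
      abs_of_pos (Real.exp_pos _), neg_mul]
    ring
  have hcmp := comparison (V := fun v : ℝ => Λ (pt x v) *
      ((Real.exp (-(v ^ 2 / (4 * t))) : ℝ) : ℂ)) hp hc0 hI hI'' hI1 hc
  unfold halfInt
  refine lt_of_eq_of_lt ?_ hcmp
  congr 1
  apply integral_congr_ae
  filter_upwards with v
  rw [neg_mul]

/-- non-vanishing off the line from concentration at the corresponding tilt -/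
theorem heatInt_ne_zero_of_concAt {M : ℝ} {Λ L : ℂ → ℂ} {w : ℂ} (D : FEData M Λ L w) {t : ℝ}
    (ht : 0 < t) (ht8 : t ≤ 1 / 8) {s : ℂ} (hs1 : s.re ≠ 1)
    (hconc : ConcAt Λ t s.im (|s.re - 1| / (2 * t))) : heatInt t Λ s ≠ 0 := by
  intro hs
  rw [D.heatInt_eq ht ht8] at hs
  have hne : ((Real.exp (-((s.re - 1) ^ 2 / (4 * t))) : ℝ) : ℂ) ≠ 0 := by
    exact_mod_cast (Real.exp_pos _).ne'
  have h1 := (mul_eq_zero.mp hs).resolve_left hne
  have h2 : ‖halfInt t Λ s.im ((s.re - 1) / (2 * t))‖ =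
      ‖halfInt t Λ s.im (-((s.re - 1) / (2 * t)))‖ := by
    have h3 : halfInt t Λ s.im ((s.re - 1) / (2 * t)) =
        -(w * (starRingEnd ℂ) (halfInt t Λ s.im (-((s.re - 1) / (2 * t))))) :=
      eq_neg_of_add_eq_zero_left h1
    rw [h3, norm_neg, norm_mul, D.norm_w, one_mul, Complex.norm_conj]
  have hy : 0 < |s.re - 1| := abs_pos.mpr (sub_ne_zero.mpr hs1)
  have hp : 0 < |s.re - 1| / (2 * t) := by positivity
  have h4 := half_lt_of_concAt D ht ht8 hp hconc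
  rcases abs_cases (s.re - 1) with ⟨h, _⟩ | ⟨h, _⟩
  · rw [h] at h4
    linarith
  · rw [h] at h4
    have e : -(s.re - 1) / (2 * t) = -((s.re - 1) / (2 * t)) := by ring
    rw [e, neg_neg] at h4
    linarith

/-- **Shrinking of the critical strip under the heat flow.** -/
theorem exists_strip {ε : ℝ} (hε : 0 < ε) (hε1 : ε ≤ 1) : ∃ Q0 : ℝ,
    ∀ (d : ℤ) (M : ℝ) (Λ : ℂ → ℂ) (w : ℂ), FEData M Λ (Lser d) w →
    (∀ s : ℂ, 3 / 2 < s.re → Λ s = (M : ℂ) ^ s * Complex.Gamma s * Lser d s) →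
    ∀ t x y : ℝ, 0 < t → t ≤ 1 / 8 → 0 ≤ y → Q0 ≤ (2 * π * M) ^ 2 * (1 + |x|) ^ 2 →
    1 + ε ≤ 2 * y + t * Real.log ((2 * π * M) ^ 2 * (1 + |x|) ^ 2) →
    ConcAt Λ t x (y / (2 * t)) := by
  obtain ⟨Qa, -, hQa⟩ := exists_sharp hε
  set a : ℝ := 1 / 2 + ε / 8 with ha
  set γ : ℝ := ε / 4 with hγ
  have hγ0 : 0 < γ := by positivity
  have ha0 : 1 / 2 < a := by rw [ha]; linarith
  obtain ⟨z0, hz0, hlow⟩ := exists_Lser_lower (κ := 1 + 3 * ε / 8) (by linarith)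
  set Z : ℝ := Zc (1 + a) with hZdef
  have hZ : 0 ≤ Z := Zc_nonneg _
  set Z1 : ℝ := 2 / (a - 1 / 2) * Zc (1 + a - (a - 1 / 2) / 2) with hZ1def
  have hZ1 : 0 ≤ Z1 := by
    have := Zc_nonneg (1 + a - (a - 1 / 2) / 2)
    have h2 : 0 < a - 1 / 2 := by linarith
    positivity
  -- smallness of t
  set A : ℝ := 8 * (8 * Z + 2 * Z / γ + 2 * Z1) with hA
  set B : ℝ := 16 * Z * Real.exp (5 / 2) * Real.exp 9 * (64 / ε ^ 2) with hB
  have hA0 : 0 ≤ A := by positivity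
  have hB0 : 0 ≤ B := by positivity
  set t1 : ℝ := min (ε / 112) ((z0 / (A + B + 1)) ^ 2) with ht1
  have ht10 : 0 < t1 := by rw [ht1]; positivity
  refine ⟨max Qa (Real.exp (14 + 2 / t1)), ?_⟩
  intro d M Λ w D hΛ t x y ht ht8 hy hQ h
  set Q : ℝ := (2 * π * M) ^ 2 * (1 + |x|) ^ 2 with hQdef
  have hp0 : 0 ≤ y / (2 * t) := by positivity
  rcases le_total (1 + ε) (t * Real.log Q) with h8 | h8
  · exact hQa d M Λ w D hΛ t x ht ht8 ((le_max_left _ _).trans hQ) h8 _ hp0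
  have hM := D.M_pos
  have hQpos : 0 < Q := lt_of_lt_of_le (Real.exp_pos _) ((le_max_right _ _).trans hQ)
  have hlogQ : 14 + 2 / t1 ≤ Real.log Q := by
    rw [Real.le_log_iff_exp_le hQpos]
    exact (le_max_right _ _).trans hQ
  have h2t1 : 0 < 2 / t1 := by positivity
  have htt1 : t ≤ t1 := by
    have h10 : t * (2 / t1) ≤ 2 := by nlinarith
    have h11 : t * (2 / t1) = t / t1 * 2 := by ring
    rw [h11] at h10
    have h12 : t / t1 ≤ 1 := by linarith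
    rwa [div_le_one ht10] at h12
  have htε : t ≤ ε / 112 := htt1.trans (min_le_left _ _)
  have ht2 : t ≤ (z0 / (A + B + 1)) ^ 2 := htt1.trans (min_le_right _ _)
  have hs1 : √t ≤ z0 / (A + B + 1) := by
    rw [← Real.sqrt_sq (by positivity : 0 ≤ z0 / (A + B + 1))]
    exact Real.sqrt_le_sqrt ht2
  have hs2 : (A + B + 1) * √t ≤ z0 := by
    rw [le_div_iff₀ (by positivity)] at hs1
    linarith
  have hst0 : 0 ≤ √t := Real.sqrt_nonneg t
  have hst : √t * √t = t := Real.mul_self_sqrt ht.le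
  obtain ⟨hp1, hp2⟩ := peak_bounds (x := x) hM ht hQdef
  set p := y / (2 * t) with hp
  have hyp : y = 2 * t * p := by rw [hp]; field_simp
  set lam := Real.log (M * ‖pt x 0‖) with hlam
  set ℓ := Real.log Q with hℓ
  have hmu4 : 1 / 4 * ℓ ≤ lam - 5 / 6 := by
    have h20 : ℓ - 7 ≤ 2 * (lam - 5 / 6) := by
      have h21 : t * (ℓ - 7) ≤ t * (2 * (lam - 5 / 6)) := by linarith
      exact le_of_mul_le_mul_left h21 ht
    linarith
  have hmupos : 0 < lam - 5 / 6 := by linarith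
  have hn1 := one_le_norm_pt x
  have hbase : 0 < M * ‖pt x 0‖ := by positivity
  have hpt : Continuous (fun v : ℝ => pt x v) := by unfold pt; fun_prop
  have U := uniData d (M := M) ha0 hΛ
  have hrL : ∀ v, a ≤ v → Λ (pt x v) / Gfun M x v = Lser d (pt x v) := by
    intro v hv
    rw [U.eqL _ (by rw [pt_re]; linarith)]
    have := Gfun_ne_zero (x := x) hM (v := v) (by linarith)
    unfold Gfun at this ⊢
    exact mul_div_cancel_left₀ _ this
  have hlogpos : 0 ≤ ℓ := by linarith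
  have hpeak : (1 + ε) / 2 - 7 * t ≤ 2 * t * (lam - 5 / 6 + p) - t * ℓ / 2 := by
    have : 2 * t * (lam - 5 / 6 + p) = 2 * t * (lam - 5 / 6) + y := by rw [hyp]; ring
    rw [this]
    linarith
  have hpeak2 : (1 + ε) / 2 ≤ 2 * t * (lam - 5 / 6 + p) := by nlinarith
  refine concentration_gap (x := x) (p := p) (a := a) (Z := Z) (Z1 := Z1) (z0 := z0) (γ := γ)
    (η := 2 * Z * Real.exp (5 / 2) * Real.exp (9 - ε ^ 2 / (64 * t)))
    (q := fun v => Λ (pt x v)) (r := fun v => Λ (pt x v) / Gfun M x v)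
    hM ht (by linarith) hp0 (by linarith) (by rw [ha]; linarith) hZ hZ1 (by positivity) ?_ hγ0 ?_
    hz0 hmupos (by linarith) (by rw [ha, hγ]; linarith) ?_ ?_ ?_ ?_ ?_
    (D.diff.continuous.comp hpt).continuousOn
  · have h5 : Real.exp (9 - ε ^ 2 / (64 * t)) ≤ Real.exp 9 * (64 / ε ^ 2 * t) := by
      rw [sub_eq_add_neg, Real.exp_add]
      apply mul_le_mul_of_nonneg_left _ (Real.exp_pos _).le
      rw [Real.exp_neg]
      have h6 : ε ^ 2 / (64 * t) ≤ Real.exp (ε ^ 2 / (64 * t)) := by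
        have := Real.add_one_le_exp (ε ^ 2 / (64 * t))
        linarith
      have h7 : 64 / ε ^ 2 * t = (ε ^ 2 / (64 * t))⁻¹ := by field_simp
      rw [h7]
      exact inv_anti₀ (by positivity) h6
    calc 8 * (2 * Z * Real.exp (5 / 2) * Real.exp (9 - ε ^ 2 / (64 * t)))
        ≤ 8 * (2 * Z * Real.exp (5 / 2) * (Real.exp 9 * (64 / ε ^ 2 * t))) := by gcongr
      _ = B * (√t * √t) := by rw [hst, hB]; ring
      _ = (B * √t) * √t := by ring
      _ ≤ z0 * √t := by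
        gcongr
        nlinarith
  · nlinarith
  · intro v hv
    have := Gfun_ne_zero (x := x) hM hv
    field_simp
  · intro c hc v hv hva
    have h3 := ratio_bound_a hM D.norm_w D.diff D.fe (by linarith : 0 < a)
      (by rw [ha]; linarith : a ≤ 1) U.eqL U.bound D.bdd (x := x) hv hva
    have h4 := D.pt_norm_Gfun_pos (x := x) hv
    have h5 : ‖Λ (pt x v) / Gfun M x v‖ ≤ Z * Real.exp (5 / 2) * (M * ‖pt x v‖) ^ (a - v) := by
      rw [norm_div, div_le_iff₀ h4]; exact h3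
    have h6 : (M * ‖pt x v‖) ^ (a - v) ≤ 2 * Real.exp (lam * (a - v)) := by
      have h7 : ‖pt x v‖ ≤ 2 * ‖pt x 0‖ := by
        have e : pt x v = pt x 0 + (v : ℂ) := by
          have := pt_add x 0 v
          rwa [zero_add] at this
        rw [e]
        refine (norm_add_le _ _).trans ?_
        rw [Complex.norm_real, Real.norm_eq_abs, abs_of_nonneg hv]
        have : v ≤ 1 := by rw [ha] at hva; linarith
        linarith
      have h8 : M * ‖pt x v‖ ≤ 2 * (M * ‖pt x 0‖) := by nlinarith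
      have h9 : (M * ‖pt x v‖) ^ (a - v) ≤ (2 * (M * ‖pt x 0‖)) ^ (a - v) := by
        apply Real.rpow_le_rpow (by positivity) h8 (by linarith)
      refine h9.trans ?_
      rw [Real.mul_rpow (by norm_num) hbase.le, hlam, Real.rpow_def_of_pos hbase]
      have h10 : (2:ℝ) ^ (a - v) ≤ 2 := by
        calc (2:ℝ) ^ (a - v) ≤ (2:ℝ) ^ (1:ℝ) :=
              Real.rpow_le_rpow_of_exponent_le (by norm_num) (by rw [ha]; linarith)
          _ = 2 := by norm_num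
      gcongr
    have h11 := strip_exponent_gap (lam := lam) (mu := lam - 5 / 6) (ℓ := ℓ) (y := y) (p := p) ht hε
      hε1 (by linarith) ha rfl hyp hy hp1 hp2 hmu4 (by linarith) h hc hv hva
    calc ‖Λ (pt x v) / Gfun M x v‖ * Real.exp (-(1 / (4 * t) - 5 / 6) * (v - c) ^ 2)
        ≤ (Z * Real.exp (5 / 2) * (2 * Real.exp (lam * (a - v)))) *
          Real.exp (-(1 / (4 * t) - 5 / 6) * (v - c) ^ 2) := by
          gcongr
          exact h5.trans (by gcongr)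
      _ = 2 * Z * Real.exp (5 / 2) * Real.exp (lam * (a - v) +
          -(1 / (4 * t) - 5 / 6) * (v - c) ^ 2) := by
          rw [Real.exp_add]; ring
      _ ≤ _ := by gcongr
  · intro v hv
    rw [hrL v hv]
    exact U.bound _ (by rw [pt_re]; linarith)
  · intro c hc v hv
    rw [hrL v hv, hrL c hc]
    exact U.lip x c v hc hv
  · intro c hc
    rw [hrL c (by linarith)]
    apply hlow
    rw [pt_re, ha, hγ] at *
    linarith

end Pool.Agent.H6
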