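import Mathlib
import Pool.Agent.H5.EulerFrozen
import Pool.Agent.H6.EdUniform

/-!
Coefficient bounds: the coefficients of `L(E_d, s)`, of its inverse and of the mollified
`L`-function.
-/

set_option autoImplicit false

open Finset ArithmeticFunction

namespace Pool.Agent.H6

open Pool.Agent.H5

/-! ### The divisor bound (after the file of helper47) -/

lemma pow_le_const_mul_two_pow (r : ℕ) : ∃ C : ℕ, 1 ≤ C ∧ ∀ v : ℕ, (v + 1) ^ r ≤ C * 2 ^ v := by
  have h := tendsto_pow_const_mul_const_pow_of_abs_lt_one r (r := (1/2 : ℝ)) (by norm_num [abs_of_pos])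
  obtain ⟨B, hB⟩ := h.bddAbove_range
  refine ⟨⌈2 * B⌉₊ + 1, by omega, fun v => ?_⟩
  have h1 := hB (Set.mem_range_self (v + 1))
  have h2 : ((v + 1 : ℕ) : ℝ) ^ r ≤ 2 * B * 2 ^ v := by
    have h3 : (1 / 2 : ℝ) ^ (v + 1) * 2 ^ (v + 1) = 1 := by
      rw [← mul_pow]; norm_num
    have h4 : ((v + 1 : ℕ) : ℝ) ^ r = (((v + 1 : ℕ) : ℝ) ^ r * (1 / 2 : ℝ) ^ (v + 1)) * 2 ^ (v + 1) := by
      rw [mul_assoc, h3, mul_one]
    rw [h4]
    calc (((v + 1 : ℕ) : ℝ) ^ r * (1 / 2 : ℝ) ^ (v + 1)) * 2 ^ (v + 1) ≤ B * 2 ^ (v + 1) := by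
          gcongr
      _ = 2 * B * 2 ^ v := by ring
  have h5 : (2 * B : ℝ) ≤ ((⌈2 * B⌉₊ + 1 : ℕ) : ℝ) := by
    push_cast
    have := Nat.le_ceil (2 * B)
    linarith
  have h6 : (((v + 1) ^ r : ℕ) : ℝ) ≤ (((⌈2 * B⌉₊ + 1) * 2 ^ v : ℕ) : ℝ) := by
    push_cast at h2 h5 ⊢
    calc ((v : ℝ) + 1) ^ r ≤ 2 * B * 2 ^ v := h2
      _ ≤ _ := by gcongr
  exact_mod_cast h6

theorem divisor_bound (r : ℕ) : ∃ C : ℕ, 1 ≤ C ∧ ∀ n : ℕ, n ≠ 0 → n.divisors.card ^ r ≤ C * n := by
  obtain ⟨C, hC1, hC⟩ := pow_le_const_mul_two_pow r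
  refine ⟨C ^ (2 ^ r), Nat.one_le_pow _ _ hC1, fun n hn => ?_⟩
  rw [Nat.card_divisors hn, ← Finset.prod_pow]
  have hn' : n = ∏ p ∈ n.primeFactors, p ^ n.factorization p := by
    conv_lhs => rw [← Nat.prod_factorization_pow_eq_self hn]
    rfl
  have key : ∀ p ∈ n.primeFactors,
      (n.factorization p + 1) ^ r ≤ (if p < 2 ^ r then C else 1) * p ^ n.factorization p := by
    intro p hp
    have hp2 : 2 ≤ p := (Nat.prime_of_mem_primeFactors hp).two_le
    split_ifs with h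
    · calc (n.factorization p + 1) ^ r ≤ C * 2 ^ n.factorization p := hC _
        _ ≤ _ := by gcongr
    · push Not at h
      rw [one_mul]
      calc (n.factorization p + 1) ^ r ≤ (2 ^ n.factorization p) ^ r := by
            gcongr
            exact Nat.lt_two_pow_self
        _ = (2 ^ r) ^ n.factorization p := by rw [← pow_mul, ← pow_mul, mul_comm]
        _ ≤ _ := by gcongr
  calc ∏ p ∈ n.primeFactors, (n.factorization p + 1) ^ r
      ≤ ∏ p ∈ n.primeFactors, ((if p < 2 ^ r then C else 1) * p ^ n.factorization p) :=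
        Finset.prod_le_prod' key
    _ = (∏ p ∈ n.primeFactors, (if p < 2 ^ r then C else 1)) * n := by
        rw [Finset.prod_mul_distrib, ← hn']
    _ ≤ C ^ (2 ^ r) * n := by
        gcongr
        rw [Finset.prod_ite, Finset.prod_const, Finset.prod_const_one, mul_one]
        apply Nat.pow_le_pow_right hC1
        calc (n.primeFactors.filter (fun p => p < 2 ^ r)).card ≤ (Finset.range (2 ^ r)).card := by
              apply Finset.card_le_card
              intro p hp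
              simp only [Finset.mem_filter] at hp
              exact Finset.mem_range.2 hp.2
          _ = 2 ^ r := Finset.card_range _

/-- number of divisors -/
def tau (n : ℕ) : ℕ := n.divisors.card

theorem tau_le_rpow {ε : ℝ} (hε : 0 < ε) : ∃ C : ℝ, 1 ≤ C ∧ ∀ n : ℕ, n ≠ 0 →
    (tau n : ℝ) ≤ C * (n : ℝ) ^ ε := by
  obtain ⟨r, hr⟩ := exists_nat_gt (1 / ε)
  have hr0 : 0 < r := by
    rcases Nat.eq_zero_or_pos r with h | h
    · rw [h] at hr
      have : 0 < 1 / ε := by positivity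
      simp at hr
      linarith
    · exact h
  have hrR : (0:ℝ) < r := by exact_mod_cast hr0
  obtain ⟨C, hC1, hC⟩ := divisor_bound r
  have hC1' : (1:ℝ) ≤ C := by exact_mod_cast hC1
  refine ⟨(C : ℝ) ^ (1 / (r : ℝ)), Real.one_le_rpow hC1' (by positivity), fun n hn => ?_⟩
  have h1 : ((tau n : ℝ)) ^ r ≤ (C : ℝ) * n := by
    unfold tau; exact_mod_cast hC n hn
  have hn1 : (1:ℝ) ≤ n := by exact_mod_cast Nat.one_le_iff_ne_zero.mpr hn
  have h2 : (tau n : ℝ) ≤ ((C : ℝ) * n) ^ (1 / (r : ℝ)) := by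
    rw [← Real.rpow_natCast] at h1
    have h3 := Real.rpow_le_rpow (by positivity) h1 (by positivity : 0 ≤ 1 / (r : ℝ))
    rw [← Real.rpow_mul (by positivity), mul_one_div, div_self hrR.ne', Real.rpow_one] at h3
    exact h3
  refine h2.trans ?_
  rw [Real.mul_rpow (by positivity) (by positivity)]
  gcongr
  rw [div_le_iff₀ hrR]
  rw [div_lt_iff₀ hε] at hr
  linarith

/-! ### Local bounds -/

/-- Chebyshev type bound -/
lemma cheb_bound {u : ℕ → ℝ} {a q : ℝ} (hq : 0 ≤ q) (ha : a ^ 2 ≤ 4 * q) (h0 : u 0 = 1)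
    (h1 : u 1 = a) (hrec : ∀ k, u (k + 2) = a * u (k + 1) - q * u k) (k : ℕ) :
    |u k| ≤ (k + 1) * √q ^ k := by
  have hs : √q ^ 2 = q := Real.sq_sqrt hq
  have hs0 : 0 ≤ √q := Real.sqrt_nonneg q
  have hinv : ∀ k, u (k + 1) ^ 2 - a * u (k + 1) * u k + q * u k ^ 2 = q ^ (k + 1) := by
    intro k
    induction k with
    | zero => rw [zero_add, h0, h1]; ring
    | succ k ih =>
      rw [hrec k]
      have : (a * u (k + 1) - q * u k) ^ 2 - a * (a * u (k + 1) - q * u k) * u (k + 1) +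
          q * u (k + 1) ^ 2 = q * (u (k + 1) ^ 2 - a * u (k + 1) * u k + q * u k ^ 2) := by ring
      rw [this, ih]; ring
  have haa : |a| ≤ 2 * √q := by
    apply abs_le_of_sq_le_sq _ (by positivity)
    rw [mul_pow, hs]; linarith
  have hstep : ∀ k, |u (k + 1)| ≤ √q * |u k| + √q ^ (k + 1) := by
    intro k
    have h2 : (u (k + 1) - a / 2 * u k) ^ 2 ≤ (√q ^ (k + 1)) ^ 2 := by
      have h3 : (√q ^ (k + 1)) ^ 2 = q ^ (k + 1) := by
        rw [← pow_mul, mul_comm, pow_mul, hs]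
      rw [h3, ← hinv k]
      have : 0 ≤ (q - a ^ 2 / 4) * u k ^ 2 := mul_nonneg (by linarith) (sq_nonneg _)
      nlinarith
    have h4 := abs_le_of_sq_le_sq h2 (by positivity)
    calc |u (k + 1)| = |(u (k + 1) - a / 2 * u k) + a / 2 * u k| := by congr 1; ring
      _ ≤ |u (k + 1) - a / 2 * u k| + |a / 2 * u k| := abs_add_le _ _
      _ ≤ √q ^ (k + 1) + √q * |u k| := by
          rw [abs_mul]
          have h5 : |a / 2| ≤ √q := by
            rw [abs_div, abs_of_pos (by norm_num : (0:ℝ) < 2)]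
            linarith
          gcongr
      _ = _ := by ring
  induction k with
  | zero => rw [h0]; simp
  | succ k ih =>
    calc |u (k + 1)| ≤ √q * |u k| + √q ^ (k + 1) := hstep k
      _ ≤ √q * ((k + 1) * √q ^ k) + √q ^ (k + 1) := by gcongr
      _ = _ := by push_cast; ring

/-- the good primes -/
def Good (d : ℤ) (p : ℕ) : Prop := p ≠ 2 ∧ ¬ (p : ℤ) ∣ d

lemma bd_bad (d : ℤ) {p : ℕ} (hp : p.Prime) (hbad : ¬ Good d p) {e : ℕ} (he : e ≠ 0) :
    bd d (p ^ e) = 0 := by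
  have hf := Fact.mk hp
  unfold Good at hbad
  rw [not_and_or, not_not, not_not] at hbad
  unfold bd
  rcases hbad with h | h
  · subst h
    have : c (2 ^ e) = 0 := by
      unfold c
      rw [C_of_even]
      · rfl
      · exact Nat.mod_eq_zero_of_dvd (dvd_pow_self 2 he)
    rw [this, mul_zero]
  · have : jacobiSym d (p ^ e) = 0 := by
      rw [jacobiSym_pow]
      rw [← jacobiSym.legendreSym.to_jacobiSym]
      rw [(legendreSym.eq_zero_iff p d).mpr ((ZMod.intCast_zmod_eq_zero_iff_dvd d p).mpr h)]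
      exact zero_pow he
    rw [this, zero_mul]

lemma bd_pow_bound (d : ℤ) {p : ℕ} (hp : p.Prime) (k : ℕ) :
    |(bd d (p ^ k) : ℝ)| ≤ (k + 1) * √((p : ℝ) ^ k) := by
  have hf := Fact.mk hp
  by_cases hg : Good d p
  · obtain ⟨h1, hrec⟩ := bd_prime d p hg.1 hg.2
    have h2 := cheb_bound (u := fun k => (bd d (p ^ k) : ℝ)) (a := ((ap (-d ^ 2) 0 p : ℤ) : ℝ))
      (q := (p : ℝ)) (by positivity) (ap_sq_le d p hg.1) (by simp [bd_one])
      (by show ((bd d (p ^ 1) : ℤ) : ℝ) = _; rw [pow_one, h1]) (by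
        intro k
        rw [hrec k]; push_cast; ring) k
    have h3 : √((p : ℝ) ^ k) = √(p : ℝ) ^ k := by
      rw [Real.sqrt_eq_rpow, Real.sqrt_eq_rpow, ← Real.rpow_natCast, ← Real.rpow_natCast,
        ← Real.rpow_mul (by positivity), ← Real.rpow_mul (by positivity), mul_comm]
    rw [h3]; exact h2
  · rcases Nat.eq_zero_or_pos k with rfl | hk
    · simp [bd_one]
    · rw [bd_bad d hp hg hk.ne']
      simp; positivity

/-- local factor of the inverse -/
noncomputable def mloc (d : ℤ) (p k : ℕ) : ℤ :=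
  open Classical in
  if k = 0 then 1 else if k = 1 then -bd d p else if k = 2 then (if Good d p then (p : ℤ) else 0)
  else 0

lemma mloc_zero (d : ℤ) (p : ℕ) : mloc d p 0 = 1 := by simp [mloc]

lemma mloc_bound (d : ℤ) {p : ℕ} (hp : p.Prime) (k : ℕ) :
    |(mloc d p k : ℝ)| ≤ (k + 1) * √((p : ℝ) ^ k) := by
  have hp0 : (0:ℝ) < p := by exact_mod_cast hp.pos
  unfold mloc
  split_ifs with h0 h1 h2 h3
  · subst h0; simp
  · subst h1
    have := bd_pow_bound d hp 1
    simpa using this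
  · subst h2
    rw [Real.sqrt_sq hp0.le]
    push_cast
    rw [abs_of_pos hp0]
    linarith
  · simp; positivity
  · simp; positivity

/-- the coefficients of the inverse of the `L`-function -/
noncomputable def mb (d : ℤ) (n : ℕ) : ℤ := if n = 0 then 0 else n.factorization.prod (mloc d)

lemma mb_zero (d : ℤ) : mb d 0 = 0 := by simp [mb]

lemma mb_one (d : ℤ) : mb d 1 = 1 := by simp [mb]

lemma mb_prime_pow (d : ℤ) {p : ℕ} (hp : p.Prime) (k : ℕ) : mb d (p ^ k) = mloc d p k := by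
  unfold mb
  rw [if_neg (pow_ne_zero k hp.ne_zero), hp.factorization_pow]
  rw [Finsupp.prod_single_index (mloc_zero d p)]

lemma mb_mul (d : ℤ) {m n : ℕ} (hmn : m.Coprime n) : mb d (m * n) = mb d m * mb d n := by
  unfold mb
  rcases Nat.eq_zero_or_pos m with rfl | hm
  · simp
  rcases Nat.eq_zero_or_pos n with rfl | hn
  · simp
  rw [if_neg hm.ne', if_neg hn.ne', if_neg (mul_ne_zero hm.ne' hn.ne'),
    Nat.factorization_mul_of_coprime hmn]
  apply Finsupp.prod_add_index_of_disjoint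
  exact hmn.disjoint_primeFactors

/-- bound of a multiplicative function with bounded local factors -/
lemma mult_bound {f : ℕ → ℤ} (h1 : f 1 = 1) (hmul : ∀ m n, m.Coprime n → f (m * n) = f m * f n)
    (hloc : ∀ p : ℕ, p.Prime → ∀ k : ℕ, |(f (p ^ k) : ℝ)| ≤ (k + 1) * √((p : ℝ) ^ k)) (n : ℕ)
    (hn : n ≠ 0) : |(f n : ℝ)| ≤ tau n * √n := by
  induction n using Nat.recOnPosPrimePosCoprime with
  | prime_pow p k hp hk =>
    have h2 := hloc p hp k
    have h3 : tau (p ^ k) = k + 1 := by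
      unfold tau
      rw [Nat.divisors_prime_pow hp]; simp
    rw [h3]; push_cast; exact h2
  | zero => exact absurd rfl hn
  | one => rw [h1]; simp [tau]
  | coprime a b ha hb hab iha ihb =>
    rw [hmul a b hab]
    have h2 := iha (by omega)
    have h3 := ihb (by omega)
    have h4 : tau (a * b) = tau a * tau b := by
      unfold tau; exact hab.card_divisors_mul
    push_cast
    rw [abs_mul, h4, Real.sqrt_mul (by positivity)]
    push_cast
    calc |(f a : ℝ)| * |(f b : ℝ)| ≤ (tau a * √a) * (tau b * √b) := by gcongr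
      _ = _ := by ring

lemma bd_tau (d : ℤ) {n : ℕ} (hn : n ≠ 0) : |(bd d n : ℝ)| ≤ tau n * √n :=
  mult_bound (bd_one d) (fun _ _ h => bd_mul d h) (fun _ hp k => bd_pow_bound d hp k) n hn

lemma mb_tau (d : ℤ) {n : ℕ} (hn : n ≠ 0) : |(mb d n : ℝ)| ≤ tau n * √n :=
  mult_bound (mb_one d) (fun _ _ h => mb_mul d h)
    (fun p hp k => by rw [mb_prime_pow d hp k]; exact mloc_bound d hp k) n hn

/-! ### Dirichlet inverse -/

/-- `b` as an arithmetic function -/
noncomputable def bA (d : ℤ) : ArithmeticFunction ℤ := ⟨bd d, bd_zero d⟩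

/-- the inverse as an arithmetic function -/
noncomputable def mA (d : ℤ) : ArithmeticFunction ℤ := ⟨mb d, mb_zero d⟩

lemma bA_mult (d : ℤ) : (bA d).IsMultiplicative := ⟨bd_one d, fun h => bd_mul d h⟩

lemma mA_mult (d : ℤ) : (mA d).IsMultiplicative := ⟨mb_one d, fun h => mb_mul d h⟩

lemma mA_mul_bA (d : ℤ) : mA d * bA d = 1 := by
  rw [IsMultiplicative.eq_iff_eq_on_prime_powers _ ((mA_mult d).mul (bA_mult d)) _
    isMultiplicative_one]
  intro p i hp
  have hf := Fact.mk hp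
  rw [mul_apply, Nat.sum_divisorsAntidiagonal (fun a b => mA d a * bA d b),
    Nat.sum_divisors_prime_pow hp]
  have hval : ∀ k ≤ i, mA d (p ^ k) * bA d (p ^ i / p ^ k) = mloc d p k * bd d (p ^ (i - k)) := by
    intro k hk
    rw [Nat.pow_div hk hp.pos]
    change mb d (p ^ k) * bd d (p ^ (i - k)) = _
    rw [mb_prime_pow d hp]
  have hsum : ∑ k ∈ range (i + 1), mA d (p ^ k) * bA d (p ^ i / p ^ k) =
      ∑ k ∈ range (i + 1), mloc d p k * bd d (p ^ (i - k)) := by
    apply Finset.sum_congr rfl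
    intro k hk
    exact hval k (Nat.lt_succ_iff.mp (Finset.mem_range.mp hk))
  rw [hsum]
  rcases i with _ | _ | i
  · simp [mloc, bd_one]
  · rw [Finset.sum_range_succ, Finset.sum_range_one]
    have h1 : (1 : ArithmeticFunction ℤ) (p ^ (0 + 1)) = 0 := by
      rw [one_apply_ne]
      simpa using hp.one_lt.ne'
    rw [h1]
    simp [mloc, bd_one]
  · have h1 : (1 : ArithmeticFunction ℤ) (p ^ (i + 1 + 1)) = 0 := by
      rw [one_apply_ne]
      exact (Nat.one_lt_pow (by omega) hp.one_lt).ne'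
    rw [h1]
    rw [Finset.sum_range_succ', Finset.sum_range_succ', Finset.sum_range_succ']
    have h2 : ∑ k ∈ range i, mloc d p (k + 1 + 1 + 1) * bd d (p ^ (i + 1 + 1 - (k + 1 + 1 + 1))) = 0 := by
      apply Finset.sum_eq_zero
      intro k _
      simp [mloc]
    rw [h2]
    have e0 : mloc d p 0 = 1 := mloc_zero d p
    have e1 : mloc d p (0 + 1) = -bd d p := by simp [mloc]
    rw [e0, e1]
    have e3 : i + 1 + 1 - (0 + 1 + 1) = i := by omega
    have e4 : i + 1 + 1 - (0 + 1) = i + 1 := by omega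
    have e5 : i + 1 + 1 - 0 = i + 2 := by omega
    rw [e3, e4, e5]
    by_cases hg : Good d p
    · obtain ⟨h3, hrec⟩ := bd_prime d p hg.1 hg.2
      have e2 : mloc d p (0 + 1 + 1) = p := by simp [mloc, hg]
      rw [e2, hrec i, h3]
      ring
    · have e2 : mloc d p (0 + 1 + 1) = 0 := by simp [mloc, hg]
      have e6 : bd d p = 0 := by
        have := bd_bad d hp hg (e := 1) one_ne_zero
        rwa [pow_one] at this
      rw [e2, bd_bad d hp hg (e := i + 2) (by omega), e6]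
      ring

/-! ### Mollified coefficients -/

/-- coefficients of `L(s) * sum_{m ≤ Y} mb(m) m^{-s}` -/
noncomputable def aY (d : ℤ) (Y n : ℕ) : ℤ :=
  ∑ m ∈ n.divisors.filter (fun m => m ≤ Y), mb d m * bd d (n / m)

lemma aY_zero (d : ℤ) (Y : ℕ) : aY d Y 0 = 0 := by simp [aY]

lemma aY_one (d : ℤ) {Y : ℕ} (hY : 1 ≤ Y) : aY d Y 1 = 1 := by
  unfold aY
  have : (Nat.divisors 1).filter (fun m => m ≤ Y) = {1} := by
    ext m
    simp only [Nat.divisors_one, mem_filter, mem_singleton]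
    constructor
    · exact fun h => h.1
    · intro h; exact ⟨h, by omega⟩
  rw [this]
  simp [mb_one, bd_one]

lemma aY_of_le (d : ℤ) {Y n : ℕ} (h1 : 1 < n) (hn : n ≤ Y) : aY d Y n = 0 := by
  unfold aY
  have : n.divisors.filter (fun m => m ≤ Y) = n.divisors := by
    apply Finset.filter_true_of_mem
    intro m hm
    exact (Nat.divisor_le hm).trans hn
  rw [this]
  have h2 := congrArg (fun f => f n) (mA_mul_bA d)
  rw [mul_apply, Nat.sum_divisorsAntidiagonal (fun a b => mA d a * bA d b),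
    one_apply_ne (by omega)] at h2
  exact h2

lemma tau_mono_dvd {m n : ℕ} (hn : n ≠ 0) (h : m ∣ n) : tau m ≤ tau n := by
  unfold tau
  exact Finset.card_le_card (Nat.divisors_subset_of_dvd hn h)

lemma aY_tau (d : ℤ) (Y : ℕ) {n : ℕ} (hn : n ≠ 0) : |(aY d Y n : ℝ)| ≤ (tau n : ℝ) ^ 3 * √n := by
  unfold aY
  push_cast
  refine (Finset.abs_sum_le_sum_abs _ _).trans ?_
  have hb : ∀ m ∈ n.divisors.filter (fun m => m ≤ Y),
      |(mb d m : ℝ) * (bd d (n / m) : ℝ)| ≤ (tau n : ℝ) ^ 2 * √n := by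
    intro m hm
    have hmd : m ∣ n := Nat.dvd_of_mem_divisors (Finset.mem_filter.mp hm).1
    have hm0 : m ≠ 0 := fun h => hn (by rw [h] at hmd; exact Nat.eq_zero_of_zero_dvd hmd)
    have hd2 : n / m ∣ n := Nat.div_dvd_of_dvd hmd
    have hd0 : n / m ≠ 0 := fun h => hn (by rw [h] at hd2; exact Nat.eq_zero_of_zero_dvd hd2)
    have h1 := mb_tau d hm0
    have h2 := bd_tau d hd0
    have h3 : (tau m : ℝ) ≤ tau n := by exact_mod_cast tau_mono_dvd hn hmd
    have h4 : (tau (n / m) : ℝ) ≤ tau n := by exact_mod_cast tau_mono_dvd hn hd2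
    have h5 : √(m : ℝ) * √((n / m : ℕ) : ℝ) = √(n : ℝ) := by
      rw [← Real.sqrt_mul (by positivity)]
      congr 1
      rw [← Nat.cast_mul, Nat.mul_div_cancel' hmd]
    rw [abs_mul]
    calc |(mb d m : ℝ)| * |(bd d (n / m) : ℝ)| ≤
        (tau m * √(m : ℝ)) * (tau (n / m) * √((n / m : ℕ) : ℝ)) := by gcongr
      _ = (tau m * tau (n / m)) * (√(m : ℝ) * √((n / m : ℕ) : ℝ)) := by ring
      _ = (tau m * tau (n / m)) * √(n : ℝ) := by rw [h5]
      _ ≤ (tau n * tau n) * √(n : ℝ) := by gcongr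
      _ = _ := by ring
  refine (Finset.sum_le_sum hb).trans ?_
  rw [Finset.sum_const, nsmul_eq_mul]
  have hc : (((n.divisors.filter (fun m => m ≤ Y)).card : ℕ) : ℝ) ≤ tau n := by
    unfold tau
    exact_mod_cast Finset.card_filter_le _ _
  calc (((n.divisors.filter (fun m => m ≤ Y)).card : ℕ) : ℝ) * ((tau n : ℝ) ^ 2 * √n) ≤
      tau n * ((tau n : ℝ) ^ 2 * √n) := by gcongr
    _ = _ := by ring

/-- all coefficients are `O(n^{1/2+ε})` -/
theorem coef_bound {ε : ℝ} (hε : 0 < ε) : ∃ C : ℝ, 1 ≤ C ∧ ∀ (d : ℤ) (n : ℕ), n ≠ 0 →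
    |(bd d n : ℝ)| ≤ C * (n : ℝ) ^ (1 / 2 + ε) ∧ |(mb d n : ℝ)| ≤ C * (n : ℝ) ^ (1 / 2 + ε) ∧
    ∀ Y, |(aY d Y n : ℝ)| ≤ C * (n : ℝ) ^ (1 / 2 + ε) := by
  obtain ⟨C, hC1, hC⟩ := tau_le_rpow (ε := ε / 3) (by positivity)
  refine ⟨C ^ 3, one_le_pow₀ hC1, fun d n hn => ?_⟩
  have hn1 : (1:ℝ) ≤ n := by exact_mod_cast Nat.one_le_iff_ne_zero.mpr hn
  have hn0 : (0:ℝ) < n := by linarith
  have htau1 : (1:ℝ) ≤ tau n := by
    have : 1 ≤ tau n := by
      unfold tau
      exact Finset.card_pos.mpr ⟨1, Nat.one_mem_divisors.mpr hn⟩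
    exact_mod_cast this
  have h3 : (tau n : ℝ) ^ 3 * √n ≤ C ^ 3 * (n : ℝ) ^ (1 / 2 + ε) := by
    have h1 := hC n hn
    have h4 : ((n : ℝ) ^ (ε / 3)) ^ 3 = (n : ℝ) ^ ε := by
      rw [← Real.rpow_natCast, ← Real.rpow_mul hn0.le]; congr 1; push_cast; ring
    rw [Real.sqrt_eq_rpow]
    calc (tau n : ℝ) ^ 3 * (n : ℝ) ^ (1 / 2 : ℝ) ≤ (C * (n : ℝ) ^ (ε / 3)) ^ 3 * (n : ℝ) ^ (1 / 2 : ℝ) := by
          gcongr
      _ = C ^ 3 * ((n : ℝ) ^ ε * (n : ℝ) ^ (1 / 2 : ℝ)) := by rw [mul_pow, h4]; ring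
      _ = _ := by rw [← Real.rpow_add hn0]; congr 2; ring
  have h5 : (tau n : ℝ) * √n ≤ (tau n : ℝ) ^ 3 * √n := by
    have : (tau n : ℝ) ≤ (tau n : ℝ) ^ 3 := by
      calc (tau n : ℝ) = (tau n : ℝ) ^ 1 := (pow_one _).symm
        _ ≤ _ := pow_le_pow_right₀ htau1 (by norm_num)
    gcongr
  exact ⟨(bd_tau d hn).trans (h5.trans h3), (mb_tau d hn).trans (h5.trans h3),
    fun Y => (aY_tau d Y hn).trans h3⟩

end Pool.Agent.H6
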