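import Mathlib

/-!
An upper bound of Plancherel type, with a Gaussian weight, for Fourier and Mellin transforms.
-/

set_option autoImplicit false

open MeasureTheory Set Filter Topology Real

namespace Pool.Agent.H6

/-- Gaussian kernel -/
noncomputable def gker (ε y : ℝ) : ℝ := √(π / ε) * Real.exp (-(y ^ 2 / (4 * ε)))

lemma gker_nonneg (ε y : ℝ) : 0 ≤ gker ε y := by unfold gker; positivity

lemma gker_continuous (ε : ℝ) : Continuous (gker ε) := by unfold gker; fun_prop

lemma gker_eq (ε y : ℝ) : gker ε y = √(π / ε) * Real.exp (-(1 / (4 * ε)) * y ^ 2) := by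
  unfold gker; congr 2; ring

lemma gker_integrable {ε : ℝ} (hε : 0 < ε) : Integrable (gker ε) := by
  have : gker ε = fun y => √(π / ε) * Real.exp (-(1 / (4 * ε)) * y ^ 2) := by
    funext y; exact gker_eq ε y
  rw [this]
  exact (integrable_exp_neg_mul_sq (by positivity)).const_mul _

lemma integral_gker {ε : ℝ} (hε : 0 < ε) : ∫ y, gker ε y = 2 * π := by
  have : gker ε = fun y => √(π / ε) * Real.exp (-(1 / (4 * ε)) * y ^ 2) := by
    funext y; exact gker_eq ε y
  rw [this, integral_const_mul, integral_gaussian, ← Real.sqrt_mul (by positivity)]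
  have h1 : π / ε * (π / (1 / (4 * ε))) = (2 * π) ^ 2 := by field_simp; ring
  rw [h1, Real.sqrt_sq (by positivity)]

lemma integral_gker_sub {ε : ℝ} (hε : 0 < ε) (u : ℝ) : ∫ y, gker ε (u - y) = 2 * π := by
  rw [integral_sub_left_eq_self (gker ε) volume u, integral_gker hε]

lemma gauss_ft {ε : ℝ} (hε : 0 < ε) (y : ℝ) :
    ∫ x : ℝ, Complex.exp (Complex.I * y * x) * Complex.exp (-(ε : ℂ) * (x : ℂ) ^ 2) =
      ((gker ε y : ℝ) : ℂ) := by
  have h := fourierIntegral_gaussian (b := (ε : ℂ)) (by simpa using hε) (y : ℂ)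
  rw [h]
  unfold gker
  push_cast
  congr 1
  · rw [Real.sqrt_eq_rpow, Complex.ofReal_cpow (by positivity)]
    push_cast; rfl
  · congr 1; ring

theorem plancherel_ub {H : ℝ → ℂ} (hH : Integrable H) (hH2 : Integrable (fun u => ‖H u‖ ^ 2))
    {ε : ℝ} (hε : 0 < ε) :
    ∫ x : ℝ, ‖∫ u : ℝ, Complex.exp (Complex.I * x * u) * H u‖ ^ 2 * Real.exp (-(ε * x ^ 2)) ≤
      2 * π * ∫ u, ‖H u‖ ^ 2 := by
  set Φ : ℝ → ℂ := fun x => ∫ u : ℝ, Complex.exp (Complex.I * x * u) * H u with hΦ
  set A : ℝ × ℝ → ℂ := fun p => H p.1 * (starRingEnd ℂ) (H p.2) with hA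
  have hHc : Integrable (fun u => (starRingEnd ℂ) (H u)) := by
    refine hH.congr' ?_ ?_
    · exact Complex.continuous_conj.comp_aestronglyMeasurable hH.1
    · filter_upwards with u; simp
  have hAi : Integrable A (volume.prod volume) := hH.mul_prod hHc
  -- the triple integrand
  set E : ℝ → (ℝ × ℝ) → ℂ := fun x p =>
    Complex.exp (-(ε : ℂ) * (x : ℂ) ^ 2) * (Complex.exp (Complex.I * x * p.1) *
      Complex.exp (-(Complex.I * x * p.2)) * A p) with hE
  have hgi : Integrable (fun x : ℝ => Complex.exp (-(ε : ℂ) * (x : ℂ) ^ 2)) := by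
    have h := integrable_cexp_neg_mul_sq (b := (ε : ℂ)) (by simpa using hε)
    exact h
  have hEi : Integrable (Function.uncurry E) (volume.prod (volume.prod volume)) := by
    have h1 : Integrable (fun q : ℝ × (ℝ × ℝ) => Complex.exp (-(ε : ℂ) * (q.1 : ℂ) ^ 2) * A q.2)
        (volume.prod (volume.prod volume)) := hgi.mul_prod hAi
    have h2 : Integrable (fun q : ℝ × (ℝ × ℝ) =>
        (Complex.exp (Complex.I * q.1 * q.2.1) * Complex.exp (-(Complex.I * q.1 * q.2.2))) *
        (Complex.exp (-(ε : ℂ) * (q.1 : ℂ) ^ 2) * A q.2)) (volume.prod (volume.prod volume)) := by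
      refine h1.bdd_mul (c := 1) ?_ ?_
      · apply Continuous.aestronglyMeasurable
        fun_prop
      · filter_upwards with q
        rw [norm_mul, Complex.norm_exp, Complex.norm_exp]
        simp
    refine h2.congr ?_
    filter_upwards with q
    simp only [Function.uncurry, hE]
    ring
  -- first evaluation
  have hx : ∀ x : ℝ, ∫ p, E x p ∂(volume.prod volume) =
      ((‖Φ x‖ ^ 2 * Real.exp (-(ε * x ^ 2)) : ℝ) : ℂ) := by
    intro x
    have h1 : ∫ p, E x p ∂(volume.prod volume) = Complex.exp (-(ε : ℂ) * (x : ℂ) ^ 2) *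
        ((∫ u : ℝ, Complex.exp (Complex.I * x * u) * H u) *
          ∫ w : ℝ, Complex.exp (-(Complex.I * x * w)) * (starRingEnd ℂ) (H w)) := by
      rw [← integral_prod_mul, ← integral_const_mul]
      congr 1
      funext p
      simp only [hE, hA]
      ring
    have h2 : ∫ w : ℝ, Complex.exp (-(Complex.I * x * w)) * (starRingEnd ℂ) (H w) =
        (starRingEnd ℂ) (Φ x) := by
      rw [hΦ, ← integral_conj]
      congr 1
      funext w
      rw [map_mul, ← Complex.exp_conj]
      congr 2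
      simp
    rw [h1, h2]
    have h3 : (∫ u : ℝ, Complex.exp (Complex.I * x * u) * H u) = Φ x := rfl
    rw [h3, Complex.mul_conj, Complex.normSq_eq_norm_sq]
    push_cast
    rw [mul_comm]
    congr 2
    ring
  -- second evaluation
  have hp : ∀ p : ℝ × ℝ, ∫ x, E x p = ((gker ε (p.1 - p.2) : ℝ) : ℂ) * A p := by
    intro p
    rw [← gauss_ft hε, ← integral_mul_const]
    congr 1
    funext x
    simp only [hE]
    have : Complex.exp (Complex.I * ((p.1 - p.2 : ℝ) : ℂ) * x) =
        Complex.exp (Complex.I * x * p.1) * Complex.exp (-(Complex.I * x * p.2)) := by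
      rw [← Complex.exp_add]; congr 1; push_cast; ring
    rw [this]; ring
  have hswap : ∫ x : ℝ, ∫ p, E x p ∂(volume.prod volume) =
      ∫ p, ∫ x : ℝ, E x p ∂volume ∂(volume.prod volume) := integral_integral_swap hEi
  -- the bound
  have hmain : ((∫ x : ℝ, ‖Φ x‖ ^ 2 * Real.exp (-(ε * x ^ 2)) : ℝ) : ℂ) =
      ∫ p : ℝ × ℝ, ((gker ε (p.1 - p.2) : ℝ) : ℂ) * A p ∂(volume.prod volume) := by
    rw [← integral_complex_ofReal]
    calc ∫ x : ℝ, ((‖Φ x‖ ^ 2 * Real.exp (-(ε * x ^ 2)) : ℝ) : ℂ) =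
        ∫ x : ℝ, ∫ p, E x p ∂(volume.prod volume) := by
          congr 1; funext x; rw [hx x]
      _ = ∫ p, ∫ x : ℝ, E x p ∂volume ∂(volume.prod volume) := hswap
      _ = _ := by congr 1; funext p; rw [hp p]
  have hL1 : Integrable (fun p : ℝ × ℝ => gker ε (p.1 - p.2) * ‖H p.1‖ ^ 2)
      (volume.prod volume) := by
    rw [integrable_prod_iff]
    · constructor
      · filter_upwards with u
        exact ((gker_integrable hε).comp_sub_left u).mul_const _
      · have : (fun u : ℝ => ∫ w : ℝ, ‖gker ε (u - w) * ‖H u‖ ^ 2‖) =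
            fun u => 2 * π * ‖H u‖ ^ 2 := by
          funext u
          have h1 : ∀ w : ℝ, ‖gker ε (u - w) * ‖H u‖ ^ 2‖ = gker ε (u - w) * ‖H u‖ ^ 2 := by
            intro w
            rw [Real.norm_of_nonneg (mul_nonneg (gker_nonneg _ _) (by positivity))]
          simp_rw [h1]
          rw [integral_mul_const, integral_gker_sub hε]
        rw [this]
        exact hH2.const_mul _
    · apply AEStronglyMeasurable.mul
      · exact ((gker_continuous ε).comp (continuous_fst.sub continuous_snd)).aestronglyMeasurable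
      · exact hH2.1.comp_fst
  have hL2 : Integrable (fun p : ℝ × ℝ => gker ε (p.1 - p.2) * ‖H p.2‖ ^ 2)
      (volume.prod volume) := by
    have h1 := hL1.swap
    refine h1.congr ?_
    filter_upwards with p
    simp only [Function.comp_apply, Prod.fst_swap, Prod.snd_swap]
    unfold gker
    rw [show (p.2 - p.1) ^ 2 = (p.1 - p.2) ^ 2 by ring]
  have hI1 : ∫ p : ℝ × ℝ, gker ε (p.1 - p.2) * ‖H p.1‖ ^ 2 ∂(volume.prod volume) =
      2 * π * ∫ u, ‖H u‖ ^ 2 := by
    rw [integral_prod _ hL1, ← integral_const_mul]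
    congr 1
    funext u
    simp only
    rw [integral_mul_const, integral_gker_sub hε]
  have hI2 : ∫ p : ℝ × ℝ, gker ε (p.1 - p.2) * ‖H p.2‖ ^ 2 ∂(volume.prod volume) =
      2 * π * ∫ u, ‖H u‖ ^ 2 := by
    rw [← hI1, ← integral_prod_swap]
    congr 1
    funext p
    simp only [Prod.fst_swap, Prod.snd_swap]
    unfold gker
    rw [show (p.2 - p.1) ^ 2 = (p.1 - p.2) ^ 2 by ring]
  have hnn : 0 ≤ ∫ x : ℝ, ‖Φ x‖ ^ 2 * Real.exp (-(ε * x ^ 2)) :=
    integral_nonneg (fun x => by positivity)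
  calc ∫ x : ℝ, ‖Φ x‖ ^ 2 * Real.exp (-(ε * x ^ 2)) =
      ‖((∫ x : ℝ, ‖Φ x‖ ^ 2 * Real.exp (-(ε * x ^ 2)) : ℝ) : ℂ)‖ := by
        rw [Complex.norm_real, Real.norm_of_nonneg hnn]
    _ = ‖∫ p : ℝ × ℝ, ((gker ε (p.1 - p.2) : ℝ) : ℂ) * A p ∂(volume.prod volume)‖ := by rw [hmain]
    _ ≤ ∫ p : ℝ × ℝ, ‖((gker ε (p.1 - p.2) : ℝ) : ℂ) * A p‖ ∂(volume.prod volume) :=
        norm_integral_le_integral_norm _
    _ ≤ ∫ p : ℝ × ℝ, (1 / 2 * (gker ε (p.1 - p.2) * ‖H p.1‖ ^ 2) +
          1 / 2 * (gker ε (p.1 - p.2) * ‖H p.2‖ ^ 2)) ∂(volume.prod volume) := by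
        apply integral_mono_of_nonneg
        · filter_upwards with p; positivity
        · exact (hL1.const_mul _).add (hL2.const_mul _)
        · filter_upwards with p
          rw [norm_mul, Complex.norm_real, Real.norm_of_nonneg (gker_nonneg _ _), hA]
          simp only
          rw [norm_mul, RCLike.norm_conj]
          have h1 := gker_nonneg ε (p.1 - p.2)
          nlinarith [mul_nonneg h1 (sq_nonneg (‖H p.1‖ - ‖H p.2‖))]
    _ = 2 * π * ∫ u, ‖H u‖ ^ 2 := by
        rw [integral_add (hL1.const_mul _) (hL2.const_mul _), integral_const_mul,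
          integral_const_mul, hI1, hI2]
        ring

/-! ### Mellin version -/

lemma exp_image_univ : Real.exp '' univ = Ioi 0 := by
  rw [Set.image_univ, Real.range_exp]

lemma integral_Ioi_eq_exp {E : Type*} [NormedAddCommGroup E] [NormedSpace ℝ E] (F : ℝ → E) :
    ∫ r in Ioi (0:ℝ), F r = ∫ u : ℝ, Real.exp u • F (Real.exp u) := by
  rw [← exp_image_univ, integral_image_eq_integral_abs_deriv_smul (f' := Real.exp)
    MeasurableSet.univ (fun x _ => (Real.hasDerivAt_exp x).hasDerivWithinAt)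
    Real.exp_injective.injOn]
  simp [abs_of_pos (Real.exp_pos _)]

lemma integrableOn_Ioi_iff_exp {E : Type*} [NormedAddCommGroup E] [NormedSpace ℝ E] (F : ℝ → E) :
    IntegrableOn F (Ioi (0:ℝ)) ↔ Integrable (fun u : ℝ => Real.exp u • F (Real.exp u)) := by
  rw [← exp_image_univ, integrableOn_image_iff_integrableOn_abs_deriv_smul (f' := Real.exp)
    MeasurableSet.univ (fun x _ => (Real.hasDerivAt_exp x).hasDerivWithinAt)
    Real.exp_injective.injOn]
  simp [abs_of_pos (Real.exp_pos _)]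

theorem mellin_plancherel_ub {h : ℝ → ℂ} {σ : ℝ} (hc : MellinConvergent h (σ : ℂ))
    (h2 : IntegrableOn (fun r => ‖h r‖ ^ 2 * r ^ (2 * σ - 1)) (Ioi 0)) {ε : ℝ} (hε : 0 < ε) :
    ∫ x : ℝ, ‖mellin h (σ + x * Complex.I)‖ ^ 2 * Real.exp (-(ε * x ^ 2)) ≤
      2 * π * ∫ r in Ioi (0:ℝ), ‖h r‖ ^ 2 * r ^ (2 * σ - 1) := by
  set H : ℝ → ℂ := fun u => Complex.exp (σ * u) * h (Real.exp u) with hHdef
  have hpow : ∀ (u : ℝ) (s : ℂ), (Real.exp u : ℂ) * ((Real.exp u : ℂ) ^ (s - 1)) =
      Complex.exp (s * u) := by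
    intro u s
    have h0 : ((Real.exp u : ℝ) : ℂ) ≠ 0 := by exact_mod_cast (Real.exp_pos u).ne'
    rw [Complex.cpow_def_of_ne_zero h0, ← Complex.ofReal_log (Real.exp_pos u).le, Real.log_exp,
      Complex.ofReal_exp, ← Complex.exp_add]
    congr 1; ring
  have hH : Integrable H := by
    rw [MellinConvergent, integrableOn_Ioi_iff_exp] at hc
    refine hc.congr ?_
    filter_upwards with u
    rw [hHdef]
    simp only [smul_eq_mul, Complex.real_smul]
    rw [← mul_assoc, hpow]
  have hn : ∀ u, ‖H u‖ ^ 2 = Real.exp u • (‖h (Real.exp u)‖ ^ 2 * (Real.exp u) ^ (2 * σ - 1)) := by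
    intro u
    rw [hHdef]
    simp only [smul_eq_mul]
    rw [norm_mul, mul_pow, Complex.norm_exp]
    have h1 : ((σ : ℂ) * (u : ℂ)).re = σ * u := by simp
    rw [h1, ← Real.exp_mul u (2 * σ - 1)]
    have h3 : Real.exp u * (‖h (Real.exp u)‖ ^ 2 * Real.exp (u * (2 * σ - 1))) =
        (Real.exp u * Real.exp (u * (2 * σ - 1))) * ‖h (Real.exp u)‖ ^ 2 := by ring
    rw [h3, ← Real.exp_add, ← Real.exp_nat_mul]
    congr 2
    push_cast; ring
  have hH2 : Integrable (fun u => ‖H u‖ ^ 2) := by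
    rw [integrableOn_Ioi_iff_exp] at h2
    refine h2.congr ?_
    filter_upwards with u
    rw [hn u]
  have hP := plancherel_ub hH hH2 hε
  have e1 : ∀ x : ℝ, ∫ u : ℝ, Complex.exp (Complex.I * x * u) * H u =
      mellin h (σ + x * Complex.I) := by
    intro x
    rw [mellin, integral_Ioi_eq_exp]
    congr 1
    funext u
    rw [hHdef]
    simp only [smul_eq_mul, Complex.real_smul]
    rw [← mul_assoc, ← mul_assoc, hpow, ← Complex.exp_add]
    congr 2
    ring
  have e2 : ∫ u, ‖H u‖ ^ 2 = ∫ r in Ioi (0:ℝ), ‖h r‖ ^ 2 * r ^ (2 * σ - 1) := by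
    rw [integral_Ioi_eq_exp]
    congr 1
    funext u
    exact hn u
  simp_rw [e1] at hP
  rw [e2] at hP
  exact hP

end Pool.Agent.H6
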