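import Mathlib

/-!
Mean values of exponential sums along a ray: the double sum estimate.
-/

set_option autoImplicit false

open MeasureTheory Set Filter Topology Real

namespace Pool.Agent.H6

/-! ### kernels -/

lemma integrableOn_kernel {κ a : ℝ} (hκ : -1 < κ) (ha : 0 < a) :
    IntegrableOn (fun r : ℝ => r ^ κ * Real.exp (-a * r)) (Ioi 0) := by
  have h := integrableOn_rpow_mul_exp_neg_mul_rpow (p := 1) (s := κ) (b := a) hκ one_pos ha
  simpa using h

lemma exp_kernel_le {a r : ℝ} (ha : 0 ≤ a) (hr : 1 ≤ r) :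
    Real.exp (-a * r) ≤ Real.exp (-a / 2) * Real.exp (-(a / 2) * r) := by
  rw [← Real.exp_add]
  apply Real.exp_le_exp.mpr
  nlinarith

/-- real kernel -/
lemma kernel_real_le {κ a : ℝ} (hκ : -1 < κ) (ha : 0 < a) :
    ∫ r in Ioi (1:ℝ), r ^ κ * Real.exp (-a * r) ≤
      Real.exp (-a / 2) * ((2 / a) ^ (κ + 1) * Real.Gamma (κ + 1)) := by
  have h1 : IntegrableOn (fun r : ℝ => r ^ κ * Real.exp (-(a / 2) * r)) (Ioi 0) :=
    integrableOn_kernel hκ (by positivity)
  have h2 := Real.integral_rpow_mul_exp_neg_mul_Ioi (a := κ + 1) (r := a / 2) (by linarith)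
    (by positivity)
  have e1 : (1 / (a / 2)) = 2 / a := by field_simp
  rw [e1] at h2
  rw [← h2]
  have e2 : ∫ r in Ioi (0:ℝ), r ^ (κ + 1 - 1) * Real.exp (-(a / 2 * r)) =
      ∫ r in Ioi (0:ℝ), r ^ κ * Real.exp (-(a / 2) * r) := by
    congr 1; funext r; rw [add_sub_cancel_right, neg_mul]
  rw [e2, ← integral_const_mul]
  calc ∫ r in Ioi (1:ℝ), r ^ κ * Real.exp (-a * r)
      ≤ ∫ r in Ioi (1:ℝ), Real.exp (-a / 2) * (r ^ κ * Real.exp (-(a / 2) * r)) := by
        apply setIntegral_mono_on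
        · exact (integrableOn_kernel hκ ha).mono_set (Ioi_subset_Ioi zero_le_one)
        · exact (h1.mono_set (Ioi_subset_Ioi zero_le_one)).const_mul _
        · exact measurableSet_Ioi
        · intro r hr
          have hr1 : 1 ≤ r := le_of_lt hr
          have h3 := exp_kernel_le ha.le hr1
          have h4 : 0 ≤ r ^ κ := Real.rpow_nonneg (by linarith) _
          calc r ^ κ * Real.exp (-a * r) ≤ r ^ κ * (Real.exp (-a / 2) * Real.exp (-(a / 2) * r)) := by
                gcongr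
            _ = _ := by ring
    _ ≤ ∫ r in Ioi (0:ℝ), Real.exp (-a / 2) * (r ^ κ * Real.exp (-(a / 2) * r)) := by
        apply setIntegral_mono_set (h1.const_mul _)
        · filter_upwards [ae_restrict_mem measurableSet_Ioi] with r hr
          have hr0 : (0:ℝ) < r := hr
          positivity
        · exact (Ioi_subset_Ioi zero_le_one).eventuallyLE

/-- the complex kernel -/
noncomputable def kerI (μ : ℂ) (κ : ℝ) : ℂ :=
  ∫ r in Ioi (1:ℝ), Complex.exp (-μ * r) * ((r ^ κ : ℝ) : ℂ)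

lemma norm_ker (μ : ℂ) (κ : ℝ) {r : ℝ} (hr : 0 < r) :
    ‖Complex.exp (-μ * r) * ((r ^ κ : ℝ) : ℂ)‖ = r ^ κ * Real.exp (-μ.re * r) := by
  rw [norm_mul, Complex.norm_exp, Complex.norm_real, Real.norm_of_nonneg (Real.rpow_nonneg hr.le _)]
  simp [mul_comm]

lemma continuousOn_ker (μ : ℂ) (κ : ℝ) :
    ContinuousOn (fun r : ℝ => Complex.exp (-μ * r) * ((r ^ κ : ℝ) : ℂ)) (Ioi 0) := by
  apply ContinuousOn.mul
  · fun_prop
  · apply Complex.continuous_ofReal.comp_continuousOn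
    intro r hr
    exact (Real.continuousAt_rpow_const r κ (Or.inl (ne_of_gt hr))).continuousWithinAt

lemma integrableOn_ker {μ : ℂ} {κ : ℝ} (hμ : 0 < μ.re) (hκ : -1 < κ) :
    IntegrableOn (fun r : ℝ => Complex.exp (-μ * r) * ((r ^ κ : ℝ) : ℂ)) (Ioi 0) := by
  refine (integrableOn_kernel hκ hμ).mono' ?_ ?_
  · exact (continuousOn_ker μ κ).aestronglyMeasurable measurableSet_Ioi
  · filter_upwards [ae_restrict_mem measurableSet_Ioi] with r hr
    rw [norm_ker μ κ hr]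

lemma norm_kerI_le {μ : ℂ} {κ : ℝ} (hμ : 0 < μ.re) (h1 : 1 ≤ κ) (h3 : κ ≤ 3) :
    ‖kerI μ κ‖ ≤ 1 / ‖μ‖ * (Real.exp (-μ.re / 2) * (1 + 48 * μ.re ^ (-κ))) := by
  have hμ0 : μ ≠ 0 := by
    intro h; rw [h] at hμ; simp at hμ
  have hn : 0 < ‖μ‖ := norm_pos_iff.mpr hμ0
  set a := μ.re with ha
  have hint : IntegrableOn (fun r : ℝ => Complex.exp (-μ * r) * ((r ^ κ : ℝ) : ℂ)) (Ioi 1) :=
    (integrableOn_ker hμ (by linarith)).mono_set (Ioi_subset_Ioi zero_le_one)
  have hint' : IntegrableOn (fun r : ℝ => Complex.exp (-μ * r) * ((r ^ (κ - 1) : ℝ) : ℂ)) (Ioi 1) :=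
    (integrableOn_ker hμ (by linarith)).mono_set (Ioi_subset_Ioi zero_le_one)
  -- integration by parts
  have hder : ∀ r ∈ Ici (1:ℝ), HasDerivAt
      (fun r : ℝ => -(1 / μ) * (Complex.exp (-μ * r) * ((r ^ κ : ℝ) : ℂ)))
      (Complex.exp (-μ * r) * ((r ^ κ : ℝ) : ℂ) -
        (κ / μ) * (Complex.exp (-μ * r) * ((r ^ (κ - 1) : ℝ) : ℂ))) r := by
    intro r hr
    have hr0 : (0:ℝ) < r := lt_of_lt_of_le one_pos hr
    have h1 : HasDerivAt (fun r : ℝ => Complex.exp (-μ * r)) (Complex.exp (-μ * r) * (-μ)) r := by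
      have h2 : HasDerivAt (fun r : ℝ => -μ * (r : ℂ)) (-μ * 1) r :=
        (Complex.ofRealCLM.hasDerivAt (x := r)).const_mul (-μ)
      have h3 := h2.cexp
      rw [mul_one] at h3
      exact h3
    have h2 : HasDerivAt (fun r : ℝ => ((r ^ κ : ℝ) : ℂ)) ((κ * r ^ (κ - 1) : ℝ) : ℂ) r :=
      (Real.hasDerivAt_rpow_const (Or.inl hr0.ne')).ofReal_comp
    have h3 := (h1.mul h2).const_mul (-(1 / μ))
    refine h3.congr_deriv ?_
    push_cast
    field_simp
    ring
  have hlim : Tendsto (fun r : ℝ => -(1 / μ) * (Complex.exp (-μ * r) * ((r ^ κ : ℝ) : ℂ))) atTop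
      (𝓝 0) := by
    have h2 : Tendsto (fun r : ℝ => Complex.exp (-μ * r) * ((r ^ κ : ℝ) : ℂ)) atTop (𝓝 0) := by
      rw [tendsto_zero_iff_norm_tendsto_zero]
      have h3 := tendsto_rpow_mul_exp_neg_mul_atTop_nhds_zero κ a hμ
      refine h3.congr' ?_
      filter_upwards [eventually_gt_atTop 0] with r hr
      rw [norm_ker μ κ hr]
    have := h2.const_mul (-(1 / μ))
    rwa [mul_zero] at this
  have hI := integral_Ioi_of_hasDerivAt_of_tendsto' hder (hint.sub (hint'.const_mul _)) hlim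
  rw [integral_sub hint (hint'.const_mul _), integral_const_mul] at hI
  have e1 : kerI μ κ = 1 / μ * Complex.exp (-μ) +
      κ / μ * ∫ r in Ioi (1:ℝ), Complex.exp (-μ * r) * ((r ^ (κ - 1) : ℝ) : ℂ) := by
    unfold kerI
    have e2 : (((1:ℝ) ^ κ : ℝ) : ℂ) = 1 := by rw [Real.one_rpow]; simp
    rw [e2] at hI
    simp only [Complex.ofReal_one, mul_one] at hI
    linear_combination hI
  have hb : ‖∫ r in Ioi (1:ℝ), Complex.exp (-μ * r) * ((r ^ (κ - 1) : ℝ) : ℂ)‖ ≤
      Real.exp (-a / 2) * ((2 / a) ^ κ * Real.Gamma κ) := by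
    refine (norm_integral_le_integral_norm _).trans ?_
    have h4 := kernel_real_le (κ := κ - 1) (a := a) (by linarith) hμ
    rw [sub_add_cancel] at h4
    refine le_trans (le_of_eq ?_) h4
    apply setIntegral_congr_fun measurableSet_Ioi
    intro r hr
    exact norm_ker μ (κ - 1) (lt_trans one_pos hr)
  have hGam : κ * Real.Gamma κ ≤ 6 := by
    rw [← Real.Gamma_add_one (by linarith)]
    have h5 : Real.Gamma (κ + 1) ≤ Real.Gamma (3 + 1) := by
      apply Real.Gamma_strictMonoOn_Ici.monotoneOn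
      · simp only [mem_Ici]; linarith
      · simp only [mem_Ici]; norm_num
      · linarith
    have h6 : Real.Gamma (3 + 1) = 6 := by
      have := Real.Gamma_nat_eq_factorial 3
      push_cast at this
      rw [this]
      norm_num [Nat.factorial]
    linarith
  have hGam0 : 0 < Real.Gamma κ := Real.Gamma_pos_of_pos (by linarith)
  have h2a : (2 / a) ^ κ ≤ 8 * a ^ (-κ) := by
    rw [Real.div_rpow (by norm_num) hμ.le, Real.rpow_neg hμ.le, div_eq_mul_inv]
    have : (2:ℝ) ^ κ ≤ 8 := by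
      calc (2:ℝ) ^ κ ≤ (2:ℝ) ^ (3:ℝ) := Real.rpow_le_rpow_of_exponent_le (by norm_num) h3
        _ = 8 := by norm_num
    have h7 : 0 ≤ (a ^ κ)⁻¹ := by positivity
    nlinarith
  have hexp : Real.exp (-a) ≤ Real.exp (-a / 2) := by
    apply Real.exp_le_exp.mpr; linarith
  have hak : 0 ≤ a ^ (-κ) := Real.rpow_nonneg hμ.le _
  rw [e1]
  refine (norm_add_le _ _).trans ?_
  rw [norm_mul, norm_mul, norm_div, norm_div, norm_one, Complex.norm_exp, Complex.neg_re,
    Complex.norm_real, Real.norm_of_nonneg (by linarith : 0 ≤ κ)]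
  calc 1 / ‖μ‖ * Real.exp (-μ.re) + κ / ‖μ‖ *
        ‖∫ r in Ioi (1:ℝ), Complex.exp (-μ * r) * ((r ^ (κ - 1) : ℝ) : ℂ)‖
      ≤ 1 / ‖μ‖ * Real.exp (-a / 2) + κ / ‖μ‖ *
        (Real.exp (-a / 2) * ((8 * a ^ (-κ)) * Real.Gamma κ)) := by
        gcongr
        refine hb.trans ?_
        gcongr
    _ = 1 / ‖μ‖ * (Real.exp (-a / 2) * (1 + 8 * a ^ (-κ) * (κ * Real.Gamma κ))) := by
        field_simp
    _ ≤ 1 / ‖μ‖ * (Real.exp (-a / 2) * (1 + 8 * a ^ (-κ) * 6)) := by
        gcongr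
    _ = _ := by ring

/-- diagonal kernel -/
lemma norm_kerI_diag {x : ℝ} {κ : ℝ} (hx : 0 < x) (h1 : 1 ≤ κ) (h3 : κ ≤ 3) :
    ‖kerI ((2 * x : ℝ) : ℂ) κ‖ ≤ 6 * (Real.exp (-x) * x ^ (-(κ + 1))) := by
  unfold kerI
  refine (norm_integral_le_integral_norm _).trans ?_
  have h4 := kernel_real_le (κ := κ) (a := 2 * x) (by linarith) (by positivity)
  have e1 : ∫ r in Ioi (1:ℝ), ‖Complex.exp (-((2 * x : ℝ) : ℂ) * r) * ((r ^ κ : ℝ) : ℂ)‖ =
      ∫ r in Ioi (1:ℝ), r ^ κ * Real.exp (-(2 * x) * r) := by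
    apply setIntegral_congr_fun measurableSet_Ioi
    intro r hr
    simp only
    rw [norm_ker _ κ (lt_trans one_pos hr), Complex.ofReal_re]
  rw [e1]
  refine h4.trans ?_
  have h5 : Real.Gamma (κ + 1) ≤ 6 := by
    have h5 : Real.Gamma (κ + 1) ≤ Real.Gamma (3 + 1) := by
      apply Real.Gamma_strictMonoOn_Ici.monotoneOn
      · simp only [mem_Ici]; linarith
      · simp only [mem_Ici]; norm_num
      · linarith
    have h6 : Real.Gamma (3 + 1) = 6 := by
      have := Real.Gamma_nat_eq_factorial 3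
      push_cast at this
      rw [this]
      norm_num [Nat.factorial]
    linarith
  have e2 : (2 / (2 * x)) ^ (κ + 1) = x ^ (-(κ + 1)) := by
    have : 2 / (2 * x) = x⁻¹ := by field_simp
    rw [this, Real.inv_rpow hx.le, Real.rpow_neg hx.le]
  have e3 : -(2 * x) / 2 = -x := by ring
  rw [e2, e3]
  have h7 : 0 ≤ x ^ (-(κ + 1)) := Real.rpow_nonneg hx.le _
  calc Real.exp (-x) * (x ^ (-(κ + 1)) * Real.Gamma (κ + 1)) ≤
      Real.exp (-x) * (x ^ (-(κ + 1)) * 6) := by gcongr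
    _ = _ := by ring

/-! ### the quadratic form -/

/-- the exponential sum along a ray -/
noncomputable def raySum (a : ℕ → ℝ) (s : Finset ℕ) (z : ℂ) (r : ℝ) : ℂ :=
  ∑ n ∈ s, (a n : ℂ) * Complex.exp (-(n * z) * r)

lemma ray_quadratic (a : ℕ → ℝ) (s : Finset ℕ) {z : ℂ} (hz : 0 < z.re) (hs : ∀ n ∈ s, 1 ≤ n)
    {κ : ℝ} (hκ : -1 < κ) (k : ℕ → ℕ → ℝ) (hk : ∀ m ∈ s, ∀ n ∈ s,
      ‖kerI (m * z + n * (starRingEnd ℂ) z) κ‖ ≤ k m n) (hsymm : ∀ m n, k m n = k n m) :
    ∫ r in Ioi (1:ℝ), ‖raySum a s z r‖ ^ 2 * r ^ κ ≤ ∑ m ∈ s, a m ^ 2 * ∑ n ∈ s, k m n := by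
  have hint : ∀ m ∈ s, ∀ n ∈ s, IntegrableOn (fun r : ℝ =>
      Complex.exp (-(m * z + n * (starRingEnd ℂ) z) * r) * ((r ^ κ : ℝ) : ℂ)) (Ioi 1) := by
    intro m hm n hn
    have h1 : 0 < (m * z + n * (starRingEnd ℂ) z).re := by
      have hm1 : (1:ℝ) ≤ m := by exact_mod_cast hs m hm
      have hn1 : (1:ℝ) ≤ n := by exact_mod_cast hs n hn
      simp only [Complex.add_re, Complex.mul_re, Complex.natCast_re, Complex.natCast_im, zero_mul,
        sub_zero, Complex.conj_re]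
      nlinarith
    exact (integrableOn_ker h1 hκ).mono_set (Ioi_subset_Ioi zero_le_one)
  have hsq : ∀ r : ℝ, ((‖raySum a s z r‖ ^ 2 * r ^ κ : ℝ) : ℂ) = ∑ m ∈ s, ∑ n ∈ s,
      ((a m : ℂ) * (a n : ℂ)) * (Complex.exp (-(m * z + n * (starRingEnd ℂ) z) * r) *
        ((r ^ κ : ℝ) : ℂ)) := by
    intro r
    have h1 : ((‖raySum a s z r‖ ^ 2 : ℝ) : ℂ) =
        raySum a s z r * (starRingEnd ℂ) (raySum a s z r) := by
      rw [Complex.mul_conj, Complex.normSq_eq_norm_sq]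
    rw [Complex.ofReal_mul, h1]
    unfold raySum
    rw [map_sum, Finset.sum_mul_sum, Finset.sum_mul]
    apply Finset.sum_congr rfl
    intro m _
    rw [Finset.sum_mul]
    apply Finset.sum_congr rfl
    intro n _
    have h2 : (starRingEnd ℂ) ((a n : ℂ) * Complex.exp (-(n * z) * r)) =
        (a n : ℂ) * Complex.exp (-(n * (starRingEnd ℂ) z) * r) := by
      rw [map_mul, Complex.conj_ofReal, ← Complex.exp_conj]
      congr 2
      simp
    rw [h2]
    have h3 : Complex.exp (-(m * z + n * (starRingEnd ℂ) z) * r) =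
        Complex.exp (-(m * z) * r) * Complex.exp (-(n * (starRingEnd ℂ) z) * r) := by
      rw [← Complex.exp_add]; congr 1; ring
    rw [h3]; ring
  have hI : ((∫ r in Ioi (1:ℝ), ‖raySum a s z r‖ ^ 2 * r ^ κ : ℝ) : ℂ) =
      ∑ m ∈ s, ∑ n ∈ s, ((a m : ℂ) * (a n : ℂ)) * kerI (m * z + n * (starRingEnd ℂ) z) κ := by
    rw [← integral_complex_ofReal]
    simp_rw [hsq]
    rw [integral_finsetSum]
    · apply Finset.sum_congr rfl
      intro m hm
      rw [integral_finsetSum]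
      · apply Finset.sum_congr rfl
        intro n _
        rw [integral_const_mul]
        rfl
      · intro n hn
        exact (hint m hm n hn).const_mul _
    · intro m hm
      apply integrable_finsetSum
      intro n hn
      exact (hint m hm n hn).const_mul _
  have hnn : 0 ≤ ∫ r in Ioi (1:ℝ), ‖raySum a s z r‖ ^ 2 * r ^ κ := by
    apply setIntegral_nonneg measurableSet_Ioi
    intro r hr
    have : (0:ℝ) < r := lt_trans one_pos hr
    positivity
  have h5 : ∫ r in Ioi (1:ℝ), ‖raySum a s z r‖ ^ 2 * r ^ κ ≤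
      ∑ m ∈ s, ∑ n ∈ s, (1 / 2 * (a m ^ 2 * k m n) + 1 / 2 * (a n ^ 2 * k m n)) := by
    calc ∫ r in Ioi (1:ℝ), ‖raySum a s z r‖ ^ 2 * r ^ κ =
        ‖((∫ r in Ioi (1:ℝ), ‖raySum a s z r‖ ^ 2 * r ^ κ : ℝ) : ℂ)‖ := by
          rw [Complex.norm_real, Real.norm_of_nonneg hnn]
      _ = ‖∑ m ∈ s, ∑ n ∈ s, ((a m : ℂ) * (a n : ℂ)) *
            kerI (m * z + n * (starRingEnd ℂ) z) κ‖ := by rw [hI]
      _ ≤ ∑ m ∈ s, ∑ n ∈ s, |a m| * |a n| * k m n := by
          refine (norm_sum_le _ _).trans (Finset.sum_le_sum (fun m hm => ?_))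
          refine (norm_sum_le _ _).trans (Finset.sum_le_sum (fun n hn => ?_))
          rw [norm_mul, norm_mul, Complex.norm_real, Complex.norm_real, Real.norm_eq_abs,
            Real.norm_eq_abs]
          exact mul_le_mul_of_nonneg_left (hk m hm n hn) (by positivity)
      _ ≤ _ := by
          apply Finset.sum_le_sum
          intro m hm
          apply Finset.sum_le_sum
          intro n hn
          have h6 : 0 ≤ k m n := (norm_nonneg _).trans (hk m hm n hn)
          have h7 := mul_nonneg h6 (sq_nonneg (|a m| - |a n|))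
          have h8 := sq_abs (a m)
          have h9 := sq_abs (a n)
          nlinarith
  refine h5.trans (le_of_eq ?_)
  simp_rw [Finset.sum_add_distrib]
  have h10 : ∑ m ∈ s, ∑ n ∈ s, 1 / 2 * (a n ^ 2 * k m n) =
      ∑ m ∈ s, ∑ n ∈ s, 1 / 2 * (a m ^ 2 * k m n) := by
    rw [Finset.sum_comm]
    apply Finset.sum_congr rfl
    intro m _
    apply Finset.sum_congr rfl
    intro n _
    rw [hsymm n m]
  rw [h10, ← Finset.sum_add_distrib]
  apply Finset.sum_congr rfl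
  intro m _
  rw [← Finset.sum_add_distrib, Finset.mul_sum]
  apply Finset.sum_congr rfl
  intro n _
  ring

end Pool.Agent.H6
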