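import Mathlib
import Pool.Agent.H6.DSum

/-!
Row sums of the kernel and the mean value of the exponential sum along a ray.
-/

set_option autoImplicit false

open MeasureTheory Set Filter Topology Real

namespace Pool.Agent.H6

/-- `ζ(1+ε)` as a real sum -/
noncomputable def zs (ε : ℝ) : ℝ := ∑' j : ℕ, ((j : ℝ) + 1) ^ (-(1 + ε))

lemma summable_zs {ε : ℝ} (hε : 0 < ε) : Summable (fun j : ℕ => ((j : ℝ) + 1) ^ (-(1 + ε))) := by
  have h := (Real.summable_nat_rpow (p := -(1 + ε))).mpr (by linarith)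
  have h2 := (summable_nat_add_iff 1).mpr h
  refine h2.congr (fun j => ?_)
  push_cast; rfl

lemma zs_nonneg (ε : ℝ) : 0 ≤ zs ε := tsum_nonneg (fun j => by positivity)

/-- a sum over an injective image -/
lemma sum_zs_le {ε : ℝ} (hε : 0 < ε) (s : Finset ℕ) (g : ℕ → ℕ) (hg : Set.InjOn g s) :
    ∑ n ∈ s, ((g n : ℝ) + 1) ^ (-(1 + ε)) ≤ zs ε := by
  classical
  have h1 : ∑ n ∈ s, ((g n : ℝ) + 1) ^ (-(1 + ε)) =
      ∑ j ∈ s.image g, ((j : ℝ) + 1) ^ (-(1 + ε)) := by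
    rw [Finset.sum_image]
    exact hg
  rw [h1]
  exact (summable_zs hε).sum_le_tsum _ (fun j _ => by positivity)

lemma sum_pos_zs_le {ε : ℝ} (hε : 0 < ε) (s : Finset ℕ) (hs : ∀ n ∈ s, 1 ≤ n) :
    ∑ n ∈ s, (n : ℝ) ^ (-(1 + ε)) ≤ zs ε := by
  refine le_trans (le_of_eq ?_) (sum_zs_le hε s (fun n => n - 1) ?_)
  · apply Finset.sum_congr rfl
    intro n hn
    have := hs n hn
    rw [Nat.cast_sub this]
    push_cast; congr 1; ring
  · intro a ha b hb hab
    have h1 := hs a ha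
    have h2 := hs b hb
    simp only at hab
    omega

lemma sum_diff_le {ε : ℝ} (hε : 0 < ε) (s : Finset ℕ) (m : ℕ) :
    ∑ n ∈ s.filter (fun n => n ≠ m), |(m : ℝ) - n| ^ (-(1 + ε)) ≤ 2 * zs ε := by
  classical
  have hsplit : s.filter (fun n => n ≠ m) = s.filter (fun n => n < m) ∪ s.filter (fun n => m < n) := by
    ext n
    simp only [Finset.mem_filter, Finset.mem_union]
    constructor
    · rintro ⟨h1, h2⟩
      rcases lt_or_gt_of_ne h2 with h | h
      · exact Or.inl ⟨h1, h⟩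
      · exact Or.inr ⟨h1, h⟩
    · rintro (⟨h1, h2⟩ | ⟨h1, h2⟩)
      · exact ⟨h1, h2.ne⟩
      · exact ⟨h1, h2.ne'⟩
  have hdisj : Disjoint (s.filter (fun n => n < m)) (s.filter (fun n => m < n)) := by
    rw [Finset.disjoint_filter]
    intro n _ h1 h2
    omega
  rw [hsplit, Finset.sum_union hdisj]
  have h1 : ∑ n ∈ s.filter (fun n => n < m), |(m : ℝ) - n| ^ (-(1 + ε)) ≤ zs ε := by
    refine le_trans (le_of_eq ?_) (sum_zs_le hε (s.filter (fun n => n < m)) (fun n => m - n - 1) ?_)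
    · apply Finset.sum_congr rfl
      intro n hn
      have hlt := (Finset.mem_filter.mp hn).2
      have : |(m : ℝ) - n| = ((m - n - 1 : ℕ) : ℝ) + 1 := by
        have h2 : ((m - n - 1 : ℕ) : ℝ) + 1 = ((m - n - 1 + 1 : ℕ) : ℝ) := by push_cast; ring
        rw [h2, show m - n - 1 + 1 = m - n by omega, Nat.cast_sub hlt.le, abs_of_pos]
        have : (n : ℝ) < m := by exact_mod_cast hlt
        linarith
      rw [this]
    · intro a ha b hb hab
      have h1 := (Finset.mem_filter.mp ha).2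
      have h2 := (Finset.mem_filter.mp hb).2
      simp only at hab
      omega
  have h2 : ∑ n ∈ s.filter (fun n => m < n), |(m : ℝ) - n| ^ (-(1 + ε)) ≤ zs ε := by
    refine le_trans (le_of_eq ?_) (sum_zs_le hε (s.filter (fun n => m < n)) (fun n => n - m - 1) ?_)
    · apply Finset.sum_congr rfl
      intro n hn
      have hlt := (Finset.mem_filter.mp hn).2
      have : |(m : ℝ) - n| = ((n - m - 1 : ℕ) : ℝ) + 1 := by
        have h2 : ((n - m - 1 : ℕ) : ℝ) + 1 = ((n - m - 1 + 1 : ℕ) : ℝ) := by push_cast; ring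
        rw [h2, show n - m - 1 + 1 = n - m by omega, Nat.cast_sub hlt.le, abs_sub_comm, abs_of_pos]
        have : (m : ℝ) < n := by exact_mod_cast hlt
        linarith
      rw [this]
    · intro a ha b hb hab
      have h1 := (Finset.mem_filter.mp ha).2
      have h2 := (Finset.mem_filter.mp hb).2
      simp only at hab
      omega
  linarith

lemma rpow_exp_half_le {q x : ℝ} (hq0 : 0 ≤ q) (hq : q ≤ 4) (hx : 0 < x) :
    x ^ q * Real.exp (-x / 2) ≤ 385 := by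
  have h1 : x ^ q ≤ 1 + x ^ 4 := by
    rcases le_total x 1 with h | h
    · have := Real.rpow_le_one hx.le h hq0
      have : 0 ≤ x ^ 4 := by positivity
      linarith
    · have : x ^ q ≤ x ^ (4:ℝ) := Real.rpow_le_rpow_of_exponent_le h hq
      have h4 : x ^ (4:ℝ) = x ^ (4:ℕ) := by
        have := Real.rpow_natCast x 4
        rw [← this]; norm_num
      rw [h4] at this
      linarith
  have h2 : x ^ 4 ≤ 384 * Real.exp (x / 2) := by
    have := Real.pow_div_factorial_le_exp (x / 2) (by positivity) 4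
    have h4 : ((Nat.factorial 4 : ℕ) : ℝ) = 24 := by norm_num [Nat.factorial]
    rw [h4, div_pow, div_div] at this
    norm_num at this
    linarith
  have h3 : Real.exp (x / 2) * Real.exp (-x / 2) = 1 := by rw [← Real.exp_add]; ring_nf; simp
  have h4 : Real.exp (-x / 2) ≤ 1 := by
    rw [Real.exp_le_one_iff]; linarith
  have h5 := Real.exp_pos (-x / 2)
  calc x ^ q * Real.exp (-x / 2) ≤ (1 + x ^ 4) * Real.exp (-x / 2) := by gcongr
    _ ≤ (1 + 384 * Real.exp (x / 2)) * Real.exp (-x / 2) := by gcongr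
    _ = Real.exp (-x / 2) + 384 * (Real.exp (x / 2) * Real.exp (-x / 2)) := by ring
    _ ≤ 385 := by rw [h3]; linarith

lemma rpow_exp_small_le {q x : ℝ} (hq0 : 0 ≤ q) (hq : q ≤ 1) (hx : 0 < x) :
    x ^ q * Real.exp (-x / 2) ≤ 2 := by
  have h1 : x ^ q ≤ 1 + x := by
    rcases le_total x 1 with h | h
    · have := Real.rpow_le_one hx.le h hq0
      linarith
    · have : x ^ q ≤ x ^ (1:ℝ) := Real.rpow_le_rpow_of_exponent_le h hq
      rw [Real.rpow_one] at this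
      linarith
  have h2 : 1 + x ≤ 2 * Real.exp (x / 2) := by
    have := Real.add_one_le_exp (x / 2)
    linarith
  have h3 : Real.exp (x / 2) * Real.exp (-x / 2) = 1 := by rw [← Real.exp_add]; ring_nf; simp
  have h5 := Real.exp_pos (-x / 2)
  calc x ^ q * Real.exp (-x / 2) ≤ (2 * Real.exp (x / 2)) * Real.exp (-x / 2) := by
        gcongr; linarith
    _ = 2 := by rw [mul_assoc, h3, mul_one]

/-- `e^{-x/2} ≤ 2 x^{-q}` -/
lemma exp_half_le_rpow {q x : ℝ} (hq0 : 0 ≤ q) (hq : q ≤ 1) (hx : 0 < x) :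
    Real.exp (-x / 2) ≤ 2 * x ^ (-q) := by
  have h := rpow_exp_small_le hq0 hq hx
  have hp : 0 < x ^ q := by positivity
  rw [Real.rpow_neg hx.le, ← div_eq_mul_inv, le_div_iff₀ hp]
  linarith

/-- the explicit kernel bound -/
noncomputable def kfun (τ b κ : ℝ) (m n : ℕ) : ℝ :=
  if m = n then 6 * (Real.exp (-(m * τ)) * (m * τ) ^ (-(κ + 1)))
  else 1 / (|(m : ℝ) - n| * b) * (Real.exp (-((m + n) * τ) / 2) * (1 + 48 * ((m + n) * τ) ^ (-κ)))

lemma kfun_symm (τ b κ : ℝ) (m n : ℕ) : kfun τ b κ m n = kfun τ b κ n m := by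
  unfold kfun
  by_cases h : m = n
  · rw [h]
  · rw [if_neg h, if_neg (Ne.symm h), abs_sub_comm, add_comm (m : ℝ) n]

lemma kerI_le_kfun {z : ℂ} (hz : 0 < z.re) {b : ℝ} (hb : 0 < b) (hbz : b ≤ |z.im|) {κ : ℝ}
    (h1 : 1 ≤ κ) (h3 : κ ≤ 3) {m n : ℕ} (hm : 1 ≤ m) (hn : 1 ≤ n) :
    ‖kerI (m * z + n * (starRingEnd ℂ) z) κ‖ ≤ kfun z.re b κ m n := by
  have hm0 : (0:ℝ) < m := by exact_mod_cast hm
  have hn0 : (0:ℝ) < n := by exact_mod_cast hn
  unfold kfun
  by_cases h : m = n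
  · subst h
    rw [if_pos rfl]
    have e : (m : ℂ) * z + m * (starRingEnd ℂ) z = ((2 * (m * z.re) : ℝ) : ℂ) := by
      apply Complex.ext
      · simp; ring
      · simp
    rw [e]
    exact norm_kerI_diag (by positivity) h1 h3
  · rw [if_neg h]
    have hre : ((m : ℂ) * z + n * (starRingEnd ℂ) z).re = (m + n) * z.re := by simp; ring
    have him : ((m : ℂ) * z + n * (starRingEnd ℂ) z).im = (m - n) * z.im := by simp; ring
    have hpos : 0 < ((m : ℂ) * z + n * (starRingEnd ℂ) z).re := by rw [hre]; positivity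
    have h4 := norm_kerI_le hpos h1 h3
    refine h4.trans ?_
    rw [hre]
    have hd : 0 < |(m : ℝ) - n| := by
      rw [abs_pos, sub_ne_zero]; exact_mod_cast h
    have h5 : |(m : ℝ) - n| * b ≤ ‖(m : ℂ) * z + n * (starRingEnd ℂ) z‖ := by
      calc |(m : ℝ) - n| * b ≤ |(m : ℝ) - n| * |z.im| := by gcongr
        _ = |((m : ℂ) * z + n * (starRingEnd ℂ) z).im| := by rw [him, abs_mul]
        _ ≤ _ := Complex.abs_im_le_norm _
    have h6 : 0 ≤ ((m + n) * z.re) ^ (-κ) := by positivity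
    gcongr

/-- row sums -/
lemma row_sum_le {τ b κ ε : ℝ} (hτ : 0 < τ) (hb : 0 < b) (hκ : 0 ≤ κ) (hε : 0 < ε) (hε1 : ε ≤ 1)
    (s : Finset ℕ) (hs : ∀ n ∈ s, 1 ≤ n) {m : ℕ} (hm : 1 ≤ m) :
    ∑ n ∈ s, kfun τ b κ m n ≤ 6 * (Real.exp (-(m * τ)) * (m * τ) ^ (-(κ + 1))) +
      4 * zs ε / b * (τ ^ (-ε) * (m : ℝ) ^ ε * (Real.exp (-(m * τ) / 2) *
        (1 + 48 * (m * τ) ^ (-κ)))) := by
  classical
  have hm0 : (0:ℝ) < m := by exact_mod_cast hm
  have hm1 : (1:ℝ) ≤ m := by exact_mod_cast hm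
  have hx : 0 < m * τ := by positivity
  set D : ℝ := 6 * (Real.exp (-(m * τ)) * (m * τ) ^ (-(κ + 1))) with hD
  have hD0 : 0 ≤ D := by positivity
  set W : ℝ := Real.exp (-(m * τ) / 2) * (1 + 48 * (m * τ) ^ (-κ)) with hW
  have hW0 : 0 ≤ W := by positivity
  rw [← Finset.sum_filter_add_sum_filter_not s (fun n => n = m)]
  have h1 : ∑ n ∈ s.filter (fun n => n = m), kfun τ b κ m n ≤ D := by
    rw [Finset.filter_eq']
    split_ifs with h
    · rw [Finset.sum_singleton]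
      unfold kfun
      rw [if_pos rfl]
    · simpa using hD0
  have h2 : ∑ n ∈ s.filter (fun n => ¬ n = m), kfun τ b κ m n ≤
      4 * zs ε / b * (τ ^ (-ε) * (m : ℝ) ^ ε * W) := by
    have hterm : ∀ n ∈ s.filter (fun n => n ≠ m), kfun τ b κ m n ≤
        (2 / b * (τ ^ (-ε) * (m : ℝ) ^ ε * W)) * |(m : ℝ) - n| ^ (-(1 + ε)) := by
      intro n hn
      obtain ⟨hns, hnm⟩ := Finset.mem_filter.mp hn
      have hn1 : (1:ℝ) ≤ n := by exact_mod_cast hs n hns
      have hn0 : (0:ℝ) < n := by linarith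
      have hd1 : 1 ≤ |(m : ℝ) - n| := by
        have h3 : (1:ℤ) ≤ |(m : ℤ) - n| := by
          apply Int.one_le_abs
          intro h
          apply hnm
          omega
        have h4 : ((|(m : ℤ) - n| : ℤ) : ℝ) = |(m : ℝ) - n| := by push_cast; rfl
        rw [← h4]; exact_mod_cast h3
      have hd : 0 < |(m : ℝ) - n| := by linarith
      unfold kfun
      rw [if_neg (Ne.symm hnm)]
      have e1 : Real.exp (-((m + n) * τ) / 2) = Real.exp (-(m * τ) / 2) * Real.exp (-(n * τ) / 2) := by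
        rw [← Real.exp_add]; congr 1; ring
      have h3 : ((m + n) * τ) ^ (-κ) ≤ (m * τ) ^ (-κ) := by
        apply Real.rpow_le_rpow_of_nonpos hx
        · nlinarith
        · linarith
      have h4 : Real.exp (-(n * τ) / 2) ≤ 2 * (n * τ) ^ (-ε) :=
        exp_half_le_rpow hε.le hε1 (by positivity)
      have h5 : (n * τ) ^ (-ε) = (n : ℝ) ^ (-ε) * τ ^ (-ε) := Real.mul_rpow hn0.le hτ.le
      -- the key elementary inequality
      have h6 : (n : ℝ) ^ (-ε) / |(m : ℝ) - n| ≤ (m : ℝ) ^ ε * |(m : ℝ) - n| ^ (-(1 + ε)) := by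
        have e2 : |(m : ℝ) - n| ^ (-(1 + ε)) = |(m : ℝ) - n| ^ (-ε) / |(m : ℝ) - n| := by
          rw [show -(1 + ε) = -ε - 1 by ring, Real.rpow_sub hd, Real.rpow_one]
        rw [e2, ← mul_div_assoc]
        gcongr
        rcases lt_or_gt_of_ne hnm with h | h
        · -- n < m
          have h7 : (n : ℝ) ^ (-ε) ≤ 1 := Real.rpow_le_one_of_one_le_of_nonpos hn1 (by linarith)
          have h8 : |(m : ℝ) - n| ≤ m := by
            have : (n : ℝ) < m := by exact_mod_cast h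
            rw [abs_of_pos (by linarith)]; linarith
          have h9 : 1 ≤ (m : ℝ) ^ ε * |(m : ℝ) - n| ^ (-ε) := by
            rw [Real.rpow_neg hd.le, ← div_eq_mul_inv, one_le_div (by positivity)]
            exact Real.rpow_le_rpow hd.le h8 hε.le
          linarith
        · -- m < n
          have h7 : |(m : ℝ) - n| ≤ n := by
            have : (m : ℝ) < n := by exact_mod_cast h
            rw [abs_sub_comm, abs_of_pos (by linarith)]; linarith
          have h8 : (n : ℝ) ^ (-ε) ≤ |(m : ℝ) - n| ^ (-ε) :=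
            Real.rpow_le_rpow_of_nonpos hd h7 (by linarith)
          have h9 : 1 ≤ (m : ℝ) ^ ε := Real.one_le_rpow hm1 hε.le
          have h10 : 0 ≤ |(m : ℝ) - n| ^ (-ε) := by positivity
          nlinarith
      have hmk : 0 ≤ (m * τ) ^ (-κ) := by positivity
      have hmnk : 0 ≤ ((m + n) * τ) ^ (-κ) := by positivity
      calc 1 / (|(m : ℝ) - n| * b) * (Real.exp (-((m + n) * τ) / 2) *
            (1 + 48 * ((m + n) * τ) ^ (-κ)))
          ≤ 1 / (|(m : ℝ) - n| * b) * ((Real.exp (-(m * τ) / 2) * (2 * ((n : ℝ) ^ (-ε) * τ ^ (-ε)))) *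
            (1 + 48 * (m * τ) ^ (-κ))) := by
            rw [e1, ← h5]
            gcongr
        _ = 2 / b * τ ^ (-ε) * W * ((n : ℝ) ^ (-ε) / |(m : ℝ) - n|) := by
            rw [hW]; field_simp
        _ ≤ 2 / b * τ ^ (-ε) * W * ((m : ℝ) ^ ε * |(m : ℝ) - n| ^ (-(1 + ε))) := by
            gcongr
        _ = _ := by ring
    refine (Finset.sum_le_sum hterm).trans ?_
    rw [← Finset.mul_sum]
    have h7 := sum_diff_le hε s m
    calc (2 / b * (τ ^ (-ε) * (m : ℝ) ^ ε * W)) *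
          ∑ n ∈ s.filter (fun n => n ≠ m), |(m : ℝ) - n| ^ (-(1 + ε))
        ≤ (2 / b * (τ ^ (-ε) * (m : ℝ) ^ ε * W)) * (2 * zs ε) := by gcongr
      _ = _ := by ring
  linarith

/-- **the mean value of an exponential sum along a ray** -/
theorem raySum_bound {ε v B y b : ℝ} (hε : 0 < ε) (hε4 : ε ≤ 1 / 4) (hv : 0 ≤ v)
    (hv1 : 2 * v ≤ 1 + 3 * ε) (hB : 0 ≤ B) (hy : 0 < y) (hb : 0 < b)
    {z : ℂ} (hz : 0 < z.re) (hbz : b ≤ |z.im|) (a : ℕ → ℝ) (s : Finset ℕ)
    (hs : ∀ n ∈ s, 1 ≤ n) (hys : ∀ n ∈ s, y ≤ (n : ℝ))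
    (ha : ∀ n ∈ s, a n ^ 2 ≤ B * (n : ℝ) ^ (1 + ε)) :
    ∫ r in Ioi (1:ℝ), ‖raySum a s z r‖ ^ 2 * r ^ (1 + 2 * v) ≤
      B * zs ε * (12 * (z.re ^ (-(2 + 2 * v + 2 * ε)) * y ^ (-(2 * v))) +
        75460 * zs ε / b * z.re ^ (-(2 + 4 * ε))) := by
  set τ := z.re with hτdef
  have hZ := zs_nonneg ε
  have h1 := ray_quadratic a s hz hs (κ := 1 + 2 * v) (by linarith) (kfun τ b (1 + 2 * v))
    (fun m hm n hn => kerI_le_kfun hz hb hbz (by linarith) (by linarith) (hs m hm) (hs n hn))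
    (kfun_symm _ _ _)
  refine h1.trans ?_
  have hterm : ∀ m ∈ s, a m ^ 2 * ∑ n ∈ s, kfun τ b (1 + 2 * v) m n ≤
      (B * (12 * (τ ^ (-(2 + 2 * v + 2 * ε)) * y ^ (-(2 * v))) +
        75460 * zs ε / b * τ ^ (-(2 + 4 * ε)))) * (m : ℝ) ^ (-(1 + ε)) := by
    intro m hm
    have hm1 : (1:ℝ) ≤ m := by exact_mod_cast hs m hm
    have hm0 : (0:ℝ) < m := by linarith
    have hx : 0 < m * τ := by positivity
    have h2 := row_sum_le (κ := 1 + 2 * v) hz hb (by linarith) hε (by linarith) s hs (hs m hm)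
    have h3 := ha m hm
    set X : ℝ := m * τ with hX
    have hXe : ∀ q : ℝ, X ^ q = (m : ℝ) ^ q * τ ^ q := fun q => Real.mul_rpow hm0.le hz.le
    -- diagonal part
    have hdiag : (m : ℝ) ^ (1 + ε) * (6 * (Real.exp (-X) * X ^ (-(1 + 2 * v + 1)))) ≤
        12 * (τ ^ (-(2 + 2 * v + 2 * ε)) * y ^ (-(2 * v))) * (m : ℝ) ^ (-(1 + ε)) := by
      have h4 : Real.exp (-X) ≤ 2 * X ^ (-(2 * ε)) := by
        have h5 := exp_half_le_rpow (q := 2 * ε) (x := X) (by linarith) (by linarith) hx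
        refine le_trans ?_ h5
        apply Real.exp_le_exp.mpr
        linarith
      have h5 : (m : ℝ) ^ (-(2 * v)) ≤ y ^ (-(2 * v)) :=
        Real.rpow_le_rpow_of_nonpos hy (hys m hm) (by linarith)
      calc (m : ℝ) ^ (1 + ε) * (6 * (Real.exp (-X) * X ^ (-(1 + 2 * v + 1))))
          ≤ (m : ℝ) ^ (1 + ε) * (6 * ((2 * X ^ (-(2 * ε))) * X ^ (-(1 + 2 * v + 1)))) := by
            gcongr
        _ = 12 * ((m : ℝ) ^ (1 + ε) * X ^ (-(2 + 2 * v + 2 * ε))) := by
            have : X ^ (-(2 + 2 * v + 2 * ε)) = X ^ (-(2 * ε)) * X ^ (-(1 + 2 * v + 1)) := by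
              rw [← Real.rpow_add hx]; congr 1; ring
            rw [this]; ring
        _ = 12 * (τ ^ (-(2 + 2 * v + 2 * ε)) * (m : ℝ) ^ (-(2 * v)) * (m : ℝ) ^ (-(1 + ε))) := by
            rw [hXe, show (m : ℝ) ^ (1 + ε) * ((m : ℝ) ^ (-(2 + 2 * v + 2 * ε)) *
                τ ^ (-(2 + 2 * v + 2 * ε))) = ((m : ℝ) ^ (1 + ε) *
                (m : ℝ) ^ (-(2 + 2 * v + 2 * ε))) * τ ^ (-(2 + 2 * v + 2 * ε)) by ring,
              ← Real.rpow_add hm0, mul_assoc (τ ^ _), ← Real.rpow_add hm0, mul_comm (τ ^ _)]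
            congr 3; ring
        _ ≤ 12 * (τ ^ (-(2 + 2 * v + 2 * ε)) * y ^ (-(2 * v)) * (m : ℝ) ^ (-(1 + ε))) := by
            gcongr
        _ = _ := by ring
    -- off diagonal part
    have hoff : (m : ℝ) ^ (1 + ε) * (4 * zs ε / b * (τ ^ (-ε) * (m : ℝ) ^ ε * (Real.exp (-X / 2) *
        (1 + 48 * X ^ (-(1 + 2 * v)))))) ≤
        75460 * zs ε / b * τ ^ (-(2 + 4 * ε)) * (m : ℝ) ^ (-(1 + ε)) := by
      have h4 : Real.exp (-X / 2) * (1 + 48 * X ^ (-(1 + 2 * v))) ≤ 18865 * X ^ (-(2 + 3 * ε)) := by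
        have h5 := rpow_exp_half_le (q := 2 + 3 * ε) (x := X) (by linarith) (by linarith) hx
        have h6 := rpow_exp_half_le (q := 2 + 3 * ε - (1 + 2 * v)) (x := X) (by linarith)
          (by linarith) hx
        have hp : 0 < X ^ (2 + 3 * ε) := by positivity
        rw [Real.rpow_neg hx.le (2 + 3 * ε), ← div_eq_mul_inv, le_div_iff₀ hp]
        have h7 : X ^ (2 + 3 * ε - (1 + 2 * v)) = X ^ (2 + 3 * ε) * X ^ (-(1 + 2 * v)) := by
          rw [← Real.rpow_add hx]; congr 1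
        rw [h7] at h6
        nlinarith
      have hc : 0 ≤ 4 * zs ε / b := by positivity
      calc (m : ℝ) ^ (1 + ε) * (4 * zs ε / b * (τ ^ (-ε) * (m : ℝ) ^ ε * (Real.exp (-X / 2) *
            (1 + 48 * X ^ (-(1 + 2 * v))))))
          ≤ (m : ℝ) ^ (1 + ε) * (4 * zs ε / b * (τ ^ (-ε) * (m : ℝ) ^ ε *
            (18865 * X ^ (-(2 + 3 * ε))))) := by gcongr
        _ = 75460 * zs ε / b * ((τ ^ (-ε) * τ ^ (-(2 + 3 * ε))) *
            (((m : ℝ) ^ (1 + ε) * (m : ℝ) ^ ε) * (m : ℝ) ^ (-(2 + 3 * ε)))) := by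
            rw [hXe]; ring
        _ = _ := by
            rw [← Real.rpow_add hz, ← Real.rpow_add hm0, ← Real.rpow_add hm0, ← mul_assoc]
            congr 2
            · congr 1; ring
            · ring
    calc a m ^ 2 * ∑ n ∈ s, kfun τ b (1 + 2 * v) m n
        ≤ (B * (m : ℝ) ^ (1 + ε)) * (6 * (Real.exp (-X) * X ^ (-(1 + 2 * v + 1))) +
          4 * zs ε / b * (τ ^ (-ε) * (m : ℝ) ^ ε * (Real.exp (-X / 2) *
            (1 + 48 * X ^ (-(1 + 2 * v)))))) := by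
          apply mul_le_mul h3 h2 _ (by positivity)
          apply Finset.sum_nonneg
          intro n hn
          unfold kfun
          have hn1 : (1:ℝ) ≤ n := by exact_mod_cast hs n hn
          split_ifs <;> positivity
      _ = B * ((m : ℝ) ^ (1 + ε) * (6 * (Real.exp (-X) * X ^ (-(1 + 2 * v + 1)))) +
          (m : ℝ) ^ (1 + ε) * (4 * zs ε / b * (τ ^ (-ε) * (m : ℝ) ^ ε * (Real.exp (-X / 2) *
            (1 + 48 * X ^ (-(1 + 2 * v))))))) := by ring
      _ ≤ B * (12 * (τ ^ (-(2 + 2 * v + 2 * ε)) * y ^ (-(2 * v))) * (m : ℝ) ^ (-(1 + ε)) +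
          75460 * zs ε / b * τ ^ (-(2 + 4 * ε)) * (m : ℝ) ^ (-(1 + ε))) := by gcongr
      _ = _ := by ring
  refine (Finset.sum_le_sum hterm).trans ?_
  rw [← Finset.mul_sum]
  have h8 := sum_pos_zs_le hε s hs
  calc (B * (12 * (τ ^ (-(2 + 2 * v + 2 * ε)) * y ^ (-(2 * v))) +
        75460 * zs ε / b * τ ^ (-(2 + 4 * ε)))) * ∑ m ∈ s, (m : ℝ) ^ (-(1 + ε))
      ≤ (B * (12 * (τ ^ (-(2 + 2 * v + 2 * ε)) * y ^ (-(2 * v))) +
        75460 * zs ε / b * τ ^ (-(2 + 4 * ε)))) * zs ε := by gcongr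
    _ = _ := by ring

end Pool.Agent.H6
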