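import Mathlib
import Pool.Agent.H6.DSumRow

/-!
Exponential series in the right half plane, and their mean values along rays.
-/

set_option autoImplicit false

open MeasureTheory Set Filter Topology Real

namespace Pool.Agent.H6

/-- the exponential series -/
noncomputable def Fs (a : ℕ → ℝ) (z : ℂ) : ℂ := ∑' n : ℕ, (a n : ℂ) * Complex.exp (-(n * z))

variable {a : ℕ → ℝ} {C : ℝ}

lemma Fs_term_norm (a : ℕ → ℝ) (n : ℕ) (z : ℂ) :
    ‖(a n : ℂ) * Complex.exp (-(n * z))‖ = |a n| * Real.exp (-(n * z.re)) := by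
  rw [norm_mul, Complex.norm_real, Real.norm_eq_abs, Complex.norm_exp]
  simp

lemma Fs_term_le (hC : 0 ≤ C) (ha : ∀ n : ℕ, |a n| ≤ C * n) {τ : ℝ} (hτ : 0 < τ) (n : ℕ) {z : ℂ}
    (hz : τ ≤ z.re) : ‖(a n : ℂ) * Complex.exp (-(n * z))‖ ≤
      (C * ((n : ℝ) ^ 1 * Real.exp (-(τ / 2) * n))) * Real.exp (-(z.re / 2)) := by
  rw [Fs_term_norm]
  rcases Nat.eq_zero_or_pos n with rfl | hn
  · have h := ha 0
    simp only [Nat.cast_zero, mul_zero] at h
    have h0 : |a 0| = 0 := le_antisymm h (abs_nonneg _)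
    rw [h0]; simp
  · have hn1 : (1:ℝ) ≤ n := by exact_mod_cast hn
    have h1 : Real.exp (-(n * z.re)) ≤ Real.exp (-(τ / 2) * n) * Real.exp (-(z.re / 2)) := by
      rw [← Real.exp_add]
      apply Real.exp_le_exp.mpr
      nlinarith
    calc |a n| * Real.exp (-(n * z.re)) ≤
        (C * n) * (Real.exp (-(τ / 2) * n) * Real.exp (-(z.re / 2))) := by
          have := ha n
          gcongr
      _ = _ := by ring

/-- the constant of the uniform bound -/
noncomputable def Sc (C τ : ℝ) : ℝ := ∑' n : ℕ, C * ((n : ℝ) ^ 1 * Real.exp (-(τ / 2) * n))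

lemma summable_Sc (C : ℝ) {τ : ℝ} (hτ : 0 < τ) :
    Summable (fun n : ℕ => C * ((n : ℝ) ^ 1 * Real.exp (-(τ / 2) * n))) :=
  (Real.summable_pow_mul_exp_neg_nat_mul 1 (by positivity)).mul_left C

lemma Sc_nonneg (hC : 0 ≤ C) (τ : ℝ) : 0 ≤ Sc C τ := tsum_nonneg (fun n => by positivity)

lemma Fs_summable (hC : 0 ≤ C) (ha : ∀ n : ℕ, |a n| ≤ C * n) {z : ℂ} (hz : 0 < z.re) :
    Summable (fun n : ℕ => ‖(a n : ℂ) * Complex.exp (-(n * z))‖) :=
  Summable.of_nonneg_of_le (fun _ => norm_nonneg _) (fun n => Fs_term_le hC ha hz n le_rfl)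
    ((summable_Sc C hz).mul_right _)

lemma Fs_hasSum (hC : 0 ≤ C) (ha : ∀ n : ℕ, |a n| ≤ C * n) {z : ℂ} (hz : 0 < z.re) :
    HasSum (fun n : ℕ => (a n : ℂ) * Complex.exp (-(n * z))) (Fs a z) :=
  (Fs_summable hC ha hz).of_norm.hasSum

lemma Fs_finset_le (hC : 0 ≤ C) (ha : ∀ n : ℕ, |a n| ≤ C * n) {τ : ℝ} (hτ : 0 < τ) {z : ℂ}
    (hz : τ ≤ z.re) (s : Finset ℕ) :
    ‖∑ n ∈ s, (a n : ℂ) * Complex.exp (-(n * z))‖ ≤ Sc C τ * Real.exp (-(z.re / 2)) := by
  refine (norm_sum_le _ _).trans ((Finset.sum_le_sum (fun n _ => Fs_term_le hC ha hτ n hz)).trans ?_)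
  rw [← Finset.sum_mul]
  have h := (summable_Sc C hτ).sum_le_tsum s (fun n _ => by positivity)
  unfold Sc
  gcongr

lemma Fs_norm_le (hC : 0 ≤ C) (ha : ∀ n : ℕ, |a n| ≤ C * n) {τ : ℝ} (hτ : 0 < τ) {z : ℂ}
    (hz : τ ≤ z.re) : ‖Fs a z‖ ≤ Sc C τ * Real.exp (-(z.re / 2)) := by
  have hz0 : 0 < z.re := hτ.trans_le hz
  have h1 := Fs_summable hC ha hz0
  unfold Fs
  refine (norm_tsum_le_tsum_norm h1).trans ?_
  refine (h1.tsum_le_tsum (fun n => Fs_term_le hC ha hτ n hz)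
    ((summable_Sc C hτ).mul_right _)).trans (le_of_eq ?_)
  rw [tsum_mul_right]; rfl

lemma Fs_differentiableOn (hC : 0 ≤ C) (ha : ∀ n : ℕ, |a n| ≤ C * n) :
    DifferentiableOn ℂ (Fs a) {z | 0 < z.re} := by
  intro z hz
  have hz0 : 0 < z.re := hz
  have hopen : IsOpen {w : ℂ | z.re / 2 < w.re} := isOpen_lt continuous_const Complex.continuous_re
  have hd : DifferentiableOn ℂ (Fs a) {w : ℂ | z.re / 2 < w.re} := by
    apply Complex.differentiableOn_tsum_of_summable_norm (summable_Sc C (by positivity : 0 < z.re / 2))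
    · intro n
      fun_prop
    · exact hopen
    · intro n w hw
      have hw' : z.re / 2 ≤ w.re := le_of_lt hw
      refine (Fs_term_le hC ha (by positivity) n hw').trans ?_
      have h1 : Real.exp (-(w.re / 2)) ≤ 1 := by
        rw [Real.exp_le_one_iff]; linarith
      have h2 : 0 ≤ C * ((n : ℝ) ^ 1 * Real.exp (-(z.re / 2 / 2) * n)) := by positivity
      calc _ ≤ (C * ((n : ℝ) ^ 1 * Real.exp (-(z.re / 2 / 2) * n))) * 1 := by gcongr
        _ = _ := mul_one _
  have hmem : z ∈ {w : ℂ | z.re / 2 < w.re} := by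
    show z.re / 2 < z.re
    linarith
  exact (hd.differentiableAt (hopen.mem_nhds hmem)).differentiableWithinAt

lemma Fs_continuousOn (hC : 0 ≤ C) (ha : ∀ n : ℕ, |a n| ≤ C * n) :
    ContinuousOn (Fs a) {z | 0 < z.re} := (Fs_differentiableOn hC ha).continuousOn

lemma Fs_conj (a : ℕ → ℝ) (z : ℂ) : Fs a ((starRingEnd ℂ) z) = (starRingEnd ℂ) (Fs a z) := by
  unfold Fs
  rw [Complex.conj_tsum]
  congr 1
  funext n
  rw [map_mul, Complex.conj_ofReal, ← Complex.exp_conj]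
  congr 2
  simp

/-- along a ray -/
lemma Fs_ray_continuousOn (hC : 0 ≤ C) (ha : ∀ n : ℕ, |a n| ≤ C * n) {z : ℂ} (hz : 0 < z.re) :
    ContinuousOn (fun r : ℝ => Fs a (z * r)) (Ioi 0) := by
  apply (Fs_continuousOn hC ha).comp (by fun_prop)
  intro r hr
  have hr0 : (0:ℝ) < r := hr
  simp only [mem_ofPred_eq, Complex.mul_re, Complex.ofReal_re, Complex.ofReal_im, mul_zero, sub_zero]
  positivity

lemma ray_re {z : ℂ} (r : ℝ) : (z * r).re = z.re * r := by simp

lemma Fs_ray_bound (hC : 0 ≤ C) (ha : ∀ n : ℕ, |a n| ≤ C * n) {z : ℂ} (hz : 0 < z.re) {r : ℝ}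
    (hr : 1 ≤ r) : ‖Fs a (z * r)‖ ≤ Sc C z.re * Real.exp (-(z.re / 2) * r) := by
  have h := Fs_norm_le hC ha hz (z := z * r) (by rw [ray_re]; nlinarith)
  rw [ray_re] at h
  convert h using 3
  ring

/-- **mean value along a ray, infinite series** -/
theorem Fs_ray_mean {ε v B y b : ℝ} (hε : 0 < ε) (hε4 : ε ≤ 1 / 4) (hv : 0 ≤ v)
    (hv1 : 2 * v ≤ 1 + 3 * ε) (hB : 0 ≤ B) (hy : 1 ≤ y) (hb : 0 < b)
    {z : ℂ} (hz : 0 < z.re) (hbz : b ≤ |z.im|) (hC : 0 ≤ C) (hlin : ∀ n : ℕ, |a n| ≤ C * n)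
    (ha : ∀ n : ℕ, a n ^ 2 ≤ B * (n : ℝ) ^ (1 + ε)) (hsupp : ∀ n : ℕ, (n : ℝ) < y → a n = 0) :
    IntegrableOn (fun r : ℝ => ‖Fs a (z * r)‖ ^ 2 * r ^ (1 + 2 * v)) (Ioi 1) ∧
    ∫ r in Ioi (1:ℝ), ‖Fs a (z * r)‖ ^ 2 * r ^ (1 + 2 * v) ≤
      B * zs ε * (12 * (z.re ^ (-(2 + 2 * v + 2 * ε)) * y ^ (-(2 * v))) +
        75460 * zs ε / b * z.re ^ (-(2 + 4 * ε))) := by
  classical
  set s : ℕ → Finset ℕ := fun N => (Finset.range N).filter (fun n => y ≤ (n : ℝ)) with hs
  have hraysum : ∀ N : ℕ, ∀ r : ℝ, raySum a (s N) z r =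
      ∑ n ∈ Finset.range N, (a n : ℂ) * Complex.exp (-(n * (z * r))) := by
    intro N r
    unfold raySum
    rw [hs, Finset.sum_filter]
    apply Finset.sum_congr rfl
    intro n _
    split_ifs with h
    · congr 2; ring
    · rw [hsupp n (not_le.mp h)]; simp
  set S := Sc C z.re with hSdef
  have hS0 : 0 ≤ S := Sc_nonneg hC _
  set g : ℝ → ℝ := fun r => S ^ 2 * (r ^ (1 + 2 * v) * Real.exp (-z.re * r)) with hg
  have hgi : IntegrableOn g (Ioi 1) :=
    ((integrableOn_kernel (by linarith) hz).mono_set (Ioi_subset_Ioi zero_le_one)).const_mul _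
  have hbd : ∀ r : ℝ, 1 < r → ∀ t : Finset ℕ,
      ‖∑ n ∈ t, (a n : ℂ) * Complex.exp (-(n * (z * r)))‖ ^ 2 * r ^ (1 + 2 * v) ≤ g r := by
    intro r hr t
    have hr0 : 0 < r := by linarith
    have h1 := Fs_finset_le hC hlin hz (z := z * r) (by rw [ray_re]; nlinarith) t
    rw [ray_re] at h1
    have h2 : (S * Real.exp (-(z.re * r / 2))) ^ 2 = S ^ 2 * Real.exp (-z.re * r) := by
      rw [mul_pow, ← Real.exp_nat_mul]; congr 2; push_cast; ring
    calc _ ≤ (S * Real.exp (-(z.re * r / 2))) ^ 2 * r ^ (1 + 2 * v) := by gcongr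
      _ = _ := by rw [h2, hg]; ring
  have hlim : ∀ r : ℝ, 1 < r → Tendsto (fun N => ‖raySum a (s N) z r‖ ^ 2 * r ^ (1 + 2 * v)) atTop
      (𝓝 (‖Fs a (z * r)‖ ^ 2 * r ^ (1 + 2 * v))) := by
    intro r hr
    have hre : 0 < (z * r).re := by rw [ray_re]; nlinarith
    have h1 := (Fs_hasSum hC hlin hre).tendsto_sum_nat
    have h2 : (fun N => raySum a (s N) z r) =
        fun N => ∑ n ∈ Finset.range N, (a n : ℂ) * Complex.exp (-(n * (z * r))) := by
      funext N; exact hraysum N r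
    have h3 : Tendsto (fun N => raySum a (s N) z r) atTop (𝓝 (Fs a (z * r))) := by
      rw [h2]; exact h1
    exact ((h3.norm).pow 2).mul_const _
  have hmeas : ∀ N, AEStronglyMeasurable (fun r : ℝ => ‖raySum a (s N) z r‖ ^ 2 * r ^ (1 + 2 * v))
      (volume.restrict (Ioi 1)) := by
    intro N
    apply ContinuousOn.aestronglyMeasurable _ measurableSet_Ioi
    apply ContinuousOn.mul
    · unfold raySum
      fun_prop
    · intro r hr
      have hr0 : (0:ℝ) < r := lt_trans one_pos hr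
      exact (Real.continuousAt_rpow_const r _ (Or.inl hr0.ne')).continuousWithinAt
  have hconv := tendsto_integral_of_dominated_convergence
    (μ := volume.restrict (Ioi 1)) (F := fun N r => ‖raySum a (s N) z r‖ ^ 2 * r ^ (1 + 2 * v))
    (f := fun r => ‖Fs a (z * r)‖ ^ 2 * r ^ (1 + 2 * v)) g hmeas hgi
    (fun N => by
      filter_upwards [ae_restrict_mem measurableSet_Ioi] with r hr
      have hr1 : (1:ℝ) < r := hr
      have hr0 : 0 < r := by linarith
      rw [Real.norm_of_nonneg (by positivity), hraysum N r]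
      exact hbd r hr1 _)
    (by
      filter_upwards [ae_restrict_mem measurableSet_Ioi] with r hr
      exact hlim r hr)
  constructor
  · refine hgi.mono' ?_ ?_
    · apply ContinuousOn.aestronglyMeasurable _ measurableSet_Ioi
      apply ContinuousOn.mul
      · exact ((Fs_ray_continuousOn hC hlin hz).mono (Ioi_subset_Ioi zero_le_one)).norm.pow 2
      · intro r hr
        have hr0 : (0:ℝ) < r := lt_trans one_pos hr
        exact (Real.continuousAt_rpow_const r _ (Or.inl hr0.ne')).continuousWithinAt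
    · filter_upwards [ae_restrict_mem measurableSet_Ioi] with r hr
      have hr1 : (1:ℝ) < r := hr
      have hr0 : 0 < r := by linarith
      rw [Real.norm_of_nonneg (by positivity)]
      have h1 := Fs_ray_bound hC hlin hz hr1.le
      have h2 : (S * Real.exp (-(z.re / 2) * r)) ^ 2 = S ^ 2 * Real.exp (-z.re * r) := by
        rw [mul_pow, ← Real.exp_nat_mul]; congr 2; push_cast; ring
      calc _ ≤ (S * Real.exp (-(z.re / 2) * r)) ^ 2 * r ^ (1 + 2 * v) := by gcongr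
        _ = _ := by rw [h2, hg]; ring
  · refine le_of_tendsto' hconv (fun N => ?_)
    apply raySum_bound hε hε4 hv hv1 hB (by linarith) hb hz hbz a (s N)
    · intro n hn
      have h1 := (Finset.mem_filter.mp hn).2
      have h2 : (1:ℝ) ≤ n := by linarith
      exact_mod_cast h2
    · intro n hn
      exact (Finset.mem_filter.mp hn).2
    · intro n _
      exact ha n

end Pool.Agent.H6
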