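import Mathlib
import Pool.Agent.H6.EdFE
import Pool.Agent.H6.HeatSimple

/-!
Transfer between an entire function given by its Euler product and the completed L-function.
-/

open Real MeasureTheory Set Filter Topology

namespace Pool.Agent.H6

/-- the entire function `Λ(s) / (M^s Γ(s))` -/
noncomputable def divGamma (M : ℝ) (Λ : ℂ → ℂ) (s : ℂ) : ℂ :=
  Λ s * (M : ℂ) ^ (-s) * (Complex.Gamma s)⁻¹

lemma differentiable_divGamma {M : ℝ} (hM : 0 < M) {Λ : ℂ → ℂ} (hΛ : Differentiable ℂ Λ) :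
    Differentiable ℂ (divGamma M Λ) := by
  unfold divGamma
  have hM' : (M : ℂ) ≠ 0 := by exact_mod_cast hM.ne'
  have h1 : Differentiable ℂ (fun s : ℂ => (M : ℂ) ^ (-s)) := by
    intro s
    exact DifferentiableAt.const_cpow (differentiableAt_id.neg) (Or.inl hM')
  exact (hΛ.mul h1).mul Complex.differentiable_one_div_Gamma

lemma divGamma_eq {M : ℝ} (hM : 0 < M) {Λ L : ℂ → ℂ} {s : ℂ} (hs : 0 < s.re)
    (h : Λ s = (M : ℂ) ^ s * Complex.Gamma s * L s) : divGamma M Λ s = L s := by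
  unfold divGamma
  have hM' : (M : ℂ) ≠ 0 := by exact_mod_cast hM.ne'
  have hG : Complex.Gamma s ≠ 0 := Complex.Gamma_ne_zero_of_re_pos hs
  have hMs : (M : ℂ) ^ s ≠ 0 := by
    rw [Complex.cpow_def_of_ne_zero hM']
    exact Complex.exp_ne_zero _
  rw [h, Complex.cpow_neg]
  field_simp

/-- identity theorem -/
lemma eq_of_eq_halfplane {F G : ℂ → ℂ} (hF : Differentiable ℂ F) (hG : Differentiable ℂ G) {a : ℝ}
    (h : ∀ s : ℂ, a < s.re → F s = G s) : F = G := by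
  have h1 : AnalyticOnNhd ℂ F univ := fun z _ => hF.analyticAt z
  have h2 : AnalyticOnNhd ℂ G univ := fun z _ => hG.analyticAt z
  refine h1.eq_of_eventuallyEq h2 (z₀ := ((a + 1 : ℝ) : ℂ)) ?_
  have hopen : IsOpen {s : ℂ | a < s.re} := isOpen_lt continuous_const Complex.continuous_re
  filter_upwards [hopen.mem_nhds (show ((a + 1 : ℝ) : ℂ) ∈ {s : ℂ | a < s.re} by simp)] with s hs
  exact h s hs

lemma mul_divGamma {M : ℝ} (hM : 0 < M) (Λ : ℂ → ℂ) {s : ℂ} (hG : Complex.Gamma s ≠ 0) :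
    (M : ℂ) ^ s * Complex.Gamma s * divGamma M Λ s = Λ s := by
  unfold divGamma
  have hM' : (M : ℂ) ≠ 0 := by exact_mod_cast hM.ne'
  have hMs : (M : ℂ) ^ s ≠ 0 := by
    rw [Complex.cpow_def_of_ne_zero hM']
    exact Complex.exp_ne_zero _
  rw [Complex.cpow_neg]
  field_simp

/-- almost every point of a horizontal line is not a pole of Gamma -/
lemma ae_Gamma_ne_zero (s : ℂ) : ∀ᵐ v : ℝ, Complex.Gamma (s + v) ≠ 0 := by
  have h : {v : ℝ | ¬ Complex.Gamma (s + v) ≠ 0} ⊆ Set.range (fun m : ℕ => -(m : ℝ) - s.re) := by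
    intro v hv
    simp only [mem_ofPred_eq, not_not, Complex.Gamma_eq_zero_iff] at hv
    obtain ⟨m, hm⟩ := hv
    refine ⟨m, ?_⟩
    have := congrArg Complex.re hm
    simp at this
    simp only
    linarith
  rw [ae_iff]
  exact measure_mono_null h ((Set.countable_range _).measure_zero volume)

/-- the deformation in terms of the L-function -/
lemma heat_congr {M : ℝ} (hM : 0 < M) (Λ : ℂ → ℂ) {E : ℂ → ℂ}
    (hE : ∀ s, E s = (M : ℂ) ^ s * Complex.Gamma s * divGamma M Λ s) (t : ℝ) (s : ℂ) :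
    ∫ v : ℝ, E (s + v) * ((Real.exp (-(v ^ 2 / (4 * t))) : ℝ) : ℂ) = heatInt t Λ s := by
  unfold heatInt
  apply integral_congr_ae
  filter_upwards [ae_Gamma_ne_zero s] with v hv
  rw [hE, mul_divGamma hM Λ hv]

lemma cpow_half {N : ℝ} (hN : 0 < N) (s : ℂ) :
    (N : ℂ) ^ (s / 2) * ((2 * π : ℝ) : ℂ) ^ (-s) = (((√N / (2 * π) : ℝ)) : ℂ) ^ s := by
  have h1 : (0:ℝ) < √N := Real.sqrt_pos.mpr hN
  have h2 : (0:ℝ) < 2 * π := by positivity
  have e1 : (N : ℂ) ^ (s / 2) = ((√N : ℝ) : ℂ) ^ s := by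
    have e : (N : ℂ) = ((√N : ℝ) : ℂ) ^ (2:ℕ) := by
      rw [← Complex.ofReal_pow, Real.sq_sqrt hN.le]
    have harg : ((√N : ℝ) : ℂ).arg = 0 := Complex.arg_ofReal_of_nonneg h1.le
    rw [e, ← Complex.cpow_nat_mul']
    · congr 1
      push_cast
      ring
    · rw [harg]; simp; positivity
    · rw [harg]; simp; positivity
  have e2 : (((√N / (2 * π) : ℝ)) : ℂ) = ((√N : ℝ) : ℂ) * (((2 * π)⁻¹ : ℝ) : ℂ) := by
    rw [← Complex.ofReal_mul, div_eq_mul_inv]
  rw [e1, e2, Complex.mul_cpow_ofReal_nonneg h1.le (by positivity), Complex.ofReal_inv,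
    Complex.inv_cpow, Complex.cpow_neg]
  rw [Complex.arg_ofReal_of_nonneg h2.le]
  exact Real.pi_pos.ne

end Pool.Agent.H6
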