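import Mathlib
import Pool.Agent.H6.RayTheta
import Pool.Agent.H6.Transfer
import Pool.Agent.H6.MellinFE

/-!
The functional equation of the theta function at complex arguments and the Mellin transform
along a ray.
-/

set_option autoImplicit false

open MeasureTheory Set Filter Topology Real Asymptotics

namespace Pool.Agent.H6

/-! ### The Gamma integral along a ray -/

lemma norm_rpow_exp {z s : ℂ} {r : ℝ} (hr : 0 < r) :
    ‖(r : ℂ) ^ (s - 1) * Complex.exp (-(z * r))‖ = r ^ (s.re - 1) * Real.exp (-z.re * r) := by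
  rw [norm_mul, Complex.norm_cpow_eq_rpow_re_of_pos hr, Complex.norm_exp]
  simp

lemma contOn_gint (z s : ℂ) :
    ContinuousOn (fun r : ℝ => (r : ℂ) ^ (s - 1) * Complex.exp (-(z * r))) (Ioi 0) := by
  apply ContinuousOn.mul
  · intro r hr
    have hr0 : (0:ℝ) < r := hr
    apply ContinuousAt.continuousWithinAt
    exact ContinuousAt.comp (f := fun r : ℝ => (r : ℂ)) (g := fun w : ℂ => w ^ (s - 1))
      (continuousAt_cpow_const (Or.inl (by simpa using hr0))) Complex.continuous_ofReal.continuousAt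
  · fun_prop

lemma integrableOn_gint {z s : ℂ} (hz : 0 < z.re) (hs : 0 < s.re) :
    IntegrableOn (fun r : ℝ => (r : ℂ) ^ (s - 1) * Complex.exp (-(z * r))) (Ioi 0) := by
  refine (integrableOn_kernel (κ := s.re - 1) (by linarith) hz).mono'
    ((contOn_gint z s).aestronglyMeasurable measurableSet_Ioi) ?_
  filter_upwards [ae_restrict_mem measurableSet_Ioi] with r hr
  rw [norm_rpow_exp hr]

lemma isOpen_rhp : IsOpen {z : ℂ | 0 < z.re} := isOpen_lt continuous_const Complex.continuous_re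

lemma isPreconnected_rhp : IsPreconnected {z : ℂ | 0 < z.re} := by
  have : {z : ℂ | 0 < z.re} = Complex.reCLM ⁻¹' (Ioi 0) := by ext z; simp
  rw [this]
  exact ((convex_Ioi (0:ℝ)).linear_preimage (Complex.reCLM : ℂ →ₗ[ℝ] ℝ)).isPreconnected

/-- identity theorem in the right half plane -/
lemma eqOn_rhp {F G : ℂ → ℂ} (hF : DifferentiableOn ℂ F {z | 0 < z.re})
    (hG : DifferentiableOn ℂ G {z | 0 < z.re}) (h : ∀ x : ℝ, 0 < x → F x = G x) {z : ℂ}
    (hz : 0 < z.re) : F z = G z := by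
  have h1 : AnalyticOnNhd ℂ F {z | 0 < z.re} := hF.analyticOnNhd isOpen_rhp
  have h2 : AnalyticOnNhd ℂ G {z | 0 < z.re} := hG.analyticOnNhd isOpen_rhp
  have hfr : ∃ᶠ w in 𝓝[≠] (1:ℂ), F w = G w := by
    have ht : Tendsto (fun n : ℕ => (((1 + 1 / ((n : ℝ) + 1) : ℝ)) : ℂ)) atTop (𝓝[≠] (1:ℂ)) := by
      rw [tendsto_nhdsWithin_iff]
      constructor
      · have h3 : Tendsto (fun n : ℕ => (1 + 1 / ((n : ℝ) + 1) : ℝ)) atTop (𝓝 (1 + 0)) :=
          tendsto_const_nhds.add tendsto_one_div_add_atTop_nhds_zero_nat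
        rw [add_zero] at h3
        have h4 := (Complex.continuous_ofReal.tendsto (1:ℝ)).comp h3
        rw [Complex.ofReal_one] at h4
        exact h4
      · filter_upwards with n
        simp only [mem_compl_iff, mem_singleton_iff]
        intro h5
        have h6 : (1 + 1 / ((n : ℝ) + 1) : ℝ) = 1 := by exact_mod_cast h5
        have h7 : 0 < 1 / ((n : ℝ) + 1) := by positivity
        linarith
    exact ht.frequently (Frequently.of_forall (fun n => h _ (by positivity)))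
  exact h1.eqOn_of_preconnected_of_frequently_eq h2 isPreconnected_rhp
    (show (1:ℂ) ∈ {z : ℂ | 0 < z.re} by simp) hfr hz

lemma differentiableOn_gint {s : ℂ} (hs : 0 < s.re) :
    DifferentiableOn ℂ (fun z : ℂ => ∫ r in Ioi (0:ℝ), (r : ℂ) ^ (s - 1) * Complex.exp (-(z * r)))
      {z | 0 < z.re} := by
  intro z0 hz0
  have hz0' : 0 < z0.re := hz0
  set δ := z0.re / 2 with hδ
  have hδ0 : 0 < δ := by positivity
  have hre : ∀ z ∈ Metric.ball z0 δ, δ < z.re := by
    intro z hz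
    have h1 : ‖z - z0‖ < δ := by simpa [dist_eq_norm] using hz
    have h2 : |(z - z0).re| ≤ ‖z - z0‖ := Complex.abs_re_le_norm _
    rw [Complex.sub_re] at h2
    have h3 := (abs_le.mp h2).1
    linarith
  have h := hasDerivAt_integral_of_dominated_loc_of_deriv_le
    (μ := volume.restrict (Ioi (0:ℝ))) (𝕜 := ℂ)
    (F := fun z r => (r : ℂ) ^ (s - 1) * Complex.exp (-(z * r)))
    (F' := fun z r => (r : ℂ) ^ (s - 1) * (Complex.exp (-(z * r)) * (-(r : ℂ))))
    (x₀ := z0) (s := Metric.ball z0 δ) (bound := fun r => r ^ s.re * Real.exp (-δ * r))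
    (Metric.ball_mem_nhds z0 hδ0)
    (by
      filter_upwards with z
      exact (contOn_gint z s).aestronglyMeasurable measurableSet_Ioi)
    (integrableOn_gint hz0' hs)
    (by
      apply ContinuousOn.aestronglyMeasurable _ measurableSet_Ioi
      have : (fun r : ℝ => (r : ℂ) ^ (s - 1) * (Complex.exp (-(z0 * r)) * (-(r : ℂ)))) =
          fun r : ℝ => ((r : ℂ) ^ (s - 1) * Complex.exp (-(z0 * r))) * (-(r : ℂ)) := by
        funext r; ring
      rw [this]
      exact (contOn_gint z0 s).mul (by fun_prop))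
    (by
      filter_upwards [ae_restrict_mem measurableSet_Ioi] with r hr
      intro z hz
      have hr0 : (0:ℝ) < r := hr
      have h1 := hre z hz
      have e : (r : ℂ) ^ (s - 1) * (Complex.exp (-(z * r)) * (-(r : ℂ))) =
          ((r : ℂ) ^ (s - 1) * Complex.exp (-(z * r))) * (-(r : ℂ)) := by ring
      rw [e, norm_mul, norm_rpow_exp hr0, norm_neg, Complex.norm_real, Real.norm_of_nonneg hr0.le]
      have e2 : r ^ (s.re - 1) * Real.exp (-z.re * r) * r = r ^ s.re * Real.exp (-z.re * r) := by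
        rw [Real.rpow_sub hr0, Real.rpow_one]; field_simp
      rw [e2]
      gcongr)
    (integrableOn_kernel (by linarith) hδ0)
    (by
      filter_upwards with r
      intro z _
      have h1 : HasDerivAt (fun z : ℂ => -(z * (r : ℂ))) (-(r : ℂ)) z := by
        have h0 : HasDerivAt (fun z : ℂ => z * (r : ℂ)) (r : ℂ) z := by
          simpa using (hasDerivAt_id z).mul_const (r : ℂ)
        exact h0.neg
      exact (h1.cexp).const_mul _)
  exact h.2.differentiableAt.differentiableWithinAt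

/-- the Gamma integral with complex rate -/
lemma gamma_integral_complex {z s : ℂ} (hz : 0 < z.re) (hs : 0 < s.re) :
    ∫ r in Ioi (0:ℝ), (r : ℂ) ^ (s - 1) * Complex.exp (-(z * r)) = z ^ (-s) * Complex.Gamma s := by
  refine eqOn_rhp (F := fun z : ℂ => ∫ r in Ioi (0:ℝ), (r : ℂ) ^ (s - 1) * Complex.exp (-(z * r)))
    (G := fun z => z ^ (-s) * Complex.Gamma s) (differentiableOn_gint hs) ?_ ?_ hz
  · intro w hw
    have hw0 : 0 < w.re := hw
    apply DifferentiableWithinAt.mul_const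
    apply DifferentiableAt.differentiableWithinAt
    exact differentiableAt_id.cpow_const (Or.inl hw0)
  · intro x hx
    have h := Complex.integral_cpow_mul_exp_neg_mul_Ioi (a := s) hs hx
    rw [h, one_div, Complex.cpow_neg]
    congr 1
    rw [Complex.inv_cpow]
    rw [Complex.arg_ofReal_of_nonneg hx.le]
    exact Real.pi_pos.ne

/-! ### Theta data -/

/-- the data of a theta function with functional equation; `M = √Q / π` -/
structure ThData (b : ℕ → ℝ) (M w : ℝ) : Prop where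
  Mpos : 0 < M
  sgn : w = 1 ∨ w = -1
  lin : ∃ C : ℝ, 0 ≤ C ∧ ∀ n : ℕ, |b n| ≤ C * n
  fe : ∀ x : ℝ, 0 < x → Fs b x = (w : ℂ) / (M * x) ^ 2 * Fs b (1 / ((M : ℂ) ^ 2 * x))

namespace ThData

variable {b : ℕ → ℝ} {M w : ℝ}

lemma zero (D : ThData b M w) : b 0 = 0 := by
  obtain ⟨C, _, h⟩ := D.lin
  have := h 0
  simp only [Nat.cast_zero, mul_zero] at this
  exact abs_eq_zero.mp (le_antisymm this (abs_nonneg _))

lemma fe_complex (D : ThData b M w) {z : ℂ} (hz : 0 < z.re) :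
    Fs b z = (w : ℂ) / (M * z) ^ 2 * Fs b (1 / ((M : ℂ) ^ 2 * z)) := by
  obtain ⟨C, hC, hlin⟩ := D.lin
  have hM := D.Mpos
  have hMc : (M : ℂ) ≠ 0 := by exact_mod_cast hM.ne'
  refine eqOn_rhp (F := Fs b)
    (G := fun z => (w : ℂ) / (M * z) ^ 2 * Fs b (1 / ((M : ℂ) ^ 2 * z)))
    (Fs_differentiableOn hC hlin) ?_ (fun x hx => D.fe x hx) hz
  intro u hu
  have hu0 : 0 < u.re := hu
  have hune : u ≠ 0 := by intro h; rw [h] at hu0; simp at hu0
  apply DifferentiableAt.differentiableWithinAt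
  apply DifferentiableAt.mul
  · apply DifferentiableAt.div (differentiableAt_const _) (by fun_prop)
    exact pow_ne_zero 2 (mul_ne_zero hMc hune)
  · have hre : 0 < (1 / ((M : ℂ) ^ 2 * u)).re := by
      have e : (M : ℂ) ^ 2 * u = ((M ^ 2 : ℝ) : ℂ) * u := by push_cast; ring
      rw [e, one_div, Complex.inv_re]
      apply div_pos
      · rw [Complex.re_ofReal_mul]; positivity
      · rw [Complex.normSq_pos]
        exact mul_ne_zero (by exact_mod_cast (pow_pos hM 2).ne') hune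
    have h1 : DifferentiableAt ℂ (Fs b) (1 / ((M : ℂ) ^ 2 * u)) :=
      (Fs_differentiableOn hC hlin).differentiableAt (isOpen_rhp.mem_nhds hre)
    have h2 : DifferentiableAt ℂ (fun u : ℂ => 1 / ((M : ℂ) ^ 2 * u)) u := by
      apply DifferentiableAt.div (differentiableAt_const _) (by fun_prop)
      exact mul_ne_zero (pow_ne_zero 2 hMc) hune
    exact h1.comp u h2

/-- the functional equation on a ray of length `1/M` -/
lemma norm_ray_inv (D : ThData b M w) {z : ℂ} (hz : 0 < z.re) (hn : ‖z‖ * M = 1) {r : ℝ}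
    (hr : 0 < r) : ‖Fs b (z * r)‖ = (r ^ 2)⁻¹ * ‖Fs b (z * (r⁻¹ : ℝ))‖ := by
  have hM := D.Mpos
  have hMc : (M : ℂ) ≠ 0 := by exact_mod_cast hM.ne'
  have hz0 : z ≠ 0 := by intro h; rw [h] at hz; simp at hz
  have hrc : (r : ℂ) ≠ 0 := by exact_mod_cast hr.ne'
  have hre : 0 < (z * r).re := by rw [ray_re]; positivity
  rw [D.fe_complex hre]
  have hzz : z * (starRingEnd ℂ) z * (M : ℂ) ^ 2 = 1 := by
    rw [Complex.mul_conj, Complex.normSq_eq_norm_sq, ← Complex.ofReal_pow, ← Complex.ofReal_mul,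
      ← mul_pow, hn]
    simp
  have e1 : 1 / ((M : ℂ) ^ 2 * (z * r)) = (starRingEnd ℂ) (z * (r⁻¹ : ℝ)) := by
    rw [map_mul, Complex.conj_ofReal, div_eq_iff
      (mul_ne_zero (pow_ne_zero 2 hMc) (mul_ne_zero hz0 hrc)), Complex.ofReal_inv]
    have h1 : (r : ℂ)⁻¹ * (r : ℂ) = 1 := inv_mul_cancel₀ hrc
    linear_combination (-(r : ℂ)⁻¹ * (r : ℂ)) * hzz - h1
  rw [e1, Fs_conj, norm_mul, RCLike.norm_conj, norm_div, norm_pow, norm_mul, norm_mul,
    Complex.norm_real, Complex.norm_real, Complex.norm_real, Real.norm_of_nonneg hM.le,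
    Real.norm_of_nonneg hr.le]
  have hw : ‖w‖ = 1 := by rcases D.sgn with h | h <;> rw [h] <;> simp
  rw [hw]
  have e2 : M * (‖z‖ * r) = r := by
    calc M * (‖z‖ * r) = (‖z‖ * M) * r := by ring
      _ = r := by rw [hn, one_mul]
  rw [e2, one_div]

lemma top_bound (D : ThData b M w) {z : ℂ} (hz : 0 < z.re) :
    (fun r : ℝ => Fs b (z * r)) =O[atTop] (fun r : ℝ => Real.exp (-(z.re / 2) * r)) := by
  obtain ⟨C, hC, hlin⟩ := D.lin
  refine IsBigO.of_bound (Sc C z.re) ?_
  filter_upwards [eventually_ge_atTop 1] with r hr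
  rw [Real.norm_of_nonneg (Real.exp_pos _).le]
  exact Fs_ray_bound hC hlin hz hr

lemma bot_bound (D : ThData b M w) {z : ℂ} (hz : 0 < z.re) (hn : ‖z‖ * M = 1) (c : ℝ) :
    (fun r : ℝ => Fs b (z * r)) =O[𝓝[>] 0] (fun r : ℝ => r ^ (-c)) := by
  obtain ⟨C, hC, hlin⟩ := D.lin
  have h1 := isLittleO_exp_neg_mul_rpow_atTop (by positivity : 0 < z.re / 2) (c - 2)
  have h2 := (h1.comp_tendsto tendsto_inv_nhdsGT_zero).isBigO
  have h3 : (fun r : ℝ => Fs b (z * r)) =O[𝓝[>] 0]
      (fun r : ℝ => (r ^ 2)⁻¹ * Real.exp (-(z.re / 2) * r⁻¹)) := by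
    refine IsBigO.of_bound (Sc C z.re) ?_
    have hlt : ∀ᶠ r : ℝ in 𝓝[>] 0, r < 1 := by
      apply mem_nhdsWithin_of_mem_nhds
      exact Iio_mem_nhds one_pos
    filter_upwards [self_mem_nhdsWithin, hlt] with r hr hr1
    have hr0 : (0:ℝ) < r := hr
    have hinv : 1 ≤ r⁻¹ := (one_le_inv₀ hr0).mpr hr1.le
    rw [D.norm_ray_inv hz hn hr0, Real.norm_of_nonneg (by positivity)]
    have h4 := Fs_ray_bound hC hlin hz hinv
    calc (r ^ 2)⁻¹ * ‖Fs b (z * (r⁻¹ : ℝ))‖ ≤
        (r ^ 2)⁻¹ * (Sc C z.re * Real.exp (-(z.re / 2) * r⁻¹)) := by gcongr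
      _ = _ := by ring
  refine h3.trans ?_
  have h5 : (fun r : ℝ => (r ^ 2)⁻¹ * Real.exp (-(z.re / 2) * r⁻¹)) =O[𝓝[>] 0]
      (fun r : ℝ => (r ^ 2)⁻¹ * (r⁻¹) ^ (c - 2)) := by
    apply IsBigO.mul (isBigO_refl _ _)
    exact h2
  refine h5.trans (IsBigO.of_bound 1 ?_)
  filter_upwards [self_mem_nhdsWithin] with r hr
  have hr0 : (0:ℝ) < r := hr
  rw [one_mul, Real.norm_of_nonneg (by positivity), Real.norm_of_nonneg (by positivity)]
  apply le_of_eq
  rw [Real.inv_rpow hr0.le, ← Real.rpow_neg hr0.le]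
  have h6 : (r ^ 2)⁻¹ = r ^ (-(2:ℝ)) := by
    rw [Real.rpow_neg hr0.le]; norm_num
  rw [h6, ← Real.rpow_add hr0]
  congr 1; ring

lemma locInt (D : ThData b M w) {z : ℂ} (hz : 0 < z.re) :
    LocallyIntegrableOn (fun r : ℝ => Fs b (z * r)) (Ioi 0) := by
  obtain ⟨C, hC, hlin⟩ := D.lin
  exact (Fs_ray_continuousOn hC hlin hz).locallyIntegrableOn measurableSet_Ioi

lemma mellinConv (D : ThData b M w) {z : ℂ} (hz : 0 < z.re) (hn : ‖z‖ * M = 1) (s : ℂ) :
    MellinConvergent (fun r : ℝ => Fs b (z * r)) s :=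
  mellinConvergent_of_isBigO_rpow_exp (a := z.re / 2) (b := s.re - 1) (by positivity) (D.locInt hz)
    (D.top_bound hz) (D.bot_bound hz hn _) (by linarith)

lemma mellinDiff (D : ThData b M w) {z : ℂ} (hz : 0 < z.re) (hn : ‖z‖ * M = 1) :
    Differentiable ℂ (mellin (fun r : ℝ => Fs b (z * r))) := fun s =>
  mellin_differentiableAt_of_isBigO_rpow_exp (a := z.re / 2) (b := s.re - 1) (by positivity)
    (D.locInt hz) (D.top_bound hz) (D.bot_bound hz hn _) (by linarith)

end ThData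

lemma ofReal_mul_cpow' {x : ℝ} (hx : 0 < x) {z : ℂ} (hz : z ≠ 0) (s : ℂ) :
    ((x : ℂ) * z) ^ s = (x : ℂ) ^ s * z ^ s := by
  have hx' : (x : ℂ) ≠ 0 := by exact_mod_cast hx.ne'
  rw [Complex.cpow_def_of_ne_zero (mul_ne_zero hx' hz), Complex.cpow_def_of_ne_zero hx',
    Complex.cpow_def_of_ne_zero hz, Complex.log_ofReal_mul hx hz, ← Complex.exp_add,
    ← Complex.ofReal_log hx.le]
  congr 1; ring

/-- Mellin transform along a ray in the domain of absolute convergence -/
lemma mellin_ray_abs {b : ℕ → ℝ} (hb0 : b 0 = 0) {z s : ℂ} (hz : 0 < z.re) (hs : 0 < s.re)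
    (hsum : Summable (fun n : ℕ => |b n| * (n : ℝ) ^ (-s.re))) :
    mellin (fun r : ℝ => Fs b (z * r)) s =
      z ^ (-s) * Complex.Gamma s * ∑' n : ℕ, (b n : ℂ) * (n : ℂ) ^ (-s) := by
  have hz0 : z ≠ 0 := by intro h; rw [h] at hz; simp at hz
  set F : ℕ → ℝ → ℂ := fun n r => (r : ℂ) ^ (s - 1) * ((b n : ℂ) * Complex.exp (-(n * (z * r)))) with hF
  have hFe : ∀ n : ℕ, ∀ r : ℝ, F n r = (b n : ℂ) *
      ((r : ℂ) ^ (s - 1) * Complex.exp (-(((n : ℂ) * z) * r))) := by
    intro n r; simp only [hF]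
    rw [mul_assoc (n : ℂ)]; ring
  have hnz : ∀ n : ℕ, 1 ≤ n → 0 < ((n : ℂ) * z).re := by
    intro n hn
    have : (0:ℝ) < n := by exact_mod_cast hn
    simp only [Complex.mul_re, Complex.natCast_re, Complex.natCast_im, zero_mul, sub_zero]
    positivity
  have hint : ∀ n, Integrable (F n) (volume.restrict (Ioi 0)) := by
    intro n
    have : F n = fun r : ℝ => (b n : ℂ) *
        ((r : ℂ) ^ (s - 1) * Complex.exp (-(((n : ℂ) * z) * r))) := by
      funext r; exact hFe n r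
    rw [this]
    rcases Nat.eq_zero_or_pos n with rfl | hn
    · rw [hb0]; simp
    · exact (integrableOn_gint (hnz n hn) hs).const_mul _
  have hval : ∀ n : ℕ, ∫ r in Ioi (0:ℝ), F n r =
      z ^ (-s) * Complex.Gamma s * ((b n : ℂ) * (n : ℂ) ^ (-s)) := by
    intro n
    simp_rw [hFe]
    rw [integral_const_mul]
    rcases Nat.eq_zero_or_pos n with rfl | hn
    · rw [hb0]; simp
    · have hn' : (0:ℝ) < n := by exact_mod_cast hn
      rw [gamma_integral_complex (hnz n hn) hs]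
      have e := ofReal_mul_cpow' hn' hz0 (-s)
      rw [Complex.ofReal_natCast] at e
      rw [e]; ring
  have hnorm : ∀ n : ℕ, ∫ r in Ioi (0:ℝ), ‖F n r‖ =
      (z.re ^ (-s.re) * Real.Gamma s.re) * (|b n| * (n : ℝ) ^ (-s.re)) := by
    intro n
    rcases Nat.eq_zero_or_pos n with rfl | hn
    · have : ∀ r : ℝ, ‖F 0 r‖ = 0 := by intro r; rw [hFe, hb0]; simp
      simp_rw [this, hb0]; simp
    · have hn' : (0:ℝ) < n := by exact_mod_cast hn
      have h1 : ∫ r in Ioi (0:ℝ), ‖F n r‖ =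
          ∫ r in Ioi (0:ℝ), |b n| * (r ^ (s.re - 1) * Real.exp (-(n * z.re * r))) := by
        apply setIntegral_congr_fun measurableSet_Ioi
        intro r hr
        simp only
        rw [hFe, norm_mul, norm_rpow_exp hr, Complex.norm_real, Real.norm_eq_abs]
        congr 3
        simp
      rw [h1, integral_const_mul, Real.integral_rpow_mul_exp_neg_mul_Ioi hs (by positivity),
        one_div, Real.inv_rpow (by positivity), ← Real.rpow_neg (by positivity),
        Real.mul_rpow hn'.le hz.le]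
      ring
  have hS : Summable (fun n => ∫ r in Ioi (0:ℝ), ‖F n r‖) := by
    simp_rw [hnorm]
    exact hsum.mul_left _
  have h := hasSum_integral_of_summable_integral_norm hint hS
  rw [mellin]
  have h2 : ∫ r in Ioi (0:ℝ), (r : ℂ) ^ (s - 1) • Fs b (z * r) = ∫ r in Ioi (0:ℝ), ∑' n, F n r := by
    apply setIntegral_congr_fun measurableSet_Ioi
    intro r hr
    simp only [hF, smul_eq_mul]
    rw [tsum_mul_left]
    rfl
  rw [h2, ← h.tsum_eq, ← tsum_mul_left]
  exact tsum_congr hval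

/-- **Mellin transform along a ray** -/
theorem ThData.mellin_ray {b : ℕ → ℝ} {M w : ℝ} (D : ThData b M w) {z : ℂ} (hz : 0 < z.re)
    (hn : ‖z‖ * M = 1) {Λ : ℂ → ℂ} (hΛ : Differentiable ℂ Λ)
    (hsum : ∀ σ : ℝ, 3 / 2 < σ → Summable (fun n : ℕ => |b n| * (n : ℝ) ^ (-σ)))
    (hL : ∀ s : ℂ, 3 / 2 < s.re → Λ s = (M : ℂ) ^ s * Complex.Gamma s *
      ∑' n : ℕ, (b n : ℂ) * (n : ℂ) ^ (-s)) (s : ℂ) :
    mellin (fun r : ℝ => Fs b (z * r)) s = ((M : ℂ) * z) ^ (-s) * Λ s := by
  have hz0 : z ≠ 0 := by intro h; rw [h] at hz; simp at hz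
  have hM := D.Mpos
  have hMc : (M : ℂ) ≠ 0 := by exact_mod_cast hM.ne'
  have h := eq_of_eq_halfplane (a := 3 / 2) (D.mellinDiff hz hn)
    (G := fun s => ((M : ℂ) * z) ^ (-s) * Λ s) ?_ ?_
  · exact congrFun h s
  · intro s
    apply DifferentiableAt.mul _ (hΛ s)
    exact DifferentiableAt.const_cpow differentiableAt_id.neg (Or.inl (mul_ne_zero hMc hz0))
  · intro s hs
    rw [mellin_ray_abs D.zero hz (by linarith) (hsum _ hs), hL s hs, ofReal_mul_cpow' hM hz0]
    have h1 : (M : ℂ) ^ (-s) * (M : ℂ) ^ s = 1 := by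
      rw [← Complex.cpow_add _ _ hMc]; simp
    linear_combination (-(z ^ (-s) * Complex.Gamma s * ∑' n : ℕ, (b n : ℂ) * (n : ℂ) ^ (-s))) * h1

end Pool.Agent.H6
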