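import Mathlib
import Pool.Agent.H6.RayMellin
import Pool.Agent.H6.DCoef
import Pool.Agent.H6.PlanUB

/-!
Mean squares on vertical lines: the ray integrals over `(0, ∞)`.
-/

set_option autoImplicit false

open MeasureTheory Set Filter Topology Real Asymptotics

namespace Pool.Agent.H6

open Pool.Agent.H5

/-! ### Inversion -/

namespace ThData

variable {b : ℕ → ℝ} {M w : ℝ}

lemma inversion (D : ThData b M w) {z : ℂ} (hz : 0 < z.re) (hn : ‖z‖ * M = 1) {κ : ℝ} (hκ : 1 ≤ κ)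
    (hint : IntegrableOn (fun r : ℝ => ‖Fs b (z * r)‖ ^ 2 * r ^ κ) (Ioi 1)) :
    IntegrableOn (fun r : ℝ => ‖Fs b (z * r)‖ ^ 2 * r ^ κ) (Ioi 0) ∧
    ∫ r in Ioi (0:ℝ), ‖Fs b (z * r)‖ ^ 2 * r ^ κ ≤
      2 * ∫ r in Ioi (1:ℝ), ‖Fs b (z * r)‖ ^ 2 * r ^ κ := by
  obtain ⟨C, hC, hlin⟩ := D.lin
  set f : ℝ → ℂ := fun r => Fs b (z * r) with hf
  have hcont : ContinuousOn (fun r : ℝ => ‖f r‖ ^ 2) (Ioi 0) :=
    (Fs_ray_continuousOn hC hlin hz).norm.pow 2
  -- the reflected function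
  have hg : IntegrableOn (fun r : ℝ => ‖f r‖ ^ 2 * r ^ (2 - κ)) (Ioi 1) := by
    refine hint.mono' ?_ ?_
    · apply ContinuousOn.aestronglyMeasurable _ measurableSet_Ioi
      apply (hcont.mono (Ioi_subset_Ioi zero_le_one)).mul
      intro r hr
      exact (Real.continuousAt_rpow_const r _ (Or.inl (lt_trans one_pos hr).ne')).continuousWithinAt
    · filter_upwards [ae_restrict_mem measurableSet_Ioi] with r hr
      have hr1 : (1:ℝ) ≤ r := le_of_lt hr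
      rw [Real.norm_of_nonneg (by positivity)]
      have : r ^ (2 - κ) ≤ r ^ κ := Real.rpow_le_rpow_of_exponent_le hr1 (by linarith)
      gcongr
  set g : ℝ → ℝ := (Ioi (1:ℝ)).indicator (fun r : ℝ => ‖f r‖ ^ 2 * r ^ (2 - κ)) with hgdef
  have hgint : IntegrableOn g (Ioi 0) := by
    rw [hgdef]
    apply IntegrableOn.integrable_indicator _ measurableSet_Ioi |>.integrableOn
    exact hg
  have h1 := (integrableOn_Ioi_comp_rpow_iff g (p := -1) (by norm_num)).mpr hgint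
  have h2 := integral_comp_rpow_Ioi g (p := -1) (by norm_num)
  have hpt : ∀ r ∈ Ioi (0:ℝ), (|(-1:ℝ)| * r ^ ((-1:ℝ) - 1)) • g (r ^ (-1:ℝ)) =
      (Iio (1:ℝ)).indicator (fun r => ‖f r‖ ^ 2 * r ^ κ) r := by
    intro r hr
    have hr0 : (0:ℝ) < r := hr
    have e1 : r ^ (-1:ℝ) = r⁻¹ := Real.rpow_neg_one r
    rw [e1, hgdef]
    by_cases h : r < 1
    · have hinv : 1 < r⁻¹ := (one_lt_inv₀ hr0).mpr h
      rw [indicator_of_mem (show r⁻¹ ∈ Ioi (1:ℝ) from hinv),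
        indicator_of_mem (show r ∈ Iio (1:ℝ) from h)]
      have e2 := D.norm_ray_inv hz hn hr0
      simp only [hf]
      rw [e2]
      simp only [abs_neg, abs_one, one_mul, smul_eq_mul]
      rw [Real.inv_rpow hr0.le, ← Real.rpow_neg hr0.le, mul_pow]
      have e3 : ((r ^ 2)⁻¹) ^ 2 = r ^ (-(4:ℝ)) := by
        rw [Real.rpow_neg hr0.le, inv_pow, ← pow_mul]; norm_num
      rw [e3]
      have e4 : r ^ ((-1:ℝ) - 1) * r ^ (-(2 - κ)) = r ^ (-(4:ℝ)) * r ^ κ := by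
        rw [← Real.rpow_add hr0, ← Real.rpow_add hr0]; congr 1; ring
      calc r ^ ((-1:ℝ) - 1) * (‖Fs b (z * ((r⁻¹ : ℝ) : ℂ))‖ ^ 2 * r ^ (-(2 - κ))) =
          (r ^ ((-1:ℝ) - 1) * r ^ (-(2 - κ))) * ‖Fs b (z * ((r⁻¹ : ℝ) : ℂ))‖ ^ 2 := by ring
        _ = _ := by rw [e4]; ring
    · have hinv : ¬ 1 < r⁻¹ := by
        rw [one_lt_inv₀ hr0]; exact h
      rw [indicator_of_notMem (show r⁻¹ ∉ Ioi (1:ℝ) from hinv),
        indicator_of_notMem (show r ∉ Iio (1:ℝ) from h), smul_zero]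
  have h3 : IntegrableOn ((Iio (1:ℝ)).indicator (fun r => ‖f r‖ ^ 2 * r ^ κ)) (Ioi 0) := by
    refine h1.congr_fun ?_ measurableSet_Ioi
    exact hpt
  have h4 : ∫ r in Ioi (0:ℝ), (Iio (1:ℝ)).indicator (fun r => ‖f r‖ ^ 2 * r ^ κ) r =
      ∫ r in Ioi (1:ℝ), ‖f r‖ ^ 2 * r ^ (2 - κ) := by
    rw [← setIntegral_congr_fun measurableSet_Ioi hpt, h2, hgdef,
      setIntegral_indicator measurableSet_Ioi]
    congr 2
    rw [Ioi_inter_Ioi]; simp
  have h5 : IntegrableOn (fun r => ‖f r‖ ^ 2 * r ^ κ) (Ioo 0 1) := by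
    rw [IntegrableOn, integrable_indicator_iff measurableSet_Iio, IntegrableOn,
      Measure.restrict_restrict measurableSet_Iio] at h3
    have e : Iio (1:ℝ) ∩ Ioi 0 = Ioo 0 1 := by ext x; simp [and_comm]
    rw [e] at h3
    exact h3
  have h6 : ∫ r in Ioo (0:ℝ) 1, ‖f r‖ ^ 2 * r ^ κ = ∫ r in Ioi (1:ℝ), ‖f r‖ ^ 2 * r ^ (2 - κ) := by
    rw [← h4, setIntegral_indicator measurableSet_Iio]
    congr 2
  have h7 : IntegrableOn (fun r => ‖f r‖ ^ 2 * r ^ κ) (Ioc 0 1) :=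
    (integrableOn_Ioc_iff_integrableOn_Ioo).mpr h5
  have hunion : Ioi (0:ℝ) = Ioc 0 1 ∪ Ioi 1 := (Ioc_union_Ioi_eq_Ioi zero_le_one).symm
  have hdisj : Disjoint (Ioc (0:ℝ) 1) (Ioi 1) := by
    rw [Set.disjoint_left]
    intro x hx hx'
    exact absurd hx.2 (not_le.mpr hx')
  refine ⟨by rw [hunion]; exact h7.union hint, ?_⟩
  rw [hunion, setIntegral_union hdisj measurableSet_Ioi h7 hint, integral_Ioc_eq_integral_Ioo, h6]
  have h8 : ∫ r in Ioi (1:ℝ), ‖f r‖ ^ 2 * r ^ (2 - κ) ≤ ∫ r in Ioi (1:ℝ), ‖f r‖ ^ 2 * r ^ κ := by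
    apply setIntegral_mono_on hg hint measurableSet_Ioi
    intro r hr
    have hr1 : (1:ℝ) ≤ r := le_of_lt hr
    have : r ^ (2 - κ) ≤ r ^ κ := Real.rpow_le_rpow_of_exponent_le hr1 (by linarith)
    gcongr
  linarith

end ThData

/-! ### The mollified series -/

/-- real valued coefficients -/
noncomputable def bR (d : ℤ) (n : ℕ) : ℝ := (bd d n : ℝ)

/-- coefficients with the first one removed -/
noncomputable def aR (d : ℤ) (Y n : ℕ) : ℝ := if n ≤ 1 then 0 else (aY d Y n : ℝ)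

lemma aY_eq_sum (d : ℤ) (Y n : ℕ) : (aY d Y n : ℝ) = ∑ m ∈ Finset.Icc 1 Y,
    (mb d m : ℝ) * (if m ∣ n then bR d (n / m) else 0) := by
  unfold aY
  rcases Nat.eq_zero_or_pos n with rfl | hn
  · simp [bR, bd_zero]
  · have h : n.divisors.filter (fun m => m ≤ Y) = (Finset.Icc 1 Y).filter (fun m => m ∣ n) := by
      ext m
      simp only [Finset.mem_filter, Nat.mem_divisors, Finset.mem_Icc]
      constructor
      · rintro ⟨⟨h1, _⟩, h3⟩
        exact ⟨⟨Nat.pos_of_dvd_of_pos h1 hn, h3⟩, h1⟩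
      · rintro ⟨⟨_, h2⟩, h3⟩
        exact ⟨⟨h3, hn.ne'⟩, h2⟩
    rw [h, Finset.sum_filter]
    push_cast
    apply Finset.sum_congr rfl
    intro m _
    split_ifs with h1
    · rfl
    · simp

lemma tsum_multiples {m : ℕ} (hm : 1 ≤ m) (b : ℕ → ℝ) (u : ℂ) :
    ∑' n : ℕ, (((if m ∣ n then b (n / m) else 0 : ℝ)) : ℂ) * Complex.exp (-(n * u)) =
      Fs b (m * u) := by
  have hinj : Function.Injective (fun k : ℕ => m * k) := fun a b h => by
    exact Nat.eq_of_mul_eq_mul_left hm h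
  have hsupp : Function.support (fun n : ℕ => (((if m ∣ n then b (n / m) else 0 : ℝ)) : ℂ) *
      Complex.exp (-(n * u))) ⊆ Set.range (fun k : ℕ => m * k) := by
    intro n hn
    by_contra h
    apply hn
    have : ¬ m ∣ n := by
      rintro ⟨k, hk⟩
      exact h ⟨k, hk.symm⟩
    simp [this]
  rw [← hinj.tsum_eq hsupp]
  unfold Fs
  congr 1
  funext k
  rw [if_pos (Dvd.intro k rfl), Nat.mul_div_cancel_left k hm]
  congr 2
  push_cast; ring

lemma linear_bR (d : ℤ) : ∃ C : ℝ, 0 ≤ C ∧ (∀ n : ℕ, |bR d n| ≤ C * n) ∧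
    (∀ n : ℕ, |(mb d n : ℝ)| ≤ C * n) ∧ ∀ Y n : ℕ, |(aY d Y n : ℝ)| ≤ C * n := by
  obtain ⟨C, hC, h⟩ := coef_bound (ε := 1 / 2) (by norm_num)
  refine ⟨C, by linarith, fun n => ?_, fun n => ?_, fun Y n => ?_⟩
  · rcases Nat.eq_zero_or_pos n with rfl | hn
    · simp [bR, bd_zero]
    · have := (h d n hn.ne').1
      norm_num at this
      exact this
  · rcases Nat.eq_zero_or_pos n with rfl | hn
    · simp [mb_zero]
    · have := (h d n hn.ne').2.1
      norm_num at this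
      exact this
  · rcases Nat.eq_zero_or_pos n with rfl | hn
    · simp [aY_zero]
    · have := (h d n hn.ne').2.2 Y
      norm_num at this
      exact this

lemma Fs_aY (d : ℤ) (Y : ℕ) {u : ℂ} (hu : 0 < u.re) :
    Fs (fun n => (aY d Y n : ℝ)) u = ∑ m ∈ Finset.Icc 1 Y, (mb d m : ℂ) * Fs (bR d) (m * u) := by
  obtain ⟨C, hC, hb, -, -⟩ := linear_bR d
  have hsm : ∀ m ∈ Finset.Icc 1 Y, Summable (fun n : ℕ =>
      (((if m ∣ n then bR d (n / m) else 0 : ℝ)) : ℂ) * Complex.exp (-(n * u))) := by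
    intro m hm
    have hm1 := (Finset.mem_Icc.mp hm).1
    apply Summable.of_norm
    refine Fs_summable (a := fun n => if m ∣ n then bR d (n / m) else 0) hC (fun n => ?_) hu
    split_ifs with h
    · refine (hb _).trans ?_
      have : ((n / m : ℕ) : ℝ) ≤ n := by exact_mod_cast Nat.div_le_self n m
      gcongr
    · simp; positivity
  unfold Fs
  have h1 : ∀ n : ℕ, (((aY d Y n : ℝ)) : ℂ) * Complex.exp (-(n * u)) =
      ∑ m ∈ Finset.Icc 1 Y, (mb d m : ℂ) * ((((if m ∣ n then bR d (n / m) else 0 : ℝ)) : ℂ) *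
        Complex.exp (-(n * u))) := by
    intro n
    rw [aY_eq_sum]
    push_cast
    rw [Finset.sum_mul]
    apply Finset.sum_congr rfl
    intro m _
    ring
  simp_rw [h1]
  rw [Summable.tsum_finsetSum (fun m hm => (hsm m hm).mul_left _)]
  apply Finset.sum_congr rfl
  intro m hm
  rw [tsum_mul_left]
  congr 1
  have := tsum_multiples (Finset.mem_Icc.mp hm).1 (bR d) u
  rw [this]
  rfl

lemma Fs_aR (d : ℤ) {Y : ℕ} (hY : 1 ≤ Y) {u : ℂ} (hu : 0 < u.re) :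
    Fs (aR d Y) u = Fs (fun n => (aY d Y n : ℝ)) u - Complex.exp (-u) := by
  obtain ⟨C, hC, -, -, ha⟩ := linear_bR d
  have hs := Fs_hasSum (a := fun n => (aY d Y n : ℝ)) hC (ha Y) hu
  have h1 : HasSum (fun n : ℕ => if n = 1 then Complex.exp (-u) else 0) (Complex.exp (-u)) :=
    hasSum_ite_eq 1 _
  have h2 := hs.sub h1
  rw [← h2.tsum_eq]
  unfold Fs
  congr 1
  funext n
  unfold aR
  rcases Nat.lt_or_ge 1 n with hn | hn
  · rw [if_neg (by omega), if_neg (by omega), sub_zero]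
  · interval_cases n
    · simp [aY_zero]
    · simp [aY_one d hY]

lemma aR_linear (d : ℤ) : ∃ C : ℝ, 0 ≤ C ∧ ∀ Y n : ℕ, |aR d Y n| ≤ C * n := by
  obtain ⟨C, hC, -, -, ha⟩ := linear_bR d
  refine ⟨C, hC, fun Y n => ?_⟩
  unfold aR
  split_ifs with h
  · simp; positivity
  · exact ha Y n

lemma aR_supp (d : ℤ) {Y n : ℕ} (hn : (n : ℝ) < (Y : ℝ) + 1) : aR d Y n = 0 := by
  unfold aR
  split_ifs with h
  · rfl
  · have : n < Y + 1 := by exact_mod_cast hn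
    rw [aY_of_le d (by omega) (by omega)]
    simp

lemma aR_sq_bound {ε : ℝ} (hε : 0 < ε) : ∃ B : ℝ, 1 ≤ B ∧ ∀ (d : ℤ) (Y n : ℕ),
    aR d Y n ^ 2 ≤ B * (n : ℝ) ^ (1 + ε) ∧ bR d n ^ 2 ≤ B * (n : ℝ) ^ (1 + ε) := by
  obtain ⟨C, hC, h⟩ := coef_bound (ε := ε / 2) (by positivity)
  refine ⟨C ^ 2, one_le_pow₀ hC, fun d Y n => ?_⟩
  rcases Nat.eq_zero_or_pos n with rfl | hn
  · simp [aR, bR, bd_zero]
    positivity
  · have hn0 : (0:ℝ) < n := by exact_mod_cast hn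
    obtain ⟨h1, -, h3⟩ := h d n hn.ne'
    have e : (C * (n : ℝ) ^ (1 / 2 + ε / 2)) ^ 2 = C ^ 2 * (n : ℝ) ^ (1 + ε) := by
      rw [mul_pow, ← Real.rpow_natCast ((n : ℝ) ^ _), ← Real.rpow_mul hn0.le]
      congr 2; push_cast; ring
    constructor
    · rw [← e, ← sq_abs]
      have : |aR d Y n| ≤ C * (n : ℝ) ^ (1 / 2 + ε / 2) := by
        unfold aR
        split_ifs
        · simp; positivity
        · exact h3 Y
      gcongr
    · rw [← e, ← sq_abs]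
      unfold bR
      gcongr

end Pool.Agent.H6
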