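import Mathlib
import Pool.Agent.H6.MeanSqA

/-!
Mean squares of the completed L-function and of its mollified form on vertical lines.
-/

set_option autoImplicit false

open MeasureTheory Set Filter Topology Real Asymptotics

namespace Pool.Agent.H6

open Pool.Agent.H5

/-! ### The direction of the ray -/

/-- the direction -/
noncomputable def zT (M T : ℝ) : ℂ := ⟨Real.sin (1 / T) / M, Real.cos (1 / T) / M⟩

lemma one_div_T {T : ℝ} (hT : 1 ≤ T) : 0 < 1 / T ∧ 1 / T ≤ 1 := by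
  constructor
  · positivity
  · rw [div_le_one (by linarith)]; exact hT

lemma zT_re_pos {M T : ℝ} (hM : 0 < M) (hT : 1 ≤ T) : 0 < (zT M T).re := by
  obtain ⟨h1, h2⟩ := one_div_T hT
  have h3 := Real.pi_gt_three
  have := Real.sin_pos_of_pos_of_lt_pi h1 (by linarith)
  show 0 < Real.sin (1 / T) / M
  positivity

lemma zT_re_ge {M T : ℝ} (hM : 0 < M) (hT : 1 ≤ T) : 1 / (2 * T * M) ≤ (zT M T).re := by
  obtain ⟨h1, h2⟩ := one_div_T hT
  have h3 := Real.pi_gt_three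
  have h4 := Real.pi_le_four
  have h5 := Real.mul_le_sin h1.le (by linarith)
  have h6 : 1 / 2 ≤ 2 / π := by
    rw [div_le_div_iff₀ (by norm_num) Real.pi_pos]; linarith
  have h7 : 1 / 2 * (1 / T) ≤ Real.sin (1 / T) := by
    refine le_trans ?_ h5
    gcongr
  show 1 / (2 * T * M) ≤ Real.sin (1 / T) / M
  have h8 : 1 / (2 * T * M) = (1 / 2 * (1 / T)) / M := by field_simp
  rw [h8]
  gcongr

lemma zT_im_ge {M T : ℝ} (hM : 0 < M) (hT : 1 ≤ T) : 1 / (2 * M) ≤ |(zT M T).im| := by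
  obtain ⟨h1, h2⟩ := one_div_T hT
  have h3 := Real.pi_gt_three
  have h4 : 1 / 2 ≤ Real.cos (1 / T) := by
    rw [← Real.cos_pi_div_three]
    apply Real.cos_le_cos_of_nonneg_of_le_pi h1.le
    · linarith
    · linarith
  show 1 / (2 * M) ≤ |Real.cos (1 / T) / M|
  rw [abs_of_nonneg (by positivity)]
  have h8 : 1 / (2 * M) = (1 / 2) / M := by field_simp
  rw [h8]
  gcongr

lemma M_mul_zT {M T : ℝ} (hM : 0 < M) :
    (M : ℂ) * zT M T = Complex.exp (((π / 2 - 1 / T : ℝ) : ℂ) * Complex.I) := by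
  rw [Complex.exp_mul_I, ← Complex.ofReal_cos, ← Complex.ofReal_sin]
  have e1 : Real.cos (π / 2 - 1 / T) = Real.sin (1 / T) := Real.cos_pi_div_two_sub _
  have e2 : Real.sin (π / 2 - 1 / T) = Real.cos (1 / T) := Real.sin_pi_div_two_sub _
  rw [e1, e2]
  apply Complex.ext
  · simp only [zT, Complex.mul_re, Complex.ofReal_re, Complex.ofReal_im, zero_mul, sub_zero,
      Complex.add_re, Complex.I_re, Complex.I_im, mul_zero, add_zero]
    field_simp
  · simp only [zT, Complex.mul_im, Complex.ofReal_re, Complex.ofReal_im, zero_mul, add_zero,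
      Complex.add_im, Complex.I_re, Complex.I_im, mul_zero, mul_one, zero_add]
    field_simp

lemma zT_norm {M T : ℝ} (hM : 0 < M) : ‖zT M T‖ * M = 1 := by
  have h := congrArg norm (M_mul_zT (M := M) (T := T) hM)
  rw [norm_mul, Complex.norm_real, Real.norm_of_nonneg hM.le, Complex.norm_exp_ofReal_mul_I] at h
  linarith

lemma phase_norm {M T : ℝ} (hM : 0 < M) (hT : 1 ≤ T) (s : ℂ) :
    ‖((M : ℂ) * zT M T) ^ (-s)‖ = Real.exp ((π / 2 - 1 / T) * s.im) := by
  obtain ⟨h1, h2⟩ := one_div_T hT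
  rw [one_div] at h1 h2
  have h3 := Real.pi_gt_three
  rw [M_mul_zT hM, Complex.cpow_def_of_ne_zero (Complex.exp_ne_zero _), Complex.log_exp,
    Complex.norm_exp]
  · congr 1
    simp
  · simp; linarith
  · simp; linarith

/-! ### Uniform bound of the ray integrals -/

lemma rpow_neg_le {M T τ q : ℝ} (hM : 0 < M) (hT : 1 ≤ T) (hτ : 1 / (2 * T * M) ≤ τ)
    (hq0 : 0 ≤ q) (hq : q ≤ 4) : τ ^ (-q) ≤ (1 + 2 * M) ^ (4:ℝ) * T ^ q := by
  have h0 : 0 < 1 / (2 * T * M) := by positivity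
  have h1 : τ ^ (-q) ≤ (1 / (2 * T * M)) ^ (-q) := Real.rpow_le_rpow_of_nonpos h0 hτ (by linarith)
  have h2 : (1 / (2 * T * M)) ^ (-q) = (2 * M) ^ q * T ^ q := by
    rw [one_div, Real.inv_rpow (by positivity), Real.rpow_neg (by positivity), inv_inv,
      ← Real.mul_rpow (by positivity) (by positivity)]
    congr 1; ring
  have h3 : (2 * M) ^ q ≤ (1 + 2 * M) ^ (4:ℝ) := by
    calc (2 * M) ^ q ≤ (1 + 2 * M) ^ q := by
          apply Real.rpow_le_rpow (by positivity) (by linarith) hq0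
      _ ≤ (1 + 2 * M) ^ (4:ℝ) := Real.rpow_le_rpow_of_exponent_le (by linarith) hq
  calc τ ^ (-q) ≤ (2 * M) ^ q * T ^ q := by rw [← h2]; exact h1
    _ ≤ _ := by gcongr

/-- uniform bounds on `(1, ∞)` -/
theorem ray_uniform {M ε : ℝ} (hM : 0 < M) (hε : 0 < ε) (hε4 : ε ≤ 1 / 5) :
    ∃ K : ℝ, 1 ≤ K ∧ ∀ (d : ℤ) (T v : ℝ) (Y : ℕ), 1 ≤ T → 0 ≤ v → 2 * v ≤ 1 + 3 * ε →
      (IntegrableOn (fun r : ℝ => ‖Fs (bR d) (zT M T * r)‖ ^ 2 * r ^ (1 + 2 * v)) (Ioi 1) ∧
       ∫ r in Ioi (1:ℝ), ‖Fs (bR d) (zT M T * r)‖ ^ 2 * r ^ (1 + 2 * v) ≤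
        K * T ^ (2 + 2 * v + 4 * ε)) ∧
      (IntegrableOn (fun r : ℝ => ‖Fs (aR d Y) (zT M T * r)‖ ^ 2 * r ^ (1 + 2 * v)) (Ioi 1) ∧
       ∫ r in Ioi (1:ℝ), ‖Fs (aR d Y) (zT M T * r)‖ ^ 2 * r ^ (1 + 2 * v) ≤
        K * (T ^ (2 + 2 * v + 2 * ε) * ((Y : ℝ) + 1) ^ (-(2 * v)) + T ^ (2 + 4 * ε))) := by
  obtain ⟨B, hB1, hB⟩ := aR_sq_bound hε
  have hZ := zs_nonneg ε
  set P : ℝ := (1 + 2 * M) ^ (4:ℝ) with hP
  have hP0 : 0 ≤ P := by positivity
  set c2 : ℝ := 75460 * zs ε / (1 / (2 * M)) with hc2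
  have hc20 : 0 ≤ c2 := by positivity
  set K : ℝ := 1 + B * zs ε * (12 * P + c2 * P) with hK
  refine ⟨K, by rw [hK]; linarith [show 0 ≤ B * zs ε * (12 * P + c2 * P) by positivity], ?_⟩
  intro d T v Y hT hv hv1
  have hz := zT_re_pos hM hT
  have hzge := zT_re_ge hM hT
  have him := zT_im_ge hM hT
  have hT0 : 0 < T := by linarith
  have r1 : (zT M T).re ^ (-(2 + 2 * v + 2 * ε)) ≤ P * T ^ (2 + 2 * v + 2 * ε) :=
    rpow_neg_le hM hT hzge (by linarith) (by linarith)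
  have r2 : (zT M T).re ^ (-(2 + 4 * ε)) ≤ P * T ^ (2 + 4 * ε) :=
    rpow_neg_le hM hT hzge (by linarith) (by linarith)
  constructor
  · obtain ⟨C, hC, hlin, -, -⟩ := linear_bR d
    obtain ⟨h1, h2⟩ := Fs_ray_mean (a := bR d) (y := 1) hε (by linarith) hv hv1 (by linarith : 0 ≤ B) le_rfl
      (by positivity : 0 < 1 / (2 * M)) hz him hC hlin (fun n => (hB d 0 n).2) (by
        intro n hn
        have : n = 0 := by
          by_contra h
          have : (1:ℝ) ≤ n := by exact_mod_cast Nat.one_le_iff_ne_zero.mpr h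
          linarith
        rw [this]; simp [bR, bd_zero])
    refine ⟨h1, h2.trans ?_⟩
    rw [Real.one_rpow, mul_one]
    have e1 : T ^ (2 + 2 * v + 2 * ε) ≤ T ^ (2 + 2 * v + 4 * ε) :=
      Real.rpow_le_rpow_of_exponent_le hT (by linarith)
    have e2 : T ^ (2 + 4 * ε) ≤ T ^ (2 + 2 * v + 4 * ε) :=
      Real.rpow_le_rpow_of_exponent_le hT (by linarith)
    have e3 : 0 ≤ T ^ (2 + 2 * v + 4 * ε) := by positivity
    calc B * zs ε * (12 * (zT M T).re ^ (-(2 + 2 * v + 2 * ε)) +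
          c2 * (zT M T).re ^ (-(2 + 4 * ε)))
        ≤ B * zs ε * (12 * (P * T ^ (2 + 2 * v + 4 * ε)) + c2 * (P * T ^ (2 + 2 * v + 4 * ε))) := by
          gcongr
          · exact r1.trans (by gcongr)
          · exact r2.trans (by gcongr)
      _ = (B * zs ε * (12 * P + c2 * P)) * T ^ (2 + 2 * v + 4 * ε) := by ring
      _ ≤ K * T ^ (2 + 2 * v + 4 * ε) := by
          gcongr
          rw [hK]; linarith
  · obtain ⟨C, hC, hlin⟩ := aR_linear d
    obtain ⟨h1, h2⟩ := Fs_ray_mean (a := aR d Y) (y := (Y : ℝ) + 1) hε (by linarith) hv hv1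
      (by linarith : 0 ≤ B) (by linarith [show (0:ℝ) ≤ Y by positivity])
      (by positivity : 0 < 1 / (2 * M)) hz him hC (hlin Y) (fun n => (hB d Y n).1)
      (fun n hn => aR_supp d hn)
    refine ⟨h1, h2.trans ?_⟩
    set W : ℝ := ((Y : ℝ) + 1) ^ (-(2 * v)) with hW
    have hW0 : 0 ≤ W := by positivity
    have e3 : 0 ≤ T ^ (2 + 2 * v + 2 * ε) * W := by positivity
    have e4 : 0 ≤ T ^ (2 + 4 * ε) := by positivity
    have hBZ : 0 ≤ B * zs ε := by positivity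
    calc B * zs ε * (12 * ((zT M T).re ^ (-(2 + 2 * v + 2 * ε)) * W) +
          c2 * (zT M T).re ^ (-(2 + 4 * ε)))
        ≤ B * zs ε * (12 * ((P * T ^ (2 + 2 * v + 2 * ε)) * W) + c2 * (P * T ^ (2 + 4 * ε))) := by
          gcongr
      _ = (B * zs ε) * (12 * P) * (T ^ (2 + 2 * v + 2 * ε) * W) +
          (B * zs ε) * (c2 * P) * T ^ (2 + 4 * ε) := by ring
      _ ≤ K * (T ^ (2 + 2 * v + 2 * ε) * W) + K * T ^ (2 + 4 * ε) := by
          have k1 : (B * zs ε) * (12 * P) ≤ K := by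
            rw [hK]
            have : 0 ≤ (B * zs ε) * (c2 * P) := by positivity
            nlinarith
          have k2 : (B * zs ε) * (c2 * P) ≤ K := by
            rw [hK]
            have : 0 ≤ (B * zs ε) * (12 * P) := by positivity
            nlinarith
          gcongr
      _ = _ := by ring

/-! ### from the Gaussian weight to an interval -/

lemma interval_of_gauss {g : ℝ → ℂ} (hg : Continuous g) {T S : ℝ} (hT : 1 ≤ T) (hS : 0 ≤ S)
    (hST : S ≤ 3 * T) {I0 : ℝ}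
    (h : ∫ x : ℝ, (‖g x‖ * Real.exp ((π / 2 - 1 / T) * x)) ^ 2 * Real.exp (-(1 / T ^ 2 * x ^ 2)) ≤ I0)
    (hint : Integrable (fun x : ℝ => (‖g x‖ * Real.exp ((π / 2 - 1 / T) * x)) ^ 2 *
      Real.exp (-(1 / T ^ 2 * x ^ 2)))) :
    ∫ x in (0:ℝ)..S, ‖g x‖ ^ 2 * Real.exp (π * x) ≤ Real.exp 15 * I0 := by
  have hT0 : 0 < T := by linarith
  rw [intervalIntegral.integral_of_le hS]
  have h1 : ∫ x in Ioc (0:ℝ) S, ‖g x‖ ^ 2 * Real.exp (π * x) ≤
      ∫ x in Ioc (0:ℝ) S, Real.exp 15 * ((‖g x‖ * Real.exp ((π / 2 - 1 / T) * x)) ^ 2 *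
        Real.exp (-(1 / T ^ 2 * x ^ 2))) := by
    apply setIntegral_mono_on
    · exact (Continuous.integrableOn_Icc (by fun_prop)).mono_set Ioc_subset_Icc_self
    · exact (hint.const_mul _).integrableOn
    · exact measurableSet_Ioc
    · intro x hx
      obtain ⟨hx0, hxS⟩ := hx
      have hxT : x ≤ 3 * T := hxS.trans hST
      have h2 : Real.exp (π * x) ≤ Real.exp 15 * (Real.exp ((π / 2 - 1 / T) * x) ^ 2 *
          Real.exp (-(1 / T ^ 2 * x ^ 2))) := by
        rw [← Real.exp_nat_mul, ← Real.exp_add, ← Real.exp_add]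
        apply Real.exp_le_exp.mpr
        have h3 : 1 / T * x ≤ 3 := by
          rw [one_div, inv_mul_le_iff₀ hT0]; linarith
        have h4 : 1 / T ^ 2 * x ^ 2 ≤ 9 := by
          have : 1 / T ^ 2 * x ^ 2 = (1 / T * x) ^ 2 := by ring
          rw [this]
          have : 0 ≤ 1 / T * x := by positivity
          nlinarith
        push_cast
        nlinarith
      calc ‖g x‖ ^ 2 * Real.exp (π * x) ≤ ‖g x‖ ^ 2 * (Real.exp 15 *
            (Real.exp ((π / 2 - 1 / T) * x) ^ 2 * Real.exp (-(1 / T ^ 2 * x ^ 2)))) := by gcongr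
        _ = _ := by ring
  refine h1.trans ?_
  rw [integral_const_mul]
  apply mul_le_mul_of_nonneg_left _ (Real.exp_pos _).le
  refine le_trans ?_ h
  apply setIntegral_le_integral hint
  filter_upwards with x
  positivity

end Pool.Agent.H6
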