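import Mathlib
import Pool.Agent.H6.MeanSqB
import Pool.Agent.H5.ThetaFE
import Pool.Agent.H6.EdStrip

/-!
Mean squares of the completed L-function and of its mollified form on vertical lines: final form.
-/

set_option autoImplicit false

open MeasureTheory Set Filter Topology Real Asymptotics

namespace Pool.Agent.H6

open Pool.Agent.H5

/-! ### From a ray to an interval -/

lemma norm_mellin_le {h : ℝ → ℂ} {σ : ℝ} (x : ℝ) :
    ‖mellin h (σ + x * Complex.I)‖ ≤ ∫ t in Ioi (0:ℝ), ‖h t‖ * t ^ (σ - 1) := by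
  rw [mellin]
  refine (norm_integral_le_integral_norm _).trans (le_of_eq ?_)
  apply setIntegral_congr_fun measurableSet_Ioi
  intro t ht
  have ht0 : (0:ℝ) < t := ht
  simp only [smul_eq_mul]
  rw [norm_mul, Complex.norm_cpow_eq_rpow_re_of_pos ht0, mul_comm]
  congr 2
  simp

lemma interval_of_mellin {h : ℝ → ℂ} {σ : ℝ} (hc : MellinConvergent h (σ : ℂ))
    (h2 : IntegrableOn (fun r => ‖h r‖ ^ 2 * r ^ (2 * σ - 1)) (Ioi 0)) {g : ℝ → ℂ}
    (hg : Continuous g) {T S : ℝ} (hT : 1 ≤ T) (hS : 0 ≤ S) (hST : S ≤ 3 * T)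
    (heq : ∀ x : ℝ, ‖mellin h (σ + x * Complex.I)‖ = ‖g x‖ * Real.exp ((π / 2 - 1 / T) * x)) :
    ∫ x in (0:ℝ)..S, ‖g x‖ ^ 2 * Real.exp (π * x) ≤
      Real.exp 15 * (2 * π * ∫ r in Ioi (0:ℝ), ‖h r‖ ^ 2 * r ^ (2 * σ - 1)) := by
  have hT0 : 0 < T := by linarith
  have hP := mellin_plancherel_ub hc h2 (ε := 1 / T ^ 2) (by positivity)
  simp_rw [heq] at hP
  apply interval_of_gauss hg hT hS hST hP
  set A : ℝ := ∫ t in Ioi (0:ℝ), ‖h t‖ * t ^ (σ - 1) with hA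
  have hgi : Integrable (fun x : ℝ => A ^ 2 * Real.exp (-(1 / T ^ 2) * x ^ 2)) :=
    (integrable_exp_neg_mul_sq (by positivity)).const_mul _
  refine hgi.mono' ?_ ?_
  · apply Continuous.aestronglyMeasurable
    fun_prop
  · filter_upwards with x
    rw [Real.norm_of_nonneg (by positivity), ← heq]
    have h3 := norm_mellin_le (h := h) (σ := σ) x
    have h4 : Real.exp (-(1 / T ^ 2 * x ^ 2)) = Real.exp (-(1 / T ^ 2) * x ^ 2) := by
      congr 1; ring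
    rw [h4]
    gcongr

/-! ### the curve -/

/-- `E_d` theta data -/
lemma exists_ThData {d : ℕ} (hd : Squarefree d) : ∃ w : ℝ, ThData (bR (d : ℤ)) (√(Q d) / π) w := by
  obtain ⟨w, hw, hfe⟩ := Th_fe d hd
  have hd0 : 0 < d := Nat.pos_of_ne_zero hd.ne_zero
  have hQ : (0:ℝ) < (Q d : ℝ) := by
    have : 0 < Q d := by
      unfold Q
      split_ifs <;> positivity
    exact_mod_cast this
  refine ⟨w, ?_⟩
  have hpi := Real.pi_pos
  have hM : 0 < √(Q d : ℝ) / π := by positivity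
  have hM2 : (√(Q d : ℝ) / π) ^ 2 = (Q d : ℝ) / π ^ 2 := by
    rw [div_pow, Real.sq_sqrt hQ.le]
  have hFs : ∀ x : ℝ, Fs (bR (d : ℤ)) x = ((Th (d : ℤ) (x / π) : ℝ) : ℂ) := by
    intro x
    unfold Fs Th
    rw [Complex.ofReal_tsum]
    congr 1
    funext n
    unfold bR
    push_cast
    congr 2
    have : (π : ℂ) ≠ 0 := by exact_mod_cast hpi.ne'
    field_simp
  exact
    { Mpos := hM
      sgn := hw
      lin := by
        obtain ⟨C, hC, h, -, -⟩ := linear_bR (d : ℤ)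
        exact ⟨C, hC, h⟩
      fe := by
        intro x hx
        have e1 : (1 / (((√(Q d : ℝ) / π : ℝ) : ℂ) ^ 2 * x)) =
            ((1 / ((√(Q d : ℝ) / π) ^ 2 * x) : ℝ) : ℂ) := by push_cast; ring
        rw [e1, hFs, hFs]
        have h1 := hfe (x / π) (by positivity)
        rw [h1]
        have e2 : 1 / ((√(Q d : ℝ) / π) ^ 2 * x) / π = 1 / ((Q d : ℝ) * (x / π)) := by
          rw [hM2]; field_simp
        rw [e2]
        have e3 : w / ((Q d : ℝ) * (x / π) ^ 2) = w / (√(Q d : ℝ) / π * x) ^ 2 := by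
          rw [mul_pow, hM2]; field_simp
        rw [e3]
        push_cast
        ring }

/-- the mollifier -/
noncomputable def mol (d : ℤ) (Y : ℕ) (s : ℂ) : ℂ :=
  ∑ m ∈ Finset.Icc 1 Y, (mb d m : ℂ) * (m : ℂ) ^ (-s)

lemma differentiable_mol (d : ℤ) (Y : ℕ) : Differentiable ℂ (mol d Y) := by
  unfold mol
  apply Differentiable.fun_sum
  intro m hm
  have hm1 := (Finset.mem_Icc.mp hm).1
  have hm0 : (m : ℂ) ≠ 0 := by exact_mod_cast (by omega : m ≠ 0)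
  intro s
  exact (DifferentiableAt.const_cpow differentiableAt_id.neg (Or.inl hm0)).const_mul _

/-- hypotheses on the completed L-function -/
structure EdData (d : ℕ) (M : ℝ) (Λ : ℂ → ℂ) : Prop where
  th : ∃ w : ℝ, ThData (bR (d : ℤ)) M w
  diff : Differentiable ℂ Λ
  eqL : ∀ s : ℂ, 3 / 2 < s.re → Λ s = (M : ℂ) ^ s * Complex.Gamma s * Lser (d : ℤ) s

namespace EdData

variable {d : ℕ} {M : ℝ} {Λ : ℂ → ℂ}

lemma Mpos (E : EdData d M Λ) : 0 < M := by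
  obtain ⟨w, D⟩ := E.th
  exact D.Mpos

lemma mellin_eq (E : EdData d M Λ) {z : ℂ} (hz : 0 < z.re) (hn : ‖z‖ * M = 1) (s : ℂ) :
    mellin (fun r : ℝ => Fs (bR (d : ℤ)) (z * r)) s = ((M : ℂ) * z) ^ (-s) * Λ s := by
  obtain ⟨w, D⟩ := E.th
  apply D.mellin_ray hz hn E.diff
  · intro σ hσ
    refine Summable.of_nonneg_of_le (fun n => by positivity) (fun n => ?_) (summable_lattice hσ)
    unfold bR
    exact mul_le_mul_of_nonneg_right (abs_bd_le (d : ℤ) n) (by positivity)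
  · intro s hs
    rw [E.eqL s hs]
    unfold Lser bR
    simp

lemma contLine (E : EdData d M Λ) (v : ℝ) :
    Continuous (fun x : ℝ => Λ (((1 + v : ℝ) : ℂ) + x * Complex.I)) :=
  E.diff.continuous.comp (by fun_prop)

/-- **mean square of the completed L-function** -/
theorem mean_sq {ε : ℝ} (hε : 0 < ε) (hε5 : ε ≤ 1 / 5) (E : EdData d M Λ) :
    ∃ K : ℝ, 1 ≤ K ∧ ∀ T v S : ℝ, 1 ≤ T → 0 ≤ v → 2 * v ≤ 1 + 3 * ε → 0 ≤ S → S ≤ 3 * T →
      ∫ x in (0:ℝ)..S, ‖Λ (((1 + v : ℝ) : ℂ) + x * Complex.I)‖ ^ 2 * Real.exp (π * x) ≤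
        K * T ^ (2 + 2 * v + 4 * ε) := by
  have hM := E.Mpos
  obtain ⟨w, D⟩ := E.th
  obtain ⟨K, hK1, hK⟩ := ray_uniform (M := M) hM hε hε5
  have hpi := Real.pi_gt_three
  refine ⟨Real.exp 15 * (2 * π * (2 * K)), ?_, ?_⟩
  · have h1 : 1 ≤ Real.exp 15 := Real.one_le_exp (by norm_num)
    have h2 : 1 ≤ 2 * π * (2 * K) := by nlinarith
    exact one_le_mul_of_one_le_of_one_le h1 h2
  intro T v S hT hv hv1 hS hST
  have hT0 : 0 < T := by linarith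
  obtain ⟨⟨hi, hb⟩, -⟩ := hK (d : ℤ) T v 0 hT hv hv1
  have hz := zT_re_pos hM hT
  have hn := zT_norm (M := M) (T := T) hM
  obtain ⟨hi0, hb0⟩ := D.inversion hz hn (κ := 1 + 2 * v) (by linarith) hi
  have e1 : 2 * (1 + v) - 1 = 1 + 2 * v := by ring
  have hmain := interval_of_mellin (h := fun r : ℝ => Fs (bR (d : ℤ)) (zT M T * r)) (σ := 1 + v)
    (D.mellinConv hz hn _) (by rw [e1]; exact hi0) (E.contLine v) hT hS hST (by
      intro x
      rw [E.mellin_eq hz hn, norm_mul, phase_norm hM hT, mul_comm]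
      congr 2
      simp)
  rw [e1] at hmain
  refine hmain.trans ?_
  have h5 : ∫ r in Ioi (0:ℝ), ‖Fs (bR (d : ℤ)) (zT M T * r)‖ ^ 2 * r ^ (1 + 2 * v) ≤
      2 * (K * T ^ (2 + 2 * v + 4 * ε)) := hb0.trans (by linarith)
  calc Real.exp 15 * (2 * π * ∫ r in Ioi (0:ℝ),
        ‖Fs (bR (d : ℤ)) (zT M T * r)‖ ^ 2 * r ^ (1 + 2 * v)) ≤
      Real.exp 15 * (2 * π * (2 * (K * T ^ (2 + 2 * v + 4 * ε)))) := by gcongr
    _ = _ := by ring

/-- the Mellin transform of the mollified remainder -/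
lemma mellin_aR (E : EdData d M Λ) {z : ℂ} (hz : 0 < z.re) (hn : ‖z‖ * M = 1) {Y : ℕ}
    (hY : 1 ≤ Y) {s : ℂ} (hs : 0 < s.re) :
    MellinConvergent (fun r : ℝ => Fs (aR (d : ℤ) Y) (z * r)) s ∧
    mellin (fun r : ℝ => Fs (aR (d : ℤ) Y) (z * r)) s =
      ((M : ℂ) * z) ^ (-s) * (mol (d : ℤ) Y s * Λ s - (M : ℂ) ^ s * Complex.Gamma s) := by
  have hM := E.Mpos
  have hMc : (M : ℂ) ≠ 0 := by exact_mod_cast hM.ne'
  have hz0 : z ≠ 0 := by intro h; rw [h] at hz; simp at hz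
  obtain ⟨w, D⟩ := E.th
  set f : ℝ → ℂ := fun r => Fs (bR (d : ℤ)) (z * r) with hf
  have hpt : ∀ r ∈ Ioi (0:ℝ), (r : ℂ) ^ (s - 1) • Fs (aR (d : ℤ) Y) (z * r) =
      (∑ m ∈ Finset.Icc 1 Y, (mb (d : ℤ) m : ℂ) * ((r : ℂ) ^ (s - 1) • f (m * r))) -
        (r : ℂ) ^ (s - 1) * Complex.exp (-(z * r)) := by
    intro r hr
    have hr0 : (0:ℝ) < r := hr
    have hre : 0 < (z * r).re := by rw [ray_re]; positivity
    rw [Fs_aR (d : ℤ) hY hre, Fs_aY (d : ℤ) Y hre, smul_sub, smul_eq_mul, smul_eq_mul,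
      Finset.mul_sum]
    congr 1
    apply Finset.sum_congr rfl
    intro m _
    simp only [hf, smul_eq_mul]
    have : (m : ℂ) * (z * r) = z * ((m * r : ℝ) : ℂ) := by push_cast; ring
    rw [this]; ring
  have hmpos : ∀ m ∈ Finset.Icc 1 Y, (0:ℝ) < m := by
    intro m hm
    exact_mod_cast (Finset.mem_Icc.mp hm).1
  have hconv : ∀ m ∈ Finset.Icc 1 Y, IntegrableOn
      (fun r : ℝ => (mb (d : ℤ) m : ℂ) * ((r : ℂ) ^ (s - 1) • f (m * r))) (Ioi 0) := by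
    intro m hm
    have h1 : MellinConvergent (fun r : ℝ => f (m * r)) s :=
      (MellinConvergent.comp_mul_left (hmpos m hm)).mpr (D.mellinConv hz hn s)
    exact Integrable.const_mul h1 _
  have hexp := integrableOn_gint hz hs
  have hsumint : IntegrableOn (fun r : ℝ =>
      ∑ m ∈ Finset.Icc 1 Y, (mb (d : ℤ) m : ℂ) * ((r : ℂ) ^ (s - 1) • f (m * r))) (Ioi 0) :=
    integrable_finsetSum _ hconv
  constructor
  · unfold MellinConvergent
    refine IntegrableOn.congr_fun (hsumint.sub hexp) ?_ measurableSet_Ioi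
    intro r hr
    exact (hpt r hr).symm
  · rw [mellin, setIntegral_congr_fun measurableSet_Ioi hpt, integral_sub hsumint hexp,
      integral_finsetSum _ hconv, gamma_integral_complex hz hs]
    have h3 : ∀ m ∈ Finset.Icc 1 Y, ∫ r in Ioi (0:ℝ), (mb (d : ℤ) m : ℂ) *
        ((r : ℂ) ^ (s - 1) • f (m * r)) =
        (mb (d : ℤ) m : ℂ) * (m : ℂ) ^ (-s) * (((M : ℂ) * z) ^ (-s) * Λ s) := by
      intro m hm
      rw [integral_const_mul]
      have h4 := mellin_comp_mul_left f s (hmpos m hm)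
      rw [mellin] at h4
      rw [h4, hf, E.mellin_eq hz hn s, smul_eq_mul, Complex.ofReal_natCast]
      ring
    rw [Finset.sum_congr rfl h3, ← Finset.sum_mul]
    have h5 : z ^ (-s) = ((M : ℂ) * z) ^ (-s) * (M : ℂ) ^ s := by
      rw [ofReal_mul_cpow' hM hz0]
      have h1 : (M : ℂ) ^ (-s) * (M : ℂ) ^ s = 1 := by
        rw [← Complex.cpow_add _ _ hMc]; simp
      linear_combination (-z ^ (-s)) * h1
    rw [h5]
    unfold mol
    ring

/-- the part near zero -/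
lemma small_part (E : EdData d M Λ) {ε : ℝ} (hε : 0 < ε) (hε5 : ε ≤ 1 / 5) :
    ∃ K : ℝ, 1 ≤ K ∧ ∀ (T v : ℝ) (Y : ℕ), 1 ≤ T → 0 ≤ v → 1 ≤ Y →
      IntegrableOn (fun r : ℝ => ‖Fs (aR (d : ℤ) Y) (zT M T * r)‖ ^ 2 * r ^ (1 + 2 * v)) (Ioc 0 1) ∧
      ∫ r in Ioc (0:ℝ) 1, ‖Fs (aR (d : ℤ) Y) (zT M T * r)‖ ^ 2 * r ^ (1 + 2 * v) ≤
        K * ((Y : ℝ) ^ 2 * T ^ (2 + 4 * ε)) := by
  have hM := E.Mpos
  obtain ⟨w, D⟩ := E.th
  obtain ⟨K, hK1, hK⟩ := ray_uniform (M := M) hM hε hε5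
  obtain ⟨C, hC, hblin, hmlin, -⟩ := linear_bR (d : ℤ)
  obtain ⟨C', hC', halin⟩ := aR_linear (d : ℤ)
  refine ⟨4 * C ^ 2 * K + 2, by nlinarith [sq_nonneg C], ?_⟩
  intro T v Y hT hv hY
  have hT0 : 0 < T := by linarith
  have hz := zT_re_pos hM hT
  have hn := zT_norm (M := M) (T := T) hM
  set z := zT M T with hzdef
  set f : ℝ → ℂ := fun r => Fs (bR (d : ℤ)) (z * r) with hf
  obtain ⟨⟨hi, hb⟩, -⟩ := hK (d : ℤ) T 0 0 hT le_rfl (by linarith)
  obtain ⟨hi0, hb0⟩ := D.inversion hz hn (κ := 1 + 2 * 0) (by norm_num) hi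
  simp only [mul_zero, add_zero, Real.rpow_one] at hi0 hb0 hb
  set I0 := ∫ r in Ioi (0:ℝ), ‖Fs (bR (d : ℤ)) (z * r)‖ ^ 2 * r with hI0
  have hI0le : I0 ≤ 2 * (K * T ^ (2 + 4 * ε)) := hb0.trans (by linarith)
  have hI00 : 0 ≤ I0 := by
    apply setIntegral_nonneg measurableSet_Ioi
    intro r hr
    have : (0:ℝ) < r := hr
    positivity
  have hmpos : ∀ m ∈ Finset.Icc 1 Y, (0:ℝ) < m := by
    intro m hm
    exact_mod_cast (Finset.mem_Icc.mp hm).1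
  -- scaled integrals
  have hscale : ∀ m ∈ Finset.Icc 1 Y, IntegrableOn (fun r : ℝ => ‖f (m * r)‖ ^ 2 * r) (Ioi 0) ∧
      ∫ r in Ioi (0:ℝ), ‖f (m * r)‖ ^ 2 * r = ((m : ℝ) ^ 2)⁻¹ * I0 := by
    intro m hm
    have hm0 := hmpos m hm
    have e1 : ∀ r : ℝ, ‖f (m * r)‖ ^ 2 * r = (m : ℝ)⁻¹ * (‖f (m * r)‖ ^ 2 * (m * r)) := by
      intro r; field_simp
    have h1 : IntegrableOn (fun r : ℝ => ‖f (m * r)‖ ^ 2 * (m * r)) (Ioi 0) := by
      have := (integrableOn_Ioi_comp_mul_left_iff (fun r : ℝ => ‖f r‖ ^ 2 * r) 0 hm0).mpr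
        (by rw [mul_zero]; exact hi0)
      exact this
    have h2 := integral_comp_mul_left_Ioi (fun r : ℝ => ‖f r‖ ^ 2 * r) 0 hm0
    rw [mul_zero, smul_eq_mul] at h2
    constructor
    · simp_rw [e1]
      exact h1.const_mul _
    · simp_rw [e1]
      rw [integral_const_mul, h2, hI0]
      rw [← mul_assoc]
      congr 1
      rw [pow_two, mul_inv]
  -- the dominating function
  set g : ℝ → ℝ := fun r => 2 * ((Y : ℝ) * ∑ m ∈ Finset.Icc 1 Y,
    |(mb (d : ℤ) m : ℝ)| ^ 2 * (‖f (m * r)‖ ^ 2 * r)) with hg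
  have hgi : IntegrableOn g (Ioi 0) := by
    apply Integrable.const_mul
    apply Integrable.const_mul
    apply integrable_finsetSum
    intro m hm
    exact (hscale m hm).1.const_mul _
  have hgI : ∫ r in Ioi (0:ℝ), g r ≤ 4 * C ^ 2 * K * ((Y : ℝ) ^ 2 * T ^ (2 + 4 * ε)) := by
    simp only [hg]
    rw [integral_const_mul, integral_const_mul,
      integral_finsetSum _ (fun m hm => (hscale m hm).1.const_mul _)]
    have h1 : ∑ m ∈ Finset.Icc 1 Y, ∫ r in Ioi (0:ℝ),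
        |(mb (d : ℤ) m : ℝ)| ^ 2 * (‖f (m * r)‖ ^ 2 * r) ≤ ∑ m ∈ Finset.Icc 1 Y, C ^ 2 * I0 := by
      apply Finset.sum_le_sum
      intro m hm
      have hm0 := hmpos m hm
      rw [integral_const_mul, (hscale m hm).2]
      have h2 := hmlin m
      have h3 : |(mb (d : ℤ) m : ℝ)| ^ 2 ≤ (C * m) ^ 2 := by gcongr
      calc |(mb (d : ℤ) m : ℝ)| ^ 2 * (((m : ℝ) ^ 2)⁻¹ * I0) ≤
          (C * m) ^ 2 * (((m : ℝ) ^ 2)⁻¹ * I0) := by gcongr
        _ = C ^ 2 * I0 := by field_simp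
    rw [Finset.sum_const, Nat.card_Icc, nsmul_eq_mul] at h1
    simp only [Nat.add_sub_cancel] at h1
    calc 2 * ((Y : ℝ) * ∑ m ∈ Finset.Icc 1 Y, ∫ r in Ioi (0:ℝ),
          |(mb (d : ℤ) m : ℝ)| ^ 2 * (‖f (m * r)‖ ^ 2 * r))
        ≤ 2 * ((Y : ℝ) * ((Y : ℝ) * (C ^ 2 * I0))) := by gcongr
      _ ≤ 2 * ((Y : ℝ) * ((Y : ℝ) * (C ^ 2 * (2 * (K * T ^ (2 + 4 * ε)))))) := by gcongr
      _ = _ := by ring
  have hpt : ∀ r ∈ Ioc (0:ℝ) 1, ‖Fs (aR (d : ℤ) Y) (z * r)‖ ^ 2 * r ^ (1 + 2 * v) ≤ g r + 2 := by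
    intro r hr
    obtain ⟨hr0, hr1⟩ := hr
    have hre : 0 < (z * r).re := by rw [ray_re]; positivity
    have hr2 : r ^ (1 + 2 * v) ≤ r := by
      calc r ^ (1 + 2 * v) ≤ r ^ (1:ℝ) :=
            Real.rpow_le_rpow_of_exponent_ge hr0 hr1 (by linarith)
        _ = r := Real.rpow_one r
    have h1 : ‖Fs (aR (d : ℤ) Y) (z * r)‖ ^ 2 ≤
        2 * ‖∑ m ∈ Finset.Icc 1 Y, (mb (d : ℤ) m : ℂ) * f (m * r)‖ ^ 2 + 2 := by
      rw [Fs_aR (d : ℤ) hY hre, Fs_aY (d : ℤ) Y hre]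
      have e1 : ∑ m ∈ Finset.Icc 1 Y, (mb (d : ℤ) m : ℂ) * Fs (bR (d : ℤ)) (m * (z * r)) =
          ∑ m ∈ Finset.Icc 1 Y, (mb (d : ℤ) m : ℂ) * f (m * r) := by
        apply Finset.sum_congr rfl
        intro m _
        simp only [hf]
        have : (m : ℂ) * (z * r) = z * ((m * r : ℝ) : ℂ) := by push_cast; ring
        rw [this]
      rw [e1]
      have h2 : ‖Complex.exp (-(z * r))‖ ≤ 1 := by
        rw [Complex.norm_exp, Real.exp_le_one_iff, Complex.neg_re]; linarith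
      have h3 := norm_sub_le (∑ m ∈ Finset.Icc 1 Y, (mb (d : ℤ) m : ℂ) * f (m * r))
        (Complex.exp (-(z * r)))
      set P := ‖∑ m ∈ Finset.Icc 1 Y, (mb (d : ℤ) m : ℂ) * f (m * r)‖ with hP
      have hP0 : 0 ≤ P := norm_nonneg _
      have h4 : ‖∑ m ∈ Finset.Icc 1 Y, (mb (d : ℤ) m : ℂ) * f (m * r) -
          Complex.exp (-(z * r))‖ ≤ P + 1 := by linarith
      calc _ ≤ (P + 1) ^ 2 := by gcongr
        _ ≤ 2 * P ^ 2 + 2 := by nlinarith [sq_nonneg (P - 1)]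
    have h5 : ‖∑ m ∈ Finset.Icc 1 Y, (mb (d : ℤ) m : ℂ) * f (m * r)‖ ^ 2 ≤
        (Y : ℝ) * ∑ m ∈ Finset.Icc 1 Y, |(mb (d : ℤ) m : ℝ)| ^ 2 * ‖f (m * r)‖ ^ 2 := by
      have h6 : ‖∑ m ∈ Finset.Icc 1 Y, (mb (d : ℤ) m : ℂ) * f (m * r)‖ ≤
          ∑ m ∈ Finset.Icc 1 Y, |(mb (d : ℤ) m : ℝ)| * ‖f (m * r)‖ := by
        refine (norm_sum_le _ _).trans (Finset.sum_le_sum (fun m _ => ?_))
        rw [norm_mul, Complex.norm_intCast]
      calc _ ≤ (∑ m ∈ Finset.Icc 1 Y, |(mb (d : ℤ) m : ℝ)| * ‖f (m * r)‖) ^ 2 := by gcongr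
        _ ≤ ((Finset.Icc 1 Y).card : ℝ) *
            ∑ m ∈ Finset.Icc 1 Y, (|(mb (d : ℤ) m : ℝ)| * ‖f (m * r)‖) ^ 2 :=
            sq_sum_le_card_mul_sum_sq
        _ = _ := by
            rw [Nat.card_Icc, Nat.add_sub_cancel]
            congr 1
            apply Finset.sum_congr rfl
            intro m _
            ring
    calc ‖Fs (aR (d : ℤ) Y) (z * r)‖ ^ 2 * r ^ (1 + 2 * v)
        ≤ (2 * ((Y : ℝ) * ∑ m ∈ Finset.Icc 1 Y, |(mb (d : ℤ) m : ℝ)| ^ 2 * ‖f (m * r)‖ ^ 2) + 2) *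
          r := by
          gcongr
          linarith
      _ = g r + 2 * r := by
          simp only [hg]
          rw [add_mul, mul_assoc 2, mul_assoc (Y : ℝ), Finset.sum_mul]
          congr 4
          funext m
          ring
      _ ≤ g r + 2 := by linarith
  have hconst : IntegrableOn (fun _ : ℝ => (2:ℝ)) (Ioc 0 1) := by
    simp [integrableOn_const_iff]
  have hgi1 : IntegrableOn (fun r => g r + 2) (Ioc 0 1) :=
    (hgi.mono_set Ioc_subset_Ioi_self).add hconst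
  have hmeas : AEStronglyMeasurable
      (fun r : ℝ => ‖Fs (aR (d : ℤ) Y) (z * r)‖ ^ 2 * r ^ (1 + 2 * v))
      (volume.restrict (Ioc 0 1)) := by
    apply ContinuousOn.aestronglyMeasurable _ measurableSet_Ioc
    apply ContinuousOn.mul
    · exact ((Fs_ray_continuousOn hC' (halin Y) hz).mono Ioc_subset_Ioi_self).norm.pow 2
    · intro r hr
      exact (Real.continuousAt_rpow_const r _ (Or.inl hr.1.ne')).continuousWithinAt
  have hi1 : IntegrableOn (fun r : ℝ => ‖Fs (aR (d : ℤ) Y) (z * r)‖ ^ 2 * r ^ (1 + 2 * v))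
      (Ioc 0 1) := by
    refine hgi1.mono' hmeas ?_
    filter_upwards [ae_restrict_mem measurableSet_Ioc] with r hr
    have hr0 : (0:ℝ) < r := hr.1
    rw [Real.norm_of_nonneg (by positivity)]
    exact hpt r hr
  refine ⟨hi1, ?_⟩
  calc ∫ r in Ioc (0:ℝ) 1, ‖Fs (aR (d : ℤ) Y) (z * r)‖ ^ 2 * r ^ (1 + 2 * v)
      ≤ ∫ r in Ioc (0:ℝ) 1, (g r + 2) := setIntegral_mono_on hi1 hgi1 measurableSet_Ioc hpt
    _ = (∫ r in Ioc (0:ℝ) 1, g r) + 2 := by
        rw [integral_add (hgi.mono_set Ioc_subset_Ioi_self) hconst]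
        simp
    _ ≤ (∫ r in Ioi (0:ℝ), g r) + 2 := by
        have h8 : 0 ≤ᵐ[volume.restrict (Ioi (0:ℝ))] g := by
          filter_upwards [ae_restrict_mem measurableSet_Ioi] with r hr
          have hr0 : (0:ℝ) < r := hr
          simp only [hg, Pi.zero_apply]
          positivity
        have h9 := setIntegral_mono_set hgi h8
          (s := Ioc (0:ℝ) 1) Ioc_subset_Ioi_self.eventuallyLE
        linarith
    _ ≤ 4 * C ^ 2 * K * ((Y : ℝ) ^ 2 * T ^ (2 + 4 * ε)) + 2 * ((Y : ℝ) ^ 2 * T ^ (2 + 4 * ε)) := by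
        have h7 : 1 ≤ (Y : ℝ) ^ 2 * T ^ (2 + 4 * ε) := by
          have hY1 : (1:ℝ) ≤ Y := by exact_mod_cast hY
          have h8 : 1 ≤ T ^ (2 + 4 * ε) := Real.one_le_rpow hT (by linarith)
          have h9 : 1 ≤ (Y : ℝ) ^ 2 := one_le_pow₀ hY1
          nlinarith
        linarith
    _ = _ := by ring

/-- **mean square of the mollified L-function** -/
theorem mean_sq_mol {ε : ℝ} (hε : 0 < ε) (hε5 : ε ≤ 1 / 5) (E : EdData d M Λ) :
    ∃ K : ℝ, 1 ≤ K ∧ ∀ (T v S : ℝ) (Y : ℕ), 1 ≤ T → 0 ≤ v → 2 * v ≤ 1 + 3 * ε → 0 ≤ S →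
      S ≤ 3 * T → 1 ≤ Y →
      ∫ x in (0:ℝ)..S, ‖mol (d : ℤ) Y (((1 + v : ℝ) : ℂ) + x * Complex.I) *
          Λ (((1 + v : ℝ) : ℂ) + x * Complex.I) - (M : ℂ) ^ (((1 + v : ℝ) : ℂ) + x * Complex.I) *
          Complex.Gamma (((1 + v : ℝ) : ℂ) + x * Complex.I)‖ ^ 2 * Real.exp (π * x) ≤
        K * (T ^ (2 + 2 * v + 2 * ε) * ((Y : ℝ) + 1) ^ (-(2 * v)) +
          (Y : ℝ) ^ 2 * T ^ (2 + 4 * ε)) := by
  have hM := E.Mpos
  obtain ⟨K, hK1, hK⟩ := ray_uniform (M := M) hM hε hε5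
  obtain ⟨K2, hK21, hK2⟩ := E.small_part hε hε5
  have hpi := Real.pi_gt_three
  refine ⟨Real.exp 15 * (2 * π * (K + K2)), ?_, ?_⟩
  · have h1 : 1 ≤ Real.exp 15 := Real.one_le_exp (by norm_num)
    have h2 : 1 ≤ 2 * π * (K + K2) := by nlinarith
    exact one_le_mul_of_one_le_of_one_le h1 h2
  intro T v S Y hT hv hv1 hS hST hY
  have hT0 : 0 < T := by linarith
  obtain ⟨-, hi, hb⟩ := hK (d : ℤ) T v Y hT hv hv1
  obtain ⟨hi2, hb2⟩ := hK2 T v Y hT hv hY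
  have hz := zT_re_pos hM hT
  have hn := zT_norm (M := M) (T := T) hM
  have e1 : 2 * (1 + v) - 1 = 1 + 2 * v := by ring
  have hunion : Ioi (0:ℝ) = Ioc 0 1 ∪ Ioi 1 := (Ioc_union_Ioi_eq_Ioi zero_le_one).symm
  have hdisj : Disjoint (Ioc (0:ℝ) 1) (Ioi 1) := by
    rw [Set.disjoint_left]
    intro x hx hx'
    exact absurd hx.2 (not_le.mpr hx')
  have hi0 : IntegrableOn (fun r : ℝ => ‖Fs (aR (d : ℤ) Y) (zT M T * r)‖ ^ 2 * r ^ (1 + 2 * v))
      (Ioi 0) := by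
    rw [hunion]; exact hi2.union hi
  have hb0 : ∫ r in Ioi (0:ℝ), ‖Fs (aR (d : ℤ) Y) (zT M T * r)‖ ^ 2 * r ^ (1 + 2 * v) ≤
      K2 * ((Y : ℝ) ^ 2 * T ^ (2 + 4 * ε)) +
      K * (T ^ (2 + 2 * v + 2 * ε) * ((Y : ℝ) + 1) ^ (-(2 * v)) + T ^ (2 + 4 * ε)) := by
    rw [hunion, setIntegral_union hdisj measurableSet_Ioi hi2 hi]
    linarith
  have hmemre : 0 < (((1 + v : ℝ) : ℂ)).re := by simp; linarith
  have hgc : Continuous (fun x : ℝ => mol (d : ℤ) Y (((1 + v : ℝ) : ℂ) + x * Complex.I) *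
          Λ (((1 + v : ℝ) : ℂ) + x * Complex.I) - (M : ℂ) ^ (((1 + v : ℝ) : ℂ) + x * Complex.I) *
          Complex.Gamma (((1 + v : ℝ) : ℂ) + x * Complex.I)) := by
    apply Continuous.sub
    · exact ((differentiable_mol (d : ℤ) Y).continuous.comp (by fun_prop)).mul (E.contLine v)
    · apply Continuous.mul
      · apply Continuous.const_cpow (by fun_prop)
        left; exact_mod_cast hM.ne'
      · rw [continuous_iff_continuousAt]
        intro x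
        have h1 : ContinuousAt Complex.Gamma (((1 + v : ℝ) : ℂ) + x * Complex.I) := by
          refine (Complex.differentiableAt_Gamma _ ?_).continuousAt
          intro m hm
          have := congrArg Complex.re hm
          simp at this
          have h2 : (0:ℝ) ≤ m := by positivity
          linarith
        exact ContinuousAt.comp (f := fun x : ℝ => (((1 + v : ℝ) : ℂ) + x * Complex.I)) h1
          (by fun_prop)
  have hmain := interval_of_mellin (h := fun r : ℝ => Fs (aR (d : ℤ) Y) (zT M T * r)) (σ := 1 + v)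
    (E.mellin_aR hz hn hY hmemre).1 (by rw [e1]; exact hi0) hgc hT hS hST (by
      intro x
      rw [(E.mellin_aR hz hn hY (s := ((1 + v : ℝ) : ℂ) + x * Complex.I) (by simp; linarith)).2,
        norm_mul, phase_norm hM hT, mul_comm]
      congr 2
      simp)
  rw [e1] at hmain
  refine hmain.trans ?_
  set U : ℝ := T ^ (2 + 2 * v + 2 * ε) * ((Y : ℝ) + 1) ^ (-(2 * v)) with hU
  set V : ℝ := T ^ (2 + 4 * ε) with hV
  have hU0 : 0 ≤ U := by positivity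
  have hV0 : 0 ≤ V := by positivity
  have hY2 : 1 ≤ (Y : ℝ) ^ 2 := one_le_pow₀ (by exact_mod_cast hY)
  have h9 : K2 * ((Y : ℝ) ^ 2 * V) + K * (U + V) ≤ (K + K2) * (U + (Y : ℝ) ^ 2 * V) := by
    have h10 : V ≤ (Y : ℝ) ^ 2 * V := by nlinarith
    nlinarith
  calc Real.exp 15 * (2 * π * ∫ r in Ioi (0:ℝ),
        ‖Fs (aR (d : ℤ) Y) (zT M T * r)‖ ^ 2 * r ^ (1 + 2 * v)) ≤
      Real.exp 15 * (2 * π * ((K + K2) * (U + (Y : ℝ) ^ 2 * V))) := by
        gcongr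
        exact hb0.trans h9
    _ = _ := by ring

end EdData

end Pool.Agent.H6
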