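import Mathlib
import Pool.Agent.H6.DCoef
import Pool.Agent.H6.DSumRow

/-!
Sums of powers of the divisor function with logarithmic precision.
-/

set_option autoImplicit false

open Finset

namespace Pool.Agent.H6

/-! ### The size of `zs` -/

lemma rpow_tele {δ : ℝ} (hδ : 0 < δ) {j : ℝ} (hj : 0 < j) :
    δ * (j + 1) ^ (-(1 + δ)) ≤ j ^ (-δ) - (j + 1) ^ (-δ) := by
  have h1 : 0 < j + 1 := by linarith
  have h2 : j ^ (-δ) = (j + 1) ^ (-δ) * ((j + 1) / j) ^ δ := by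
    rw [Real.div_rpow h1.le hj.le, Real.rpow_neg h1.le, Real.rpow_neg hj.le]
    have : (j + 1) ^ δ ≠ 0 := (Real.rpow_pos_of_pos h1 δ).ne'
    field_simp
  have h3 : 1 + δ / (j + 1) ≤ ((j + 1) / j) ^ δ := by
    have h4 : Real.log ((j + 1) / j) = -Real.log (j / (j + 1)) := by
      rw [← Real.log_inv, inv_div]
    have h5 : Real.log (j / (j + 1)) ≤ j / (j + 1) - 1 := Real.log_le_sub_one_of_pos (by positivity)
    have h6 : j / (j + 1) - 1 = -(1 / (j + 1)) := by field_simp; ring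
    rw [Real.rpow_def_of_pos (by positivity)]
    have h7 := Real.add_one_le_exp (Real.log ((j + 1) / j) * δ)
    have h8 : δ / (j + 1) ≤ Real.log ((j + 1) / j) * δ := by
      rw [h4, div_eq_mul_one_div, mul_comm]
      gcongr
      linarith
    linarith
  have h4 : (j + 1) ^ (-(1 + δ)) = (j + 1) ^ (-δ) / (j + 1) := by
    rw [show -(1 + δ) = -δ - 1 by ring, Real.rpow_sub h1, Real.rpow_one]
  rw [h2, h4]
  have h5 : 0 < (j + 1) ^ (-δ) := Real.rpow_pos_of_pos h1 _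
  calc δ * ((j + 1) ^ (-δ) / (j + 1)) = (j + 1) ^ (-δ) * (δ / (j + 1)) := by ring
    _ ≤ (j + 1) ^ (-δ) * (((j + 1) / j) ^ δ - 1) := by
        gcongr
        linarith
    _ = _ := by ring

lemma zs_le {δ : ℝ} (hδ : 0 < δ) : zs δ ≤ 1 + 1 / δ := by
  unfold zs
  apply Real.tsum_le_of_sum_range_le (fun j => by positivity)
  intro n
  have key : ∀ n : ℕ, ∑ i ∈ range (n + 1), ((i : ℝ) + 1) ^ (-(1 + δ)) ≤
      1 + 1 / δ - 1 / δ * ((n : ℝ) + 1) ^ (-δ) := by
    intro n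
    induction n with
    | zero => simp
    | succ n ih =>
      rw [Finset.sum_range_succ]
      have h1 := rpow_tele hδ (j := (n : ℝ) + 1) (by positivity)
      have h2 : ((n : ℝ) + 1 + 1) ^ (-(1 + δ)) ≤ 1 / δ * (((n : ℝ) + 1) ^ (-δ) -
          ((n : ℝ) + 1 + 1) ^ (-δ)) := by
        rw [one_div, ← div_eq_inv_mul, le_div_iff₀ hδ]
        linarith
      push_cast
      linarith
  rcases n with _ | n
  · simp; positivity
  · refine (key n).trans ?_
    have : 0 ≤ 1 / δ * ((n : ℝ) + 1) ^ (-δ) := by positivity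
    linarith

/-! ### Powers of the divisor function -/

lemma tau_mul_le (m n : ℕ) : tau (m * n) ≤ tau m * tau n := by
  unfold tau
  rw [Nat.divisors_mul]
  exact Finset.card_mul_le

lemma tau_sum_le {δ : ℝ} (hδ : 0 < δ) (k N : ℕ) :
    ∑ n ∈ Icc 1 N, (tau n : ℝ) ^ k * (n : ℝ) ^ (-(1 + δ)) ≤ zs δ ^ (2 ^ k) := by
  induction k with
  | zero =>
    simp only [pow_zero, one_mul, pow_one]
    exact sum_pos_zs_le hδ _ (fun n hn => (Finset.mem_Icc.mp hn).1)
  | succ k ih =>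
    set g : ℕ → ℝ := fun n => (tau n : ℝ) ^ k * (n : ℝ) ^ (-(1 + δ)) with hg
    have hg0 : ∀ n, 0 ≤ g n := fun n => by simp only [hg]; positivity
    have h1 : ∀ n ∈ Icc 1 N, (tau n : ℝ) ^ (k + 1) * (n : ℝ) ^ (-(1 + δ)) ≤
        ∑ p ∈ n.divisorsAntidiagonal, g p.1 * g p.2 := by
      intro n hn
      have hn1 := (Finset.mem_Icc.mp hn).1
      have h2 : ∀ p ∈ n.divisorsAntidiagonal, (tau n : ℝ) ^ k * (n : ℝ) ^ (-(1 + δ)) ≤
          g p.1 * g p.2 := by
        intro p hp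
        have hp' := (Nat.mem_divisorsAntidiagonal.mp hp).1
        simp only [hg]
        have h3 : (tau n : ℝ) ≤ tau p.1 * tau p.2 := by
          rw [← hp']
          exact_mod_cast tau_mul_le p.1 p.2
        have h4 : (n : ℝ) ^ (-(1 + δ)) = (p.1 : ℝ) ^ (-(1 + δ)) * (p.2 : ℝ) ^ (-(1 + δ)) := by
          rw [← hp', Nat.cast_mul, Real.mul_rpow (by positivity) (by positivity)]
        rw [h4]
        calc (tau n : ℝ) ^ k * ((p.1 : ℝ) ^ (-(1 + δ)) * (p.2 : ℝ) ^ (-(1 + δ)))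
            ≤ ((tau p.1 : ℝ) * tau p.2) ^ k * ((p.1 : ℝ) ^ (-(1 + δ)) * (p.2 : ℝ) ^ (-(1 + δ))) := by
              gcongr
          _ = _ := by rw [mul_pow]; ring
      have h3 := Finset.card_nsmul_le_sum n.divisorsAntidiagonal (fun p => g p.1 * g p.2) _ h2
      have h4 : n.divisorsAntidiagonal.card = tau n := by
        unfold tau
        rw [← Nat.map_div_right_divisors, Finset.card_map]
      rw [h4, nsmul_eq_mul] at h3
      calc (tau n : ℝ) ^ (k + 1) * (n : ℝ) ^ (-(1 + δ)) =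
          tau n * ((tau n : ℝ) ^ k * (n : ℝ) ^ (-(1 + δ))) := by ring
        _ ≤ _ := h3
    have h5 : ∑ n ∈ Icc 1 N, ∑ p ∈ n.divisorsAntidiagonal, g p.1 * g p.2 ≤
        ∑ p ∈ Icc 1 N ×ˢ Icc 1 N, g p.1 * g p.2 := by
      rw [← Finset.sum_biUnion]
      · apply Finset.sum_le_sum_of_subset_of_nonneg
        · intro p hp
          obtain ⟨n, hn, hpn⟩ := Finset.mem_biUnion.mp hp
          obtain ⟨h6, h7⟩ := Nat.mem_divisorsAntidiagonal.mp hpn
          have hn2 := (Finset.mem_Icc.mp hn).2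
          have hn1 := (Finset.mem_Icc.mp hn).1
          rw [Finset.mem_product, Finset.mem_Icc, Finset.mem_Icc]
          have h8 : p.1 ≠ 0 := by
            intro h; rw [h, zero_mul] at h6; omega
          have h9 : p.2 ≠ 0 := by
            intro h; rw [h, mul_zero] at h6; omega
          refine ⟨⟨by omega, ?_⟩, ⟨by omega, ?_⟩⟩
          · calc p.1 ≤ p.1 * p.2 := Nat.le_mul_of_pos_right _ (by omega)
              _ ≤ N := by rw [h6]; exact hn2
          · calc p.2 ≤ p.1 * p.2 := Nat.le_mul_of_pos_left _ (by omega)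
              _ ≤ N := by rw [h6]; exact hn2
        · intro p _ _
          exact mul_nonneg (hg0 _) (hg0 _)
      · intro a _ b _ hab
        rw [Function.onFun, Finset.disjoint_left]
        intro p hpa hpb
        apply hab
        rw [← (Nat.mem_divisorsAntidiagonal.mp hpa).1, ← (Nat.mem_divisorsAntidiagonal.mp hpb).1]
    have hs0 : 0 ≤ ∑ n ∈ Icc 1 N, g n := Finset.sum_nonneg (fun n _ => hg0 n)
    have hz0 : 0 ≤ zs δ ^ (2 ^ k) := pow_nonneg (zs_nonneg δ) _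
    calc ∑ n ∈ Icc 1 N, (tau n : ℝ) ^ (k + 1) * (n : ℝ) ^ (-(1 + δ))
        ≤ ∑ n ∈ Icc 1 N, ∑ p ∈ n.divisorsAntidiagonal, g p.1 * g p.2 := Finset.sum_le_sum h1
      _ ≤ ∑ p ∈ Icc 1 N ×ˢ Icc 1 N, g p.1 * g p.2 := h5
      _ = (∑ n ∈ Icc 1 N, g n) * ∑ n ∈ Icc 1 N, g n := by
          rw [Finset.sum_mul_sum, Finset.sum_product]
      _ ≤ (zs δ ^ (2 ^ k)) * (zs δ ^ (2 ^ k)) := by gcongr
      _ = _ := by rw [← pow_add]; congr 1; ring

/-- the same for an arbitrary finite set of positive integers -/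
lemma tau_sum_le' {δ : ℝ} (hδ : 0 < δ) (k : ℕ) (s : Finset ℕ) (hs : ∀ n ∈ s, 1 ≤ n) :
    ∑ n ∈ s, (tau n : ℝ) ^ k * (n : ℝ) ^ (-(1 + δ)) ≤ zs δ ^ (2 ^ k) := by
  refine le_trans ?_ (tau_sum_le hδ k (s.sup id))
  apply Finset.sum_le_sum_of_subset_of_nonneg
  · intro n hn
    rw [Finset.mem_Icc]
    exact ⟨hs n hn, Finset.le_sup (f := id) hn⟩
  · intro n _ _
    positivity

lemma tau_summable {δ : ℝ} (hδ : 0 < δ) (k : ℕ) :
    Summable (fun n : ℕ => (tau n : ℝ) ^ k * (n : ℝ) ^ (-(1 + δ))) := by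
  apply summable_of_sum_le (c := zs δ ^ (2 ^ k)) (fun n => by positivity)
  intro s
  have h1 := tau_sum_le' hδ k (s.filter (fun n => 1 ≤ n)) (fun n hn => (Finset.mem_filter.mp hn).2)
  refine le_trans (le_of_eq ?_) h1
  rw [Finset.sum_filter]
  apply Finset.sum_congr rfl
  intro n _
  split_ifs with h
  · rfl
  · have : n = 0 := by omega
    rw [this, Nat.cast_zero, Real.zero_rpow (by linarith), mul_zero]

lemma tau_tsum_le {δ : ℝ} (hδ : 0 < δ) (k : ℕ) :
    ∑' n : ℕ, (tau n : ℝ) ^ k * (n : ℝ) ^ (-(1 + δ)) ≤ zs δ ^ (2 ^ k) := by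
  apply Real.tsum_le_of_sum_le (fun n => by positivity)
  intro s
  have h1 := tau_sum_le' hδ k (s.filter (fun n => 1 ≤ n)) (fun n hn => (Finset.mem_filter.mp hn).2)
  refine le_trans (le_of_eq ?_) h1
  rw [Finset.sum_filter]
  apply Finset.sum_congr rfl
  intro n _
  split_ifs with h
  · rfl
  · have : n = 0 := by omega
    rw [this, Nat.cast_zero, Real.zero_rpow (by linarith), mul_zero]

end Pool.Agent.H6
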