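import Mathlib
import Pool.Agent.H5.Core
import Pool.Agent.H5.ThetaFE
import Pool.Agent.H6.EdStrip

/-!
The completed L-function of `y² = x³ - d² x` satisfies the hypotheses `LData` of the
derivative theorem, with constants depending on `θ` only.
-/

open Real MeasureTheory Set Filter Topology

namespace Pool.Agent.H6

open Pool.Agent.H5

lemma mul_exp_neg_le_one {x : ℝ} : x * Real.exp (-x) ≤ 1 := by
  have h := Real.add_one_le_exp x
  have h2 := Real.exp_pos (-x)
  have h3 : Real.exp x * Real.exp (-x) = 1 := by rw [← Real.exp_add]; simp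
  nlinarith

/-- the vertical Lipschitz bound of the L-series -/
lemma Lser_lip_vert (d : ℤ) {θ : ℝ} (hθ : 1 / 2 < θ) (hθ1 : θ ≤ 1) {s : ℂ} (hs : 1 + θ ≤ s.re) (τ : ℝ) :
    ‖Lser d (s + τ * Complex.I) - Lser d s‖ ≤
      ((1 + 4 / (θ - 1 / 2)) * Zc (1 + θ - (θ - 1 / 2) / 2)) * |τ| / s.re := by
  set δ := (θ - 1 / 2) / 2 with hδ
  have hδ0 : 0 < δ := by rw [hδ]; linarith
  have hδ1 : δ ≤ 1 := by rw [hδ]; linarith
  have hσ : 3 / 2 < 1 + θ - δ := by rw [hδ]; linarith
  have hsr : 0 < s.re := by linarith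
  have hre : (s + τ * Complex.I).re = s.re := by simp
  have hs1 := summable_bd d (s := s + τ * Complex.I) (by rw [hre]; linarith)
  have hs2 := summable_bd d (s := s) (by linarith)
  have hs' := summable_lattice hσ
  have hsub : Lser d (s + τ * Complex.I) - Lser d s = ∑' n : ℕ,
      ((bd d n : ℂ) * (n : ℂ) ^ (-(s + τ * Complex.I)) - (bd d n : ℂ) * (n : ℂ) ^ (-s)) := by
    unfold Lser
    rw [hs1.of_norm.tsum_sub hs2.of_norm]
  have hb : ∀ n : ℕ, ‖(bd d n : ℂ) * (n : ℂ) ^ (-(s + τ * Complex.I)) -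
      (bd d n : ℂ) * (n : ℂ) ^ (-s)‖ ≤
      ((1 + 2 / δ) * |τ| / s.re) * (|(c n : ℝ)| * (n : ℝ) ^ (-(1 + θ - δ))) := by
    intro n
    rcases Nat.eq_zero_or_pos n with rfl | hn
    · rw [bd_zero]; simp [c_zero]
    · have hn1 : (1:ℝ) ≤ n := by exact_mod_cast hn
      have hn0 : (0:ℝ) < n := by linarith
      have hnC : (n : ℂ) ≠ 0 := by exact_mod_cast hn0.ne'
      have hlog : 0 ≤ Real.log n := Real.log_nonneg hn1
      have e : (n : ℂ) ^ (-(s + τ * Complex.I)) = (n : ℂ) ^ (-s) *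
          Complex.exp (((-(τ * Real.log n) : ℝ) : ℂ) * Complex.I) := by
        have h1 : -(s + τ * Complex.I) = -s + (-(τ * Complex.I)) := by ring
        rw [h1, Complex.cpow_add _ _ hnC]
        congr 1
        rw [Complex.cpow_def_of_ne_zero hnC, ← Complex.natCast_log]
        push_cast
        congr 1
        ring
      have e2 : (bd d n : ℂ) * (n : ℂ) ^ (-(s + τ * Complex.I)) - (bd d n : ℂ) * (n : ℂ) ^ (-s) =
          (bd d n : ℂ) * ((n : ℂ) ^ (-s) *
          (Complex.exp (((-(τ * Real.log n) : ℝ) : ℂ) * Complex.I) - 1)) := by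
        rw [e]; ring
      rw [e2, norm_mul, norm_mul, Complex.norm_intCast, Complex.norm_natCast_cpow_of_pos hn]
      have h1 := abs_bd_le d n
      have h2 : ‖Complex.exp (((-(τ * Real.log n) : ℝ) : ℂ) * Complex.I) - 1‖ ≤ |τ| * Real.log n := by
        have := Real.norm_exp_I_mul_ofReal_sub_one_le (x := -(τ * Real.log n))
        rw [mul_comm Complex.I] at this
        refine this.trans ?_
        rw [Real.norm_eq_abs, abs_neg, abs_mul, abs_of_nonneg hlog]
      -- main bound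
      set u : ℝ := s.re - (1 + θ) with hu
      have hu0 : 0 ≤ u := by rw [hu]; linarith
      have h3 : (n : ℝ) ^ (-s).re = (n : ℝ) ^ (-(1 + θ)) * Real.exp (-(u * Real.log n)) := by
        rw [Complex.neg_re, Real.rpow_def_of_pos hn0, Real.rpow_def_of_pos hn0, ← Real.exp_add]
        congr 1; rw [hu]; ring
      have h4 : Real.log n ≤ (n : ℝ) ^ δ / δ := Real.log_le_rpow_div hn0.le hδ0
      have h5 : s.re * Real.log n * Real.exp (-(u * Real.log n)) ≤ 1 + 2 * Real.log n := by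
        have e5 : s.re = u + (1 + θ) := by rw [hu]; ring
        have h6 := @mul_exp_neg_le_one (u * Real.log n)
        have h7 : Real.exp (-(u * Real.log n)) ≤ 1 := by
          rw [Real.exp_le_one_iff]
          have := mul_nonneg hu0 hlog
          linarith
        have h8 := Real.exp_pos (-(u * Real.log n))
        calc s.re * Real.log n * Real.exp (-(u * Real.log n)) =
            (u * Real.log n) * Real.exp (-(u * Real.log n)) +
              (1 + θ) * Real.log n * Real.exp (-(u * Real.log n)) := by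
              rw [e5]; ring
          _ ≤ 1 + (2 * Real.log n) * 1 := by
              gcongr
              linarith
          _ = _ := by ring
      have h9 : 1 ≤ (n : ℝ) ^ δ := Real.one_le_rpow hn1 hδ0.le
      have h10 : 1 + 2 * Real.log n ≤ (1 + 2 / δ) * (n : ℝ) ^ δ := by
        calc 1 + 2 * Real.log n ≤ (n : ℝ) ^ δ + 2 * ((n : ℝ) ^ δ / δ) := by gcongr
          _ = _ := by ring
      have h11 : (n : ℝ) ^ (-(1 + θ - δ)) = (n : ℝ) ^ (-(1 + θ)) * (n : ℝ) ^ δ := by
        rw [← Real.rpow_add hn0]; congr 1; ring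
      have hp : 0 < (n : ℝ) ^ (-(1 + θ)) := by positivity
      rw [h3]
      calc |(bd d n : ℝ)| * ((n : ℝ) ^ (-(1 + θ)) * Real.exp (-(u * Real.log n)) *
            ‖Complex.exp (((-(τ * Real.log n) : ℝ) : ℂ) * Complex.I) - 1‖)
          ≤ |(c n : ℝ)| * ((n : ℝ) ^ (-(1 + θ)) * Real.exp (-(u * Real.log n)) *
            (|τ| * Real.log n)) := by gcongr
        _ = |(c n : ℝ)| * (n : ℝ) ^ (-(1 + θ)) * |τ| / s.re *
            (s.re * Real.log n * Real.exp (-(u * Real.log n))) := by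
            field_simp
        _ ≤ |(c n : ℝ)| * (n : ℝ) ^ (-(1 + θ)) * |τ| / s.re * ((1 + 2 / δ) * (n : ℝ) ^ δ) :=
            mul_le_mul_of_nonneg_left (h5.trans h10) (by positivity)
        _ = _ := by rw [h11]; ring
  rw [hsub]
  have hsb := hs'.mul_left ((1 + 2 / δ) * |τ| / s.re)
  have hsn : Summable (fun n : ℕ => ‖(bd d n : ℂ) * (n : ℂ) ^ (-(s + τ * Complex.I)) -
      (bd d n : ℂ) * (n : ℂ) ^ (-s)‖) :=
    Summable.of_nonneg_of_le (fun n => norm_nonneg _) hb hsb
  refine (norm_tsum_le_tsum_norm hsn).trans ?_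
  refine (hsn.tsum_le_tsum hb hsb).trans (le_of_eq ?_)
  rw [tsum_mul_left]
  unfold Zc
  have : 4 / (θ - 1 / 2) = 2 / δ := by rw [hδ]; field_simp; norm_num
  rw [this]
  ring

/-- **The instance** (P1) : for every `1/2 < θ ≤ 1` there are constants such that the completed
L-function of every `E_d`, `d` squarefree, is an `LData` (and an `FEData`). -/
theorem exists_LData' {θ : ℝ} (hθ : 1 / 2 < θ) (hθ1 : θ ≤ 1) :
    ∃ c₀ C₀ C₁ : ℝ, ∀ d : ℕ, Squarefree d →
      ∃ (Λ : ℂ → ℂ) (w : ℂ), LData θ c₀ C₀ C₁ (√(Q d) / π) Λ (Lser d) w ∧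
        FEData (√(Q d) / π) Λ (Lser d) w ∧
        (∀ s : ℂ, 3 / 2 < s.re → Λ s = ((√(Q d) / π : ℝ) : ℂ) ^ s * Complex.Gamma s * Lser d s) := by
  obtain ⟨z0, hz0, hlow⟩ := exists_Lser_lower (κ := 1 / 2 + θ) (by linarith)
  refine ⟨z0, Zc (1 + θ), (1 + 4 / (θ - 1 / 2)) * Zc (1 + θ - (θ - 1 / 2) / 2), ?_⟩
  intro d hd
  have hd0 : 0 < d := Nat.pos_of_ne_zero hd.ne_zero
  obtain ⟨w, hw, hfe⟩ := Th_fe d hd
  have hQ : 4 ≤ (Q d : ℝ) := by
    have : 4 ≤ Q d := by
      unfold Q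
      split_ifs <;> nlinarith
    exact_mod_cast this
  obtain ⟨Λ, hD, hΛ⟩ := exists_FEData (d : ℤ) (Q := (Q d : ℝ)) (by linarith) hw (by
    intro y hy
    have := hfe y hy
    unfold Th at this
    unfold thetaSer
    exact this)
  refine ⟨Λ, (w : ℂ), ?_, hD, hΛ⟩
  have hsq : 2 ≤ √(Q d : ℝ) := by
    rw [show (2:ℝ) = √4 by rw [show (4:ℝ) = 2 ^ 2 by norm_num, Real.sqrt_sq (by norm_num)]]
    exact Real.sqrt_le_sqrt hQ
  have hpi := Real.pi_pos
  have hpi4 := Real.pi_le_four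
  exact
    { hM := by
        rw [le_div_iff₀ hpi]; linarith
      hθ0 := by linarith
      hθ1 := hθ1
      hc₀ := hz0
      hC := by
        have h1 := hlow (d : ℤ) ((1 + θ : ℝ) : ℂ) (by rw [Complex.ofReal_re]; linarith)
        have h2 := norm_Lser_le_Zc (d : ℤ) (σ := 1 + θ) (s := ((1 + θ : ℝ) : ℂ)) (by linarith)
          (by rw [Complex.ofReal_re])
        exact h1.trans h2
      hC₁ := by
        have := Zc_nonneg (1 + θ - (θ - 1 / 2) / 2)
        have h3 : 0 < θ - 1 / 2 := by linarith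
        positivity
      sign := by
        rcases hw with h | h <;> rw [h] <;> simp
      diff := hD.diff
      fe := hD.fe
      real := hD.real
      eqL := fun s hs => hΛ s (by linarith)
      upper := fun s hs => norm_Lser_le_Zc (d : ℤ) (by linarith) hs
      lower := fun s hs => hlow (d : ℤ) s (by linarith)
      lip := fun s hs τ => Lser_lip_vert (d : ℤ) hθ hθ1 hs τ
      bdd := by
        obtain ⟨C, hC⟩ := hD.bdd
        exact ⟨C, fun s h1 h2 => hC s (by linarith) (by linarith)⟩ }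

/-- **The instance** (P1) -/
theorem exists_LData {θ : ℝ} (hθ : 1 / 2 < θ) (hθ1 : θ ≤ 1) :
    ∃ c₀ C₀ C₁ : ℝ, ∀ d : ℕ, Squarefree d →
      ∃ (Λ : ℂ → ℂ) (w : ℂ), LData θ c₀ C₀ C₁ (√(Q d) / π) Λ (Lser d) w ∧
        (∀ s : ℂ, 3 / 2 < s.re → Λ s = ((√(Q d) / π : ℝ) : ℂ) ^ s * Complex.Gamma s * Lser d s) := by
  obtain ⟨c₀, C₀, C₁, h⟩ := exists_LData' hθ hθ1
  refine ⟨c₀, C₀, C₁, fun d hd => ?_⟩
  obtain ⟨Λ, w, h1, -, h3⟩ := h d hd
  exact ⟨Λ, w, h1, h3⟩

end Pool.Agent.H6
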