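import Mathlib

/-!
A light form of the Hadamard factorisation theorem: an entire function of order less than one is
a locally uniform limit of polynomials all of whose zeros are zeros of the function.
Consequences for even or odd functions of order less than two, and a Gauss-Lucas theorem.
-/

set_option autoImplicit false

open Filter Topology Polynomial Metric Set

namespace Pool.Agent.H6

/-! ### Dividing out zeros -/

lemma differentiable_dslope {f : ℂ → ℂ} (hf : Differentiable ℂ f) (a : ℂ) :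
    Differentiable ℂ (dslope f a) := by
  rw [← differentiableOn_univ]
  exact (Complex.differentiableOn_dslope Filter.univ_mem).mpr hf.differentiableOn

lemma exists_div_pow_aux (a : ℂ) : ∀ (k : ℕ) (f : ℂ → ℂ), Differentiable ℂ f →
    analyticOrderAt f a = k →
    ∃ h : ℂ → ℂ, Differentiable ℂ h ∧ (∀ z, f z = (z - a) ^ k * h z) ∧ h a ≠ 0 := by
  intro k
  induction k with
  | zero =>
    intro f hf ho
    refine ⟨f, hf, by simp, ?_⟩
    have := (hf.analyticAt a).analyticOrderAt_eq_zero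
    exact this.mp (by simpa using ho)
  | succ k ih =>
    intro f hf ho
    have hfa : f a = 0 := by
      by_contra h
      have := (hf.analyticAt a).analyticOrderAt_eq_zero.mpr h
      rw [this] at ho
      exact absurd ho.symm (by simp)
    have hd := differentiable_dslope hf a
    have hfz : ∀ z, f z = (z - a) * dslope f a z := by
      intro z
      have := sub_smul_dslope f a z
      rw [hfa, sub_zero] at this
      rw [← this, smul_eq_mul]
    have ho2 : analyticOrderAt f a = 1 + analyticOrderAt (dslope f a) a := by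
      have e : f = (fun z => z - a) * dslope f a := by
        funext z; simp [hfz z]
      conv_lhs => rw [e]
      rw [analyticOrderAt_mul (by fun_prop) (hd.analyticAt a)]
      congr 1
      have h1 : analyticOrderAt (fun z : ℂ => z - a) a = ((1 : ℕ) : ℕ∞) := by
        rw [AnalyticAt.analyticOrderAt_eq_natCast (by fun_prop)]
        exact ⟨fun _ => 1, analyticAt_const, one_ne_zero, by simp⟩
      exact h1
    have ho3 : analyticOrderAt (dslope f a) a = k := by
      rw [ho2] at ho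
      have h4 : (1 : ℕ∞) + analyticOrderAt (dslope f a) a = 1 + k := by
        rw [ho]; push_cast; ring
      exact WithTop.add_left_cancel (show (1 : ℕ∞) ≠ ⊤ from ENat.one_ne_top) h4
    obtain ⟨h, h1, h2, h3⟩ := ih _ hd ho3
    refine ⟨h, h1, fun z => ?_, h3⟩
    rw [hfz z, h2 z]; ring

lemma exists_div_pow {f : ℂ → ℂ} (hf : Differentiable ℂ f) (a : ℂ) (hne : ∃ z, f z ≠ 0) :
    ∃ (k : ℕ) (h : ℂ → ℂ), Differentiable ℂ h ∧ (∀ z, f z = (z - a) ^ k * h z) ∧ h a ≠ 0 := by
  have ho : analyticOrderAt f a ≠ ⊤ := by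
    intro h
    rw [analyticOrderAt_eq_top] at h
    obtain ⟨z, hz⟩ := hne
    have hfa : AnalyticOnNhd ℂ f univ := fun z _ => hf.analyticAt z
    have := hfa.eqOn_zero_of_preconnected_of_eventuallyEq_zero isPreconnected_univ (mem_univ a) h
    exact hz (this (mem_univ z))
  obtain ⟨k, hk⟩ := ENat.ne_top_iff_exists.mp ho
  obtain ⟨h, h1, h2, h3⟩ := exists_div_pow_aux a k f hf hk.symm
  exact ⟨k, h, h1, h2, h3⟩

lemma exists_factor (S : Finset ℂ) {f : ℂ → ℂ} (hf : Differentiable ℂ f) (hne : ∃ z, f z ≠ 0) :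
    ∃ (p : ℂ[X]) (h : ℂ → ℂ), p ≠ 0 ∧ Differentiable ℂ h ∧ (∀ z, f z = p.eval z * h z) ∧
      (∀ z ∈ S, h z ≠ 0) ∧ (∀ z, p.eval z = 0 → z ∈ S) := by
  classical
  induction S using Finset.induction_on with
  | empty => exact ⟨1, f, one_ne_zero, hf, by simp, by simp, by simp⟩
  | insert a S ha ih =>
    obtain ⟨p, h, hp, hd, hfz, hS, hr⟩ := ih
    have hne' : ∃ z, h z ≠ 0 := by
      obtain ⟨z, hz⟩ := hne
      refine ⟨z, fun h0 => hz ?_⟩
      rw [hfz, h0, mul_zero]
    obtain ⟨k, h', hd', hz', ha'⟩ := exists_div_pow hd a hne'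
    refine ⟨p * (X - C a) ^ k, h', mul_ne_zero hp (pow_ne_zero _ (X_sub_C_ne_zero a)), hd', ?_, ?_, ?_⟩
    · intro z
      rw [hfz z, hz' z]
      simp; ring
    · intro z hz
      rcases Finset.mem_insert.mp hz with h1 | h1
      · rw [h1]; exact ha'
      · intro h0
        apply hS z h1
        rw [hz' z, h0, mul_zero]
    · intro z hz
      simp only [eval_mul, eval_pow, eval_sub, eval_X, eval_C, mul_eq_zero] at hz
      rcases hz with h1 | h1
      · exact Finset.mem_insert_of_mem (hr z h1)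
      · have : z - a = 0 := eq_zero_of_pow_eq_zero h1
        rw [sub_eq_zero.mp this]
        exact Finset.mem_insert_self _ _

/-- zeros of an entire function in a ball are finite -/
lemma finite_zeros {f : ℂ → ℂ} (hf : Differentiable ℂ f) (hne : ∃ z, f z ≠ 0) (R : ℝ) :
    {z : ℂ | z ∈ closedBall 0 R ∧ f z = 0}.Finite := by
  by_contra hinf
  have hinf' : {z : ℂ | z ∈ closedBall 0 R ∧ f z = 0}.Infinite := hinf
  obtain ⟨x, -, hx⟩ := hinf'.exists_accPt_of_subset_isCompact (isCompact_closedBall (0:ℂ) R)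
    (fun z hz => hz.1)
  have hfa : AnalyticOnNhd ℂ f univ := fun z _ => hf.analyticAt z
  have hfr : ∃ᶠ z in 𝓝[≠] x, f z = 0 := by
    have := accPt_iff_frequently_nhdsNE.mp hx
    exact this.mono (fun z hz => hz.2)
  have h0 := hfa.eqOn_zero_of_preconnected_of_frequently_eq_zero isPreconnected_univ
    (mem_univ x) hfr
  obtain ⟨z, hz⟩ := hne
  exact hz (h0 (mem_univ z))

/-- factorisation over a closed ball -/
lemma exists_factor_ball (R : ℝ) {f : ℂ → ℂ} (hf : Differentiable ℂ f) (hne : ∃ z, f z ≠ 0) :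
    ∃ (p : ℂ[X]) (h : ℂ → ℂ), p ≠ 0 ∧ Differentiable ℂ h ∧ (∀ z, f z = p.eval z * h z) ∧
      (∀ z ∈ closedBall (0:ℂ) R, h z ≠ 0) ∧ (∀ z, p.eval z = 0 → z ∈ closedBall (0:ℂ) R) := by
  have hfin := finite_zeros hf hne R
  obtain ⟨p, h, hp, hd, hfz, hS, hr⟩ := exists_factor hfin.toFinset hf hne
  refine ⟨p, h, hp, hd, hfz, ?_, ?_⟩
  · intro z hz h0
    apply hS z _ h0
    rw [Set.Finite.mem_toFinset]
    exact ⟨hz, by rw [hfz, h0, mul_zero]⟩
  · intro z hz
    have := hr z hz
    rw [Set.Finite.mem_toFinset] at this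
    exact this.1

/-- comparison of polynomial values through the distance to the roots -/
lemma norm_eval_le_of_roots {p : ℂ[X]} {z w : ℂ}
    (h : ∀ r ∈ p.roots, ‖w - r‖ ≤ ‖z - r‖) : ‖p.eval w‖ ≤ ‖p.eval z‖ := by
  have hs : p.Splits := IsAlgClosed.splits p
  rw [hs.eval_eq_prod_roots, hs.eval_eq_prod_roots, norm_mul, norm_mul]
  apply mul_le_mul_of_nonneg_left _ (norm_nonneg _)
  have key : ∀ m : Multiset ℂ, (∀ r ∈ m, ‖w - r‖ ≤ ‖z - r‖) →
      ‖(m.map (fun a => w - a)).prod‖ ≤ ‖(m.map (fun a => z - a)).prod‖ := by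
    intro m
    induction m using Multiset.induction_on with
    | empty => intro _; simp
    | cons a m ih =>
      intro hm
      rw [Multiset.map_cons, Multiset.map_cons, Multiset.prod_cons, Multiset.prod_cons, norm_mul,
        norm_mul]
      have h1 := hm a (Multiset.mem_cons_self a m)
      have h2 := ih (fun r hr => hm r (Multiset.mem_cons_of_mem hr))
      gcongr
  exact key _ h

/-- an analytic logarithm on a ball -/
lemma exists_log_ball {h : ℂ → ℂ} (hh : Differentiable ℂ h) {r : ℝ} (hr : 0 < r)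
    (hne : ∀ z ∈ ball (0:ℂ) r, h z ≠ 0) :
    ∃ l : ℂ → ℂ, l 0 = 0 ∧ DifferentiableOn ℂ l (ball 0 r) ∧
      ∀ z ∈ ball (0:ℂ) r, h z = h 0 * Complex.exp (l z) := by
  have hd : DifferentiableOn ℂ (fun z => deriv h z / h z) (ball 0 r) := by
    apply DifferentiableOn.div
    · exact (hh.differentiableOn.deriv isOpen_ball)
    · exact hh.differentiableOn
    · exact hne
  have hex := hd.isExactOn_ball
  obtain ⟨l, hl0, hl⟩ := hex.with_val_at 0 0
  refine ⟨l, hl0, fun z hz => (hl z hz).differentiableAt.differentiableWithinAt, ?_⟩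
  have hder : ∀ z ∈ ball (0:ℂ) r, HasDerivAt (fun z => h z * Complex.exp (-(l z))) 0 z := by
    intro z hz
    have h1 := (hh z).hasDerivAt.mul (hl z hz).neg.cexp
    have h2 := hne z hz
    have e : deriv h z * Complex.exp (-(l z)) + h z * (Complex.exp (-(l z)) *
        -(deriv h z / h z)) = 0 := by
      field_simp
      ring
    simp only [Pi.neg_apply] at h1
    rw [e] at h1
    exact h1
  have hc : ∀ z ∈ ball (0:ℂ) r, h z * Complex.exp (-(l z)) = h 0 * Complex.exp (-(l 0)) := by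
    intro z hz
    apply (convex_ball (0:ℂ) r).is_const_of_fderivWithin_eq_zero
      (𝕜 := ℂ) (f := fun z => h z * Complex.exp (-(l z)))
    · intro z hz
      exact (hder z hz).differentiableAt.differentiableWithinAt
    · intro z hz
      have := (hder z hz).hasFDerivAt.hasFDerivWithinAt (s := ball (0:ℂ) r)
      rw [this.fderivWithin (isOpen_ball.uniqueDiffWithinAt hz)]
      ext; simp
    · exact hz
    · exact mem_ball_self hr
  intro z hz
  have h2 := hc z hz
  rw [hl0, neg_zero, Complex.exp_zero, mul_one] at h2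
  rw [← h2, mul_assoc, ← Complex.exp_add]
  simp

lemma factor_unique : ∀ (n : ℕ) (p q : ℂ[X]) (h k : ℂ → ℂ), p.natDegree = n → p ≠ 0 → q ≠ 0 →
    Continuous h → Continuous k → (∀ z, p.eval z * h z = q.eval z * k z) →
    (∀ z, p.eval z = 0 → k z ≠ 0) → (∀ z, q.eval z = 0 → h z ≠ 0) →
    ∃ c : ℂ, c ≠ 0 ∧ q = C c * p := by
  intro n
  induction n with
  | zero =>
    intro p q h k hn hp hq hh hk he hpk hqh
    have hpr : ∀ z, p.eval z ≠ 0 := by
      intro z hz
      rw [eq_C_of_natDegree_eq_zero hn] at hz hp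
      simp only [eval_C] at hz
      rw [hz] at hp
      simp at hp
    have hq0 : q.natDegree = 0 := by
      by_contra hq0
      have hdeg : q.degree ≠ 0 := by
        intro h0
        exact hq0 (natDegree_eq_of_degree_eq_some h0)
      obtain ⟨z, hz⟩ := IsAlgClosed.exists_root q hdeg
      have h1 := he z
      rw [IsRoot.def] at hz
      rw [hz, zero_mul] at h1
      rcases mul_eq_zero.mp h1 with h2 | h2
      · exact hpr z h2
      · exact hqh z hz h2
    have e1 := eq_C_of_natDegree_eq_zero hn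
    have e2 := eq_C_of_natDegree_eq_zero hq0
    have hp0 : p.coeff 0 ≠ 0 := by
      intro h0; rw [h0, C_0] at e1; exact hp e1
    have hq00 : q.coeff 0 ≠ 0 := by
      intro h0; rw [h0, C_0] at e2; exact hq e2
    refine ⟨q.coeff 0 / p.coeff 0, div_ne_zero hq00 hp0, ?_⟩
    rw [e1, e2, ← C_mul]
    simp only [coeff_C_zero]
    rw [div_mul_cancel₀ _ hp0]
  | succ n ih =>
    intro p q h k hn hp hq hh hk he hpk hqh
    have hdeg : p.degree ≠ 0 := by
      intro h0
      have h1 : p.natDegree = 0 := natDegree_eq_of_degree_eq_some h0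
      omega
    obtain ⟨a, ha⟩ := IsAlgClosed.exists_root p hdeg
    have hpa : p.eval a = 0 := ha
    have hqa : q.eval a = 0 := by
      have h1 := he a
      rw [hpa, zero_mul] at h1
      rcases mul_eq_zero.mp h1.symm with h2 | h2
      · exact h2
      · exact absurd h2 (hpk a hpa)
    obtain ⟨p', hp'⟩ := dvd_iff_isRoot.mpr ha
    obtain ⟨q', hq'⟩ := dvd_iff_isRoot.mpr (show q.IsRoot a from hqa)
    have hp'0 : p' ≠ 0 := by rintro rfl; rw [mul_zero] at hp'; exact hp hp'
    have hq'0 : q' ≠ 0 := by rintro rfl; rw [mul_zero] at hq'; exact hq hq'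
    have hn' : p'.natDegree = n := by
      rw [hp', natDegree_mul (X_sub_C_ne_zero a) hp'0, natDegree_X_sub_C] at hn
      omega
    have he' : ∀ z, p'.eval z * h z = q'.eval z * k z := by
      have hcl : IsClosed {z : ℂ | p'.eval z * h z = q'.eval z * k z} :=
        isClosed_eq (p'.continuous.mul hh) (q'.continuous.mul hk)
      have hsub : ({a} : Set ℂ)ᶜ ⊆ {z : ℂ | p'.eval z * h z = q'.eval z * k z} := by
        intro z hz
        have hza : z - a ≠ 0 := sub_ne_zero.mpr hz
        have h1 := he z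
        rw [hp', hq'] at h1
        simp only [eval_mul, eval_sub, eval_X, eval_C] at h1
        have h2 : (z - a) * (p'.eval z * h z) = (z - a) * (q'.eval z * k z) := by
          linear_combination h1
        exact mul_left_cancel₀ hza h2
      have hden : Dense ({a} : Set ℂ)ᶜ := dense_compl_singleton a
      intro z
      have := hcl.closure_subset_iff.mpr hsub
      exact this (hden z)
    obtain ⟨c, hc, hqc⟩ := ih p' q' h k hn' hp'0 hq'0 hh hk he'
      (fun z hz => hpk z (by rw [hp']; simp [hz])) (fun z hz => hqh z (by rw [hq']; simp [hz]))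
    refine ⟨c, hc, ?_⟩
    rw [hp', hq', hqc]; ring

/-- complex conjugate of a polynomial -/
noncomputable def cpol (p : ℂ[X]) : ℂ[X] := p.map (starRingEnd ℂ)

lemma cpol_eval (p : ℂ[X]) (z : ℂ) :
    (cpol p).eval ((starRingEnd ℂ) z) = (starRingEnd ℂ) (p.eval z) := by
  unfold cpol
  rw [eval_map, eval₂_hom]

lemma cpol_ne_zero {p : ℂ[X]} (hp : p ≠ 0) : cpol p ≠ 0 := by
  unfold cpol
  exact (Polynomial.map_ne_zero_iff (starRingEnd ℂ).injective).mpr hp

lemma real_of_factor {g h : ℂ → ℂ} {q : ℂ[X]} {R : ℝ} (hg : ∀ z, g ((starRingEnd ℂ) z) =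
    (starRingEnd ℂ) (g z)) (hg0 : g 0 ≠ 0) (hh : Differentiable ℂ h) (hq : q ≠ 0)
    (he : ∀ z, g z = q.eval z * h z) (hR : ∀ z ∈ closedBall (0:ℂ) R, h z ≠ 0)
    (hr : ∀ z, q.eval z = 0 → z ∈ closedBall (0:ℂ) R) :
    ∀ z, q.eval ((starRingEnd ℂ) z) * h 0 = (starRingEnd ℂ) (q.eval z * h 0) := by
  set k : ℂ → ℂ := fun z => (starRingEnd ℂ) (h ((starRingEnd ℂ) z)) with hk
  have hkc : Continuous k :=
    Complex.continuous_conj.comp (hh.continuous.comp Complex.continuous_conj)
  have hqc : ∀ z, (cpol q).eval z = (starRingEnd ℂ) (q.eval ((starRingEnd ℂ) z)) := by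
    intro z
    have := cpol_eval q ((starRingEnd ℂ) z)
    rw [Complex.conj_conj] at this
    exact this
  have he' : ∀ z, q.eval z * h z = (cpol q).eval z * k z := by
    intro z
    rw [← he, hqc, hk]
    simp only
    rw [← map_mul, ← he, hg, Complex.conj_conj]
  have hconj : ∀ z : ℂ, (starRingEnd ℂ) z ∈ closedBall (0:ℂ) R ↔ z ∈ closedBall (0:ℂ) R := by
    intro z; simp
  obtain ⟨c, hc, hqc'⟩ := factor_unique q.natDegree q (cpol q) h k rfl hq (cpol_ne_zero hq)
    hh.continuous hkc he'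
    (fun z hz => by
      have h1 := hr z hz
      have h2 := hR _ ((hconj z).mpr h1)
      rw [hk]; simpa using h2)
    (fun z hz => by
      apply hR
      rw [hqc z] at hz
      rw [← hconj]
      apply hr
      simpa using hz)
  -- constant
  have h0 : (cpol q).eval 0 = (starRingEnd ℂ) (q.eval 0) := by simpa using hqc 0
  have h1 : (starRingEnd ℂ) (q.eval 0 * h 0) = q.eval 0 * h 0 := by
    rw [← he, ← hg]; simp
  have hq0 : q.eval 0 ≠ 0 := by
    intro h2; apply hg0; rw [he, h2, zero_mul]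
  have h3 : c * (starRingEnd ℂ) (h 0) = h 0 := by
    have h4 : (cpol q).eval 0 = c * q.eval 0 := by rw [hqc']; simp
    rw [map_mul, ← h0, h4] at h1
    apply mul_left_cancel₀ hq0
    linear_combination h1
  intro z
  have h5 := cpol_eval q z
  rw [hqc'] at h5
  simp only [eval_mul, eval_C] at h5
  rw [map_mul, ← h5]
  linear_combination (-(q.eval ((starRingEnd ℂ) z))) * h3

/-- **Hadamard-lite** -/
theorem had_lite {g : ℂ → ℂ} (hg : Differentiable ℂ g) (hne : ∃ z, g z ≠ 0) {A B ρ : ℝ}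
    (hρ0 : 0 ≤ ρ) (hρ : ρ < 1) (hgrow : ∀ z, ‖g z‖ ≤ A * Real.exp (B * ‖z‖ ^ ρ)) (R0 : ℝ) {δ : ℝ}
    (hδ : 0 < δ) :
    ∃ p : ℂ[X], p ≠ 0 ∧ (∀ z, p.eval z = 0 → g z = 0) ∧
      (∀ z, ‖z‖ ≤ R0 → ‖g z - p.eval z‖ ≤ δ) ∧
      ((∀ z, g ((starRingEnd ℂ) z) = (starRingEnd ℂ) (g z)) →
        ∀ z, p.eval ((starRingEnd ℂ) z) = (starRingEnd ℂ) (p.eval z)) := by
  obtain ⟨k, g1, hd1, hz1, h10⟩ := exists_div_pow hg 0 hne
  have hz1' : ∀ z, g z = z ^ k * g1 z := by intro z; rw [hz1 z, sub_zero]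
  have hne1 : ∃ z, g1 z ≠ 0 := ⟨0, h10⟩
  have hn0 : 0 < ‖g1 0‖ := norm_pos_iff.mpr h10
  -- normalise the growth
  set A' : ℝ := |A| + 1 with hA'
  set B' : ℝ := |B| with hB'
  have hA'0 : 0 < A' := by positivity
  have hB'0 : 0 ≤ B' := abs_nonneg B
  have hgrow' : ∀ z, ‖g z‖ ≤ A' * Real.exp (B' * ‖z‖ ^ ρ) := by
    intro z
    refine (hgrow z).trans ?_
    have h1 : A ≤ A' := by rw [hA']; linarith [le_abs_self A]
    have h2 : Real.exp (B * ‖z‖ ^ ρ) ≤ Real.exp (B' * ‖z‖ ^ ρ) := by
      apply Real.exp_le_exp.mpr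
      apply mul_le_mul_of_nonneg_right (le_abs_self B) (by positivity)
    have h3 := Real.exp_pos (B * ‖z‖ ^ ρ)
    calc A * Real.exp (B * ‖z‖ ^ ρ) ≤ A' * Real.exp (B * ‖z‖ ^ ρ) := by gcongr
      _ ≤ _ := by gcongr
  set R1 : ℝ := |R0| with hR1
  have hR10 : 0 ≤ R1 := abs_nonneg R0
  set G : ℝ := A' * Real.exp (B' * R1 ^ ρ) with hG
  have hG0 : 0 < G := by positivity
  set ε : ℝ := min 1 (δ / (2 * G)) with hε
  have hε0 : 0 < ε := by positivity
  set K : ℝ := |Real.log (A' / ‖g1 0‖)| + 1 with hK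
  have hK0 : 0 < K := by positivity
  -- choose R
  have hlim : Tendsto (fun R : ℝ => 2 * (K + B' * (4 * R) ^ ρ) * R1 / R) atTop (𝓝 0) := by
    have h1 : Tendsto (fun R : ℝ => (2 * K * R1) * R⁻¹) atTop (𝓝 ((2 * K * R1) * 0)) :=
      tendsto_inv_atTop_zero.const_mul _
    have h2 : Tendsto (fun R : ℝ => (2 * B' * 4 ^ ρ * R1) * R ^ (-(1 - ρ))) atTop
        (𝓝 ((2 * B' * 4 ^ ρ * R1) * 0)) :=
      (tendsto_rpow_neg_atTop (by linarith)).const_mul _
    have h3 := h1.add h2
    simp only [mul_zero, add_zero] at h3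
    refine h3.congr' ?_
    filter_upwards [eventually_gt_atTop 0] with R hR
    have e1 : (4 * R) ^ ρ = 4 ^ ρ * R ^ ρ := Real.mul_rpow (by norm_num) hR.le
    have e2 : R ^ (-(1 - ρ)) = R ^ ρ / R := by
      rw [show -(1 - ρ) = ρ - 1 by ring, Real.rpow_sub hR, Real.rpow_one]
    rw [e1, e2]
    field_simp
  obtain ⟨R, hRε, hR1', hRR⟩ := ((hlim.eventually (gt_mem_nhds hε0)).and
    ((eventually_ge_atTop (1:ℝ)).and (eventually_ge_atTop R1))).exists
  have hR0 : 0 < R := by linarith
  obtain ⟨q, h, hq, hh, hqh, hball, hroots⟩ := exists_factor_ball (2 * R) hd1 hne1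
  have hq0 : q.eval 0 ≠ 0 := by
    intro h2; apply h10; rw [hqh, h2, zero_mul]
  have hqn : 0 < ‖q.eval 0‖ := norm_pos_iff.mpr hq0
  have hh0 : h 0 ≠ 0 := by
    intro h2; apply h10; rw [hqh, h2, mul_zero]
  -- bound of h on the big circle
  have hbig : ∀ z ∈ closedBall (0:ℂ) (4 * R),
      ‖h z‖ ≤ A' * Real.exp (B' * (4 * R) ^ ρ) / ‖q.eval 0‖ := by
    intro z hz
    have hU : Bornology.IsBounded (ball (0:ℂ) (4 * R)) := isBounded_ball
    apply Complex.norm_le_of_forall_mem_frontier_norm_le hU (f := h) hh.diffContOnCl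
    · intro w hw
      rw [frontier_ball (0:ℂ) (by positivity)] at hw
      have hwn : ‖w‖ = 4 * R := by simpa using hw
      rw [le_div_iff₀ hqn]
      have h1 : ‖q.eval 0‖ ≤ ‖q.eval w‖ := by
        apply norm_eval_le_of_roots
        intro r hr
        have h2 := hroots r (isRoot_of_mem_roots hr)
        have h3 : ‖r‖ ≤ 2 * R := by simpa using h2
        rw [zero_sub, norm_neg]
        have h4 := norm_sub_norm_le w r
        rw [hwn] at h4
        linarith
      have h2 : ‖g1 w‖ ≤ ‖g w‖ := by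
        rw [hz1' w, norm_mul, norm_pow, hwn]
        have : 1 ≤ (4 * R) ^ k := one_le_pow₀ (by linarith)
        nlinarith [norm_nonneg (g1 w)]
      calc ‖h w‖ * ‖q.eval 0‖ ≤ ‖h w‖ * ‖q.eval w‖ := by gcongr
        _ = ‖g1 w‖ := by rw [hqh w, norm_mul, mul_comm]
        _ ≤ ‖g w‖ := h2
        _ ≤ A' * Real.exp (B' * ‖w‖ ^ ρ) := hgrow' w
        _ = _ := by rw [hwn]
    · rw [closure_ball (0:ℂ) (by positivity)]; exact hz
  obtain ⟨l, hl0, hld, hl⟩ := exists_log_ball hh (r := 2 * R) (by positivity)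
    (fun z hz => hball z (ball_subset_closedBall hz))
  set M : ℝ := K + B' * (4 * R) ^ ρ with hM
  have hM0 : 0 < M := by positivity
  have hre : ∀ z ∈ ball (0:ℂ) (2 * R), (l z).re ≤ M := by
    intro z hz
    have h1 := hl z hz
    have h2 : ‖h z‖ = ‖h 0‖ * Real.exp (l z).re := by
      rw [h1, norm_mul, Complex.norm_exp]
    have hzb : z ∈ closedBall (0:ℂ) (4 * R) := by
      have : ‖z‖ < 2 * R := by simpa using hz
      simp only [mem_closedBall, dist_zero_right]; linarith
    have h3 := hbig z hzb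
    rw [h2] at h3
    have h4 : ‖g1 0‖ = ‖q.eval 0‖ * ‖h 0‖ := by rw [hqh 0, norm_mul]
    have h5 : ‖g1 0‖ * Real.exp (l z).re ≤ A' * Real.exp (B' * (4 * R) ^ ρ) := by
      rw [le_div_iff₀ hqn] at h3
      rw [h4]; linarith
    have h6 : Real.exp (l z).re ≤ Real.exp (Real.log (A' / ‖g1 0‖) + B' * (4 * R) ^ ρ) := by
      rw [Real.exp_add, Real.exp_log (by positivity)]
      rw [div_mul_eq_mul_div, le_div_iff₀ hn0]
      linarith
    have h7 := Real.exp_le_exp.mp h6
    rw [hM, hK]
    linarith [le_abs_self (Real.log (A' / ‖g1 0‖))]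
  have hls : ∀ z, ‖z‖ ≤ R1 → ‖l z‖ ≤ ε := by
    intro z hz
    have hzb : z ∈ ball (0:ℂ) (2 * R) := by
      simp only [mem_ball, dist_zero_right]; linarith
    have h1 := Complex.borelCaratheodory_zero hM0 hld (fun z hz => hre z hz) (by positivity) hzb hl0
    refine h1.trans ?_
    have h2 : R ≤ 2 * R - ‖z‖ := by linarith
    calc 2 * M * ‖z‖ / (2 * R - ‖z‖) ≤ 2 * M * R1 / R := by gcongr
      _ ≤ ε := hRε.le
  refine ⟨X ^ k * q * C (h 0), ?_, ?_, ?_, ?_⟩
  · exact mul_ne_zero (mul_ne_zero (pow_ne_zero _ X_ne_zero) hq) (by simpa using hh0)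
  · intro z hz
    simp only [eval_mul, eval_pow, eval_X, eval_C] at hz
    rw [hz1' z, hqh z]
    rcases mul_eq_zero.mp hz with h1 | h1
    · linear_combination (h z) * h1
    · exact absurd h1 hh0
  · intro z hz
    have hz' : ‖z‖ ≤ R1 := hz.trans (le_abs_self R0)
    have hzb : z ∈ ball (0:ℂ) (2 * R) := by
      simp only [mem_ball, dist_zero_right]; linarith
    have h1 := hls z hz'
    have e1 : g z - (X ^ k * q * C (h 0)).eval z = g z * -(Complex.exp (-(l z)) - 1) := by
      simp only [eval_mul, eval_pow, eval_X, eval_C]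
      rw [hz1' z, hqh z, hl z hzb]
      have h3 : Complex.exp (l z) * Complex.exp (-(l z)) = 1 := by rw [← Complex.exp_add]; simp
      linear_combination (z ^ k * q.eval z * h 0) * h3
    rw [e1, norm_mul, norm_neg]
    have h2 : ‖Complex.exp (-(l z)) - 1‖ ≤ 2 * ‖-(l z)‖ := by
      apply Complex.norm_exp_sub_one_le
      rw [norm_neg]; exact h1.trans (min_le_left _ _)
    rw [norm_neg] at h2
    have h3 : ‖g z‖ ≤ G := by
      refine (hgrow' z).trans ?_
      rw [hG]; gcongr
    calc ‖g z‖ * ‖Complex.exp (-(l z)) - 1‖ ≤ G * (2 * ε) := by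
          gcongr; linarith
      _ ≤ G * (2 * (δ / (2 * G))) := by gcongr; exact min_le_right _ _
      _ = δ := by field_simp
  · intro hreal z
    have hreal1 : ∀ z, g1 ((starRingEnd ℂ) z) = (starRingEnd ℂ) (g1 z) := by
      have hcl : IsClosed {z : ℂ | g1 ((starRingEnd ℂ) z) = (starRingEnd ℂ) (g1 z)} :=
        isClosed_eq (hd1.continuous.comp Complex.continuous_conj)
          (Complex.continuous_conj.comp hd1.continuous)
      have hsub : ({0} : Set ℂ)ᶜ ⊆ {z : ℂ | g1 ((starRingEnd ℂ) z) = (starRingEnd ℂ) (g1 z)} := by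
        intro z hz
        have hz0 : (starRingEnd ℂ) z ≠ 0 := by simpa using hz
        have h1 := hreal z
        rw [hz1', hz1' z, map_mul, map_pow] at h1
        exact mul_left_cancel₀ (pow_ne_zero k hz0) h1
      intro z
      exact (hcl.closure_subset_iff.mpr hsub) (dense_compl_singleton (0:ℂ) z)
    have h2 := real_of_factor hreal1 h10 hh hq hqh hball hroots z
    simp only [eval_mul, eval_pow, eval_X, eval_C]
    rw [mul_assoc, h2, mul_assoc, map_mul (starRingEnd ℂ) (z ^ k), map_pow]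

end Pool.Agent.H6
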