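import Mathlib
import Pool.Agent.H6.HadLite

/-!
Even or odd entire functions of order less than two: approximation by polynomials whose zeros are
zeros of the function, and the Gauss-Lucas theorem.
-/

set_option autoImplicit false

open Filter Topology Polynomial Metric Set

namespace Pool.Agent.H6

lemma even_sq {f : ℂ → ℂ} (heven : ∀ z, f (-z) = f z) {u v : ℂ} (h : u ^ 2 = v ^ 2) : f u = f v := by
  rcases sq_eq_sq_iff_eq_or_eq_neg.mp h with h1 | h1
  · rw [h1]
  · rw [h1, heven]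

lemma exists_even_factor {f : ℂ → ℂ} (hf : Differentiable ℂ f) (heven : ∀ z, f (-z) = f z) :
    ∃ g : ℂ → ℂ, Differentiable ℂ g ∧ ∀ z, f z = g (z ^ 2) := by
  set g : ℂ → ℂ := fun w => f (w ^ (1 / 2 : ℂ)) with hg
  have hsq : ∀ w : ℂ, (w ^ (1 / 2 : ℂ)) ^ 2 = w := by
    intro w
    rw [← Complex.cpow_nat_mul]
    norm_num
  have hfg : ∀ z, f z = g (z ^ 2) := by
    intro z
    rw [hg]
    exact even_sq heven (hsq _).symm
  have hg2 : g = fun w => f (Complex.I * (-w) ^ (1 / 2 : ℂ)) := by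
    funext w
    apply even_sq heven
    rw [hsq, mul_pow, hsq, Complex.I_sq]
    ring
  have hd1 : ∀ w : ℂ, w ≠ 0 → DifferentiableAt ℂ g w := by
    intro w hw
    by_cases hs : w ∈ Complex.slitPlane
    · have h1 : DifferentiableAt ℂ (fun w : ℂ => w ^ (1 / 2 : ℂ)) w :=
        differentiableAt_id.cpow_const hs
      exact (hf _).comp w h1
    · rw [hg2]
      have hs' : -w ∈ Complex.slitPlane := by
        rw [Complex.mem_slitPlane_iff] at hs ⊢
        push Not at hs
        left
        have h1 : w.im = 0 := hs.2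
        have h2 : w.re ≠ 0 := by
          intro h3
          exact hw (Complex.ext h3 h1)
        have h3 := hs.1
        rw [Complex.neg_re]
        rcases lt_or_gt_of_ne h2 with h4 | h4
        · linarith
        · linarith
      have h1 : DifferentiableAt ℂ (fun w : ℂ => Complex.I * (-w) ^ (1 / 2 : ℂ)) w :=
        (differentiableAt_id.neg.cpow_const hs').const_mul _
      exact (hf _).comp w h1
  refine ⟨g, ?_, hfg⟩
  intro w
  rcases eq_or_ne w 0 with rfl | hw
  · apply AnalyticAt.differentiableAt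
    apply Complex.analyticAt_of_differentiable_on_punctured_nhds_of_continuousAt
    · filter_upwards [self_mem_nhdsWithin] with z hz
      exact hd1 z hz
    · have h1 : ContinuousAt (fun w : ℂ => w ^ (1 / 2 : ℂ)) 0 := by
        have h0 : (0:ℂ) ^ (1 / 2 : ℂ) = 0 := by simp
        unfold ContinuousAt
        simp only
        rw [h0, tendsto_zero_iff_norm_tendsto_zero]
        have h2 : Tendsto (fun w : ℂ => ‖w‖ ^ (1 / 2 : ℝ)) (𝓝 0) (𝓝 0) := by
          have h3 : Tendsto (fun w : ℂ => ‖w‖ ^ (1 / 2 : ℝ)) (𝓝 0) (𝓝 (‖(0:ℂ)‖ ^ (1 / 2 : ℝ))) :=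
            (continuous_norm.rpow_const (fun _ => Or.inr (by norm_num))).tendsto 0
          rwa [norm_zero, Real.zero_rpow (by norm_num)] at h3
        refine h2.congr' ?_
        filter_upwards with w
        have h4 := Complex.norm_cpow_real w (1 / 2)
        push_cast at h4
        exact h4.symm
      have h2 : ContinuousAt f ((0:ℂ) ^ (1 / 2 : ℂ)) := (hf _).continuousAt
      exact ContinuousAt.comp (f := fun w : ℂ => w ^ (1 / 2 : ℂ)) (g := f) h2 h1
  · exact hd1 w hw

/-- the class of functions -/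
structure SymEntire (f : ℂ → ℂ) : Prop where
  diff : Differentiable ℂ f
  symm : (∀ z, f (-z) = f z) ∨ (∀ z, f (-z) = -f z)
  growth : ∃ A B ρ : ℝ, 0 ≤ A ∧ 0 ≤ B ∧ 0 ≤ ρ ∧ ρ < 2 ∧ ∀ z, ‖f z‖ ≤ A * Real.exp (B * ‖z‖ ^ ρ)

lemma even_approx {f : ℂ → ℂ} (hf : Differentiable ℂ f) (heven : ∀ z, f (-z) = f z)
    (hne : ∃ z, f z ≠ 0)
    {A B ρ : ℝ} (hρ0 : 0 ≤ ρ) (hρ : ρ < 2) (hgrow : ∀ z, ‖f z‖ ≤ A * Real.exp (B * ‖z‖ ^ ρ))
    (R0 : ℝ) {δ : ℝ} (hδ : 0 < δ) :
    ∃ p : ℂ[X], p ≠ 0 ∧ (∀ z, p.eval z = 0 → f z = 0) ∧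
      (∀ z, ‖z‖ ≤ R0 → ‖f z - p.eval z‖ ≤ δ) ∧
      ((∀ z, f ((starRingEnd ℂ) z) = (starRingEnd ℂ) (f z)) →
        ∀ z, p.eval ((starRingEnd ℂ) z) = (starRingEnd ℂ) (p.eval z)) := by
  obtain ⟨g, hg, hfg⟩ := exists_even_factor hf heven
  have hsurj : ∀ w : ℂ, ∃ z : ℂ, z ^ 2 = w := by
    intro w
    obtain ⟨z, hz⟩ := IsAlgClosed.exists_pow_nat_eq w (n := 2) (by norm_num)
    exact ⟨z, hz⟩
  have hne' : ∃ z, g z ≠ 0 := by
    obtain ⟨z, hz⟩ := hne
    exact ⟨z ^ 2, by rw [← hfg]; exact hz⟩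
  have hgrow' : ∀ z, ‖g z‖ ≤ A * Real.exp (B * ‖z‖ ^ (ρ / 2)) := by
    intro w
    obtain ⟨z, rfl⟩ := hsurj w
    rw [← hfg, norm_pow]
    have e : (‖z‖ ^ 2) ^ (ρ / 2) = ‖z‖ ^ ρ := by
      rw [← Real.rpow_natCast, ← Real.rpow_mul (norm_nonneg _)]
      congr 1; push_cast; ring
    rw [e]
    exact hgrow z
  obtain ⟨p, hp, hroot, happ, hreal⟩ := had_lite hg hne' (by linarith : 0 ≤ ρ / 2)
    (by linarith : ρ / 2 < 1) hgrow' (R0 ^ 2) hδ
  have hev : ∀ z, (p.comp (X ^ 2)).eval z = p.eval (z ^ 2) := by intro z; simp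
  refine ⟨p.comp (X ^ 2), ?_, ?_, ?_, ?_⟩
  · intro h0
    apply hp
    apply Polynomial.funext
    intro w
    obtain ⟨z, rfl⟩ := hsurj w
    rw [← hev, h0]; simp
  · intro z hz
    rw [hev] at hz
    rw [hfg]; exact hroot _ hz
  · intro z hz
    rw [hev, hfg]
    apply happ
    rw [norm_pow]
    have := norm_nonneg z
    gcongr
  · intro hr z
    rw [hev, hev, ← map_pow]
    apply hreal
    intro w
    obtain ⟨z, rfl⟩ := hsurj w
    rw [map_pow, ← hfg, ← hfg, hr]

lemma growth_dslope {f : ℂ → ℂ} (hf : Differentiable ℂ f) (hf0 : f 0 = 0)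
    {A B ρ : ℝ} (hA : 0 ≤ A) (hB : 0 ≤ B) (hgrow : ∀ z, ‖f z‖ ≤ A * Real.exp (B * ‖z‖ ^ ρ)) :
    ∃ A' : ℝ, ∀ z, ‖dslope f 0 z‖ ≤ A' * Real.exp (B * ‖z‖ ^ ρ) := by
  have hd := differentiable_dslope hf 0
  obtain ⟨C, hC⟩ := (isCompact_closedBall (0:ℂ) 1).exists_bound_of_continuousOn
    hd.continuous.continuousOn
  refine ⟨A + |C|, fun z => ?_⟩
  have hE : 1 ≤ Real.exp (B * ‖z‖ ^ ρ) := Real.one_le_exp (by positivity)
  rcases le_total ‖z‖ 1 with h | h
  · have h1 := hC z (by simpa using h)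
    calc ‖dslope f 0 z‖ ≤ C := h1
      _ ≤ (A + |C|) * 1 := by linarith [le_abs_self C]
      _ ≤ _ := by gcongr
  · have h1 := sub_smul_dslope f 0 z
    rw [hf0, sub_zero, sub_zero, smul_eq_mul] at h1
    have h2 : ‖dslope f 0 z‖ ≤ ‖f z‖ := by
      rw [← h1, norm_mul]
      nlinarith [norm_nonneg (dslope f 0 z)]
    refine h2.trans ((hgrow z).trans ?_)
    gcongr
    linarith [abs_nonneg C]

/-- **Approximation** -/
theorem SymEntire.approx {f : ℂ → ℂ} (F : SymEntire f) (hne : ∃ z, f z ≠ 0)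
    (R0 : ℝ) {δ : ℝ} (hδ : 0 < δ) :
    ∃ p : ℂ[X], p ≠ 0 ∧ (∀ z, p.eval z = 0 → f z = 0) ∧
      (∀ z, ‖z‖ ≤ R0 → ‖f z - p.eval z‖ ≤ δ) ∧
      ((∀ z, f ((starRingEnd ℂ) z) = (starRingEnd ℂ) (f z)) →
        ∀ z, p.eval ((starRingEnd ℂ) z) = (starRingEnd ℂ) (p.eval z)) := by
  obtain ⟨A, B, ρ, hA, hB, hρ0, hρ, hgrow⟩ := F.growth
  rcases F.symm with he | ho
  · exact even_approx F.diff he hne hρ0 hρ hgrow R0 hδ
  · have hf0 : f 0 = 0 := by
      have := ho 0
      rw [neg_zero] at this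
      linear_combination (1 / 2 : ℂ) * this
    have hfz : ∀ z, f z = z * dslope f 0 z := by
      intro z
      have h1 := sub_smul_dslope f 0 z
      rw [hf0, sub_zero, sub_zero, smul_eq_mul] at h1
      exact h1.symm
    have hd := differentiable_dslope F.diff 0
    obtain ⟨A', hA'⟩ := growth_dslope F.diff hf0 hA hB hgrow
    have cont_ext : ∀ u v : ℂ → ℂ, Continuous u → Continuous v → (∀ z, z ≠ 0 → u z = v z) →
        ∀ z, u z = v z := by
      intro u v hu hv h z
      have hcl : IsClosed {z : ℂ | u z = v z} := isClosed_eq hu hv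
      exact (hcl.closure_subset_iff.mpr (fun z hz => h z hz)) (dense_compl_singleton (0:ℂ) z)
    have hev : ∀ z, dslope f 0 (-z) = dslope f 0 z := by
      apply cont_ext _ _ (hd.continuous.comp continuous_neg) hd.continuous
      intro z hz
      have h1 := hfz (-z)
      rw [ho, hfz z] at h1
      simp only [Function.comp_apply]
      apply mul_left_cancel₀ hz
      linear_combination h1
    have hne' : ∃ z, dslope f 0 z ≠ 0 := by
      obtain ⟨z, hz⟩ := hne
      refine ⟨z, fun h => hz ?_⟩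
      rw [hfz, h, mul_zero]
    set R1 : ℝ := |R0| + 1 with hR1
    obtain ⟨p, hp, hroot, happ, hreal⟩ := even_approx hd hev hne' hρ0 hρ hA' R1
      (div_pos hδ (by positivity : 0 < R1))
    refine ⟨X * p, mul_ne_zero X_ne_zero hp, ?_, ?_, ?_⟩
    · intro z hz
      simp only [eval_mul, eval_X, mul_eq_zero] at hz
      rw [hfz z]
      rcases hz with h | h
      · rw [h, zero_mul]
      · rw [hroot z h, mul_zero]
    · intro z hz
      have hz' : ‖z‖ ≤ R1 := by rw [hR1]; linarith [le_abs_self R0]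
      rw [hfz z, eval_mul, eval_X, ← mul_sub, norm_mul]
      calc ‖z‖ * ‖dslope f 0 z - eval z p‖ ≤ R1 * (δ / R1) := by
            gcongr
            exact happ z hz'
        _ = δ := by
            have : R1 ≠ 0 := by positivity
            field_simp
    · intro hr z
      have hr' : ∀ z, dslope f 0 ((starRingEnd ℂ) z) = (starRingEnd ℂ) (dslope f 0 z) := by
        apply cont_ext _ _ (hd.continuous.comp Complex.continuous_conj)
          (Complex.continuous_conj.comp hd.continuous)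
        intro z hz
        have hz0 : (starRingEnd ℂ) z ≠ 0 := by simpa using hz
        have h1 := hr z
        rw [hfz, hfz z, map_mul] at h1
        exact mul_left_cancel₀ hz0 h1
      rw [eval_mul, eval_mul, eval_X, eval_X, hreal hr', map_mul]

/-- closure under differentiation -/
lemma SymEntire.deriv {f : ℂ → ℂ} (F : SymEntire f) : SymEntire (deriv f) where
  diff := by
    rw [← differentiableOn_univ]
    exact F.diff.differentiableOn.deriv isOpen_univ
  symm := by
    rcases F.symm with h | h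
    · right
      intro z
      have h1 : f = fun z => f (-z) := by funext z; rw [h]
      have h2 : _root_.deriv (fun z => f (-z)) z = -_root_.deriv f (-z) := deriv_comp_neg f z
      rw [← h1] at h2
      rw [h2, neg_neg]
    · left
      intro z
      have h1 : (fun z => -f z) = fun z => f (-z) := by funext z; rw [h]
      have h2 : _root_.deriv (fun z => f (-z)) z = -_root_.deriv f (-z) := deriv_comp_neg f z
      rw [← h1] at h2
      have h3 : _root_.deriv (fun z => -f z) z = -_root_.deriv f z := by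
        simp
      rw [h3] at h2
      exact (neg_injective h2).symm
  growth := by
    obtain ⟨A, B, ρ, hA, hB, hρ0, hρ, hgrow⟩ := F.growth
    refine ⟨A * Real.exp (4 * B), 4 * B, ρ, by positivity, by positivity, hρ0, hρ, fun z => ?_⟩
    have hb : ∀ u ∈ sphere z 1, ‖f u‖ ≤ A * Real.exp (4 * B) * Real.exp (4 * B * ‖z‖ ^ ρ) := by
      intro u hu
      refine (hgrow u).trans ?_
      rw [mul_assoc, ← Real.exp_add]
      gcongr
      have h1 : ‖u‖ ≤ ‖z‖ + 1 := by
        have h2 : ‖u - z‖ = 1 := by simpa [dist_eq_norm] using hu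
        calc ‖u‖ = ‖z + (u - z)‖ := by congr 1; ring
          _ ≤ ‖z‖ + ‖u - z‖ := norm_add_le _ _
          _ = _ := by rw [h2]
      have h2 : ‖u‖ ^ ρ ≤ 4 * (1 + ‖z‖ ^ ρ) := by
        have h4 : (2:ℝ) ^ ρ ≤ 4 := by
          calc (2:ℝ) ^ ρ ≤ (2:ℝ) ^ (2:ℝ) := Real.rpow_le_rpow_of_exponent_le (by norm_num) hρ.le
            _ = 4 := by norm_num
        rcases le_total ‖z‖ 1 with h3 | h3
        · calc ‖u‖ ^ ρ ≤ 2 ^ ρ := by
                apply Real.rpow_le_rpow (norm_nonneg _) _ hρ0; linarith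
            _ ≤ 4 := h4
            _ ≤ _ := by
                have : 0 ≤ ‖z‖ ^ ρ := by positivity
                linarith
        · calc ‖u‖ ^ ρ ≤ (2 * ‖z‖) ^ ρ := by
                apply Real.rpow_le_rpow (norm_nonneg _) _ hρ0; linarith
            _ = 2 ^ ρ * ‖z‖ ^ ρ := Real.mul_rpow (by norm_num) (norm_nonneg _)
            _ ≤ 4 * ‖z‖ ^ ρ := by gcongr
            _ ≤ _ := by linarith
      calc B * ‖u‖ ^ ρ ≤ B * (4 * (1 + ‖z‖ ^ ρ)) := by gcongr
        _ = _ := by ring
    have h := Complex.norm_deriv_le_of_forall_mem_sphere_norm_le (c := z) (R := 1) (f := f)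
      (by norm_num) F.diff.diffContOnCl hb
    rwa [div_one] at h

lemma SymEntire.iteratedDeriv {f : ℂ → ℂ} (F : SymEntire f) (m : ℕ) :
    SymEntire (iteratedDeriv m f) := by
  induction m with
  | zero => rwa [iteratedDeriv_zero]
  | succ m ih => rw [iteratedDeriv_succ]; exact ih.deriv

/-! ### Gauss-Lucas -/

lemma gl_step {K : Set ℂ} (hK : Convex ℝ K) {P : ℂ[X]} (hP : ∀ z, P.eval z = 0 → z ∈ K)
    (hd : derivative P ≠ 0) : ∀ z, (derivative P).eval z = 0 → z ∈ K := by
  intro z hz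
  have hdeg : 0 < P.degree := by
    by_contra h
    push Not at h
    have := eq_C_of_degree_le_zero h
    rw [this] at hd
    simp at hd
  have h1 := rootSet_derivative_subset_convexHull_rootSet hdeg
  have hP0 : P ≠ 0 := by rintro rfl; simp at hd
  have hz' : z ∈ (derivative P).rootSet ℂ := by
    rw [mem_rootSet, coe_aeval_eq_eval]
    exact ⟨hd, hz⟩
  have h2 := h1 hz'
  have h3 : P.rootSet ℂ ⊆ K := by
    intro w hw
    rw [mem_rootSet, coe_aeval_eq_eval] at hw
    exact hP w hw.2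
  exact convexHull_min h3 hK h2

lemma gl_iter {K : Set ℂ} (hK : Convex ℝ K) (m : ℕ) : ∀ {P : ℂ[X]}, (∀ z, P.eval z = 0 → z ∈ K) →
    (derivative^[m] P ≠ 0) → ∀ z, (derivative^[m] P).eval z = 0 → z ∈ K := by
  induction m with
  | zero => intro P hP _ z hz; exact hP z hz
  | succ m ih =>
    intro P hP hd z hz
    rw [Function.iterate_succ, Function.comp_apply] at hd hz
    apply ih _ hd z hz
    apply gl_step hK hP
    intro h0
    rw [h0] at hd
    apply hd
    simp

lemma iteratedDeriv_poly (P : ℂ[X]) (m : ℕ) :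
    iteratedDeriv m (fun z => P.eval z) = fun z => (derivative^[m] P).eval z := by
  induction m with
  | zero => rw [iteratedDeriv_zero]; rfl
  | succ m ih =>
    rw [iteratedDeriv_succ, ih]
    funext z
    rw [Polynomial.deriv, Function.iterate_succ_apply']

/-- derivatives of close functions are close -/
lemma iteratedDeriv_close {f : ℂ → ℂ} (hf : Differentiable ℂ f) (m : ℕ) (R δ : ℝ) (hδ : 0 < δ) :
    ∃ δ' : ℝ, 0 < δ' ∧ ∀ g : ℂ → ℂ, Differentiable ℂ g → (∀ z, ‖z‖ ≤ R + m → ‖f z - g z‖ ≤ δ') →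
      ∀ z, ‖z‖ ≤ R → ‖iteratedDeriv m f z - iteratedDeriv m g z‖ ≤ δ := by
  refine ⟨δ, hδ, ?_⟩
  induction m generalizing f with
  | zero =>
    intro g hg h z hz
    rw [iteratedDeriv_zero, iteratedDeriv_zero]
    exact h z (by simpa using hz)
  | succ m ih =>
    intro g hg h z hz
    rw [iteratedDeriv_succ', iteratedDeriv_succ']
    have hdf : Differentiable ℂ (deriv f) := by
      rw [← differentiableOn_univ]
      exact hf.differentiableOn.deriv isOpen_univ
    have hdg : Differentiable ℂ (deriv g) := by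
      rw [← differentiableOn_univ]
      exact hg.differentiableOn.deriv isOpen_univ
    apply ih hdf (deriv g) hdg _ z hz
    intro u hu
    have hb : ∀ v ∈ sphere u 1, ‖f v - g v‖ ≤ δ := by
      intro v hv
      apply h
      have h2 : ‖v - u‖ = 1 := by simpa [dist_eq_norm] using hv
      calc ‖v‖ = ‖u + (v - u)‖ := by congr 1; ring
        _ ≤ ‖u‖ + ‖v - u‖ := norm_add_le _ _
        _ ≤ R + m + 1 := by rw [h2]; linarith
        _ = _ := by push_cast; ring
    have h3 := Complex.norm_deriv_le_of_forall_mem_sphere_norm_le (c := u) (R := 1)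
      (f := fun v => f v - g v) (by norm_num) ((hf.sub hg).diffContOnCl) hb
    rw [div_one] at h3
    have h4 : deriv (fun v => f v - g v) u = deriv f u - deriv g u :=
      deriv_fun_sub (hf u) (hg u)
    rw [h4] at h3
    exact h3

/-- **Gauss-Lucas** for even or odd entire functions of order less than two. -/
theorem SymEntire.gauss_lucas {f : ℂ → ℂ} (F : SymEntire f) {K : Set ℂ} (hKc : IsClosed K)
    (hK : Convex ℝ K) (hzero : ∀ z, f z = 0 → z ∈ K) (m : ℕ)
    (hne : ∃ z, _root_.iteratedDeriv m f z ≠ 0) :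
    ∀ z, _root_.iteratedDeriv m f z = 0 → z ∈ K := by
  intro z0 hz0
  by_contra hzK
  set G := _root_.iteratedDeriv m f with hG
  have hGd : Differentiable ℂ G := (F.iteratedDeriv m).diff
  have hf0 : ∃ z, f z ≠ 0 := by
    by_contra h
    push Not at h
    have : f = fun _ => 0 := funext h
    obtain ⟨z, hz⟩ := hne
    apply hz
    rw [hG, this]
    simp
  -- an isolating circle
  have hev : ∀ᶠ z in 𝓝[≠] z0, G z ≠ 0 := by
    rcases (hGd.analyticAt z0).eventually_eq_zero_or_eventually_ne_zero with h | h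
    · exfalso
      have hGa : AnalyticOnNhd ℂ G univ := fun z _ => hGd.analyticAt z
      have := hGa.eqOn_zero_of_preconnected_of_eventuallyEq_zero isPreconnected_univ
        (mem_univ z0) h
      obtain ⟨z, hz⟩ := hne
      exact hz (this (mem_univ z))
    · exact h
  have hopen : ∀ᶠ z in 𝓝 z0, z ∈ Kᶜ := hKc.isOpen_compl.mem_nhds hzK
  rw [eventually_nhdsWithin_iff] at hev
  obtain ⟨r, hr, hball⟩ := Metric.eventually_nhds_iff.mp (hev.and hopen)
  set ρ := r / 2 with hρ
  have hρ0 : 0 < ρ := by positivity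
  have hin : ∀ z ∈ closedBall z0 ρ, dist z z0 < r := by
    intro z hz
    have : dist z z0 ≤ ρ := hz
    linarith
  have hsph : ∀ z ∈ sphere z0 ρ, G z ≠ 0 := by
    intro z hz
    have h1 : dist z z0 = ρ := hz
    apply (hball (hin z (sphere_subset_closedBall hz))).1
    intro h2
    rw [h2, dist_self] at h1
    linarith
  have hcomp : IsCompact (sphere z0 ρ) := isCompact_sphere z0 ρ
  have hnemp : (sphere z0 ρ).Nonempty := (NormedSpace.sphere_nonempty).mpr hρ0.le
  obtain ⟨u, hu, hmin⟩ := hcomp.exists_isMinOn hnemp hGd.continuous.norm.continuousOn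
  set c := ‖G u‖ with hc
  have hc0 : 0 < c := norm_pos_iff.mpr (hsph u hu)
  -- the approximation
  set R := ‖z0‖ + ρ with hR
  obtain ⟨δ', hδ', hclose⟩ := iteratedDeriv_close F.diff m R (c / 3) (by positivity)
  obtain ⟨p, hp, hroot, happ, -⟩ := F.approx hf0 (R + m) hδ'
  have hpd : Differentiable ℂ (fun z => p.eval z) := p.differentiable
  have hcl := hclose (fun z => p.eval z) hpd happ
  rw [iteratedDeriv_poly] at hcl
  simp only at hcl
  set q := derivative^[m] p with hq
  have hnorm : ∀ z ∈ closedBall z0 ρ, ‖z‖ ≤ R := by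
    intro z hz
    have h1 : ‖z - z0‖ ≤ ρ := by simpa [dist_eq_norm] using hz
    calc ‖z‖ = ‖z0 + (z - z0)‖ := by congr 1; ring
      _ ≤ ‖z0‖ + ‖z - z0‖ := norm_add_le _ _
      _ ≤ _ := by rw [hR]; linarith
  have hqs : ∀ z ∈ sphere z0 ρ, 2 * c / 3 ≤ ‖q.eval z‖ := by
    intro z hz
    have h1 := hcl z (hnorm z (sphere_subset_closedBall hz))
    have h2 : c ≤ ‖G z‖ := hmin hz
    have h3 := norm_sub_norm_le (G z) (q.eval z)
    linarith
  have hq0 : q ≠ 0 := by
    intro h0
    have := hqs u hu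
    rw [h0] at this
    simp at this
    linarith
  have hqK := gl_iter hK m (fun z hz => hzero z (hroot z hz)) hq0
  have hqne : ∀ z ∈ closedBall z0 ρ, q.eval z ≠ 0 := by
    intro z hz h0
    exact (hball (hin z hz)).2 (hqK z h0)
  -- minimum modulus
  have hmod : ‖(q.eval z0)⁻¹‖ ≤ (2 * c / 3)⁻¹ := by
    apply Complex.norm_le_of_forall_mem_frontier_norm_le (U := ball z0 ρ) isBounded_ball
      (f := fun z => (q.eval z)⁻¹)
    · apply DifferentiableOn.diffContOnCl
      rw [closure_ball z0 hρ0.ne']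
      exact q.differentiable.differentiableOn.inv hqne
    · intro z hz
      rw [frontier_ball z0 hρ0.ne'] at hz
      rw [norm_inv]
      exact inv_anti₀ (by positivity) (hqs z hz)
    · exact subset_closure (mem_ball_self hρ0)
  rw [norm_inv] at hmod
  have hqz : 0 < ‖q.eval z0‖ := norm_pos_iff.mpr (hqne z0 (mem_closedBall_self hρ0.le))
  have h1 : 2 * c / 3 ≤ ‖q.eval z0‖ := (inv_le_inv₀ hqz (by positivity)).mp hmod
  have h2 := hcl z0 (hnorm z0 (mem_closedBall_self hρ0.le))
  rw [← hG, hz0, zero_sub, norm_neg] at h2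
  linarith

end Pool.Agent.H6
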