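import Mathlib
import Pool.Agent.H6.HeatSimple
import Pool.Agent.H5.GammaV

/-!
Saddle points of `M^s Γ(s) L(s) exp (-z^2/4t + p z)`, `s = 1 + z + i x`, when the logarithmic
derivative of `L` is small compared with `1/t`.
-/

open Real MeasureTheory Set Filter Topology

namespace Pool.Agent.H6

lemma psi_lip {s s' : ℂ} (hs : 1 ≤ s.re) (hs' : 1 ≤ s'.re) :
    ‖psi s - psi s'‖ ≤ 5 / 3 * ‖s - s'‖ := by
  have h := ((tendsto_psiSeq hs).sub (tendsto_psiSeq hs')).norm
  refine le_of_tendsto' h (fun n => ?_)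
  have e : psiSeq s n - psiSeq s' n =
      ∑ j ∈ Finset.range (n + 1), (1 / (s' + j) - 1 / (s + j)) := by
    unfold psiSeq
    rw [Finset.sum_sub_distrib]
    ring
  rw [e]
  have hb : ∀ j ∈ Finset.range (n + 1), ‖1 / (s' + j) - 1 / (s + j)‖ ≤
      ‖s - s'‖ * (1 / ((j : ℝ) + 1) ^ 2) := by
    intro j _
    have hj : (0:ℝ) ≤ j := Nat.cast_nonneg j
    have h1 : (j : ℝ) + 1 ≤ ‖s + j‖ := norm_ge_of_re (by simp; linarith)
    have h2 : (j : ℝ) + 1 ≤ ‖s' + j‖ := norm_ge_of_re (by simp; linarith)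
    have h1' : s + j ≠ 0 := by
      intro h; rw [h] at h1; simp at h1; linarith
    have h2' : s' + j ≠ 0 := by
      intro h; rw [h] at h2; simp at h2; linarith
    have e2 : 1 / (s' + j) - 1 / (s + j) = (s - s') / ((s' + j) * (s + j)) := by
      field_simp
      ring
    rw [e2, norm_div, norm_mul, mul_one_div]
    apply div_le_div_of_nonneg_left (norm_nonneg _) (by positivity)
    nlinarith
  refine (Finset.sum_le_sum hb |> (norm_sum_le _ _).trans).trans ?_
  rw [← Finset.mul_sum]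
  have h3 : ∑ j ∈ Finset.range (n + 1), 1 / ((j : ℝ) + 1) ^ 2 ≤ 5 / 3 :=
    (summable_one_div_sq_shift.sum_le_tsum _ (fun j _ => by positivity)).trans
      tsum_one_div_sq_shift_le
  have := norm_nonneg (s - s')
  nlinarith

/-- the completed function divided by the archimedean factor -/
noncomputable def Lt (M : ℝ) (Λ : ℂ → ℂ) (s : ℂ) : ℂ :=
  Λ s / ((M : ℂ) ^ s * Complex.Gamma s)

/-- The function `L` is well-behaved in a window around height `x`. -/
structure GoodPt (M a W x : ℝ) (Λ D1 : ℂ → ℂ) : Prop where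
  shift : ∀ s : ℂ, 1 + a ≤ s.re → |s.im - x| ≤ 1 → ∀ u : ℝ, 1 + a ≤ s.re + u →
    ∃ R : ℂ, ‖R‖ ≤ W * u ^ 2 ∧ Lt M Λ (s + u) = Lt M Λ s * Complex.exp (u * D1 s + R)
  D1_le : ∀ s : ℂ, 1 + a ≤ s.re → |s.im - x| ≤ 1 → ‖D1 s‖ ≤ W
  D1_lip : ∀ s s' : ℂ, 1 + a ≤ s.re → |s.im - x| ≤ 1 → 1 + a ≤ s'.re → |s'.im - x| ≤ 1 →
    ‖D1 s - D1 s'‖ ≤ W * ‖s - s'‖
  low : ∀ s : ℂ, 1 + a ≤ s.re → |s.im - x| ≤ 1 → Real.exp (-W) ≤ ‖Lt M Λ s‖
  up : ∀ s : ℂ, 1 ≤ s.re → |s.im - x| ≤ 1 → ‖Lt M Λ s‖ ≤ Real.exp W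

/-- the point `1 + z + i x` -/
noncomputable def ptz (x : ℝ) (z : ℂ) : ℂ := 1 + z + x * Complex.I

lemma ptz_re (x : ℝ) (z : ℂ) : (ptz x z).re = 1 + z.re := by simp [ptz]

lemma ptz_im (x : ℝ) (z : ℂ) : (ptz x z).im = z.im + x := by simp [ptz]

lemma ptz_eq_pt (x c y : ℝ) : ptz x (c + y * Complex.I) = pt (x + y) c := by
  simp only [ptz, pt]; push_cast; ring

/-- the region of the saddle point -/
def sreg (γ : ℝ) : Set ℂ := {z | γ ≤ z.re ∧ |z.im| ≤ 1}

lemma isClosed_sreg (γ : ℝ) : IsClosed (sreg γ) := by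
  have h1 : IsClosed {l : ℂ | γ ≤ l.re} := isClosed_le continuous_const Complex.continuous_re
  have h3 : IsClosed {l : ℂ | |l.im| ≤ 1} :=
    isClosed_le (continuous_abs.comp Complex.continuous_im) continuous_const
  have : sreg γ = {l : ℂ | γ ≤ l.re} ∩ {l : ℂ | |l.im| ≤ 1} := by
    ext l; simp [sreg]
  rw [this]
  exact h1.inter h3

/-- lower bound of the size of the points in the region -/
lemma norm_pt_le_two_ptz (x : ℝ) {z : ℂ} (hz : 0 ≤ z.re) (hz1 : |z.im| ≤ 1) :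
    ‖pt x 0‖ ≤ 2 * ‖ptz x z‖ := by
  have h1 : ‖pt x 0‖ ≤ ‖pt (x + z.im) 0‖ + 1 := by
    have e : pt x 0 = pt (x + z.im) 0 + -(z.im * Complex.I) := by
      simp only [pt]; push_cast; ring
    rw [e]
    refine (norm_add_le _ _).trans ?_
    have : ‖-((z.im : ℂ) * Complex.I)‖ = |z.im| := by
      rw [norm_neg, norm_mul, Complex.norm_I, mul_one, Complex.norm_real, Real.norm_eq_abs]
    rw [this]
    linarith
  have h2 : ‖pt (x + z.im) 0‖ ≤ ‖ptz x z‖ := by
    have e : ptz x z = pt (x + z.im) z.re := by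
      conv_lhs => rw [← Complex.re_add_im z]
      exact ptz_eq_pt x z.re z.im
    rw [e]
    exact norm_pt_le hz
  have h3 : 1 ≤ ‖ptz x z‖ := by
    have := Complex.re_le_norm (ptz x z)
    rw [ptz_re] at this
    linarith
  linarith

theorem exists_saddle {M a W x t p γ : ℝ} {Λ D1 : ℂ → ℂ} (hM : 0 < M) (G : GoodPt M a W x Λ D1)
    (ht : 0 < t) (ht8 : t ≤ 1 / 40) (hγ : 0 < γ) (haγ : a ≤ γ)
    (hW : 2 * t * W ≤ γ / 2) (hW8 : 2 * t * W ≤ 1 / 8)
    (hp : -(γ / (2 * t)) ≤ p) (h0 : 3 * γ ≤ 2 * t * (Real.log (M * ‖pt x 0‖) - 2)) :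
    ∃ z : ℂ, γ ≤ z.re ∧ |z.im| ≤ 1 ∧
      z / (2 * t) = p + Real.log M + psi (ptz x z) + D1 (ptz x z) := by
  set T : ℂ → ℂ := fun z => 2 * t * (p + Real.log M + psi (ptz x z) + D1 (ptz x z)) with hT
  have hreg : ∀ z ∈ sreg γ, 1 + a ≤ (ptz x z).re ∧ |(ptz x z).im - x| ≤ 1 ∧ 1 ≤ (ptz x z).re := by
    intro z hz
    refine ⟨?_, ?_, ?_⟩
    · rw [ptz_re]; have := hz.1; linarith
    · rw [ptz_im]; simpa using hz.2
    · rw [ptz_re]; have := hz.1; linarith
  have hpi := Real.pi_lt_d2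
  have hn1 := one_le_norm_pt x
  have hW0 : 0 ≤ W := (norm_nonneg _).trans (G.D1_le (ptz x γ) (by rw [ptz_re]; simp; linarith)
    (by rw [ptz_im]; simp))
  have hmaps : MapsTo T (sreg γ) (sreg γ) := by
    intro z hz
    obtain ⟨h1, h2, h3⟩ := hreg z hz
    have hD := G.D1_le _ h1 h2
    have e : T z = ((2 * t : ℝ) : ℂ) * (((p + Real.log M : ℝ) : ℂ) + psi (ptz x z) +
        D1 (ptz x z)) := by
      simp only [hT]; push_cast; ring
    refine ⟨?_, ?_⟩
    · rw [e, Complex.re_ofReal_mul, Complex.add_re, Complex.add_re, Complex.ofReal_re]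
      have h4 := (abs_le.mp (abs_re_psi_sub_log_le h3)).1
      have h5 := (abs_le.mp ((Complex.abs_re_le_norm (D1 (ptz x z))).trans hD)).1
      have h6 := norm_pt_le_two_ptz x (z := z) (hγ.le.trans hz.1) hz.2
      have h7 : Real.log ‖pt x 0‖ ≤ Real.log 2 + Real.log ‖ptz x z‖ := by
        have hpos : 0 < ‖ptz x z‖ := by
          have := Complex.re_le_norm (ptz x z)
          linarith
        rw [← Real.log_mul (by norm_num) hpos.ne']
        exact Real.log_le_log (by linarith) h6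
      have h8 : Real.log 2 < 0.6931471808 := Real.log_two_lt_d9
      have hlog : Real.log (M * ‖pt x 0‖) = Real.log M + Real.log ‖pt x 0‖ :=
        Real.log_mul hM.ne' (by linarith)
      rw [hlog] at h0
      have h9 : -(γ / (2 * t)) * (2 * t) ≤ p * (2 * t) := by gcongr
      have h10 : -(γ / (2 * t)) * (2 * t) = -γ := by field_simp
      rw [h10] at h9
      have h11 : Real.log M + Real.log ‖pt x 0‖ - 2 ≤
        Real.log M + (psi (ptz x z)).re := by linarith
      have h12 : 2 * t * (Real.log M + Real.log ‖pt x 0‖ - 2) ≤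
        2 * t * (Real.log M + (psi (ptz x z)).re) := by gcongr
      have h13 : 2 * t * (-W) ≤ 2 * t * (D1 (ptz x z)).re := by gcongr
      nlinarith
    · rw [e, Complex.im_ofReal_mul, Complex.add_im, Complex.add_im, Complex.ofReal_im, zero_add]
      have h4 := abs_im_psi_le h3
      have h5 := (Complex.abs_im_le_norm (D1 (ptz x z))).trans hD
      rw [abs_mul, abs_of_pos (by positivity : 0 < 2 * t)]
      calc 2 * t * |(psi (ptz x z)).im + (D1 (ptz x z)).im|
          ≤ 2 * t * (π / 2 + W) := by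
            gcongr
            exact (abs_add_le _ _).trans (add_le_add h4 h5)
        _ = t * π + 2 * t * W := by ring
        _ ≤ 1 := by nlinarith
  have hlip : LipschitzOnWith (1 / 2 : NNReal) T (sreg γ) := by
    apply LipschitzOnWith.of_dist_le_mul
    intro z hz z' hz'
    obtain ⟨h1, h2, h3⟩ := hreg z hz
    obtain ⟨h1', h2', h3'⟩ := hreg z' hz'
    have e : T z - T z' = ((2 * t : ℝ) : ℂ) * ((psi (ptz x z) - psi (ptz x z')) +
        (D1 (ptz x z) - D1 (ptz x z'))) := by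
      simp only [hT]; push_cast; ring
    rw [dist_eq_norm, dist_eq_norm, e, norm_mul, Complex.norm_real, Real.norm_eq_abs,
      abs_of_pos (by positivity : 0 < 2 * t)]
    have h4 := psi_lip h3 h3'
    have h5 := G.D1_lip _ _ h1 h2 h1' h2'
    have e2 : ptz x z - ptz x z' = z - z' := by simp only [ptz]; ring
    rw [e2] at h4 h5
    push_cast
    calc 2 * t * ‖(psi (ptz x z) - psi (ptz x z')) + (D1 (ptz x z) - D1 (ptz x z'))‖
        ≤ 2 * t * (5 / 3 * ‖z - z'‖ + W * ‖z - z'‖) := by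
          gcongr
          exact (norm_add_le _ _).trans (add_le_add h4 h5)
      _ = (10 / 3 * t + 2 * t * W) * ‖z - z'‖ := by ring
      _ ≤ 1 / 2 * ‖z - z'‖ := by
          gcongr
          linarith
  have hcontr : ContractingWith (1 / 2 : NNReal) (hmaps.restrict T (sreg γ) (sreg γ)) := by
    constructor
    · rw [← NNReal.coe_lt_coe]; push_cast; norm_num
    · exact hlip.mapsToRestrict hmaps
  have h0' : (γ : ℂ) ∈ sreg γ := by
    refine ⟨by simp, by simp⟩
  obtain ⟨z, hz, hfix, -⟩ := ContractingWith.exists_fixedPoint' (isClosed_sreg γ).isComplete hmaps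
    hcontr h0' (edist_ne_top _ _)
  refine ⟨z, hz.1, hz.2, ?_⟩
  have h1 : T z = z := hfix
  have ht' : (t : ℂ) ≠ 0 := by exact_mod_cast ht.ne'
  rw [div_eq_iff (by simpa using ht')]
  conv_lhs => rw [← h1]
  simp only [hT]
  ring

end Pool.Agent.H6
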