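import Mathlib
import Pool.Agent.H6.SadA
import Pool.Agent.H6.HadLite

/-!
From an upper bound and non-vanishing in a window to the control of the logarithmic derivative
(Borel-Carathéodory).
-/

open Real MeasureTheory Set Filter Topology Metric

namespace Pool.Agent.H6

lemma Lt_diff {M : ℝ} (hM : 0 < M) {Λ : ℂ → ℂ} (hΛ : Differentiable ℂ Λ) :
    Differentiable ℂ (Lt M Λ) := by
  have hM' : (M : ℂ) ≠ 0 := by exact_mod_cast hM.ne'
  have e : Lt M Λ = fun s => Λ s * ((M : ℂ) ^ (-s)) * (Complex.Gamma s)⁻¹ := by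
    funext s
    unfold Lt
    rw [Complex.cpow_neg, div_eq_mul_inv, mul_inv, mul_assoc]
  rw [e]
  apply (hΛ.mul _).mul Complex.differentiable_one_div_Gamma
  exact differentiable_neg.const_cpow (Or.inl hM')

lemma Lt_ne_zero {M : ℝ} (hM : 0 < M) {Λ : ℂ → ℂ} {s : ℂ} (hs : 0 < s.re) (h : Λ s ≠ 0) :
    Lt M Λ s ≠ 0 := by
  have hM' : (M : ℂ) ≠ 0 := by exact_mod_cast hM.ne'
  unfold Lt
  apply div_ne_zero h
  apply mul_ne_zero
  · rw [Complex.cpow_ne_zero_iff]; left; exact hM'
  · exact Complex.Gamma_ne_zero_of_re_pos hs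

/-- the logarithmic derivative -/
noncomputable def Dl (f : ℂ → ℂ) (s : ℂ) : ℂ := deriv f s / f s

/-- Borel-Carathéodory for the logarithm and its derivative -/
lemma bc_local {f : ℂ → ℂ} (hf : Differentiable ℂ f) {η A z0 : ℝ} {s : ℂ} (hη : 0 < η)
    (hη1 : η ≤ 1) (hA : 0 < A) (hz0 : 0 < z0)
    (hne : ∀ z ∈ ball (s + 1) (1 + 3 / 4 * η), f z ≠ 0)
    (hup : ∀ z ∈ ball (s + 1) (1 + 3 / 4 * η), ‖f z‖ ≤ z0 * Real.exp A)
    (hlow : z0 ≤ ‖f (s + 1)‖) :
    ‖Dl f s‖ ≤ 24 * A / η ^ 2 ∧ z0 * Real.exp (-(12 * A / η)) ≤ ‖f s‖ := by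
  set h : ℂ → ℂ := fun z => f (s + 1 + z) with hh
  have hhd : Differentiable ℂ h := hf.comp (by fun_prop)
  have hR : 0 < 1 + 3 / 4 * η := by positivity
  have hball : ∀ z ∈ ball (0:ℂ) (1 + 3 / 4 * η), s + 1 + z ∈ ball (s + 1) (1 + 3 / 4 * η) := by
    intro z hz
    rw [mem_ball, dist_eq_norm] at hz ⊢
    simpa using hz
  obtain ⟨l, hl0, hld, hle⟩ := exists_log_ball hhd hR (fun z hz => hne _ (hball z hz))
  have h0 : h 0 = f (s + 1) := by simp [hh]
  have hf0 : 0 < ‖f (s + 1)‖ := lt_of_lt_of_le hz0 hlow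
  have hre : MapsTo l (ball 0 (1 + 3 / 4 * η)) {z | z.re ≤ A} := by
    intro z hz
    have h1 := hle z hz
    have h2 := hup _ (hball z hz)
    have h3 : ‖h z‖ = ‖f (s + 1)‖ * Real.exp (l z).re := by
      rw [h1, norm_mul, Complex.norm_exp, h0]
    have h4 : ‖f (s + 1)‖ * Real.exp (l z).re ≤ ‖f (s + 1)‖ * Real.exp A := by
      rw [← h3]
      refine h2.trans ?_
      gcongr
    have h5 := le_of_mul_le_mul_left h4 hf0
    exact Real.exp_le_exp.mp h5
  have hlb : ∀ z : ℂ, ‖z‖ ≤ 1 + η / 2 → ‖l z‖ ≤ 12 * A / η := by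
    intro z hz
    have hzb : z ∈ ball (0:ℂ) (1 + 3 / 4 * η) := by
      rw [mem_ball_zero_iff]; linarith
    refine (Complex.borelCaratheodory_zero hA hld hre hR hzb hl0).trans ?_
    have h1 : η / 4 ≤ 1 + 3 / 4 * η - ‖z‖ := by linarith
    have h2 : ‖z‖ ≤ 3 / 2 := by linarith
    calc 2 * A * ‖z‖ / (1 + 3 / 4 * η - ‖z‖) ≤ 2 * A * (3 / 2) / (η / 4) := by gcongr
      _ = 12 * A / η := by field_simp; norm_num
  have hm1 : (-1 : ℂ) ∈ ball (0:ℂ) (1 + 3 / 4 * η) := by
    rw [mem_ball_zero_iff, norm_neg, norm_one]; linarith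
  have hsub : closedBall (-1:ℂ) (η / 2) ⊆ ball (0:ℂ) (1 + 3 / 4 * η) := by
    intro z hz
    rw [mem_closedBall, dist_eq_norm] at hz
    rw [mem_ball_zero_iff]
    have : ‖z‖ ≤ ‖z - -1‖ + ‖(-1:ℂ)‖ := by
      have := norm_add_le (z - -1) (-1)
      simpa using this
    rw [norm_neg, norm_one] at this
    linarith
  have hcau : ‖deriv l (-1)‖ ≤ 12 * A / η / (η / 2) := by
    apply Complex.norm_deriv_le_of_forall_mem_sphere_norm_le (by positivity)
    · apply DifferentiableOn.diffContOnCl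
      rw [closure_ball _ (by positivity)]
      exact hld.mono hsub
    · intro z hz
      apply hlb
      have hz' : ‖z - -1‖ = η / 2 := by
        rw [mem_sphere, dist_eq_norm] at hz; exact hz
      have : ‖z‖ ≤ ‖z - -1‖ + ‖(-1:ℂ)‖ := by
        have := norm_add_le (z - -1) (-1)
        simpa using this
      rw [norm_neg, norm_one] at this
      linarith
  have hs : s + 1 + (-1) = s := by ring
  have hderiv : Dl f s = deriv l (-1) := by
    have hopen : ball (0:ℂ) (1 + 3 / 4 * η) ∈ 𝓝 (-1:ℂ) := isOpen_ball.mem_nhds hm1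
    have h1 : HasDerivAt l (deriv l (-1)) (-1) := (hld.differentiableAt hopen).hasDerivAt
    have h2 : HasDerivAt (fun z => h 0 * Complex.exp (l z))
        (h 0 * (Complex.exp (l (-1)) * deriv l (-1))) (-1) := h1.cexp.const_mul _
    have h3 : HasDerivAt h (h 0 * (Complex.exp (l (-1)) * deriv l (-1))) (-1) := by
      apply h2.congr_of_eventuallyEq
      filter_upwards [hopen] with z hz
      exact hle z hz
    have h4 : HasDerivAt h (deriv f s) (-1) := by
      have h5 : HasDerivAt (fun z : ℂ => s + 1 + z) 1 (-1) := (hasDerivAt_id _).const_add _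
      have h6 : HasDerivAt f (deriv f s) (s + 1 + (-1)) := by rw [hs]; exact (hf s).hasDerivAt
      have := h6.comp (-1 : ℂ) h5
      simpa [hh, Function.comp_def] using this
    have h5 := h3.unique h4
    have h6 : f s = h 0 * Complex.exp (l (-1)) := by
      rw [← hle _ hm1, hh]
      simp only
      rw [hs]
    have h7 : f s ≠ 0 := by
      have := hne _ (hball _ hm1)
      rwa [hs] at this
    unfold Dl
    rw [← h5, div_eq_iff h7, h6]
    ring
  refine ⟨?_, ?_⟩
  · rw [hderiv]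
    refine hcau.trans (le_of_eq ?_)
    field_simp
    norm_num
  · have h6 : f s = h 0 * Complex.exp (l (-1)) := by
      rw [← hle _ hm1, hh]
      simp only
      rw [hs]
    rw [h6, norm_mul, Complex.norm_exp, h0]
    have h7 := hlb (-1) (by rw [norm_neg, norm_one]; linarith)
    have h8 := (abs_le.mp ((Complex.abs_re_le_norm (l (-1))).trans h7)).1
    gcongr

/-- the exponential shift formula along horizontal segments -/
lemma shift_of_Dl {f : ℂ → ℂ} (hf : Differentiable ℂ f) {σ W : ℝ} {s : ℂ}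
    (hs : σ ≤ s.re) (hne : ∀ z : ℂ, σ ≤ z.re → z.im = s.im → f z ≠ 0)
    (hlip : ∀ z : ℂ, σ ≤ z.re → z.im = s.im → ‖Dl f z - Dl f s‖ ≤ W * ‖z - s‖)
    (u : ℝ) (hu : σ ≤ s.re + u) :
    ∃ R : ℂ, ‖R‖ ≤ W * u ^ 2 ∧ f (s + u) = f s * Complex.exp (u * Dl f s + R) := by
  set τ0 : ℝ := σ - s.re with hτ0
  set g : ℝ → ℂ := fun τ => Dl f (s + (max τ τ0 : ℝ)) with hg
  have hdf : Differentiable ℂ (deriv f) := by
    intro z
    exact ((hf.differentiableOn.deriv isOpen_univ).differentiableAt (isOpen_univ.mem_nhds (mem_univ z)))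
  have hgc : Continuous g := by
    have h1 : Continuous (fun τ : ℝ => s + ((max τ τ0 : ℝ) : ℂ)) := by fun_prop
    apply Continuous.div (hdf.continuous.comp h1) (hf.continuous.comp h1)
    intro τ
    apply hne
    · simp only [Complex.add_re, Complex.ofReal_re]
      have := le_max_right τ τ0
      linarith
    · simp
  have hg0 : ∀ τ, τ0 ≤ τ → g τ = Dl f (s + τ) := by
    intro τ hτ
    simp only [hg]
    rw [max_eq_left hτ]
  set Φ : ℝ → ℂ := fun τ => ∫ σ in (0:ℝ)..τ, g σ with hΦ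
  have hΦd : ∀ τ, HasDerivAt Φ (g τ) τ := fun τ => (hgc.integral_hasStrictDerivAt 0 τ).hasDerivAt
  have hnef : ∀ τ : ℝ, τ0 ≤ τ → f (s + τ) ≠ 0 := by
    intro τ hτ
    apply hne
    · simp only [Complex.add_re, Complex.ofReal_re]; linarith
    · simp
  set G : ℝ → ℂ := fun τ => f (s + τ) * Complex.exp (-Φ τ) with hG
  have hGd : ∀ τ, τ0 ≤ τ → HasDerivAt G 0 τ := by
    intro τ hτ
    have h1 : HasDerivAt (fun τ : ℝ => s + (τ : ℂ)) 1 τ := (hasDerivAt_id τ).ofReal_comp.const_add s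
    have h2 : HasDerivAt (fun τ : ℝ => f (s + τ)) (deriv f (s + τ)) τ := by
      have := (hf (s + τ)).hasDerivAt.comp τ h1
      simpa [Function.comp_def] using this
    have h3 := h2.mul ((hΦd τ).neg.cexp)
    have e : deriv f (s + τ) * Complex.exp (-Φ τ) + f (s + τ) * (Complex.exp (-Φ τ) * -g τ) = 0 := by
      rw [hg0 τ hτ]
      unfold Dl
      have := hnef τ hτ
      field_simp
      ring
    simp only [Pi.neg_apply] at h3
    rw [e] at h3
    exact h3
  have hconst : G u = G 0 := by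
    have h1 := (convex_Ici τ0).norm_image_sub_le_of_norm_hasDerivWithin_le (f := G) (f' := fun _ => 0)
      (C := 0) (fun τ hτ => (hGd τ hτ).hasDerivWithinAt) (fun τ _ => by simp)
      (show (0:ℝ) ∈ Ici τ0 by rw [mem_Ici]; linarith)
      (show u ∈ Ici τ0 by rw [mem_Ici]; linarith)
    rw [zero_mul] at h1
    exact sub_eq_zero.mp (norm_le_zero_iff.mp h1)
  refine ⟨∫ σ in (0:ℝ)..u, (g σ - Dl f s), ?_, ?_⟩
  · have hb : ∀ τ ∈ uIoc 0 u, ‖g τ - Dl f s‖ ≤ W * |u| := by
      intro τ hτ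
      have h1 := uIoc_subset_uIcc hτ
      have hτu : |τ| ≤ |u| ∧ τ0 ≤ τ := by
        rcases le_total 0 u with h | h
        · rw [uIcc_of_le h] at h1
          rw [abs_of_nonneg h, abs_of_nonneg h1.1]
          exact ⟨h1.2, by linarith [h1.1]⟩
        · rw [uIcc_of_ge h] at h1
          rw [abs_of_nonpos h, abs_of_nonpos h1.2]
          exact ⟨by linarith [h1.1], by linarith [h1.1]⟩
      rw [hg0 τ hτu.2]
      have h2 := hlip (s + τ) (by simp only [Complex.add_re, Complex.ofReal_re]; linarith) (by simp)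
      have e : s + (τ : ℂ) - s = τ := by ring
      rw [e, Complex.norm_real, Real.norm_eq_abs] at h2
      have hW : 0 ≤ W ∨ τ = 0 := by
        by_contra hcon
        push Not at hcon
        have h3 : 0 < |τ| := abs_pos.mpr hcon.2
        have h4 := norm_nonneg (Dl f (s + τ) - Dl f s)
        nlinarith
      rcases hW with hW | hW
      · exact h2.trans (mul_le_mul_of_nonneg_left hτu.1 hW)
      · rw [hW] at h2 ⊢
        simp only [Complex.ofReal_zero, add_zero, sub_self, norm_zero]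
        rcases eq_or_ne u 0 with hu0 | hu0
        · simp [hu0]
        · -- W ≥ 0 from the point s + u
          have h5 := hlip (s + u) (by simp only [Complex.add_re, Complex.ofReal_re]; linarith)
            (by simp)
          have e5 : s + (u : ℂ) - s = u := by ring
          rw [e5, Complex.norm_real, Real.norm_eq_abs] at h5
          exact (norm_nonneg _).trans h5
    refine (intervalIntegral.norm_integral_le_of_norm_le_const hb).trans (le_of_eq ?_)
    rw [sub_zero]
    calc W * |u| * |u| = W * (|u| * |u|) := by ring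
      _ = W * u ^ 2 := by rw [abs_mul_abs_self]; ring
  · have h1 : (u : ℂ) * Dl f s + ∫ σ in (0:ℝ)..u, (g σ - Dl f s) = Φ u := by
      rw [intervalIntegral.integral_sub (hgc.intervalIntegrable 0 u)
        (continuous_const.intervalIntegrable 0 u), intervalIntegral.integral_const, sub_zero]
      simp only [hΦ, Complex.real_smul]
      ring
    rw [h1]
    have h2 : f (s + u) * Complex.exp (-Φ u) = f s := by
      have h3 := hconst
      simp only [hG, hΦ, intervalIntegral.integral_same] at h3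
      simpa using h3
    rw [← h2, mul_assoc, ← Complex.exp_add]
    simp

theorem goodPt_of_window {M : ℝ} {Λ : ℂ → ℂ} (hM : 0 < M) (hΛ : Differentiable ℂ Λ)
    {η B0 z0 x A : ℝ} (hη : 0 < η) (hη1 : η ≤ 1) (hB0 : 0 ≤ B0) (hz0 : 0 < z0) (hz01 : z0 ≤ 1)
    (hA : A = B0 - Real.log z0 + 1)
    (hup : ∀ s : ℂ, 1 ≤ s.re → |s.im - x| ≤ 3 → ‖Lt M Λ s‖ ≤ Real.exp B0)
    (hne : ∀ s : ℂ, 1 + η ≤ s.re → |s.im - x| ≤ 3 → Λ s ≠ 0)
    (hlow : ∀ s : ℂ, 2 ≤ s.re → z0 ≤ ‖Lt M Λ s‖) :
    GoodPt M (2 * η) (96 * A / η ^ 3) x Λ (Dl (Lt M Λ)) := by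
  set f := Lt M Λ with hf
  have hfd : Differentiable ℂ f := Lt_diff hM hΛ
  have hlog : Real.log z0 ≤ 0 := Real.log_nonpos hz0.le hz01
  have hA0 : 0 < A := by rw [hA]; linarith
  have hz0A : Real.exp B0 ≤ z0 * Real.exp A := by
    rw [← Real.exp_log hz0, ← Real.exp_add]
    apply Real.exp_le_exp.mpr
    rw [hA]
    linarith
  have hloc : ∀ s : ℂ, 1 + 7 / 4 * η ≤ s.re → |s.im - x| ≤ 1 + η / 4 →
      ‖Dl f s‖ ≤ 24 * A / η ^ 2 ∧ z0 * Real.exp (-(12 * A / η)) ≤ ‖f s‖ := by
    intro s hs hsx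
    have hb : ∀ z ∈ ball (s + 1) (1 + 3 / 4 * η), 1 + η ≤ z.re ∧ |z.im - x| ≤ 3 := by
      intro z hz
      rw [mem_ball, dist_eq_norm] at hz
      have h1 := (abs_lt.mp ((Complex.abs_re_le_norm (z - (s + 1))).trans_lt hz)).1
      have h2 := (Complex.abs_im_le_norm (z - (s + 1))).trans_lt hz
      simp only [Complex.sub_re, Complex.add_re, Complex.one_re] at h1
      simp only [Complex.sub_im, Complex.add_im, Complex.one_im, add_zero] at h2
      refine ⟨by linarith, ?_⟩
      have h3 : z.im - x = (z.im - s.im) + (s.im - x) := by ring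
      rw [h3]
      refine (abs_add_le _ _).trans ?_
      linarith
    apply bc_local hfd hη hη1 hA0 hz0
    · intro z hz
      obtain ⟨h1, h2⟩ := hb z hz
      exact Lt_ne_zero hM (by linarith) (hne z h1 h2)
    · intro z hz
      obtain ⟨h1, h2⟩ := hb z hz
      exact (hup z (by linarith) h2).trans hz0A
    · apply hlow
      simp only [Complex.add_re, Complex.one_re]
      linarith
  have hdf : Differentiable ℂ (deriv f) := by
    intro z
    exact ((hfd.differentiableOn.deriv isOpen_univ).differentiableAt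
      (isOpen_univ.mem_nhds (mem_univ z)))
  have hDd : ∀ s : ℂ, f s ≠ 0 → DifferentiableAt ℂ (Dl f) s := fun s hs =>
    (hdf s).div (hfd s) hs
  have hlne : ∀ s : ℂ, 1 + 7 / 4 * η ≤ s.re → |s.im - x| ≤ 1 + η / 4 → f s ≠ 0 := by
    intro s hs hsx
    exact Lt_ne_zero hM (by linarith) (hne s (by linarith) (by linarith))
  have hnear : ∀ s : ℂ, 1 + 2 * η ≤ s.re → |s.im - x| ≤ 1 → ∀ z ∈ closedBall s (η / 4),
      1 + 7 / 4 * η ≤ z.re ∧ |z.im - x| ≤ 1 + η / 4 := by
    intro s hs hsx z hz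
    rw [mem_closedBall, dist_eq_norm] at hz
    have h1 := (abs_le.mp ((Complex.abs_re_le_norm (z - s)).trans hz)).1
    have h2 := (Complex.abs_im_le_norm (z - s)).trans hz
    simp only [Complex.sub_re] at h1
    simp only [Complex.sub_im] at h2
    refine ⟨by linarith, ?_⟩
    have h3 : z.im - x = (z.im - s.im) + (s.im - x) := by ring
    rw [h3]
    refine (abs_add_le _ _).trans ?_
    linarith
  have hW : 24 * A / η ^ 2 ≤ 96 * A / η ^ 3 := by
    rw [div_le_div_iff₀ (by positivity) (by positivity)]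
    have : 0 < η ^ 2 := by positivity
    nlinarith [mul_pos hA0 this]
  have hcau : ∀ s : ℂ, 1 + 2 * η ≤ s.re → |s.im - x| ≤ 1 →
      ‖deriv (Dl f) s‖ ≤ 96 * A / η ^ 3 := by
    intro s hs hsx
    have h1 : ‖deriv (Dl f) s‖ ≤ 24 * A / η ^ 2 / (η / 4) := by
      apply Complex.norm_deriv_le_of_forall_mem_sphere_norm_le (by positivity)
      · apply DifferentiableOn.diffContOnCl
        rw [closure_ball _ (by positivity)]
        intro z hz
        obtain ⟨h2, h3⟩ := hnear s hs hsx z hz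
        exact (hDd z (hlne z h2 h3)).differentiableWithinAt
      · intro z hz
        obtain ⟨h2, h3⟩ := hnear s hs hsx z (sphere_subset_closedBall hz)
        exact (hloc z h2 h3).1
    refine h1.trans (le_of_eq ?_)
    field_simp
    norm_num
  have hreg : ∀ s : ℂ, 1 + 2 * η ≤ s.re → |s.im - x| ≤ 1 →
      1 + 7 / 4 * η ≤ s.re ∧ |s.im - x| ≤ 1 + η / 4 := fun s hs hsx =>
    ⟨by linarith, by linarith⟩
  have hlip : ∀ s s' : ℂ, 1 + 2 * η ≤ s.re → |s.im - x| ≤ 1 → 1 + 2 * η ≤ s'.re →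
      |s'.im - x| ≤ 1 → ‖Dl f s - Dl f s'‖ ≤ 96 * A / η ^ 3 * ‖s - s'‖ := by
    intro s s' hs hsx hs' hsx'
    have hconv : Convex ℝ {z : ℂ | 1 + 2 * η ≤ z.re ∧ |z.im - x| ≤ 1} := by
      intro u hu v hv a b ha hb hab
      obtain ⟨u1, u2⟩ := hu
      obtain ⟨v1, v2⟩ := hv
      have e1 : (a • u + b • v).re = a * u.re + b * v.re := by simp
      have e2 : (a • u + b • v).im = a * u.im + b * v.im := by simp
      refine ⟨?_, ?_⟩
      · rw [e1]
        calc 1 + 2 * η = a * (1 + 2 * η) + b * (1 + 2 * η) := by rw [← add_mul, hab, one_mul]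
          _ ≤ _ := by gcongr
      · rw [e2]
        have e3 : a * u.im + b * v.im - x = a * (u.im - x) + b * (v.im - x) := by
          have : x = a * x + b * x := by rw [← add_mul, hab, one_mul]
          linear_combination -this
        rw [e3]
        calc |a * (u.im - x) + b * (v.im - x)| ≤ |a * (u.im - x)| + |b * (v.im - x)| :=
              abs_add_le _ _
          _ = a * |u.im - x| + b * |v.im - x| := by
              rw [abs_mul, abs_mul, abs_of_nonneg ha, abs_of_nonneg hb]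
          _ ≤ a * 1 + b * 1 := by gcongr
          _ = 1 := by rw [mul_one, mul_one, hab]
    exact hconv.norm_image_sub_le_of_norm_deriv_le (f := Dl f)
      (fun z hz => hDd z (hlne z (hreg z hz.1 hz.2).1 (hreg z hz.1 hz.2).2))
      (fun z hz => hcau z hz.1 hz.2) ⟨hs', hsx'⟩ ⟨hs, hsx⟩
  refine ⟨?_, ?_, hlip, ?_, ?_⟩
  · intro s hs hsx u hu
    apply shift_of_Dl hfd (σ := 1 + 2 * η) hs _ _ u hu
    · intro z hz hzi
      exact hlne z (by linarith) (by rw [hzi]; linarith)
    · intro z hz hzi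
      exact hlip z s hz (by rw [hzi]; exact hsx) hs hsx
  · intro s hs hsx
    exact ((hloc s (hreg s hs hsx).1 (hreg s hs hsx).2).1).trans hW
  · intro s hs hsx
    refine le_trans ?_ (hloc s (hreg s hs hsx).1 (hreg s hs hsx).2).2
    rw [← Real.exp_log hz0, ← Real.exp_add]
    apply Real.exp_le_exp.mpr
    have h1 : 12 * A / η ≤ 12 * A / η ^ 3 := by
      apply div_le_div_of_nonneg_left (by positivity) (by positivity)
      calc η ^ 3 ≤ η ^ 1 := pow_le_pow_of_le_one hη.le hη1 (by norm_num)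
        _ = η := pow_one η
    have h2 : A ≤ A / η ^ 3 := by
      rw [le_div_iff₀ (by positivity)]
      have : η ^ 3 ≤ 1 := pow_le_one₀ hη.le hη1
      nlinarith
    have h3 : -Real.log z0 ≤ A := by rw [hA]; linarith
    have e1 : 12 * A / η ^ 3 = 12 * (A / η ^ 3) := by ring
    have e2 : 96 * A / η ^ 3 = 96 * (A / η ^ 3) := by ring
    rw [e1] at h1
    rw [e2]
    linarith
  · intro s hs hsx
    refine (hup s hs (by linarith)).trans ?_
    apply Real.exp_le_exp.mpr
    have h2 : A ≤ A / η ^ 3 := by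
      rw [le_div_iff₀ (by positivity)]
      have : η ^ 3 ≤ 1 := pow_le_one₀ hη.le hη1
      nlinarith
    have e2 : 96 * A / η ^ 3 = 96 * (A / η ^ 3) := by ring
    rw [e2]
    have : B0 ≤ A := by rw [hA]; linarith
    linarith

end Pool.Agent.H6
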