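import Mathlib

/-!
Moving a half line integral.
-/

open Real MeasureTheory Set Filter Topology

namespace Pool.Agent.H6

theorem half_shift {f : ℂ → ℂ} (hf : Differentiable ℂ f) {y : ℝ} {g : ℝ → ℝ}
    (hgi : IntegrableOn g (Ioi 0)) (hg0 : Tendsto g atTop (𝓝 0))
    (hfg : ∀ v : ℝ, 0 ≤ v → ∀ y' ∈ uIcc 0 y, ‖f (v + y' * Complex.I)‖ ≤ g v) :
    ∫ v in Ioi (0:ℝ), f v = Complex.I * (∫ y' in (0:ℝ)..y, f (y' * Complex.I)) +
      ∫ v in Ioi (0:ℝ), f (v + y * Complex.I) := by
  have h0 : (0:ℝ) ∈ uIcc 0 y := left_mem_uIcc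
  have hy : y ∈ uIcc 0 y := right_mem_uIcc
  have hc1 : Continuous (fun v : ℝ => f v) := hf.continuous.comp Complex.continuous_ofReal
  have hc2 : Continuous (fun v : ℝ => f (v + y * Complex.I)) :=
    hf.continuous.comp (by fun_prop)
  have hi1 : IntegrableOn (fun v : ℝ => f v) (Ioi 0) := by
    refine Integrable.mono' hgi hc1.aestronglyMeasurable ?_
    filter_upwards [ae_restrict_mem measurableSet_Ioi] with v hv
    have := hfg v (le_of_lt hv) 0 h0
    simpa using this
  have hi2 : IntegrableOn (fun v : ℝ => f (v + y * Complex.I)) (Ioi 0) := by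
    refine Integrable.mono' hgi hc2.aestronglyMeasurable ?_
    filter_upwards [ae_restrict_mem measurableSet_Ioi] with v hv
    exact hfg v (le_of_lt hv) y hy
  have t1 := intervalIntegral_tendsto_integral_Ioi 0 hi1 tendsto_id
  have t2 := intervalIntegral_tendsto_integral_Ioi 0 hi2 tendsto_id
  have t3 : Tendsto (fun R : ℝ => ∫ y' in (0:ℝ)..y, f (R + y' * Complex.I)) atTop (𝓝 0) := by
    rw [tendsto_zero_iff_norm_tendsto_zero]
    have h4 : Tendsto (fun R : ℝ => g R * |y - 0|) atTop (𝓝 0) := by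
      simpa using hg0.mul_const |y - 0|
    refine squeeze_zero' (Eventually.of_forall fun _ => norm_nonneg _) ?_ h4
    filter_upwards [eventually_ge_atTop 0] with R hR
    apply intervalIntegral.norm_integral_le_of_norm_le_const
    intro y' hy'
    exact hfg R hR y' (uIoc_subset_uIcc hy')
  have key : ∀ R : ℝ, (∫ x in (0:ℝ)..R, f x) - (∫ x in (0:ℝ)..R, f (x + y * Complex.I)) +
      Complex.I * (∫ y' in (0:ℝ)..y, f (R + y' * Complex.I)) -
      Complex.I * (∫ y' in (0:ℝ)..y, f (y' * Complex.I)) = 0 := by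
    intro R
    have := Complex.integral_boundary_rect_eq_zero_of_differentiableOn f 0 (R + y * Complex.I)
      hf.differentiableOn
    simpa using this
  have t4 : Tendsto (fun R : ℝ => (∫ x in (0:ℝ)..R, f x) - (∫ x in (0:ℝ)..R, f (x + y * Complex.I)) +
      Complex.I * (∫ y' in (0:ℝ)..y, f (R + y' * Complex.I)) -
      Complex.I * (∫ y' in (0:ℝ)..y, f (y' * Complex.I))) atTop
      (𝓝 ((∫ v in Ioi (0:ℝ), f v) - (∫ v in Ioi (0:ℝ), f (v + y * Complex.I)) + Complex.I * 0 -
        Complex.I * (∫ y' in (0:ℝ)..y, f (y' * Complex.I)))) :=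
    ((t1.sub t2).add (t3.const_mul _)).sub_const _
  have h5 := tendsto_nhds_unique t4 (tendsto_const_nhds.congr (fun R => (key R).symm))
  linear_combination h5

end Pool.Agent.H6
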