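import Mathlib
import Pool.Agent.H6.SadA
import Pool.Agent.H6.SadB

/-!
Pointwise estimates of the integrand on the shifted contour.
-/

open Real MeasureTheory Set Filter Topology

namespace Pool.Agent.H6

/-- the integrand -/
noncomputable def fker (t x p : ℝ) (Λ : ℂ → ℂ) (z : ℂ) : ℂ :=
  Λ (ptz x z) * Complex.exp (-(z ^ 2 / (4 * t)) + p * z)

lemma fker_diff {Λ : ℂ → ℂ} (hΛ : Differentiable ℂ Λ) (t x p : ℝ) :
    Differentiable ℂ (fker t x p Λ) := by
  unfold fker ptz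
  apply Differentiable.mul
  · exact hΛ.comp (by fun_prop)
  · apply Differentiable.cexp
    exact ((differentiable_id.pow 2).div_const _).neg.add (differentiable_id.const_mul _)

lemma norm_expo (t p : ℝ) (v y : ℝ) :
    ‖Complex.exp (-((v + y * Complex.I) ^ 2 / (4 * t)) + p * (v + y * Complex.I))‖ =
      Real.exp (-((v ^ 2 - y ^ 2) / (4 * t)) + p * v) := by
  rw [Complex.norm_exp]
  congr 1
  have e : -(((v:ℂ) + y * Complex.I) ^ 2 / (4 * t)) + p * (v + y * Complex.I) =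
      ((-((v ^ 2 - y ^ 2) / (4 * t)) + p * v : ℝ) : ℂ) +
      ((-(2 * v * y / (4 * t)) + p * y : ℝ) : ℂ) * Complex.I := by
    push_cast
    have hI : Complex.I ^ 2 = -1 := Complex.I_sq
    linear_combination (-(y:ℂ)^2 / (4 * t)) * hI
  rw [e, Complex.add_re, Complex.ofReal_re, Complex.re_ofReal_mul, Complex.I_re]
  ring

lemma halfInt_eq_fker (t x p : ℝ) (Λ : ℂ → ℂ) :
    halfInt t Λ x p = ∫ v in Ioi (0:ℝ), fker t x p Λ v := by
  unfold halfInt fker
  apply integral_congr_ae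
  filter_upwards with v
  have e : pt x v = ptz x (v : ℂ) := by simp only [pt, ptz]; push_cast; ring
  rw [e, mul_assoc]
  congr 1
  push_cast
  rw [← Complex.exp_add]

lemma tendsto_quad {β : ℝ} (hβ : 0 < β) (B : ℝ) :
    Tendsto (fun v : ℝ => (1 + |v|) * Real.exp (B * v - β * v ^ 2)) atTop (𝓝 0) := by
  have h1 : Tendsto (fun v : ℝ => Real.exp (v * ((B + 1) - β * v))) atTop (𝓝 0) := by
    apply Real.tendsto_exp_atBot.comp
    apply tendsto_id.atTop_mul_atBot₀
    have : Tendsto (fun v : ℝ => β * v) atTop atTop := tendsto_id.const_mul_atTop hβ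
    exact tendsto_atBot_add_const_left _ _ (tendsto_neg_atTop_atBot.comp this)
  refine squeeze_zero' (Eventually.of_forall fun v => by positivity) ?_ h1
  filter_upwards [eventually_ge_atTop 0] with v hv
  rw [abs_of_nonneg hv]
  have h2 := Real.add_one_le_exp v
  calc (1 + v) * Real.exp (B * v - β * v ^ 2) ≤ Real.exp v * Real.exp (B * v - β * v ^ 2) := by
        gcongr
        linarith
    _ = _ := by rw [← Real.exp_add]; congr 1; ring

lemma fker_growth {M : ℝ} {Λ L : ℂ → ℂ} {w : ℂ} (D : FEData M Λ L w) {t : ℝ} (ht : 0 < t)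
    (ht8 : t ≤ 1 / 8) (x p y : ℝ) :
    ∃ g : ℝ → ℝ, IntegrableOn g (Ioi 0) ∧ Tendsto g atTop (𝓝 0) ∧ ∀ v : ℝ, 0 ≤ v →
      ∀ y' ∈ uIcc 0 y, (1 + ‖(v : ℂ) + y' * Complex.I‖) * ‖fker t x p Λ (v + y' * Complex.I)‖ ≤
        g v := by
  obtain ⟨K, A, hK, hA, hg⟩ := D.growth
  have hα : 7 / 6 ≤ 1 / (4 * t) - 5 / 6 := alpha_ge ht ht8
  set β := 1 / (4 * t) - 5 / 6 with hβ
  have hβ0 : 0 < β := by linarith
  refine ⟨fun v => K * Real.exp (y ^ 2 / (4 * t)) * (1 + |y|) *
    ((1 + |v|) * Real.exp ((A + p) * v - β * v ^ 2)),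
    ((integrable_abs_exp_quad hβ0 (A + p)).const_mul _).integrableOn, ?_, ?_⟩
  · simpa using (tendsto_quad hβ0 (A + p)).const_mul (K * Real.exp (y ^ 2 / (4 * t)) * (1 + |y|))
  · intro v hv y' hy'
    have hyy : |y'| ≤ |y| := by
      rcases le_total 0 y with h | h
      · rw [uIcc_of_le h] at hy'
        rw [abs_of_nonneg h, abs_of_nonneg hy'.1]; exact hy'.2
      · rw [uIcc_of_ge h] at hy'
        rw [abs_of_nonpos h, abs_of_nonpos hy'.2]; linarith [hy'.1]
    have h1 : ‖(v : ℂ) + y' * Complex.I‖ ≤ v + |y| := by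
      refine (norm_add_le _ _).trans ?_
      rw [norm_mul, Complex.norm_I, mul_one, Complex.norm_real, Complex.norm_real,
        Real.norm_eq_abs, Real.norm_eq_abs, abs_of_nonneg hv]
      linarith
    have h2 : ‖Λ (ptz x (v + y' * Complex.I))‖ ≤ K * Real.exp (A * v + 5 / 6 * v ^ 2) := by
      have := hg (ptz x (v + y' * Complex.I))
      have e : (ptz x (v + y' * Complex.I)).re - 1 = v := by rw [ptz_re]; simp
      rw [e, abs_of_nonneg hv] at this
      exact this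
    unfold fker
    rw [norm_mul, norm_expo]
    have h3 : Real.exp (-((v ^ 2 - y' ^ 2) / (4 * t)) + p * v) ≤
        Real.exp (y ^ 2 / (4 * t)) * Real.exp (p * v - v ^ 2 / (4 * t)) := by
      rw [← Real.exp_add]
      apply Real.exp_le_exp.mpr
      have : y' ^ 2 ≤ y ^ 2 := sq_le_sq.mpr hyy
      have h4 : y' ^ 2 / (4 * t) ≤ y ^ 2 / (4 * t) := by gcongr
      have : -((v ^ 2 - y' ^ 2) / (4 * t)) = -(v ^ 2 / (4 * t)) + y' ^ 2 / (4 * t) := by ring
      linarith
    have h5 : (1 + ‖(v : ℂ) + y' * Complex.I‖) ≤ (1 + |y|) * (1 + |v|) := by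
      rw [abs_of_nonneg hv]
      have := abs_nonneg y
      nlinarith
    calc (1 + ‖(v : ℂ) + y' * Complex.I‖) * (‖Λ (ptz x (v + y' * Complex.I))‖ *
          Real.exp (-((v ^ 2 - y' ^ 2) / (4 * t)) + p * v))
        ≤ ((1 + |y|) * (1 + |v|)) * ((K * Real.exp (A * v + 5 / 6 * v ^ 2)) *
          (Real.exp (y ^ 2 / (4 * t)) * Real.exp (p * v - v ^ 2 / (4 * t)))) := by
          gcongr
      _ = K * Real.exp (y ^ 2 / (4 * t)) * (1 + |y|) * ((1 + |v|) *
          (Real.exp (A * v + 5 / 6 * v ^ 2) * Real.exp (p * v - v ^ 2 / (4 * t)))) := by ring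
      _ = _ := by
          rw [← Real.exp_add]
          have e6 : A * v + 5 / 6 * v ^ 2 + (p * v - v ^ 2 / (4 * t)) =
              (A + p) * v - β * v ^ 2 := by rw [hβ]; ring
          rw [e6]

/-- the two shift formulas -/
lemma fker_shift {M : ℝ} {Λ L : ℂ → ℂ} {w : ℂ} (D : FEData M Λ L w) {t : ℝ} (ht : 0 < t)
    (ht8 : t ≤ 1 / 8) (x p y : ℝ) {P : ℂ → ℂ} (hP : Differentiable ℂ P) {C : ℝ} (hC : 0 ≤ C)
    (hPb : ∀ z, ‖P z‖ ≤ C * (1 + ‖z‖)) :
    ∫ v in Ioi (0:ℝ), P v * fker t x p Λ v =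
      Complex.I * (∫ y' in (0:ℝ)..y, P (y' * Complex.I) * fker t x p Λ (y' * Complex.I)) +
      ∫ v in Ioi (0:ℝ), P (v + y * Complex.I) * fker t x p Λ (v + y * Complex.I) := by
  obtain ⟨g, hgi, hg0, hg⟩ := fker_growth D ht ht8 x p y
  refine half_shift (f := fun z => P z * fker t x p Λ z) (hP.mul (fker_diff D.diff t x p))
    (g := fun v => C * g v) (hgi.const_mul C) (by simpa using hg0.const_mul C) ?_
  intro v hv y' hy'
  rw [norm_mul]
  calc ‖P (v + y' * Complex.I)‖ * ‖fker t x p Λ (v + y' * Complex.I)‖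
      ≤ (C * (1 + ‖(v : ℂ) + y' * Complex.I‖)) * ‖fker t x p Λ (v + y' * Complex.I)‖ := by
        gcongr
        exact hPb _
    _ = C * ((1 + ‖(v : ℂ) + y' * Complex.I‖) * ‖fker t x p Λ (v + y' * Complex.I)‖) := by ring
    _ ≤ _ := by
        gcongr
        exact hg v hv y' hy'

/-- vertical comparison of the archimedean factor -/
lemma norm_Gfun_vert {M x v : ℝ} (hM : 0 < M) (hv : 0 ≤ v) {τ : ℝ} (hτ : |τ| ≤ 1) :
    ‖Gfun M (x + τ) v‖ ≤ 27 * ‖Gfun M x v‖ := by
  have h1 : pt (x + τ) v = pt x v + τ * Complex.I := by simp only [pt]; push_cast; ring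
  have hre : 1 ≤ (pt x v).re := by rw [pt_re]; linarith
  unfold Gfun
  rw [norm_mul, norm_mul, Complex.norm_cpow_eq_rpow_re_of_pos hM,
    Complex.norm_cpow_eq_rpow_re_of_pos hM, pt_re, pt_re, h1, H5.gamma_vert hre τ, norm_mul,
    Complex.norm_exp]
  have h2 : ((τ : ℂ) * Complex.I * psi (pt x v) + H5.rhoV (pt x v) τ).re ≤ 3 := by
    rw [Complex.add_re]
    have e : ((τ : ℂ) * Complex.I * psi (pt x v)).re = -(τ * (psi (pt x v)).im) := by
      rw [mul_assoc, Complex.re_ofReal_mul]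
      simp
    rw [e]
    have h3 := abs_im_psi_le hre
    have h4 : -(τ * (psi (pt x v)).im) ≤ π / 2 := by
      calc -(τ * (psi (pt x v)).im) ≤ |τ * (psi (pt x v)).im| := neg_le_abs _
        _ = |τ| * |(psi (pt x v)).im| := abs_mul _ _
        _ ≤ 1 * (π / 2) := by gcongr
        _ = π / 2 := one_mul _
    have h5 := H5.norm_rhoV_le hre τ
    have h6 : τ ^ 2 / (pt x v).re ≤ 1 := by
      rw [div_le_one (by linarith)]
      rw [← sq_abs]
      nlinarith [abs_nonneg τ]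
    have h7 := Complex.re_le_norm (H5.rhoV (pt x v) τ)
    have := Real.pi_lt_d2
    linarith
  have h3 : Real.exp 3 ≤ 27 := by
    have e1 : Real.exp 3 = Real.exp 1 ^ 3 := by rw [← Real.exp_nat_mul]; norm_num
    rw [e1]
    have h4 := Real.exp_one_lt_d9
    have h5 := Real.exp_pos 1
    calc Real.exp 1 ^ 3 ≤ (2.7182818286 : ℝ) ^ 3 := pow_le_pow_left₀ h5.le h4.le 3
      _ ≤ 27 := by norm_num
  have h4 : Real.exp ((τ : ℂ) * Complex.I * psi (pt x v) + H5.rhoV (pt x v) τ).re ≤ 27 :=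
    (Real.exp_le_exp.mpr h2).trans h3
  calc M ^ (1 + v) * (‖Complex.Gamma (pt x v)‖ *
        Real.exp ((τ : ℂ) * Complex.I * psi (pt x v) + H5.rhoV (pt x v) τ).re)
      ≤ M ^ (1 + v) * (‖Complex.Gamma (pt x v)‖ * 27) := by gcongr
    _ = _ := by ring

lemma Lambda_eq {M x v : ℝ} (hM : 0 < M) (hv : 0 ≤ v) (Λ : ℂ → ℂ) :
    Λ (pt x v) = Gfun M x v * Lt M Λ (pt x v) := by
  have h := Gfun_ne_zero (x := x) hM hv
  unfold Lt
  unfold Gfun at h ⊢
  exact (mul_div_cancel₀ _ h).symm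

/-- exact local form of the integrand at a saddle point -/
lemma fker_local {M a W x t p c y : ℝ} {Λ D1 : ℂ → ℂ} (hM : 0 < M) (G : GoodPt M a W x Λ D1)
    (ht : 0 < t) (ha : 0 ≤ a) (hac : a ≤ c) (hy : |y| ≤ 1)
    (hz : ((c : ℂ) + y * Complex.I) / (2 * t) = p + Real.log M + psi (ptz x (c + y * Complex.I)) +
      D1 (ptz x (c + y * Complex.I))) {v : ℝ} (hv : a ≤ v) :
    ∃ R : ℂ, ‖R‖ ≤ (5 / 6 + W) * (v - c) ^ 2 ∧
      fker t x p Λ (v + y * Complex.I) = fker t x p Λ (c + y * Complex.I) *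
        Complex.exp (-(((v - c) ^ 2 / (4 * t) : ℝ) : ℂ) + R) := by
  have hc0 : 0 ≤ c := ha.trans hac
  have hv0 : 0 ≤ v := ha.trans hv
  obtain ⟨R, hR, hRe⟩ := G.shift (pt (x + y) c) (by rw [pt_re]; linarith) (by simp [pt]; simpa using hy)
    (v - c) (by rw [pt_re]; linarith)
  have e0 : pt (x + y) c + ((v - c : ℝ) : ℂ) = pt (x + y) v := by
    rw [← pt_add]; congr 1; ring
  rw [e0] at hRe
  refine ⟨rho (pt (x + y) c) (v - c) + R, ?_, ?_⟩
  · refine (norm_add_le _ _).trans ?_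
    have := norm_rho_le (s := pt (x + y) c) (u := v - c) (by rw [pt_re]; linarith)
      (by rw [pt_re]; linarith)
    linarith
  · unfold fker
    rw [ptz_eq_pt, ptz_eq_pt, Lambda_eq hM hv0 Λ, Lambda_eq hM hc0 Λ, hRe,
      Gfun_shift hM hc0 hv0]
    rw [ptz_eq_pt] at hz
    have e1 : -(((v:ℂ) + y * Complex.I) ^ 2 / (4 * t)) + p * (v + y * Complex.I) =
        (-(((c:ℂ) + y * Complex.I) ^ 2 / (4 * t)) + p * (c + y * Complex.I)) +
        (-((((v - c) ^ 2 / (4 * t) : ℝ)) : ℂ) + ((v - c : ℝ) : ℂ) * p -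
          ((v - c : ℝ) : ℂ) * (((c : ℂ) + y * Complex.I) / (2 * t))) := by
      have ht' : (t : ℂ) ≠ 0 := by exact_mod_cast ht.ne'
      push_cast
      field_simp
      ring
    rw [e1, hz]
    calc Gfun M (x + y) c * Complex.exp (((v - c : ℝ) : ℂ) * (psi (pt (x + y) c) + Real.log M) +
          rho (pt (x + y) c) (v - c)) * (Lt M Λ (pt (x + y) c) *
          Complex.exp (((v - c : ℝ) : ℂ) * D1 (pt (x + y) c) + R)) *
          Complex.exp ((-(((c:ℂ) + y * Complex.I) ^ 2 / (4 * t)) + p * (c + y * Complex.I)) +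
          (-((((v - c) ^ 2 / (4 * t) : ℝ)) : ℂ) + ((v - c : ℝ) : ℂ) * p -
          ((v - c : ℝ) : ℂ) * (p + Real.log M + psi (pt (x + y) c) + D1 (pt (x + y) c))))
        = Gfun M (x + y) c * Lt M Λ (pt (x + y) c) *
          (Complex.exp (((v - c : ℝ) : ℂ) * (psi (pt (x + y) c) + Real.log M) +
          rho (pt (x + y) c) (v - c)) *
          Complex.exp (((v - c : ℝ) : ℂ) * D1 (pt (x + y) c) + R) *
          Complex.exp ((-(((c:ℂ) + y * Complex.I) ^ 2 / (4 * t)) + p * (c + y * Complex.I)) +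
          (-((((v - c) ^ 2 / (4 * t) : ℝ)) : ℂ) + ((v - c : ℝ) : ℂ) * p -
          ((v - c : ℝ) : ℂ) * (p + Real.log M + psi (pt (x + y) c) + D1 (pt (x + y) c))))) := by
          ring
      _ = Gfun M (x + y) c * Lt M Λ (pt (x + y) c) *
          (Complex.exp (-(((c:ℂ) + y * Complex.I) ^ 2 / (4 * t)) + p * (c + y * Complex.I)) *
          Complex.exp (-(((v - c) ^ 2 / (4 * t) : ℝ) : ℂ) + (rho (pt (x + y) c) (v - c) + R))) := by
          rw [← Complex.exp_add, ← Complex.exp_add, ← Complex.exp_add]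
          congr 2
          ring
      _ = _ := by ring

/-- the upper bound on the shifted line -/
lemma fker_le {M a W x t p c y : ℝ} {Λ D1 : ℂ → ℂ} (hM : 0 < M) (G : GoodPt M a W x Λ D1)
    (ht : 0 < t) (ha : 0 ≤ a) (hac : a ≤ c) (hy : |y| ≤ 1)
    (hz : ((c : ℂ) + y * Complex.I) / (2 * t) = p + Real.log M + psi (ptz x (c + y * Complex.I)) +
      D1 (ptz x (c + y * Complex.I))) {v : ℝ} (hv : 0 ≤ v) :
    Real.exp W * ‖Gfun M (x + y) v‖ * Real.exp (-((v ^ 2 - y ^ 2) / (4 * t)) + p * v) ≤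
      ‖fker t x p Λ (c + y * Complex.I)‖ *
        Real.exp (2 * W + |v - c| * W - (1 / (4 * t) - 5 / 6) * (v - c) ^ 2) := by
  have hc0 : 0 ≤ c := ha.trans hac
  have hlow := G.low (pt (x + y) c) (by rw [pt_re]; linarith) (by simp [pt]; simpa using hy)
  have hD := G.D1_le (pt (x + y) c) (by rw [pt_re]; linarith) (by simp [pt]; simpa using hy)
  have hf : ‖fker t x p Λ (c + y * Complex.I)‖ = ‖Gfun M (x + y) c‖ * ‖Lt M Λ (pt (x + y) c)‖ *
      Real.exp (-((c ^ 2 - y ^ 2) / (4 * t)) + p * c) := by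
    unfold fker
    rw [norm_mul, norm_expo, ptz_eq_pt, Lambda_eq hM hc0 Λ, norm_mul]
  rw [ptz_eq_pt] at hz
  have hre : c / (2 * t) = p + Real.log M + (psi (pt (x + y) c)).re + (D1 (pt (x + y) c)).re := by
    have h1 := congrArg Complex.re hz
    have e1 : (((c : ℂ) + y * Complex.I) / (2 * t)).re = c / (2 * t) := by
      have : ((2:ℂ) * t) = ((2 * t : ℝ) : ℂ) := by push_cast; ring
      rw [this, Complex.div_ofReal_re]
      simp
    rw [e1] at h1
    simp only [Complex.add_re, Complex.ofReal_re] at h1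
    exact h1
  rw [hf, Gfun_shift hM hc0 hv, norm_mul, Complex.norm_exp]
  have hre2 : (((v - c : ℝ) : ℂ) * (psi (pt (x + y) c) + Real.log M) +
      rho (pt (x + y) c) (v - c)).re = (v - c) * ((psi (pt (x + y) c)).re + Real.log M) +
      (rho (pt (x + y) c) (v - c)).re := by
    rw [Complex.add_re, Complex.re_ofReal_mul, Complex.add_re, Complex.ofReal_re]
  rw [hre2]
  have hrho : (rho (pt (x + y) c) (v - c)).re ≤ 5 / 6 * (v - c) ^ 2 :=
    (Complex.re_le_norm _).trans (norm_rho_le (by rw [pt_re]; linarith) (by rw [pt_re]; linarith))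
  have hD2 : -((v - c) * (D1 (pt (x + y) c)).re) ≤ |v - c| * W := by
    calc -((v - c) * (D1 (pt (x + y) c)).re) ≤ |(v - c) * (D1 (pt (x + y) c)).re| := neg_le_abs _
      _ = |v - c| * |(D1 (pt (x + y) c)).re| := abs_mul _ _
      _ ≤ |v - c| * W := by
          gcongr
          exact (Complex.abs_re_le_norm _).trans hD
  calc Real.exp W * (‖Gfun M (x + y) c‖ * Real.exp ((v - c) * ((psi (pt (x + y) c)).re +
        Real.log M) + (rho (pt (x + y) c) (v - c)).re)) *
        Real.exp (-((v ^ 2 - y ^ 2) / (4 * t)) + p * v)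
      = ‖Gfun M (x + y) c‖ * (Real.exp W * Real.exp ((v - c) * ((psi (pt (x + y) c)).re +
        Real.log M) + (rho (pt (x + y) c) (v - c)).re) *
        Real.exp (-((v ^ 2 - y ^ 2) / (4 * t)) + p * v)) := by ring
    _ = ‖Gfun M (x + y) c‖ * Real.exp (W + ((v - c) * ((psi (pt (x + y) c)).re +
        Real.log M) + (rho (pt (x + y) c) (v - c)).re) +
        (-((v ^ 2 - y ^ 2) / (4 * t)) + p * v)) := by
        rw [← Real.exp_add, ← Real.exp_add]
    _ ≤ ‖Gfun M (x + y) c‖ * Real.exp (-W + (-((c ^ 2 - y ^ 2) / (4 * t)) + p * c) +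
        (2 * W + |v - c| * W - (1 / (4 * t) - 5 / 6) * (v - c) ^ 2)) := by
        apply mul_le_mul_of_nonneg_left _ (norm_nonneg _)
        apply Real.exp_le_exp.mpr
        have e3 : (v - c) * ((psi (pt (x + y) c)).re + Real.log M) =
            (v - c) * (c / (2 * t)) - (v - c) * p - (v - c) * (D1 (pt (x + y) c)).re := by
          rw [hre]; ring
        have e4 : (v - c) * (c / (2 * t)) - ((v ^ 2 - y ^ 2) / (4 * t)) +
            ((c ^ 2 - y ^ 2) / (4 * t)) = -(1 / (4 * t)) * (v - c) ^ 2 := by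
          field_simp
          ring
        rw [e3]
        nlinarith
    _ = ‖Gfun M (x + y) c‖ * Real.exp (-W) * Real.exp (-((c ^ 2 - y ^ 2) / (4 * t)) + p * c) *
        Real.exp (2 * W + |v - c| * W - (1 / (4 * t) - 5 / 6) * (v - c) ^ 2) := by
        rw [Real.exp_add, Real.exp_add]; ring
    _ ≤ _ := by gcongr

end Pool.Agent.H6
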