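import Mathlib
import Pool.Agent.H6.SadC

/-!
The integral over the half line at a saddle point.
-/

open Real MeasureTheory Set Filter Topology

namespace Pool.Agent.H6

/-- the first moment on the half line -/
noncomputable def halfOne (t : ℝ) (Λ : ℂ → ℂ) (x p : ℝ) : ℂ :=
  ∫ v in Ioi (0:ℝ), (v : ℂ) * fker t x p Λ v

lemma fker_integrable {M : ℝ} {Λ L : ℂ → ℂ} {w : ℂ} (D : FEData M Λ L w) {t : ℝ} (ht : 0 < t)
    (ht8 : t ≤ 1 / 8) (x p y : ℝ) {P : ℂ → ℂ} (hP : Differentiable ℂ P) {C : ℝ} (hC : 0 ≤ C)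
    (hPb : ∀ z, ‖P z‖ ≤ C * (1 + ‖z‖)) :
    IntegrableOn (fun v : ℝ => P (v + y * Complex.I) * fker t x p Λ (v + y * Complex.I))
      (Ioi 0) := by
  obtain ⟨g, hgi, hg0, hg⟩ := fker_growth D ht ht8 x p y
  have hc : Continuous (fun v : ℝ => P (v + y * Complex.I) * fker t x p Λ (v + y * Complex.I)) :=
    (hP.continuous.comp (by fun_prop)).mul ((fker_diff D.diff t x p).continuous.comp (by fun_prop))
  refine Integrable.mono' (hgi.const_mul C) hc.aestronglyMeasurable ?_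
  filter_upwards [ae_restrict_mem measurableSet_Ioi] with v hv
  have hv0 : (0:ℝ) ≤ v := le_of_lt hv
  rw [norm_mul]
  calc ‖P (v + y * Complex.I)‖ * ‖fker t x p Λ (v + y * Complex.I)‖
      ≤ (C * (1 + ‖(v : ℂ) + y * Complex.I‖)) * ‖fker t x p Λ (v + y * Complex.I)‖ := by
        gcongr
        exact hPb _
    _ = C * ((1 + ‖(v : ℂ) + y * Complex.I‖) * ‖fker t x p Λ (v + y * Complex.I)‖) := by ring
    _ ≤ _ := by
        gcongr
        exact hg v hv0 y right_mem_uIcc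

/-- exponent estimate away from the peak -/
lemma expo_far {α γ W u : ℝ} (hγ : 0 < γ) (hγ1 : γ ≤ 1) (hα : 40 / 3 ≤ α)
    (hW0 : 0 ≤ W) (hW : W ≤ γ ^ 2 * α / 128) (hu : γ / 2 ≤ |u|) :
    2 * W + |u| * W - (α - 5 / 6) * u ^ 2 ≤ -(3 / 4 * α * u ^ 2) := by
  have hu2 : u ^ 2 = |u| ^ 2 := (sq_abs u).symm
  rw [hu2]
  set r := |u| with hr
  have hr0 : 0 ≤ r := by linarith
  have h1 : γ ^ 2 ≤ 4 * r ^ 2 := by nlinarith
  have h2 : γ ^ 2 ≤ 2 * r := by nlinarith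
  have h3 : 2 * W ≤ r ^ 2 * α / 16 := by nlinarith
  have h4 : r * W ≤ r ^ 2 * α / 64 := by
    calc r * W ≤ r * (γ ^ 2 * α / 128) := by gcongr
      _ ≤ r * (2 * r * α / 128) := by gcongr
      _ = _ := by ring
  have h5 : 5 / 6 * r ^ 2 ≤ α / 16 * r ^ 2 := by
    have : 0 ≤ r ^ 2 := by positivity
    nlinarith
  have h6 : 0 ≤ α * r ^ 2 := by positivity
  nlinarith

/-- exponent estimate everywhere -/
lemma expo_all {α γ W u : ℝ} (hγ : 0 < γ) (hγ1 : γ ≤ 1) (hα : 40 / 3 ≤ α)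
    (hW0 : 0 ≤ W) (hW : W ≤ γ ^ 2 * α / 128) :
    2 * W + |u| * W - (α - 5 / 6) * u ^ 2 ≤ γ ^ 2 * α / 32 - 3 / 4 * α * u ^ 2 := by
  have hu2 : u ^ 2 = |u| ^ 2 := (sq_abs u).symm
  rw [hu2]
  set r := |u| with hr
  have hr0 : 0 ≤ r := abs_nonneg u
  have h4 : 2 * W + r * W ≤ (3 + r ^ 2) * (γ ^ 2 * α / 128) := by
    have : 2 + r ≤ 3 + r ^ 2 := by nlinarith [sq_nonneg (r - 1)]
    calc 2 * W + r * W = (2 + r) * W := by ring
      _ ≤ (3 + r ^ 2) * (γ ^ 2 * α / 128) := by gcongr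
  have h5 : 5 / 6 * r ^ 2 ≤ α / 16 * r ^ 2 := by
    have : 0 ≤ r ^ 2 := by positivity
    nlinarith
  have h6 : 0 ≤ α * r ^ 2 := by positivity
  have h7 : r ^ 2 * (γ ^ 2 * α / 128) ≤ r ^ 2 * (1 * α / 128) := by
    have : γ ^ 2 ≤ 1 := by nlinarith
    gcongr
  have h8 : 0 ≤ γ ^ 2 * α := by positivity
  nlinarith

/-- smallness of `t` in terms of the distance of the saddle from the line -/
def SmallS (γ t : ℝ) : Prop :=
  t ≤ 1 / 100 ∧ 28 * (1 + 1 / γ) * Real.exp (-(γ ^ 2 / (64 * t))) ≤ √(4 * π * t) / 16 ∧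
    32 * t / 7 ≤ 3 / 16 * γ * √(4 * π * t)

section main

variable {M a W x t p c y γ : ℝ} {Λ L D1 : ℂ → ℂ} {w : ℂ}

/-- the bound on the shifted line -/
lemma line_bound (D : FEData M Λ L w) (G : GoodPt M a W x Λ D1) (ht : 0 < t) (ha : 0 ≤ a)
    (hac : a ≤ c) (hy : |y| ≤ 1)
    (hz : ((c : ℂ) + y * Complex.I) / (2 * t) = p + Real.log M + psi (ptz x (c + y * Complex.I)) +
      D1 (ptz x (c + y * Complex.I))) {v : ℝ} (hv : 0 ≤ v) :
    ‖fker t x p Λ (v + y * Complex.I)‖ ≤ ‖fker t x p Λ (c + y * Complex.I)‖ *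
        Real.exp (2 * W + |v - c| * W - (1 / (4 * t) - 5 / 6) * (v - c) ^ 2) := by
  refine le_trans ?_ (fker_le D.M_pos G ht ha hac hy hz hv)
  unfold fker
  rw [norm_mul, norm_expo, ptz_eq_pt, Lambda_eq D.M_pos hv Λ, norm_mul]
  have h := G.up (pt (x + y) v) (by rw [pt_re]; linarith) (by simp [pt]; simpa using hy)
  calc ‖Gfun M (x + y) v‖ * ‖Lt M Λ (pt (x + y) v)‖ *
        Real.exp (-((v ^ 2 - y ^ 2) / (4 * t)) + p * v)
      ≤ ‖Gfun M (x + y) v‖ * Real.exp W * Real.exp (-((v ^ 2 - y ^ 2) / (4 * t)) + p * v) := by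
        gcongr
    _ = _ := by ring

/-- the bound on the vertical segment -/
lemma vert_bound (D : FEData M Λ L w) (G : GoodPt M a W x Λ D1) (ht : 0 < t) (ha : 0 ≤ a)
    (hac : a ≤ c) (hy : |y| ≤ 1)
    (hz : ((c : ℂ) + y * Complex.I) / (2 * t) = p + Real.log M + psi (ptz x (c + y * Complex.I)) +
      D1 (ptz x (c + y * Complex.I))) {y' : ℝ} (hy' : |y'| ≤ |y|) (hyy : |y' - y| ≤ 1) :
    ‖fker t x p Λ (y' * Complex.I)‖ ≤ 27 * (‖fker t x p Λ (c + y * Complex.I)‖ *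
        Real.exp (2 * W + |0 - c| * W - (1 / (4 * t) - 5 / 6) * (0 - c) ^ 2)) := by
  have h1 := fker_le D.M_pos G ht ha hac hy hz (v := 0) le_rfl
  have h2 : ‖fker t x p Λ (y' * Complex.I)‖ ≤ 27 * (Real.exp W * ‖Gfun M (x + y) 0‖ *
      Real.exp (-((0 ^ 2 - y ^ 2) / (4 * t)) + p * 0)) := by
    have e : ((y' : ℂ) * Complex.I) = ((0:ℝ) : ℂ) + y' * Complex.I := by simp
    rw [e]
    unfold fker
    rw [norm_mul, norm_expo, ptz_eq_pt, Lambda_eq D.M_pos le_rfl Λ, norm_mul]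
    have h := G.up (pt (x + y') 0) (by rw [pt_re]; linarith)
      (by simp [pt]; exact hy'.trans hy)
    have h3 := norm_Gfun_vert (x := x + y) (v := 0) D.M_pos le_rfl (τ := y' - y) hyy
    have e2 : x + y + (y' - y) = x + y' := by ring
    rw [e2] at h3
    have h4 : Real.exp (-((0 ^ 2 - y' ^ 2) / (4 * t)) + p * 0) ≤
        Real.exp (-((0 ^ 2 - y ^ 2) / (4 * t)) + p * 0) := by
      apply Real.exp_le_exp.mpr
      have : y' ^ 2 ≤ y ^ 2 := sq_le_sq.mpr hy'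
      have h5 : y' ^ 2 / (4 * t) ≤ y ^ 2 / (4 * t) := by gcongr
      have e3 : ∀ r : ℝ, -((0 ^ 2 - r ^ 2) / (4 * t)) = r ^ 2 / (4 * t) := by intro r; ring
      rw [e3, e3]
      linarith
    calc ‖Gfun M (x + y') 0‖ * ‖Lt M Λ (pt (x + y') 0)‖ *
          Real.exp (-((0 ^ 2 - y' ^ 2) / (4 * t)) + p * 0)
        ≤ (27 * ‖Gfun M (x + y) 0‖) * Real.exp W *
          Real.exp (-((0 ^ 2 - y ^ 2) / (4 * t)) + p * 0) := by gcongr
      _ = _ := by ring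
  refine h2.trans ?_
  gcongr

/-- pointwise approximation near the saddle -/
lemma near_bound (D : FEData M Λ L w) (G : GoodPt M a W x Λ D1) (ht : 0 < t) (ht8 : t ≤ 1 / 100)
    (ha : 0 ≤ a) (hγ : 0 < γ) (hγ1 : γ ≤ 1) (hW0 : 0 ≤ W) (hW : W ≤ γ ^ 2 * (1 / (4 * t)) / 128)
    (hac : a ≤ c) (hy : |y| ≤ 1)
    (hz : ((c : ℂ) + y * Complex.I) / (2 * t) = p + Real.log M + psi (ptz x (c + y * Complex.I)) +
      D1 (ptz x (c + y * Complex.I))) {v : ℝ} (hv : a ≤ v) :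
    ‖fker t x p Λ (v + y * Complex.I)‖ ≤ ‖fker t x p Λ (c + y * Complex.I)‖ *
      Real.exp (-(7 / 8 * (1 / (4 * t))) * (v - c) ^ 2) ∧
    ‖fker t x p Λ (v + y * Complex.I) - fker t x p Λ (c + y * Complex.I) *
      ((Real.exp (-(1 / (4 * t)) * (v - c) ^ 2) : ℝ) : ℂ)‖ ≤
      ‖fker t x p Λ (c + y * Complex.I)‖ * ((1 / (4 * t)) / 8) * ((v - c) ^ 2 *
      Real.exp (-(7 / 8 * (1 / (4 * t))) * (v - c) ^ 2)) := by
  obtain ⟨R, hR, hRe⟩ := fker_local D.M_pos G ht ha hac hy hz hv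
  set α := 1 / (4 * t) with hα
  have hα25 : 25 ≤ α := by
    rw [hα, le_div_iff₀ (by positivity)]; linarith
  have hκ : 5 / 6 + W ≤ α / 8 := by
    have : γ ^ 2 ≤ 1 := by nlinarith
    have h2 : γ ^ 2 * α / 128 ≤ 1 * α / 128 := by gcongr
    linarith
  have hR' : ‖R‖ ≤ α / 8 * (v - c) ^ 2 := hR.trans (by gcongr)
  have e1 : (-(((v - c) ^ 2 / (4 * t) : ℝ) : ℂ)) = ((-α * (v - c) ^ 2 : ℝ) : ℂ) := by
    rw [hα]; push_cast; ring
  have hexp : Complex.exp (-(((v - c) ^ 2 / (4 * t) : ℝ) : ℂ) + R) =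
      ((Real.exp (-α * (v - c) ^ 2) : ℝ) : ℂ) * Complex.exp R := by
    rw [Complex.exp_add, e1, Complex.ofReal_exp]
  rw [hRe, hexp]
  have hE : Real.exp (-α * (v - c) ^ 2) * Real.exp ‖R‖ ≤
      Real.exp (-(7 / 8 * α) * (v - c) ^ 2) := by
    rw [← Real.exp_add]
    apply Real.exp_le_exp.mpr
    linarith
  constructor
  · rw [norm_mul, norm_mul, Complex.norm_real, Real.norm_eq_abs, abs_of_pos (Real.exp_pos _),
      Complex.norm_exp]
    apply mul_le_mul_of_nonneg_left _ (norm_nonneg _)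
    refine le_trans ?_ hE
    gcongr
    exact Complex.re_le_norm R
  · have e2 : ∀ A B C : ℂ, A * (B * C) - A * B = A * B * (C - 1) := by intro A B C; ring
    rw [e2, norm_mul, norm_mul, Complex.norm_real, Real.norm_eq_abs, abs_of_pos (Real.exp_pos _)]
    have h3 : ‖Complex.exp R - 1‖ ≤ ‖R‖ * Real.exp ‖R‖ := by
      refine (norm_cexp_sub_one_le R).trans ?_
      have h4 := Real.add_one_le_exp (-‖R‖)
      have h5 := Real.exp_pos ‖R‖
      have h6 : Real.exp (-‖R‖) * Real.exp ‖R‖ = 1 := by rw [← Real.exp_add]; simp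
      nlinarith
    calc ‖fker t x p Λ (c + y * Complex.I)‖ * Real.exp (-α * (v - c) ^ 2) * ‖Complex.exp R - 1‖
        ≤ ‖fker t x p Λ (c + y * Complex.I)‖ * Real.exp (-α * (v - c) ^ 2) *
          ((α / 8 * (v - c) ^ 2) * Real.exp ‖R‖) := by
          gcongr
          refine h3.trans ?_
          gcongr
      _ = ‖fker t x p Λ (c + y * Complex.I)‖ * (α / 8) * ((v - c) ^ 2 *
          (Real.exp (-α * (v - c) ^ 2) * Real.exp ‖R‖)) := by ring
      _ ≤ _ := by gcongr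

end main

end Pool.Agent.H6
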