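import Mathlib
import Pool.Agent.H6.SadD

/-!
The half line integrals at a saddle point: main estimate.
-/

open Real MeasureTheory Set Filter Topology

namespace Pool.Agent.H6

variable {M a W x t p c y γ : ℝ} {Λ L D1 : ℂ → ℂ} {w : ℂ}

lemma sqrt_beta (ht : 0 < t) : √(π / (7 / 8 * (1 / (4 * t)))) ≤ 1.07 * √(4 * π * t) := by
  apply Real.sqrt_le_iff.mpr
  constructor
  · positivity
  · rw [mul_pow, Real.sq_sqrt (by positivity)]
    have e : π / (7 / 8 * (1 / (4 * t))) = 8 / 7 * (4 * π * t) := by field_simp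
    rw [e]
    have : 0 < π * t := by positivity
    nlinarith

lemma sqrt_half (ht : 0 < t) : √(π / ((1 / (4 * t)) / 2)) ≤ 1.5 * √(4 * π * t) := by
  apply Real.sqrt_le_iff.mpr
  constructor
  · positivity
  · rw [mul_pow, Real.sq_sqrt (by positivity)]
    have e : π / ((1 / (4 * t)) / 2) = 2 * (4 * π * t) := by field_simp
    rw [e]
    have : 0 < π * t := by positivity
    nlinarith

lemma sqrt_main (ht : 0 < t) : √(π / (1 / (4 * t))) = √(4 * π * t) := by
  congr 1; field_simp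

theorem saddle_main (D : FEData M Λ L w) (G : GoodPt M a W x Λ D1) (ht : 0 < t)
    (hS : SmallS γ t) (hγ : 0 < γ) (hγ1 : γ ≤ 1) (ha : a = γ / 4) (hW0 : 0 ≤ W)
    (hW : W ≤ γ ^ 2 * (1 / (4 * t)) / 128) (hγc : γ ≤ c) (hy : |y| ≤ 1)
    (hz : ((c : ℂ) + y * Complex.I) / (2 * t) = p + Real.log M + psi (ptz x (c + y * Complex.I)) +
      D1 (ptz x (c + y * Complex.I))) :
    √(4 * π * t) / 2 * ‖fker t x p Λ (c + y * Complex.I)‖ ≤ ‖halfInt t Λ x p‖ ∧
    ‖halfOne t Λ x p - (c + y * Complex.I) * halfInt t Λ x p‖ ≤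
      c / 2 * ‖halfInt t Λ x p‖ := by
  obtain ⟨ht100, hS1, hS2⟩ := hS
  have ht8 : t ≤ 1 / 8 := by linarith
  have ha0 : 0 ≤ a := by rw [ha]; positivity
  have hac : a ≤ c := by rw [ha]; linarith
  have hc0 : 0 < c := by linarith
  set F0 := fker t x p Λ (c + y * Complex.I) with hF0
  set α := 1 / (4 * t) with hα
  set S := √(4 * π * t) with hSdef
  have hα25 : 25 ≤ α := by
    rw [hα, le_div_iff₀ (by positivity)]; linarith
  have hα0 : 0 < α := by linarith
  have hS0 : 0 < S := Real.sqrt_pos.mpr (by positivity)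
  have hSle : S ≤ 1 := by
    rw [hSdef]
    apply Real.sqrt_le_one.mpr
    have := Real.pi_lt_d2
    nlinarith
  set β := 7 / 8 * α with hβ
  have hβ0 : 0 < β := by positivity
  have hN : 0 ≤ ‖F0‖ := norm_nonneg _
  set ε0 := Real.exp (-(γ ^ 2 / (64 * t))) with hε0
  have hε0pos : 0 < ε0 := Real.exp_pos _
  have hε0' : γ ^ 2 / (64 * t) = γ ^ 2 * α / 16 := by rw [hα]; field_simp; norm_num
  have hεS : 56 * ε0 ≤ S / 16 := by
    refine le_trans ?_ hS1
    apply mul_le_mul_of_nonneg_right _ hε0pos.le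
    have : 1 ≤ 1 / γ := by rw [le_div_iff₀ hγ]; linarith
    linarith
  -- far bound
  have hfar : ∀ v : ℝ, 0 ≤ v → v ≤ a →
      Real.exp (2 * W + |v - c| * W - (α - 5 / 6) * (v - c) ^ 2) ≤ ε0 := by
    intro v hv hva
    apply Real.exp_le_exp.mpr
    have h1 : 3 / 4 * γ ≤ |v - c| := by
      rw [abs_sub_comm, abs_of_nonneg (by linarith)]
      rw [ha] at hva
      linarith
    have h2 := expo_far (u := v - c) hγ hγ1 (by linarith) hW0 hW (by linarith)
    refine h2.trans ?_
    rw [hε0', neg_le_neg_iff]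
    have h3 : (3 / 4 * γ) ^ 2 ≤ (v - c) ^ 2 := by
      rw [← sq_abs (v - c)]
      gcongr
    nlinarith
  -- bounds on the line
  have hline0 : ∀ v : ℝ, 0 ≤ v → v ≤ a → ‖fker t x p Λ (v + y * Complex.I)‖ ≤ ‖F0‖ * ε0 := by
    intro v hv hva
    refine (line_bound D G ht ha0 hac hy hz hv).trans ?_
    gcongr
    exact hfar v hv hva
  have hnear := fun v (hv : a ≤ v) => near_bound D G ht ht100 ha0 hγ hγ1 hW0 hW hac hy hz hv
  -- abs bounds on uIoc
  have huIoc : ∀ y' ∈ uIoc 0 y, |y'| ≤ |y| ∧ |y' - y| ≤ 1 := by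
    intro y' hy'
    have h1 := uIoc_subset_uIcc hy'
    rcases le_total 0 y with h | h
    · rw [uIcc_of_le h] at h1
      rw [abs_of_nonneg h] at hy
      rw [abs_of_nonneg h, abs_of_nonneg h1.1, abs_le]
      exact ⟨h1.2, by linarith [h1.1], by linarith [h1.2]⟩
    · rw [uIcc_of_ge h] at h1
      rw [abs_of_nonpos h] at hy
      rw [abs_of_nonpos h, abs_of_nonpos h1.2, abs_le]
      exact ⟨by linarith [h1.1], by linarith [h1.1], by linarith [h1.2]⟩
  have hvert : ∀ y' ∈ uIoc 0 y, ‖fker t x p Λ (y' * Complex.I)‖ ≤ 27 * (‖F0‖ * ε0) := by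
    intro y' hy'
    obtain ⟨h1, h2⟩ := huIoc y' hy'
    refine (vert_bound D G ht ha0 hac hy hz h1 h2).trans ?_
    gcongr
    exact hfar 0 le_rfl ha0
  -- weights
  have hP1 : ∀ z : ℂ, ‖(1:ℂ)‖ ≤ 1 * (1 + ‖z‖) := by
    intro z
    have := norm_nonneg z
    simp
  set z0 : ℂ := c + y * Complex.I with hz0
  have hP2 : ∀ z : ℂ, ‖z - z0‖ ≤ (1 + ‖z0‖) * (1 + ‖z‖) := by
    intro z
    have h1 := norm_nonneg z
    have h2 := norm_nonneg z0
    refine (norm_sub_le _ _).trans ?_
    nlinarith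
  have hsh0 := fker_shift D ht ht8 x p y (P := fun _ => 1) (differentiable_const _) zero_le_one
    (fun z => hP1 z)
  have hsh1 := fker_shift D ht ht8 x p y (P := fun z => z - z0) (by fun_prop) (by positivity)
    (fun z => hP2 z)
  have hint0 := fker_integrable D ht ht8 x p y (P := fun _ => 1) (differentiable_const _)
    zero_le_one (fun z => hP1 z)
  have hint1 := fker_integrable D ht ht8 x p y (P := fun z => z - z0) (by fun_prop) (by positivity)
    (fun z => hP2 z)
  have hintr0 := fker_integrable D ht ht8 x p 0 (P := fun _ => 1) (differentiable_const _)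
    zero_le_one (fun z => hP1 z)
  have hintr1 := fker_integrable D ht ht8 x p 0 (P := fun z => z) (by fun_prop) zero_le_one
    (fun z => by
      have := norm_nonneg z
      linarith)
  simp only [Complex.ofReal_zero, zero_mul, add_zero, one_mul] at hintr0 hintr1
  simp only [one_mul] at hsh0 hint0
  have hline_w : ∀ v : ℝ, (v : ℂ) + y * Complex.I - z0 = ((v - c : ℝ) : ℂ) := by
    intro v; rw [hz0]; push_cast; ring
  simp only [hline_w] at hsh1 hint1
  have hK : halfInt t Λ x p = Complex.I * (∫ y' in (0:ℝ)..y, fker t x p Λ (y' * Complex.I)) +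
      ∫ v in Ioi (0:ℝ), fker t x p Λ (v + y * Complex.I) := by
    rw [halfInt_eq_fker]; exact hsh0
  have hK1 : halfOne t Λ x p - z0 * halfInt t Λ x p =
      Complex.I * (∫ y' in (0:ℝ)..y, (y' * Complex.I - z0) * fker t x p Λ (y' * Complex.I)) +
      ∫ v in Ioi (0:ℝ), ((v - c : ℝ) : ℂ) * fker t x p Λ (v + y * Complex.I) := by
    rw [← hsh1, halfInt_eq_fker]
    unfold halfOne
    rw [← integral_const_mul, ← integral_sub hintr1 (hintr0.const_mul _)]
    apply integral_congr_ae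
    filter_upwards with v
    ring
  -- splitting
  have hsplit : ∀ f : ℝ → ℂ, IntegrableOn f (Ioi 0) →
      ∫ v in Ioi (0:ℝ), f v = (∫ v in Ioc 0 a, f v) + ∫ v in Ioi a, f v := by
    intro f hf
    rw [← Ioc_union_Ioi_eq_Ioi ha0]
    exact setIntegral_union (Ioc_disjoint_Ioi le_rfl) measurableSet_Ioi
      (hf.mono_set Ioc_subset_Ioi_self) (hf.mono_set (Ioi_subset_Ioi ha0))
  have ha1 : a ≤ 1 := by rw [ha]; linarith
  have hvol : (volume.real (Ioc 0 a)) = a := by simp [ha0]
  -- vertical pieces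
  have hV0 : ‖Complex.I * (∫ y' in (0:ℝ)..y, fker t x p Λ (y' * Complex.I))‖ ≤
      27 * (‖F0‖ * ε0) := by
    rw [norm_mul, Complex.norm_I, one_mul]
    refine (intervalIntegral.norm_integral_le_of_norm_le_const hvert).trans ?_
    rw [sub_zero]
    have : 0 ≤ 27 * (‖F0‖ * ε0) := by positivity
    nlinarith
  have hV1 : ‖Complex.I * (∫ y' in (0:ℝ)..y, (y' * Complex.I - z0) *
      fker t x p Λ (y' * Complex.I))‖ ≤ 27 * ((1 + c) * (‖F0‖ * ε0)) := by
    rw [norm_mul, Complex.norm_I, one_mul]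
    have hb : ∀ y' ∈ uIoc 0 y, ‖(y' * Complex.I - z0) * fker t x p Λ (y' * Complex.I)‖ ≤
        (1 + c) * (27 * (‖F0‖ * ε0)) := by
      intro y' hy'
      rw [norm_mul]
      have h1 : ‖(y' : ℂ) * Complex.I - z0‖ ≤ 1 + c := by
        have e : (y' : ℂ) * Complex.I - z0 = ((y' - y : ℝ) : ℂ) * Complex.I - (c : ℂ) := by
          rw [hz0]; push_cast; ring
        rw [e]
        refine (norm_sub_le _ _).trans ?_
        rw [norm_mul, Complex.norm_I, mul_one, Complex.norm_real, Complex.norm_real,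
          Real.norm_eq_abs, Real.norm_eq_abs, abs_of_pos hc0]
        have := (huIoc y' hy').2
        linarith
      have := hvert y' hy'
      gcongr
    refine (intervalIntegral.norm_integral_le_of_norm_le_const hb).trans ?_
    rw [sub_zero]
    have : 0 ≤ (1 + c) * (27 * (‖F0‖ * ε0)) := by positivity
    nlinarith
  -- left pieces
  have hL0 : ‖∫ v in Ioc 0 a, fker t x p Λ (v + y * Complex.I)‖ ≤ ‖F0‖ * ε0 := by
    refine (norm_setIntegral_le_of_norm_le_const (C := ‖F0‖ * ε0) (by simp)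
      (fun v hv => hline0 v hv.1.le hv.2)).trans ?_
    rw [hvol]
    have : 0 ≤ ‖F0‖ * ε0 := by positivity
    nlinarith
  have hL1 : ‖∫ v in Ioc 0 a, ((v - c : ℝ) : ℂ) * fker t x p Λ (v + y * Complex.I)‖ ≤
      c * (‖F0‖ * ε0) := by
    refine (norm_setIntegral_le_of_norm_le_const (C := c * (‖F0‖ * ε0)) (by simp)
      (fun v hv => ?_)).trans ?_
    · rw [norm_mul, Complex.norm_real, Real.norm_eq_abs]
      have h1 : |v - c| ≤ c := by
        rw [abs_sub_comm, abs_of_nonneg (by linarith [hv.2])]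
        linarith [hv.1]
      have := hline0 v hv.1.le hv.2
      gcongr
    · rw [hvol]
      have : 0 ≤ c * (‖F0‖ * ε0) := by positivity
      nlinarith
  -- right pieces
  have hR1 : ‖∫ v in Ioi a, ((v - c : ℝ) : ℂ) * fker t x p Λ (v + y * Complex.I)‖ ≤
      ‖F0‖ * (32 * t / 7) := by
    have hb : ∫ v : ℝ, ‖F0‖ * (|v - c| * Real.exp (-β * (v - c) ^ 2)) = ‖F0‖ * (32 * t / 7) := by
      rw [integral_const_mul, integral_abs_gauss hβ0]
      congr 1
      rw [hβ, hα]; field_simp; norm_num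
    rw [← hb]
    have hbi : Integrable (fun v : ℝ => ‖F0‖ * (|v - c| * Real.exp (-β * (v - c) ^ 2))) :=
      (integrable_abs_gauss hβ0 c).const_mul _
    refine (norm_integral_le_of_norm_le (hbi.integrableOn (s := Ioi a)) ?_).trans ?_
    · filter_upwards [ae_restrict_mem measurableSet_Ioi] with v hv
      rw [norm_mul, Complex.norm_real, Real.norm_eq_abs]
      have h1 := (hnear v (le_of_lt hv)).1
      calc |v - c| * ‖fker t x p Λ (v + y * Complex.I)‖
          ≤ |v - c| * (‖F0‖ * Real.exp (-(7 / 8 * (1 / (4 * t))) * (v - c) ^ 2)) := by gcongr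
        _ = _ := by rw [hβ, hα]; ring
    · apply setIntegral_le_integral hbi
      filter_upwards with v
      positivity
  have hR0 : ‖F0‖ * (S - 1.5 * ε0 * S - 0.0765 * S) ≤
      ‖∫ v in Ioi a, fker t x p Λ (v + y * Complex.I)‖ := by
    have hgi := integrable_gauss hα0 c
    have h1 : ∫ v in Ioi a, Real.exp (-α * (v - c) ^ 2) =
        S - ∫ v in Iic a, Real.exp (-α * (v - c) ^ 2) := by
      have h2 := integral_add_compl (measurableSet_Iic (a := a)) hgi
      rw [compl_Iic, integral_gauss, hα, sqrt_main ht, ← hα, ← hSdef] at h2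
      linarith
    have h2 : ∫ v in Iic a, Real.exp (-α * (v - c) ^ 2) ≤ ε0 * (1.5 * S) := by
      have hgi2 := (integrable_gauss (b := α / 2) (by positivity) c).const_mul ε0
      calc ∫ v in Iic a, Real.exp (-α * (v - c) ^ 2)
          ≤ ∫ v in Iic a, ε0 * Real.exp (-(α / 2) * (v - c) ^ 2) := by
            apply setIntegral_mono_on hgi.integrableOn hgi2.integrableOn measurableSet_Iic
            intro v hv
            have hva : v ≤ a := hv
            rw [hε0, ← Real.exp_add]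
            apply Real.exp_le_exp.mpr
            rw [hε0']
            have h3 : 3 / 4 * γ ≤ |v - c| := by
              rw [abs_sub_comm, abs_of_nonneg (by linarith)]
              rw [ha] at hva
              linarith
            have h4 : (3 / 4 * γ) ^ 2 ≤ (v - c) ^ 2 := by
              rw [← sq_abs (v - c)]
              gcongr
            nlinarith
        _ ≤ ∫ v, ε0 * Real.exp (-(α / 2) * (v - c) ^ 2) := by
            apply setIntegral_le_integral hgi2
            filter_upwards with v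
            positivity
        _ = ε0 * √(π / (α / 2)) := by rw [integral_const_mul, integral_gauss]
        _ ≤ ε0 * (1.5 * S) := by
            gcongr
            exact sqrt_half ht
    have h3 : ‖(∫ v in Ioi a, fker t x p Λ (v + y * Complex.I)) -
        F0 * ((∫ v in Ioi a, Real.exp (-α * (v - c) ^ 2) : ℝ) : ℂ)‖ ≤ ‖F0‖ * (0.0765 * S) := by
      have hgiC : IntegrableOn (fun v : ℝ => F0 * ((Real.exp (-α * (v - c) ^ 2) : ℝ) : ℂ))
          (Ioi a) := ((hgi.integrableOn (s := Ioi a)).ofReal (𝕜 := ℂ)).const_mul F0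
      rw [← integral_complex_ofReal, ← integral_const_mul,
        ← integral_sub (hint0.mono_set (Ioi_subset_Ioi ha0)) hgiC]
      have hbi : Integrable (fun v : ℝ => ‖F0‖ * (α / 8) * ((v - c) ^ 2 *
          Real.exp (-β * (v - c) ^ 2))) := (integrable_sq_gauss hβ0 c).const_mul _
      refine (norm_integral_le_of_norm_le (hbi.integrableOn (s := Ioi a)) ?_).trans ?_
      · filter_upwards [ae_restrict_mem measurableSet_Ioi] with v hv
        exact (hnear v (le_of_lt hv)).2
      · refine (setIntegral_le_integral hbi ?_).trans ?_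
        · filter_upwards with v
          positivity
        · rw [integral_const_mul, integral_sq_gauss hβ0]
          have h4 : √(π / β) ≤ 1.07 * S := sqrt_beta ht
          calc ‖F0‖ * (α / 8) * (√(π / β) / (2 * β)) = ‖F0‖ * (√(π / β) / 14) := by
                rw [hβ]; field_simp; ring
            _ ≤ ‖F0‖ * (1.07 * S / 14) := by gcongr
            _ ≤ ‖F0‖ * (0.0765 * S) := by
                gcongr
                nlinarith
    have h4 : ‖F0 * ((∫ v in Ioi a, Real.exp (-α * (v - c) ^ 2) : ℝ) : ℂ)‖ =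
        ‖F0‖ * ∫ v in Ioi a, Real.exp (-α * (v - c) ^ 2) := by
      rw [norm_mul, Complex.norm_real, Real.norm_eq_abs, abs_of_nonneg]
      apply setIntegral_nonneg measurableSet_Ioi
      intro v _
      positivity
    have h5 : ‖F0‖ * (S - ε0 * (1.5 * S)) ≤
        ‖F0 * ((∫ v in Ioi a, Real.exp (-α * (v - c) ^ 2) : ℝ) : ℂ)‖ := by
      rw [h4, h1]
      gcongr
    have h6 := norm_sub_norm_le (F0 * ((∫ v in Ioi a, Real.exp (-α * (v - c) ^ 2) : ℝ) : ℂ))
      (F0 * ((∫ v in Ioi a, Real.exp (-α * (v - c) ^ 2) : ℝ) : ℂ) -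
        (∫ v in Ioi a, fker t x p Λ (v + y * Complex.I)))
    rw [sub_sub_cancel, norm_sub_rev (F0 * _)] at h6
    nlinarith
  have hres0 : S / 2 * ‖F0‖ ≤ ‖halfInt t Λ x p‖ := by
    rw [hK, hsplit _ hint0]
    set I0 := ∫ v in Ioi a, fker t x p Λ (v + y * Complex.I) with hI0
    set L0 := ∫ v in Ioc 0 a, fker t x p Λ (v + y * Complex.I) with hL0'
    set V0 := Complex.I * (∫ y' in (0:ℝ)..y, fker t x p Λ (y' * Complex.I)) with hV0'
    have h1 : ‖I0‖ ≤ ‖V0 + (L0 + I0)‖ + ‖V0‖ + ‖L0‖ := by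
      have e : I0 = (V0 + (L0 + I0)) - V0 - L0 := by ring
      calc ‖I0‖ = ‖(V0 + (L0 + I0)) - V0 - L0‖ := by rw [← e]
        _ ≤ ‖(V0 + (L0 + I0)) - V0‖ + ‖L0‖ := norm_sub_le _ _
        _ ≤ _ := by
            gcongr
            exact norm_sub_le _ _
    have h2 : 28 * (‖F0‖ * ε0) ≤ ‖F0‖ * (S / 32) := by
      calc 28 * (‖F0‖ * ε0) = ‖F0‖ * (28 * ε0) := by ring
        _ ≤ ‖F0‖ * (S / 32) := by
            gcongr
            linarith
    have h3 : ‖F0‖ * (1.5 * ε0 * S) ≤ ‖F0‖ * (0.01 * S) := by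
      have : ε0 ≤ 1 / 896 := by linarith
      gcongr
      linarith
    nlinarith
  refine ⟨hres0, ?_⟩
  rw [hK1, hsplit _ hint1]
  have h1 : (1 + c) * ε0 ≤ c * ((1 + 1 / γ) * ε0) := by
    have h2 : 1 ≤ c * (1 / γ) := by
      rw [mul_one_div, le_div_iff₀ hγ]; linarith
    nlinarith
  have h2 : 28 * ((1 + c) * (‖F0‖ * ε0)) ≤ ‖F0‖ * (c * (S / 16)) := by
    calc 28 * ((1 + c) * (‖F0‖ * ε0)) = ‖F0‖ * (28 * ((1 + c) * ε0)) := by ring
      _ ≤ ‖F0‖ * (28 * (c * ((1 + 1 / γ) * ε0))) := by gcongr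
      _ = ‖F0‖ * (c * (28 * (1 + 1 / γ) * ε0)) := by ring
      _ ≤ _ := by gcongr
  have h3 : ‖F0‖ * (32 * t / 7) ≤ ‖F0‖ * (3 / 16 * c * S) := by
    gcongr
    refine hS2.trans ?_
    gcongr
  have h4 : c * (‖F0‖ * ε0) ≤ (1 + c) * (‖F0‖ * ε0) := by
    have : 0 ≤ ‖F0‖ * ε0 := by positivity
    nlinarith
  calc ‖Complex.I * (∫ y' in (0:ℝ)..y, (y' * Complex.I - z0) * fker t x p Λ (y' * Complex.I)) +
      ((∫ v in Ioc 0 a, ((v - c : ℝ) : ℂ) * fker t x p Λ (v + y * Complex.I)) +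
        ∫ v in Ioi a, ((v - c : ℝ) : ℂ) * fker t x p Λ (v + y * Complex.I))‖
      ≤ 27 * ((1 + c) * (‖F0‖ * ε0)) + (c * (‖F0‖ * ε0) + ‖F0‖ * (32 * t / 7)) := by
        refine (norm_add_le _ _).trans (add_le_add hV1 ((norm_add_le _ _).trans
          (add_le_add hL1 hR1)))
    _ ≤ ‖F0‖ * (c * (S / 16)) + ‖F0‖ * (3 / 16 * c * S) := by linarith
    _ = c / 2 * (S / 2 * ‖F0‖) := by ring
    _ ≤ c / 2 * ‖halfInt t Λ x p‖ := by gcongr

end Pool.Agent.H6
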