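import Mathlib
import Pool.Agent.H6.SadE
import Pool.Agent.H6.HeatSharp

/-!
Zeros of the heat flow deformation at a height where the L-function is well-behaved.
-/

open Real MeasureTheory Set Filter Topology

namespace Pool.Agent.H6

variable {M a W x t p c y γ : ℝ} {Λ L D1 : ℂ → ℂ} {w : ℂ}

lemma fker_integrable_zero (D : FEData M Λ L w) (ht : 0 < t) (ht8 : t ≤ 1 / 8) (x p : ℝ) :
    IntegrableOn (fun v : ℝ => fker t x p Λ v) (Ioi 0) := by
  have h := fker_integrable D ht ht8 x p 0 (P := fun _ => 1) (differentiable_const _)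
    zero_le_one (fun z => by
      have := norm_nonneg z
      simp)
  simpa using h

lemma fker_integrable_one (D : FEData M Λ L w) (ht : 0 < t) (ht8 : t ≤ 1 / 8) (x p : ℝ) :
    IntegrableOn (fun v : ℝ => (v : ℂ) * fker t x p Λ v) (Ioi 0) := by
  have h := fker_integrable D ht ht8 x p 0 (P := fun z => z) (by fun_prop)
    zero_le_one (fun z => by
      have := norm_nonneg z
      linarith)
  simpa using h

lemma norm_fker_real (t x p : ℝ) (Λ : ℂ → ℂ) (v : ℝ) :
    ‖fker t x p Λ v‖ = ‖Λ (ptz x v)‖ * Real.exp (-(v ^ 2 / (4 * t)) + p * v) := by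
  unfold fker
  rw [norm_mul]
  have := norm_expo t p v 0
  simp only [Complex.ofReal_zero, zero_mul, add_zero] at this
  rw [this]
  congr 3
  ring

lemma hasDerivAt_halfInt (D : FEData M Λ L w) (ht : 0 < t) (ht8 : t ≤ 1 / 8) (x p : ℝ) :
    HasDerivAt (fun p : ℝ => halfInt t Λ x p) (halfOne t Λ x p) p := by
  have e : (fun p : ℝ => halfInt t Λ x p) = fun p : ℝ => ∫ v in Ioi (0:ℝ), fker t x p Λ v := by
    funext p
    exact halfInt_eq_fker t x p Λ
  rw [e]
  have hb := (fker_integrable_one D ht ht8 x (p + 1)).norm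
  have hcont : ∀ p : ℝ, Continuous (fun v : ℝ => fker t x p Λ v) := fun p =>
    (fker_diff D.diff t x p).continuous.comp Complex.continuous_ofReal
  have key := hasDerivAt_integral_of_dominated_loc_of_deriv_le
    (μ := volume.restrict (Ioi (0:ℝ))) (F := fun (p : ℝ) (v : ℝ) => fker t x p Λ v)
    (F' := fun (p : ℝ) (v : ℝ) => (v : ℂ) * fker t x p Λ v) (x₀ := p)
    (bound := fun v => ‖(v : ℂ) * fker t x (p + 1) Λ v‖) (Metric.ball_mem_nhds p one_pos)
    (Eventually.of_forall fun p' => (hcont p').aestronglyMeasurable)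
    (fker_integrable_zero D ht ht8 x p)
    ((Complex.continuous_ofReal.mul (hcont p)).aestronglyMeasurable) ?_ hb ?_
  · exact key.2
  · filter_upwards [ae_restrict_mem measurableSet_Ioi] with v hv
    intro p' hp'
    have hv0 : (0:ℝ) < v := hv
    have hp1 : p' ≤ p + 1 := by
      have := (abs_lt.mp (Metric.mem_ball.mp hp')).2
      linarith
    rw [norm_mul, norm_mul, norm_fker_real, norm_fker_real]
    gcongr
  · filter_upwards with v
    intro p' _
    have h1 : HasDerivAt (fun p' : ℝ => -(((v : ℂ)) ^ 2 / (4 * t)) + (p' : ℂ) * v) (v : ℂ) p' := by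
      have := ((hasDerivAt_id p').ofReal_comp).mul_const (v : ℂ)
      simpa using this.const_add (-(((v : ℂ)) ^ 2 / (4 * t)))
    have h2 := (h1.cexp).const_mul (Λ (ptz x v))
    unfold fker
    convert! h2 using 1
    ring

/-- the saddle point dominates the reflected integral for large tilt -/
lemma far_comparison (D : FEData M Λ L w) (G : GoodPt M a W x Λ D1) (ht : 0 < t)
    (hS : SmallS γ t) (hγ : 0 < γ) (hγ1 : γ ≤ 1) (ha : a = γ / 4) (hW0 : 0 ≤ W)
    (hW : W ≤ γ ^ 2 * (1 / (4 * t)) / 128) (hγc : γ ≤ c) (hy : |y| ≤ 1)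
    (hz : ((c : ℂ) + y * Complex.I) / (2 * t) = p + Real.log M + psi (ptz x (c + y * Complex.I)) +
      D1 (ptz x (c + y * Complex.I))) (hp : γ / (2 * t) ≤ p) :
    ‖halfInt t Λ x (-p)‖ < ‖halfInt t Λ x p‖ := by
  obtain ⟨hmain, -⟩ := saddle_main D G ht hS hγ hγ1 ha hW0 hW hγc hy hz
  obtain ⟨ht100, hS1, hS2⟩ := hS
  have ht8 : t ≤ 1 / 8 := by linarith
  have ha0 : 0 ≤ a := by rw [ha]; positivity
  have hac : a ≤ c := by rw [ha]; linarith
  have hc0 : 0 < c := by linarith
  have hp0 : 0 < p := lt_of_lt_of_le (by positivity) hp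
  have hle := fun v (hv : 0 ≤ v) => fker_le D.M_pos G ht ha0 hac hy hz hv
  set F0 := fker t x p Λ (c + y * Complex.I) with hF0
  set α := 1 / (4 * t) with hα
  set S := √(4 * π * t) with hSdef
  have hα25 : 25 ≤ α := by
    rw [hα, le_div_iff₀ (by positivity)]; linarith
  have hα0 : 0 < α := by linarith
  have hS0 : 0 < S := Real.sqrt_pos.mpr (by positivity)
  have hSle : S ≤ 1 := by
    rw [hSdef]
    apply Real.sqrt_le_one.mpr
    have := Real.pi_lt_d2
    nlinarith
  set ε0 := Real.exp (-(γ ^ 2 / (64 * t))) with hε0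
  have hε0pos : 0 < ε0 := Real.exp_pos _
  have hε0' : γ ^ 2 / (64 * t) = γ ^ 2 * α / 16 := by rw [hα]; field_simp; norm_num
  have hεS : 56 * ε0 ≤ S / 16 := by
    refine le_trans ?_ hS1
    apply mul_le_mul_of_nonneg_right _ hε0pos.le
    have : 1 ≤ 1 / γ := by rw [le_div_iff₀ hγ]; linarith
    linarith
  have hF0pos : 0 < ‖F0‖ := by
    rw [hF0]
    unfold fker
    rw [norm_mul, norm_expo, ptz_eq_pt, Lambda_eq D.M_pos hc0.le Λ, norm_mul]
    have h1 := G.low (pt (x + y) c) (by rw [pt_re]; linarith) (by simp [pt]; simpa using hy)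
    have h2 : 0 < ‖Gfun M (x + y) c‖ := norm_pos_iff.mpr (Gfun_ne_zero D.M_pos hc0.le)
    have h3 := Real.exp_pos (-W)
    have h4 : 0 < ‖Lt M Λ (pt (x + y) c)‖ := lt_of_lt_of_le h3 h1
    positivity
  have hpt : 2 * p ≥ 4 * α * γ := by
    have : γ / (2 * t) = 2 * α * γ := by rw [hα]; field_simp; ring
    rw [this] at hp
    linarith
  -- pointwise bound
  have hpoint : ∀ v : ℝ, 0 < v → ‖fker t x (-p) Λ v‖ ≤
      27 * ‖F0‖ * ε0 * Real.exp (-(α / 2) * (v - c) ^ 2) := by
    intro v hv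
    rw [norm_fker_real]
    have e : ptz x (v : ℂ) = pt x v := by simp only [pt, ptz]; push_cast; ring
    rw [e, Lambda_eq D.M_pos hv.le Λ, norm_mul]
    have h1 := G.up (pt x v) (by rw [pt_re]; linarith) (by simp [pt])
    have h2 := norm_Gfun_vert (x := x + y) (v := v) D.M_pos hv.le (τ := -y)
      (by rw [abs_neg]; exact hy)
    have e2 : x + y + -y = x := by ring
    rw [e2] at h2
    have h3 : Real.exp (-(v ^ 2 / (4 * t)) + -p * v) ≤
        Real.exp (-((v ^ 2 - y ^ 2) / (4 * t)) + p * v) * Real.exp (-(2 * p * v)) := by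
      rw [← Real.exp_add]
      apply Real.exp_le_exp.mpr
      have : 0 ≤ y ^ 2 / (4 * t) := by positivity
      have e3 : -((v ^ 2 - y ^ 2) / (4 * t)) = -(v ^ 2 / (4 * t)) + y ^ 2 / (4 * t) := by ring
      rw [e3]
      linarith
    have h4 := hle v hv.le
    have h5 : Real.exp (2 * W + |v - c| * W - (α - 5 / 6) * (v - c) ^ 2) *
        Real.exp (-(2 * p * v)) ≤ ε0 * Real.exp (-(α / 2) * (v - c) ^ 2) := by
      rw [hε0, ← Real.exp_add, ← Real.exp_add]
      apply Real.exp_le_exp.mpr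
      rw [hε0']
      rcases le_or_gt (γ / 2) |v - c| with h | h
      · have h6 := expo_far (u := v - c) hγ hγ1 (by linarith) hW0 hW h
        have h7 : (γ / 2) ^ 2 ≤ (v - c) ^ 2 := by
          rw [← sq_abs (v - c)]
          gcongr
        have h8 : 0 ≤ 2 * p * v := by positivity
        nlinarith
      · have h6 := expo_all (u := v - c) hγ hγ1 (by linarith) hW0 hW
        have h7 : γ / 2 ≤ v := by
          have := (abs_lt.mp h).1
          linarith
        have h8 : 4 * α * γ * (γ / 2) ≤ 2 * p * v := by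
          have h9 : 0 ≤ 4 * α * γ := by positivity
          calc 4 * α * γ * (γ / 2) ≤ 4 * α * γ * v := by gcongr
            _ ≤ 2 * p * v := by
              apply mul_le_mul_of_nonneg_right _ hv.le
              linarith
        have h9 : 0 ≤ α * (v - c) ^ 2 := by positivity
        have h10 : 0 ≤ α * γ ^ 2 := by positivity
        nlinarith
    calc ‖Gfun M x v‖ * ‖Lt M Λ (pt x v)‖ * Real.exp (-(v ^ 2 / (4 * t)) + -p * v)
        ≤ (27 * ‖Gfun M (x + y) v‖) * Real.exp W *
          (Real.exp (-((v ^ 2 - y ^ 2) / (4 * t)) + p * v) * Real.exp (-(2 * p * v))) := by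
          gcongr
      _ = 27 * (Real.exp W * ‖Gfun M (x + y) v‖ *
          Real.exp (-((v ^ 2 - y ^ 2) / (4 * t)) + p * v)) * Real.exp (-(2 * p * v)) := by ring
      _ ≤ 27 * (‖F0‖ * Real.exp (2 * W + |v - c| * W - (α - 5 / 6) * (v - c) ^ 2)) *
          Real.exp (-(2 * p * v)) := by gcongr
      _ = 27 * ‖F0‖ * (Real.exp (2 * W + |v - c| * W - (α - 5 / 6) * (v - c) ^ 2) *
          Real.exp (-(2 * p * v))) := by ring
      _ ≤ 27 * ‖F0‖ * (ε0 * Real.exp (-(α / 2) * (v - c) ^ 2)) := by gcongr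
      _ = _ := by ring
  have hbi : Integrable (fun v : ℝ => 27 * ‖F0‖ * ε0 * Real.exp (-(α / 2) * (v - c) ^ 2)) :=
    (integrable_gauss (b := α / 2) (by positivity) c).const_mul _
  have h1 : ‖halfInt t Λ x (-p)‖ ≤ 27 * ‖F0‖ * ε0 * (1.5 * S) := by
    rw [halfInt_eq_fker]
    refine (norm_integral_le_of_norm_le (hbi.integrableOn (s := Ioi 0)) ?_).trans ?_
    · filter_upwards [ae_restrict_mem measurableSet_Ioi] with v hv
      exact hpoint v hv
    · refine (setIntegral_le_integral hbi ?_).trans ?_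
      · filter_upwards with v
        positivity
      · rw [integral_const_mul, integral_gauss]
        gcongr
        exact sqrt_half ht
  refine lt_of_le_of_lt h1 (lt_of_lt_of_le ?_ hmain)
  have h2 : ε0 ≤ 1 / 896 := by linarith
  calc 27 * ‖F0‖ * ε0 * (1.5 * S) = (S * ‖F0‖) * (40.5 * ε0) := by ring
    _ ≤ (S * ‖F0‖) * (40.5 * (1 / 896)) := by gcongr
    _ < (S * ‖F0‖) * (1 / 2) := by
        apply mul_lt_mul_of_pos_left _ (by positivity)
        norm_num
    _ = S / 2 * ‖F0‖ := by ring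

/-- consequences of the saddle point analysis, all tilts -/
theorem half_lt_all (D : FEData M Λ L w) (G : GoodPt M a W x Λ D1) (ht : 0 < t)
    (hS : SmallS γ t) (hγ : 0 < γ) (hγ1 : γ ≤ 1) (ha : a = γ / 4) (hW0 : 0 ≤ W)
    (hW : W ≤ γ ^ 2 * (1 / (4 * t)) / 128)
    (h0 : 3 * γ ≤ 2 * t * (Real.log (M * ‖pt x 0‖) - 2)) :
    (∀ p : ℝ, 0 < p → ‖halfInt t Λ x (-p)‖ < ‖halfInt t Λ x p‖) ∧
    0 < (halfOne t Λ x 0 * (starRingEnd ℂ) (halfInt t Λ x 0)).re := by
  have ht100 := hS.1
  have ht8 : t ≤ 1 / 8 := by linarith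
  have h2tW : 2 * t * W ≤ γ ^ 2 / 256 := by
    calc 2 * t * W ≤ 2 * t * (γ ^ 2 * (1 / (4 * t)) / 128) := by gcongr
      _ = γ ^ 2 / 256 := by field_simp; norm_num
  have hγ2 : γ ^ 2 ≤ γ := by nlinarith
  have hsad : ∀ p : ℝ, -(γ / (2 * t)) ≤ p → ∃ c y : ℝ, γ ≤ c ∧ |y| ≤ 1 ∧
      ((c : ℂ) + y * Complex.I) / (2 * t) = p + Real.log M + psi (ptz x (c + y * Complex.I)) +
      D1 (ptz x (c + y * Complex.I)) := by
    intro p hp
    obtain ⟨z, h1, h2, h3⟩ := exists_saddle D.M_pos G ht (by linarith) hγ (by rw [ha]; linarith)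
      (by linarith) (by linarith) hp h0
    refine ⟨z.re, z.im, h1, h2, ?_⟩
    rw [Complex.re_add_im]
    exact h3
  have hpos : ∀ p : ℝ, -(γ / (2 * t)) ≤ p →
      0 < (halfOne t Λ x p * (starRingEnd ℂ) (halfInt t Λ x p)).re := by
    intro p hp
    obtain ⟨c, y, hγc, hy, hz⟩ := hsad p hp
    obtain ⟨h1, h2⟩ := saddle_main D G ht hS hγ hγ1 ha hW0 hW hγc hy hz
    have hc0 : 0 < c := by linarith
    set K := halfInt t Λ x p with hK
    set K1 := halfOne t Λ x p with hK1
    have hF0pos : 0 < ‖fker t x p Λ (c + y * Complex.I)‖ := by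
      unfold fker
      rw [norm_mul, norm_expo, ptz_eq_pt, Lambda_eq D.M_pos hc0.le Λ, norm_mul]
      have h1 := G.low (pt (x + y) c) (by rw [pt_re, ha]; linarith)
        (by simp [pt]; simpa using hy)
      have h2 : 0 < ‖Gfun M (x + y) c‖ := norm_pos_iff.mpr (Gfun_ne_zero D.M_pos hc0.le)
      have h3 := Real.exp_pos (-W)
      have h4 : 0 < ‖Lt M Λ (pt (x + y) c)‖ := lt_of_lt_of_le h3 h1
      positivity
    have hS0 : 0 < √(4 * π * t) := Real.sqrt_pos.mpr (by positivity)
    have hKpos : 0 < ‖K‖ := lt_of_lt_of_le (by positivity) h1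
    have e : K1 * (starRingEnd ℂ) K = (c + y * Complex.I) * (K * (starRingEnd ℂ) K) +
        (K1 - (c + y * Complex.I) * K) * (starRingEnd ℂ) K := by ring
    rw [e, Complex.add_re, Complex.mul_conj, Complex.normSq_eq_norm_sq]
    have h3 : (((c : ℂ) + y * Complex.I) * ((‖K‖ ^ 2 : ℝ) : ℂ)).re = c * ‖K‖ ^ 2 := by
      rw [Complex.re_mul_ofReal]; simp
    rw [h3]
    have h4 : -(c / 2 * ‖K‖ * ‖K‖) ≤
        ((K1 - (c + y * Complex.I) * K) * (starRingEnd ℂ) K).re := by
      have h5 := (abs_le.mp (Complex.abs_re_le_norm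
        ((K1 - (c + y * Complex.I) * K) * (starRingEnd ℂ) K))).1
      rw [norm_mul, Complex.norm_conj] at h5
      have h6 : ‖K1 - (c + y * Complex.I) * K‖ * ‖K‖ ≤ c / 2 * ‖K‖ * ‖K‖ := by gcongr
      linarith
    have h5 : 0 < c * ‖K‖ ^ 2 := by positivity
    nlinarith
  refine ⟨?_, hpos 0 (by
    have : 0 < γ / (2 * t) := by positivity
    linarith)⟩
  intro p hp
  rcases le_total (γ / (2 * t)) p with h | h
  · obtain ⟨c, y, hγc, hy, hz⟩ := hsad p (by
      have : 0 < γ / (2 * t) := by positivity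
      linarith)
    exact far_comparison D G ht hS hγ hγ1 ha hW0 hW hγc hy hz h
  · have hmono : StrictMonoOn (fun q : ℝ => ‖halfInt t Λ x q‖ ^ 2) (Icc (-p) p) := by
      apply strictMonoOn_of_deriv_pos (convex_Icc _ _)
      · intro q _
        exact ((hasDerivAt_halfInt D ht ht8 x q).norm_sq).continuousAt.continuousWithinAt
      · intro q hq
        rw [interior_Icc] at hq
        rw [((hasDerivAt_halfInt D ht ht8 x q).norm_sq).deriv]
        have h1 := hpos q (by linarith [hq.1])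
        have h2 : inner ℝ (halfInt t Λ x q) (halfOne t Λ x q) =
            (halfOne t Λ x q * (starRingEnd ℂ) (halfInt t Λ x q)).re := by
          rw [Complex.inner]
        rw [h2]
        linarith
    have h1 := hmono (left_mem_Icc.mpr (by linarith)) (right_mem_Icc.mpr (by linarith))
      (by linarith : -p < p)
    exact lt_of_pow_lt_pow_left₀ 2 (norm_nonneg _) h1

end Pool.Agent.H6
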