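import Mathlib
import Pool.Agent.H6.SadF

/-!
Zeros of the heat flow deformation at a height where the L-function is well-behaved.
-/

open Real MeasureTheory Set Filter Topology

namespace Pool.Agent.H6

namespace FEData

variable {M : ℝ} {Λ L : ℂ → ℂ} {w : ℂ}

theorem zero_re_of_half (D : FEData M Λ L w) {t : ℝ} (ht : 0 < t) (ht8 : t ≤ 1 / 8) {s : ℂ}
    (hs : heatInt t Λ s = 0)
    (hlt : ∀ p : ℝ, 0 < p → ‖halfInt t Λ s.im (-p)‖ < ‖halfInt t Λ s.im p‖) : s.re = 1 := by
  rw [D.heatInt_eq ht ht8] at hs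
  have hne : ((Real.exp (-((s.re - 1) ^ 2 / (4 * t))) : ℝ) : ℂ) ≠ 0 := by
    exact_mod_cast (Real.exp_pos _).ne'
  have h1 := (mul_eq_zero.mp hs).resolve_left hne
  have h2 : ‖halfInt t Λ s.im ((s.re - 1) / (2 * t))‖ =
      ‖halfInt t Λ s.im (-((s.re - 1) / (2 * t)))‖ := by
    have h3 : halfInt t Λ s.im ((s.re - 1) / (2 * t)) =
        -(w * (starRingEnd ℂ) (halfInt t Λ s.im (-((s.re - 1) / (2 * t))))) :=
      eq_neg_of_add_eq_zero_left h1
    rw [h3, norm_neg, norm_mul, D.norm_w, one_mul, Complex.norm_conj]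
  by_contra hne1
  rcases lt_or_gt_of_ne hne1 with hlt1 | hgt
  · have hp : 0 < -((s.re - 1) / (2 * t)) := by
      rw [← neg_div]
      apply div_pos <;> linarith
    have := hlt _ hp
    rw [neg_neg] at this
    linarith
  · have hp : 0 < (s.re - 1) / (2 * t) := by
      apply div_pos <;> linarith
    have := hlt _ hp
    linarith

theorem zero_simple_of_pos (D : FEData M Λ L w) {t : ℝ} (ht : 0 < t) (ht8 : t ≤ 1 / 8) {s : ℂ}
    (hs : heatInt t Λ s = 0) (hre : s.re = 1)
    (hcomp' : 0 < (halfOne t Λ s.im 0 * (starRingEnd ℂ) (halfInt t Λ s.im 0)).re) :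
    deriv (heatInt t Λ) s ≠ 0 := by
  have hspt : s = pt s.im 0 := by
    apply Complex.ext
    · simp [pt, hre]
    · simp [pt]
  set x := s.im with hx
  have hptv : ∀ v : ℝ, s + v = pt x v := by
    intro v
    rw [hspt]
    unfold pt
    push_cast
    ring
  have hI := D.integrableOn_one x ht ht8 0
  have hI2 := D.integrableOn_weight x ht ht8 0 (W := fun v : ℝ => (v : ℂ)) (by fun_prop) (C := 1)
    (by
      intro v
      rw [Complex.norm_real, Real.norm_eq_abs]
      linarith)
  set V : ℝ → ℂ := fun v => Λ (pt x v) * gw t v with hV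
  have hIV : IntegrableOn V (Ioi 0) := by
    refine hI.congr ?_
    filter_upwards with v
    simp [hV, gw]
  have hIV2 : IntegrableOn (fun v => V v * (v : ℂ)) (Ioi 0) := by
    refine hI2.congr ?_
    filter_upwards with v
    simp [hV, gw]
  set K := ∫ v in Ioi (0:ℝ), V v with hK
  set K1 := ∫ v in Ioi (0:ℝ), V v * (v : ℂ) with hK1
  have eK : halfInt t Λ x 0 = K := by
    unfold halfInt
    rw [hK]
    apply integral_congr_ae
    filter_upwards with v
    simp [hV, gw]
  have eK1 : halfOne t Λ x 0 = K1 := by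
    unfold halfOne fker
    rw [hK1]
    apply integral_congr_ae
    filter_upwards with v
    have e : ptz x (v : ℂ) = pt x v := by simp only [pt, ptz]; push_cast; ring
    simp only [hV, gw]
    rw [e]
    push_cast
    rw [zero_mul, add_zero]
    ring
  have hcomp : 0 < (K1 * (starRingEnd ℂ) K).re := by rw [← eK, ← eK1]; exact hcomp'
  have hz : K + w * (starRingEnd ℂ) K = 0 := by
    rw [D.heatInt_eq ht ht8] at hs
    have hne : ((Real.exp (-((s.re - 1) ^ 2 / (4 * t))) : ℝ) : ℂ) ≠ 0 := by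
      exact_mod_cast (Real.exp_pos _).ne'
    have h1 := (mul_eq_zero.mp hs).resolve_left hne
    have e0 : (s.re - 1) / (2 * t) = 0 := by rw [hre]; simp
    rw [e0, neg_zero, ← hx, eK] at h1
    exact h1
  intro hder
  rw [(D.hasDerivAt_heatInt ht ht8 s).deriv] at hder
  have ht2 : ((1 / (2 * t) : ℝ) : ℂ) ≠ 0 := by
    have : (1 / (2 * t) : ℝ) ≠ 0 := by positivity
    exact_mod_cast this
  have hder' := (mul_eq_zero.mp hder).resolve_left ht2
  have hz1 : K1 - w * (starRingEnd ℂ) K1 = 0 := by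
    rw [← hder']
    set F : ℝ → ℂ := fun v => V v * (v : ℂ) with hF
    have hFeq : (fun v : ℝ => Λ (s + v) * gw t v * (v : ℂ)) = F := by
      funext v
      rw [hptv v]
    have hrefl : ∀ v : ℝ, F (-v) = -(w * (starRingEnd ℂ) (F v)) := by
      intro v
      simp only [hF, hV]
      rw [D.reflect]
      have e1 : gw t (-v) = gw t v := by unfold gw; rw [neg_sq]
      have e2 : (starRingEnd ℂ) (gw t v) = gw t v := by unfold gw; exact Complex.conj_ofReal _
      rw [e1, map_mul, map_mul, e2, Complex.conj_ofReal]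
      push_cast
      ring
    have hFi : Integrable F := by
      rw [← integrableOn_univ, ← Iic_union_Ioi (a := (0:ℝ))]
      refine IntegrableOn.union ?_ hIV2
      have h1 : IntegrableOn (fun v => F (-v)) (Ioi 0) := by
        have h2 : IntegrableOn (fun v => -(w * (starRingEnd ℂ) (F v))) (Ioi 0) := by
          have h3 : IntegrableOn (fun v => (starRingEnd ℂ) (F v)) (Ioi 0) := by
            have := Complex.conjCLE.toContinuousLinearMap.integrable_comp hIV2
            exact this
          exact (h3.const_mul w).neg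
        refine h2.congr ?_
        filter_upwards with v
        rw [hrefl v]
      have h4 := (integrableOn_Iic_iff_integrableOn_Iio (f := F) (b := (0:ℝ)) (μ := volume))
      rw [h4]
      have h5 := h1.comp_neg
      simpa using h5
    have hsplit : ∫ v : ℝ, F v = (∫ v in Iic (0:ℝ), F v) + ∫ v in Ioi (0:ℝ), F v := by
      have := integral_add_compl (measurableSet_Iic (a := (0:ℝ))) hFi
      rw [← this]
      simp
    have h6 : ∫ v in Iic (0:ℝ), F v = ∫ v in Ioi (0:ℝ), F (-v) := by
      rw [integral_comp_neg_Ioi, neg_zero]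
    have h7 : ∫ v in Ioi (0:ℝ), F (-v) = -(w * (starRingEnd ℂ) K1) := by
      rw [hK1, ← integral_conj, ← integral_const_mul, ← integral_neg]
      apply integral_congr_ae
      filter_upwards with v
      exact hrefl v
    rw [hFeq, hsplit, h6, h7]
    ring
  have hwc : (starRingEnd ℂ) w = w := by rcases D.sign with h | h <;> simp [h]
  have hw2 : w * w = 1 := by rcases D.sign with h | h <;> simp [h]
  have h1 : (starRingEnd ℂ) K = -(w * K) := by
    have h2 : w * (starRingEnd ℂ) K = -K := by linear_combination hz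
    calc (starRingEnd ℂ) K = (w * w) * (starRingEnd ℂ) K := by rw [hw2, one_mul]
      _ = w * (w * (starRingEnd ℂ) K) := by ring
      _ = _ := by rw [h2]; ring
  have h2 : (starRingEnd ℂ) K1 = w * K1 := by
    have h3 : w * (starRingEnd ℂ) K1 = K1 := by linear_combination -hz1
    calc (starRingEnd ℂ) K1 = (w * w) * (starRingEnd ℂ) K1 := by rw [hw2, one_mul]
      _ = w * (w * (starRingEnd ℂ) K1) := by ring
      _ = _ := by rw [h3]
  have h3 : (starRingEnd ℂ) (K1 * (starRingEnd ℂ) K) = -(K1 * (starRingEnd ℂ) K) := by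
    rw [map_mul, Complex.conj_conj, h2, h1]
    ring
  have h4 : (K1 * (starRingEnd ℂ) K).re = 0 := by
    have := congrArg Complex.re h3
    rw [Complex.conj_re, Complex.neg_re] at this
    linarith
  rw [h4] at hcomp
  exact lt_irrefl _ hcomp

end FEData

/-- smallness holds for small `t` -/
lemma exists_smallS {γ : ℝ} (hγ : 0 < γ) (hγ1 : γ ≤ 1) : ∃ t0 : ℝ, 0 < t0 ∧ ∀ t : ℝ, 0 < t →
    t ≤ t0 → SmallS γ t := by
  set k : ℝ := γ ^ 3 / 20000 with hk
  have hk0 : 0 < k := by positivity
  refine ⟨k ^ 2, by positivity, ?_⟩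
  intro t ht htk
  have hk1 : k ≤ 1 / 20000 := by
    rw [hk]
    have : γ ^ 3 ≤ 1 := pow_le_one₀ hγ.le hγ1
    linarith
  have hst : √t ≤ k := Real.sqrt_le_iff.mpr ⟨hk0.le, htk⟩
  have hst0 : 0 < √t := Real.sqrt_pos.mpr ht
  have hst2 : √t * √t = t := Real.mul_self_sqrt ht.le
  have hS : 3.5 * √t ≤ √(4 * π * t) := by
    apply Real.le_sqrt_of_sq_le
    have hpi := Real.pi_gt_d4
    rw [mul_pow, sq (√t), hst2]
    nlinarith
  refine ⟨?_, ?_, ?_⟩
  · nlinarith
  · set X := γ ^ 2 / (64 * t) with hX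
    have hX0 : 0 < X := by positivity
    have h1 : Real.exp (-X) ≤ 1 / X := by
      rw [Real.exp_neg, ← one_div]
      apply one_div_le_one_div_of_le hX0
      have := Real.add_one_le_exp X
      linarith
    have h2 : 1 / X = 64 * t / γ ^ 2 := by rw [hX]; field_simp
    have h3 : 1 + 1 / γ ≤ 2 / γ := by
      have : 1 ≤ 1 / γ := by rw [le_div_iff₀ hγ]; linarith
      have e : 2 / γ = 1 / γ + 1 / γ := by ring
      linarith
    calc 28 * (1 + 1 / γ) * Real.exp (-X) ≤ 28 * (2 / γ) * (64 * t / γ ^ 2) := by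
          rw [h2] at h1
          gcongr
      _ = 3584 / γ ^ 3 * (√t * √t) := by rw [hst2]; field_simp; norm_num
      _ ≤ 3584 / γ ^ 3 * (k * √t) := by gcongr
      _ = 0.1792 * √t := by rw [hk]; field_simp; norm_num
      _ ≤ √(4 * π * t) / 16 := by linarith
  · have h1 : k ≤ γ / 20000 := by
      rw [hk]
      have : γ ^ 3 ≤ γ := by nlinarith [sq_nonneg γ]
      linarith
    calc 32 * t / 7 = 32 / 7 * (√t * √t) := by rw [hst2]; ring
      _ ≤ 32 / 7 * (k * √t) := by gcongr
      _ ≤ 32 / 7 * (γ / 20000 * √t) := by gcongr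
      _ ≤ 3 / 16 * γ * (3.5 * √t) := by nlinarith [mul_pos hγ hst0]
      _ ≤ _ := by gcongr

end Pool.Agent.H6
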