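import Mathlib
import Pool.Agent.H6.SadG
import Pool.Agent.H6.SubMean
import Pool.Agent.H6.MeanSqC

/-!
Lower bound for the archimedean factor and the counting of bad windows.
-/

open Real MeasureTheory Set Filter Topology

namespace Pool.Agent.H6

lemma norm_Gamma_one_sq (x : ℝ) (hx : 0 < x) :
    2 * π * x * Real.exp (-(π * x)) ≤ ‖Complex.Gamma (pt x 0)‖ ^ 2 := by
  have e1 : pt x 0 = x * Complex.I + 1 := by simp only [pt]; push_cast; ring
  have hxI : (x : ℂ) * Complex.I ≠ 0 := by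
    apply mul_ne_zero _ Complex.I_ne_zero
    exact_mod_cast hx.ne'
  have h1 : Complex.Gamma (x * Complex.I + 1) = (x * Complex.I) * Complex.Gamma (x * Complex.I) :=
    Complex.Gamma_add_one _ hxI
  have h2 := Complex.Gamma_mul_Gamma_one_sub ((x : ℂ) * Complex.I)
  have h3 : (1 : ℂ) - x * Complex.I = (starRingEnd ℂ) (x * Complex.I + 1) := by
    simp; ring
  rw [h3, Complex.Gamma_conj] at h2
  have h4 : ((‖Complex.Gamma (pt x 0)‖ ^ 2 : ℝ) : ℂ) =
      (x * Complex.I) * (π / Complex.sin (π * (x * Complex.I))) := by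
    rw [← h2, ← mul_assoc, ← h1, ← e1, Complex.mul_conj, Complex.normSq_eq_norm_sq]
  have h5 : Complex.sin (π * (x * Complex.I)) = Complex.sinh (π * x) * Complex.I := by
    rw [← mul_assoc, Complex.sin_mul_I]
  have hs : 0 < Real.sinh (π * x) := Real.sinh_pos_iff.mpr (by positivity)
  have h6 : ‖Complex.Gamma (pt x 0)‖ ^ 2 = π * x / Real.sinh (π * x) := by
    have h7 : ((‖Complex.Gamma (pt x 0)‖ ^ 2 : ℝ) : ℂ) = ((π * x / Real.sinh (π * x) : ℝ) : ℂ) := by
      rw [h4, h5]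
      push_cast
      have hs' : Complex.sinh (π * x) ≠ 0 := by
        have : Complex.sinh (π * x) = ((Real.sinh (π * x) : ℝ) : ℂ) := by push_cast; rfl
        rw [this]
        exact_mod_cast hs.ne'
      field_simp
    exact_mod_cast h7
  rw [h6, le_div_iff₀ hs]
  have h7 : Real.sinh (π * x) ≤ Real.exp (π * x) / 2 := by
    rw [Real.sinh_eq]
    have := Real.exp_pos (-(π * x))
    linarith
  calc 2 * π * x * Real.exp (-(π * x)) * Real.sinh (π * x)
      ≤ 2 * π * x * Real.exp (-(π * x)) * (Real.exp (π * x) / 2) := by gcongr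
    _ = π * x * (Real.exp (-(π * x)) * Real.exp (π * x)) := by ring
    _ = π * x := by rw [← Real.exp_add]; simp

lemma gamma_low {M : ℝ} (hM : 0 < M) : ∃ c0 : ℝ, 0 < c0 ∧ ∀ x v : ℝ, 1 ≤ x → 0 ≤ v → v ≤ 1 →
    c0 * x ^ (1 + 2 * v) ≤ ‖Gfun M x v‖ ^ 2 * Real.exp (π * x) := by
  set m := min 1 M with hm
  have hm0 : 0 < m := lt_min one_pos hM
  have hm1 : m ≤ 1 := min_le_left _ _
  refine ⟨m ^ 4 * (2 * π * Real.exp (-(10 / 3))), by positivity, ?_⟩
  intro x v hx hv hv1
  have hx0 : 0 < x := by linarith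
  have h1 := norm_Gamma_one_sq x hx0
  have hre : 1 ≤ (pt x 0).re := by rw [pt_re]; linarith
  have h2 := gamma_shift (s := pt x 0) (u := v) hre (by linarith)
  have e : pt x 0 + (v : ℂ) = pt x v := by rw [← pt_add]; congr 1; ring
  rw [e] at h2
  have h3 : ‖Complex.Gamma (pt x v)‖ = ‖Complex.Gamma (pt x 0)‖ *
      Real.exp (v * (psi (pt x 0)).re + (rho (pt x 0) v).re) := by
    rw [h2, norm_mul, Complex.norm_exp, Complex.add_re, Complex.re_ofReal_mul]
  have h4 := (abs_le.mp (abs_re_psi_sub_log_le hre)).1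
  have h5 := (abs_le.mp ((Complex.abs_re_le_norm (rho (pt x 0) v)).trans
    (norm_rho_le hre (by linarith)))).1
  have h6 : Real.log x ≤ Real.log ‖pt x 0‖ := by
    apply Real.log_le_log hx0
    have := Complex.abs_im_le_norm (pt x 0)
    have e2 : (pt x 0).im = x := by simp [pt]
    rw [e2, abs_of_pos hx0] at this
    exact this
  have h7 : v * Real.log x - 5 / 3 ≤ v * (psi (pt x 0)).re + (rho (pt x 0) v).re := by
    have h8 : v * (Real.log x - 5 / 6) ≤ v * (psi (pt x 0)).re := by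
      apply mul_le_mul_of_nonneg_left _ hv
      linarith
    have h9 : v ^ 2 ≤ 1 := by nlinarith
    nlinarith
  have h8 : Real.exp (v * Real.log x - 5 / 3) = x ^ v * Real.exp (-(5 / 3)) := by
    rw [sub_eq_add_neg, Real.exp_add, Real.rpow_def_of_pos hx0]
    ring_nf
  have h9 : ‖Complex.Gamma (pt x 0)‖ * (x ^ v * Real.exp (-(5 / 3))) ≤ ‖Complex.Gamma (pt x v)‖ := by
    rw [h3, ← h8]
    gcongr
  have h10 : m ^ 2 ≤ M ^ (1 + v) := by
    have a1 : m ^ (1 + v) ≤ M ^ (1 + v) :=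
      Real.rpow_le_rpow hm0.le (min_le_right _ _) (by linarith)
    refine le_trans ?_ a1
    rw [← Real.rpow_natCast m 2]
    apply Real.rpow_le_rpow_of_exponent_ge hm0 hm1
    push_cast
    linarith
  rw [norm_Gfun_sq hM]
  have h11 : m ^ 2 * (‖Complex.Gamma (pt x 0)‖ * (x ^ v * Real.exp (-(5 / 3)))) ≤
      M ^ (1 + v) * ‖Complex.Gamma (pt x v)‖ := by gcongr
  have h12 : (m ^ 2 * (‖Complex.Gamma (pt x 0)‖ * (x ^ v * Real.exp (-(5 / 3))))) ^ 2 ≤
      (M ^ (1 + v) * ‖Complex.Gamma (pt x v)‖) ^ 2 := by gcongr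
  calc m ^ 4 * (2 * π * Real.exp (-(10 / 3))) * x ^ (1 + 2 * v)
      = m ^ 4 * (2 * π * x * Real.exp (-(π * x))) * (x ^ v * x ^ v) *
        (Real.exp (-(5 / 3)) * Real.exp (-(5 / 3))) * Real.exp (π * x) := by
        have a1 : Real.exp (-(5 / 3)) * Real.exp (-(5 / 3)) = Real.exp (-(10 / 3)) := by
          rw [← Real.exp_add]; norm_num
        have a2 : x ^ (1 + 2 * v) = x * (x ^ v * x ^ v) := by
          rw [← Real.rpow_add hx0]
          nth_rewrite 2 [← Real.rpow_one x]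
          rw [← Real.rpow_add hx0]
          congr 1
          ring
        have a3 : Real.exp (-(π * x)) * Real.exp (π * x) = 1 := by rw [← Real.exp_add]; simp
        rw [a1, a2]
        linear_combination (-(m ^ 4 * 2 * π * x * (x ^ v * x ^ v) * Real.exp (-(10 / 3)))) * a3
    _ ≤ m ^ 4 * ‖Complex.Gamma (pt x 0)‖ ^ 2 * (x ^ v * x ^ v) *
        (Real.exp (-(5 / 3)) * Real.exp (-(5 / 3))) * Real.exp (π * x) := by gcongr
    _ = (m ^ 2 * (‖Complex.Gamma (pt x 0)‖ * (x ^ v * Real.exp (-(5 / 3))))) ^ 2 *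
        Real.exp (π * x) := by ring
    _ ≤ _ := by gcongr

end Pool.Agent.H6
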