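import Mathlib
import Pool.Agent.H6.WinA

/-!
Counting of bad windows.
-/

open Real MeasureTheory Set Filter Topology

namespace Pool.Agent.H6

/-- upper bound in the window -/
def GoodU (M : ℝ) (Λ : ℂ → ℂ) (e δ T : ℝ) (m : ℕ) : Prop :=
  ∀ s : ℂ, 0 ≤ s.re - 1 → s.re - 1 ≤ 1 / 2 + e / 2 → (m : ℝ) ≤ s.im → s.im ≤ m + 1 →
    ‖Lt M Λ s‖ ≤ T ^ δ

/-- non-vanishing in the window -/
def GoodN (Λ : ℂ → ℂ) (e η : ℝ) (m : ℕ) : Prop :=
  ∀ s : ℂ, η ≤ s.re - 1 → s.re - 1 ≤ 1 / 2 + e / 2 → (m : ℝ) ≤ s.im → s.im ≤ m + 1 → Λ s ≠ 0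

lemma norm_phase' (s : ℂ) : ‖Complex.exp (-(Complex.I * (π / 2 * s)))‖ =
    Real.exp (π / 2 * s.im) := by
  rw [Complex.norm_exp]
  congr 1
  have e : ((π : ℂ) / 2) = ((π / 2 : ℝ) : ℂ) := by push_cast; ring
  rw [Complex.neg_re, Complex.I_mul_re, e, Complex.im_ofReal_mul]
  ring

lemma norm_phase_sq (s : ℂ) : ‖Complex.exp (-(Complex.I * (π / 2 * s)))‖ ^ 2 =
    Real.exp (π * s.im) := by
  rw [norm_phase', ← Real.exp_nat_mul]
  congr 1
  push_cast
  ring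

lemma cpt_eq_pt (v x : ℝ) : cpt (v, x) = pt x v := by
  apply Complex.ext
  · simp [cpt, pt]
  · simp [cpt, pt]

lemma line_eq_pt (v x : ℝ) : (((1 + v : ℝ) : ℂ) + x * Complex.I) = pt x v := rfl

lemma exists_index {P : ℂ → Prop} {vb va : ℝ} (m : ℕ)
    (h : ∃ s : ℂ, va ≤ s.re - 1 ∧ s.re - 1 ≤ vb ∧ (m : ℝ) ≤ s.im ∧ s.im ≤ m + 1 ∧ P s) :
    ∃ v x : ℝ, v ∈ Icc va vb ∧ x ∈ Icc (m : ℝ) (m + 1) ∧ P (pt x v) := by
  obtain ⟨s, h1, h2, h3, h4, h5⟩ := h
  refine ⟨s.re - 1, s.im, ⟨h1, h2⟩, ⟨h3, h4⟩, ?_⟩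
  have : pt s.im (s.re - 1) = s := by
    apply Complex.ext
    · simp [pt]
    · simp [pt]
  rw [this]
  exact h5

/-- counting the failures of `GoodU` -/
lemma count_U {d : ℕ} {M : ℝ} {Λ L : ℂ → ℂ} {w : ℂ} (D : FEData M Λ L w) (E : EdData d M Λ)
    {e δ : ℝ} (he : 0 < e) (he5 : e ≤ 1 / 5) (heδ : 5 * e ≤ δ) :
    ∃ C : ℝ, 0 ≤ C ∧ ∀ T : ℝ, 1 ≤ T → ∀ ms : Finset ℕ,
      (∀ m ∈ ms, 1 ≤ m ∧ (m : ℝ) + 2 ≤ 3 * T ∧ T ^ (1 - e) ≤ m ∧ ¬ GoodU M Λ e δ T m) →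
      (ms.card : ℝ) ≤ C * T ^ (1 - e) := by
  classical
  obtain ⟨K, hK1, hK⟩ := E.mean_sq he he5
  obtain ⟨c0, hc0, hlow⟩ := gamma_low E.Mpos
  set C1 : ℝ := 4 * (1 / 2 + e / 2 - 0 + 2 * e) / (π * e ^ 2) with hC1
  have hC10 : 0 ≤ C1 := by
    rw [hC1]
    have : 0 ≤ 1 / 2 + e / 2 - 0 + 2 * e := by linarith
    positivity
  refine ⟨C1 * K / c0, by positivity, ?_⟩
  intro T hT ms hms
  have hT0 : 0 < T := by linarith
  set G : ℂ → ℂ := fun s => Λ s * Complex.exp (-(Complex.I * (π / 2 * s))) with hG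
  have hGn : ∀ s : ℂ, ‖G s‖ ^ 2 = ‖Λ s‖ ^ 2 * Real.exp (π * s.im) := by
    intro s
    simp only [hG]
    rw [norm_mul, mul_pow, norm_phase_sq]
  have hch : ∀ m : ℕ, ∃ v x : ℝ, m ∈ ms → v ∈ Icc 0 (1 / 2 + e / 2) ∧ x ∈ Icc (m : ℝ) (m + 1) ∧
      T ^ δ < ‖Lt M Λ (pt x v)‖ := by
    intro m
    by_cases hm : m ∈ ms
    · have h1 := (hms m hm).2.2.2
      unfold GoodU at h1
      push Not at h1
      obtain ⟨s, a1, a2, a3, a4, a5⟩ := h1
      obtain ⟨v, x, h2, h3, h4⟩ := exists_index (P := fun s => T ^ δ < ‖Lt M Λ s‖)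
        (va := 0) (vb := 1 / 2 + e / 2) m ⟨s, a1, a2, a3, a4, a5⟩
      exact ⟨v, x, fun _ => ⟨h2, h3, h4⟩⟩
    · exact ⟨0, 0, fun h => absurd h hm⟩
  choose vm xm hvx using hch
  have hB : ∀ v ∈ Icc (0 - e) (1 / 2 + e / 2 + e), T ^ (-(2 * |v|)) *
      ∫ x in (0:ℝ)..(3 * T), ‖G (((1 + v : ℝ) : ℂ) + x * Complex.I)‖ ^ 2 ≤
      K * T ^ (2 + 4 * e) := by
    intro v hv
    have hint : ∀ v : ℝ, 0 ≤ v → 2 * v ≤ 1 + 3 * e → T ^ (-(2 * v)) *
        ∫ x in (0:ℝ)..(3 * T), ‖Λ (((1 + v : ℝ) : ℂ) + x * Complex.I)‖ ^ 2 *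
          Real.exp (π * x) ≤ K * T ^ (2 + 4 * e) := by
      intro v hv0 hv1
      have h1 := hK T v (3 * T) hT hv0 hv1 (by linarith) le_rfl
      calc _ ≤ T ^ (-(2 * v)) * (K * T ^ (2 + 2 * v + 4 * e)) := by gcongr
        _ = K * (T ^ (-(2 * v)) * T ^ (2 + 2 * v + 4 * e)) := by ring
        _ = _ := by rw [← Real.rpow_add hT0]; congr 2; ring
    rcases le_total 0 v with h | h
    · rw [abs_of_nonneg h]
      have h1 := hint v h (by linarith [hv.2])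
      refine le_trans (le_of_eq ?_) h1
      congr 1
      apply intervalIntegral.integral_congr
      intro x _
      simp only
      rw [hGn]
      congr 2
      simp
    · rw [abs_of_nonpos h]
      have h1 := hint (-v) (by linarith) (by linarith [hv.1])
      refine le_trans (le_of_eq ?_) h1
      congr 1
      apply intervalIntegral.integral_congr
      intro x _
      simp only
      rw [hGn]
      congr 2
      · rw [line_eq_pt, line_eq_pt]
        have h2 := D.reflect x (-v)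
        rw [neg_neg] at h2
        rw [h2, norm_mul, D.norm_w, one_mul, Complex.norm_conj]
      · simp
  have hcount := count_bound (G := G) (va := 0) (vb := 1 / 2 + e / 2) (ρ := e) (T := T)
    (S := 3 * T) (B := K * T ^ (2 + 4 * e)) he (by linarith) hT (by linarith) (by positivity)
    (fun z _ => by
      apply DifferentiableAt.mul (E.diff z)
      fun_prop) hB ms (fun m hm => ⟨(hms m hm).1, (hms m hm).2.1⟩) vm xm
    (fun m hm => (hvx m hm).1) (fun m hm => (hvx m hm).2.1)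
  rw [← hC1] at hcount
  have hterm : ∀ m ∈ ms, c0 * T ^ (1 + 2 * δ - 3 * e) ≤
      T ^ (-(2 * |vm m|)) * ‖G (cpt (vm m, xm m))‖ ^ 2 := by
    intro m hm
    obtain ⟨h1, h2, h3⟩ := hvx m hm
    obtain ⟨g1, g2, g3, g4⟩ := hms m hm
    have hm1 : (1:ℝ) ≤ m := by exact_mod_cast g1
    have hx1 : T ^ (1 - e) ≤ xm m := g3.trans h2.1
    have hx0 : 0 < xm m := by linarith [h2.1]
    rw [abs_of_nonneg h1.1, cpt_eq_pt, hGn, Lambda_eq E.Mpos h1.1 Λ, norm_mul, mul_pow]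
    have him : (pt (xm m) (vm m)).im = xm m := by simp [pt]
    rw [him]
    have h4 := hlow (xm m) (vm m) (by linarith [h2.1]) h1.1 (by linarith [h1.2])
    have h5 : (T ^ δ) ^ 2 ≤ ‖Lt M Λ (pt (xm m) (vm m))‖ ^ 2 := by
      have : 0 ≤ T ^ δ := by positivity
      gcongr
    have h6 : T ^ ((1 - e) * (1 + 2 * vm m)) ≤ xm m ^ (1 + 2 * vm m) := by
      rw [Real.rpow_mul hT0.le]
      exact Real.rpow_le_rpow (by positivity) hx1 (by linarith [h1.1])
    calc c0 * T ^ (1 + 2 * δ - 3 * e)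
        ≤ c0 * (T ^ (-(2 * vm m)) * (T ^ δ) ^ 2 * T ^ ((1 - e) * (1 + 2 * vm m))) := by
          apply mul_le_mul_of_nonneg_left _ hc0.le
          rw [← Real.rpow_natCast (T ^ δ) 2, ← Real.rpow_mul hT0.le, ← Real.rpow_add hT0,
            ← Real.rpow_add hT0]
          apply Real.rpow_le_rpow_of_exponent_le hT
          push_cast
          have h7 : 0 ≤ vm m := h1.1
          have h8 : vm m ≤ 1 := by linarith [h1.2]
          nlinarith
      _ = T ^ (-(2 * vm m)) * ((T ^ δ) ^ 2 * (c0 * T ^ ((1 - e) * (1 + 2 * vm m)))) := by ring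
      _ ≤ T ^ (-(2 * vm m)) * (‖Lt M Λ (pt (xm m) (vm m))‖ ^ 2 *
          (‖Gfun M (xm m) (vm m)‖ ^ 2 * Real.exp (π * xm m))) := by
          apply mul_le_mul_of_nonneg_left _ (by positivity)
          apply mul_le_mul h5 _ (by positivity) (by positivity)
          refine le_trans ?_ h4
          gcongr
      _ = _ := by ring
  have hsum : (ms.card : ℝ) * (c0 * T ^ (1 + 2 * δ - 3 * e)) ≤
      C1 * T ^ (2 * e) * (K * T ^ (2 + 4 * e)) := by
    refine le_trans ?_ hcount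
    have := Finset.card_nsmul_le_sum ms (fun m => T ^ (-(2 * |vm m|)) *
      ‖G (cpt (vm m, xm m))‖ ^ 2) _ hterm
    rwa [nsmul_eq_mul] at this
  have hpos : 0 < T ^ (1 + 2 * δ - 3 * e) := by positivity
  have hfin : (ms.card : ℝ) ≤ C1 * K / c0 * (T ^ (2 * e) * T ^ (2 + 4 * e) /
      T ^ (1 + 2 * δ - 3 * e)) := by
    rw [div_mul_div_comm, le_div_iff₀ (by positivity)]
    calc _ ≤ _ := hsum
      _ = _ := by ring
  refine hfin.trans ?_
  apply mul_le_mul_of_nonneg_left _ (by positivity)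
  rw [← Real.rpow_add hT0, ← Real.rpow_sub hT0]
  apply Real.rpow_le_rpow_of_exponent_le hT
  linarith

/-- counting the failures of `GoodN` -/
lemma count_N {d : ℕ} {M : ℝ} {Λ : ℂ → ℂ} (E : EdData d M Λ)
    {e η : ℝ} (he : 0 < e) (he5 : e ≤ 1 / 5) (hη0 : 0 < η) (hη1 : η ≤ 1 / 2)
    (heη : 12 * e ≤ η ^ 2) :
    ∃ C : ℝ, 0 ≤ C ∧ ∀ T : ℝ, 1 ≤ T → ∀ ms : Finset ℕ,
      (∀ m ∈ ms, 1 ≤ m ∧ (m : ℝ) + 2 ≤ 3 * T ∧ T ^ (1 - e) ≤ m ∧ ¬ GoodN Λ e η m) →
      (ms.card : ℝ) ≤ C * T ^ (1 - e) := by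
  classical
  obtain ⟨K, hK1, hK⟩ := E.mean_sq_mol he he5
  obtain ⟨c0, hc0, hlow⟩ := gamma_low E.Mpos
  have hM := E.Mpos
  set C1 : ℝ := 4 * (1 / 2 + e / 2 - η + 2 * e) / (π * e ^ 2) with hC1
  have hC10 : 0 ≤ C1 := by
    rw [hC1]
    have : 0 ≤ 1 / 2 + e / 2 - η + 2 * e := by linarith
    positivity
  refine ⟨C1 * (5 * K) / c0, by positivity, ?_⟩
  intro T hT ms hms
  have hT0 : 0 < T := by linarith
  have heη' : e ≤ η / 12 := by nlinarith
  set Y : ℕ := ⌈T ^ (η / 2)⌉₊ with hY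
  have hTη : 1 ≤ T ^ (η / 2) := Real.one_le_rpow hT (by positivity)
  have hY1 : T ^ (η / 2) ≤ Y := Nat.le_ceil _
  have hY2 : (Y : ℝ) ≤ 2 * T ^ (η / 2) := by
    have := Nat.ceil_lt_add_one (by positivity : 0 ≤ T ^ (η / 2))
    linarith
  have hYpos : 1 ≤ Y := by
    have : (1:ℝ) ≤ Y := by linarith
    exact_mod_cast this
  set A : ℂ → ℂ := fun s => mol (d : ℤ) Y s * Λ s - (M : ℂ) ^ s * Complex.Gamma s with hA
  set G : ℂ → ℂ := fun s => A s * Complex.exp (-(Complex.I * (π / 2 * s))) with hG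
  have hGn : ∀ s : ℂ, ‖G s‖ ^ 2 = ‖A s‖ ^ 2 * Real.exp (π * s.im) := by
    intro s
    simp only [hG]
    rw [norm_mul, mul_pow, norm_phase_sq]
  have hGd : ∀ z : ℂ, η - e ≤ z.re - 1 → DifferentiableAt ℂ G z := by
    intro z hz
    have hzre : 0 < z.re := by linarith
    have hM' : (M : ℂ) ≠ 0 := by exact_mod_cast hM.ne'
    have h1 : DifferentiableAt ℂ Complex.Gamma z := by
      apply Complex.differentiableAt_Gamma
      intro n hn
      have := congrArg Complex.re hn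
      simp at this
      have h3 : (0:ℝ) ≤ n := Nat.cast_nonneg n
      linarith
    have h2 : DifferentiableAt ℂ (fun s : ℂ => (M : ℂ) ^ s) z :=
      differentiableAt_id.const_cpow (Or.inl hM')
    apply DifferentiableAt.mul
    · exact ((differentiable_mol (d : ℤ) Y z).mul (E.diff z)).sub (h2.mul h1)
    · fun_prop
  have hch : ∀ m : ℕ, ∃ v x : ℝ, m ∈ ms → v ∈ Icc η (1 / 2 + e / 2) ∧ x ∈ Icc (m : ℝ) (m + 1) ∧
      Λ (pt x v) = 0 := by
    intro m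
    by_cases hm : m ∈ ms
    · have h1 := (hms m hm).2.2.2
      unfold GoodN at h1
      push Not at h1
      obtain ⟨s, a1, a2, a3, a4, a5⟩ := h1
      obtain ⟨v, x, h2, h3, h4⟩ := exists_index (P := fun s => Λ s = 0)
        (va := η) (vb := 1 / 2 + e / 2) m ⟨s, a1, a2, a3, a4, a5⟩
      exact ⟨v, x, fun _ => ⟨h2, h3, h4⟩⟩
    · exact ⟨0, 0, fun h => absurd h hm⟩
  choose vm xm hvx using hch
  have hB : ∀ v ∈ Icc (η - e) (1 / 2 + e / 2 + e), T ^ (-(2 * |v|)) *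
      ∫ x in (0:ℝ)..(3 * T), ‖G (((1 + v : ℝ) : ℂ) + x * Complex.I)‖ ^ 2 ≤
      5 * K * T ^ (2 - η ^ 2 + 6 * e) := by
    intro v hv
    have hv0 : 0 ≤ v := by linarith [hv.1]
    rw [abs_of_nonneg hv0]
    have h1 := hK T v (3 * T) Y hT hv0 (by linarith [hv.2]) (by linarith) le_rfl hYpos
    have h2 : ∫ x in (0:ℝ)..(3 * T), ‖G (((1 + v : ℝ) : ℂ) + x * Complex.I)‖ ^ 2 ≤
        K * (T ^ (2 + 2 * v + 2 * e) * ((Y : ℝ) + 1) ^ (-(2 * v)) +
          (Y : ℝ) ^ 2 * T ^ (2 + 4 * e)) := by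
      refine le_trans (le_of_eq ?_) h1
      apply intervalIntegral.integral_congr
      intro x _
      simp only
      rw [hGn]
      congr 2
      simp
    have h3 : ((Y : ℝ) + 1) ^ (-(2 * v)) ≤ T ^ (-(η * v)) := by
      have e1 : T ^ (-(η * v)) = (T ^ (η / 2)) ^ (-(2 * v)) := by
        rw [← Real.rpow_mul hT0.le]; congr 1; ring
      rw [e1]
      apply Real.rpow_le_rpow_of_nonpos (by positivity) (by linarith) (by linarith)
    have h4 : (Y : ℝ) ^ 2 ≤ 4 * T ^ η := by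
      have e1 : T ^ η = T ^ (η / 2) * T ^ (η / 2) := by
        rw [← Real.rpow_add hT0]; congr 1; ring
      rw [e1]
      have : (0:ℝ) ≤ Y := Nat.cast_nonneg _
      nlinarith
    calc T ^ (-(2 * v)) * ∫ x in (0:ℝ)..(3 * T), ‖G (((1 + v : ℝ) : ℂ) + x * Complex.I)‖ ^ 2
        ≤ T ^ (-(2 * v)) * (K * (T ^ (2 + 2 * v + 2 * e) * T ^ (-(η * v)) +
          (4 * T ^ η) * T ^ (2 + 4 * e))) := by
          gcongr
          refine h2.trans ?_
          gcongr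
      _ = K * (T ^ (-(2 * v)) * (T ^ (2 + 2 * v + 2 * e) * T ^ (-(η * v))) +
          4 * (T ^ (-(2 * v)) * (T ^ η * T ^ (2 + 4 * e)))) := by ring
      _ ≤ K * (T ^ (2 - η ^ 2 + 6 * e) + 4 * T ^ (2 - η ^ 2 + 6 * e)) := by
          rw [← Real.rpow_add hT0, ← Real.rpow_add hT0, ← Real.rpow_add hT0, ← Real.rpow_add hT0]
          apply mul_le_mul_of_nonneg_left _ (by linarith)
          apply add_le_add
          · apply Real.rpow_le_rpow_of_exponent_le hT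
            nlinarith [hv.1]
          · apply mul_le_mul_of_nonneg_left _ (by norm_num)
            apply Real.rpow_le_rpow_of_exponent_le hT
            nlinarith [hv.1]
      _ = _ := by ring
  have hcount := count_bound (G := G) (va := η) (vb := 1 / 2 + e / 2) (ρ := e) (T := T)
    (S := 3 * T) (B := 5 * K * T ^ (2 - η ^ 2 + 6 * e)) he (by linarith) hT (by linarith)
    (by positivity) hGd hB ms (fun m hm => ⟨(hms m hm).1, (hms m hm).2.1⟩) vm xm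
    (fun m hm => (hvx m hm).1) (fun m hm => (hvx m hm).2.1)
  rw [← hC1] at hcount
  have hterm : ∀ m ∈ ms, c0 * T ^ (1 - 3 * e) ≤
      T ^ (-(2 * |vm m|)) * ‖G (cpt (vm m, xm m))‖ ^ 2 := by
    intro m hm
    obtain ⟨h1, h2, h3⟩ := hvx m hm
    obtain ⟨g1, g2, g3, g4⟩ := hms m hm
    have hv0 : 0 ≤ vm m := by linarith [h1.1]
    have hm1 : (1:ℝ) ≤ m := by exact_mod_cast g1
    have hx1 : T ^ (1 - e) ≤ xm m := g3.trans h2.1
    have hx0 : 0 < xm m := by linarith [h2.1]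
    rw [abs_of_nonneg hv0, cpt_eq_pt, hGn]
    have hAeq : ‖A (pt (xm m) (vm m))‖ = ‖Gfun M (xm m) (vm m)‖ := by
      simp only [hA]
      rw [h3, mul_zero, zero_sub, norm_neg]
      rfl
    rw [hAeq]
    have him : (pt (xm m) (vm m)).im = xm m := by simp [pt]
    rw [him]
    have h4 := hlow (xm m) (vm m) (by linarith [h2.1]) hv0 (by linarith [h1.2])
    have h6 : T ^ ((1 - e) * (1 + 2 * vm m)) ≤ xm m ^ (1 + 2 * vm m) := by
      rw [Real.rpow_mul hT0.le]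
      exact Real.rpow_le_rpow (by positivity) hx1 (by linarith)
    calc c0 * T ^ (1 - 3 * e)
        ≤ c0 * (T ^ (-(2 * vm m)) * T ^ ((1 - e) * (1 + 2 * vm m))) := by
          apply mul_le_mul_of_nonneg_left _ hc0.le
          rw [← Real.rpow_add hT0]
          apply Real.rpow_le_rpow_of_exponent_le hT
          have h8 : vm m ≤ 1 := by linarith [h1.2]
          nlinarith
      _ = T ^ (-(2 * vm m)) * (c0 * T ^ ((1 - e) * (1 + 2 * vm m))) := by ring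
      _ ≤ T ^ (-(2 * vm m)) * (‖Gfun M (xm m) (vm m)‖ ^ 2 * Real.exp (π * xm m)) := by
          apply mul_le_mul_of_nonneg_left _ (by positivity)
          refine le_trans ?_ h4
          gcongr
  have hsum : (ms.card : ℝ) * (c0 * T ^ (1 - 3 * e)) ≤
      C1 * T ^ (2 * e) * (5 * K * T ^ (2 - η ^ 2 + 6 * e)) := by
    refine le_trans ?_ hcount
    have := Finset.card_nsmul_le_sum ms (fun m => T ^ (-(2 * |vm m|)) *
      ‖G (cpt (vm m, xm m))‖ ^ 2) _ hterm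
    rwa [nsmul_eq_mul] at this
  have hpos : 0 < T ^ (1 - 3 * e) := by positivity
  have hfin : (ms.card : ℝ) ≤ C1 * (5 * K) / c0 * (T ^ (2 * e) * T ^ (2 - η ^ 2 + 6 * e) /
      T ^ (1 - 3 * e)) := by
    rw [div_mul_div_comm, le_div_iff₀ (by positivity)]
    calc _ ≤ _ := hsum
      _ = _ := by ring
  refine hfin.trans ?_
  apply mul_le_mul_of_nonneg_left _ (by positivity)
  rw [← Real.rpow_add hT0, ← Real.rpow_sub hT0]
  apply Real.rpow_le_rpow_of_exponent_le hT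
  linarith

end Pool.Agent.H6
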