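import Mathlib
import Pool.Agent.H6.WinB
import Pool.Agent.H6.GoodBC
import Pool.Agent.H6.EdSharp
import Pool.Agent.H6.EdStrip

/-!
Density theorem for the zeros of the heat flow deformation.
-/

open Real MeasureTheory Set Filter Topology

namespace Pool.Agent.H6

open Pool.Agent.H5 (Lser)

/-- zeros near a good height -/
theorem zeros_of_window {M : ℝ} {Λ L : ℂ → ℂ} {w : ℂ} (D : FEData M Λ L w)
    {γ η B0 z0 A t : ℝ} (hγ : 0 < γ) (hγ1 : γ ≤ 1) (hη : η = γ / 8) (hB0 : 0 ≤ B0)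
    (hz0 : 0 < z0) (hz01 : z0 ≤ 1) (hA : A = B0 - Real.log z0 + 1) (ht : 0 < t)
    (hS : SmallS γ t) (hW : 96 * A / η ^ 3 ≤ γ ^ 2 * (1 / (4 * t)) / 128) {s : ℂ}
    (h0 : 3 * γ ≤ 2 * t * (Real.log (M * ‖pt s.im 0‖) - 2))
    (hup : ∀ z : ℂ, 1 ≤ z.re → |z.im - s.im| ≤ 3 → ‖Lt M Λ z‖ ≤ Real.exp B0)
    (hne : ∀ z : ℂ, 1 + η ≤ z.re → |z.im - s.im| ≤ 3 → Λ z ≠ 0)
    (hlow : ∀ z : ℂ, 2 ≤ z.re → z0 ≤ ‖Lt M Λ z‖) (hs : heatInt t Λ s = 0) :
    s.re = 1 ∧ deriv (heatInt t Λ) s ≠ 0 := by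
  have ht8 : t ≤ 1 / 8 := by have := hS.1; linarith
  have hη0 : 0 < η := by rw [hη]; positivity
  have G := goodPt_of_window D.M_pos D.diff hη0 (by rw [hη]; linarith) hB0 hz0 hz01 hA hup hne hlow
  have hlog : Real.log z0 ≤ 0 := Real.log_nonpos hz0.le hz01
  have hA0 : 0 < A := by rw [hA]; linarith
  obtain ⟨h1, h2⟩ := half_lt_all D G ht hS hγ hγ1 (by rw [hη]; ring) (by positivity) hW h0
  have hre := D.zero_re_of_half ht ht8 hs h1
  exact ⟨hre, D.zero_simple_of_pos ht ht8 hs hre h2⟩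

/-- the good windows -/
def GoodWin (θ T : ℝ) (Λ : ℂ → ℂ) (m : ℕ) : Prop :=
  ∀ t : ℝ, θ / Real.log T ≤ t → t ≤ 1 / 8 → ∀ s : ℂ, (m : ℝ) ≤ s.im → s.im ≤ m + 1 →
    heatInt t Λ s = 0 → s.re = 1 ∧ deriv (heatInt t Λ) s ≠ 0

theorem goodWin_of {d : ℤ} {M : ℝ} {Λ : ℂ → ℂ} {w : ℂ} (D : FEData M Λ (Lser d) w)
    (hΛ : ∀ s : ℂ, 3 / 2 < s.re → Λ s = (M : ℂ) ^ s * Complex.Gamma s * Lser d s)
    {θ γ η δ e : ℝ} (hθ : 0 < θ) (hθ1 : θ ≤ 1) (hγ : γ = θ / 3) (hη : η = γ / 8)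
    (hδ : δ = γ ^ 2 * η ^ 3 / (96 * 2048)) (he : 0 < e) (he5 : e ≤ 1 / 5) :
    ∃ ℓ1 : ℝ, 1 ≤ ℓ1 ∧ ∀ T : ℝ, Real.exp ℓ1 ≤ T → ∀ m : ℕ, T ^ (1 - e) + 3 ≤ m →
      (∀ j : ℕ, j < 7 → GoodU M Λ e δ T (m + j - 3) ∧ GoodN Λ e η (m + j - 3)) →
      GoodWin θ T Λ m := by
  have hγ0 : 0 < γ := by rw [hγ]; positivity
  have hγ1 : γ ≤ 1 := by rw [hγ]; linarith
  have hη0 : 0 < η := by rw [hη]; positivity
  have hδ0 : 0 < δ := by rw [hδ]; positivity
  have hM := D.M_pos
  obtain ⟨zl, hzl0, hzl⟩ := exists_Lser_lower (κ := 1 + e / 2) (by linarith)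
  set z0 : ℝ := min zl 1 with hz0
  have hz00 : 0 < z0 := lt_min hzl0 one_pos
  have hz01 : z0 ≤ 1 := min_le_right _ _
  have hlogz : Real.log z0 ≤ 0 := Real.log_nonpos hz00.le hz01
  obtain ⟨t0, ht00, ht0⟩ := exists_smallS hγ0 hγ1
  obtain ⟨Q0, -, hQ0⟩ := exists_sharp (ε := 1) one_pos
  set ℓ1 : ℝ := 2048 * 96 * (1 - Real.log z0) / (η ^ 3 * γ ^ 2) + Zc (3 / 2 + e / 2) / δ + 2 / t0 +
    10 / 3 * |2 - Real.log M| + |Q0| + 1 with hℓ1
  have a1 : 0 ≤ 2048 * 96 * (1 - Real.log z0) / (η ^ 3 * γ ^ 2) := by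
    apply div_nonneg _ (by positivity)
    nlinarith
  have a2 : 0 ≤ Zc (3 / 2 + e / 2) / δ := div_nonneg (Zc_nonneg _) hδ0.le
  have a3 : 0 ≤ 2 / t0 := by positivity
  have a4 : 0 ≤ 10 / 3 * |2 - Real.log M| := by positivity
  have a5 : 0 ≤ |Q0| := abs_nonneg _
  refine ⟨ℓ1, by linarith, ?_⟩
  intro T hT m hm hgood t htθ ht8 s hms hsm hs
  have hT0 : 0 < T := lt_of_lt_of_le (Real.exp_pos _) hT
  set ℓ := Real.log T with hℓ
  have hℓℓ : ℓ1 ≤ ℓ := by rw [hℓ, Real.le_log_iff_exp_le hT0]; exact hT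
  have hℓ0 : 0 < ℓ := by linarith
  have hT1 : 1 ≤ T := by
    have := Real.add_one_le_exp ℓ1
    linarith
  have ht : 0 < t := lt_of_lt_of_le (by positivity) htθ
  have hTe : T ^ (1 - e) = Real.exp ((1 - e) * ℓ) := by
    rw [Real.rpow_def_of_pos hT0, hℓ]; ring_nf
  have hTpos : 0 < T ^ (1 - e) := by positivity
  have hm3 : (3:ℝ) ≤ m := by linarith
  have hm3' : 3 ≤ m := by exact_mod_cast hm3
  have hx : T ^ (1 - e) ≤ s.im := by linarith
  have hx0 : 0 < s.im := by linarith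
  have hlogx : 4 / 5 * ℓ ≤ Real.log s.im := by
    have h1 : (1 - e) * ℓ ≤ Real.log s.im := by
      rw [Real.le_log_iff_exp_le hx0, ← hTe]
      exact hx
    nlinarith
  have hMlog : 2 - Real.log M ≤ 3 / 10 * ℓ := by
    have := le_abs_self (2 - Real.log M)
    linarith
  have hpt : s.im ≤ ‖pt s.im 0‖ := by
    have := Complex.abs_im_le_norm (pt s.im 0)
    have e2 : (pt s.im 0).im = s.im := by simp [pt]
    rw [e2, abs_of_pos hx0] at this
    exact this
  have hlam : ℓ / 2 ≤ Real.log (M * ‖pt s.im 0‖) - 2 := by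
    rw [Real.log_mul hM.ne' (by linarith)]
    have : Real.log s.im ≤ Real.log ‖pt s.im 0‖ := Real.log_le_log hx0 hpt
    linarith
  rcases le_total (2 / ℓ) t with hbig | hsmall
  · -- large t
    have hpos : (0:ℝ) < (2 * π * M) ^ 2 * (1 + |s.im|) ^ 2 := by positivity
    have hlogQ : ℓ ≤ Real.log ((2 * π * M) ^ 2 * (1 + |s.im|) ^ 2) := by
      rw [abs_of_pos hx0]
      have h1 : (M * s.im) ^ 2 ≤ (2 * π * M) ^ 2 * (1 + s.im) ^ 2 := by
        rw [← mul_pow]
        apply pow_le_pow_left₀ (by positivity)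
        have hpi := Real.pi_gt_three
        have h2 : M ≤ 2 * π * M := by nlinarith
        calc M * s.im ≤ (2 * π * M) * s.im := by gcongr
          _ ≤ (2 * π * M) * (1 + s.im) := by
            gcongr
            linarith
      have h2 := Real.log_le_log (by positivity) h1
      rw [Real.log_pow, Real.log_mul hM.ne' hx0.ne'] at h2
      push_cast at h2
      linarith
    have hconc := hQ0 d M Λ w D hΛ t s.im ht ht8 (by
      have h3 : Real.exp ℓ ≤ (2 * π * M) ^ 2 * (1 + |s.im|) ^ 2 := by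
        rw [Real.le_log_iff_exp_le hpos] at hlogQ
        exact hlogQ
      have h4 := Real.add_one_le_exp ℓ
      have h5 := le_abs_self Q0
      linarith) (by
      calc (1:ℝ) + 1 = 2 / ℓ * ℓ := by field_simp; norm_num
        _ ≤ t * Real.log ((2 * π * M) ^ 2 * (1 + |s.im|) ^ 2) := by gcongr)
    exact ⟨D.zero_re_of_conc ht ht8 hs hconc, D.zero_simple_of_conc ht ht8 hs hconc⟩
  · -- small t
    have htℓ : t * ℓ ≤ 2 := by
      rw [le_div_iff₀ hℓ0] at hsmall
      exact hsmall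
    have hθt : θ ≤ t * ℓ := by
      rw [div_le_iff₀ hℓ0] at htθ
      exact htθ
    have hSS : SmallS γ t := by
      apply ht0 t ht
      refine hsmall.trans ?_
      rw [div_le_iff₀ hℓ0]
      have h1 : 2 / t0 ≤ ℓ := by linarith
      rw [div_le_iff₀ ht00] at h1
      linarith
    have hup' : ∀ z : ℂ, 3 / 2 + e / 2 ≤ z.re → ‖Lt M Λ z‖ ≤ Zc (3 / 2 + e / 2) := by
      intro z hz
      have h1 : Lt M Λ z = Lser d z := by
        unfold Lt
        have hM' : (M : ℂ) ≠ 0 := by exact_mod_cast hM.ne'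
        have h2 : (M : ℂ) ^ z * Complex.Gamma z ≠ 0 := by
          apply mul_ne_zero
          · rw [Complex.cpow_ne_zero_iff]; left; exact hM'
          · apply Complex.Gamma_ne_zero_of_re_pos; linarith
        rw [hΛ z (by linarith), mul_div_cancel_left₀ _ h2]
      rw [h1]
      exact norm_Lser_le_Zc d (by linarith) hz
    have hlow' : ∀ z : ℂ, 3 / 2 + e / 2 ≤ z.re → z0 ≤ ‖Lt M Λ z‖ := by
      intro z hz
      have h1 : Lt M Λ z = Lser d z := by
        unfold Lt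
        have hM' : (M : ℂ) ≠ 0 := by exact_mod_cast hM.ne'
        have h2 : (M : ℂ) ^ z * Complex.Gamma z ≠ 0 := by
          apply mul_ne_zero
          · rw [Complex.cpow_ne_zero_iff]; left; exact hM'
          · apply Complex.Gamma_ne_zero_of_re_pos; linarith
        rw [hΛ z (by linarith), mul_div_cancel_left₀ _ h2]
      rw [h1]
      exact (min_le_left _ _).trans (hzl d z (by linarith))
    have hTδ : T ^ δ = Real.exp (δ * ℓ) := by
      rw [Real.rpow_def_of_pos hT0, hℓ]; ring_nf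
    have hZ : Zc (3 / 2 + e / 2) ≤ Real.exp (δ * ℓ) := by
      have h1 : Zc (3 / 2 + e / 2) / δ ≤ ℓ := by linarith
      rw [div_le_iff₀ hδ0] at h1
      have h2 := Real.add_one_le_exp (δ * ℓ)
      linarith
    -- the window containing a given height
    have hwin : ∀ y : ℝ, |y - s.im| ≤ 3 → ∃ j : ℕ, j < 7 ∧ ((m + j - 3 : ℕ) : ℝ) ≤ y ∧
        y ≤ ((m + j - 3 : ℕ) : ℝ) + 1 := by
      intro y hy
      have hy1 := abs_le.mp hy
      have hlo : ((m - 3 : ℕ) : ℝ) ≤ y := by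
        rw [Nat.cast_sub hm3']
        push_cast
        linarith [hy1.1]
      have hy0 : 0 ≤ y := le_trans (Nat.cast_nonneg _) hlo
      rcases lt_or_ge y (m + 4) with h | h
      · refine ⟨⌊y⌋₊ - (m - 3), ?_, ?_, ?_⟩
        · have h1 : ⌊y⌋₊ < m + 4 := by
            rw [Nat.floor_lt hy0]
            push_cast
            exact h
          omega
        · have h2 : m - 3 ≤ ⌊y⌋₊ := Nat.le_floor hlo
          have h3 : m + (⌊y⌋₊ - (m - 3)) - 3 = ⌊y⌋₊ := by omega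
          rw [h3]
          exact Nat.floor_le hy0
        · have h2 : m - 3 ≤ ⌊y⌋₊ := Nat.le_floor hlo
          have h3 : m + (⌊y⌋₊ - (m - 3)) - 3 = ⌊y⌋₊ := by omega
          rw [h3]
          exact (Nat.lt_floor_add_one y).le
      · refine ⟨6, by norm_num, ?_, ?_⟩
        · have h3 : m + 6 - 3 = m + 3 := by omega
          rw [h3]
          push_cast
          linarith
        · have h3 : m + 6 - 3 = m + 3 := by omega
          rw [h3]
          push_cast
          linarith [hy1.2]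
    have hB0 : 0 ≤ δ * ℓ := by positivity
    refine zeros_of_window D (B0 := δ * ℓ) (z0 := z0) hγ0 hγ1 hη hB0 hz00 hz01 rfl ht hSS ?_ ?_ ?_
      ?_ (fun z hz => hlow' z (by linarith)) hs
    · -- the size of W
      have h1 : 96 * (δ * ℓ - Real.log z0 + 1) / η ^ 3 ≤ γ ^ 2 * ℓ / 1024 := by
        have h2 : 96 * (δ * ℓ) / η ^ 3 = γ ^ 2 * ℓ / 2048 := by
          rw [hδ]; field_simp
        have h3 : 96 * (1 - Real.log z0) / η ^ 3 ≤ γ ^ 2 * ℓ / 2048 := by
          have h4 : 2048 * 96 * (1 - Real.log z0) / (η ^ 3 * γ ^ 2) ≤ ℓ := by linarith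
          rw [div_le_iff₀ (by positivity)] at h4
          rw [div_le_div_iff₀ (by positivity) (by norm_num)]
          linarith
        have h4 : 96 * (δ * ℓ - Real.log z0 + 1) / η ^ 3 =
            96 * (δ * ℓ) / η ^ 3 + 96 * (1 - Real.log z0) / η ^ 3 := by ring
        rw [h4]
        linarith
      refine h1.trans ?_
      have h5 : ℓ / 8 ≤ 1 / (4 * t) := by
        rw [le_div_iff₀ (by positivity)]
        linarith
      calc γ ^ 2 * ℓ / 1024 = γ ^ 2 * (ℓ / 8) / 128 := by ring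
        _ ≤ _ := by gcongr
    · calc 3 * γ = θ := by rw [hγ]; ring
        _ ≤ t * ℓ := hθt
        _ = 2 * t * (ℓ / 2) := by ring
        _ ≤ _ := by gcongr
    · intro z hz hzi
      rcases le_total (z.re - 1) (1 / 2 + e / 2) with h | h
      · obtain ⟨j, hj, h1, h2⟩ := hwin z.im hzi
        have := (hgood j hj).1 z (by linarith) h h1 h2
        rwa [hTδ] at this
      · exact (hup' z (by linarith)).trans hZ
    · intro z hz hzi
      rcases le_total (z.re - 1) (1 / 2 + e / 2) with h | h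
      · obtain ⟨j, hj, h1, h2⟩ := hwin z.im hzi
        exact (hgood j hj).2 z (by linarith) h h1 h2
      · intro h0
        have h1 := hlow' z (by linarith)
        unfold Lt at h1
        rw [h0, zero_div, norm_zero] at h1
        linarith

end Pool.Agent.H6
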