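import Mathlib
import Pool.Agent.H6.DensA

/-!
Density theorem for the zeros of the heat flow deformation: counting.
-/

open Real MeasureTheory Set Filter Topology

namespace Pool.Agent.H6

open Pool.Agent.H5 (Lser)

open Classical in
/-- **Density theorem.** -/
theorem density_main {θ : ℝ} (hθ : 0 < θ) (hθ1 : θ ≤ 1) {d : ℕ} {M : ℝ} {Λ : ℂ → ℂ} {w : ℂ}
    (D : FEData M Λ (Lser (d : ℤ)) w)
    (hΛ : ∀ s : ℂ, 3 / 2 < s.re → Λ s = (M : ℂ) ^ s * Complex.Gamma s * Lser (d : ℤ) s)
    (E : EdData d M Λ) :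
    ∃ C : ℝ, ∀ T : ℝ, 2 ≤ T →
      (((Finset.range (⌊T⌋₊ + 1)).filter (fun m => ¬ GoodWin θ T Λ m)).card : ℝ) ≤
        C * T ^ (1 - θ ^ 5 / 10 ^ 12) := by
  obtain ⟨γ, hγ⟩ : ∃ γ : ℝ, γ = θ / 3 := ⟨_, rfl⟩
  obtain ⟨η, hη⟩ : ∃ η : ℝ, η = γ / 8 := ⟨_, rfl⟩
  obtain ⟨δ, hδ⟩ : ∃ δ : ℝ, δ = γ ^ 2 * η ^ 3 / (96 * 2048) := ⟨_, rfl⟩
  obtain ⟨e, he⟩ : ∃ e : ℝ, e = δ / 5 := ⟨_, rfl⟩
  have hγ0 : 0 < γ := by rw [hγ]; positivity
  have hγ1 : γ ≤ 1 := by rw [hγ]; linarith
  have hη0 : 0 < η := by rw [hη]; positivity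
  have hη1 : η ≤ 1 / 8 := by rw [hη]; linarith
  have hδ0 : 0 < δ := by rw [hδ]; positivity
  have he0 : 0 < e := by rw [he]; positivity
  have hδη : δ ≤ η ^ 2 / 12 := by
    rw [hδ]
    have h1 : γ ^ 2 * η ^ 3 ≤ 1 * η ^ 2 := by
      have h2 : γ ^ 2 ≤ 1 := pow_le_one₀ hγ0.le hγ1
      have h3 : η ^ 3 ≤ η ^ 2 := by
        have : η ^ 3 = η ^ 2 * η := by ring
        rw [this]
        have : 0 ≤ η ^ 2 := by positivity
        nlinarith
      gcongr
    have h4 : 0 ≤ η ^ 2 := by positivity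
    rw [div_le_div_iff₀ (by norm_num) (by norm_num)]
    nlinarith
  have heη : 12 * e ≤ η ^ 2 := by
    rw [he]
    have := sq_nonneg η
    linarith
  have he5 : e ≤ 1 / 5 := by nlinarith
  have heδ : 5 * e ≤ δ := by rw [he]; linarith
  have heθ : θ ^ 5 / 10 ^ 12 ≤ e := by
    rw [he, hδ, hη, hγ]
    have h5 : 0 < θ ^ 5 := by positivity
    have e1 : (θ / 3) ^ 2 * (θ / 3 / 8) ^ 3 / (96 * 2048) / 5 = θ ^ 5 * (1 / 122305904640) := by
      ring
    rw [e1, div_eq_mul_inv]
    gcongr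
    norm_num
  obtain ⟨ℓ1, hℓ1, hgood⟩ := goodWin_of D hΛ hθ hθ1 hγ hη hδ he0 he5
  obtain ⟨C1, hC1, hU⟩ := count_U D E he0 he5 heδ
  obtain ⟨C2, hC2, hN⟩ := count_N E he0 he5 hη0 (by linarith) heη
  refine ⟨2 * Real.exp ℓ1 + (7 + 7 * (C1 + C2)), ?_⟩
  intro T hT
  have hT0 : 0 < T := by linarith
  have hT1 : 1 ≤ T := by linarith
  have hmain : (((Finset.range (⌊T⌋₊ + 1)).filter (fun m => ¬ GoodWin θ T Λ m)).card : ℝ) ≤
      (2 * Real.exp ℓ1 + (7 + 7 * (C1 + C2))) * T ^ (1 - e) := by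
    have hTe : 1 ≤ T ^ (1 - e) := Real.one_le_rpow hT1 (by linarith)
    rcases lt_or_ge T (Real.exp ℓ1) with hsmall | hbig
    · have h1 : (((Finset.range (⌊T⌋₊ + 1)).filter (fun m => ¬ GoodWin θ T Λ m)).card : ℝ) ≤
          ⌊T⌋₊ + 1 := by
        have := Finset.card_filter_le (Finset.range (⌊T⌋₊ + 1)) (fun m => ¬ GoodWin θ T Λ m)
        rw [Finset.card_range] at this
        exact_mod_cast this
      have h2 : (⌊T⌋₊ : ℝ) ≤ T := Nat.floor_le hT0.le
      have h3 : (2 * Real.exp ℓ1) * 1 ≤ (2 * Real.exp ℓ1) * T ^ (1 - e) := by gcongr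
      have h4 : 0 ≤ (7 + 7 * (C1 + C2)) * T ^ (1 - e) := by positivity
      nlinarith
    · set k0 : ℕ := ⌈T ^ (1 - e)⌉₊ with hk0
      set B : Finset ℕ := (Finset.range (⌊3 * T⌋₊ + 1)).filter (fun k => 1 ≤ k ∧
        (k : ℝ) + 2 ≤ 3 * T ∧ T ^ (1 - e) ≤ k ∧ (¬ GoodU M Λ e δ T k ∨ ¬ GoodN Λ e η k)) with hB
      have hBcard : (B.card : ℝ) ≤ (C1 + C2) * T ^ (1 - e) := by
        set B1 := B.filter (fun k => ¬ GoodU M Λ e δ T k) with hB1
        set B2 := B.filter (fun k => ¬ GoodN Λ e η k) with hB2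
        have h1 : (B1.card : ℝ) ≤ C1 * T ^ (1 - e) := by
          apply hU T hT1
          intro m hm
          rw [hB1, Finset.mem_filter, hB, Finset.mem_filter] at hm
          exact ⟨hm.1.2.1, hm.1.2.2.1, hm.1.2.2.2.1, hm.2⟩
        have h2 : (B2.card : ℝ) ≤ C2 * T ^ (1 - e) := by
          apply hN T hT1
          intro m hm
          rw [hB2, Finset.mem_filter, hB, Finset.mem_filter] at hm
          exact ⟨hm.1.2.1, hm.1.2.2.1, hm.1.2.2.2.1, hm.2⟩
        have h3 : B ⊆ B1 ∪ B2 := by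
          intro k hk
          have hk' := hk
          rw [hB, Finset.mem_filter] at hk'
          rcases hk'.2.2.2.2 with h | h
          · exact Finset.mem_union_left _ (Finset.mem_filter.mpr ⟨hk, h⟩)
          · exact Finset.mem_union_right _ (Finset.mem_filter.mpr ⟨hk, h⟩)
        have h4 : (B.card : ℝ) ≤ (B1.card : ℝ) + B2.card := by
          exact_mod_cast (Finset.card_le_card h3).trans (Finset.card_union_le _ _)
        linarith
      have hT6 : 6 ≤ T ∨ T < 6 := le_or_gt 6 T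
      have hsub : (Finset.range (⌊T⌋₊ + 1)).filter (fun m => ¬ GoodWin θ T Λ m) ⊆
          Finset.range (k0 + 4) ∪ (Finset.range 7).biUnion (fun j => B.image (fun k => k + 3 - j)) := by
        intro m hm
        rw [Finset.mem_filter, Finset.mem_range] at hm
        obtain ⟨hm1, hm2⟩ := hm
        by_cases hmk : m < k0 + 4
        · exact Finset.mem_union_left _ (Finset.mem_range.mpr hmk)
        · have hmk' : k0 + 4 ≤ m := not_lt.mp hmk
          have hmT : (m : ℝ) ≤ T := by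
            have h1 : m ≤ ⌊T⌋₊ := by omega
            exact (Nat.cast_le.mpr h1).trans (Nat.floor_le hT0.le)
          have hk0' : T ^ (1 - e) ≤ k0 := Nat.le_ceil _
          have hm4 : (k0 : ℝ) + 4 ≤ m := by exact_mod_cast hmk'
          have hm5 : (5:ℝ) ≤ m := by linarith
          have hm5' : 5 ≤ m := by exact_mod_cast hm5
          apply Finset.mem_union_right
          by_contra hcon
          apply hm2
          apply hgood T hbig m (by linarith)
          intro j hj
          by_contra hbad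
          apply hcon
          rw [Finset.mem_biUnion]
          refine ⟨j, Finset.mem_range.mpr hj, ?_⟩
          rw [Finset.mem_image]
          refine ⟨m + j - 3, ?_, by omega⟩
          have hcast : ((m + j - 3 : ℕ) : ℝ) = (m : ℝ) + j - 3 := by
            rw [Nat.cast_sub (by omega)]; push_cast; ring
          have hj6 : (j : ℝ) ≤ 6 := by
            have : j ≤ 6 := by omega
            exact_mod_cast this
          have hj0 : (0 : ℝ) ≤ j := Nat.cast_nonneg j
          have hle : ((m + j - 3 : ℕ) : ℝ) + 2 ≤ 3 * T := by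
            rw [hcast]; linarith
          rw [hB, Finset.mem_filter, Finset.mem_range]
          refine ⟨?_, by omega, hle, ?_, ?_⟩
          · apply Nat.lt_succ_of_le
            apply Nat.le_floor
            linarith
          · rw [hcast]; linarith
          · by_contra h
            push Not at h
            exact hbad h
      have hcard := Finset.card_le_card hsub
      have h1 : (Finset.range (k0 + 4) ∪ (Finset.range 7).biUnion
          (fun j => B.image (fun k => k + 3 - j))).card ≤ (k0 + 4) + 7 * B.card := by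
        refine (Finset.card_union_le _ _).trans ?_
        rw [Finset.card_range]
        apply Nat.add_le_add_left
        refine Finset.card_biUnion_le.trans ?_
        refine (Finset.sum_le_card_nsmul (Finset.range 7) _ B.card
          (fun j _ => Finset.card_image_le)).trans ?_
        simp
      have h2 : (((Finset.range (⌊T⌋₊ + 1)).filter (fun m => ¬ GoodWin θ T Λ m)).card : ℝ) ≤
          ((k0 : ℝ) + 4) + 7 * B.card := by
        exact_mod_cast hcard.trans h1
      have h3 : (k0 : ℝ) ≤ T ^ (1 - e) + 1 := (Nat.ceil_lt_add_one (by positivity)).le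
      have h4 : 0 ≤ 2 * Real.exp ℓ1 * T ^ (1 - e) := by positivity
      have h5 : T ^ (1 - e) + 1 + 4 ≤ 7 * T ^ (1 - e) := by linarith
      nlinarith
  refine hmain.trans ?_
  have h1 : T ^ (1 - e) ≤ T ^ (1 - θ ^ 5 / 10 ^ 12) :=
    Real.rpow_le_rpow_of_exponent_le hT1 (by linarith)
  have h2 : 0 ≤ 2 * Real.exp ℓ1 + (7 + 7 * (C1 + C2)) := by positivity
  gcongr

end Pool.Agent.H6
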