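import Mathlib
import Pool.Agent.H6.SubMean

/-!
The counting lemma with first absolute moments.
-/

set_option autoImplicit false

open MeasureTheory Set Filter Topology Real Metric

namespace Pool.Agent.H6

lemma circle_sub_mean1 {G : ℂ → ℂ} {z0 : ℂ} {r : ℝ} (hr : 0 < r)
    (hG : ∀ z ∈ closedBall z0 r, DifferentiableAt ℂ G z) :
    2 * π * ‖G z0‖ ≤ ∫ θ in (0:ℝ)..2 * π, ‖G (circleMap z0 r θ)‖ := by
  have habs : |r| = r := abs_of_pos hr
  have hd : DiffContOnCl ℂ G (ball z0 |r|) := by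
    rw [habs]
    apply DifferentiableOn.diffContOnCl
    rw [closure_ball z0 hr.ne']
    intro z hz
    exact (hG z hz).differentiableWithinAt
  have h := hd.circleAverage
  have h2 : ‖G z0‖ ≤ (2 * π)⁻¹ * ∫ θ in (0:ℝ)..2 * π, ‖G (circleMap z0 r θ)‖ := by
    have h3 : ‖G z0‖ = ‖Real.circleAverage G z0 r‖ := by rw [h]
    rw [h3, Real.circleAverage_def, norm_smul, Real.norm_of_nonneg (by positivity)]
    gcongr
    exact intervalIntegral.norm_integral_le_integral_norm
      (f := fun θ => G (circleMap z0 r θ)) (μ := volume) (by positivity : (0:ℝ) ≤ 2 * π)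
  have hpi : 0 < 2 * π := by positivity
  rw [inv_mul_eq_div, le_div_iff₀ hpi] at h2
  linarith

lemma disc_sub_mean1 {G : ℂ → ℂ} {v0 x0 ρ : ℝ} (hρ : 0 < ρ)
    (hG : ∀ z ∈ closedBall (cpt (v0, x0)) ρ, DifferentiableAt ℂ G z) :
    π * ρ ^ 2 * ‖G (cpt (v0, x0))‖ ≤ ∫ p in disc v0 x0 ρ, ‖G (cpt p)‖ := by
  set z0 := cpt (v0, x0) with hz0
  -- translate
  have h1 : ∫ p in disc v0 x0 ρ, ‖G (cpt p)‖ =
      ∫ p in disc 0 0 ρ, ‖G (cpt (p.1 + v0, p.2 + x0))‖ := by
    rw [← integral_indicator (measurableSet_disc _ _ _),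
      ← integral_indicator (measurableSet_disc _ _ _),
      ← integral_add_right_eq_self _ ((v0, x0) : ℝ × ℝ)]
    congr 1
    funext p
    by_cases hp : p ∈ disc 0 0 ρ
    · have hp' : p + (v0, x0) ∈ disc v0 x0 ρ := by
        simp only [disc, mem_ofPred_eq, sub_zero, Prod.fst_add, Prod.snd_add,
          add_sub_cancel_right] at hp ⊢
        exact hp
      rw [indicator_of_mem hp, indicator_of_mem hp']
      rfl
    · have hp' : p + (v0, x0) ∉ disc v0 x0 ρ := by
        simp only [disc, mem_ofPred_eq, sub_zero, Prod.fst_add, Prod.snd_add,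
          add_sub_cancel_right] at hp ⊢
        exact hp
      rw [indicator_of_notMem hp, indicator_of_notMem hp']
  -- polar coordinates
  rw [h1, ← integral_indicator (measurableSet_disc _ _ _), ← integral_comp_polarCoord_symm]
  have htarget : polarCoord.target = Ioi (0:ℝ) ×ˢ Ioo (-π) π := rfl
  rw [htarget]
  set F : ℝ × ℝ → ℝ := fun q => q.1 * ‖G (circleMap z0 q.1 q.2)‖ with hF
  have hpt : ∀ q ∈ Ioi (0:ℝ) ×ˢ Ioo (-π) π,
      q.1 • (disc 0 0 ρ).indicator (fun p => ‖G (cpt (p.1 + v0, p.2 + x0))‖)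
        (polarCoord.symm q) = (Iio ρ ×ˢ (univ : Set ℝ)).indicator F q := by
    intro q hq
    have hq1 : (0:ℝ) < q.1 := hq.1
    have hsymm : polarCoord.symm q = (q.1 * Real.cos q.2, q.1 * Real.sin q.2) := rfl
    rw [hsymm]
    have hsq : (q.1 * Real.cos q.2 - 0) ^ 2 + (q.1 * Real.sin q.2 - 0) ^ 2 = q.1 ^ 2 := by
      have := Real.sin_sq_add_cos_sq q.2
      nlinarith [this]
    by_cases h : q.1 < ρ
    · have hm : (q.1 * Real.cos q.2, q.1 * Real.sin q.2) ∈ disc 0 0 ρ := by
        show (q.1 * Real.cos q.2 - 0) ^ 2 + (q.1 * Real.sin q.2 - 0) ^ 2 < ρ ^ 2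
        rw [hsq]
        gcongr
      rw [indicator_of_mem hm, indicator_of_mem (show q ∈ Iio ρ ×ˢ (univ : Set ℝ) from ⟨h, trivial⟩)]
      simp only [hF, smul_eq_mul]
      rw [cpt_polar]
    · have hm : (q.1 * Real.cos q.2, q.1 * Real.sin q.2) ∉ disc 0 0 ρ := by
        show ¬ (q.1 * Real.cos q.2 - 0) ^ 2 + (q.1 * Real.sin q.2 - 0) ^ 2 < ρ ^ 2
        rw [hsq]
        push Not at h ⊢
        gcongr
      rw [indicator_of_notMem hm,
        indicator_of_notMem (show q ∉ Iio ρ ×ˢ (univ : Set ℝ) from fun hh => h hh.1), smul_zero]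
  rw [setIntegral_congr_fun (measurableSet_Ioi.prod measurableSet_Ioo) hpt,
    setIntegral_indicator (measurableSet_Iio.prod MeasurableSet.univ)]
  have hset : Ioi (0:ℝ) ×ˢ Ioo (-π) π ∩ Iio ρ ×ˢ (univ : Set ℝ) = Ioo 0 ρ ×ˢ Ioo (-π) π := by
    rw [Set.prod_inter_prod, Ioi_inter_Iio, inter_univ]
  rw [hset]
  -- integrability
  have hmaps : ∀ q : ℝ × ℝ, 0 ≤ q.1 → q.1 ≤ ρ → circleMap z0 q.1 q.2 ∈ closedBall z0 ρ := by
    intro q h0 h
    rw [mem_closedBall, dist_eq_norm]
    simp [circleMap, abs_of_nonneg h0, h]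
  have hcont : ContinuousOn F (Icc 0 ρ ×ˢ Icc (-π) π) := by
    apply ContinuousOn.mul (by fun_prop)
    apply ContinuousOn.norm
    have hGc : ContinuousOn G (closedBall z0 ρ) := fun z hz => (hG z hz).continuousAt.continuousWithinAt
    apply hGc.comp
    · apply Continuous.continuousOn
      unfold circleMap
      fun_prop
    · intro q hq
      exact hmaps q hq.1.1 hq.1.2
  have hint : IntegrableOn F (Ioo 0 ρ ×ˢ Ioo (-π) π) (volume.prod volume) := by
    have h2 : IntegrableOn F (Icc 0 ρ ×ˢ Icc (-π) π) (volume.prod volume) :=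
      hcont.integrableOn_compact (isCompact_Icc.prod isCompact_Icc)
    exact h2.mono_set (Set.prod_mono Ioo_subset_Icc_self Ioo_subset_Icc_self)
  have hvol : (volume : Measure (ℝ × ℝ)) = volume.prod volume := rfl
  rw [hvol, setIntegral_prod F hint]
  -- inner integrals
  have hinner : ∀ r ∈ Ioo 0 ρ, 2 * π * ‖G z0‖ * r ≤ ∫ θ in Ioo (-π) π, F (r, θ) := by
    intro r hr
    simp only [hF]
    rw [integral_const_mul, ← integral_Ioc_eq_integral_Ioo,
      ← intervalIntegral.integral_of_le (by linarith [Real.pi_pos])]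
    have hper : Function.Periodic (fun θ => ‖G (circleMap z0 r θ)‖) (2 * π) := by
      intro θ
      simp only
      rw [periodic_circleMap]
    have h3 := hper.intervalIntegral_add_eq (-π) 0
    have e1 : -π + 2 * π = π := by ring
    rw [e1, zero_add] at h3
    rw [h3]
    have h4 := circle_sub_mean1 (G := G) (z0 := z0) hr.1 (fun z hz =>
      hG z (closedBall_subset_closedBall hr.2.le hz))
    have hr0 := hr.1
    calc 2 * π * ‖G z0‖ * r = r * (2 * π * ‖G z0‖) := by ring
      _ ≤ _ := by gcongr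
  have hlin : IntegrableOn (fun r : ℝ => 2 * π * ‖G z0‖ * r) (Ioo 0 ρ) :=
    (Continuous.integrableOn_Icc (by fun_prop)).mono_set Ioo_subset_Icc_self
  have hFint : IntegrableOn (fun r => ∫ θ in Ioo (-π) π, F (r, θ)) (Ioo 0 ρ) := by
    have h5 : Integrable F ((volume.restrict (Ioo 0 ρ)).prod (volume.restrict (Ioo (-π) π))) := by
      rw [Measure.prod_restrict]; exact hint
    exact h5.integral_prod_left
  have h6 := setIntegral_mono_on hlin hFint measurableSet_Ioo hinner
  refine le_trans (le_of_eq ?_) h6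
  rw [integral_const_mul, ← integral_Ioc_eq_integral_Ioo, ← intervalIntegral.integral_of_le hρ.le,
    integral_id]
  ring

/-- **counting lemma** -/
theorem count_bound1 {G : ℂ → ℂ} {va vb ρ T S B : ℝ} (hρ : 0 < ρ) (hρ1 : ρ ≤ 1) (hT : 1 ≤ T)
    (hab : va ≤ vb) (hB0 : 0 ≤ B)
    (hG : ∀ z : ℂ, va - ρ ≤ z.re - 1 → DifferentiableAt ℂ G z)
    (hB : ∀ v ∈ Icc (va - ρ) (vb + ρ), T ^ (-|v|) *
      ∫ x in (0:ℝ)..S, ‖G (((1 + v : ℝ) : ℂ) + x * Complex.I)‖ ≤ B)
    (ms : Finset ℕ) (hms : ∀ m ∈ ms, 1 ≤ m ∧ (m : ℝ) + 2 ≤ S) (vm xm : ℕ → ℝ)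
    (hv : ∀ m ∈ ms, vm m ∈ Icc va vb) (hx : ∀ m ∈ ms, xm m ∈ Icc (m : ℝ) (m + 1)) :
    ∑ m ∈ ms, T ^ (-|vm m|) * ‖G (cpt (vm m, xm m))‖ ≤
      4 * (vb - va + 2 * ρ) / (π * ρ ^ 2) * T ^ ρ * B := by
  classical
  rcases ms.eq_empty_or_nonempty with rfl | hne
  · rw [Finset.sum_empty]
    have : 0 ≤ vb - va + 2 * ρ := by linarith
    positivity
  have hT0 : 0 < T := by linarith
  obtain ⟨m0, hm0⟩ := hne
  have hS : 0 ≤ S := by
    have h1 := (hms m0 hm0).2
    have h2 : (0:ℝ) ≤ m0 := by positivity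
    linarith
  set g : ℝ × ℝ → ℝ := fun p => T ^ (-|p.1|) * ‖G (cpt p)‖ with hg
  have hg0 : ∀ p, 0 ≤ g p := fun p => by simp only [hg]; positivity
  set Box : Set (ℝ × ℝ) := Icc (va - ρ) (vb + ρ) ×ˢ Icc 0 S with hBox
  have hBoxm : MeasurableSet Box := measurableSet_Icc.prod measurableSet_Icc
  have hgc : ContinuousOn g Box := by
    apply ContinuousOn.mul
    · apply Continuous.continuousOn
      exact Continuous.rpow continuous_const (by fun_prop) (fun _ => Or.inl hT0.ne')
    · apply ContinuousOn.norm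
      intro p hp
      apply ContinuousAt.continuousWithinAt
      apply ContinuousAt.comp (f := cpt) (g := G) _ continuous_cpt.continuousAt
      apply (hG _ _).continuousAt
      show va - ρ ≤ 1 + p.1 - 1
      have := hp.1.1
      linarith
  have hgi : IntegrableOn g Box := hgc.integrableOn_compact (isCompact_Icc.prod isCompact_Icc)
  -- discs are in the box
  have hsub : ∀ m ∈ ms, disc (vm m) (xm m) ρ ⊆ Box := by
    intro m hm p hp
    have hp' : (p.1 - vm m) ^ 2 + (p.2 - xm m) ^ 2 < ρ ^ 2 := hp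
    have h1 : |p.1 - vm m| ≤ ρ := abs_le_of_sq_le_sq (by nlinarith [sq_nonneg (p.2 - xm m)]) hρ.le
    have h2 : |p.2 - xm m| ≤ ρ := abs_le_of_sq_le_sq (by nlinarith [sq_nonneg (p.1 - vm m)]) hρ.le
    obtain ⟨h3, h4⟩ := abs_le.mp h1
    obtain ⟨h5, h6⟩ := abs_le.mp h2
    obtain ⟨h7, h8⟩ := hv m hm
    obtain ⟨h9, h10⟩ := hx m hm
    obtain ⟨h11, h12⟩ := hms m hm
    have h13 : (1:ℝ) ≤ m := by exact_mod_cast h11
    refine ⟨⟨by linarith, by linarith⟩, ⟨by linarith, by linarith⟩⟩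
  -- each term
  have hterm : ∀ m ∈ ms, π * ρ ^ 2 * (T ^ (-|vm m|) * ‖G (cpt (vm m, xm m))‖) ≤
      T ^ ρ * ∫ p in Box, (disc (vm m) (xm m) ρ).indicator g p := by
    intro m hm
    have h1 := disc_sub_mean1 (G := G) (v0 := vm m) (x0 := xm m) hρ (by
      intro z hz
      apply hG
      have h2 : ‖z - cpt (vm m, xm m)‖ ≤ ρ := by simpa [dist_eq_norm] using hz
      have h3 := (Complex.abs_re_le_norm (z - cpt (vm m, xm m))).trans h2
      rw [Complex.sub_re] at h3
      have h4 : (cpt (vm m, xm m)).re = 1 + vm m := rfl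
      rw [h4] at h3
      have h5 := (abs_le.mp h3).1
      have h6 := (hv m hm).1
      linarith)
    have h2 : ∫ p in Box, (disc (vm m) (xm m) ρ).indicator g p = ∫ p in disc (vm m) (xm m) ρ, g p := by
      rw [setIntegral_indicator (measurableSet_disc _ _ _), inter_eq_self_of_subset_right (hsub m hm)]
    rw [h2]
    have hgi' : IntegrableOn g (disc (vm m) (xm m) ρ) := hgi.mono_set (hsub m hm)
    have hcont2 : ContinuousOn (fun p => ‖G (cpt p)‖) Box := by
      apply ContinuousOn.norm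
      intro p hp
      apply ContinuousAt.continuousWithinAt
      apply ContinuousAt.comp (f := cpt) (g := G) _ continuous_cpt.continuousAt
      apply (hG _ _).continuousAt
      show va - ρ ≤ 1 + p.1 - 1
      have := hp.1.1
      linarith
    have hgi2 : IntegrableOn (fun p => ‖G (cpt p)‖) (disc (vm m) (xm m) ρ) :=
      (hcont2.integrableOn_compact (isCompact_Icc.prod isCompact_Icc)).mono_set (hsub m hm)
    calc π * ρ ^ 2 * (T ^ (-|vm m|) * ‖G (cpt (vm m, xm m))‖) =
        T ^ (-|vm m|) * (π * ρ ^ 2 * ‖G (cpt (vm m, xm m))‖) := by ring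
      _ ≤ T ^ (-|vm m|) * ∫ p in disc (vm m) (xm m) ρ, ‖G (cpt p)‖ := by gcongr
      _ = ∫ p in disc (vm m) (xm m) ρ, T ^ (-|vm m|) * ‖G (cpt p)‖ := by
          rw [integral_const_mul]
      _ ≤ ∫ p in disc (vm m) (xm m) ρ, T ^ ρ * g p := by
          apply setIntegral_mono_on (hgi2.const_mul _) (hgi'.const_mul _) (measurableSet_disc _ _ _)
          intro p hp
          simp only [hg]
          have hp' : (p.1 - vm m) ^ 2 + (p.2 - xm m) ^ 2 < ρ ^ 2 := hp
          have h3 : |p.1 - vm m| ≤ ρ :=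
            abs_le_of_sq_le_sq (by nlinarith [sq_nonneg (p.2 - xm m)]) hρ.le
          have h4 : |p.1| ≤ |vm m| + ρ := by
            calc |p.1| = |vm m + (p.1 - vm m)| := by congr 1; ring
              _ ≤ |vm m| + |p.1 - vm m| := abs_add_le _ _
              _ ≤ _ := by linarith
          have h5 : T ^ (-|vm m|) ≤ T ^ ρ * T ^ (-|p.1|) := by
            rw [← Real.rpow_add hT0]
            apply Real.rpow_le_rpow_of_exponent_le hT
            linarith
          calc T ^ (-|vm m|) * ‖G (cpt p)‖ ≤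
              (T ^ ρ * T ^ (-|p.1|)) * ‖G (cpt p)‖ := by gcongr
            _ = _ := by ring
      _ = _ := by rw [integral_const_mul]
  -- sum of indicators
  have hind : ∀ p ∈ Box, ∑ m ∈ ms, (disc (vm m) (xm m) ρ).indicator g p ≤ 4 * g p := by
    intro p hp
    have h1 : ∑ m ∈ ms, (disc (vm m) (xm m) ρ).indicator g p =
        ∑ m ∈ ms.filter (fun m => p ∈ disc (vm m) (xm m) ρ), g p := by
      rw [Finset.sum_filter]
      apply Finset.sum_congr rfl
      intro m _
      rfl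
    rw [h1, Finset.sum_const, nsmul_eq_mul]
    have h2 : (ms.filter (fun m => p ∈ disc (vm m) (xm m) ρ)).card ≤ 4 := by
      have h3 : ms.filter (fun m => p ∈ disc (vm m) (xm m) ρ) ⊆
          Finset.Icc ⌈p.2 - 2⌉₊ (⌈p.2 - 2⌉₊ + 3) := by
        intro m hm
        obtain ⟨hm1, hm2⟩ := Finset.mem_filter.mp hm
        have hp' : (p.1 - vm m) ^ 2 + (p.2 - xm m) ^ 2 < ρ ^ 2 := hm2
        have h2 : |p.2 - xm m| ≤ ρ :=
          abs_le_of_sq_le_sq (by nlinarith [sq_nonneg (p.1 - vm m)]) hρ.le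
        obtain ⟨h5, h6⟩ := abs_le.mp h2
        obtain ⟨h9, h10⟩ := hx m hm1
        rw [Finset.mem_Icc]
        constructor
        · apply Nat.ceil_le.mpr; linarith
        · have h11 : p.2 - 2 ≤ ⌈p.2 - 2⌉₊ := Nat.le_ceil _
          have h12 : (m : ℝ) ≤ ((⌈p.2 - 2⌉₊ + 3 : ℕ) : ℝ) := by push_cast; linarith
          exact_mod_cast h12
      have h4 := Finset.card_le_card h3
      rw [Nat.card_Icc] at h4
      omega
    have h5 : (((ms.filter (fun m => p ∈ disc (vm m) (xm m) ρ)).card : ℕ) : ℝ) ≤ 4 := by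
      exact_mod_cast h2
    have := hg0 p
    gcongr
  have hindint : ∀ m ∈ ms, IntegrableOn ((disc (vm m) (xm m) ρ).indicator g) Box := by
    intro m _
    exact hgi.indicator (measurableSet_disc _ _ _)
  have hsum1 : π * ρ ^ 2 * ∑ m ∈ ms, T ^ (-|vm m|) * ‖G (cpt (vm m, xm m))‖ ≤
      T ^ ρ * (4 * ∫ p in Box, g p) := by
    rw [Finset.mul_sum]
    refine (Finset.sum_le_sum hterm).trans ?_
    rw [← Finset.mul_sum]
    gcongr
    rw [← integral_finsetSum _ hindint, ← integral_const_mul]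
    apply setIntegral_mono_on _ (hgi.const_mul _) hBoxm hind
    exact integrable_finsetSum _ hindint
  -- Fubini
  have hfub : ∫ p in Box, g p ≤ (vb - va + 2 * ρ) * B := by
    have hvol : (volume : Measure (ℝ × ℝ)) = volume.prod volume := rfl
    have hgi' : IntegrableOn g (Icc (va - ρ) (vb + ρ) ×ˢ Icc 0 S) (volume.prod volume) := hgi
    rw [hBox, hvol, setIntegral_prod g hgi']
    have hinner : ∀ v ∈ Icc (va - ρ) (vb + ρ), ∫ x in Icc 0 S, g (v, x) ≤ B := by
      intro v hv'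
      refine le_trans (le_of_eq ?_) (hB v hv')
      rw [integral_Icc_eq_integral_Ioc, ← intervalIntegral.integral_of_le hS]
      simp only [hg]
      rw [intervalIntegral.integral_const_mul]
      congr 2
      funext x
      congr 3
      apply Complex.ext <;> simp [cpt]
    have hFint : IntegrableOn (fun v => ∫ x in Icc 0 S, g (v, x)) (Icc (va - ρ) (vb + ρ)) := by
      have h5 : Integrable g ((volume.restrict (Icc (va - ρ) (vb + ρ))).prod
          (volume.restrict (Icc 0 S))) := by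
        rw [Measure.prod_restrict]; exact hgi'
      exact h5.integral_prod_left
    calc ∫ v in Icc (va - ρ) (vb + ρ), ∫ x in Icc 0 S, g (v, x)
        ≤ ∫ _ in Icc (va - ρ) (vb + ρ), B := by
          apply setIntegral_mono_on hFint _ measurableSet_Icc hinner
          exact Continuous.integrableOn_Icc continuous_const
      _ = (vb - va + 2 * ρ) * B := by
          rw [setIntegral_const, smul_eq_mul, Measure.real, Real.volume_Icc,
            ENNReal.toReal_ofReal (by linarith)]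
          ring
  have hpos : 0 < π * ρ ^ 2 := by positivity
  have hfin : π * ρ ^ 2 * ∑ m ∈ ms, T ^ (-|vm m|) * ‖G (cpt (vm m, xm m))‖ ≤
      T ^ ρ * (4 * ((vb - va + 2 * ρ) * B)) := by
    refine hsum1.trans ?_
    gcongr
  have e1 : 4 * (vb - va + 2 * ρ) / (π * ρ ^ 2) * T ^ ρ * B =
      (T ^ ρ * (4 * ((vb - va + 2 * ρ) * B))) / (π * ρ ^ 2) := by ring
  rw [e1, le_div_iff₀ hpos]
  linarith

end Pool.Agent.H6
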