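import Mathlib
import Pool.Agent.H6.LCoef
import Pool.Agent.H6.MeanSqC

/-!
The mean square of the completed L-function with logarithmic precision.
-/

set_option autoImplicit false

open MeasureTheory Set Filter Topology Real

namespace Pool.Agent.H6

open Pool.Agent.H5

theorem raySum_log {ε v B b : ℝ} (hε : 0 < ε) (hε4 : ε ≤ 1 / 4) (hv : 0 ≤ v)
    (hv1 : 2 * v ≤ 1 + 2 * ε) (hb : 0 < b)
    {z : ℂ} (hz : 0 < z.re) (hbz : b ≤ |z.im|) (a : ℕ → ℝ) (s : Finset ℕ)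
    (hs : ∀ n ∈ s, 1 ≤ n)
    (ha : ∑ n ∈ s, a n ^ 2 * (n : ℝ) ^ (-(2 + ε)) ≤ B) :
    ∫ r in Ioi (1:ℝ), ‖raySum a s z r‖ ^ 2 * r ^ (1 + 2 * v) ≤
      B * (12 * z.re ^ (-(2 + 2 * v + ε)) + 75460 * zs ε / b * z.re ^ (-(2 + 3 * ε))) := by
  set τ := z.re with hτdef
  have hZ := zs_nonneg ε
  have h1 := ray_quadratic a s hz hs (κ := 1 + 2 * v) (by linarith) (kfun τ b (1 + 2 * v))
    (fun m hm n hn => kerI_le_kfun hz hb hbz (by linarith) (by linarith) (hs m hm) (hs n hn))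
    (kfun_symm _ _ _)
  refine h1.trans ?_
  have hterm : ∀ m ∈ s, a m ^ 2 * ∑ n ∈ s, kfun τ b (1 + 2 * v) m n ≤
      (12 * τ ^ (-(2 + 2 * v + ε)) + 75460 * zs ε / b * τ ^ (-(2 + 3 * ε))) *
        (a m ^ 2 * (m : ℝ) ^ (-(2 + ε))) := by
    intro m hm
    have hm1 : (1:ℝ) ≤ m := by exact_mod_cast hs m hm
    have hm0 : (0:ℝ) < m := by linarith
    have hx : 0 < m * τ := by positivity
    have h2 := row_sum_le (κ := 1 + 2 * v) hz hb (by linarith) hε (by linarith) s hs (hs m hm)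
    set X : ℝ := m * τ with hX
    have hXe : ∀ q : ℝ, X ^ q = (m : ℝ) ^ q * τ ^ q := fun q => Real.mul_rpow hm0.le hz.le
    -- diagonal part
    have hdiag : 6 * (Real.exp (-X) * X ^ (-(1 + 2 * v + 1))) ≤
        12 * τ ^ (-(2 + 2 * v + ε)) * (m : ℝ) ^ (-(2 + ε)) := by
      have h4 : Real.exp (-X) ≤ 2 * X ^ (-ε) := by
        have h5 := exp_half_le_rpow (q := ε) (x := X) hε.le (by linarith) hx
        refine le_trans ?_ h5
        apply Real.exp_le_exp.mpr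
        linarith
      have h5 : (m : ℝ) ^ (-(2 + 2 * v + ε)) ≤ (m : ℝ) ^ (-(2 + ε)) :=
        Real.rpow_le_rpow_of_exponent_le hm1 (by linarith)
      calc 6 * (Real.exp (-X) * X ^ (-(1 + 2 * v + 1)))
          ≤ 6 * ((2 * X ^ (-ε)) * X ^ (-(1 + 2 * v + 1))) := by
            gcongr
        _ = 12 * X ^ (-(2 + 2 * v + ε)) := by
            have : X ^ (-(2 + 2 * v + ε)) = X ^ (-ε) * X ^ (-(1 + 2 * v + 1)) := by
              rw [← Real.rpow_add hx]; congr 1; ring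
            rw [this]; ring
        _ = 12 * τ ^ (-(2 + 2 * v + ε)) * (m : ℝ) ^ (-(2 + 2 * v + ε)) := by
            rw [hXe]; ring
        _ ≤ _ := by gcongr
    -- off diagonal part
    have hoff : 4 * zs ε / b * (τ ^ (-ε) * (m : ℝ) ^ ε * (Real.exp (-X / 2) *
        (1 + 48 * X ^ (-(1 + 2 * v))))) ≤
        75460 * zs ε / b * τ ^ (-(2 + 3 * ε)) * (m : ℝ) ^ (-(2 + ε)) := by
      have h4 : Real.exp (-X / 2) * (1 + 48 * X ^ (-(1 + 2 * v))) ≤ 18865 * X ^ (-(2 + 2 * ε)) := by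
        have h5 := rpow_exp_half_le (q := 2 + 2 * ε) (x := X) (by linarith) (by linarith) hx
        have h6 := rpow_exp_half_le (q := 2 + 2 * ε - (1 + 2 * v)) (x := X) (by linarith)
          (by linarith) hx
        have hp : 0 < X ^ (2 + 2 * ε) := by positivity
        rw [Real.rpow_neg hx.le (2 + 2 * ε), ← div_eq_mul_inv, le_div_iff₀ hp]
        have h7 : X ^ (2 + 2 * ε - (1 + 2 * v)) = X ^ (2 + 2 * ε) * X ^ (-(1 + 2 * v)) := by
          rw [← Real.rpow_add hx]; congr 1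
        rw [h7] at h6
        nlinarith
      have hc : 0 ≤ 4 * zs ε / b := by positivity
      calc 4 * zs ε / b * (τ ^ (-ε) * (m : ℝ) ^ ε * (Real.exp (-X / 2) *
            (1 + 48 * X ^ (-(1 + 2 * v)))))
          ≤ 4 * zs ε / b * (τ ^ (-ε) * (m : ℝ) ^ ε *
            (18865 * X ^ (-(2 + 2 * ε)))) := by gcongr
        _ = 75460 * zs ε / b * ((τ ^ (-ε) * τ ^ (-(2 + 2 * ε))) *
            ((m : ℝ) ^ ε * (m : ℝ) ^ (-(2 + 2 * ε)))) := by
            rw [hXe]; ring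
        _ = _ := by
            rw [← Real.rpow_add hz, ← Real.rpow_add hm0, ← mul_assoc]
            congr 2
            · congr 1; ring
            · ring
    calc a m ^ 2 * ∑ n ∈ s, kfun τ b (1 + 2 * v) m n
        ≤ a m ^ 2 * (6 * (Real.exp (-X) * X ^ (-(1 + 2 * v + 1))) +
          4 * zs ε / b * (τ ^ (-ε) * (m : ℝ) ^ ε * (Real.exp (-X / 2) *
            (1 + 48 * X ^ (-(1 + 2 * v)))))) := by
          gcongr
      _ ≤ a m ^ 2 * (12 * τ ^ (-(2 + 2 * v + ε)) * (m : ℝ) ^ (-(2 + ε)) +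
          75460 * zs ε / b * τ ^ (-(2 + 3 * ε)) * (m : ℝ) ^ (-(2 + ε))) := by gcongr
      _ = _ := by ring
  refine (Finset.sum_le_sum hterm).trans ?_
  rw [← Finset.mul_sum, mul_comm B]
  gcongr

/-- passage to the limit -/
theorem Fs_ray_limit {v Bd C : ℝ} {a : ℕ → ℝ} (hv : 0 ≤ v)
    {z : ℂ} (hz : 0 < z.re) (hC : 0 ≤ C) (hlin : ∀ n : ℕ, |a n| ≤ C * n)
    (hBd : ∀ s : Finset ℕ, (∀ n ∈ s, 1 ≤ n) →
      ∫ r in Ioi (1:ℝ), ‖raySum a s z r‖ ^ 2 * r ^ (1 + 2 * v) ≤ Bd) :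
    IntegrableOn (fun r : ℝ => ‖Fs a (z * r)‖ ^ 2 * r ^ (1 + 2 * v)) (Ioi 1) ∧
    ∫ r in Ioi (1:ℝ), ‖Fs a (z * r)‖ ^ 2 * r ^ (1 + 2 * v) ≤ Bd := by
  classical
  set s : ℕ → Finset ℕ := fun N => (Finset.range N).filter (fun n => 1 ≤ n) with hs
  have hraysum : ∀ N : ℕ, ∀ r : ℝ, raySum a (s N) z r =
      ∑ n ∈ Finset.range N, (a n : ℂ) * Complex.exp (-(n * (z * r))) := by
    intro N r
    unfold raySum
    rw [hs, Finset.sum_filter]
    apply Finset.sum_congr rfl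
    intro n _
    split_ifs with h
    · congr 2; ring
    · have h0 : n = 0 := by omega
      have h1 := hlin n
      rw [h0, Nat.cast_zero, mul_zero] at h1
      have h2 : a 0 = 0 := abs_eq_zero.mp (le_antisymm h1 (abs_nonneg _))
      rw [h0, h2]; simp
  set S := Sc C z.re with hSdef
  have hS0 : 0 ≤ S := Sc_nonneg hC _
  set g : ℝ → ℝ := fun r => S ^ 2 * (r ^ (1 + 2 * v) * Real.exp (-z.re * r)) with hg
  have hgi : IntegrableOn g (Ioi 1) :=
    ((integrableOn_kernel (by linarith) hz).mono_set (Ioi_subset_Ioi zero_le_one)).const_mul _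
  have hbd : ∀ r : ℝ, 1 < r → ∀ t : Finset ℕ,
      ‖∑ n ∈ t, (a n : ℂ) * Complex.exp (-(n * (z * r)))‖ ^ 2 * r ^ (1 + 2 * v) ≤ g r := by
    intro r hr t
    have hr0 : 0 < r := by linarith
    have h1 := Fs_finset_le hC hlin hz (z := z * r) (by rw [ray_re]; nlinarith) t
    rw [ray_re] at h1
    have h2 : (S * Real.exp (-(z.re * r / 2))) ^ 2 = S ^ 2 * Real.exp (-z.re * r) := by
      rw [mul_pow, ← Real.exp_nat_mul]; congr 2; push_cast; ring
    calc _ ≤ (S * Real.exp (-(z.re * r / 2))) ^ 2 * r ^ (1 + 2 * v) := by gcongr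
      _ = _ := by rw [h2, hg]; ring
  have hlim : ∀ r : ℝ, 1 < r → Tendsto (fun N => ‖raySum a (s N) z r‖ ^ 2 * r ^ (1 + 2 * v)) atTop
      (𝓝 (‖Fs a (z * r)‖ ^ 2 * r ^ (1 + 2 * v))) := by
    intro r hr
    have hre : 0 < (z * r).re := by rw [ray_re]; nlinarith
    have h1 := (Fs_hasSum hC hlin hre).tendsto_sum_nat
    have h2 : (fun N => raySum a (s N) z r) =
        fun N => ∑ n ∈ Finset.range N, (a n : ℂ) * Complex.exp (-(n * (z * r))) := by
      funext N; exact hraysum N r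
    have h3 : Tendsto (fun N => raySum a (s N) z r) atTop (𝓝 (Fs a (z * r))) := by
      rw [h2]; exact h1
    exact ((h3.norm).pow 2).mul_const _
  have hmeas : ∀ N, AEStronglyMeasurable (fun r : ℝ => ‖raySum a (s N) z r‖ ^ 2 * r ^ (1 + 2 * v))
      (volume.restrict (Ioi 1)) := by
    intro N
    apply ContinuousOn.aestronglyMeasurable _ measurableSet_Ioi
    apply ContinuousOn.mul
    · unfold raySum
      fun_prop
    · intro r hr
      have hr0 : (0:ℝ) < r := lt_trans one_pos hr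
      exact (Real.continuousAt_rpow_const r _ (Or.inl hr0.ne')).continuousWithinAt
  have hconv := tendsto_integral_of_dominated_convergence
    (μ := volume.restrict (Ioi 1)) (F := fun N r => ‖raySum a (s N) z r‖ ^ 2 * r ^ (1 + 2 * v))
    (f := fun r => ‖Fs a (z * r)‖ ^ 2 * r ^ (1 + 2 * v)) g hmeas hgi
    (fun N => by
      filter_upwards [ae_restrict_mem measurableSet_Ioi] with r hr
      have hr1 : (1:ℝ) < r := hr
      have hr0 : 0 < r := by linarith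
      rw [Real.norm_of_nonneg (by positivity), hraysum N r]
      exact hbd r hr1 _)
    (by
      filter_upwards [ae_restrict_mem measurableSet_Ioi] with r hr
      exact hlim r hr)
  constructor
  · refine hgi.mono' ?_ ?_
    · apply ContinuousOn.aestronglyMeasurable _ measurableSet_Ioi
      apply ContinuousOn.mul
      · exact ((Fs_ray_continuousOn hC hlin hz).mono (Ioi_subset_Ioi zero_le_one)).norm.pow 2
      · intro r hr
        have hr0 : (0:ℝ) < r := lt_trans one_pos hr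
        exact (Real.continuousAt_rpow_const r _ (Or.inl hr0.ne')).continuousWithinAt
    · filter_upwards [ae_restrict_mem measurableSet_Ioi] with r hr
      have hr1 : (1:ℝ) < r := hr
      have hr0 : 0 < r := by linarith
      rw [Real.norm_of_nonneg (by positivity)]
      have h1 := Fs_ray_bound hC hlin hz hr1.le
      have h2 : (S * Real.exp (-(z.re / 2) * r)) ^ 2 = S ^ 2 * Real.exp (-z.re * r) := by
        rw [mul_pow, ← Real.exp_nat_mul]; congr 2; push_cast; ring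
      calc _ ≤ (S * Real.exp (-(z.re / 2) * r)) ^ 2 * r ^ (1 + 2 * v) := by gcongr
        _ = _ := by rw [h2, hg]; ring
  · refine le_of_tendsto' hconv (fun N => ?_)
    apply hBd
    intro n hn
    exact (Finset.mem_filter.mp hn).2

/-- the coefficient sum -/
lemma bR_sum_le (d : ℤ) {ε : ℝ} (hε : 0 < ε) (s : Finset ℕ) (hs : ∀ n ∈ s, 1 ≤ n) :
    ∑ n ∈ s, bR d n ^ 2 * (n : ℝ) ^ (-(2 + ε)) ≤ zs ε ^ 4 := by
  refine le_trans ?_ (tau_sum_le' hε 2 s hs)
  apply Finset.sum_le_sum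
  intro n hn
  have hn1 := hs n hn
  have hn0 : (0:ℝ) < n := by exact_mod_cast hn1
  have h1 := bd_tau d (n := n) (by omega)
  have h2 : bR d n ^ 2 ≤ (tau n : ℝ) ^ 2 * n := by
    unfold bR
    rw [← sq_abs]
    calc |(bd d n : ℝ)| ^ 2 ≤ (tau n * √(n : ℝ)) ^ 2 := by gcongr
      _ = _ := by rw [mul_pow, Real.sq_sqrt hn0.le]
  calc bR d n ^ 2 * (n : ℝ) ^ (-(2 + ε)) ≤ ((tau n : ℝ) ^ 2 * n) * (n : ℝ) ^ (-(2 + ε)) := by gcongr
    _ = (tau n : ℝ) ^ 2 * ((n : ℝ) ^ (1:ℝ) * (n : ℝ) ^ (-(2 + ε))) := by rw [Real.rpow_one]; ring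
    _ = _ := by
        rw [← Real.rpow_add hn0]
        congr 2
        ring

/-- uniform bounds on `(1, ∞)` with logarithmic precision; here `ε = 4 / log T` -/
theorem ray_log {M : ℝ} (hM : 0 < M) :
    ∃ K : ℝ, 1 ≤ K ∧ ∀ (d : ℤ) (T v : ℝ), Real.exp 16 ≤ T → 0 ≤ v →
      2 * v ≤ 1 + 8 / Real.log T →
      (IntegrableOn (fun r : ℝ => ‖Fs (bR d) (zT M T * r)‖ ^ 2 * r ^ (1 + 2 * v)) (Ioi 1) ∧
       ∫ r in Ioi (1:ℝ), ‖Fs (bR d) (zT M T * r)‖ ^ 2 * r ^ (1 + 2 * v) ≤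
        K * (T ^ (2 + 2 * v) * Real.log T ^ 5)) := by
  set P : ℝ := (1 + 2 * M) ^ (4:ℝ) with hP
  have hP0 : 0 ≤ P := by positivity
  set K : ℝ := 1 + (12 * P * Real.exp 12 + 75460 * (2 * M) * P * Real.exp 12) with hK
  have hKpos : 0 ≤ 12 * P * Real.exp 12 + 75460 * (2 * M) * P * Real.exp 12 := by positivity
  refine ⟨K, by rw [hK]; linarith, ?_⟩
  intro d T v hT hv hv1
  have hT0 : 0 < T := lt_of_lt_of_le (Real.exp_pos _) hT
  set ℓ := Real.log T with hℓ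
  have hℓ16 : 16 ≤ ℓ := by rw [hℓ, Real.le_log_iff_exp_le hT0]; exact hT
  have hℓ0 : 0 < ℓ := by linarith
  have hT1 : 1 ≤ T := (Real.one_le_exp (by norm_num)).trans hT
  set ε : ℝ := 4 / ℓ with hεdef
  have hε : 0 < ε := by positivity
  have hε4 : ε ≤ 1 / 4 := by
    rw [hεdef, div_le_iff₀ hℓ0]; linarith
  have hεv : 2 * v ≤ 1 + 2 * ε := by
    have : 2 * ε = 8 / ℓ := by rw [hεdef]; ring
    linarith
  have hz := zT_re_pos hM hT1
  have hzge := zT_re_ge hM hT1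
  have him := zT_im_ge hM hT1
  obtain ⟨C, hC, hlin, -, -⟩ := linear_bR d
  have hZ0 := zs_nonneg ε
  have hZ : zs ε ≤ ℓ := by
    refine (zs_le hε).trans ?_
    rw [hεdef, one_div_div]
    linarith
  have hmain := Fs_ray_limit (Bd := zs ε ^ 4 * (12 * (zT M T).re ^ (-(2 + 2 * v + ε)) +
      75460 * zs ε / (1 / (2 * M)) * (zT M T).re ^ (-(2 + 3 * ε)))) (v := v) hv hz hC hlin (by
    intro s hs
    exact raySum_log hε hε4 hv hεv (by positivity) hz him (bR d) s hs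
      (bR_sum_le d hε s hs))
  refine ⟨hmain.1, hmain.2.trans ?_⟩
  have hTε : ∀ k : ℝ, T ^ (k * ε) = Real.exp (4 * k) := by
    intro k
    rw [Real.rpow_def_of_pos hT0, ← hℓ, hεdef]
    congr 1
    field_simp
  have r1 : (zT M T).re ^ (-(2 + 2 * v + ε)) ≤ P * (T ^ (2 + 2 * v) * Real.exp 12) := by
    refine (rpow_neg_le hM hT1 hzge (by linarith) (by linarith)).trans ?_
    have : T ^ (2 + 2 * v + ε) = T ^ (2 + 2 * v) * Real.exp 4 := by
      rw [Real.rpow_add hT0]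
      have := hTε 1
      rw [one_mul] at this
      rw [this]; norm_num
    rw [this, ← hP]
    gcongr
    norm_num
  have r2 : (zT M T).re ^ (-(2 + 3 * ε)) ≤ P * (T ^ (2 + 2 * v) * Real.exp 12) := by
    refine (rpow_neg_le hM hT1 hzge (by linarith) (by linarith)).trans ?_
    have : T ^ (2 + 3 * ε) = T ^ (2:ℝ) * Real.exp 12 := by
      rw [Real.rpow_add hT0, hTε 3]; norm_num
    rw [this, ← hP]
    gcongr
    linarith
  set X : ℝ := T ^ (2 + 2 * v) with hX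
  have hX0 : 0 ≤ X := by positivity
  have hZ4 : zs ε ^ 4 ≤ ℓ ^ 4 := by gcongr
  have hℓ45 : ℓ ^ 4 ≤ ℓ ^ 5 := pow_le_pow_right₀ (by linarith) (by norm_num)
  calc zs ε ^ 4 * (12 * (zT M T).re ^ (-(2 + 2 * v + ε)) +
      75460 * zs ε / (1 / (2 * M)) * (zT M T).re ^ (-(2 + 3 * ε)))
      = zs ε ^ 4 * (12 * (zT M T).re ^ (-(2 + 2 * v + ε))) +
      (zs ε ^ 4 * zs ε) * (75460 * (2 * M) * (zT M T).re ^ (-(2 + 3 * ε))) := by
        field_simp
    _ ≤ ℓ ^ 4 * (12 * (P * (X * Real.exp 12))) +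
      (ℓ ^ 4 * ℓ) * (75460 * (2 * M) * (P * (X * Real.exp 12))) := by gcongr
    _ ≤ ℓ ^ 5 * (12 * (P * (X * Real.exp 12))) +
      (ℓ ^ 4 * ℓ) * (75460 * (2 * M) * (P * (X * Real.exp 12))) := by gcongr
    _ = (12 * P * Real.exp 12 + 75460 * (2 * M) * P * Real.exp 12) * (X * ℓ ^ 5) := by ring
    _ ≤ K * (X * ℓ ^ 5) := by
        gcongr
        rw [hK]; linarith

namespace EdData

variable {d : ℕ} {M : ℝ} {Λ : ℂ → ℂ}

/-- **mean square of the completed L-function, logarithmic precision** -/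
theorem mean_sq_log (E : EdData d M Λ) :
    ∃ K : ℝ, 1 ≤ K ∧ ∀ T v : ℝ, Real.exp 16 ≤ T → 0 ≤ v → 2 * v ≤ 1 + 8 / Real.log T →
      Integrable (fun x : ℝ => (‖Λ (((1 + v : ℝ) : ℂ) + x * Complex.I)‖ *
        Real.exp ((π / 2 - 1 / T) * x)) ^ 2 * Real.exp (-(1 / T ^ 2 * x ^ 2))) ∧
      ∫ x : ℝ, (‖Λ (((1 + v : ℝ) : ℂ) + x * Complex.I)‖ * Real.exp ((π / 2 - 1 / T) * x)) ^ 2 *
        Real.exp (-(1 / T ^ 2 * x ^ 2)) ≤ K * (T ^ (2 + 2 * v) * Real.log T ^ 5) := by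
  have hM := E.Mpos
  obtain ⟨w, D⟩ := E.th
  obtain ⟨K, hK1, hK⟩ := ray_log (M := M) hM
  have hpi := Real.pi_gt_three
  refine ⟨2 * π * (2 * K), by nlinarith, ?_⟩
  intro T v hT hv hv1
  have hT1 : 1 ≤ T := (Real.one_le_exp (by norm_num)).trans hT
  have hT0 : 0 < T := by linarith
  obtain ⟨hi, hb⟩ := hK (d : ℤ) T v hT hv hv1
  have hz := zT_re_pos hM hT1
  have hn := zT_norm (M := M) (T := T) hM
  obtain ⟨hi0, hb0⟩ := D.inversion hz hn (κ := 1 + 2 * v) (by linarith) hi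
  have e1 : 2 * (1 + v) - 1 = 1 + 2 * v := by ring
  set h : ℝ → ℂ := fun r : ℝ => Fs (bR (d : ℤ)) (zT M T * r) with hh
  have hc : MellinConvergent h (((1 + v : ℝ)) : ℂ) := D.mellinConv hz hn _
  have hP := mellin_plancherel_ub hc (by rw [e1]; exact hi0) (ε := 1 / T ^ 2) (by positivity)
  have heq : ∀ x : ℝ, ‖mellin h (((1 + v : ℝ) : ℂ) + x * Complex.I)‖ =
      ‖Λ (((1 + v : ℝ) : ℂ) + x * Complex.I)‖ * Real.exp ((π / 2 - 1 / T) * x) := by
    intro x
    rw [hh, E.mellin_eq hz hn, norm_mul, phase_norm hM hT1, mul_comm]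
    congr 2
    simp
  simp_rw [heq] at hP
  constructor
  · set A : ℝ := ∫ t in Ioi (0:ℝ), ‖h t‖ * t ^ ((1 + v) - 1) with hA
    have hgi : Integrable (fun x : ℝ => A ^ 2 * Real.exp (-(1 / T ^ 2) * x ^ 2)) :=
      (integrable_exp_neg_mul_sq (by positivity)).const_mul _
    refine hgi.mono' ?_ ?_
    · apply Continuous.aestronglyMeasurable
      exact (((E.contLine v).norm.mul (by fun_prop)).pow 2).mul (by fun_prop)
    · filter_upwards with x
      rw [Real.norm_of_nonneg (by positivity), ← heq]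
      have h3 := norm_mellin_le (h := h) (σ := 1 + v) x
      have h4 : Real.exp (-(1 / T ^ 2 * x ^ 2)) = Real.exp (-(1 / T ^ 2) * x ^ 2) := by
        congr 1; ring
      rw [h4]
      gcongr
  · refine hP.trans ?_
    rw [e1]
    calc 2 * π * ∫ r in Ioi (0:ℝ), ‖h r‖ ^ 2 * r ^ (1 + 2 * v)
        ≤ 2 * π * (2 * (K * (T ^ (2 + 2 * v) * Real.log T ^ 5))) := by
          gcongr
          exact hb0.trans (by linarith)
      _ = _ := by ring

end EdData

end Pool.Agent.H6
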