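import Mathlib
import Pool.Agent.H6.LRay

/-!
The mean square of the mollifier.
-/

set_option autoImplicit false

open MeasureTheory Set Filter Topology Real

namespace Pool.Agent.H6

open Pool.Agent.H5

/-- Gaussian mean square of a finite Dirichlet polynomial -/
lemma dirichlet_gauss {β : ℝ} (hβ : 0 < β) (s : Finset ℕ) (c lam : ℕ → ℝ) :
    Integrable (fun x : ℝ => ‖∑ m ∈ s, (c m : ℂ) * Complex.exp (Complex.I * lam m * x)‖ ^ 2 *
      Real.exp (-(β * x ^ 2))) ∧
    ∫ x : ℝ, ‖∑ m ∈ s, (c m : ℂ) * Complex.exp (Complex.I * lam m * x)‖ ^ 2 *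
      Real.exp (-(β * x ^ 2)) ≤ ∑ m ∈ s, ∑ n ∈ s, |c m| * |c n| * gker β (lam m - lam n) := by
  have hterm : ∀ x : ℝ, (((‖∑ m ∈ s, (c m : ℂ) * Complex.exp (Complex.I * lam m * x)‖ ^ 2 *
      Real.exp (-(β * x ^ 2)) : ℝ)) : ℂ) = ∑ m ∈ s, ∑ n ∈ s, ((c m : ℂ) * c n) *
        (Complex.exp (Complex.I * ((lam m - lam n : ℝ) : ℂ) * x) *
          Complex.exp (-(β : ℂ) * (x : ℂ) ^ 2)) := by
    intro x
    have e1 : (((‖∑ m ∈ s, (c m : ℂ) * Complex.exp (Complex.I * lam m * x)‖ ^ 2 : ℝ)) : ℂ) =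
        (∑ m ∈ s, (c m : ℂ) * Complex.exp (Complex.I * lam m * x)) *
        (starRingEnd ℂ) (∑ m ∈ s, (c m : ℂ) * Complex.exp (Complex.I * lam m * x)) := by
      rw [Complex.mul_conj, Complex.normSq_eq_norm_sq]
    rw [Complex.ofReal_mul, e1, map_sum, Finset.sum_mul_sum, Finset.sum_mul]
    apply Finset.sum_congr rfl
    intro m _
    rw [Finset.sum_mul]
    apply Finset.sum_congr rfl
    intro n _
    rw [map_mul, Complex.conj_ofReal, ← Complex.exp_conj, map_mul, map_mul, Complex.conj_I,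
      Complex.conj_ofReal, Complex.conj_ofReal, Complex.ofReal_exp]
    calc (c m : ℂ) * Complex.exp (Complex.I * lam m * x) *
          ((c n : ℂ) * Complex.exp (-Complex.I * lam n * x)) * Complex.exp ((-(β * x ^ 2) : ℝ) : ℂ)
        = ((c m : ℂ) * c n) * (Complex.exp (Complex.I * lam m * x) *
          Complex.exp (-Complex.I * lam n * x) * Complex.exp ((-(β * x ^ 2) : ℝ) : ℂ)) := by ring
      _ = _ := by
          rw [← Complex.exp_add, ← Complex.exp_add, ← Complex.exp_add]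
          congr 2
          push_cast
          ring
  have hint1 : ∀ m n : ℕ, Integrable (fun x : ℝ => ((c m : ℂ) * c n) *
        (Complex.exp (Complex.I * ((lam m - lam n : ℝ) : ℂ) * x) *
          Complex.exp (-(β : ℂ) * (x : ℂ) ^ 2))) := by
    intro m n
    apply Integrable.const_mul
    have hg := integrable_exp_neg_mul_sq (b := β) hβ
    refine hg.mono' ?_ ?_
    · apply Continuous.aestronglyMeasurable
      fun_prop
    · filter_upwards with x
      rw [norm_mul, Complex.norm_exp, Complex.norm_exp]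
      have e1 : (Complex.I * ((lam m - lam n : ℝ) : ℂ) * x).re = 0 := by
        rw [mul_assoc, Complex.I_mul_re, ← Complex.ofReal_mul, Complex.ofReal_im, neg_zero]
      have e2 : (-(β : ℂ) * (x : ℂ) ^ 2) = ((-β * x ^ 2 : ℝ) : ℂ) := by push_cast; ring
      rw [e1, e2, Complex.ofReal_re, Real.exp_zero, one_mul]
  have hintC : Integrable (fun x : ℝ => (((‖∑ m ∈ s, (c m : ℂ) *
      Complex.exp (Complex.I * lam m * x)‖ ^ 2 * Real.exp (-(β * x ^ 2)) : ℝ)) : ℂ)) := by
    simp_rw [hterm]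
    exact integrable_finsetSum _ (fun m _ => integrable_finsetSum _ (fun n _ => hint1 m n))
  have hintR : Integrable (fun x : ℝ => ‖∑ m ∈ s, (c m : ℂ) *
      Complex.exp (Complex.I * lam m * x)‖ ^ 2 * Real.exp (-(β * x ^ 2))) := by
    have h := hintC.re
    refine h.congr ?_
    filter_upwards with x
    exact Complex.ofReal_re _
  refine ⟨hintR, ?_⟩
  set J := ∫ x : ℝ, ‖∑ m ∈ s, (c m : ℂ) * Complex.exp (Complex.I * lam m * x)‖ ^ 2 *
      Real.exp (-(β * x ^ 2)) with hJ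
  have hJ0 : 0 ≤ J := integral_nonneg (fun x => by positivity)
  have h1 : (J : ℂ) = ∑ m ∈ s, ∑ n ∈ s, ((c m : ℂ) * c n) * ((gker β (lam m - lam n) : ℝ) : ℂ) := by
    rw [hJ, ← integral_complex_ofReal]
    simp_rw [hterm]
    rw [integral_finsetSum _ (fun m _ => integrable_finsetSum _ (fun n _ => hint1 m n))]
    apply Finset.sum_congr rfl
    intro m _
    rw [integral_finsetSum _ (fun n _ => hint1 m n)]
    apply Finset.sum_congr rfl
    intro n _
    rw [integral_const_mul, gauss_ft hβ]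
  have h2 : ‖(J : ℂ)‖ = J := by rw [Complex.norm_real, Real.norm_of_nonneg hJ0]
  rw [← h2, h1]
  refine (norm_sum_le _ _).trans (Finset.sum_le_sum (fun m _ => ?_))
  refine (norm_sum_le _ _).trans (Finset.sum_le_sum (fun n _ => ?_))
  rw [norm_mul, norm_mul, Complex.norm_real, Complex.norm_real, Complex.norm_real,
    Real.norm_eq_abs, Real.norm_eq_abs, Real.norm_of_nonneg (gker_nonneg _ _)]

lemma log_sep {m n Y : ℕ} (hm : 1 ≤ m) (hn : 1 ≤ n) (hmY : m ≤ Y) (hnY : n ≤ Y) (hmn : m ≠ n) :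
    (1 / (Y : ℝ)) ^ 2 ≤ (Real.log n - Real.log m) ^ 2 := by
  wlog h : m < n generalizing m n
  · have := this hn hm hnY hmY (Ne.symm hmn) (by omega)
    rw [← neg_sub (Real.log m), neg_sq]
    exact this
  have hm0 : (0:ℝ) < m := by exact_mod_cast hm
  have hn0 : (0:ℝ) < n := by exact_mod_cast hn
  have hY0 : (0:ℝ) < Y := by
    have : 0 < Y := by omega
    exact_mod_cast this
  have hnY' : (n : ℝ) ≤ Y := by exact_mod_cast hnY
  have h1 : Real.log ((m : ℝ) / n) ≤ (m : ℝ) / n - 1 := Real.log_le_sub_one_of_pos (by positivity)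
  rw [Real.log_div hm0.ne' hn0.ne'] at h1
  have h2 : (m : ℝ) + 1 ≤ n := by exact_mod_cast h
  have h3 : 1 / (Y : ℝ) ≤ 1 - (m : ℝ) / n := by
    calc 1 / (Y : ℝ) ≤ 1 / n := by gcongr
      _ ≤ ((n : ℝ) - m) / n := by
          gcongr
          linarith
      _ = _ := by field_simp
  gcongr
  linarith

/-- **mean square of the mollifier** -/
theorem mol_sq : ∃ K : ℝ, 1 ≤ K ∧ ∀ (d : ℤ) (T v : ℝ) (Y : ℕ), Real.exp 16 ≤ T → 0 ≤ v → 1 ≤ Y →
    (Y : ℝ) ^ 2 ≤ T →
    Integrable (fun x : ℝ => ‖mol d Y (((1 + v : ℝ) : ℂ) + x * Complex.I)‖ ^ 2 *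
      Real.exp (-(1 / T ^ 2 * x ^ 2))) ∧
    ∫ x : ℝ, ‖mol d Y (((1 + v : ℝ) : ℂ) + x * Complex.I)‖ ^ 2 *
      Real.exp (-(1 / T ^ 2 * x ^ 2)) ≤ K * (T * Real.log T ^ 4) := by
  refine ⟨4 * Real.exp 2, by
    have := Real.add_one_le_exp (2:ℝ)
    linarith, ?_⟩
  intro d T v Y hT hv hY hYT
  have hT0 : 0 < T := lt_of_lt_of_le (Real.exp_pos _) hT
  set ℓ := Real.log T with hℓ
  have hℓ16 : 16 ≤ ℓ := by rw [hℓ, Real.le_log_iff_exp_le hT0]; exact hT
  have hℓ0 : 0 < ℓ := by linarith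
  have hT1 : 1 ≤ T := (Real.one_le_exp (by norm_num)).trans hT
  set ε : ℝ := 4 / ℓ with hεdef
  have hε : 0 < ε := by positivity
  have hZ0 := zs_nonneg ε
  have hZ : zs ε ≤ ℓ := by
    refine (zs_le hε).trans ?_
    rw [hεdef, one_div_div]
    linarith
  have hY0 : (0:ℝ) < Y := by exact_mod_cast hY
  set c : ℕ → ℝ := fun m => (mb d m : ℝ) * (m : ℝ) ^ (-(1 + v)) with hc
  set lam : ℕ → ℝ := fun m => -Real.log m with hlam
  have hmolx : ∀ x : ℝ, mol d Y (((1 + v : ℝ) : ℂ) + x * Complex.I) =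
      ∑ m ∈ Finset.Icc 1 Y, (c m : ℂ) * Complex.exp (Complex.I * lam m * x) := by
    intro x
    unfold mol
    apply Finset.sum_congr rfl
    intro m hm
    have hm0 : (0:ℝ) < m := by exact_mod_cast (Finset.mem_Icc.mp hm).1
    have hmC : (m : ℂ) ≠ 0 := by exact_mod_cast hm0.ne'
    simp only [hc, hlam]
    rw [Complex.ofReal_mul, mul_assoc, Complex.ofReal_intCast]
    congr 1
    rw [Complex.ofReal_cpow hm0.le, Complex.cpow_def_of_ne_zero hmC,
      Complex.ofReal_natCast, Complex.cpow_def_of_ne_zero hmC, ← Complex.exp_add]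
    congr 1
    rw [Complex.ofReal_neg, ← Complex.natCast_log]
    push_cast
    ring
  have hβ : 0 < 1 / T ^ 2 := by positivity
  obtain ⟨h1, h2⟩ := dirichlet_gauss hβ (Finset.Icc 1 Y) c lam
  simp_rw [hmolx]
  refine ⟨h1, h2.trans ?_⟩
  -- the sum of squares
  set D : ℝ := ∑ m ∈ Finset.Icc 1 Y, c m ^ 2 with hD
  have hD0 : 0 ≤ D := Finset.sum_nonneg (fun m _ => sq_nonneg _)
  have hYε : ∀ m : ℕ, 1 ≤ m → m ≤ Y → (m : ℝ) ^ ε ≤ Real.exp 2 := by
    intro m hm1 hmY
    have hm0 : (0:ℝ) < m := by exact_mod_cast hm1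
    have h3 : ((m : ℝ) ^ ε) ^ 2 ≤ (Real.exp 2) ^ 2 := by
      have e1 : ((m : ℝ) ^ ε) ^ 2 = ((m : ℝ) ^ 2) ^ ε := by
        rw [← Real.rpow_natCast ((m : ℝ) ^ ε), ← Real.rpow_mul hm0.le,
          ← Real.rpow_natCast (m : ℝ), ← Real.rpow_mul hm0.le, mul_comm]
      have e2 : (Real.exp 2) ^ 2 = T ^ ε := by
        rw [← Real.exp_nat_mul, Real.rpow_def_of_pos hT0, ← hℓ, hεdef]
        congr 1
        field_simp
        norm_num
      rw [e1, e2]
      apply Real.rpow_le_rpow (by positivity) _ hε.le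
      have : (m : ℝ) ≤ Y := by exact_mod_cast hmY
      calc (m : ℝ) ^ 2 ≤ (Y : ℝ) ^ 2 := by gcongr
        _ ≤ T := hYT
    exact le_of_sq_le_sq h3 (Real.exp_pos _).le
  have hDle : D ≤ Real.exp 2 * ℓ ^ 4 := by
    have h3 : ∀ m ∈ Finset.Icc 1 Y, c m ^ 2 ≤ Real.exp 2 * ((tau m : ℝ) ^ 2 *
        (m : ℝ) ^ (-(1 + ε))) := by
      intro m hm
      obtain ⟨hm1, hmY⟩ := Finset.mem_Icc.mp hm
      have hm0 : (0:ℝ) < m := by exact_mod_cast hm1
      have hmR : (1:ℝ) ≤ m := by exact_mod_cast hm1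
      have h4 := mb_tau d (n := m) (by omega)
      have h5 : c m ^ 2 ≤ ((tau m : ℝ) ^ 2 * m) * (m : ℝ) ^ (-2:ℝ) := by
        have e1 : c m ^ 2 = |(mb d m : ℝ)| ^ 2 * ((m : ℝ) ^ (-(1 + v))) ^ 2 := by
          simp only [hc]; rw [mul_pow, sq_abs]
        rw [e1]
        have h6 : ((m : ℝ) ^ (-(1 + v))) ^ 2 ≤ (m : ℝ) ^ (-2:ℝ) := by
          rw [← Real.rpow_natCast, ← Real.rpow_mul hm0.le]
          apply Real.rpow_le_rpow_of_exponent_le hmR
          push_cast
          linarith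
        calc |(mb d m : ℝ)| ^ 2 * ((m : ℝ) ^ (-(1 + v))) ^ 2
            ≤ (tau m * √(m : ℝ)) ^ 2 * (m : ℝ) ^ (-2:ℝ) := by gcongr
          _ = _ := by rw [mul_pow, Real.sq_sqrt hm0.le]
      refine h5.trans ?_
      have h7 : (m : ℝ) * (m : ℝ) ^ (-2:ℝ) = (m : ℝ) ^ ε * (m : ℝ) ^ (-(1 + ε)) := by
        nth_rewrite 1 [← Real.rpow_one (m : ℝ)]
        rw [← Real.rpow_add hm0, ← Real.rpow_add hm0]
        congr 1
        ring
      calc ((tau m : ℝ) ^ 2 * m) * (m : ℝ) ^ (-2:ℝ) =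
          (tau m : ℝ) ^ 2 * ((m : ℝ) * (m : ℝ) ^ (-2:ℝ)) := by ring
        _ = (m : ℝ) ^ ε * ((tau m : ℝ) ^ 2 * (m : ℝ) ^ (-(1 + ε))) := by rw [h7]; ring
        _ ≤ _ := by
            gcongr
            exact hYε m hm1 hmY
    calc D ≤ ∑ m ∈ Finset.Icc 1 Y, Real.exp 2 * ((tau m : ℝ) ^ 2 * (m : ℝ) ^ (-(1 + ε))) :=
          Finset.sum_le_sum h3
      _ = Real.exp 2 * ∑ m ∈ Finset.Icc 1 Y, ((tau m : ℝ) ^ 2 * (m : ℝ) ^ (-(1 + ε))) := by
          rw [Finset.mul_sum]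
      _ ≤ Real.exp 2 * zs ε ^ (2 ^ 2) := by
          gcongr
          exact tau_sum_le hε 2 Y
      _ ≤ Real.exp 2 * ℓ ^ 4 := by
          norm_num
          gcongr
  -- the kernel
  have hsq : √(π / (1 / T ^ 2)) ≤ 2 * T := by
    apply Real.sqrt_le_iff.mpr
    constructor
    · positivity
    · have e1 : π / (1 / T ^ 2) = π * T ^ 2 := by field_simp
      rw [e1]
      have := Real.pi_le_four
      nlinarith [sq_nonneg T]
  have hker : ∀ m ∈ Finset.Icc 1 Y, ∀ n ∈ Finset.Icc 1 Y, gker (1 / T ^ 2) (lam m - lam n) ≤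
      2 * T * ((if m = n then 1 else 0) + 1 / (Y : ℝ)) := by
    intro m hm n hn
    obtain ⟨hm1, hmY⟩ := Finset.mem_Icc.mp hm
    obtain ⟨hn1, hnY⟩ := Finset.mem_Icc.mp hn
    unfold gker
    split_ifs with h
    · have h3 : Real.exp (-((lam m - lam n) ^ 2 / (4 * (1 / T ^ 2)))) ≤ 1 := by
        rw [Real.exp_le_one_iff]
        have : 0 ≤ (lam m - lam n) ^ 2 / (4 * (1 / T ^ 2)) := by positivity
        linarith
      have h4 : 0 ≤ 1 / (Y : ℝ) := by positivity
      calc √(π / (1 / T ^ 2)) * Real.exp (-((lam m - lam n) ^ 2 / (4 * (1 / T ^ 2))))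
          ≤ (2 * T) * 1 := by gcongr
        _ ≤ _ := by
            gcongr
            linarith
    · rw [zero_add]
      have h3 := log_sep hm1 hn1 hmY hnY h
      have e1 : lam m - lam n = Real.log n - Real.log m := by simp only [hlam]; ring
      rw [e1]
      have h4 : T / 4 ≤ (Real.log n - Real.log m) ^ 2 / (4 * (1 / T ^ 2)) := by
        have e2 : (Real.log n - Real.log m) ^ 2 / (4 * (1 / T ^ 2)) =
            (Real.log n - Real.log m) ^ 2 * T ^ 2 / 4 := by field_simp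
        rw [e2]
        have h5 : T ≤ (Real.log n - Real.log m) ^ 2 * T ^ 2 := by
          calc T = 1 / T * T ^ 2 := by field_simp
            _ ≤ (1 / (Y : ℝ)) ^ 2 * T ^ 2 := by
                gcongr
                rw [div_pow, one_pow]
                gcongr
            _ ≤ _ := by gcongr
        linarith
      have h5 : Real.exp (-((Real.log n - Real.log m) ^ 2 / (4 * (1 / T ^ 2)))) ≤ 1 / Y := by
        calc Real.exp (-((Real.log n - Real.log m) ^ 2 / (4 * (1 / T ^ 2)))) ≤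
            Real.exp (-(T / 4)) := by
              apply Real.exp_le_exp.mpr
              linarith
          _ = 1 / Real.exp (T / 4) := by rw [Real.exp_neg, one_div]
          _ ≤ 1 / Y := by
              apply one_div_le_one_div_of_le hY0
              have h6 := Real.add_one_le_exp (T / 4)
              have h7 : (4:ℝ) ≤ T := by
                have := Real.add_one_le_exp (16:ℝ)
                linarith
              have h8 : (Y : ℝ) ≤ T / 4 + 1 := by
                nlinarith [sq_nonneg ((Y : ℝ) - 2)]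
              linarith
      calc √(π / (1 / T ^ 2)) * Real.exp (-((Real.log n - Real.log m) ^ 2 / (4 * (1 / T ^ 2))))
          ≤ (2 * T) * (1 / Y) := by gcongr
        _ = _ := rfl
  have hsum : ∑ m ∈ Finset.Icc 1 Y, ∑ n ∈ Finset.Icc 1 Y,
      |c m| * |c n| * gker (1 / T ^ 2) (lam m - lam n) ≤
      2 * T * (D + (1 / (Y : ℝ)) * (∑ m ∈ Finset.Icc 1 Y, |c m|) ^ 2) := by
    have h3 : ∀ m ∈ Finset.Icc 1 Y, ∑ n ∈ Finset.Icc 1 Y,
        |c m| * |c n| * gker (1 / T ^ 2) (lam m - lam n) ≤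
        2 * T * (c m ^ 2 + |c m| * ((1 / (Y : ℝ)) * ∑ n ∈ Finset.Icc 1 Y, |c n|)) := by
      intro m hm
      calc ∑ n ∈ Finset.Icc 1 Y, |c m| * |c n| * gker (1 / T ^ 2) (lam m - lam n)
          ≤ ∑ n ∈ Finset.Icc 1 Y, |c m| * |c n| *
            (2 * T * ((if m = n then 1 else 0) + 1 / (Y : ℝ))) := by
            apply Finset.sum_le_sum
            intro n hn
            have := hker m hm n hn
            gcongr
        _ = ∑ n ∈ Finset.Icc 1 Y, (2 * T * (if m = n then |c m| * |c n| else 0) +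
            2 * T * |c m| * (1 / (Y : ℝ)) * |c n|) := by
            apply Finset.sum_congr rfl
            intro n _
            split_ifs <;> ring
        _ = _ := by
            rw [Finset.sum_add_distrib, ← Finset.mul_sum, Finset.sum_ite_eq, if_pos hm,
              ← Finset.mul_sum, abs_mul_abs_self]
            ring
    refine (Finset.sum_le_sum h3).trans (le_of_eq ?_)
    rw [← Finset.mul_sum, Finset.sum_add_distrib, ← Finset.sum_mul]
    ring
  have hCS : (∑ m ∈ Finset.Icc 1 Y, |c m|) ^ 2 ≤ (Y : ℝ) * D := by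
    have h3 := sq_sum_le_card_mul_sum_sq (s := Finset.Icc 1 Y) (f := fun m => |c m|)
    rw [Nat.card_Icc, Nat.add_sub_cancel] at h3
    simpa [sq_abs] using h3
  calc ∑ m ∈ Finset.Icc 1 Y, ∑ n ∈ Finset.Icc 1 Y,
      |c m| * |c n| * gker (1 / T ^ 2) (lam m - lam n)
      ≤ 2 * T * (D + (1 / (Y : ℝ)) * (∑ m ∈ Finset.Icc 1 Y, |c m|) ^ 2) := hsum
    _ ≤ 2 * T * (D + (1 / (Y : ℝ)) * ((Y : ℝ) * D)) := by gcongr
    _ = 4 * T * D := by field_simp; ring
    _ ≤ 4 * T * (Real.exp 2 * ℓ ^ 4) := by gcongr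
    _ = _ := by ring

end Pool.Agent.H6
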