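import Mathlib

/-!
Log-convexity of the first absolute moment on vertical lines.
-/

set_option autoImplicit false

open MeasureTheory Set Filter Topology Real

namespace Pool.Agent.H6

/-- the unimodular multiplier -/
noncomputable def uni (z : ℂ) : ℂ := (starRingEnd ℂ) z / ((‖z‖ : ℝ) : ℂ)

lemma norm_uni_le (z : ℂ) : ‖uni z‖ ≤ 1 := by
  unfold uni
  rw [norm_div, Complex.norm_conj, Complex.norm_real, norm_norm]
  exact div_self_le_one _

lemma mul_uni (z : ℂ) : z * uni z = ((‖z‖ : ℝ) : ℂ) := by
  unfold uni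
  rcases eq_or_ne z 0 with rfl | hz
  · simp
  · have h : ((‖z‖ : ℝ) : ℂ) ≠ 0 := by
      exact_mod_cast (norm_pos_iff.mpr hz).ne'
    rw [← mul_div_assoc, Complex.mul_conj, Complex.normSq_eq_norm_sq]
    field_simp
    push_cast
    ring

lemma measurable_uni : Measurable uni := by
  unfold uni
  apply Measurable.div
  · exact Complex.continuous_conj.measurable
  · exact (Complex.continuous_ofReal.comp continuous_norm).measurable

/-- differentiation under the integral sign over a bounded interval -/
lemma differentiableAt_conv {g : ℂ → ℂ} {σ0 : ℝ}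
    (hg : ∀ w : ℂ, σ0 < w.re → DifferentiableAt ℂ g w) {φ : ℝ → ℂ} (hφm : Measurable φ)
    (hφ : ∀ u, ‖φ u‖ ≤ 1) {R : ℝ} {w0 : ℂ} (hw0 : σ0 < w0.re) :
    DifferentiableAt ℂ (fun w => ∫ u in Icc (-R) R, g (w + u * Complex.I) * φ u) w0 := by
  set U : Set ℂ := {w | σ0 < w.re} with hU
  have hUo : IsOpen U := isOpen_lt continuous_const Complex.continuous_re
  have hgU : DifferentiableOn ℂ g U := fun w hw => (hg w hw).differentiableWithinAt
  have hdU : DifferentiableOn ℂ (deriv g) U := hgU.deriv hUo
  obtain ⟨ρ, hρ, hball⟩ := Metric.isOpen_iff.mp hUo w0 hw0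
  have hρ2 : 0 < ρ / 2 := by positivity
  -- the compact set
  set Kc : Set ℂ := (fun p : ℂ × ℝ => p.1 + p.2 * Complex.I) ''
    (Metric.closedBall w0 (ρ / 2) ×ˢ Icc (-R) R) with hKc
  have hKcomp : IsCompact Kc := by
    apply IsCompact.image
    · exact (isCompact_closedBall _ _).prod isCompact_Icc
    · fun_prop
  have hmem : ∀ w ∈ Metric.closedBall w0 (ρ / 2), ∀ u : ℝ, w + u * Complex.I ∈ U := by
    intro w hw u
    have h1 : w ∈ U := hball (Metric.closedBall_subset_ball (by linarith) hw)
    have h2 : σ0 < w.re := h1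
    show σ0 < (w + u * Complex.I).re
    simpa using h2
  have hKU : Kc ⊆ U := by
    rintro _ ⟨p, ⟨hp1, hp2⟩, rfl⟩
    exact hmem p.1 hp1 p.2
  obtain ⟨B, hB⟩ := hKcomp.exists_bound_of_continuousOn (hdU.continuousOn.mono hKU)
  have hcontg : ∀ w ∈ Metric.closedBall w0 (ρ / 2), Continuous (fun u : ℝ => g (w + u * Complex.I)) := by
    intro w hw
    rw [continuous_iff_continuousAt]
    intro u
    apply ContinuousAt.comp (f := fun u : ℝ => w + u * Complex.I) (g := g)
    · exact (hg _ (hmem w hw u)).continuousAt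
    · fun_prop
  have hcontd : ∀ w ∈ Metric.closedBall w0 (ρ / 2),
      Continuous (fun u : ℝ => deriv g (w + u * Complex.I)) := by
    intro w hw
    rw [continuous_iff_continuousAt]
    intro u
    apply ContinuousAt.comp (f := fun u : ℝ => w + u * Complex.I) (g := deriv g)
    · exact (hdU.differentiableAt (hUo.mem_nhds (hmem w hw u))).continuousAt
    · fun_prop
  have hw0m : w0 ∈ Metric.closedBall w0 (ρ / 2) := Metric.mem_closedBall_self hρ2.le
  have key := hasDerivAt_integral_of_dominated_loc_of_deriv_le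
    (μ := volume.restrict (Icc (-R) R)) (F := fun (w : ℂ) (u : ℝ) => g (w + u * Complex.I) * φ u)
    (F' := fun (w : ℂ) (u : ℝ) => deriv g (w + u * Complex.I) * φ u) (x₀ := w0)
    (bound := fun _ => B) (Metric.ball_mem_nhds w0 hρ2) ?_ ?_ ?_ ?_ ?_ ?_
  · exact key.2.differentiableAt
  · filter_upwards [Metric.ball_mem_nhds w0 hρ2] with w hw
    exact ((hcontg w (Metric.ball_subset_closedBall hw)).measurable.mul hφm).aestronglyMeasurable
  · have hi : IntegrableOn (fun u : ℝ => g (w0 + u * Complex.I)) (Icc (-R) R) :=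
      (hcontg w0 hw0m).integrableOn_Icc
    refine Integrable.mono' hi.norm ?_ ?_
    · exact ((hcontg w0 hw0m).measurable.mul hφm).aestronglyMeasurable
    · filter_upwards with u
      rw [norm_mul]
      have := hφ u
      have h2 := norm_nonneg (g (w0 + u * Complex.I))
      nlinarith
  · exact ((hcontd w0 hw0m).measurable.mul hφm).aestronglyMeasurable
  · filter_upwards [ae_restrict_mem measurableSet_Icc] with u hu
    intro w hw
    rw [norm_mul]
    have h1 : w + u * Complex.I ∈ Kc :=
      ⟨(w, u), ⟨Metric.ball_subset_closedBall hw, hu⟩, rfl⟩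
    have h2 := hB _ h1
    have h3 := hφ u
    have h4 := norm_nonneg (deriv g (w + u * Complex.I))
    have h5 := norm_nonneg (φ u)
    nlinarith
  · exact integrable_const B
  · filter_upwards with u
    intro w hw
    have h1 : HasDerivAt (fun w : ℂ => w + u * Complex.I) 1 w := (hasDerivAt_id w).add_const _
    have h2 : HasDerivAt g (deriv g (w + u * Complex.I)) (w + u * Complex.I) :=
      (hg _ (hmem w (Metric.ball_subset_closedBall hw) u)).hasDerivAt
    have h3 := h2.comp w h1
    rw [mul_one] at h3
    exact h3.mul_const (φ u)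

theorem l1_three_lines {g : ℂ → ℂ} {σ0 : ℝ} (hσ0 : σ0 < 0)
    (hg : ∀ w : ℂ, σ0 < w.re → DifferentiableAt ℂ g w) {B : ℝ}
    (hB : ∀ w : ℂ, 0 ≤ w.re → w.re ≤ 1 → ‖g w‖ ≤ B) {J0 J1 : ℝ}
    (h0 : Integrable (fun x : ℝ => ‖g (x * Complex.I)‖))
    (h0' : ∫ x : ℝ, ‖g (x * Complex.I)‖ ≤ J0)
    (h1 : Integrable (fun x : ℝ => ‖g (1 + x * Complex.I)‖))
    (h1' : ∫ x : ℝ, ‖g (1 + x * Complex.I)‖ ≤ J1) {v : ℝ} (hv : 0 ≤ v) (hv1 : v ≤ 1) (R : ℝ) :
    ∫ x in Icc (-R) R, ‖g (v + x * Complex.I)‖ ≤ J0 ^ (1 - v) * J1 ^ v := by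
  set φ : ℝ → ℂ := fun u => uni (g (v + u * Complex.I)) with hφdef
  have hcont : Continuous (fun u : ℝ => g (v + u * Complex.I)) := by
    rw [continuous_iff_continuousAt]
    intro u
    apply ContinuousAt.comp (f := fun u : ℝ => (v : ℂ) + u * Complex.I) (g := g)
    · apply (hg _ _).continuousAt
      simp
      linarith
    · fun_prop
  have hφm : Measurable φ := measurable_uni.comp hcont.measurable
  have hφ : ∀ u, ‖φ u‖ ≤ 1 := fun u => norm_uni_le _
  set H : ℂ → ℂ := fun w => ∫ u in Icc (-R) R, g (w + u * Complex.I) * φ u with hH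
  have hHd : ∀ w : ℂ, σ0 < w.re → DifferentiableAt ℂ H w := fun w hw =>
    differentiableAt_conv hg hφm hφ hw
  have hclosed : closure (Complex.HadamardThreeLines.verticalStrip 0 1) ⊆ {w | σ0 < w.re} := by
    have h2 : closure (Complex.HadamardThreeLines.verticalStrip 0 1) ⊆
        Complex.HadamardThreeLines.verticalClosedStrip 0 1 := by
      apply closure_minimal
      · intro w hw
        exact ⟨le_of_lt hw.1, le_of_lt hw.2⟩
      · exact isClosed_Icc.preimage Complex.continuous_re
    intro w hw
    have h3 := (h2 hw).1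
    show σ0 < w.re
    linarith
  have hdc : DiffContOnCl ℂ H (Complex.HadamardThreeLines.verticalStrip 0 1) := by
    apply DifferentiableOn.diffContOnCl
    intro w hw
    exact (hHd w (hclosed hw)).differentiableWithinAt
  have hbound : ∀ w : ℂ, ∀ J : ℝ, Integrable (fun x : ℝ => ‖g (w.re + x * Complex.I)‖) →
      ∫ x : ℝ, ‖g (w.re + x * Complex.I)‖ ≤ J → ‖H w‖ ≤ J := by
    intro w J hi hJ
    have e1 : ∀ u : ℝ, w + u * Complex.I = w.re + ((u + w.im : ℝ) : ℂ) * Complex.I := by
      intro u
      conv_lhs => rw [← Complex.re_add_im w]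
      push_cast
      ring
    have hshift : Integrable (fun u : ℝ => ‖g (w + u * Complex.I)‖) := by
      simp_rw [e1]
      exact hi.comp_add_right w.im
    have h2 : ∫ u : ℝ, ‖g (w + u * Complex.I)‖ = ∫ x : ℝ, ‖g (w.re + x * Complex.I)‖ := by
      simp_rw [e1]
      exact integral_add_right_eq_self (fun x : ℝ => ‖g (w.re + x * Complex.I)‖) w.im
    simp only [hH]
    refine (norm_integral_le_of_norm_le (g := fun u : ℝ => ‖g (w + u * Complex.I)‖)
      hshift.integrableOn ?_).trans ?_
    · filter_upwards with u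
      rw [norm_mul]
      have h3 := hφ u
      have h4 := norm_nonneg (g (w + u * Complex.I))
      nlinarith
    · refine (setIntegral_le_integral hshift ?_).trans ?_
      · filter_upwards with u
        exact norm_nonneg _
      · rw [h2]; exact hJ
  have hbdd : BddAbove ((norm ∘ H) '' Complex.HadamardThreeLines.verticalClosedStrip 0 1) := by
    refine ⟨B * (2 * |R|), ?_⟩
    rintro _ ⟨w, hw, rfl⟩
    simp only [Function.comp_apply, hH]
    have hB0 : 0 ≤ B := (norm_nonneg _).trans (hB w hw.1 hw.2)
    have h2 := norm_setIntegral_le_of_norm_le_const (μ := volume) (s := Icc (-R) R)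
      (f := fun u : ℝ => g (w + u * Complex.I) * φ u) (C := B) (by simp) (fun u _ => by
        rw [norm_mul]
        have h3 := hφ u
        have h4 : ‖g (w + u * Complex.I)‖ ≤ B := by
          apply hB
          · simpa using hw.1
          · simpa using hw.2
        have h5 := norm_nonneg (g (w + u * Complex.I))
        have h6 := norm_nonneg (φ u)
        nlinarith)
    refine h2.trans ?_
    apply mul_le_mul_of_nonneg_left _ hB0
    rw [Real.volume_real_Icc]
    apply max_le
    · have := le_abs_self R
      linarith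
    · positivity
  have hz : (v : ℂ) ∈ Complex.HadamardThreeLines.verticalClosedStrip 0 1 := by
    refine ⟨by simpa using hv, by simpa using hv1⟩
  have hmain := Complex.HadamardThreeLines.norm_le_interp_of_mem_verticalClosedStrip' zero_lt_one hz hdc hbdd
    (a := J0) (b := J1) (fun w hw => hbound w J0 (by
      have : w.re = 0 := hw
      rw [this]
      simpa using h0) (by
      have : w.re = 0 := hw
      rw [this]
      simpa using h0')) (fun w hw => hbound w J1 (by
      have : w.re = 1 := hw
      rw [this]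
      simpa using h1) (by
      have : w.re = 1 := hw
      rw [this]
      simpa using h1'))
  rw [Complex.ofReal_re, sub_zero, sub_zero, div_one] at hmain
  have hHv : H v = ((∫ x in Icc (-R) R, ‖g (v + x * Complex.I)‖ : ℝ) : ℂ) := by
    simp only [hH, hφdef]
    rw [← integral_complex_ofReal]
    apply integral_congr_ae
    filter_upwards with u
    exact mul_uni _
  rw [hHv, Complex.norm_real] at hmain
  exact (le_abs_self _).trans hmain

end Pool.Agent.H6
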