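import Mathlib
import Pool.Agent.H6.LMol
import Pool.Agent.H6.LThreeA

/-!
The first absolute moment of the mollified L-function.
-/

set_option autoImplicit false

open MeasureTheory Set Filter Topology Real

namespace Pool.Agent.H6

open Pool.Agent.H5

/-- weighted Cauchy-Schwarz -/
lemma l1_of_l2 {f g w : ℝ → ℝ} (hw : ∀ x, 0 ≤ w x) (hf : Integrable (fun x => f x ^ 2 * w x))
    (hg : Integrable (fun x => g x ^ 2 * w x)) (hm : AEStronglyMeasurable (fun x => f x * g x * w x)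
      volume) {c : ℝ} (hc : 0 < c) :
    Integrable (fun x => f x * g x * w x) ∧
    ∫ x, f x * g x * w x ≤ (c * ∫ x, f x ^ 2 * w x) + c⁻¹ * ∫ x, g x ^ 2 * w x := by
  have hpt : ∀ x, |f x * g x| ≤ c * f x ^ 2 + c⁻¹ * g x ^ 2 := by
    intro x
    have h1 : 0 ≤ (√c * |f x| - (√c)⁻¹ * |g x|) ^ 2 := sq_nonneg _
    have hs : √c ^ 2 = c := Real.sq_sqrt hc.le
    have hs0 : 0 < √c := Real.sqrt_pos.mpr hc
    have h2 : (√c * |f x| - (√c)⁻¹ * |g x|) ^ 2 = c * f x ^ 2 - 2 * (|f x| * |g x|) +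
        c⁻¹ * g x ^ 2 := by
      have e1 : √c * (√c)⁻¹ = 1 := mul_inv_cancel₀ hs0.ne'
      have e2 : ((√c)⁻¹) ^ 2 = c⁻¹ := by rw [inv_pow, hs]
      calc (√c * |f x| - (√c)⁻¹ * |g x|) ^ 2 = √c ^ 2 * |f x| ^ 2 -
            2 * (√c * (√c)⁻¹) * (|f x| * |g x|) + ((√c)⁻¹) ^ 2 * |g x| ^ 2 := by ring
        _ = _ := by rw [e1, e2, hs, sq_abs, sq_abs]; ring
    rw [h2] at h1
    rw [abs_mul]
    have h3 : 0 ≤ |f x| * |g x| := by positivity
    linarith
  have hdom : Integrable (fun x => c * (f x ^ 2 * w x) + c⁻¹ * (g x ^ 2 * w x)) :=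
    (hf.const_mul c).add (hg.const_mul c⁻¹)
  have hle : ∀ x, f x * g x * w x ≤ c * (f x ^ 2 * w x) + c⁻¹ * (g x ^ 2 * w x) := by
    intro x
    have h1 := hpt x
    have h2 := le_abs_self (f x * g x)
    have h3 := hw x
    nlinarith
  have hint : Integrable (fun x => f x * g x * w x) := by
    refine hdom.mono' hm ?_
    filter_upwards with x
    rw [Real.norm_eq_abs, abs_mul, abs_of_nonneg (hw x)]
    have h1 := hpt x
    have h3 := hw x
    nlinarith
  refine ⟨hint, ?_⟩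
  calc ∫ x, f x * g x * w x ≤ ∫ x, (c * (f x ^ 2 * w x) + c⁻¹ * (g x ^ 2 * w x)) :=
        integral_mono hint hdom hle
    _ = _ := by
        rw [integral_add (hf.const_mul c) (hg.const_mul c⁻¹), integral_const_mul,
          integral_const_mul]

section gam

variable {M T : ℝ}

lemma zT_cpow (hM : 0 < M) (hT : 1 ≤ T) (s : ℂ) :
    zT M T ^ (-s) = ((M : ℂ) * zT M T) ^ (-s) * (M : ℂ) ^ s := by
  have hMc : (M : ℂ) ≠ 0 := by exact_mod_cast hM.ne'
  have hz := zT_re_pos hM hT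
  have hz0 : zT M T ≠ 0 := by intro h; rw [h] at hz; simp at hz
  rw [ofReal_mul_cpow' hM hz0]
  have h1 : (M : ℂ) ^ (-s) * (M : ℂ) ^ s = 1 := by
    rw [← Complex.cpow_add _ _ hMc]; simp
  linear_combination (-(zT M T) ^ (-s)) * h1

lemma gam_cont (hM : 0 < M) {v : ℝ} (hv : 0 ≤ v) :
    Continuous (fun x : ℝ => (M : ℂ) ^ (((1 + v : ℝ) : ℂ) + x * Complex.I) *
      Complex.Gamma (((1 + v : ℝ) : ℂ) + x * Complex.I)) := by
  apply Continuous.mul
  · apply Continuous.const_cpow (by fun_prop)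
    left; exact_mod_cast hM.ne'
  · rw [continuous_iff_continuousAt]
    intro x
    have h1 : ContinuousAt Complex.Gamma (((1 + v : ℝ) : ℂ) + x * Complex.I) := by
      refine (Complex.differentiableAt_Gamma _ ?_).continuousAt
      intro m hm
      have := congrArg Complex.re hm
      simp at this
      have h2 : (0:ℝ) ≤ m := by positivity
      linarith
    exact ContinuousAt.comp (f := fun x : ℝ => (((1 + v : ℝ) : ℂ) + x * Complex.I)) h1
      (by fun_prop)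

/-- the L² bound of the archimedean factor, `v = 0` or `v = 1` -/
lemma gam_l2 (hM : 0 < M) (hT : 1 ≤ T) {v : ℝ} (hv : v = 0 ∨ v = 1) :
    Integrable (fun x : ℝ => (‖(M : ℂ) ^ (((1 + v : ℝ) : ℂ) + x * Complex.I) *
      Complex.Gamma (((1 + v : ℝ) : ℂ) + x * Complex.I)‖ *
        Real.exp ((π / 2 - 1 / T) * x)) ^ 2 * Real.exp (-(1 / T ^ 2 * x ^ 2))) ∧
    ∫ x : ℝ, (‖(M : ℂ) ^ (((1 + v : ℝ) : ℂ) + x * Complex.I) *
      Complex.Gamma (((1 + v : ℝ) : ℂ) + x * Complex.I)‖ * Real.exp ((π / 2 - 1 / T) * x)) ^ 2 *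
        Real.exp (-(1 / T ^ 2 * x ^ 2)) ≤ 12 * π * (T * M) ^ (2 + 2 * v) := by
  have hT0 : 0 < T := by linarith
  have hv0 : 0 ≤ v := by rcases hv with h | h <;> rw [h]; norm_num
  have hz := zT_re_pos hM hT
  have hzge := zT_re_ge hM hT
  set z := zT M T with hzdef
  set h : ℝ → ℂ := fun r : ℝ => Complex.exp (-(z * r)) with hh
  have e1 : 2 * (1 + v) - 1 = 1 + 2 * v := by ring
  have hnorm : ∀ r : ℝ, ‖h r‖ ^ 2 = Real.exp (-(2 * z.re * r)) := by
    intro r
    simp only [hh]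
    rw [Complex.norm_exp, ← Real.exp_nat_mul]
    congr 1
    have : (z * r).re = z.re * r := ray_re r
    rw [Complex.neg_re, this]
    push_cast
    ring
  have hs : ∀ x : ℝ, 0 < (((1 + v : ℝ) : ℂ) + x * Complex.I).re := by
    intro x; simp; linarith
  have hc : MellinConvergent h (((1 + v : ℝ)) : ℂ) := by
    have := integrableOn_gint (z := z) (s := (((1 + v : ℝ)) : ℂ)) hz (by simp; linarith)
    exact this
  have hrp : ∫ r in Ioi (0:ℝ), ‖h r‖ ^ 2 * r ^ (1 + 2 * v) =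
      (1 / (2 * z.re)) ^ (2 + 2 * v) * Real.Gamma (2 + 2 * v) := by
    have h1 := Real.integral_rpow_mul_exp_neg_mul_Ioi (a := 2 + 2 * v) (r := 2 * z.re)
      (by linarith) (by linarith)
    rw [← h1]
    apply setIntegral_congr_fun measurableSet_Ioi
    intro r _
    simp only
    rw [hnorm, mul_comm]
    congr 2
    ring
  have hi2 : IntegrableOn (fun r => ‖h r‖ ^ 2 * r ^ (2 * (1 + v) - 1)) (Ioi 0) := by
    rw [e1]
    have h1 := integrableOn_kernel (κ := 1 + 2 * v) (a := 2 * z.re) (by linarith) (by linarith)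
    refine h1.congr_fun ?_ measurableSet_Ioi
    intro r _
    simp only
    rw [hnorm, mul_comm]
    congr 2
    ring
  have hP := mellin_plancherel_ub hc hi2 (ε := 1 / T ^ 2) (by positivity)
  have heq : ∀ x : ℝ, ‖mellin h (((1 + v : ℝ) : ℂ) + x * Complex.I)‖ =
      ‖(M : ℂ) ^ (((1 + v : ℝ) : ℂ) + x * Complex.I) *
      Complex.Gamma (((1 + v : ℝ) : ℂ) + x * Complex.I)‖ * Real.exp ((π / 2 - 1 / T) * x) := by
    intro x
    have h1 : mellin h (((1 + v : ℝ) : ℂ) + x * Complex.I) =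
        z ^ (-(((1 + v : ℝ) : ℂ) + x * Complex.I)) *
          Complex.Gamma (((1 + v : ℝ) : ℂ) + x * Complex.I) := by
      rw [← gamma_integral_complex hz (hs x)]
      rfl
    rw [h1, hzdef, zT_cpow hM hT, mul_assoc, norm_mul, phase_norm hM hT, mul_comm]
    congr 2
    simp
  simp_rw [heq] at hP
  constructor
  · set A : ℝ := ∫ t in Ioi (0:ℝ), ‖h t‖ * t ^ ((1 + v) - 1) with hA
    have hgi : Integrable (fun x : ℝ => A ^ 2 * Real.exp (-(1 / T ^ 2) * x ^ 2)) :=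
      (integrable_exp_neg_mul_sq (by positivity)).const_mul _
    refine hgi.mono' ?_ ?_
    · apply Continuous.aestronglyMeasurable
      exact (((gam_cont hM hv0).norm.mul (by fun_prop)).pow 2).mul (by fun_prop)
    · filter_upwards with x
      rw [Real.norm_of_nonneg (by positivity), ← heq]
      have h3 := norm_mellin_le (h := h) (σ := 1 + v) x
      have h4 : Real.exp (-(1 / T ^ 2 * x ^ 2)) = Real.exp (-(1 / T ^ 2) * x ^ 2) := by
        congr 1; ring
      rw [h4]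
      gcongr
  · refine hP.trans ?_
    rw [e1, hrp]
    have h1 : (1 / (2 * z.re)) ^ (2 + 2 * v) ≤ (T * M) ^ (2 + 2 * v) := by
      apply Real.rpow_le_rpow (by positivity) _ (by linarith)
      rw [div_le_iff₀ (by positivity)]
      have h2 : T * M * (2 * (1 / (2 * T * M))) ≤ T * M * (2 * z.re) := by gcongr
      have h3 : T * M * (2 * (1 / (2 * T * M))) = 1 := by field_simp
      linarith
    have h2 : Real.Gamma (2 + 2 * v) ≤ 6 := by
      rcases hv with h | h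
      · rw [h]
        have : Real.Gamma (2 + 2 * 0) = 1 := by
          rw [mul_zero, add_zero]; exact Real.Gamma_two
        rw [this]; norm_num
      · rw [h]
        have h3 := Real.Gamma_nat_eq_factorial 3
        have e2 : (2 + 2 * 1 : ℝ) = ((3:ℕ) : ℝ) + 1 := by norm_num
        rw [e2, h3]
        norm_num [Nat.factorial]
    have h3 : 0 ≤ Real.Gamma (2 + 2 * v) := (Real.Gamma_pos_of_pos (by linarith)).le
    calc 2 * π * ((1 / (2 * z.re)) ^ (2 + 2 * v) * Real.Gamma (2 + 2 * v))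
        ≤ 2 * π * ((T * M) ^ (2 + 2 * v) * 6) := by gcongr
      _ = _ := by ring

lemma gauss_l2 (hT : 1 ≤ T) : Integrable (fun x : ℝ => (1:ℝ) ^ 2 * Real.exp (-(1 / T ^ 2 * x ^ 2))) ∧
    ∫ x : ℝ, (1:ℝ) ^ 2 * Real.exp (-(1 / T ^ 2 * x ^ 2)) ≤ 2 * T := by
  have hT0 : 0 < T := by linarith
  have e1 : (fun x : ℝ => (1:ℝ) ^ 2 * Real.exp (-(1 / T ^ 2 * x ^ 2))) =
      fun x : ℝ => Real.exp (-(1 / T ^ 2) * x ^ 2) := by
    funext x; rw [one_pow, one_mul]; congr 1; ring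
  rw [e1]
  refine ⟨integrable_exp_neg_mul_sq (by positivity), ?_⟩
  rw [integral_gaussian]
  apply Real.sqrt_le_iff.mpr
  constructor
  · positivity
  · have e1 : π / (1 / T ^ 2) = π * T ^ 2 := by field_simp
    rw [e1]
    have := Real.pi_le_four
    nlinarith [sq_nonneg T]

/-- the L¹ bound of the archimedean factor, `v = 0` or `v = 1` -/
lemma gam_l1 (hM : 0 < M) (hT : 1 ≤ T) {v : ℝ} (hv : v = 0 ∨ v = 1) :
    Integrable (fun x : ℝ => ‖(M : ℂ) ^ (((1 + v : ℝ) : ℂ) + x * Complex.I) *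
      Complex.Gamma (((1 + v : ℝ) : ℂ) + x * Complex.I)‖ *
        Real.exp ((π / 2 - 1 / T) * x) * Real.exp (-(1 / T ^ 2 * x ^ 2))) ∧
    ∫ x : ℝ, ‖(M : ℂ) ^ (((1 + v : ℝ) : ℂ) + x * Complex.I) *
      Complex.Gamma (((1 + v : ℝ) : ℂ) + x * Complex.I)‖ * Real.exp ((π / 2 - 1 / T) * x) *
        Real.exp (-(1 / T ^ 2 * x ^ 2)) ≤
      (12 * π * M ^ (2 + 2 * v) + 2) * T ^ (3 / 2 + v) := by
  have hT0 : 0 < T := by linarith
  have hv0 : 0 ≤ v := by rcases hv with h | h <;> rw [h]; norm_num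
  obtain ⟨h1, h2⟩ := gam_l2 hM hT hv
  obtain ⟨h3, h4⟩ := gauss_l2 hT
  have hc : 0 < T ^ (-(1 / 2 + v)) := by positivity
  have key := l1_of_l2 (f := fun x : ℝ => ‖(M : ℂ) ^ (((1 + v : ℝ) : ℂ) + x * Complex.I) *
      Complex.Gamma (((1 + v : ℝ) : ℂ) + x * Complex.I)‖ * Real.exp ((π / 2 - 1 / T) * x))
    (g := fun _ => 1) (w := fun x => Real.exp (-(1 / T ^ 2 * x ^ 2))) (fun x => by positivity) h1 h3
    (by
      apply Continuous.aestronglyMeasurable
      exact (((gam_cont hM hv0).norm.mul (by fun_prop)).mul continuous_const).mul (by fun_prop)) hc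
  simp only [mul_one] at key
  refine ⟨key.1, key.2.trans ?_⟩
  have e1 : T ^ (-(1 / 2 + v)) * (T * M) ^ (2 + 2 * v) = T ^ (3 / 2 + v) * M ^ (2 + 2 * v) := by
    rw [Real.mul_rpow hT0.le hM.le, ← mul_assoc, ← Real.rpow_add hT0]
    congr 2; ring
  have e2 : (T ^ (-(1 / 2 + v)))⁻¹ * T = T ^ (3 / 2 + v) := by
    rw [Real.rpow_neg hT0.le, inv_inv]
    nth_rewrite 2 [← Real.rpow_one T]
    rw [← Real.rpow_add hT0]
    congr 1; ring
  calc T ^ (-(1 / 2 + v)) * (∫ x : ℝ, (‖(M : ℂ) ^ (((1 + v : ℝ) : ℂ) + x * Complex.I) *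
      Complex.Gamma (((1 + v : ℝ) : ℂ) + x * Complex.I)‖ * Real.exp ((π / 2 - 1 / T) * x)) ^ 2 *
        Real.exp (-(1 / T ^ 2 * x ^ 2))) + (T ^ (-(1 / 2 + v)))⁻¹ *
        ∫ x : ℝ, (1:ℝ) ^ 2 * Real.exp (-(1 / T ^ 2 * x ^ 2))
      ≤ T ^ (-(1 / 2 + v)) * (12 * π * (T * M) ^ (2 + 2 * v)) +
        (T ^ (-(1 / 2 + v)))⁻¹ * (2 * T) := by gcongr
    _ = 12 * π * (T ^ (-(1 / 2 + v)) * (T * M) ^ (2 + 2 * v)) +
        2 * ((T ^ (-(1 / 2 + v)))⁻¹ * T) := by ring
    _ = _ := by rw [e1, e2]; ring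

end gam

end Pool.Agent.H6
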