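import Mathlib
import Pool.Agent.H6.LThreeB

/-!
The first absolute moment of the mollified L-function: interpolation.
-/

set_option autoImplicit false

open MeasureTheory Set Filter Topology Real

namespace Pool.Agent.H6

open Pool.Agent.H5

/-- the mollified completed function minus its main term -/
noncomputable def molA (d : ℤ) (Y : ℕ) (M : ℝ) (Λ : ℂ → ℂ) (s : ℂ) : ℂ :=
  mol d Y s * Λ s - (M : ℂ) ^ s * Complex.Gamma s

lemma molA_diffAt (d : ℤ) (Y : ℕ) {M : ℝ} (hM : 0 < M) {Λ : ℂ → ℂ} (hΛ : Differentiable ℂ Λ)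
    {s : ℂ} (hs : 0 < s.re) : DifferentiableAt ℂ (molA d Y M Λ) s := by
  have hM' : (M : ℂ) ≠ 0 := by exact_mod_cast hM.ne'
  have h1 : DifferentiableAt ℂ Complex.Gamma s := by
    apply Complex.differentiableAt_Gamma
    intro n hn
    have := congrArg Complex.re hn
    simp at this
    have h3 : (0:ℝ) ≤ n := Nat.cast_nonneg n
    linarith
  have h2 : DifferentiableAt ℂ (fun s : ℂ => (M : ℂ) ^ s) s :=
    differentiableAt_id.const_cpow (Or.inl hM')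
  exact ((differentiable_mol d Y s).mul (hΛ s)).sub (h2.mul h1)

lemma molA_cont (d : ℤ) (Y : ℕ) {M : ℝ} (hM : 0 < M) {Λ : ℂ → ℂ} (hΛ : Differentiable ℂ Λ)
    {v : ℝ} (hv : 0 ≤ v) :
    Continuous (fun x : ℝ => molA d Y M Λ (((1 + v : ℝ) : ℂ) + x * Complex.I)) := by
  rw [continuous_iff_continuousAt]
  intro x
  apply ContinuousAt.comp (f := fun x : ℝ => (((1 + v : ℝ) : ℂ) + x * Complex.I))
    (g := molA d Y M Λ)
  · apply (molA_diffAt d Y hM hΛ _).continuousAt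
    simp; linarith
  · fun_prop

/-- the tail sum -/
lemma aR_tail (d : ℤ) {T : ℝ} (hT : Real.exp 16 ≤ T) {Y : ℕ} (hY : 1 ≤ Y)
    (hYT : (Y : ℝ) ^ 2 ≤ T) :
    Summable (fun n : ℕ => |aR d Y n| * (n : ℝ) ^ (-(2:ℝ))) ∧
    ∑' n : ℕ, |aR d Y n| * (n : ℝ) ^ (-(2:ℝ)) ≤
      Real.exp 2 * (Real.log T ^ 8 * (Y : ℝ) ^ (-(1 / 2 : ℝ))) := by
  have hT0 : 0 < T := lt_of_lt_of_le (Real.exp_pos _) hT
  set ℓ := Real.log T with hℓ
  have hℓ16 : 16 ≤ ℓ := by rw [hℓ, Real.le_log_iff_exp_le hT0]; exact hT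
  have hℓ0 : 0 < ℓ := by linarith
  set ε : ℝ := 4 / ℓ with hεdef
  have hε : 0 < ε := by positivity
  have hε4 : ε ≤ 1 / 4 := by
    rw [hεdef, div_le_iff₀ hℓ0]; linarith
  have hZ0 := zs_nonneg ε
  have hZ : zs ε ≤ ℓ := by
    refine (zs_le hε).trans ?_
    rw [hεdef, one_div_div]
    linarith
  have hY0 : (0:ℝ) < Y := by exact_mod_cast hY
  have hY1 : (1:ℝ) ≤ Y := by exact_mod_cast hY
  have hYε : (Y : ℝ) ^ ε ≤ Real.exp 2 := by
    have h3 : ((Y : ℝ) ^ ε) ^ 2 ≤ (Real.exp 2) ^ 2 := by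
      have e1 : ((Y : ℝ) ^ ε) ^ 2 = ((Y : ℝ) ^ 2) ^ ε := by
        rw [← Real.rpow_natCast ((Y : ℝ) ^ ε), ← Real.rpow_mul hY0.le,
          ← Real.rpow_natCast (Y : ℝ), ← Real.rpow_mul hY0.le, mul_comm]
      have e2 : (Real.exp 2) ^ 2 = T ^ ε := by
        rw [← Real.exp_nat_mul, Real.rpow_def_of_pos hT0, ← hℓ, hεdef]
        congr 1
        field_simp
        norm_num
      rw [e1, e2]
      exact Real.rpow_le_rpow (by positivity) hYT hε.le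
    exact le_of_sq_le_sq h3 (Real.exp_pos _).le
  set c : ℝ := Real.exp 2 * (Y : ℝ) ^ (-(1 / 2 : ℝ)) with hc
  have hterm : ∀ n : ℕ, |aR d Y n| * (n : ℝ) ^ (-(2:ℝ)) ≤
      c * ((tau n : ℝ) ^ 3 * (n : ℝ) ^ (-(1 + ε))) := by
    intro n
    rcases lt_or_ge (n : ℝ) ((Y : ℝ) + 1) with h | h
    · rw [aR_supp d h, abs_zero, zero_mul]
      positivity
    · have hn1 : (1:ℝ) ≤ n := by linarith
      have hn0 : (0:ℝ) < n := by linarith
      have hn : n ≠ 0 := by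
        intro h0; rw [h0] at hn0; simp at hn0
      have h1 : |aR d Y n| ≤ (tau n : ℝ) ^ 3 * √n := by
        unfold aR
        split_ifs
        · simp; positivity
        · exact aY_tau d Y hn
      have h2 : √(n : ℝ) * (n : ℝ) ^ (-(2:ℝ)) = (n : ℝ) ^ (-(1 / 2 - ε)) * (n : ℝ) ^ (-(1 + ε)) := by
        rw [Real.sqrt_eq_rpow, ← Real.rpow_add hn0, ← Real.rpow_add hn0]
        congr 1; ring
      have h3 : (n : ℝ) ^ (-(1 / 2 - ε)) ≤ c := by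
        calc (n : ℝ) ^ (-(1 / 2 - ε)) ≤ (Y : ℝ) ^ (-(1 / 2 - ε)) :=
              Real.rpow_le_rpow_of_nonpos hY0 (by linarith) (by linarith)
          _ = (Y : ℝ) ^ ε * (Y : ℝ) ^ (-(1 / 2 : ℝ)) := by
              rw [← Real.rpow_add hY0]; congr 1; ring
          _ ≤ _ := by
              rw [hc]; gcongr
      calc |aR d Y n| * (n : ℝ) ^ (-(2:ℝ)) ≤ ((tau n : ℝ) ^ 3 * √n) * (n : ℝ) ^ (-(2:ℝ)) := by gcongr
        _ = (tau n : ℝ) ^ 3 * (√n * (n : ℝ) ^ (-(2:ℝ))) := by ring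
        _ = (n : ℝ) ^ (-(1 / 2 - ε)) * ((tau n : ℝ) ^ 3 * (n : ℝ) ^ (-(1 + ε))) := by rw [h2]; ring
        _ ≤ _ := by gcongr
  have hsum2 := (tau_summable hε 3).mul_left c
  have hsum : Summable (fun n : ℕ => |aR d Y n| * (n : ℝ) ^ (-(2:ℝ))) :=
    Summable.of_nonneg_of_le (fun n => by positivity) hterm hsum2
  refine ⟨hsum, ?_⟩
  calc ∑' n : ℕ, |aR d Y n| * (n : ℝ) ^ (-(2:ℝ))
      ≤ ∑' n : ℕ, c * ((tau n : ℝ) ^ 3 * (n : ℝ) ^ (-(1 + ε))) := hsum.tsum_le_tsum hterm hsum2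
    _ = c * ∑' n : ℕ, ((tau n : ℝ) ^ 3 * (n : ℝ) ^ (-(1 + ε))) := tsum_mul_left
    _ ≤ c * zs ε ^ (2 ^ 3) := by
        gcongr
        exact tau_tsum_le hε 3
    _ ≤ c * ℓ ^ 8 := by
        norm_num
        gcongr
    _ = _ := by rw [hc]; ring

namespace EdData

variable {d : ℕ} {M : ℝ} {Λ : ℂ → ℂ}

/-- the value on the line `Re s = 2` -/
lemma molA_two (E : EdData d M Λ) {T : ℝ} (hT : Real.exp 16 ≤ T) {Y : ℕ} (hY : 1 ≤ Y)
    (hYT : (Y : ℝ) ^ 2 ≤ T) (x : ℝ) :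
    ‖molA (d : ℤ) Y M Λ (((1 + 1 : ℝ) : ℂ) + x * Complex.I)‖ ≤
      ‖(M : ℂ) ^ (((1 + 1 : ℝ) : ℂ) + x * Complex.I) *
        Complex.Gamma (((1 + 1 : ℝ) : ℂ) + x * Complex.I)‖ *
      (Real.exp 2 * (Real.log T ^ 8 * (Y : ℝ) ^ (-(1 / 2 : ℝ)))) := by
  have hM := E.Mpos
  have hT1 : 1 ≤ T := (Real.one_le_exp (by norm_num)).trans hT
  obtain ⟨hsum, hle⟩ := aR_tail (d : ℤ) hT hY hYT
  set s : ℂ := ((1 + 1 : ℝ) : ℂ) + x * Complex.I with hs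
  have hsre : s.re = 2 := by rw [hs]; simp; norm_num
  have hz := zT_re_pos hM hT1
  have hn := zT_norm (M := M) (T := T) hM
  have h0 : aR (d : ℤ) Y 0 = 0 := by simp [aR]
  have h1 := mellin_ray_abs (b := aR (d : ℤ) Y) h0 hz (s := s) (by rw [hsre]; norm_num)
    (by rw [hsre]; exact hsum)
  rw [(E.mellin_aR hz hn hY (by rw [hsre]; norm_num)).2, zT_cpow hM hT1] at h1
  have hMc : (M : ℂ) ≠ 0 := by exact_mod_cast hM.ne'
  have hz0 : zT M T ≠ 0 := by intro h; rw [h] at hz; simp at hz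
  have hne : ((M : ℂ) * zT M T) ^ (-s) ≠ 0 := by
    rw [Complex.cpow_ne_zero_iff]
    left
    exact mul_ne_zero hMc hz0
  have h2 : molA (d : ℤ) Y M Λ s = (M : ℂ) ^ s * Complex.Gamma s *
      ∑' n : ℕ, (aR (d : ℤ) Y n : ℂ) * (n : ℂ) ^ (-s) := by
    apply mul_left_cancel₀ hne
    unfold molA
    rw [h1]
    ring
  rw [h2, norm_mul]
  apply mul_le_mul_of_nonneg_left _ (norm_nonneg _)
  have hnorm : ∀ n : ℕ, ‖(aR (d : ℤ) Y n : ℂ) * (n : ℂ) ^ (-s)‖ = |aR (d : ℤ) Y n| *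
      (n : ℝ) ^ (-(2:ℝ)) := by
    intro n
    rw [norm_mul, Complex.norm_real, Real.norm_eq_abs]
    rcases Nat.eq_zero_or_pos n with hn0 | hn0
    · rw [hn0, h0, abs_zero, zero_mul, zero_mul]
    · rw [Complex.norm_natCast_cpow_of_pos hn0, Complex.neg_re, hsre]
  have hsn : Summable (fun n : ℕ => ‖(aR (d : ℤ) Y n : ℂ) * (n : ℂ) ^ (-s)‖) := by
    simp_rw [hnorm]
    exact hsum
  refine (norm_tsum_le_tsum_norm hsn).trans ?_
  simp_rw [hnorm]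
  exact hle

/-- the two endpoint bounds -/
lemma molA_ends (E : EdData d M Λ) : ∃ K : ℝ, 1 ≤ K ∧ ∀ (T : ℝ) (Y : ℕ), Real.exp 16 ≤ T →
    1 ≤ Y → (Y : ℝ) ^ 2 ≤ T →
    (Integrable (fun x : ℝ => ‖molA (d : ℤ) Y M Λ (((1 + 0 : ℝ) : ℂ) + x * Complex.I)‖ *
        Real.exp ((π / 2 - 1 / T) * x) * Real.exp (-(1 / T ^ 2 * x ^ 2))) ∧
     ∫ x : ℝ, ‖molA (d : ℤ) Y M Λ (((1 + 0 : ℝ) : ℂ) + x * Complex.I)‖ *
        Real.exp ((π / 2 - 1 / T) * x) * Real.exp (-(1 / T ^ 2 * x ^ 2)) ≤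
      K * (T ^ (3 / 2 : ℝ) * Real.log T ^ 8)) ∧
    (Integrable (fun x : ℝ => ‖molA (d : ℤ) Y M Λ (((1 + 1 : ℝ) : ℂ) + x * Complex.I)‖ *
        Real.exp ((π / 2 - 1 / T) * x) * Real.exp (-(1 / T ^ 2 * x ^ 2))) ∧
     ∫ x : ℝ, ‖molA (d : ℤ) Y M Λ (((1 + 1 : ℝ) : ℂ) + x * Complex.I)‖ *
        Real.exp ((π / 2 - 1 / T) * x) * Real.exp (-(1 / T ^ 2 * x ^ 2)) ≤
      K * (T ^ (5 / 2 : ℝ) * Real.log T ^ 8 * (Y : ℝ) ^ (-(1 / 2 : ℝ)))) := by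
  have hM := E.Mpos
  obtain ⟨K1, hK11, hK1⟩ := E.mean_sq_log
  obtain ⟨K2, hK21, hK2⟩ := mol_sq
  set K : ℝ := K1 + K2 + (12 * π * M ^ (2 + 2 * (0:ℝ)) + 2) +
    (12 * π * M ^ (2 + 2 * (1:ℝ)) + 2) * Real.exp 2 with hK
  have g1 : 0 ≤ 12 * π * M ^ (2 + 2 * (0:ℝ)) + 2 := by positivity
  have g2 : 0 ≤ (12 * π * M ^ (2 + 2 * (1:ℝ)) + 2) * Real.exp 2 := by positivity
  refine ⟨K, by rw [hK]; linarith, ?_⟩
  intro T Y hT hY hYT
  have hT1 : 1 ≤ T := (Real.one_le_exp (by norm_num)).trans hT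
  have hT0 : 0 < T := by linarith
  have hℓ16 : 16 ≤ Real.log T := by rw [Real.le_log_iff_exp_le hT0]; exact hT
  have hℓ1 : 1 ≤ Real.log T := by linarith
  constructor
  · obtain ⟨a1, a2⟩ := hK1 T 0 hT le_rfl (by
      have : 0 ≤ 8 / Real.log T := by positivity
      linarith)
    obtain ⟨b1, b2⟩ := hK2 (d : ℤ) T 0 Y hT le_rfl hY hYT
    obtain ⟨c1, c2⟩ := gam_l1 hM hT1 (Or.inl rfl : (0:ℝ) = 0 ∨ (0:ℝ) = 1)
    have hc : 0 < T ^ (-(1 / 2 : ℝ)) := by positivity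
    have hmolc : Continuous (fun x : ℝ => mol (d : ℤ) Y (((1 + 0 : ℝ) : ℂ) + x * Complex.I)) :=
      (differentiable_mol (d : ℤ) Y).continuous.comp (by fun_prop)
    obtain ⟨k1, k2⟩ := l1_of_l2 (f := fun x : ℝ => ‖Λ (((1 + 0 : ℝ) : ℂ) + x * Complex.I)‖ *
        Real.exp ((π / 2 - 1 / T) * x))
      (g := fun x : ℝ => ‖mol (d : ℤ) Y (((1 + 0 : ℝ) : ℂ) + x * Complex.I)‖)
      (w := fun x => Real.exp (-(1 / T ^ 2 * x ^ 2))) (fun x => by positivity) a1 b1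
      (by
        apply Continuous.aestronglyMeasurable
        exact (((E.contLine 0).norm.mul (by fun_prop)).mul hmolc.norm).mul (by fun_prop)) hc
    have hpt : ∀ x : ℝ, ‖molA (d : ℤ) Y M Λ (((1 + 0 : ℝ) : ℂ) + x * Complex.I)‖ *
        Real.exp ((π / 2 - 1 / T) * x) * Real.exp (-(1 / T ^ 2 * x ^ 2)) ≤
        ‖Λ (((1 + 0 : ℝ) : ℂ) + x * Complex.I)‖ * Real.exp ((π / 2 - 1 / T) * x) *
          ‖mol (d : ℤ) Y (((1 + 0 : ℝ) : ℂ) + x * Complex.I)‖ * Real.exp (-(1 / T ^ 2 * x ^ 2)) +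
        ‖(M : ℂ) ^ (((1 + 0 : ℝ) : ℂ) + x * Complex.I) *
          Complex.Gamma (((1 + 0 : ℝ) : ℂ) + x * Complex.I)‖ *
          Real.exp ((π / 2 - 1 / T) * x) * Real.exp (-(1 / T ^ 2 * x ^ 2)) := by
      intro x
      have h1 : ‖molA (d : ℤ) Y M Λ (((1 + 0 : ℝ) : ℂ) + x * Complex.I)‖ ≤
          ‖Λ (((1 + 0 : ℝ) : ℂ) + x * Complex.I)‖ *
            ‖mol (d : ℤ) Y (((1 + 0 : ℝ) : ℂ) + x * Complex.I)‖ +
          ‖(M : ℂ) ^ (((1 + 0 : ℝ) : ℂ) + x * Complex.I) *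
            Complex.Gamma (((1 + 0 : ℝ) : ℂ) + x * Complex.I)‖ := by
        unfold molA
        refine (norm_sub_le _ _).trans ?_
        rw [norm_mul, mul_comm ‖mol _ _ _‖]
      calc _ ≤ (‖Λ (((1 + 0 : ℝ) : ℂ) + x * Complex.I)‖ *
            ‖mol (d : ℤ) Y (((1 + 0 : ℝ) : ℂ) + x * Complex.I)‖ +
          ‖(M : ℂ) ^ (((1 + 0 : ℝ) : ℂ) + x * Complex.I) *
            Complex.Gamma (((1 + 0 : ℝ) : ℂ) + x * Complex.I)‖) *
            Real.exp ((π / 2 - 1 / T) * x) * Real.exp (-(1 / T ^ 2 * x ^ 2)) := by gcongr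
        _ = _ := by ring
    have hdom := k1.add c1
    have hint : Integrable (fun x : ℝ => ‖molA (d : ℤ) Y M Λ (((1 + 0 : ℝ) : ℂ) + x * Complex.I)‖ *
        Real.exp ((π / 2 - 1 / T) * x) * Real.exp (-(1 / T ^ 2 * x ^ 2))) := by
      refine hdom.mono' ?_ ?_
      · apply Continuous.aestronglyMeasurable
        exact ((molA_cont (d : ℤ) Y hM E.diff le_rfl).norm.mul (by fun_prop)).mul (by fun_prop)
      · filter_upwards with x
        rw [Real.norm_of_nonneg (by positivity)]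
        exact hpt x
    refine ⟨hint, ?_⟩
    have e1 : T ^ (-(1 / 2 : ℝ)) * T ^ (2 + 2 * (0:ℝ)) = T ^ (3 / 2 : ℝ) := by
      rw [← Real.rpow_add hT0]; congr 1; norm_num
    have e2 : (T ^ (-(1 / 2 : ℝ)))⁻¹ * T = T ^ (3 / 2 : ℝ) := by
      rw [Real.rpow_neg hT0.le, inv_inv]
      nth_rewrite 2 [← Real.rpow_one T]
      rw [← Real.rpow_add hT0]
      congr 1; norm_num
    have hp5 : Real.log T ^ 5 ≤ Real.log T ^ 8 := pow_le_pow_right₀ hℓ1 (by norm_num)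
    have hp4 : Real.log T ^ 4 ≤ Real.log T ^ 8 := pow_le_pow_right₀ hℓ1 (by norm_num)
    have hp0 : 1 ≤ Real.log T ^ 8 := one_le_pow₀ hℓ1
    have e3 : (3 / 2 + (0:ℝ)) = 3 / 2 := by norm_num
    rw [e3] at c2
    set X : ℝ := T ^ (3 / 2 : ℝ) with hX
    have hX0 : 0 ≤ X := by positivity
    calc ∫ x : ℝ, ‖molA (d : ℤ) Y M Λ (((1 + 0 : ℝ) : ℂ) + x * Complex.I)‖ *
        Real.exp ((π / 2 - 1 / T) * x) * Real.exp (-(1 / T ^ 2 * x ^ 2))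
        ≤ _ := integral_mono hint hdom hpt
      _ = _ := integral_add k1 c1
      _ ≤ (T ^ (-(1 / 2 : ℝ)) * (K1 * (T ^ (2 + 2 * (0:ℝ)) * Real.log T ^ 5)) +
          (T ^ (-(1 / 2 : ℝ)))⁻¹ * (K2 * (T * Real.log T ^ 4))) +
          (12 * π * M ^ (2 + 2 * (0:ℝ)) + 2) * X := by
          apply add_le_add _ c2
          refine k2.trans ?_
          gcongr
      _ = K1 * ((T ^ (-(1 / 2 : ℝ)) * T ^ (2 + 2 * (0:ℝ))) * Real.log T ^ 5) +
          K2 * (((T ^ (-(1 / 2 : ℝ)))⁻¹ * T) * Real.log T ^ 4) +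
          (12 * π * M ^ (2 + 2 * (0:ℝ)) + 2) * (X * 1) := by ring
      _ ≤ K1 * (X * Real.log T ^ 8) + K2 * (X * Real.log T ^ 8) +
          (12 * π * M ^ (2 + 2 * (0:ℝ)) + 2) * (X * Real.log T ^ 8) := by
          rw [e1, e2]
          gcongr
      _ = (K1 + K2 + (12 * π * M ^ (2 + 2 * (0:ℝ)) + 2)) * (X * Real.log T ^ 8) := by ring
      _ ≤ _ := by
          gcongr
          rw [hK]; linarith
  · obtain ⟨c1, c2⟩ := gam_l1 hM hT1 (Or.inr rfl : (1:ℝ) = 0 ∨ (1:ℝ) = 1)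
    set S : ℝ := Real.exp 2 * (Real.log T ^ 8 * (Y : ℝ) ^ (-(1 / 2 : ℝ))) with hS
    have hS0 : 0 ≤ S := by positivity
    have hpt : ∀ x : ℝ, ‖molA (d : ℤ) Y M Λ (((1 + 1 : ℝ) : ℂ) + x * Complex.I)‖ *
        Real.exp ((π / 2 - 1 / T) * x) * Real.exp (-(1 / T ^ 2 * x ^ 2)) ≤
        S * (‖(M : ℂ) ^ (((1 + 1 : ℝ) : ℂ) + x * Complex.I) *
          Complex.Gamma (((1 + 1 : ℝ) : ℂ) + x * Complex.I)‖ *
          Real.exp ((π / 2 - 1 / T) * x) * Real.exp (-(1 / T ^ 2 * x ^ 2))) := by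
      intro x
      have h1 := E.molA_two hT hY hYT x
      calc _ ≤ (‖(M : ℂ) ^ (((1 + 1 : ℝ) : ℂ) + x * Complex.I) *
          Complex.Gamma (((1 + 1 : ℝ) : ℂ) + x * Complex.I)‖ * S) *
          Real.exp ((π / 2 - 1 / T) * x) * Real.exp (-(1 / T ^ 2 * x ^ 2)) := by gcongr
        _ = _ := by ring
    have hdom := c1.const_mul S
    have hint : Integrable (fun x : ℝ => ‖molA (d : ℤ) Y M Λ (((1 + 1 : ℝ) : ℂ) + x * Complex.I)‖ *
        Real.exp ((π / 2 - 1 / T) * x) * Real.exp (-(1 / T ^ 2 * x ^ 2))) := by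
      refine hdom.mono' ?_ ?_
      · apply Continuous.aestronglyMeasurable
        exact ((molA_cont (d : ℤ) Y hM E.diff zero_le_one).norm.mul (by fun_prop)).mul (by fun_prop)
      · filter_upwards with x
        rw [Real.norm_of_nonneg (by positivity)]
        exact hpt x
    refine ⟨hint, ?_⟩
    have e3 : (3 / 2 + (1:ℝ)) = 5 / 2 := by norm_num
    rw [e3] at c2
    calc ∫ x : ℝ, ‖molA (d : ℤ) Y M Λ (((1 + 1 : ℝ) : ℂ) + x * Complex.I)‖ *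
        Real.exp ((π / 2 - 1 / T) * x) * Real.exp (-(1 / T ^ 2 * x ^ 2))
        ≤ _ := integral_mono hint hdom hpt
      _ = S * _ := integral_const_mul _ _
      _ ≤ S * ((12 * π * M ^ (2 + 2 * (1:ℝ)) + 2) * T ^ (5 / 2 : ℝ)) := by gcongr
      _ = ((12 * π * M ^ (2 + 2 * (1:ℝ)) + 2) * Real.exp 2) *
          (T ^ (5 / 2 : ℝ) * Real.log T ^ 8 * (Y : ℝ) ^ (-(1 / 2 : ℝ))) := by rw [hS]; ring
      _ ≤ _ := by
          gcongr
          rw [hK]; linarith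

end EdData

end Pool.Agent.H6
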