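import Mathlib
import Pool.Agent.H6.LThreeC

/-!
The first absolute moment of the mollified L-function: final estimate.
-/

set_option autoImplicit false

open MeasureTheory Set Filter Topology Real

namespace Pool.Agent.H6

open Pool.Agent.H5

namespace EdData

variable {d : ℕ} {M : ℝ} {Λ : ℂ → ℂ}

lemma molA_bounded (E : EdData d M Λ) {T : ℝ} (hT : 1 ≤ T) {Y : ℕ} (hY : 1 ≤ Y) :
    ∃ B : ℝ, ∀ w : ℂ, 0 ≤ w.re → w.re ≤ 1 →
      ‖((M : ℂ) * zT M T) ^ (-(1 + w)) * molA (d : ℤ) Y M Λ (1 + w)‖ ≤ B := by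
  have hM := E.Mpos
  have hz := zT_re_pos hM hT
  have hn := zT_norm (M := M) (T := T) hM
  set h : ℝ → ℂ := fun r : ℝ => Fs (aR (d : ℤ) Y) (zT M T * r) with hh
  have c1 := (E.mellin_aR hz hn hY (s := 1) (by simp)).1
  have c2 := (E.mellin_aR hz hn hY (s := 2) (by simp)).1
  have i1 : IntegrableOn (fun r => ‖h r‖) (Ioi 0) := by
    have := Integrable.norm c1
    refine this.congr ?_
    filter_upwards [ae_restrict_mem measurableSet_Ioi] with r hr
    simp [hh]
  have i2 : IntegrableOn (fun r => ‖h r‖ * r) (Ioi 0) := by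
    have := Integrable.norm c2
    refine this.congr ?_
    filter_upwards [ae_restrict_mem measurableSet_Ioi] with r hr
    have hr0 : (0:ℝ) < r := hr
    have e : (2 - 1 : ℂ) = 1 := by norm_num
    rw [e, Complex.cpow_one, norm_smul, Complex.norm_real, Real.norm_of_nonneg hr0.le, mul_comm]
  refine ⟨∫ r in Ioi (0:ℝ), (‖h r‖ + ‖h r‖ * r), ?_⟩
  intro w hw0 hw1
  have hre : 0 < (1 + w).re := by simp; linarith
  obtain ⟨hc, hm⟩ := E.mellin_aR hz hn hY hre
  unfold molA
  rw [← hm]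
  have hw : (1 + w : ℂ) = ((1 + w.re : ℝ) : ℂ) + (w.im : ℂ) * Complex.I := by
    conv_lhs => rw [← Complex.re_add_im w]
    push_cast; ring
  rw [hw]
  refine (norm_mellin_le _).trans ?_
  have hpt : ∀ r ∈ Ioi (0:ℝ), ‖h r‖ * r ^ ((1 + w.re) - 1) ≤ ‖h r‖ + ‖h r‖ * r := by
    intro r hr
    have hr0 : (0:ℝ) < r := hr
    have e : (1 + w.re) - 1 = w.re := by ring
    rw [e]
    have h1 : r ^ w.re ≤ 1 + r := by
      rcases le_total r 1 with h | h
      · have := Real.rpow_le_one hr0.le h hw0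
        linarith
      · have : r ^ w.re ≤ r ^ (1:ℝ) := Real.rpow_le_rpow_of_exponent_le h hw1
        rw [Real.rpow_one] at this
        linarith
    calc ‖h r‖ * r ^ w.re ≤ ‖h r‖ * (1 + r) := by gcongr
      _ = _ := by ring
  apply setIntegral_mono_on _ (i1.add i2) measurableSet_Ioi hpt
  have hc' := Integrable.norm hc
  refine hc'.congr ?_
  filter_upwards [ae_restrict_mem measurableSet_Ioi] with r hr
  have hr0 : (0:ℝ) < r := hr
  rw [norm_smul, Complex.norm_cpow_eq_rpow_re_of_pos hr0, mul_comm]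
  congr 2

/-- **first absolute moment of the mollified L-function** -/
theorem molA_l1 (E : EdData d M Λ) : ∃ K : ℝ, 1 ≤ K ∧ ∀ (T v S : ℝ) (Y : ℕ), Real.exp 16 ≤ T →
    1 ≤ Y → (Y : ℝ) ^ 2 ≤ T → 0 ≤ v → v ≤ 1 → 0 ≤ S → S ≤ 3 * T →
    ∫ x in (0:ℝ)..S, ‖molA (d : ℤ) Y M Λ (((1 + v : ℝ) : ℂ) + x * Complex.I)‖ *
        Real.exp (π / 2 * x) ≤
      K * (T ^ (3 / 2 + v) * Real.log T ^ 8 * (Y : ℝ) ^ (-(v / 2))) := by
  have hM := E.Mpos
  obtain ⟨K, hK1, hK⟩ := E.molA_ends
  refine ⟨Real.exp 12 * (3 * K), ?_, ?_⟩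
  · have := Real.one_le_exp (show (0:ℝ) ≤ 12 by norm_num)
    nlinarith
  intro T v S Y hT hY hYT hv hv1 hS hST
  have hT1 : 1 ≤ T := (Real.one_le_exp (by norm_num)).trans hT
  have hT0 : 0 < T := by linarith
  have hℓ16 : 16 ≤ Real.log T := by rw [Real.le_log_iff_exp_le hT0]; exact hT
  have hY0 : (0:ℝ) < Y := by exact_mod_cast hY
  have hz := zT_re_pos hM hT1
  have hMc : (M : ℂ) ≠ 0 := by exact_mod_cast hM.ne'
  have hz0 : zT M T ≠ 0 := by intro h; rw [h] at hz; simp at hz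
  obtain ⟨⟨a1, a2⟩, ⟨b1, b2⟩⟩ := hK T Y hT hY hYT
  obtain ⟨B, hB⟩ := E.molA_bounded hT1 hY
  set g : ℂ → ℂ := fun w => (((M : ℂ) * zT M T) ^ (-(1 + w)) * molA (d : ℤ) Y M Λ (1 + w)) *
    Complex.exp (w ^ 2 / ((T ^ 2 : ℝ) : ℂ)) with hg
  have hTsq : (1:ℝ) ≤ T ^ 2 := one_le_pow₀ hT1
  have hnorm : ∀ u x : ℝ, ‖g (u + x * Complex.I)‖ =
      ‖molA (d : ℤ) Y M Λ (((1 + u : ℝ) : ℂ) + x * Complex.I)‖ *
        Real.exp ((π / 2 - 1 / T) * x) * Real.exp ((u ^ 2 - x ^ 2) / T ^ 2) := by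
    intro u x
    simp only [hg]
    have e1 : (1 : ℂ) + (u + x * Complex.I) = ((1 + u : ℝ) : ℂ) + x * Complex.I := by
      push_cast; ring
    rw [e1, norm_mul, norm_mul, phase_norm hM hT1, Complex.norm_exp]
    have e2 : ((u : ℂ) + x * Complex.I) ^ 2 / ((T ^ 2 : ℝ) : ℂ) =
        (((u ^ 2 - x ^ 2) / T ^ 2 : ℝ) : ℂ) + ((2 * u * x / T ^ 2 : ℝ) : ℂ) * Complex.I := by
      have hT' : ((T ^ 2 : ℝ) : ℂ) ≠ 0 := by
        exact_mod_cast (by positivity : (T ^ 2 : ℝ) ≠ 0)
      rw [Complex.ofReal_div, Complex.ofReal_div]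
      field_simp
      push_cast
      have hI : Complex.I ^ 2 = -1 := Complex.I_sq
      linear_combination ((x:ℂ)^2) * hI
    rw [e2, Complex.add_re, Complex.ofReal_re, Complex.re_ofReal_mul, Complex.I_re, mul_zero,
      add_zero]
    have e3 : ((((1 + u : ℝ) : ℂ) + x * Complex.I)).im = x := by simp
    rw [e3]
    ring
  have hgd : ∀ w : ℂ, -1 / 2 < w.re → DifferentiableAt ℂ g w := by
    intro w hw
    simp only [hg]
    apply DifferentiableAt.mul
    · apply DifferentiableAt.mul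
      · apply DifferentiableAt.const_cpow (by fun_prop)
        left
        exact mul_ne_zero hMc hz0
      · apply DifferentiableAt.comp (f := fun w : ℂ => 1 + w) (g := molA (d : ℤ) Y M Λ)
        · apply molA_diffAt (d : ℤ) Y hM E.diff
          simp; linarith
        · fun_prop
    · fun_prop
  have hgB : ∀ w : ℂ, 0 ≤ w.re → w.re ≤ 1 → ‖g w‖ ≤ |B| * Real.exp 1 := by
    intro w h0 h1
    simp only [hg]
    rw [norm_mul]
    have h2 := (hB w h0 h1).trans (le_abs_self B)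
    have h3 : ‖Complex.exp (w ^ 2 / ((T ^ 2 : ℝ) : ℂ))‖ ≤ Real.exp 1 := by
      rw [Complex.norm_exp, Complex.div_ofReal_re]
      apply Real.exp_le_exp.mpr
      have e1 : (w ^ 2).re = w.re ^ 2 - w.im ^ 2 := by
        rw [sq, Complex.mul_re]; ring
      rw [e1, div_le_one (by positivity)]
      nlinarith [sq_nonneg w.im]
    gcongr
  have hl0 : ∀ x : ℝ, ‖g (x * Complex.I)‖ =
      ‖molA (d : ℤ) Y M Λ (((1 + 0 : ℝ) : ℂ) + x * Complex.I)‖ *
        Real.exp ((π / 2 - 1 / T) * x) * Real.exp (-(1 / T ^ 2 * x ^ 2)) := by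
    intro x
    have := hnorm 0 x
    simp only [Complex.ofReal_zero, zero_add] at this
    rw [this]
    congr 2
    ring
  have hl1 : ∀ x : ℝ, ‖g (1 + x * Complex.I)‖ =
      Real.exp (1 / T ^ 2) * (‖molA (d : ℤ) Y M Λ (((1 + 1 : ℝ) : ℂ) + x * Complex.I)‖ *
        Real.exp ((π / 2 - 1 / T) * x) * Real.exp (-(1 / T ^ 2 * x ^ 2))) := by
    intro x
    have := hnorm 1 x
    simp only [Complex.ofReal_one] at this
    rw [this]
    have e : Real.exp ((1 ^ 2 - x ^ 2) / T ^ 2) = Real.exp (1 / T ^ 2) *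
        Real.exp (-(1 / T ^ 2 * x ^ 2)) := by
      rw [← Real.exp_add]; congr 1; ring
    rw [e]
    ring
  set X0 : ℝ := T ^ (3 / 2 : ℝ) * Real.log T ^ 8 with hX0
  set X1 : ℝ := T ^ (5 / 2 : ℝ) * Real.log T ^ 8 * (Y : ℝ) ^ (-(1 / 2 : ℝ)) with hX1
  have hX0p : 0 < X0 := by positivity
  have hX1p : 0 < X1 := by positivity
  have hexp1 : Real.exp (1 / T ^ 2) ≤ 3 := by
    have h1 : 1 / T ^ 2 ≤ 1 := by
      rw [div_le_one (by positivity)]; exact hTsq
    have h2 := Real.exp_one_lt_d9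
    have h3 := Real.exp_le_exp.mpr h1
    linarith
  have hmain := l1_three_lines (g := g) (σ0 := -1 / 2) (by norm_num) hgd hgB (J0 := K * X0)
    (J1 := 3 * K * X1)
    (by simp_rw [hl0]; exact a1) (by simp_rw [hl0]; exact a2)
    (by simp_rw [hl1]; exact b1.const_mul _)
    (by
      simp_rw [hl1]
      rw [integral_const_mul]
      have : 0 ≤ K * X1 := by positivity
      calc Real.exp (1 / T ^ 2) * _ ≤ 3 * (K * X1) := by gcongr
        _ = _ := by ring) hv hv1 (3 * T)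
  -- the interval
  have hAc := molA_cont (d : ℤ) Y hM E.diff hv
  have hgc : Continuous (fun x : ℝ => ‖g (v + x * Complex.I)‖) := by
    simp_rw [hnorm]
    exact (hAc.norm.mul (by fun_prop)).mul (by fun_prop)
  have h1 : ∫ x in (0:ℝ)..S, ‖molA (d : ℤ) Y M Λ (((1 + v : ℝ) : ℂ) + x * Complex.I)‖ *
        Real.exp (π / 2 * x) ≤ Real.exp 12 * ∫ x in Icc (-(3 * T)) (3 * T), ‖g (v + x * Complex.I)‖ := by
    rw [intervalIntegral.integral_of_le hS]
    calc ∫ x in Ioc (0:ℝ) S, ‖molA (d : ℤ) Y M Λ (((1 + v : ℝ) : ℂ) + x * Complex.I)‖ *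
          Real.exp (π / 2 * x) ≤ ∫ x in Ioc (0:ℝ) S, Real.exp 12 * ‖g (v + x * Complex.I)‖ := by
          apply setIntegral_mono_on
          · exact (Continuous.integrableOn_Icc (hAc.norm.mul (by fun_prop))).mono_set
              Ioc_subset_Icc_self
          · exact (Continuous.integrableOn_Icc (hgc.const_mul _)).mono_set Ioc_subset_Icc_self
          · exact measurableSet_Ioc
          · intro x hx
            obtain ⟨hx0, hxS⟩ := hx
            rw [hnorm]
            have h3 : Real.exp (π / 2 * x) ≤ Real.exp 12 * (Real.exp ((π / 2 - 1 / T) * x) *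
                Real.exp ((v ^ 2 - x ^ 2) / T ^ 2)) := by
              rw [← Real.exp_add, ← Real.exp_add]
              apply Real.exp_le_exp.mpr
              have h4 : 1 / T * x ≤ 3 := by
                rw [one_div, inv_mul_le_iff₀ hT0]; linarith
              have h5 : (v ^ 2 - x ^ 2) / T ^ 2 = v ^ 2 / T ^ 2 - (1 / T * x) ^ 2 := by ring
              have h6 : 0 ≤ v ^ 2 / T ^ 2 := by positivity
              have h7 : 0 ≤ 1 / T * x := by positivity
              rw [h5]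
              nlinarith
            calc ‖molA (d : ℤ) Y M Λ (((1 + v : ℝ) : ℂ) + x * Complex.I)‖ * Real.exp (π / 2 * x)
                ≤ ‖molA (d : ℤ) Y M Λ (((1 + v : ℝ) : ℂ) + x * Complex.I)‖ *
                  (Real.exp 12 * (Real.exp ((π / 2 - 1 / T) * x) *
                    Real.exp ((v ^ 2 - x ^ 2) / T ^ 2))) := by gcongr
              _ = _ := by ring
      _ = Real.exp 12 * ∫ x in Ioc (0:ℝ) S, ‖g (v + x * Complex.I)‖ := integral_const_mul _ _
      _ ≤ Real.exp 12 * ∫ x in Icc (-(3 * T)) (3 * T), ‖g (v + x * Complex.I)‖ := by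
          apply mul_le_mul_of_nonneg_left _ (Real.exp_pos _).le
          apply setIntegral_mono_set (Continuous.integrableOn_Icc hgc)
          · filter_upwards with x
            exact norm_nonneg _
          · apply HasSubset.Subset.eventuallyLE
            intro x hx
            exact ⟨by linarith [hx.1], hx.2.trans hST⟩
  have h2 : (K * X0) ^ (1 - v) * (3 * K * X1) ^ v ≤ 3 * K * (X0 ^ (1 - v) * X1 ^ v) := by
    have h3 : (K * X0) ^ (1 - v) ≤ (3 * K * X0) ^ (1 - v) := by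
      apply Real.rpow_le_rpow (by positivity) _ (by linarith)
      have : 0 ≤ K * X0 := by positivity
      nlinarith
    calc (K * X0) ^ (1 - v) * (3 * K * X1) ^ v ≤ (3 * K * X0) ^ (1 - v) * (3 * K * X1) ^ v := by
          gcongr
      _ = ((3 * K) ^ (1 - v) * (3 * K) ^ v) * (X0 ^ (1 - v) * X1 ^ v) := by
          rw [Real.mul_rpow (by positivity) hX0p.le, Real.mul_rpow (by positivity) hX1p.le]
          ring
      _ = _ := by
          rw [← Real.rpow_add (by positivity)]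
          have : 1 - v + v = 1 := by ring
          rw [this, Real.rpow_one]
  have h3 : X0 ^ (1 - v) * X1 ^ v = T ^ (3 / 2 + v) * Real.log T ^ 8 * (Y : ℝ) ^ (-(v / 2)) := by
    have hlog : 0 < Real.log T ^ 8 := by positivity
    rw [hX0, hX1, Real.mul_rpow (by positivity) hlog.le,
      Real.mul_rpow (by positivity) (by positivity), Real.mul_rpow (by positivity) hlog.le,
      ← Real.rpow_mul hT0.le, ← Real.rpow_mul hT0.le, ← Real.rpow_mul hY0.le]
    have e1 : T ^ (3 / 2 + v) = T ^ (3 / 2 * (1 - v)) * T ^ (5 / 2 * v) := by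
      rw [← Real.rpow_add hT0]; congr 1; ring
    have e2 : Real.log T ^ 8 = (Real.log T ^ 8) ^ (1 - v) * (Real.log T ^ 8) ^ v := by
      rw [← Real.rpow_add hlog]
      have : 1 - v + v = 1 := by ring
      rw [this, Real.rpow_one]
    have e3 : (Y : ℝ) ^ (-(v / 2)) = (Y : ℝ) ^ (-(1 / 2) * v) := by congr 1; ring
    rw [e1, e3]
    nth_rewrite 3 [e2]
    ring
  calc _ ≤ Real.exp 12 * ∫ x in Icc (-(3 * T)) (3 * T), ‖g (v + x * Complex.I)‖ := h1
    _ ≤ Real.exp 12 * ((K * X0) ^ (1 - v) * (3 * K * X1) ^ v) := by gcongr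
    _ ≤ Real.exp 12 * (3 * K * (X0 ^ (1 - v) * X1 ^ v)) := by gcongr
    _ = _ := by rw [h3]; ring

end EdData

end Pool.Agent.H6
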