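import Mathlib
import Pool.Agent.H6.SadG

/-!
Saddle points of `M^s Γ(s) L(s) exp (-z^2/4t + p z)`, `s = 1 + z + i x`: version with separate
bounds for `log L`, its derivative and its second derivative.
-/

open Real MeasureTheory Set Filter Topology

namespace Pool.Agent.H6

/-- The function `L` is well-behaved in a window around height `x`. -/
structure GoodQ (M a W0 W1 W2 x : ℝ) (Λ D1 : ℂ → ℂ) : Prop where
  shift : ∀ s : ℂ, 1 + a ≤ s.re → |s.im - x| ≤ 1 → ∀ u : ℝ, 1 + a ≤ s.re + u →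
    ∃ R : ℂ, ‖R‖ ≤ W2 * u ^ 2 ∧ Lt M Λ (s + u) = Lt M Λ s * Complex.exp (u * D1 s + R)
  D1_le : ∀ s : ℂ, 1 + a ≤ s.re → |s.im - x| ≤ 1 → ‖D1 s‖ ≤ W1
  D1_lip : ∀ s s' : ℂ, 1 + a ≤ s.re → |s.im - x| ≤ 1 → 1 + a ≤ s'.re → |s'.im - x| ≤ 1 →
    ‖D1 s - D1 s'‖ ≤ W2 * ‖s - s'‖
  low : ∀ s : ℂ, 1 + a ≤ s.re → |s.im - x| ≤ 1 → Real.exp (-W0) ≤ ‖Lt M Λ s‖
  up : ∀ s : ℂ, 1 ≤ s.re → |s.im - x| ≤ 1 → ‖Lt M Λ s‖ ≤ Real.exp W0

theorem exists_saddleQ {M a W0 W1 W2 x t p γ : ℝ} {Λ D1 : ℂ → ℂ} (hM : 0 < M)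
    (G : GoodQ M a W0 W1 W2 x Λ D1)
    (ht : 0 < t) (ht8 : t ≤ 1 / 40) (hγ : 0 < γ) (haγ : a ≤ γ)
    (hW : 2 * t * W1 ≤ γ / 2) (hW8 : 2 * t * W1 ≤ 1 / 8) (hW2 : 2 * t * W2 ≤ 1 / 8)
    (hp : -(γ / (2 * t)) ≤ p) (h0 : 3 * γ ≤ 2 * t * (Real.log (M * ‖pt x 0‖) - 2)) :
    ∃ z : ℂ, γ ≤ z.re ∧ |z.im| ≤ 1 ∧
      z / (2 * t) = p + Real.log M + psi (ptz x z) + D1 (ptz x z) := by
  set T : ℂ → ℂ := fun z => 2 * t * (p + Real.log M + psi (ptz x z) + D1 (ptz x z)) with hT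
  have hreg : ∀ z ∈ sreg γ, 1 + a ≤ (ptz x z).re ∧ |(ptz x z).im - x| ≤ 1 ∧ 1 ≤ (ptz x z).re := by
    intro z hz
    refine ⟨?_, ?_, ?_⟩
    · rw [ptz_re]; have := hz.1; linarith
    · rw [ptz_im]; simpa using hz.2
    · rw [ptz_re]; have := hz.1; linarith
  have hpi := Real.pi_lt_d2
  have hn1 := one_le_norm_pt x
  have hW0 : 0 ≤ W1 := (norm_nonneg _).trans (G.D1_le (ptz x γ) (by rw [ptz_re]; simp; linarith)
    (by rw [ptz_im]; simp))
  have hmaps : MapsTo T (sreg γ) (sreg γ) := by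
    intro z hz
    obtain ⟨h1, h2, h3⟩ := hreg z hz
    have hD := G.D1_le _ h1 h2
    have e : T z = ((2 * t : ℝ) : ℂ) * (((p + Real.log M : ℝ) : ℂ) + psi (ptz x z) +
        D1 (ptz x z)) := by
      simp only [hT]; push_cast; ring
    refine ⟨?_, ?_⟩
    · rw [e, Complex.re_ofReal_mul, Complex.add_re, Complex.add_re, Complex.ofReal_re]
      have h4 := (abs_le.mp (abs_re_psi_sub_log_le h3)).1
      have h5 := (abs_le.mp ((Complex.abs_re_le_norm (D1 (ptz x z))).trans hD)).1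
      have h6 := norm_pt_le_two_ptz x (z := z) (hγ.le.trans hz.1) hz.2
      have h7 : Real.log ‖pt x 0‖ ≤ Real.log 2 + Real.log ‖ptz x z‖ := by
        have hpos : 0 < ‖ptz x z‖ := by
          have := Complex.re_le_norm (ptz x z)
          linarith
        rw [← Real.log_mul (by norm_num) hpos.ne']
        exact Real.log_le_log (by linarith) h6
      have h8 : Real.log 2 < 0.6931471808 := Real.log_two_lt_d9
      have hlog : Real.log (M * ‖pt x 0‖) = Real.log M + Real.log ‖pt x 0‖ :=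
        Real.log_mul hM.ne' (by linarith)
      rw [hlog] at h0
      have h9 : -(γ / (2 * t)) * (2 * t) ≤ p * (2 * t) := by gcongr
      have h10 : -(γ / (2 * t)) * (2 * t) = -γ := by field_simp
      rw [h10] at h9
      have h11 : Real.log M + Real.log ‖pt x 0‖ - 2 ≤
        Real.log M + (psi (ptz x z)).re := by linarith
      have h12 : 2 * t * (Real.log M + Real.log ‖pt x 0‖ - 2) ≤
        2 * t * (Real.log M + (psi (ptz x z)).re) := by gcongr
      have h13 : 2 * t * (-W1) ≤ 2 * t * (D1 (ptz x z)).re := by gcongr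
      nlinarith
    · rw [e, Complex.im_ofReal_mul, Complex.add_im, Complex.add_im, Complex.ofReal_im, zero_add]
      have h4 := abs_im_psi_le h3
      have h5 := (Complex.abs_im_le_norm (D1 (ptz x z))).trans hD
      rw [abs_mul, abs_of_pos (by positivity : 0 < 2 * t)]
      calc 2 * t * |(psi (ptz x z)).im + (D1 (ptz x z)).im|
          ≤ 2 * t * (π / 2 + W1) := by
            gcongr
            exact (abs_add_le _ _).trans (add_le_add h4 h5)
        _ = t * π + 2 * t * W1 := by ring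
        _ ≤ 1 := by nlinarith
  have hlip : LipschitzOnWith (1 / 2 : NNReal) T (sreg γ) := by
    apply LipschitzOnWith.of_dist_le_mul
    intro z hz z' hz'
    obtain ⟨h1, h2, h3⟩ := hreg z hz
    obtain ⟨h1', h2', h3'⟩ := hreg z' hz'
    have e : T z - T z' = ((2 * t : ℝ) : ℂ) * ((psi (ptz x z) - psi (ptz x z')) +
        (D1 (ptz x z) - D1 (ptz x z'))) := by
      simp only [hT]; push_cast; ring
    rw [dist_eq_norm, dist_eq_norm, e, norm_mul, Complex.norm_real, Real.norm_eq_abs,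
      abs_of_pos (by positivity : 0 < 2 * t)]
    have h4 := psi_lip h3 h3'
    have h5 := G.D1_lip _ _ h1 h2 h1' h2'
    have e2 : ptz x z - ptz x z' = z - z' := by simp only [ptz]; ring
    rw [e2] at h4 h5
    push_cast
    calc 2 * t * ‖(psi (ptz x z) - psi (ptz x z')) + (D1 (ptz x z) - D1 (ptz x z'))‖
        ≤ 2 * t * (5 / 3 * ‖z - z'‖ + W2 * ‖z - z'‖) := by
          gcongr
          exact (norm_add_le _ _).trans (add_le_add h4 h5)
      _ = (10 / 3 * t + 2 * t * W2) * ‖z - z'‖ := by ring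
      _ ≤ 1 / 2 * ‖z - z'‖ := by
          gcongr
          linarith
  have hcontr : ContractingWith (1 / 2 : NNReal) (hmaps.restrict T (sreg γ) (sreg γ)) := by
    constructor
    · rw [← NNReal.coe_lt_coe]; push_cast; norm_num
    · exact hlip.mapsToRestrict hmaps
  have h0' : (γ : ℂ) ∈ sreg γ := by
    refine ⟨by simp, by simp⟩
  obtain ⟨z, hz, hfix, -⟩ := ContractingWith.exists_fixedPoint' (isClosed_sreg γ).isComplete hmaps
    hcontr h0' (edist_ne_top _ _)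
  refine ⟨z, hz.1, hz.2, ?_⟩
  have h1 : T z = z := hfix
  have ht' : (t : ℂ) ≠ 0 := by exact_mod_cast ht.ne'
  rw [div_eq_iff (by simpa using ht')]
  conv_lhs => rw [← h1]
  simp only [hT]
  ring

end Pool.Agent.H6
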