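import Mathlib
import Pool.Agent.H6.QSadA

/-!
Pointwise estimates of the integrand on the shifted contour.
-/

open Real MeasureTheory Set Filter Topology

namespace Pool.Agent.H6

/-- exact local form of the integrand at a saddle point -/
lemma fker_localQ {M a W0 W1 W2 x t p c y : ℝ} {Λ D1 : ℂ → ℂ} (hM : 0 < M)
    (G : GoodQ M a W0 W1 W2 x Λ D1)
    (ht : 0 < t) (ha : 0 ≤ a) (hac : a ≤ c) (hy : |y| ≤ 1)
    (hz : ((c : ℂ) + y * Complex.I) / (2 * t) = p + Real.log M + psi (ptz x (c + y * Complex.I)) +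
      D1 (ptz x (c + y * Complex.I))) {v : ℝ} (hv : a ≤ v) :
    ∃ R : ℂ, ‖R‖ ≤ (5 / 6 + W2) * (v - c) ^ 2 ∧
      fker t x p Λ (v + y * Complex.I) = fker t x p Λ (c + y * Complex.I) *
        Complex.exp (-(((v - c) ^ 2 / (4 * t) : ℝ) : ℂ) + R) := by
  have hc0 : 0 ≤ c := ha.trans hac
  have hv0 : 0 ≤ v := ha.trans hv
  obtain ⟨R, hR, hRe⟩ := G.shift (pt (x + y) c) (by rw [pt_re]; linarith) (by simp [pt]; simpa using hy)
    (v - c) (by rw [pt_re]; linarith)
  have e0 : pt (x + y) c + ((v - c : ℝ) : ℂ) = pt (x + y) v := by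
    rw [← pt_add]; congr 1; ring
  rw [e0] at hRe
  refine ⟨rho (pt (x + y) c) (v - c) + R, ?_, ?_⟩
  · refine (norm_add_le _ _).trans ?_
    have := norm_rho_le (s := pt (x + y) c) (u := v - c) (by rw [pt_re]; linarith)
      (by rw [pt_re]; linarith)
    linarith
  · unfold fker
    rw [ptz_eq_pt, ptz_eq_pt, Lambda_eq hM hv0 Λ, Lambda_eq hM hc0 Λ, hRe,
      Gfun_shift hM hc0 hv0]
    rw [ptz_eq_pt] at hz
    have e1 : -(((v:ℂ) + y * Complex.I) ^ 2 / (4 * t)) + p * (v + y * Complex.I) =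
        (-(((c:ℂ) + y * Complex.I) ^ 2 / (4 * t)) + p * (c + y * Complex.I)) +
        (-((((v - c) ^ 2 / (4 * t) : ℝ)) : ℂ) + ((v - c : ℝ) : ℂ) * p -
          ((v - c : ℝ) : ℂ) * (((c : ℂ) + y * Complex.I) / (2 * t))) := by
      have ht' : (t : ℂ) ≠ 0 := by exact_mod_cast ht.ne'
      push_cast
      field_simp
      ring
    rw [e1, hz]
    calc Gfun M (x + y) c * Complex.exp (((v - c : ℝ) : ℂ) * (psi (pt (x + y) c) + Real.log M) +
          rho (pt (x + y) c) (v - c)) * (Lt M Λ (pt (x + y) c) *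
          Complex.exp (((v - c : ℝ) : ℂ) * D1 (pt (x + y) c) + R)) *
          Complex.exp ((-(((c:ℂ) + y * Complex.I) ^ 2 / (4 * t)) + p * (c + y * Complex.I)) +
          (-((((v - c) ^ 2 / (4 * t) : ℝ)) : ℂ) + ((v - c : ℝ) : ℂ) * p -
          ((v - c : ℝ) : ℂ) * (p + Real.log M + psi (pt (x + y) c) + D1 (pt (x + y) c))))
        = Gfun M (x + y) c * Lt M Λ (pt (x + y) c) *
          (Complex.exp (((v - c : ℝ) : ℂ) * (psi (pt (x + y) c) + Real.log M) +
          rho (pt (x + y) c) (v - c)) *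
          Complex.exp (((v - c : ℝ) : ℂ) * D1 (pt (x + y) c) + R) *
          Complex.exp ((-(((c:ℂ) + y * Complex.I) ^ 2 / (4 * t)) + p * (c + y * Complex.I)) +
          (-((((v - c) ^ 2 / (4 * t) : ℝ)) : ℂ) + ((v - c : ℝ) : ℂ) * p -
          ((v - c : ℝ) : ℂ) * (p + Real.log M + psi (pt (x + y) c) + D1 (pt (x + y) c))))) := by
          ring
      _ = Gfun M (x + y) c * Lt M Λ (pt (x + y) c) *
          (Complex.exp (-(((c:ℂ) + y * Complex.I) ^ 2 / (4 * t)) + p * (c + y * Complex.I)) *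
          Complex.exp (-(((v - c) ^ 2 / (4 * t) : ℝ) : ℂ) + (rho (pt (x + y) c) (v - c) + R))) := by
          rw [← Complex.exp_add, ← Complex.exp_add, ← Complex.exp_add]
          congr 2
          ring
      _ = _ := by ring

/-- the upper bound on the shifted line -/
lemma fker_leQ {M a W0 W1 W2 x t p c y : ℝ} {Λ D1 : ℂ → ℂ} (hM : 0 < M)
    (G : GoodQ M a W0 W1 W2 x Λ D1)
    (ht : 0 < t) (ha : 0 ≤ a) (hac : a ≤ c) (hy : |y| ≤ 1)
    (hz : ((c : ℂ) + y * Complex.I) / (2 * t) = p + Real.log M + psi (ptz x (c + y * Complex.I)) +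
      D1 (ptz x (c + y * Complex.I))) {v : ℝ} (hv : 0 ≤ v) :
    Real.exp W0 * ‖Gfun M (x + y) v‖ * Real.exp (-((v ^ 2 - y ^ 2) / (4 * t)) + p * v) ≤
      ‖fker t x p Λ (c + y * Complex.I)‖ *
        Real.exp (2 * W0 + |v - c| * W1 - (1 / (4 * t) - 5 / 6) * (v - c) ^ 2) := by
  have hc0 : 0 ≤ c := ha.trans hac
  have hlow := G.low (pt (x + y) c) (by rw [pt_re]; linarith) (by simp [pt]; simpa using hy)
  have hD := G.D1_le (pt (x + y) c) (by rw [pt_re]; linarith) (by simp [pt]; simpa using hy)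
  have hf : ‖fker t x p Λ (c + y * Complex.I)‖ = ‖Gfun M (x + y) c‖ * ‖Lt M Λ (pt (x + y) c)‖ *
      Real.exp (-((c ^ 2 - y ^ 2) / (4 * t)) + p * c) := by
    unfold fker
    rw [norm_mul, norm_expo, ptz_eq_pt, Lambda_eq hM hc0 Λ, norm_mul]
  rw [ptz_eq_pt] at hz
  have hre : c / (2 * t) = p + Real.log M + (psi (pt (x + y) c)).re + (D1 (pt (x + y) c)).re := by
    have h1 := congrArg Complex.re hz
    have e1 : (((c : ℂ) + y * Complex.I) / (2 * t)).re = c / (2 * t) := by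
      have : ((2:ℂ) * t) = ((2 * t : ℝ) : ℂ) := by push_cast; ring
      rw [this, Complex.div_ofReal_re]
      simp
    rw [e1] at h1
    simp only [Complex.add_re, Complex.ofReal_re] at h1
    exact h1
  rw [hf, Gfun_shift hM hc0 hv, norm_mul, Complex.norm_exp]
  have hre2 : (((v - c : ℝ) : ℂ) * (psi (pt (x + y) c) + Real.log M) +
      rho (pt (x + y) c) (v - c)).re = (v - c) * ((psi (pt (x + y) c)).re + Real.log M) +
      (rho (pt (x + y) c) (v - c)).re := by
    rw [Complex.add_re, Complex.re_ofReal_mul, Complex.add_re, Complex.ofReal_re]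
  rw [hre2]
  have hrho : (rho (pt (x + y) c) (v - c)).re ≤ 5 / 6 * (v - c) ^ 2 :=
    (Complex.re_le_norm _).trans (norm_rho_le (by rw [pt_re]; linarith) (by rw [pt_re]; linarith))
  have hD2 : -((v - c) * (D1 (pt (x + y) c)).re) ≤ |v - c| * W1 := by
    calc -((v - c) * (D1 (pt (x + y) c)).re) ≤ |(v - c) * (D1 (pt (x + y) c)).re| := neg_le_abs _
      _ = |v - c| * |(D1 (pt (x + y) c)).re| := abs_mul _ _
      _ ≤ |v - c| * W1 := by
          gcongr
          exact (Complex.abs_re_le_norm _).trans hD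
  calc Real.exp W0 * (‖Gfun M (x + y) c‖ * Real.exp ((v - c) * ((psi (pt (x + y) c)).re +
        Real.log M) + (rho (pt (x + y) c) (v - c)).re)) *
        Real.exp (-((v ^ 2 - y ^ 2) / (4 * t)) + p * v)
      = ‖Gfun M (x + y) c‖ * (Real.exp W0 * Real.exp ((v - c) * ((psi (pt (x + y) c)).re +
        Real.log M) + (rho (pt (x + y) c) (v - c)).re) *
        Real.exp (-((v ^ 2 - y ^ 2) / (4 * t)) + p * v)) := by ring
    _ = ‖Gfun M (x + y) c‖ * Real.exp (W0 + ((v - c) * ((psi (pt (x + y) c)).re +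
        Real.log M) + (rho (pt (x + y) c) (v - c)).re) +
        (-((v ^ 2 - y ^ 2) / (4 * t)) + p * v)) := by
        rw [← Real.exp_add, ← Real.exp_add]
    _ ≤ ‖Gfun M (x + y) c‖ * Real.exp (-W0 + (-((c ^ 2 - y ^ 2) / (4 * t)) + p * c) +
        (2 * W0 + |v - c| * W1 - (1 / (4 * t) - 5 / 6) * (v - c) ^ 2)) := by
        apply mul_le_mul_of_nonneg_left _ (norm_nonneg _)
        apply Real.exp_le_exp.mpr
        have e3 : (v - c) * ((psi (pt (x + y) c)).re + Real.log M) =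
            (v - c) * (c / (2 * t)) - (v - c) * p - (v - c) * (D1 (pt (x + y) c)).re := by
          rw [hre]; ring
        have e4 : (v - c) * (c / (2 * t)) - ((v ^ 2 - y ^ 2) / (4 * t)) +
            ((c ^ 2 - y ^ 2) / (4 * t)) = -(1 / (4 * t)) * (v - c) ^ 2 := by
          field_simp
          ring
        rw [e3]
        nlinarith
    _ = ‖Gfun M (x + y) c‖ * Real.exp (-W0) * Real.exp (-((c ^ 2 - y ^ 2) / (4 * t)) + p * c) *
        Real.exp (2 * W0 + |v - c| * W1 - (1 / (4 * t) - 5 / 6) * (v - c) ^ 2) := by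
        rw [Real.exp_add, Real.exp_add]; ring
    _ ≤ _ := by gcongr

end Pool.Agent.H6
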