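import Mathlib
import Pool.Agent.H6.QSadF
import Pool.Agent.H6.GoodBC

/-!
From upper and lower bounds in a window to the control of the logarithmic derivative
(Borel-Carathéodory on small discs).
-/

open Real MeasureTheory Set Filter Topology Metric

namespace Pool.Agent.H6

/-- Borel-Carathéodory on a small disc -/
lemma bc_small {f : ℂ → ℂ} (hf : Differentiable ℂ f) {r W : ℝ} {s : ℂ} (hr : 0 < r) (hW : 0 < W)
    (hlow : ∀ z ∈ ball s r, Real.exp (-W) ≤ ‖f z‖) (hup : ∀ z ∈ ball s r, ‖f z‖ ≤ Real.exp W) :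
    ‖Dl f s‖ ≤ 8 * W / r := by
  set h : ℂ → ℂ := fun z => f (s + z) with hh
  have hhd : Differentiable ℂ h := hf.comp (by fun_prop)
  have hball : ∀ z ∈ ball (0:ℂ) r, s + z ∈ ball s r := by
    intro z hz
    rw [mem_ball, dist_eq_norm] at hz ⊢
    simpa using hz
  have hne : ∀ z ∈ ball s r, f z ≠ 0 := by
    intro z hz h0
    have h1 := hlow z hz
    rw [h0, norm_zero] at h1
    have := Real.exp_pos (-W)
    linarith
  obtain ⟨l, hl0, hld, hle⟩ := exists_log_ball hhd hr (fun z hz => hne _ (hball z hz))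
  have h0 : h 0 = f s := by simp [hh]
  have hs0 : s ∈ ball s r := mem_ball_self hr
  have hf0 : 0 < ‖f s‖ := lt_of_lt_of_le (Real.exp_pos _) (hlow s hs0)
  have hre : MapsTo l (ball 0 r) {z | z.re ≤ 2 * W} := by
    intro z hz
    have h1 := hle z hz
    have h2 := hup _ (hball z hz)
    have h3 : ‖h z‖ = ‖f s‖ * Real.exp (l z).re := by
      rw [h1, norm_mul, Complex.norm_exp, h0]
    have h4 : Real.exp (-W) * Real.exp (l z).re ≤ Real.exp W := by
      calc Real.exp (-W) * Real.exp (l z).re ≤ ‖f s‖ * Real.exp (l z).re := by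
            gcongr
            exact hlow s hs0
        _ = ‖h z‖ := h3.symm
        _ ≤ _ := h2
    rw [← Real.exp_add, Real.exp_le_exp] at h4
    show (l z).re ≤ 2 * W
    linarith
  have hlb : ∀ z : ℂ, ‖z‖ = r / 2 → ‖l z‖ ≤ 4 * W := by
    intro z hz
    have hzb : z ∈ ball (0:ℂ) r := by
      rw [mem_ball_zero_iff]; linarith
    refine (Complex.borelCaratheodory_zero (by positivity) hld hre hr hzb hl0).trans ?_
    rw [hz]
    have : r - r / 2 = r / 2 := by ring
    rw [this]
    apply le_of_eq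
    field_simp
    ring
  have hsub : closedBall (0:ℂ) (r / 2) ⊆ ball (0:ℂ) r := closedBall_subset_ball (by linarith)
  have hcau : ‖deriv l 0‖ ≤ 4 * W / (r / 2) := by
    apply Complex.norm_deriv_le_of_forall_mem_sphere_norm_le (by positivity)
    · apply DifferentiableOn.diffContOnCl
      rw [closure_ball _ (by positivity)]
      exact hld.mono hsub
    · intro z hz
      apply hlb
      rw [mem_sphere_zero_iff_norm] at hz
      exact hz
  have hderiv : Dl f s = deriv l 0 := by
    have hopen : ball (0:ℂ) r ∈ 𝓝 (0:ℂ) := ball_mem_nhds _ hr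
    have h1 : HasDerivAt l (deriv l 0) 0 := (hld.differentiableAt hopen).hasDerivAt
    have h2 : HasDerivAt (fun z => h 0 * Complex.exp (l z))
        (h 0 * (Complex.exp (l 0) * deriv l 0)) 0 := h1.cexp.const_mul _
    have h3 : HasDerivAt h (h 0 * (Complex.exp (l 0) * deriv l 0)) 0 := by
      apply h2.congr_of_eventuallyEq
      filter_upwards [hopen] with z hz
      exact hle z hz
    have h4 : HasDerivAt h (deriv f s) 0 := by
      have h5 : HasDerivAt (fun z : ℂ => s + z) 1 0 := (hasDerivAt_id _).const_add _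
      have h6 : HasDerivAt f (deriv f s) (s + 0) := by rw [add_zero]; exact (hf s).hasDerivAt
      have := h6.comp (0 : ℂ) h5
      simpa [hh, Function.comp_def] using this
    have h5 := h3.unique h4
    have h7 : f s ≠ 0 := hne s hs0
    unfold Dl
    rw [← h5, hl0, Complex.exp_zero, one_mul, h0, div_eq_iff h7]
    ring
  rw [hderiv]
  refine hcau.trans (le_of_eq ?_)
  field_simp
  ring

theorem goodQ_of_window {M : ℝ} {Λ : ℂ → ℂ} (hM : 0 < M) (hΛ : Differentiable ℂ Λ)
    {a r W x : ℝ} (hr : 0 < r) (hr1 : r ≤ 1) (hra : 2 * r ≤ a) (hW : 0 < W)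
    (hup : ∀ s : ℂ, 1 ≤ s.re → |s.im - x| ≤ 3 → ‖Lt M Λ s‖ ≤ Real.exp W)
    (hlow : ∀ s : ℂ, 1 + (a - 2 * r) ≤ s.re → |s.im - x| ≤ 3 → Real.exp (-W) ≤ ‖Lt M Λ s‖) :
    GoodQ M a W (8 * W / r) (8 * W / r ^ 2) x Λ (Dl (Lt M Λ)) := by
  set f := Lt M Λ with hf
  have hfd : Differentiable ℂ f := Lt_diff hM hΛ
  have hnear : ∀ (s : ℂ) (σ ρ : ℝ), σ ≤ s.re → |s.im - x| ≤ ρ → ∀ z ∈ closedBall s r,
      σ - r ≤ z.re ∧ |z.im - x| ≤ ρ + r := by
    intro s σ ρ hs hsx z hz
    rw [mem_closedBall, dist_eq_norm] at hz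
    have h1 := (abs_le.mp ((Complex.abs_re_le_norm (z - s)).trans hz)).1
    have h2 := (Complex.abs_im_le_norm (z - s)).trans hz
    simp only [Complex.sub_re] at h1
    simp only [Complex.sub_im] at h2
    refine ⟨by linarith, ?_⟩
    have h3 : z.im - x = (z.im - s.im) + (s.im - x) := by ring
    rw [h3]
    refine (abs_add_le _ _).trans ?_
    linarith
  have hloc : ∀ s : ℂ, 1 + (a - r) ≤ s.re → |s.im - x| ≤ 2 → ‖Dl f s‖ ≤ 8 * W / r := by
    intro s hs hsx
    apply bc_small hfd hr hW
    · intro z hz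
      obtain ⟨h1, h2⟩ := hnear s _ _ hs hsx z (ball_subset_closedBall hz)
      exact hlow z (by linarith) (by linarith)
    · intro z hz
      obtain ⟨h1, h2⟩ := hnear s _ _ hs hsx z (ball_subset_closedBall hz)
      exact hup z (by linarith) (by linarith)
  have hlne : ∀ s : ℂ, 1 + (a - r) ≤ s.re → |s.im - x| ≤ 2 → f s ≠ 0 := by
    intro s hs hsx h0
    have h1 := hlow s (by linarith) (by linarith)
    rw [h0, norm_zero] at h1
    have := Real.exp_pos (-W)
    linarith
  have hdf : Differentiable ℂ (deriv f) := by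
    intro z
    exact ((hfd.differentiableOn.deriv isOpen_univ).differentiableAt
      (isOpen_univ.mem_nhds (mem_univ z)))
  have hDd : ∀ s : ℂ, f s ≠ 0 → DifferentiableAt ℂ (Dl f) s := fun s hs =>
    (hdf s).div (hfd s) hs
  have hcau : ∀ s : ℂ, 1 + a ≤ s.re → |s.im - x| ≤ 1 → ‖deriv (Dl f) s‖ ≤ 8 * W / r ^ 2 := by
    intro s hs hsx
    have h1 : ‖deriv (Dl f) s‖ ≤ 8 * W / r / r := by
      apply Complex.norm_deriv_le_of_forall_mem_sphere_norm_le (by positivity)
      · apply DifferentiableOn.diffContOnCl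
        rw [closure_ball _ (by positivity)]
        intro z hz
        obtain ⟨h2, h3⟩ := hnear s _ _ hs hsx z hz
        exact (hDd z (hlne z (by linarith) (by linarith))).differentiableWithinAt
      · intro z hz
        obtain ⟨h2, h3⟩ := hnear s _ _ hs hsx z (sphere_subset_closedBall hz)
        exact hloc z (by linarith) (by linarith)
    refine h1.trans (le_of_eq ?_)
    field_simp
  have hlip : ∀ s s' : ℂ, 1 + a ≤ s.re → |s.im - x| ≤ 1 → 1 + a ≤ s'.re →
      |s'.im - x| ≤ 1 → ‖Dl f s - Dl f s'‖ ≤ 8 * W / r ^ 2 * ‖s - s'‖ := by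
    intro s s' hs hsx hs' hsx'
    have hconv : Convex ℝ {z : ℂ | 1 + a ≤ z.re ∧ |z.im - x| ≤ 1} := by
      intro u hu v hv b c hb hc hbc
      obtain ⟨u1, u2⟩ := hu
      obtain ⟨v1, v2⟩ := hv
      have e1 : (b • u + c • v).re = b * u.re + c * v.re := by simp
      have e2 : (b • u + c • v).im = b * u.im + c * v.im := by simp
      refine ⟨?_, ?_⟩
      · rw [e1]
        calc 1 + a = b * (1 + a) + c * (1 + a) := by rw [← add_mul, hbc, one_mul]
          _ ≤ _ := by gcongr
      · rw [e2]
        have e3 : b * u.im + c * v.im - x = b * (u.im - x) + c * (v.im - x) := by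
          have : x = b * x + c * x := by rw [← add_mul, hbc, one_mul]
          linear_combination -this
        rw [e3]
        calc |b * (u.im - x) + c * (v.im - x)| ≤ |b * (u.im - x)| + |c * (v.im - x)| :=
              abs_add_le _ _
          _ = b * |u.im - x| + c * |v.im - x| := by
              rw [abs_mul, abs_mul, abs_of_nonneg hb, abs_of_nonneg hc]
          _ ≤ b * 1 + c * 1 := by gcongr
          _ = 1 := by rw [mul_one, mul_one, hbc]
    exact hconv.norm_image_sub_le_of_norm_deriv_le (f := Dl f)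
      (fun z hz => hDd z (hlne z (by linarith [hz.1]) (by linarith [hz.2])))
      (fun z hz => hcau z hz.1 hz.2) ⟨hs', hsx'⟩ ⟨hs, hsx⟩
  refine ⟨?_, ?_, hlip, ?_, ?_⟩
  · intro s hs hsx u hu
    apply shift_of_Dl hfd (σ := 1 + a) hs _ _ u hu
    · intro z hz hzi
      exact hlne z (by linarith) (by rw [hzi]; linarith)
    · intro z hz hzi
      exact hlip z s hz (by rw [hzi]; exact hsx) hs hsx
  · intro s hs hsx
    exact hloc s (by linarith) (by linarith)
  · intro s hs hsx
    exact hlow s (by linarith) (by linarith)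
  · intro s hs hsx
    exact hup s hs (by linarith)

end Pool.Agent.H6
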