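import Mathlib
import Pool.Agent.H6.LCoef
import Pool.Agent.H6.EdStrip

/-!
Bounds of the L-function and of its inverse near the edge of absolute convergence.
-/

open Real MeasureTheory Set Filter Topology

namespace Pool.Agent.H6

open Pool.Agent.H5 (Lser bd)

lemma norm_zeta_le {δ : ℝ} (hδ : 0 < δ) : ‖riemannZeta ((1 + δ : ℝ) : ℂ)‖ ≤ 1 + 1 / δ := by
  refine le_trans ?_ (zs_le hδ)
  rw [zeta_eq_tsum_one_div_nat_add_one_cpow (by simp; linarith)]
  unfold zs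
  have hterm : ∀ n : ℕ, ‖1 / ((n : ℂ) + 1) ^ (((1 + δ : ℝ)) : ℂ)‖ =
      ((n : ℝ) + 1) ^ (-(1 + δ)) := by
    intro n
    have e : ((n : ℂ) + 1) = (((n : ℝ) + 1 : ℝ) : ℂ) := by push_cast; ring
    have hn : (0:ℝ) < (n : ℝ) + 1 := by positivity
    rw [norm_div, norm_one, e, Complex.norm_cpow_eq_rpow_re_of_pos hn, Complex.ofReal_re,
      Real.rpow_neg hn.le, one_div]
  refine (norm_tsum_le_tsum_norm ?_).trans (le_of_eq ?_)
  · simp_rw [hterm]
    exact summable_zs hδ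
  · simp_rw [hterm]

lemma edge_lower (d : ℤ) {δ : ℝ} (hδ : 0 < δ) {s : ℂ} (hs : 3 / 2 + δ ≤ s.re) :
    1 / (1 + 1 / δ) ^ 2 ≤ ‖Lser d s‖ := by
  have h1 := Lser_lower_aux' d (κ := 1 + δ) (by linarith) (s := s) (by linarith)
  have h2 := norm_zeta_le hδ
  have h3 : 0 < 1 / δ := by positivity
  rw [div_le_iff₀ (by positivity)]
  refine h1.trans ?_
  gcongr

lemma edge_upper (d : ℤ) {δ : ℝ} (hδ : 0 < δ) {s : ℂ} (hs : 3 / 2 + δ ≤ s.re) :
    ‖Lser d s‖ ≤ (1 + 1 / δ) ^ 2 := by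
  unfold Lser
  have hterm : ∀ n : ℕ, ‖(bd d n : ℂ) * (n : ℂ) ^ (-s)‖ ≤
      (tau n : ℝ) ^ 1 * (n : ℝ) ^ (-(1 + δ)) := by
    intro n
    rcases Nat.eq_zero_or_pos n with rfl | hn
    · rw [H5.bd_zero]; simp
    · have hn0 : (0:ℝ) < n := by exact_mod_cast hn
      have hn1 : (1:ℝ) ≤ n := by exact_mod_cast hn
      rw [norm_mul, Complex.norm_natCast_cpow_of_pos hn, Complex.neg_re, Complex.norm_intCast,
        pow_one]
      have h1 := bd_tau d hn.ne'
      calc |(bd d n : ℝ)| * (n : ℝ) ^ (-s.re) ≤ (tau n * √n) * (n : ℝ) ^ (-(3 / 2 + δ)) := by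
            gcongr
        _ = tau n * ((n : ℝ) ^ (1 / 2 : ℝ) * (n : ℝ) ^ (-(3 / 2 + δ))) := by
            rw [Real.sqrt_eq_rpow]; ring
        _ = _ := by
            rw [← Real.rpow_add hn0]
            congr 2
            ring
  have hsum := tau_summable hδ 1
  refine (tsum_of_norm_bounded hsum.hasSum hterm).trans ?_
  refine (tau_tsum_le hδ 1).trans ?_
  have h1 := zs_le hδ
  have h2 := zs_nonneg δ
  have e : 2 ^ 1 = 2 := rfl
  rw [e]
  gcongr

end Pool.Agent.H6
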