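import Mathlib
import Pool.Agent.H6.WinB
import Pool.Agent.H6.LCount
import Pool.Agent.H6.LThreeD

/-!
Counting of bad windows, logarithmic precision.
-/

open Real MeasureTheory Set Filter Topology

namespace Pool.Agent.H6

/-- upper bound in the window -/
def WinU (M : ℝ) (Λ : ℂ → ℂ) (T W : ℝ) (m : ℕ) : Prop :=
  ∀ s : ℂ, 0 ≤ s.re - 1 → s.re - 1 ≤ 1 / 2 + 1 / Real.log T → (m : ℝ) ≤ s.im → s.im ≤ m + 1 →
    ‖Lt M Λ s‖ ≤ Real.exp W

/-- lower bound in the window -/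
def WinL (M : ℝ) (Λ : ℂ → ℂ) (T W η : ℝ) (m : ℕ) : Prop :=
  ∀ s : ℂ, η ≤ s.re - 1 → s.re - 1 ≤ 1 / 2 + 1 / Real.log T → (m : ℝ) ≤ s.im → s.im ≤ m + 1 →
    Real.exp (-W) ≤ ‖Lt M Λ s‖

lemma geom_const {ℓ va : ℝ} (hℓ : 16 ≤ ℓ) (hva : 0 ≤ va) (hva1 : va ≤ 1 / 2 + 1 / ℓ) :
    0 ≤ 4 * (1 / 2 + 1 / ℓ - va + 2 * (1 / ℓ)) / (π * (1 / ℓ) ^ 2) ∧
    4 * (1 / 2 + 1 / ℓ - va + 2 * (1 / ℓ)) / (π * (1 / ℓ) ^ 2) ≤ 2 * ℓ ^ 2 := by
  have hpi := Real.pi_gt_three
  have hℓ0 : 0 < ℓ := by linarith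
  have h1 : 1 / ℓ ≤ 1 / 16 := by
    apply one_div_le_one_div_of_le (by norm_num) hℓ
  have h2 : 0 < 1 / ℓ := by positivity
  have h3 : 0 ≤ 1 / 2 + 1 / ℓ - va + 2 * (1 / ℓ) := by linarith
  constructor
  · positivity
  · calc 4 * (1 / 2 + 1 / ℓ - va + 2 * (1 / ℓ)) / (π * (1 / ℓ) ^ 2)
        ≤ 4 * 1 / (2 * (1 / ℓ) ^ 2) := by
          gcongr
          · linarith
          · linarith
      _ = 2 * ℓ ^ 2 := by field_simp; norm_num

lemma exp_weight {T x : ℝ} (hT : 0 < T) (hx : 0 ≤ x) (hx3 : x ≤ 3 * T) :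
    Real.exp (π * x) ≤ Real.exp 15 *
      (Real.exp ((π / 2 - 1 / T) * x) ^ 2 * Real.exp (-(1 / T ^ 2 * x ^ 2))) := by
  rw [← Real.exp_nat_mul, ← Real.exp_add, ← Real.exp_add]
  apply Real.exp_le_exp.mpr
  have h1 : x / T ≤ 3 := by rw [div_le_iff₀ hT]; exact hx3
  have h2 : 0 ≤ x / T := by positivity
  have e1 : 1 / T ^ 2 * x ^ 2 = (x / T) ^ 2 := by ring
  have e2 : (1 / T) * x = x / T := by ring
  have e3 : ((2:ℕ) : ℝ) * ((π / 2 - 1 / T) * x) = π * x - 2 * (x / T) := by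
    push_cast
    ring
  rw [e1, e3]
  nlinarith

/-- counting the failures of `WinU` -/
lemma count_WinU {d : ℕ} {M : ℝ} {Λ L : ℂ → ℂ} {w : ℂ} (D : FEData M Λ L w) (E : EdData d M Λ) :
    ∃ C : ℝ, 0 ≤ C ∧ ∀ T W q : ℝ, Real.exp 16 ≤ T → 0 ≤ q → ∀ ms : Finset ℕ,
      (∀ m ∈ ms, 1 ≤ m ∧ (m : ℝ) + 2 ≤ 3 * T ∧ T * Real.exp (-q) ≤ m ∧ ¬ WinU M Λ T W m) →
      (ms.card : ℝ) ≤ C * (T * Real.log T ^ 7 * Real.exp (-(2 * W) + 3 * q)) := by
  classical
  obtain ⟨K, hK1, hK⟩ := E.mean_sq_log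
  obtain ⟨c0, hc0, hlow⟩ := gamma_low E.Mpos
  refine ⟨2 * Real.exp 17 * K / c0, by positivity, ?_⟩
  intro T W q hT hq ms hms
  have hT0 : 0 < T := lt_of_lt_of_le (Real.exp_pos _) hT
  have hT1 : 1 ≤ T := (Real.one_le_exp (by norm_num)).trans hT
  set ℓ := Real.log T with hℓ
  have hℓ16 : 16 ≤ ℓ := by rw [hℓ, Real.le_log_iff_exp_le hT0]; exact hT
  have hℓ0 : 0 < ℓ := by linarith
  set ρ : ℝ := 1 / ℓ with hρ
  have hρ0 : 0 < ρ := by positivity
  have hρ1 : ρ ≤ 1 / 16 := one_div_le_one_div_of_le (by norm_num) hℓ16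
  have hTρ : T ^ (2 * ρ) = Real.exp 2 := by
    rw [Real.rpow_def_of_pos hT0, ← hℓ, hρ]
    congr 1
    field_simp
  set G : ℂ → ℂ := fun s => Λ s * Complex.exp (-(Complex.I * (π / 2 * s))) with hG
  have hGn : ∀ s : ℂ, ‖G s‖ ^ 2 = ‖Λ s‖ ^ 2 * Real.exp (π * s.im) := by
    intro s
    simp only [hG]
    rw [norm_mul, mul_pow, norm_phase_sq]
  have hch : ∀ m : ℕ, ∃ v x : ℝ, m ∈ ms → v ∈ Icc 0 (1 / 2 + ρ) ∧ x ∈ Icc (m : ℝ) (m + 1) ∧
      Real.exp W < ‖Lt M Λ (pt x v)‖ := by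
    intro m
    by_cases hm : m ∈ ms
    · have h1 := (hms m hm).2.2.2
      unfold WinU at h1
      push Not at h1
      obtain ⟨s, a1, a2, a3, a4, a5⟩ := h1
      obtain ⟨v, x, h2, h3, h4⟩ := exists_index (P := fun s => Real.exp W < ‖Lt M Λ s‖)
        (va := 0) (vb := 1 / 2 + ρ) m ⟨s, a1, a2, a3, a4, a5⟩
      exact ⟨v, x, fun _ => ⟨h2, h3, h4⟩⟩
    · exact ⟨0, 0, fun h => absurd h hm⟩
  choose vm xm hvx using hch
  set B : ℝ := Real.exp 15 * (K * (T ^ 2 * ℓ ^ 5)) with hBdef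
  have hint : ∀ v : ℝ, 0 ≤ v → 2 * v ≤ 1 + 8 / ℓ → T ^ (-(2 * v)) *
      ∫ x in (0:ℝ)..(3 * T), ‖Λ (((1 + v : ℝ) : ℂ) + x * Complex.I)‖ ^ 2 *
        Real.exp (π * x) ≤ B := by
    intro v hv0 hv1
    obtain ⟨hi, hb⟩ := hK T v hT hv0 hv1
    have h3T : 0 ≤ 3 * T := by positivity
    have h1 : ∫ x in (0:ℝ)..(3 * T), ‖Λ (((1 + v : ℝ) : ℂ) + x * Complex.I)‖ ^ 2 *
        Real.exp (π * x) ≤ Real.exp 15 * (K * (T ^ (2 + 2 * v) * ℓ ^ 5)) := by
      rw [intervalIntegral.integral_of_le h3T]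
      calc ∫ x in Ioc 0 (3 * T), ‖Λ (((1 + v : ℝ) : ℂ) + x * Complex.I)‖ ^ 2 * Real.exp (π * x)
          ≤ ∫ x in Ioc 0 (3 * T), Real.exp 15 * ((‖Λ (((1 + v : ℝ) : ℂ) + x * Complex.I)‖ *
            Real.exp ((π / 2 - 1 / T) * x)) ^ 2 * Real.exp (-(1 / T ^ 2 * x ^ 2))) := by
            apply setIntegral_mono_on _ (hi.const_mul _).integrableOn measurableSet_Ioc
            · intro x hx
              have h2 := exp_weight hT0 hx.1.le hx.2
              calc ‖Λ (((1 + v : ℝ) : ℂ) + x * Complex.I)‖ ^ 2 * Real.exp (π * x)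
                  ≤ ‖Λ (((1 + v : ℝ) : ℂ) + x * Complex.I)‖ ^ 2 * (Real.exp 15 *
                    (Real.exp ((π / 2 - 1 / T) * x) ^ 2 * Real.exp (-(1 / T ^ 2 * x ^ 2)))) := by
                    gcongr
                _ = _ := by ring
            · rw [← integrableOn_Icc_iff_integrableOn_Ioc]
              apply ContinuousOn.integrableOn_Icc
              apply Continuous.continuousOn
              exact ((E.contLine v).norm.pow 2).mul (by fun_prop)
        _ ≤ ∫ x : ℝ, Real.exp 15 * ((‖Λ (((1 + v : ℝ) : ℂ) + x * Complex.I)‖ *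
            Real.exp ((π / 2 - 1 / T) * x)) ^ 2 * Real.exp (-(1 / T ^ 2 * x ^ 2))) := by
            apply setIntegral_le_integral (hi.const_mul _)
            filter_upwards with x
            positivity
        _ ≤ _ := by
            rw [integral_const_mul]
            gcongr
    calc _ ≤ T ^ (-(2 * v)) * (Real.exp 15 * (K * (T ^ (2 + 2 * v) * ℓ ^ 5))) := by gcongr
      _ = Real.exp 15 * (K * ((T ^ (-(2 * v)) * T ^ (2 + 2 * v)) * ℓ ^ 5)) := by ring
      _ = B := by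
          rw [← Real.rpow_add hT0, hBdef]
          have : -(2 * v) + (2 + 2 * v) = ((2:ℕ) : ℝ) := by push_cast; ring
          rw [this, Real.rpow_natCast]
  have hB : ∀ v ∈ Icc (0 - ρ) (1 / 2 + ρ + ρ), T ^ (-(2 * |v|)) *
      ∫ x in (0:ℝ)..(3 * T), ‖G (((1 + v : ℝ) : ℂ) + x * Complex.I)‖ ^ 2 ≤ B := by
    intro v hv
    have h8 : 8 / ℓ = 8 * ρ := by rw [hρ]; ring
    rcases le_total 0 v with h | h
    · rw [abs_of_nonneg h]
      have h1 := hint v h (by rw [h8]; linarith [hv.2])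
      refine le_trans (le_of_eq ?_) h1
      congr 1
      apply intervalIntegral.integral_congr
      intro x _
      simp only
      rw [hGn]
      congr 2
      simp
    · rw [abs_of_nonpos h]
      have h1 := hint (-v) (by linarith) (by rw [h8]; linarith [hv.1])
      refine le_trans (le_of_eq ?_) h1
      congr 1
      apply intervalIntegral.integral_congr
      intro x _
      simp only
      rw [hGn]
      congr 2
      · rw [line_eq_pt, line_eq_pt]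
        have h2 := D.reflect x (-v)
        rw [neg_neg] at h2
        rw [h2, norm_mul, D.norm_w, one_mul, Complex.norm_conj]
      · simp
  have hcount := count_bound (G := G) (va := 0) (vb := 1 / 2 + ρ) (ρ := ρ) (T := T)
    (S := 3 * T) (B := B) hρ0 (by linarith) hT1 (by linarith) (by positivity)
    (fun z _ => by
      apply DifferentiableAt.mul (E.diff z)
      fun_prop) hB ms (fun m hm => ⟨(hms m hm).1, (hms m hm).2.1⟩) vm xm
    (fun m hm => (hvx m hm).1) (fun m hm => (hvx m hm).2.1)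
  obtain ⟨hg0, hg1⟩ := geom_const (ℓ := ℓ) (va := 0) hℓ16 le_rfl (by positivity)
  rw [hTρ] at hcount
  have hterm : ∀ m ∈ ms, c0 * (T * Real.exp (2 * W - 3 * q)) ≤
      T ^ (-(2 * |vm m|)) * ‖G (cpt (vm m, xm m))‖ ^ 2 := by
    intro m hm
    obtain ⟨h1, h2, h3⟩ := hvx m hm
    obtain ⟨g1, g2, g3, g4⟩ := hms m hm
    have hm1 : (1:ℝ) ≤ m := by exact_mod_cast g1
    have hx1 : T * Real.exp (-q) ≤ xm m := g3.trans h2.1
    have hx0 : 0 < xm m := by linarith [h2.1]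
    rw [abs_of_nonneg h1.1, cpt_eq_pt, hGn, Lambda_eq E.Mpos h1.1 Λ, norm_mul, mul_pow]
    have him : (pt (xm m) (vm m)).im = xm m := by simp [pt]
    rw [him]
    have h4 := hlow (xm m) (vm m) (by linarith [h2.1]) h1.1 (by linarith [h1.2])
    have h5 : Real.exp (2 * W) ≤ ‖Lt M Λ (pt (xm m) (vm m))‖ ^ 2 := by
      have : Real.exp (2 * W) = Real.exp W ^ 2 := by
        rw [← Real.exp_nat_mul]; push_cast; ring_nf
      rw [this]
      gcongr
    have h7 : 0 ≤ vm m := h1.1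
    have h8 : 1 + 2 * vm m ≤ 3 := by linarith [h1.2]
    have h6 : T ^ (1 + 2 * vm m) * Real.exp (-(3 * q)) ≤ xm m ^ (1 + 2 * vm m) := by
      calc T ^ (1 + 2 * vm m) * Real.exp (-(3 * q))
          ≤ T ^ (1 + 2 * vm m) * Real.exp (-q) ^ (1 + 2 * vm m) := by
            gcongr
            rw [← Real.exp_mul]
            apply Real.exp_le_exp.mpr
            nlinarith
        _ = (T * Real.exp (-q)) ^ (1 + 2 * vm m) :=
            (Real.mul_rpow hT0.le (Real.exp_pos _).le).symm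
        _ ≤ _ := Real.rpow_le_rpow (by positivity) hx1 (by linarith)
    calc c0 * (T * Real.exp (2 * W - 3 * q))
        = T ^ (-(2 * vm m)) * (Real.exp (2 * W) * (c0 * (T ^ (1 + 2 * vm m) *
          Real.exp (-(3 * q))))) := by
          have e1 : T ^ (-(2 * vm m)) * T ^ (1 + 2 * vm m) = T := by
            rw [← Real.rpow_add hT0]
            have : -(2 * vm m) + (1 + 2 * vm m) = 1 := by ring
            rw [this, Real.rpow_one]
          have e2 : Real.exp (2 * W - 3 * q) = Real.exp (2 * W) * Real.exp (-(3 * q)) := by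
            rw [← Real.exp_add]; ring_nf
          rw [e2]
          linear_combination (-(c0 * Real.exp (2 * W) * Real.exp (-(3 * q)))) * e1
      _ ≤ T ^ (-(2 * vm m)) * (‖Lt M Λ (pt (xm m) (vm m))‖ ^ 2 *
          (‖Gfun M (xm m) (vm m)‖ ^ 2 * Real.exp (π * xm m))) := by
          apply mul_le_mul_of_nonneg_left _ (by positivity)
          apply mul_le_mul h5 _ (by positivity) (by positivity)
          refine le_trans ?_ h4
          gcongr
      _ = _ := by ring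
  have hsum : (ms.card : ℝ) * (c0 * (T * Real.exp (2 * W - 3 * q))) ≤
      (2 * ℓ ^ 2) * Real.exp 2 * B := by
    have h1 := Finset.card_nsmul_le_sum ms (fun m => T ^ (-(2 * |vm m|)) *
      ‖G (cpt (vm m, xm m))‖ ^ 2) _ hterm
    rw [nsmul_eq_mul] at h1
    refine h1.trans (hcount.trans ?_)
    gcongr
  have hpos : 0 < c0 * (T * Real.exp (2 * W - 3 * q)) := by positivity
  rw [← le_div_iff₀ hpos] at hsum
  refine hsum.trans (le_of_eq ?_)
  have e2 : Real.exp (2 * W - 3 * q) = (Real.exp (-(2 * W) + 3 * q))⁻¹ := by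
    rw [← Real.exp_neg]; ring_nf
  have e3 : Real.exp 17 = Real.exp 2 * Real.exp 15 := by rw [← Real.exp_add]; norm_num
  rw [e2, e3, hBdef]
  field_simp

end Pool.Agent.H6
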