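import Mathlib
import Pool.Agent.H6.QWin

/-!
Counting of bad windows, logarithmic precision: the mollifier.
-/

open Real MeasureTheory Set Filter Topology

namespace Pool.Agent.H6

/-- counting the large values of the mollifier -/
lemma count_WinM : ∃ C : ℝ, 0 ≤ C ∧ ∀ (d : ℤ) (T W η : ℝ) (Y : ℕ), Real.exp 16 ≤ T → 1 ≤ Y →
    (Y : ℝ) ^ 2 ≤ T → 1 / Real.log T ≤ η → η ≤ 1 / 2 → ∀ ms : Finset ℕ,
      (∀ m ∈ ms, 1 ≤ m ∧ (m : ℝ) + 2 ≤ 3 * T ∧ ∃ s : ℂ, η ≤ s.re - 1 ∧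
        s.re - 1 ≤ 1 / 2 + 1 / Real.log T ∧ (m : ℝ) ≤ s.im ∧ s.im ≤ m + 1 ∧
        Real.exp W / 2 ≤ ‖mol d Y s‖) →
      (ms.card : ℝ) ≤ C * (T * Real.log T ^ 6 * Real.exp (-(2 * W))) := by
  classical
  obtain ⟨K, hK1, hK⟩ := mol_sq
  refine ⟨8 * Real.exp 11 * K, by positivity, ?_⟩
  intro d T W η Y hT hY hYT hη hη1 ms hms
  have hT0 : 0 < T := lt_of_lt_of_le (Real.exp_pos _) hT
  have hT1 : 1 ≤ T := (Real.one_le_exp (by norm_num)).trans hT
  set ℓ := Real.log T with hℓ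
  have hℓ16 : 16 ≤ ℓ := by rw [hℓ, Real.le_log_iff_exp_le hT0]; exact hT
  have hℓ0 : 0 < ℓ := by linarith
  set ρ : ℝ := 1 / ℓ with hρ
  have hρ0 : 0 < ρ := by positivity
  have hρ1 : ρ ≤ 1 / 16 := one_div_le_one_div_of_le (by norm_num) hℓ16
  have hTρ : T ^ (2 * ρ) = Real.exp 2 := by
    rw [Real.rpow_def_of_pos hT0, ← hℓ, hρ]
    congr 1
    field_simp
  set G : ℂ → ℂ := fun s => mol d Y s * Complex.exp ((s - 1) * ℓ) with hG
  have hGn : ∀ v x : ℝ, ‖G (((1 + v : ℝ) : ℂ) + x * Complex.I)‖ ^ 2 =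
      T ^ (2 * v) * ‖mol d Y (((1 + v : ℝ) : ℂ) + x * Complex.I)‖ ^ 2 := by
    intro v x
    simp only [hG]
    rw [norm_mul, mul_pow, Complex.norm_exp, Complex.re_mul_ofReal]
    have e : ((((1 + v : ℝ) : ℂ) + x * Complex.I) - 1).re = v := by simp
    rw [e, ← Real.exp_nat_mul, Real.rpow_def_of_pos hT0, ← hℓ, mul_comm]
    congr 2
    push_cast
    ring
  have hch : ∀ m : ℕ, ∃ v x : ℝ, m ∈ ms → v ∈ Icc η (1 / 2 + ρ) ∧ x ∈ Icc (m : ℝ) (m + 1) ∧
      Real.exp W / 2 ≤ ‖mol d Y (pt x v)‖ := by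
    intro m
    by_cases hm : m ∈ ms
    · obtain ⟨v, x, h2, h3, h4⟩ := exists_index (P := fun s => Real.exp W / 2 ≤ ‖mol d Y s‖)
        (va := η) (vb := 1 / 2 + ρ) m (hms m hm).2.2
      exact ⟨v, x, fun _ => ⟨h2, h3, h4⟩⟩
    · exact ⟨0, 0, fun h => absurd h hm⟩
  choose vm xm hvx using hch
  set B : ℝ := Real.exp 9 * (K * (T * ℓ ^ 4)) with hBdef
  have hB : ∀ v ∈ Icc (η - ρ) (1 / 2 + ρ + ρ), T ^ (-(2 * |v|)) *
      ∫ x in (0:ℝ)..(3 * T), ‖G (((1 + v : ℝ) : ℂ) + x * Complex.I)‖ ^ 2 ≤ B := by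
    intro v hv
    have hv0 : 0 ≤ v := by linarith [hv.1]
    rw [abs_of_nonneg hv0]
    simp_rw [hGn]
    rw [intervalIntegral.integral_const_mul, ← mul_assoc, ← Real.rpow_add hT0]
    have e0 : -(2 * v) + 2 * v = 0 := by ring
    rw [e0, Real.rpow_zero, one_mul]
    obtain ⟨hi, hb⟩ := hK d T v Y hT hv0 hY hYT
    have h3T : 0 ≤ 3 * T := by positivity
    rw [intervalIntegral.integral_of_le h3T]
    calc ∫ x in Ioc 0 (3 * T), ‖mol d Y (((1 + v : ℝ) : ℂ) + x * Complex.I)‖ ^ 2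
        ≤ ∫ x in Ioc 0 (3 * T), Real.exp 9 * (‖mol d Y (((1 + v : ℝ) : ℂ) + x * Complex.I)‖ ^ 2 *
          Real.exp (-(1 / T ^ 2 * x ^ 2))) := by
          apply setIntegral_mono_on _ (hi.const_mul _).integrableOn measurableSet_Ioc
          · intro x hx
            have h2 : 1 ≤ Real.exp 9 * Real.exp (-(1 / T ^ 2 * x ^ 2)) := by
              rw [← Real.exp_add]
              apply Real.one_le_exp
              have h1 : x / T ≤ 3 := by rw [div_le_iff₀ hT0]; exact hx.2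
              have h2 : 0 ≤ x / T := div_nonneg hx.1.le hT0.le
              have e1 : 1 / T ^ 2 * x ^ 2 = (x / T) ^ 2 := by ring
              rw [e1]
              nlinarith
            have h3 : 0 ≤ ‖mol d Y (((1 + v : ℝ) : ℂ) + x * Complex.I)‖ ^ 2 := by positivity
            nlinarith
          · rw [← integrableOn_Icc_iff_integrableOn_Ioc]
            apply ContinuousOn.integrableOn_Icc
            apply Continuous.continuousOn
            apply Continuous.pow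
            apply Continuous.norm
            exact (differentiable_mol d Y).continuous.comp (by fun_prop)
      _ ≤ ∫ x : ℝ, Real.exp 9 * (‖mol d Y (((1 + v : ℝ) : ℂ) + x * Complex.I)‖ ^ 2 *
          Real.exp (-(1 / T ^ 2 * x ^ 2))) := by
          apply setIntegral_le_integral (hi.const_mul _)
          filter_upwards with x
          positivity
      _ ≤ _ := by
          rw [integral_const_mul, hBdef]
          exact mul_le_mul_of_nonneg_left hb (Real.exp_pos _).le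
  have hcount := count_bound (G := G) (va := η) (vb := 1 / 2 + ρ) (ρ := ρ) (T := T)
    (S := 3 * T) (B := B) hρ0 (by linarith) hT1 (by linarith) (by positivity)
    (fun z _ => by
      apply DifferentiableAt.mul (differentiable_mol d Y z)
      fun_prop) hB ms (fun m hm => ⟨(hms m hm).1, (hms m hm).2.1⟩) vm xm
    (fun m hm => (hvx m hm).1) (fun m hm => (hvx m hm).2.1)
  obtain ⟨hg0, hg1⟩ := geom_const (ℓ := ℓ) (va := η) hℓ16 (by linarith) (by linarith)
  rw [hTρ] at hcount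
  have hterm : ∀ m ∈ ms, Real.exp (2 * W) / 4 ≤
      T ^ (-(2 * |vm m|)) * ‖G (cpt (vm m, xm m))‖ ^ 2 := by
    intro m hm
    obtain ⟨h1, h2, h3⟩ := hvx m hm
    have hv0 : 0 ≤ vm m := by linarith [h1.1]
    have e1 : cpt (vm m, xm m) = ((1 + vm m : ℝ) : ℂ) + xm m * Complex.I := by
      rw [cpt_eq_pt, line_eq_pt]
    rw [abs_of_nonneg hv0, e1, hGn, ← mul_assoc, ← Real.rpow_add hT0]
    have e0 : -(2 * vm m) + 2 * vm m = 0 := by ring
    rw [e0, Real.rpow_zero, one_mul, line_eq_pt]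
    have e2 : Real.exp (2 * W) / 4 = (Real.exp W / 2) ^ 2 := by
      rw [div_pow, ← Real.exp_nat_mul]; push_cast; norm_num
    rw [e2]
    gcongr
  have hsum : (ms.card : ℝ) * (Real.exp (2 * W) / 4) ≤ (2 * ℓ ^ 2) * Real.exp 2 * B := by
    have h1 := Finset.card_nsmul_le_sum ms (fun m => T ^ (-(2 * |vm m|)) *
      ‖G (cpt (vm m, xm m))‖ ^ 2) _ hterm
    rw [nsmul_eq_mul] at h1
    refine h1.trans (hcount.trans ?_)
    gcongr
  have hpos : 0 < Real.exp (2 * W) / 4 := by positivity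
  rw [← le_div_iff₀ hpos] at hsum
  refine hsum.trans (le_of_eq ?_)
  have e3 : Real.exp 11 = Real.exp 2 * Real.exp 9 := by rw [← Real.exp_add]; norm_num
  rw [Real.exp_neg, e3, hBdef]
  field_simp
  ring

/-- counting the failures of the mollification -/
lemma count_WinN {d : ℕ} {M : ℝ} {Λ : ℂ → ℂ} (E : EdData d M Λ) :
    ∃ C : ℝ, 0 ≤ C ∧ ∀ T q η : ℝ, Real.exp 16 ≤ T → 0 ≤ q → 1 / Real.log T ≤ η → η ≤ 1 / 2 →
    ∀ ms : Finset ℕ,
      (∀ m ∈ ms, 1 ≤ m ∧ (m : ℝ) + 2 ≤ 3 * T ∧ T * Real.exp (-q) ≤ m ∧ ∃ s : ℂ, η ≤ s.re - 1 ∧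
        s.re - 1 ≤ 1 / 2 + 1 / Real.log T ∧ (m : ℝ) ≤ s.im ∧ s.im ≤ m + 1 ∧
        1 / 2 * ‖(M : ℂ) ^ s * Complex.Gamma s‖ ≤ ‖molA (d : ℤ) ⌊√T⌋₊ M Λ s‖) →
      (ms.card : ℝ) ≤ C * (T * Real.log T ^ 10 * Real.exp (-(η * Real.log T / 4) + 2 * q)) := by
  classical
  obtain ⟨K, hK1, hK⟩ := E.molA_l1
  obtain ⟨c0, hc0, hlow⟩ := gamma_low E.Mpos
  have hM := E.Mpos
  refine ⟨16 * Real.exp 1 * K / √c0, by positivity, ?_⟩
  intro T q η hT hq hη hη1 ms hms
  have hT0 : 0 < T := lt_of_lt_of_le (Real.exp_pos _) hT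
  have hT1 : 1 ≤ T := (Real.one_le_exp (by norm_num)).trans hT
  set ℓ := Real.log T with hℓ
  have hℓ16 : 16 ≤ ℓ := by rw [hℓ, Real.le_log_iff_exp_le hT0]; exact hT
  have hℓ0 : 0 < ℓ := by linarith
  set ρ : ℝ := 1 / ℓ with hρ
  have hρ0 : 0 < ρ := by positivity
  have hρ1 : ρ ≤ 1 / 16 := one_div_le_one_div_of_le (by norm_num) hℓ16
  have hρℓ : ρ * ℓ = 1 := by rw [hρ]; field_simp
  have hTρ : T ^ ρ = Real.exp 1 := by
    rw [Real.rpow_def_of_pos hT0, ← hℓ, mul_comm, hρℓ]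
  have hT16 : 16 ≤ T := by
    have := Real.add_one_le_exp (16:ℝ)
    linarith
  have hsq : 4 ≤ √T := by
    apply Real.le_sqrt_of_sq_le
    linarith
  set Y : ℕ := ⌊√T⌋₊ with hY
  have hY1 : (Y : ℝ) ≤ √T := Nat.floor_le (by positivity)
  have hY2 : √T / 2 ≤ Y := by
    have := Nat.lt_floor_add_one (√T)
    rw [← hY] at this
    linarith
  have hYpos : 1 ≤ Y := by
    have : (1:ℝ) ≤ Y := by linarith
    exact_mod_cast this
  have hYT : (Y : ℝ) ^ 2 ≤ T := by
    calc (Y : ℝ) ^ 2 ≤ √T ^ 2 := by gcongr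
      _ = T := Real.sq_sqrt hT0.le
  set G : ℂ → ℂ := fun s => molA (d : ℤ) Y M Λ s * Complex.exp (-(Complex.I * (π / 2 * s))) with hG
  have hGn : ∀ s : ℂ, ‖G s‖ = ‖molA (d : ℤ) Y M Λ s‖ * Real.exp (π / 2 * s.im) := by
    intro s
    simp only [hG]
    rw [norm_mul, norm_phase']
  have hch : ∀ m : ℕ, ∃ v x : ℝ, m ∈ ms → v ∈ Icc η (1 / 2 + ρ) ∧ x ∈ Icc (m : ℝ) (m + 1) ∧
      1 / 2 * ‖(M : ℂ) ^ (pt x v) * Complex.Gamma (pt x v)‖ ≤ ‖molA (d : ℤ) Y M Λ (pt x v)‖ := by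
    intro m
    by_cases hm : m ∈ ms
    · obtain ⟨v, x, h2, h3, h4⟩ := exists_index (P := fun s =>
        1 / 2 * ‖(M : ℂ) ^ s * Complex.Gamma s‖ ≤ ‖molA (d : ℤ) Y M Λ s‖)
        (va := η) (vb := 1 / 2 + ρ) m (hms m hm).2.2.2
      exact ⟨v, x, fun _ => ⟨h2, h3, h4⟩⟩
    · exact ⟨0, 0, fun h => absurd h hm⟩
  choose vm xm hvx using hch
  set B : ℝ := 4 * K * (T ^ (3 / 2 : ℝ) * ℓ ^ 8 * Real.exp (-(η * ℓ / 4))) with hBdef
  have hB : ∀ v ∈ Icc (η - ρ) (1 / 2 + ρ + ρ), T ^ (-|v|) *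
      ∫ x in (0:ℝ)..(3 * T), ‖G (((1 + v : ℝ) : ℂ) + x * Complex.I)‖ ≤ B := by
    intro v hv
    have hv0 : 0 ≤ v := by linarith [hv.1]
    rw [abs_of_nonneg hv0]
    have h1 := hK T v (3 * T) Y hT hYpos hYT hv0 (by linarith [hv.2]) (by positivity) le_rfl
    have h2 : ∫ x in (0:ℝ)..(3 * T), ‖G (((1 + v : ℝ) : ℂ) + x * Complex.I)‖ ≤
        K * (T ^ (3 / 2 + v) * ℓ ^ 8 * (Y : ℝ) ^ (-(v / 2))) := by
      refine le_trans (le_of_eq ?_) h1
      apply intervalIntegral.integral_congr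
      intro x _
      simp only
      rw [hGn]
      congr 2
      simp
    have h3 : (Y : ℝ) ^ (-(v / 2)) ≤ 4 * Real.exp (-(η * ℓ / 4)) := by
      calc (Y : ℝ) ^ (-(v / 2)) ≤ (√T / 2) ^ (-(v / 2)) := by
            apply Real.rpow_le_rpow_of_nonpos (by positivity) hY2 (by linarith)
        _ = T ^ (-(v / 4)) * (2:ℝ) ^ (v / 2) := by
            rw [Real.div_rpow (by positivity) (by norm_num), Real.rpow_neg (by norm_num : (0:ℝ) ≤ 2),
              div_inv_eq_mul, Real.sqrt_eq_rpow, ← Real.rpow_mul hT0.le]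
            congr 2
            ring
        _ ≤ (2 * Real.exp (-(η * ℓ / 4))) * 2 := by
            gcongr
            · rw [Real.rpow_def_of_pos hT0, ← hℓ]
              have h4 : Real.log 2 ≥ 0.6931471803 := Real.log_two_gt_d9.le
              calc Real.exp (ℓ * -(v / 4)) ≤ Real.exp (Real.log 2 + -(η * ℓ / 4)) := by
                    apply Real.exp_le_exp.mpr
                    have h5 : (η - ρ) * ℓ ≤ v * ℓ := by
                      gcongr
                      exact hv.1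
                    have h6 : (η - ρ) * ℓ = η * ℓ - 1 := by rw [sub_mul, hρℓ]
                    rw [h6] at h5
                    linarith
                _ = 2 * Real.exp (-(η * ℓ / 4)) := by
                    rw [Real.exp_add, Real.exp_log (by norm_num)]
            · calc (2:ℝ) ^ (v / 2) ≤ (2:ℝ) ^ (1:ℝ) := by
                    apply Real.rpow_le_rpow_of_exponent_le (by norm_num)
                    linarith [hv.2]
                _ = 2 := Real.rpow_one 2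
        _ = _ := by ring
    calc T ^ (-v) * ∫ x in (0:ℝ)..(3 * T), ‖G (((1 + v : ℝ) : ℂ) + x * Complex.I)‖
        ≤ T ^ (-v) * (K * (T ^ (3 / 2 + v) * ℓ ^ 8 * (4 * Real.exp (-(η * ℓ / 4))))) := by
          gcongr
          refine h2.trans ?_
          gcongr
      _ = 4 * K * ((T ^ (-v) * T ^ (3 / 2 + v)) * ℓ ^ 8 * Real.exp (-(η * ℓ / 4))) := by ring
      _ = B := by
          rw [← Real.rpow_add hT0, hBdef]
          have : -v + (3 / 2 + v) = 3 / 2 := by ring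
          rw [this]
  have hcount := count_bound1 (G := G) (va := η) (vb := 1 / 2 + ρ) (ρ := ρ) (T := T)
    (S := 3 * T) (B := B) hρ0 (by linarith) hT1 (by linarith) (by positivity)
    (fun z hz => by
      apply DifferentiableAt.mul (molA_diffAt (d : ℤ) Y hM E.diff (by linarith))
      fun_prop) hB ms (fun m hm => ⟨(hms m hm).1, (hms m hm).2.1⟩) vm xm
    (fun m hm => (hvx m hm).1) (fun m hm => (hvx m hm).2.1)
  obtain ⟨hg0, hg1⟩ := geom_const (ℓ := ℓ) (va := η) hℓ16 (by linarith) (by linarith)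
  rw [hTρ] at hcount
  have hterm : ∀ m ∈ ms, √c0 / 2 * (√T * Real.exp (-(2 * q))) ≤
      T ^ (-|vm m|) * ‖G (cpt (vm m, xm m))‖ := by
    intro m hm
    obtain ⟨h1, h2, h3⟩ := hvx m hm
    obtain ⟨g1, g2, g3, g4⟩ := hms m hm
    have hv0 : 0 ≤ vm m := by linarith [h1.1]
    have hm1 : (1:ℝ) ≤ m := by exact_mod_cast g1
    have hx1 : T * Real.exp (-q) ≤ xm m := g3.trans h2.1
    have hx0 : 0 < xm m := by linarith [h2.1]
    rw [abs_of_nonneg hv0, cpt_eq_pt, hGn]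
    have him : (pt (xm m) (vm m)).im = xm m := by simp [pt]
    rw [him]
    have h4 := hlow (xm m) (vm m) (by linarith [h2.1]) hv0 (by linarith [h1.2])
    have h5 : √c0 * xm m ^ (1 / 2 + vm m) ≤ ‖Gfun M (xm m) (vm m)‖ * Real.exp (π / 2 * xm m) := by
      apply (pow_le_pow_iff_left₀ (by positivity) (by positivity) two_ne_zero).mp
      rw [mul_pow, mul_pow, Real.sq_sqrt hc0.le, ← Real.rpow_natCast (xm m ^ _) 2,
        ← Real.rpow_mul hx0.le, ← Real.exp_nat_mul]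
      have e1 : (1 / 2 + vm m) * ((2:ℕ) : ℝ) = 1 + 2 * vm m := by push_cast; ring
      have e2 : ((2:ℕ) : ℝ) * (π / 2 * xm m) = π * xm m := by push_cast; ring
      rw [e1, e2]
      exact h4
    have h6 : T ^ (1 / 2 + vm m) * Real.exp (-(2 * q)) ≤ xm m ^ (1 / 2 + vm m) := by
      calc T ^ (1 / 2 + vm m) * Real.exp (-(2 * q))
          ≤ T ^ (1 / 2 + vm m) * Real.exp (-q) ^ (1 / 2 + vm m) := by
            gcongr
            rw [← Real.exp_mul]
            apply Real.exp_le_exp.mpr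
            have : 1 / 2 + vm m ≤ 2 := by linarith [h1.2]
            nlinarith
        _ = (T * Real.exp (-q)) ^ (1 / 2 + vm m) :=
            (Real.mul_rpow hT0.le (Real.exp_pos _).le).symm
        _ ≤ _ := Real.rpow_le_rpow (by positivity) hx1 (by linarith)
    have h7 : ‖Gfun M (xm m) (vm m)‖ =
        ‖(M : ℂ) ^ (pt (xm m) (vm m)) * Complex.Gamma (pt (xm m) (vm m))‖ := rfl
    rw [← h7] at h3
    calc √c0 / 2 * (√T * Real.exp (-(2 * q)))
        = T ^ (-vm m) * (1 / 2 * (√c0 * (T ^ (1 / 2 + vm m) * Real.exp (-(2 * q))))) := by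
          have e1 : T ^ (-vm m) * T ^ (1 / 2 + vm m) = √T := by
            rw [← Real.rpow_add hT0, Real.sqrt_eq_rpow]
            congr 1
            ring
          linear_combination (-(√c0 / 2 * Real.exp (-(2 * q)))) * e1
      _ ≤ T ^ (-vm m) * (1 / 2 * (‖Gfun M (xm m) (vm m)‖ * Real.exp (π / 2 * xm m))) := by
          apply mul_le_mul_of_nonneg_left _ (by positivity)
          apply mul_le_mul_of_nonneg_left _ (by norm_num)
          refine le_trans ?_ h5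
          gcongr
      _ = T ^ (-vm m) * (1 / 2 * ‖Gfun M (xm m) (vm m)‖ * Real.exp (π / 2 * xm m)) := by ring
      _ ≤ _ := by gcongr
  have hsum : (ms.card : ℝ) * (√c0 / 2 * (√T * Real.exp (-(2 * q)))) ≤
      (2 * ℓ ^ 2) * Real.exp 1 * B := by
    have h1 := Finset.card_nsmul_le_sum ms (fun m => T ^ (-|vm m|) *
      ‖G (cpt (vm m, xm m))‖) _ hterm
    rw [nsmul_eq_mul] at h1
    refine h1.trans (hcount.trans ?_)
    gcongr
  have hsc : 0 < √c0 := Real.sqrt_pos.mpr hc0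
  have hpos : 0 < √c0 / 2 * (√T * Real.exp (-(2 * q))) := by positivity
  rw [← le_div_iff₀ hpos] at hsum
  refine hsum.trans (le_of_eq ?_)
  have e2 : Real.exp (-(η * ℓ / 4) + 2 * q) = Real.exp (-(η * ℓ / 4)) * (Real.exp (-(2 * q)))⁻¹ := by
    rw [← Real.exp_neg, ← Real.exp_add]; ring_nf
  have e3 : T ^ (3 / 2 : ℝ) = T * √T := by
    rw [Real.sqrt_eq_rpow]
    nth_rewrite 2 [← Real.rpow_one T]
    rw [← Real.rpow_add hT0]
    norm_num
  rw [e2, hBdef, e3]
  field_simp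
  ring

end Pool.Agent.H6
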