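import Mathlib
import Pool.Agent.H6.QWinB
import Pool.Agent.H6.QEdge
import Pool.Agent.H6.QBC
import Pool.Agent.H6.EdSharp

/-!
Density theorem for the zeros of the heat flow deformation, natural time scale.
-/

open Real MeasureTheory Set Filter Topology

namespace Pool.Agent.H6

open Pool.Agent.H5 (Lser)

/-- the good windows -/
def GoodAt (τ : ℝ) (Λ : ℂ → ℂ) (m : ℕ) : Prop :=
  ∀ t : ℝ, τ ≤ t → t ≤ 1 / 8 → ∀ s : ℂ, (m : ℝ) ≤ s.im → s.im ≤ m + 1 →
    heatInt t Λ s = 0 → s.re = 1 ∧ deriv (heatInt t Λ) s ≠ 0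

/-- failure of the lower bound -/
lemma not_WinL {d : ℤ} {M : ℝ} {Λ : ℂ → ℂ} (hM : 0 < M) {T W η : ℝ} (hη : 0 ≤ η) (Y : ℕ) {m : ℕ}
    (h : ¬ WinL M Λ T W η m) :
    (∃ s : ℂ, η ≤ s.re - 1 ∧ s.re - 1 ≤ 1 / 2 + 1 / Real.log T ∧ (m : ℝ) ≤ s.im ∧ s.im ≤ m + 1 ∧
        Real.exp W / 2 ≤ ‖mol d Y s‖) ∨
    (∃ s : ℂ, η ≤ s.re - 1 ∧ s.re - 1 ≤ 1 / 2 + 1 / Real.log T ∧ (m : ℝ) ≤ s.im ∧ s.im ≤ m + 1 ∧
        1 / 2 * ‖(M : ℂ) ^ s * Complex.Gamma s‖ ≤ ‖molA d Y M Λ s‖) := by
  unfold WinL at h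
  push Not at h
  obtain ⟨s, h1, h2, h3, h4, h5⟩ := h
  rcases le_or_gt (Real.exp W / 2) ‖mol d Y s‖ with h6 | h6
  · exact Or.inl ⟨s, h1, h2, h3, h4, h6⟩
  · right
    refine ⟨s, h1, h2, h3, h4, ?_⟩
    have hM' : (M : ℂ) ≠ 0 := by exact_mod_cast hM.ne'
    have hne : (M : ℂ) ^ s * Complex.Gamma s ≠ 0 := by
      apply mul_ne_zero
      · rw [Complex.cpow_ne_zero_iff]; left; exact hM'
      · apply Complex.Gamma_ne_zero_of_re_pos; linarith
    have hΛ : Λ s = ((M : ℂ) ^ s * Complex.Gamma s) * Lt M Λ s := by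
      unfold Lt
      exact (mul_div_cancel₀ _ hne).symm
    have e1 : molA d Y M Λ s = ((M : ℂ) ^ s * Complex.Gamma s) * (mol d Y s * Lt M Λ s - 1) := by
      unfold molA
      rw [hΛ]
      ring
    rw [e1, norm_mul ((M : ℂ) ^ s * Complex.Gamma s) (mol d Y s * Lt M Λ s - 1), mul_comm (1 / 2)]
    apply mul_le_mul_of_nonneg_left _ (norm_nonneg _)
    have h7 : ‖mol d Y s * Lt M Λ s‖ ≤ 1 / 2 := by
      rw [norm_mul]
      calc ‖mol d Y s‖ * ‖Lt M Λ s‖ ≤ (Real.exp W / 2) * Real.exp (-W) := by gcongr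
        _ = (Real.exp W * Real.exp (-W)) / 2 := by ring
        _ = 1 / 2 := by rw [← Real.exp_add]; simp
    have h8 := norm_sub_norm_le (1 : ℂ) (mol d Y s * Lt M Λ s)
    rw [norm_one, norm_sub_rev] at h8
    linarith

/-- smallness at the natural time scale -/
lemma smallS_nat {t ℓ : ℝ} (ht : 0 < t) (hℓ : 200 ≤ ℓ) (htℓ : t * ℓ ≤ 2)
    (hE : 5000 * Real.log ℓ ≤ t * ℓ ^ 2) : SmallS (t * ℓ / 3) t := by
  have hℓ0 : 0 < ℓ := by linarith
  have hlog : 1 ≤ Real.log ℓ := by
    rw [Real.le_log_iff_exp_le hℓ0]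
    have := Real.exp_one_lt_d9
    linarith
  have hst0 : 0 < √t := Real.sqrt_pos.mpr ht
  have hst2 : √t * √t = t := Real.mul_self_sqrt ht.le
  have hy : 70 ≤ √t * ℓ := by
    by_contra hcon
    push Not at hcon
    have h1 : 0 ≤ √t * ℓ := by positivity
    have h2 : (√t * ℓ) ^ 2 < 70 ^ 2 := by
      apply pow_lt_pow_left₀ hcon h1 (by norm_num)
    have h3 : (√t * ℓ) ^ 2 = t * ℓ ^ 2 := by
      rw [mul_pow, sq (√t), hst2]
    rw [h3] at h2
    linarith
  have hS : 3.5 * √t ≤ √(4 * π * t) := by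
    apply Real.le_sqrt_of_sq_le
    have hpi := Real.pi_gt_d4
    rw [mul_pow, sq (√t), hst2]
    nlinarith
  refine ⟨?_, ?_, ?_⟩
  · nlinarith
  · have e1 : (t * ℓ / 3) ^ 2 / (64 * t) = t * ℓ ^ 2 / 576 := by
      field_simp
      norm_num
    have h1 : Real.exp (-(t * ℓ ^ 2 / 576)) ≤ 1 / ℓ ^ 8 := by
      calc Real.exp (-(t * ℓ ^ 2 / 576)) ≤ Real.exp (-(8 * Real.log ℓ)) := by
            apply Real.exp_le_exp.mpr
            linarith
        _ = 1 / ℓ ^ 8 := by
            have e2 : 8 * Real.log ℓ = Real.log (ℓ ^ 8) := by rw [Real.log_pow]; norm_num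
            rw [e2, Real.exp_neg, Real.exp_log (by positivity), one_div]
    have h2 : 1 + 1 / (t * ℓ / 3) ≤ 4 * ℓ := by
      have h3 : 1 / (t * ℓ / 3) ≤ 3 * ℓ := by
        rw [div_le_iff₀ (by positivity)]
        nlinarith
      linarith
    rw [e1]
    calc 28 * (1 + 1 / (t * ℓ / 3)) * Real.exp (-(t * ℓ ^ 2 / 576))
        ≤ 28 * (4 * ℓ) * (1 / ℓ ^ 8) := by gcongr
      _ = 112 / ℓ ^ 6 * (1 / ℓ) := by field_simp; norm_num
      _ ≤ 1 / 10 * (1 / ℓ) := by
          apply mul_le_mul_of_nonneg_right _ (by positivity)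
          rw [div_le_div_iff₀ (by positivity) (by norm_num)]
          have h4 : (200:ℝ) ^ 6 ≤ ℓ ^ 6 := by gcongr
          nlinarith
      _ ≤ 1 / 10 * (√t / 70) := by
          apply mul_le_mul_of_nonneg_left _ (by norm_num)
          rw [div_le_div_iff₀ hℓ0 (by norm_num)]
          linarith
      _ ≤ 3.5 * √t / 16 := by linarith
      _ ≤ √(4 * π * t) / 16 := by gcongr
  · calc 32 * t / 7 = (32 * t / 7) * 1 := by ring
      _ ≤ (32 * t / 7) * (√t * ℓ / 70) := by
          gcongr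
          rw [le_div_iff₀ (by norm_num)]
          linarith
      _ ≤ 3 / 16 * (t * ℓ / 3) * (3.5 * √t) := by
          have : 0 < t * (√t * ℓ) := by positivity
          nlinarith
      _ ≤ _ := by gcongr

/-- the density exponent -/
noncomputable def kap : ℝ := 1 / 1179648

theorem goodAt_of {d : ℤ} {M : ℝ} {Λ : ℂ → ℂ} {w : ℂ} (D : FEData M Λ (Lser d) w)
    (hΛ : ∀ s : ℂ, 3 / 2 < s.re → Λ s = (M : ℂ) ^ s * Complex.Gamma s * Lser d s) :
    ∃ ℓ1 : ℝ, 200 ≤ ℓ1 ∧ ∀ T τ : ℝ, Real.exp ℓ1 ≤ T → τ * Real.log T ≤ 1 →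
      4 / kap * Real.log (Real.log T) ≤ τ * Real.log T ^ 2 → ∀ m : ℕ,
      T * Real.exp (-(kap / 3 * (τ * Real.log T ^ 2))) + 3 ≤ m →
      (∀ j : ℕ, j < 7 → WinU M Λ T (kap * (τ * Real.log T ^ 2)) (m + j - 3) ∧
        WinL M Λ T (kap * (τ * Real.log T ^ 2)) (τ * Real.log T / 24) (m + j - 3)) →
      GoodAt τ Λ m := by
  have hM := D.M_pos
  obtain ⟨Q0, -, hQ0⟩ := exists_sharp (ε := 1) one_pos
  set ℓ1 : ℝ := 10 / 3 * |2 - Real.log M| + |Q0| + 200 with hℓ1
  have a4 : 0 ≤ 10 / 3 * |2 - Real.log M| := by positivity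
  have a5 : 0 ≤ |Q0| := abs_nonneg _
  refine ⟨ℓ1, by linarith, ?_⟩
  intro T τ hT hτ1 hτE m hm hgood t htτ ht8 s hms hsm hs
  have hT0 : 0 < T := lt_of_lt_of_le (Real.exp_pos _) hT
  set ℓ := Real.log T with hℓ
  have hℓℓ : ℓ1 ≤ ℓ := by rw [hℓ, Real.le_log_iff_exp_le hT0]; exact hT
  have hℓ200 : 200 ≤ ℓ := by linarith
  have hℓ0 : 0 < ℓ := by linarith
  have hT1 : 1 ≤ T := by
    have := Real.add_one_le_exp ℓ1
    linarith
  have hloglog : 1 ≤ Real.log ℓ := by
    rw [Real.le_log_iff_exp_le hℓ0]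
    have := Real.exp_one_lt_d9
    linarith
  set E : ℝ := τ * ℓ ^ 2 with hE
  have hkap : kap = 1 / 1179648 := rfl
  have hkap0 : 0 < kap := by rw [hkap]; norm_num
  have hElog : 4 * Real.log ℓ ≤ kap * E := by
    calc 4 * Real.log ℓ = kap * (4 / kap * Real.log ℓ) := by field_simp
      _ ≤ kap * E := by gcongr
  have hE0 : 0 < E := by
    have h1 : 0 < kap * E := by linarith
    exact pos_of_mul_pos_right h1 hkap0.le
  have hτ0 : 0 < τ := by
    rw [hE] at hE0
    exact pos_of_mul_pos_left hE0 (by positivity)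
  have hEℓ : E ≤ ℓ := by
    calc E = (τ * ℓ) * ℓ := by rw [hE]; ring
      _ ≤ 1 * ℓ := by gcongr
      _ = ℓ := one_mul ℓ
  have ht : 0 < t := lt_of_lt_of_le hτ0 htτ
  set q : ℝ := kap / 3 * E with hq
  have hqℓ : q ≤ ℓ / 5 := by
    rw [hq, hkap]
    linarith
  have hTpos : 0 < T * Real.exp (-q) := by positivity
  have hm3 : (3:ℝ) ≤ m := by linarith
  have hm3' : 3 ≤ m := by exact_mod_cast hm3
  have hx : T * Real.exp (-q) ≤ s.im := by linarith
  have hx0 : 0 < s.im := by linarith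
  have hlogx : 4 / 5 * ℓ ≤ Real.log s.im := by
    have h1 : Real.log (T * Real.exp (-q)) ≤ Real.log s.im := Real.log_le_log hTpos hx
    rw [Real.log_mul hT0.ne' (Real.exp_pos _).ne', Real.log_exp] at h1
    linarith
  have hMlog : 2 - Real.log M ≤ 3 / 10 * ℓ := by
    have := le_abs_self (2 - Real.log M)
    linarith
  have hpt : s.im ≤ ‖pt s.im 0‖ := by
    have := Complex.abs_im_le_norm (pt s.im 0)
    have e2 : (pt s.im 0).im = s.im := by simp [pt]
    rw [e2, abs_of_pos hx0] at this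
    exact this
  have hlam : ℓ / 2 ≤ Real.log (M * ‖pt s.im 0‖) - 2 := by
    rw [Real.log_mul hM.ne' (by linarith)]
    have : Real.log s.im ≤ Real.log ‖pt s.im 0‖ := Real.log_le_log hx0 hpt
    linarith
  rcases le_total (2 / ℓ) t with hbig | hsmall
  · -- large t
    have hpos : (0:ℝ) < (2 * π * M) ^ 2 * (1 + |s.im|) ^ 2 := by positivity
    have hlogQ : ℓ ≤ Real.log ((2 * π * M) ^ 2 * (1 + |s.im|) ^ 2) := by
      rw [abs_of_pos hx0]
      have h1 : (M * s.im) ^ 2 ≤ (2 * π * M) ^ 2 * (1 + s.im) ^ 2 := by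
        rw [← mul_pow]
        apply pow_le_pow_left₀ (by positivity)
        have hpi := Real.pi_gt_three
        have h2 : M ≤ 2 * π * M := by nlinarith
        calc M * s.im ≤ (2 * π * M) * s.im := by gcongr
          _ ≤ (2 * π * M) * (1 + s.im) := by
            gcongr
            linarith
      have h2 := Real.log_le_log (by positivity) h1
      rw [Real.log_pow, Real.log_mul hM.ne' hx0.ne'] at h2
      push_cast at h2
      linarith
    have hconc := hQ0 d M Λ w D hΛ t s.im ht ht8 (by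
      have h3 : Real.exp ℓ ≤ (2 * π * M) ^ 2 * (1 + |s.im|) ^ 2 := by
        rw [Real.le_log_iff_exp_le hpos] at hlogQ
        exact hlogQ
      have h4 := Real.add_one_le_exp ℓ
      have h5 := le_abs_self Q0
      linarith) (by
      calc (1:ℝ) + 1 = 2 / ℓ * ℓ := by field_simp; norm_num
        _ ≤ t * Real.log ((2 * π * M) ^ 2 * (1 + |s.im|) ^ 2) := by gcongr)
    exact ⟨D.zero_re_of_conc ht ht8 hs hconc, D.zero_simple_of_conc ht ht8 hs hconc⟩
  · -- small t
    have htℓ : t * ℓ ≤ 2 := by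
      rw [le_div_iff₀ hℓ0] at hsmall
      exact hsmall
    have hEt : E ≤ t * ℓ ^ 2 := by
      rw [hE]
      gcongr
    set γ : ℝ := t * ℓ / 3 with hγ
    have hγ0 : 0 < γ := by positivity
    have hγ1 : γ ≤ 1 := by rw [hγ]; linarith
    have hSS : SmallS γ t := by
      apply smallS_nat ht hℓ200 htℓ
      refine le_trans ?_ hEt
      rw [hkap] at hElog
      linarith
    have hγτ : τ * ℓ / 24 ≤ γ / 8 := by
      rw [hγ]
      have : τ * ℓ ≤ t * ℓ := by gcongr
      linarith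
    have hLt : ∀ z : ℂ, 3 / 2 + 1 / ℓ ≤ z.re → Lt M Λ z = Lser d z := by
      intro z hz
      have h1 : 0 < 1 / ℓ := by positivity
      unfold Lt
      have hM' : (M : ℂ) ≠ 0 := by exact_mod_cast hM.ne'
      have h2 : (M : ℂ) ^ z * Complex.Gamma z ≠ 0 := by
        apply mul_ne_zero
        · rw [Complex.cpow_ne_zero_iff]; left; exact hM'
        · apply Complex.Gamma_ne_zero_of_re_pos; linarith
      rw [hΛ z (by linarith), mul_div_cancel_left₀ _ h2]
    have hedge : (1 + 1 / (1 / ℓ)) ^ 2 ≤ Real.exp (kap * E) := by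
      calc (1 + 1 / (1 / ℓ)) ^ 2 = (1 + ℓ) ^ 2 := by rw [one_div_one_div]
        _ ≤ (ℓ ^ 2) ^ 2 := by
            gcongr
            nlinarith
        _ = Real.exp (4 * Real.log ℓ) := by
            have e2 : 4 * Real.log ℓ = Real.log (ℓ ^ 4) := by rw [Real.log_pow]; norm_num
            rw [e2, Real.exp_log (by positivity)]
            ring
        _ ≤ _ := Real.exp_le_exp.mpr hElog
    have hup' : ∀ z : ℂ, 3 / 2 + 1 / ℓ ≤ z.re → ‖Lt M Λ z‖ ≤ Real.exp (kap * E) := by
      intro z hz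
      rw [hLt z hz]
      exact (edge_upper d (by positivity) hz).trans hedge
    have hlow' : ∀ z : ℂ, 3 / 2 + 1 / ℓ ≤ z.re → Real.exp (-(kap * E)) ≤ ‖Lt M Λ z‖ := by
      intro z hz
      rw [hLt z hz]
      refine le_trans ?_ (edge_lower d (by positivity) hz)
      rw [Real.exp_neg, ← one_div]
      apply one_div_le_one_div_of_le (by positivity) hedge
    -- the window containing a given height
    have hwin : ∀ y : ℝ, |y - s.im| ≤ 3 → ∃ j : ℕ, j < 7 ∧ ((m + j - 3 : ℕ) : ℝ) ≤ y ∧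
        y ≤ ((m + j - 3 : ℕ) : ℝ) + 1 := by
      intro y hy
      have hy1 := abs_le.mp hy
      have hlo : ((m - 3 : ℕ) : ℝ) ≤ y := by
        rw [Nat.cast_sub hm3']
        push_cast
        linarith [hy1.1]
      have hy0 : 0 ≤ y := le_trans (Nat.cast_nonneg _) hlo
      rcases lt_or_ge y (m + 4) with h | h
      · refine ⟨⌊y⌋₊ - (m - 3), ?_, ?_, ?_⟩
        · have h1 : ⌊y⌋₊ < m + 4 := by
            rw [Nat.floor_lt hy0]
            push_cast
            exact h
          omega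
        · have h2 : m - 3 ≤ ⌊y⌋₊ := Nat.le_floor hlo
          have h3 : m + (⌊y⌋₊ - (m - 3)) - 3 = ⌊y⌋₊ := by omega
          rw [h3]
          exact Nat.floor_le hy0
        · have h2 : m - 3 ≤ ⌊y⌋₊ := Nat.le_floor hlo
          have h3 : m + (⌊y⌋₊ - (m - 3)) - 3 = ⌊y⌋₊ := by omega
          rw [h3]
          exact (Nat.lt_floor_add_one y).le
      · refine ⟨6, by norm_num, ?_, ?_⟩
        · have h3 : m + 6 - 3 = m + 3 := by omega
          rw [h3]
          push_cast
          linarith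
        · have h3 : m + 6 - 3 = m + 3 := by omega
          rw [h3]
          push_cast
          linarith [hy1.2]
    have hr0 : 0 < γ / 16 := by positivity
    have G := goodQ_of_window (x := s.im) hM D.diff (a := γ / 4) (r := γ / 16) (W := kap * E) hr0
      (by linarith) (by linarith) (by positivity)
      (by
        intro z hz hzi
        rcases le_total (z.re - 1) (1 / 2 + 1 / ℓ) with h | h
        · obtain ⟨j, hj, h1, h2⟩ := hwin z.im hzi
          exact (hgood j hj).1 z (by linarith) h h1 h2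
        · exact hup' z (by linarith))
      (by
        intro z hz hzi
        rcases le_total (z.re - 1) (1 / 2 + 1 / ℓ) with h | h
        · obtain ⟨j, hj, h1, h2⟩ := hwin z.im hzi
          exact (hgood j hj).2 z (by linarith) h h1 h2
        · exact hlow' z (by linarith))
    have hγ2 : γ ^ 2 = t * (t * ℓ ^ 2) / 9 := by rw [hγ]; ring
    have hkE : kap * E ≤ 9 * γ ^ 2 / (1179648 * t) := by
      rw [hγ2, hkap]
      rw [le_div_iff₀ (by positivity)]
      nlinarith
    obtain ⟨h1, h2⟩ := half_lt_allQ D G ht hSS hγ0 hγ1 rfl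
      (by
        refine hkE.trans ?_
        rw [div_le_iff₀ (by positivity)]
        have e1 : γ ^ 2 * (1 / (4 * t)) / 128 * (1179648 * t) = 2304 * γ ^ 2 := by
          field_simp; norm_num
        rw [e1]
        have : 0 ≤ γ ^ 2 := by positivity
        linarith)
      (by
        rw [div_le_iff₀ hr0]
        have e1 : γ * (1 / (4 * t)) / 128 * (γ / 16) = γ ^ 2 / (8192 * t) := by
          field_simp; norm_num
        rw [e1]
        calc 8 * (kap * E) ≤ 8 * (9 * γ ^ 2 / (1179648 * t)) := by gcongr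
          _ = γ ^ 2 / (16384 * t) := by field_simp; norm_num
          _ ≤ _ := by
            gcongr
            norm_num)
      (by
        rw [div_le_iff₀ (by positivity)]
        have e1 : 1 / (4 * t) / 16 * (γ / 16) ^ 2 = γ ^ 2 / (16384 * t) := by
          field_simp; norm_num
        rw [e1]
        calc 8 * (kap * E) ≤ 8 * (9 * γ ^ 2 / (1179648 * t)) := by gcongr
          _ = γ ^ 2 / (16384 * t) := by field_simp; norm_num)
      (by
        calc 3 * γ = 2 * t * (ℓ / 2) := by rw [hγ]; ring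
          _ ≤ _ := by gcongr)
    have hre := D.zero_re_of_half ht ht8 hs h1
    exact ⟨hre, D.zero_simple_of_pos ht ht8 hs hre h2⟩

end Pool.Agent.H6
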