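import Mathlib
import Pool.Agent.H6.QDens

/-!
Density theorem for the zeros of the heat flow deformation, natural time scale: counting.
-/

open Real MeasureTheory Set Filter Topology

namespace Pool.Agent.H6

open Pool.Agent.H5 (Lser)

open Classical in
/-- **Density theorem.** -/
theorem density_nat {d : ℕ} {M : ℝ} {Λ : ℂ → ℂ} {w : ℂ}
    (D : FEData M Λ (Lser (d : ℤ)) w)
    (hΛ : ∀ s : ℂ, 3 / 2 < s.re → Λ s = (M : ℂ) ^ s * Complex.Gamma s * Lser (d : ℤ) s)
    (E : EdData d M Λ) :
    ∃ C : ℝ, ∀ T τ : ℝ, 2 ≤ T → 0 < τ → τ * Real.log T ≤ 1 →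
      (((Finset.range (⌊T⌋₊ + 1)).filter (fun m => ¬ GoodAt τ Λ m)).card : ℝ) ≤
        C * (T * Real.log T ^ 10 * Real.exp (-(kap / 3 * (τ * Real.log T ^ 2)))) := by
  obtain ⟨ℓ1, hℓ1, hgood⟩ := goodAt_of D hΛ
  obtain ⟨C1, hC1, hU⟩ := count_WinU D E
  obtain ⟨C2, hC2, hMo⟩ := count_WinM
  obtain ⟨C3, hC3, hN⟩ := count_WinN E
  have hkap : kap = 1 / 1179648 := rfl
  have hkap0 : 0 < kap := by rw [hkap]; norm_num
  have hlog2 : 0 < Real.log 2 := Real.log_pos (by norm_num)
  refine ⟨2 * Real.exp ℓ1 / Real.log 2 ^ 10 + 2 + (7 + 7 * (C1 + C2 + C3)), ?_⟩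
  intro T τ hT hτ0 hτ1
  have hT0 : 0 < T := by linarith
  have hT1 : 1 ≤ T := by linarith
  set ℓ := Real.log T with hℓ
  have hℓ2 : Real.log 2 ≤ ℓ := Real.log_le_log (by norm_num) hT
  have hℓ0 : 0 < ℓ := by linarith
  set q : ℝ := kap / 3 * (τ * ℓ ^ 2) with hq
  have hq0 : 0 ≤ q := by positivity
  have hEℓ : τ * ℓ ^ 2 ≤ ℓ := by
    calc τ * ℓ ^ 2 = (τ * ℓ) * ℓ := by ring
      _ ≤ 1 * ℓ := by gcongr
      _ = ℓ := one_mul ℓ
  have hqℓ : q ≤ ℓ / 5 := by
    rw [hq, hkap]
    linarith
  set R : ℝ := T * ℓ ^ 10 * Real.exp (-q) with hR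
  have hR0 : 0 < R := by positivity
  have hA1 : 0 ≤ 2 * Real.exp ℓ1 / Real.log 2 ^ 10 := by positivity
  have htriv : (((Finset.range (⌊T⌋₊ + 1)).filter (fun m => ¬ GoodAt τ Λ m)).card : ℝ) ≤
      2 * T := by
    have h1 : (((Finset.range (⌊T⌋₊ + 1)).filter (fun m => ¬ GoodAt τ Λ m)).card : ℝ) ≤
        ⌊T⌋₊ + 1 := by
      have := Finset.card_filter_le (Finset.range (⌊T⌋₊ + 1)) (fun m => ¬ GoodAt τ Λ m)
      rw [Finset.card_range] at this
      exact_mod_cast this
    have h2 : (⌊T⌋₊ : ℝ) ≤ T := Nat.floor_le hT0.le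
    linarith
  rcases lt_or_ge T (Real.exp ℓ1) with hsmall | hbig
  · -- small T
    have hℓs : ℓ ≤ ℓ1 := by
      have := Real.log_lt_log hT0 hsmall
      rw [Real.log_exp] at this
      exact this.le
    have h1 : 1 ≤ Real.exp ℓ1 * Real.exp (-q) := by
      rw [← Real.exp_add]
      apply Real.one_le_exp
      linarith
    have h2 : Real.log 2 ^ 10 ≤ ℓ ^ 10 := by gcongr
    have h3 : 2 * T ≤ 2 * Real.exp ℓ1 / Real.log 2 ^ 10 * R := by
      calc 2 * T = 2 * T * (1 * 1) := by ring
        _ ≤ 2 * T * ((Real.exp ℓ1 * Real.exp (-q)) * (ℓ ^ 10 / Real.log 2 ^ 10)) := by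
            gcongr
            rw [one_le_div₀ (by positivity)]
            exact h2
        _ = _ := by rw [hR]; ring
    have h4 : 0 ≤ (2 + (7 + 7 * (C1 + C2 + C3))) * R := by positivity
    linarith
  · have hℓℓ : ℓ1 ≤ ℓ := by rw [hℓ, Real.le_log_iff_exp_le hT0]; exact hbig
    have hℓ200 : 200 ≤ ℓ := by linarith
    have hT16 : Real.exp 16 ≤ T := by
      refine le_trans ?_ hbig
      apply Real.exp_le_exp.mpr
      linarith
    have hlogl : 0 ≤ Real.log ℓ := Real.log_nonneg (by linarith)
    rcases lt_or_ge (τ * ℓ ^ 2) (4 / kap * Real.log ℓ) with hEs | hEb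
    · -- trivial range
      have h1 : q ≤ 10 * Real.log ℓ := by
        calc q ≤ kap / 3 * (4 / kap * Real.log ℓ) := by rw [hq]; gcongr
          _ = 4 / 3 * Real.log ℓ := by field_simp
          _ ≤ _ := by linarith
      have h2 : 1 ≤ ℓ ^ 10 * Real.exp (-q) := by
        have e1 : ℓ ^ 10 = Real.exp (10 * Real.log ℓ) := by
          have e2 : 10 * Real.log ℓ = Real.log (ℓ ^ 10) := by rw [Real.log_pow]; norm_num
          rw [e2, Real.exp_log (by positivity)]
        rw [e1, ← Real.exp_add]
        apply Real.one_le_exp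
        linarith
      have h3 : 2 * T ≤ 2 * R := by
        rw [hR, mul_assoc T]
        nlinarith
      have h4 : 0 ≤ (2 * Real.exp ℓ1 / Real.log 2 ^ 10 + (7 + 7 * (C1 + C2 + C3))) * R := by
        positivity
      linarith
    · -- main range
      set W : ℝ := kap * (τ * ℓ ^ 2) with hW
      set η : ℝ := τ * ℓ / 24 with hη
      have hE24 : 24 ≤ τ * ℓ ^ 2 := by
        refine le_trans ?_ hEb
        have h1 : 1 ≤ Real.log ℓ := by
          rw [Real.le_log_iff_exp_le hℓ0]
          have := Real.exp_one_lt_d9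
          linarith
        rw [hkap]
        linarith
      have hη0 : 0 ≤ η := by positivity
      have hη1 : η ≤ 1 / 2 := by rw [hη]; linarith
      have hηρ : 1 / ℓ ≤ η := by
        rw [div_le_iff₀ hℓ0, hη]
        have : τ * ℓ / 24 * ℓ = τ * ℓ ^ 2 / 24 := by ring
        rw [this]
        linarith
      have hsq : 4 ≤ √T := by
        apply Real.le_sqrt_of_sq_le
        have := Real.add_one_le_exp (16:ℝ)
        linarith
      have hY1 : ((⌊√T⌋₊ : ℕ) : ℝ) ≤ √T := Nat.floor_le (by positivity)
      have hYpos : 1 ≤ ⌊√T⌋₊ := by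
        apply Nat.le_floor
        push_cast
        linarith
      have hYT : ((⌊√T⌋₊ : ℕ) : ℝ) ^ 2 ≤ T := by
        calc ((⌊√T⌋₊ : ℕ) : ℝ) ^ 2 ≤ √T ^ 2 := by gcongr
          _ = T := Real.sq_sqrt hT0.le
      have hTR : T * Real.exp (-q) ≤ R := by
        rw [hR]
        have h1 : (1:ℝ) ≤ ℓ ^ 10 := one_le_pow₀ (by linarith)
        have h2 : T * 1 ≤ T * ℓ ^ 10 := by gcongr
        have := Real.exp_pos (-q)
        nlinarith
      have hT1' : 1 ≤ T * Real.exp (-q) := by
        rw [← Real.exp_log hT0, ← hℓ, ← Real.exp_add]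
        apply Real.one_le_exp
        linarith
      set k0 : ℕ := ⌈T * Real.exp (-q)⌉₊ with hk0
      set B : Finset ℕ := (Finset.range (⌊3 * T⌋₊ + 1)).filter (fun k => 1 ≤ k ∧
        (k : ℝ) + 2 ≤ 3 * T ∧ T * Real.exp (-q) ≤ k ∧
          (¬ WinU M Λ T W k ∨ ¬ WinL M Λ T W η k)) with hB
      have hBcard : (B.card : ℝ) ≤ (C1 + C2 + C3) * R := by
        set B1 : Finset ℕ := B.filter (fun k : ℕ => ¬ WinU M Λ T W k) with hB1
        set B2 : Finset ℕ := B.filter (fun k : ℕ => ∃ s : ℂ, η ≤ s.re - 1 ∧ s.re - 1 ≤ 1 / 2 + 1 / Real.log T ∧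
          (k : ℝ) ≤ s.im ∧ s.im ≤ k + 1 ∧ Real.exp W / 2 ≤ ‖mol (d : ℤ) ⌊√T⌋₊ s‖) with hB2
        set B3 : Finset ℕ := B.filter (fun k : ℕ => ∃ s : ℂ, η ≤ s.re - 1 ∧ s.re - 1 ≤ 1 / 2 + 1 / Real.log T ∧
          (k : ℝ) ≤ s.im ∧ s.im ≤ k + 1 ∧
          1 / 2 * ‖(M : ℂ) ^ s * Complex.Gamma s‖ ≤ ‖molA (d : ℤ) ⌊√T⌋₊ M Λ s‖) with hB3
        have h1 : (B1.card : ℝ) ≤ C1 * R := by
          have h := hU T W q hT16 hq0 B1 (by
            intro m hm
            rw [hB1, Finset.mem_filter, hB, Finset.mem_filter] at hm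
            exact ⟨hm.1.2.1, hm.1.2.2.1, hm.1.2.2.2.1, hm.2⟩)
          refine h.trans ?_
          apply mul_le_mul_of_nonneg_left _ hC1
          rw [hR]
          apply mul_le_mul _ _ (by positivity) (by positivity)
          · apply mul_le_mul_of_nonneg_left _ hT0.le
            apply pow_le_pow_right₀ (by linarith) (by norm_num)
          · apply Real.exp_le_exp.mpr
            have : W = 3 * q := by rw [hW, hq]; ring
            rw [this]
            linarith
        have h2 : (B2.card : ℝ) ≤ C2 * R := by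
          have h := hMo (d : ℤ) T W η ⌊√T⌋₊ hT16 hYpos hYT hηρ hη1 B2 (by
            intro m hm
            rw [hB2, Finset.mem_filter, hB, Finset.mem_filter] at hm
            exact ⟨hm.1.2.1, hm.1.2.2.1, hm.2⟩)
          refine h.trans ?_
          apply mul_le_mul_of_nonneg_left _ hC2
          rw [hR]
          apply mul_le_mul _ _ (by positivity) (by positivity)
          · apply mul_le_mul_of_nonneg_left _ hT0.le
            apply pow_le_pow_right₀ (by linarith) (by norm_num)
          · apply Real.exp_le_exp.mpr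
            have : W = 3 * q := by rw [hW, hq]; ring
            rw [this]
            linarith
        have h3 : (B3.card : ℝ) ≤ C3 * R := by
          have h := hN T q η hT16 hq0 hηρ hη1 B3 (by
            intro m hm
            rw [hB3, Finset.mem_filter, hB, Finset.mem_filter] at hm
            exact ⟨hm.1.2.1, hm.1.2.2.1, hm.1.2.2.2.1, hm.2⟩)
          refine h.trans ?_
          apply mul_le_mul_of_nonneg_left _ hC3
          rw [hR]
          apply mul_le_mul_of_nonneg_left _ (by positivity)
          apply Real.exp_le_exp.mpr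
          have e1 : η * Real.log T / 4 = (τ * ℓ ^ 2) / 96 := by rw [hη, ← hℓ]; ring
          rw [e1, hq, hkap]
          nlinarith
        have h4 : B ⊆ B1 ∪ (B2 ∪ B3) := by
          intro k hk
          have hk' := hk
          rw [hB, Finset.mem_filter] at hk'
          rcases hk'.2.2.2.2 with h | h
          · exact Finset.mem_union_left _ (Finset.mem_filter.mpr ⟨hk, h⟩)
          · apply Finset.mem_union_right
            rcases not_WinL (d := (d : ℤ)) D.M_pos hη0 ⌊√T⌋₊ h with h5 | h5
            · exact Finset.mem_union_left _ (Finset.mem_filter.mpr ⟨hk, h5⟩)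
            · exact Finset.mem_union_right _ (Finset.mem_filter.mpr ⟨hk, h5⟩)
        have h5 : (B.card : ℝ) ≤ (B1.card : ℝ) + (B2.card + B3.card) := by
          have h6 := Finset.card_le_card h4
          have h7 := Finset.card_union_le B1 (B2 ∪ B3)
          have h8 := Finset.card_union_le B2 B3
          exact_mod_cast (h6.trans h7).trans (by omega)
        linarith
      have hsub : (Finset.range (⌊T⌋₊ + 1)).filter (fun m => ¬ GoodAt τ Λ m) ⊆
          Finset.range (k0 + 4) ∪
            (Finset.range 7).biUnion (fun j => B.image (fun k => k + 3 - j)) := by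
        intro m hm
        rw [Finset.mem_filter, Finset.mem_range] at hm
        obtain ⟨hm1, hm2⟩ := hm
        by_cases hmk : m < k0 + 4
        · exact Finset.mem_union_left _ (Finset.mem_range.mpr hmk)
        · have hmk' : k0 + 4 ≤ m := not_lt.mp hmk
          have hmT : (m : ℝ) ≤ T := by
            have h1 : m ≤ ⌊T⌋₊ := by omega
            exact (Nat.cast_le.mpr h1).trans (Nat.floor_le hT0.le)
          have hk0' : T * Real.exp (-q) ≤ k0 := Nat.le_ceil _
          have hm4 : (k0 : ℝ) + 4 ≤ m := by exact_mod_cast hmk'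
          have hm5 : (5:ℝ) ≤ m := by linarith
          have hm5' : 5 ≤ m := by exact_mod_cast hm5
          apply Finset.mem_union_right
          by_contra hcon
          apply hm2
          apply hgood T τ hbig hτ1 hEb m (by linarith)
          intro j hj
          by_contra hbad
          apply hcon
          rw [Finset.mem_biUnion]
          refine ⟨j, Finset.mem_range.mpr hj, ?_⟩
          rw [Finset.mem_image]
          refine ⟨m + j - 3, ?_, by omega⟩
          have hcast : ((m + j - 3 : ℕ) : ℝ) = (m : ℝ) + j - 3 := by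
            rw [Nat.cast_sub (by omega)]; push_cast; ring
          have hj6 : (j : ℝ) ≤ 6 := by
            have : j ≤ 6 := by omega
            exact_mod_cast this
          have hj0 : (0 : ℝ) ≤ j := Nat.cast_nonneg j
          have hle : ((m + j - 3 : ℕ) : ℝ) + 2 ≤ 3 * T := by
            rw [hcast]; linarith
          rw [hB, Finset.mem_filter, Finset.mem_range]
          refine ⟨?_, by omega, hle, ?_, ?_⟩
          · apply Nat.lt_succ_of_le
            apply Nat.le_floor
            linarith
          · rw [hcast]; linarith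
          · by_contra h
            push Not at h
            exact hbad h
      have hcard := Finset.card_le_card hsub
      have h1 : (Finset.range (k0 + 4) ∪ (Finset.range 7).biUnion
          (fun j => B.image (fun k => k + 3 - j))).card ≤ (k0 + 4) + 7 * B.card := by
        refine (Finset.card_union_le _ _).trans ?_
        rw [Finset.card_range]
        apply Nat.add_le_add_left
        refine Finset.card_biUnion_le.trans ?_
        refine (Finset.sum_le_card_nsmul (Finset.range 7) _ B.card
          (fun j _ => Finset.card_image_le)).trans ?_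
        simp
      have h2 : (((Finset.range (⌊T⌋₊ + 1)).filter (fun m => ¬ GoodAt τ Λ m)).card : ℝ) ≤
          ((k0 : ℝ) + 4) + 7 * B.card := by
        exact_mod_cast hcard.trans h1
      have h3 : (k0 : ℝ) ≤ T * Real.exp (-q) + 1 := (Nat.ceil_lt_add_one (by positivity)).le
      have h4 : 0 ≤ (2 * Real.exp ℓ1 / Real.log 2 ^ 10 + 2) * R := by positivity
      have h5 : T * Real.exp (-q) + 1 + 4 ≤ 7 * R := by linarith
      nlinarith

end Pool.Agent.H6
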